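import Mathlib

section

namespace DF72

open Set Filter Topology

variable {𝕜 : Type*} [RCLike 𝕜] {E : Type*} [NormedAddCommGroup E] [NormedSpace 𝕜 E]

lemma surj_of_near [CompleteSpace E] {A B : E →L[𝕜] E} {c : ℝ} (hc : 0 < c)
    (hA : ∀ x, c * ‖x‖ ≤ ‖A x‖) (hs : Function.Surjective A) (hAB : ‖B - A‖ < c) :
    Function.Surjective B := by
  rcases subsingleton_or_nontrivial E with hE | hE
  · intro y; exact ⟨0, Subsingleton.elim _ _⟩
  have hker : LinearMap.ker A.toLinearMap = ⊥ := by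
    rw [LinearMap.ker_eq_bot']
    intro x hx
    have h1 := hA x
    have h2 : A x = 0 := hx
    rw [h2, norm_zero] at h1
    have : ‖x‖ ≤ 0 := by
      by_contra h3
      push Not at h3
      have := mul_pos hc h3
      linarith
    simpa using this
  have hrange : LinearMap.range A.toLinearMap = ⊤ := LinearMap.range_eq_top.2 hs
  let e := ContinuousLinearEquiv.ofBijective A hker hrange
  have he : (e : E →L[𝕜] E) = A := ContinuousLinearEquiv.coe_ofBijective A hker hrange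
  have hsymm : ‖(e.symm : E →L[𝕜] E)‖ ≤ c⁻¹ := by
    apply ContinuousLinearMap.opNorm_le_bound _ (by positivity)
    intro y
    have h1 := hA (e.symm y)
    have h2 : A (e.symm y) = y := by
      rw [← he]; simp
    rw [h2] at h1
    have : ‖(e.symm : E →L[𝕜] E) y‖ = ‖e.symm y‖ := rfl
    rw [this, ← div_eq_inv_mul, le_div_iff₀ hc]
    linarith
  let u : (E →L[𝕜] E)ˣ := ContinuousLinearEquiv.toUnit e
  have hu : (u : E →L[𝕜] E) = A := he
  have hui : ((u⁻¹ : (E →L[𝕜] E)ˣ) : E →L[𝕜] E) = (e.symm : E →L[𝕜] E) := rfl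
  have hpos : 0 < ‖((u⁻¹ : (E →L[𝕜] E)ˣ) : E →L[𝕜] E)‖ := Units.norm_pos u⁻¹
  have hlt : ‖B - (u : E →L[𝕜] E)‖ < ‖((u⁻¹ : (E →L[𝕜] E)ˣ) : E →L[𝕜] E)‖⁻¹ := by
    rw [hu]
    refine lt_of_lt_of_le hAB ?_
    rw [hui] at hpos ⊢
    rw [le_inv_comm₀ hc hpos]
    exact hsymm
  let v := Units.ofNearby u B hlt
  have hv : (v : E →L[𝕜] E) = B := rfl
  intro y
  refine ⟨((v⁻¹ : (E →L[𝕜] E)ˣ) : E →L[𝕜] E) y, ?_⟩
  have : (v : E →L[𝕜] E) * ((v⁻¹ : (E →L[𝕜] E)ˣ) : E →L[𝕜] E) = 1 := v.mul_inv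
  have h3 := congrArg (fun f : E →L[𝕜] E => f y) this
  simpa [hv] using h3

/-- Lemma 1. -/
lemma exists_norm_sub_lt [CompleteSpace E] (T : E →ₗᵢ[𝕜] E) (hT : ¬ Function.Surjective T)
    {c : ℝ} (hc : 0 < c) : ∃ x : E, ‖T x - x‖ < c * ‖x‖ := by
  by_contra hcon
  push Not at hcon
  let A : ℝ → E →L[𝕜] E := fun t => T.toContinuousLinearMap - (t : 𝕜) • ContinuousLinearMap.id 𝕜 E
  have hAx : ∀ t x, A t x = T x - (t : 𝕜) • x := fun t x => rfl
  have hlow : ∀ t : ℝ, 0 ≤ t → ∀ x, c / 2 * ‖x‖ ≤ ‖A t x‖ := by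
    intro t ht x
    rw [hAx]
    have h1 : |1 - t| * ‖x‖ ≤ ‖T x - (t : 𝕜) • x‖ := by
      have := abs_norm_sub_norm_le (T x) ((t : 𝕜) • x)
      rw [T.norm_map, norm_smul, RCLike.norm_ofReal, abs_of_nonneg ht] at this
      have h2 : ‖x‖ - t * ‖x‖ = (1 - t) * ‖x‖ := by ring
      rw [h2, abs_mul, abs_of_nonneg (norm_nonneg x)] at this
      exact this
    have h2 : c * ‖x‖ ≤ ‖T x - (t : 𝕜) • x‖ + |1 - t| * ‖x‖ := by
      have h3 : T x - x = (T x - (t : 𝕜) • x) + ((t - 1 : ℝ) : 𝕜) • x := by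
        push_cast
        rw [sub_smul, one_smul]; abel
      calc c * ‖x‖ ≤ ‖T x - x‖ := hcon x
        _ ≤ ‖T x - (t : 𝕜) • x‖ + ‖((t - 1 : ℝ) : 𝕜) • x‖ := by rw [h3]; exact norm_add_le _ _
        _ = _ := by rw [norm_smul, RCLike.norm_ofReal, abs_sub_comm]
    nlinarith
  have hdiff : ∀ s t : ℝ, ‖A s - A t‖ ≤ |s - t| := by
    intro s t
    apply ContinuousLinearMap.opNorm_le_bound _ (abs_nonneg _)
    intro x
    have : (A s - A t) x = ((t - s : ℝ) : 𝕜) • x := by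
      rw [sub_apply, hAx, hAx]
      push_cast
      rw [sub_smul]; abel
    rw [this, norm_smul, RCLike.norm_ofReal, abs_sub_comm]
  have key : ∀ n : ℕ, ∀ t : ℝ, 0 ≤ t → t ≤ 2 → 2 - n * (c / 4) ≤ t → Function.Surjective (A t) := by
    intro n
    induction n with
    | zero =>
      intro t _ ht2 ht
      have ht : t = 2 := by
        have : (2:ℝ) ≤ t := by simpa using ht
        linarith
      subst ht
      have hB : ∀ x : E, (2:ℝ) * ‖x‖ ≤ ‖((-2 : 𝕜) • ContinuousLinearMap.id 𝕜 E) x‖ := by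
        intro x
        have : ((-2 : 𝕜) • ContinuousLinearMap.id 𝕜 E) x = (-2 : 𝕜) • x := rfl
        rw [this, norm_smul, norm_neg, RCLike.norm_ofNat]
      refine surj_of_near (by norm_num : (0:ℝ) < 2) hB ?_ ?_
      · intro y
        refine ⟨(-2 : 𝕜)⁻¹ • y, ?_⟩
        have : ((-2 : 𝕜) • ContinuousLinearMap.id 𝕜 E) ((-2 : 𝕜)⁻¹ • y) = (-2 : 𝕜) • (-2 : 𝕜)⁻¹ • y := rfl
        rw [this, smul_smul, mul_inv_cancel₀ (by norm_num), one_smul]
      · refine lt_of_le_of_lt (ContinuousLinearMap.opNorm_le_bound _ zero_le_one ?_) one_lt_two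
        intro x
        have : (A 2 - (-2 : 𝕜) • ContinuousLinearMap.id 𝕜 E) x = T x := by
          rw [sub_apply, hAx]
          have : ((-2 : 𝕜) • ContinuousLinearMap.id 𝕜 E) x = (-2 : 𝕜) • x := rfl
          rw [this, neg_smul]
          push_cast
          abel
        rw [this, T.norm_map, one_mul]
    | succ n ih =>
      intro t ht0 ht2 ht
      set s := min (t + c / 4) 2 with hs
      have hts : t ≤ s := le_min (by linarith) ht2
      have hs0 : 0 ≤ s := ht0.trans hts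
      have hs2 : s ≤ 2 := min_le_right _ _
      have hsn : 2 - n * (c / 4) ≤ s := by
        apply le_min
        · push_cast at ht; linarith
        · have : 0 ≤ (n : ℝ) * (c / 4) := by positivity
          linarith
      have hst : s ≤ t + c / 4 := min_le_left _ _
      refine surj_of_near (half_pos hc) (hlow s hs0) (ih s hs0 hs2 hsn) ?_
      refine lt_of_le_of_lt (hdiff t s) ?_
      rw [abs_lt]; constructor <;> linarith
  obtain ⟨n, hn⟩ := exists_nat_gt (2 / (c / 4))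
  have h0 : Function.Surjective (A 0) := by
    apply key n 0 le_rfl (by norm_num)
    rw [div_lt_iff₀ (by positivity)] at hn
    linarith
  apply hT
  intro y
  obtain ⟨x, hx⟩ := h0 y
  refine ⟨x, ?_⟩
  rw [hAx] at hx
  simpa using hx

/-- Cesàro argument: fixed vectors are not in the closure of the range of `T - 1`. -/
lemma fixed_eq_zero (T : E →ₗᵢ[𝕜] E) {x : E} (hx : T x = x)
    (hcl : ∀ δ > 0, ∃ y, ‖x - (T y - y)‖ ≤ δ) : x = 0 := by
  have key : ∀ δ > 0, ‖x‖ ≤ δ := by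
    intro δ hδ
    obtain ⟨y, hy⟩ := hcl (δ / 2) (half_pos hδ)
    have hTk : ∀ m : ℕ, ‖(T^[m]) y‖ = ‖y‖ := by
      intro m
      induction m with
      | zero => rfl
      | succ m ih => rw [Function.iterate_succ', Function.comp, T.norm_map, ih]
    have hind : ∀ m : ℕ, ‖(m : 𝕜) • x - ((T^[m]) y - y)‖ ≤ m * (δ / 2) := by
      intro m
      induction m with
      | zero => simp
      | succ m ih =>
        have h1 : ((m + 1 : ℕ) : 𝕜) • x - ((T^[m+1]) y - y)
            = T ((m : 𝕜) • x - ((T^[m]) y - y)) + (x - (T y - y)) := by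
          rw [Function.iterate_succ', Function.comp, map_sub, map_sub, map_smul, hx]
          push_cast
          rw [add_smul, one_smul]; abel
        rw [h1]
        calc _ ≤ ‖T ((m : 𝕜) • x - ((T^[m]) y - y))‖ + ‖x - (T y - y)‖ := norm_add_le _ _
          _ ≤ m * (δ / 2) + δ / 2 := by rw [T.norm_map]; linarith
          _ = _ := by push_cast; ring
    obtain ⟨m, hm⟩ := exists_nat_gt (2 * ‖y‖ / (δ / 2))
    rw [div_lt_iff₀ (by positivity)] at hm
    have hm0 : (0:ℝ) < m := by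
      by_contra h
      push Not at h
      have : (m:ℝ) = 0 := le_antisymm h (Nat.cast_nonneg m)
      rw [this, zero_mul] at hm
      have := norm_nonneg y
      linarith
    have h2 := hind m
    have h3 : (m:ℝ) * ‖x‖ ≤ m * (δ / 2) + 2 * ‖y‖ := by
      calc (m:ℝ) * ‖x‖ = ‖(m:𝕜) • x‖ := by rw [norm_smul]; simp
        _ = ‖((m : 𝕜) • x - ((T^[m]) y - y)) + ((T^[m]) y - y)‖ := by congr 1; abel
        _ ≤ ‖((m : 𝕜) • x - ((T^[m]) y - y))‖ + ‖((T^[m]) y - y)‖ := norm_add_le _ _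
        _ ≤ m * (δ / 2) + (‖(T^[m]) y‖ + ‖y‖) := add_le_add h2 (norm_sub_le _ _)
        _ = _ := by rw [hTk]; ring
    have h4 : (m:ℝ) * ‖x‖ ≤ m * δ := by nlinarith
    exact le_of_mul_le_mul_left h4 hm0
  have : ‖x‖ ≤ 0 := le_of_forall_pos_le_add (by simpa using key)
  simpa using this

end DF72
end

section

namespace DF72

open Set Filter Topology

variable {𝕜 : Type*} [RCLike 𝕜] {E : Type*} [NormedAddCommGroup E] [NormedSpace 𝕜 E]

/-- Lemma 1': on every subspace of finite codimension `T - 1` is not bounded below. -/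
lemma exists_norm_sub_lt_ker [CompleteSpace E] (T : E →ₗᵢ[𝕜] E) (hT : ¬ Function.Surjective T)
    (s : Finset (E →L[𝕜] 𝕜)) {c : ℝ} (hc : 0 < c) :
    ∃ x : E, ‖x‖ = 1 ∧ (∀ f ∈ s, f x = 0) ∧ ‖T x - x‖ ≤ c := by
  by_contra hcon
  push Not at hcon
  have hlow : ∀ x : E, (∀ f ∈ s, f x = 0) → c * ‖x‖ ≤ ‖T x - x‖ := by
    intro x hx
    rcases eq_or_ne x 0 with rfl | hx0
    · simp
    have hn : 0 < ‖x‖ := norm_pos_iff.2 hx0
    have h1 := hcon (((‖x‖⁻¹ : ℝ) : 𝕜) • x) (by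
      rw [norm_smul, RCLike.norm_ofReal, abs_of_pos (inv_pos.2 hn), inv_mul_cancel₀ hn.ne'])
      (fun f hf => by rw [map_smul, hx f hf, smul_zero])
    rw [map_smul, ← smul_sub, norm_smul, RCLike.norm_ofReal, abs_of_pos (inv_pos.2 hn),
      ← div_eq_inv_mul, lt_div_iff₀ hn] at h1
    exact h1.le
  -- the finite rank operator `P`
  let Φ : E →ₗ[𝕜] (s → 𝕜) := LinearMap.pi fun f => (f : E →L[𝕜] 𝕜).toLinearMap
  have hΦc : Continuous Φ := by
    apply continuous_pi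
    intro f
    exact (f : E →L[𝕜] 𝕜).continuous
  obtain ⟨σ, hσ⟩ := LinearMap.exists_rightInverse_of_surjective Φ.rangeRestrict
    (LinearMap.range_rangeRestrict Φ)
  have hσc : Continuous σ := LinearMap.continuous_of_finiteDimensional σ
  let R := LinearMap.range Φ
  have hσ' : ∀ r : R, Φ (σ r) = r := by
    intro r
    have := congrArg (fun g => ((g r : R) : s → 𝕜)) hσ
    simpa using this
  let P : E →ₗ[𝕜] E := σ ∘ₗ Φ.rangeRestrict
  have hP : ∀ x, ∀ f ∈ s, f (x - P x) = 0 := by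
    intro x f hf
    have h1 : Φ (x - P x) = 0 := by
      rw [map_sub, sub_eq_zero]
      exact (hσ' (Φ.rangeRestrict x)).symm
    exact congrFun h1 ⟨f, hf⟩
  -- the basic estimate
  have hest : ∀ x, ‖x‖ ≤ (1 + 2 / c) * ‖P x‖ + ‖T x - x‖ / c := by
    intro x
    have h1 := hlow (x - P x) (hP x)
    have h2 : ‖T (x - P x) - (x - P x)‖ ≤ ‖T x - x‖ + 2 * ‖P x‖ := by
      have : T (x - P x) - (x - P x) = (T x - x) - (T (P x) - P x) := by
        rw [map_sub]; abel
      rw [this]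
      calc _ ≤ ‖T x - x‖ + ‖T (P x) - P x‖ := norm_sub_le _ _
        _ ≤ ‖T x - x‖ + (‖T (P x)‖ + ‖P x‖) := by gcongr; exact norm_sub_le _ _
        _ = _ := by rw [T.norm_map]; ring
    have h3 : ‖x‖ ≤ ‖x - P x‖ + ‖P x‖ := by
      calc ‖x‖ = ‖(x - P x) + P x‖ := by congr 1; abel
        _ ≤ _ := norm_add_le _ _
    have h4 : ‖x - P x‖ ≤ (‖T x - x‖ + 2 * ‖P x‖) / c := by
      rw [le_div_iff₀ hc]; linarith
    have h5 : (‖T x - x‖ + 2 * ‖P x‖) / c = ‖T x - x‖ / c + 2 / c * ‖P x‖ := by ring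
    linarith
  -- the closure of the range of `T - 1`
  let D : E →ₗ[𝕜] E := T.toLinearMap - LinearMap.id
  have hD : ∀ x, D x = T x - x := fun x => rfl
  let E₁ : Submodule 𝕜 E := (LinearMap.range D).topologicalClosure
  have hE₁c : IsClosed (E₁ : Set E) := Submodule.isClosed_topologicalClosure _
  have hmaps : ∀ x ∈ E₁, T x ∈ E₁ := by
    intro x hx
    have h1 : MapsTo T (LinearMap.range D : Set E) (LinearMap.range D : Set E) := by
      rintro _ ⟨y, rfl⟩
      exact ⟨T y, by rw [hD, hD, map_sub]⟩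
    exact (h1.closure T.continuous) hx
  let T₁ : E₁ →ₗᵢ[𝕜] E₁ :=
    { toLinearMap := T.toLinearMap.restrict hmaps
      norm_map' := fun x => T.norm_map (x : E) }
  have hT₁x : ∀ x : E₁, ((T₁ x : E₁) : E) = T x := fun x => rfl
  have hT₁ : ¬ Function.Surjective T₁ := by
    intro hs
    apply hT
    intro x
    have hx : D x ∈ E₁ := Submodule.le_topologicalClosure _ ⟨x, rfl⟩
    obtain ⟨y, hy⟩ := hs ⟨D x, hx⟩
    refine ⟨x - y, ?_⟩
    have h1 : T (y : E) = T x - x := by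
      rw [← hT₁x, hy]; exact hD x
    rw [map_sub, h1]; abel
  have : CompleteSpace E₁ := hE₁c.completeSpace_coe
  have hseq : ∀ n : ℕ, ∃ x ∈ E₁, ‖x‖ = 1 ∧ ‖T x - x‖ < 1 / ((n : ℝ) + 1) := by
    intro n
    have hpos : (0 : ℝ) < 1 / ((n : ℝ) + 1) := by positivity
    obtain ⟨x, hx⟩ := exists_norm_sub_lt T₁ hT₁ hpos
    have hx' : ‖T (x : E) - x‖ < 1 / ((n : ℝ) + 1) * ‖(x : E)‖ := hx
    have hn : 0 < ‖(x : E)‖ := by
      by_contra h
      push Not at h
      have h0 : ‖(x : E)‖ = 0 := le_antisymm h (norm_nonneg _)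
      rw [h0, mul_zero] at hx'
      exact absurd hx' (not_lt.2 (norm_nonneg _))
    refine ⟨((‖(x : E)‖⁻¹ : ℝ) : 𝕜) • (x : E), E₁.smul_mem _ x.2, ?_, ?_⟩
    · rw [norm_smul, RCLike.norm_ofReal, abs_of_pos (inv_pos.2 hn), inv_mul_cancel₀ hn.ne']
    · rw [map_smul, ← smul_sub, norm_smul, RCLike.norm_ofReal, abs_of_pos (inv_pos.2 hn),
        ← div_eq_inv_mul, div_lt_iff₀ hn]
      exact hx'
  choose x hxE hx1 hxT using hseq
  have hPc : Continuous P := hσc.comp (hΦc.subtype_mk _)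
  -- a subsequence along which `P x` converges
  have hbdd : Bornology.IsBounded (range fun n => Φ.rangeRestrict (x n)) := by
    let Φc : E →L[𝕜] (s → 𝕜) := ⟨Φ, hΦc⟩
    rw [isBounded_iff_forall_norm_le]
    refine ⟨‖Φc‖, ?_⟩
    rintro _ ⟨n, rfl⟩
    calc ‖Φ.rangeRestrict (x n)‖ = ‖Φc (x n)‖ := rfl
      _ ≤ ‖Φc‖ * ‖x n‖ := Φc.le_opNorm _
      _ = ‖Φc‖ := by rw [hx1, mul_one]
  have : ProperSpace (LinearMap.range Φ) := FiniteDimensional.proper 𝕜 _
  obtain ⟨r, -, φ, hφ, hr⟩ := tendsto_subseq_of_bounded hbdd (fun n => mem_range_self n)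
  have hPconv : Tendsto (fun n => P (x (φ n))) atTop (𝓝 (σ r)) := (hσc.tendsto r).comp hr
  have hTconv : Tendsto (fun n => T (x (φ n)) - x (φ n)) atTop (𝓝 0) := by
    rw [tendsto_zero_iff_norm_tendsto_zero]
    refine squeeze_zero (fun n => norm_nonneg _) (fun n => (hxT (φ n)).le) ?_
    exact tendsto_one_div_add_atTop_nhds_zero_nat.comp hφ.tendsto_atTop
  have hcauchy : CauchySeq fun n => x (φ n) := by
    rw [Metric.cauchySeq_iff]
    intro ε hε
    have hC : 0 < 1 + 2 / c := by positivity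
    obtain ⟨N1, hN1⟩ := Metric.cauchySeq_iff.1 hPconv.cauchySeq (ε / (2 * (1 + 2 / c))) (by positivity)
    obtain ⟨N2, hN2⟩ := Metric.cauchySeq_iff.1 hTconv.cauchySeq (ε * c / 2) (by positivity)
    refine ⟨max N1 N2, fun m hm n hn => ?_⟩
    have h1 := hN1 m (le_trans (le_max_left _ _) hm) n (le_trans (le_max_left _ _) hn)
    have h2 := hN2 m (le_trans (le_max_right _ _) hm) n (le_trans (le_max_right _ _) hn)
    rw [dist_eq_norm] at h1 h2 ⊢
    have h3 := hest (x (φ m) - x (φ n))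
    rw [map_sub, map_sub] at h3
    have h4 : T (x (φ m)) - T (x (φ n)) - (x (φ m) - x (φ n))
        = T (x (φ m)) - x (φ m) - (T (x (φ n)) - x (φ n)) := by abel
    rw [h4] at h3
    have h5 : (1 + 2 / c) * ‖P (x (φ m)) - P (x (φ n))‖ < ε / 2 := by
      calc _ < (1 + 2 / c) * (ε / (2 * (1 + 2 / c))) := by gcongr
        _ = ε / 2 := by field_simp
    have h6 : ‖T (x (φ m)) - x (φ m) - (T (x (φ n)) - x (φ n))‖ / c < ε / 2 := by
      rw [div_lt_iff₀ hc]; linarith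
    linarith
  obtain ⟨x₀, hx₀⟩ := cauchySeq_tendsto_of_complete hcauchy
  have hx₀E : x₀ ∈ E₁ := hE₁c.mem_of_tendsto hx₀ (Eventually.of_forall fun n => hxE _)
  have hx₀1 : ‖x₀‖ = 1 := by
    have h1 := hx₀.norm
    simp only [hx1] at h1
    exact tendsto_nhds_unique h1 tendsto_const_nhds
  have hx₀T : T x₀ = x₀ := by
    have h1 : Tendsto (fun n => T (x (φ n)) - x (φ n)) atTop (𝓝 (T x₀ - x₀)) :=
      ((T.continuous.tendsto x₀).comp hx₀).sub hx₀
    exact sub_eq_zero.1 (tendsto_nhds_unique h1 hTconv)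
  have h0 : x₀ = 0 := by
    apply fixed_eq_zero T hx₀T
    intro δ hδ
    have h1 : x₀ ∈ closure (LinearMap.range D : Set E) := hx₀E
    rw [Metric.mem_closure_iff] at h1
    obtain ⟨b, ⟨y, rfl⟩, hy⟩ := h1 δ hδ
    exact ⟨y, by rw [dist_eq_norm] at hy; exact hy.le⟩
  rw [h0, norm_zero] at hx₀1
  exact zero_ne_one hx₀1

/-- extraction of a triangular sequence -/
lemma exists_triangular {P : ℕ → E → Prop}
    (h : ∀ n (s : Finset (E →L[𝕜] 𝕜)), ∃ x, ‖x‖ = 1 ∧ (∀ f ∈ s, f x = 0) ∧ P n x) :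
    ∃ (x : ℕ → E) (f : ℕ → E →L[𝕜] 𝕜), (∀ n, ‖x n‖ = 1) ∧ (∀ n, ‖f n‖ ≤ 1) ∧
      (∀ n, f n (x n) = 1) ∧ (∀ m n, m < n → f m (x n) = 0) ∧ ∀ n, P n (x n) := by
  classical
  choose X hX1 hX0 hXP using h
  have hN : ∀ x : E, ∃ g : E →L[𝕜] 𝕜, ‖g‖ ≤ 1 ∧ g x = (‖x‖ : 𝕜) := exists_dual_vector'' 𝕜
  choose N hN1 hN2 using hN
  let s : ℕ → Finset (E →L[𝕜] 𝕜) := fun n => Nat.rec ∅ (fun n t => insert (N (X n t)) t) n
  have hs : ∀ n, s (n + 1) = insert (N (X n (s n))) (s n) := fun n => rfl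
  have hmono : ∀ m n, m < n → N (X m (s m)) ∈ s n := by
    intro m n hmn
    induction n with
    | zero => omega
    | succ n ih =>
      rw [hs]
      rcases Nat.lt_succ_iff_lt_or_eq.1 hmn with h | h
      · exact Finset.mem_insert_of_mem (ih h)
      · subst h; exact Finset.mem_insert_self _ _
  refine ⟨fun n => X n (s n), fun n => N (X n (s n)), fun n => hX1 _ _, fun n => hN1 _, ?_, ?_,
    fun n => hXP _ _⟩
  · intro n
    rw [hN2, hX1]; simp
  · intro m n hmn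
    exact hX0 n (s n) _ (hmono m n hmn)

/-- coefficient estimate for a triangular sequence -/
lemma triangular_coeff {x : ℕ → E} {f : ℕ → E →L[𝕜] 𝕜} (hx : ∀ n, ‖x n‖ = 1)
    (hf : ∀ n, ‖f n‖ ≤ 1) (hfx : ∀ n, f n (x n) = 1) (h0 : ∀ m n, m < n → f m (x n) = 0)
    (c : ℕ →₀ 𝕜) (i : ℕ) : ‖c i‖ ≤ 2 ^ i * ‖c.sum fun i a => a • x i‖ := by
  set z := c.sum fun i a => a • x i with hz
  have h1 : ∀ i, f i z = c i + ∑ j ∈ Finset.range i, c j * f i (x j) := by
    intro i
    rw [hz, Finsupp.sum, map_sum]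
    have h2 : ∀ j ∈ c.support, f i (c j • x j) = c j * f i (x j) := by
      intro j _; rw [map_smul, smul_eq_mul]
    rw [Finset.sum_congr rfl h2]
    have h3 : ∑ j ∈ c.support, c j * f i (x j)
        = ∑ j ∈ c.support ∪ Finset.range (i + 1), c j * f i (x j) := by
      apply Finset.sum_subset Finset.subset_union_left
      intro j _ hj
      rw [Finsupp.notMem_support_iff.1 hj, zero_mul]
    have h4 : ∑ j ∈ c.support ∪ Finset.range (i + 1), c j * f i (x j)
        = ∑ j ∈ Finset.range (i + 1), c j * f i (x j) := by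
      symm
      apply Finset.sum_subset Finset.subset_union_right
      intro j _ hj
      have : i < j := by
        rw [Finset.mem_range] at hj; omega
      rw [h0 i j this, mul_zero]
    rw [h3, h4, Finset.sum_range_succ, hfx, mul_one, add_comm]
  induction i using Nat.strong_induction_on with
  | _ i ih =>
    have h2 : c i = f i z - ∑ j ∈ Finset.range i, c j * f i (x j) := by rw [h1]; ring
    have h3 : ‖f i z‖ ≤ ‖z‖ := by
      calc ‖f i z‖ ≤ ‖f i‖ * ‖z‖ := (f i).le_opNorm z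
        _ ≤ 1 * ‖z‖ := by gcongr; exact hf i
        _ = ‖z‖ := one_mul _
    have h4 : ‖∑ j ∈ Finset.range i, c j * f i (x j)‖ ≤ ∑ j ∈ Finset.range i, 2 ^ j * ‖z‖ := by
      refine (norm_sum_le _ _).trans (Finset.sum_le_sum fun j hj => ?_)
      rw [norm_mul]
      have h5 : ‖f i (x j)‖ ≤ 1 := by
        calc ‖f i (x j)‖ ≤ ‖f i‖ * ‖x j‖ := (f i).le_opNorm _
          _ ≤ 1 * 1 := by rw [hx]; gcongr; exact hf i
          _ = 1 := one_mul _
      calc ‖c j‖ * ‖f i (x j)‖ ≤ ‖c j‖ * 1 := by gcongr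
        _ = ‖c j‖ := mul_one _
        _ ≤ _ := ih j (Finset.mem_range.1 hj)
    have h5 : ∑ j ∈ Finset.range i, (2:ℝ) ^ j * ‖z‖ = (2 ^ i - 1) * ‖z‖ := by
      rw [← Finset.sum_mul]
      congr 1
      have := Nat.geomSum_eq (le_refl 2) i
      rw [geom_sum_eq (by norm_num)]
      norm_num
    rw [h2]
    calc _ ≤ ‖f i z‖ + ‖∑ j ∈ Finset.range i, c j * f i (x j)‖ := norm_sub_le _ _
      _ ≤ ‖z‖ + (2 ^ i - 1) * ‖z‖ := by rw [← h5]; exact add_le_add h3 h4
      _ = _ := by ring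

/-- Lemma 2. -/
lemma exists_subspace_almost_fixed [CompleteSpace E] (T : E →ₗᵢ[𝕜] E)
    (hT : ¬ Function.Surjective T) {ε : ℝ} (hε : 0 < ε) :
    ∃ Y : Submodule 𝕜 E, IsClosed (Y : Set E) ∧ ¬ Y.FG ∧ ∀ x ∈ Y, ‖T x - x‖ ≤ ε * ‖x‖ := by
  obtain ⟨x, f, hx1, hf1, hfx, h0, hP⟩ := exists_triangular (𝕜 := 𝕜) (E := E)
    (P := fun n x => ‖T x - x‖ ≤ ε * (4⁻¹) ^ (n + 1))
    (fun n s => exists_norm_sub_lt_ker T hT s (by positivity))
  let Y₀ : Submodule 𝕜 E := Submodule.span 𝕜 (range x)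
  refine ⟨Y₀.topologicalClosure, Submodule.isClosed_topologicalClosure _, ?_, ?_⟩
  · intro hfg
    have : FiniteDimensional 𝕜 Y₀.topologicalClosure := Module.Finite.of_fg hfg
    have hmem : ∀ n, x n ∈ Y₀.topologicalClosure := fun n =>
      Submodule.le_topologicalClosure _ (Submodule.subset_span (mem_range_self n))
    have hli : LinearIndependent 𝕜 x := by
      rw [linearIndependent_iff]
      intro c hc
      ext i
      have h1 := triangular_coeff hx1 hf1 hfx h0 c i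
      rw [Finsupp.linearCombination_apply] at hc
      rw [hc, norm_zero, mul_zero] at h1
      simpa using h1
    have hli' : LinearIndependent 𝕜 (fun n => (⟨x n, hmem n⟩ : Y₀.topologicalClosure)) := by
      apply LinearIndependent.of_comp (Y₀.topologicalClosure.subtype)
      exact hli
    have := hli'.finite
    exact not_finite ℕ
  · have h1 : ∀ z ∈ Y₀, ‖T z - z‖ ≤ ε * ‖z‖ := by
      intro z hz
      obtain ⟨c, rfl⟩ := Finsupp.mem_span_range_iff_exists_finsupp.1 hz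
      set z := c.sum fun i a => a • x i with hzdef
      have h2 : T z - z = ∑ i ∈ c.support, c i • (T (x i) - x i) := by
        rw [hzdef, Finsupp.sum, map_sum, ← Finset.sum_sub_distrib]
        apply Finset.sum_congr rfl
        intro i _
        rw [map_smul, smul_sub]
      obtain ⟨N, hN⟩ : ∃ N, c.support ⊆ Finset.range N := by
        refine ⟨c.support.sup id + 1, fun i hi => ?_⟩
        rw [Finset.mem_range]
        have := Finset.le_sup (f := id) hi
        simp only [id] at this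
        omega
      rw [h2]
      calc ‖∑ i ∈ c.support, c i • (T (x i) - x i)‖
          ≤ ∑ i ∈ c.support, ‖c i • (T (x i) - x i)‖ := norm_sum_le _ _
        _ ≤ ∑ i ∈ c.support, (2 ^ i * ‖z‖) * (ε * (4⁻¹) ^ (i + 1)) := by
          apply Finset.sum_le_sum
          intro i _
          rw [norm_smul]
          exact mul_le_mul (triangular_coeff hx1 hf1 hfx h0 c i) (hP i) (norm_nonneg _) (by positivity)
        _ ≤ ∑ i ∈ Finset.range N, (2 ^ i * ‖z‖) * (ε * (4⁻¹) ^ (i + 1)) :=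
          Finset.sum_le_sum_of_subset_of_nonneg hN (fun i _ _ => by positivity)
        _ = (ε * ‖z‖) * (4⁻¹ * ∑ i ∈ Finset.range N, (2⁻¹ : ℝ) ^ i) := by
          rw [Finset.mul_sum, Finset.mul_sum]
          apply Finset.sum_congr rfl
          intro i _
          have : (2:ℝ) ^ i * (4⁻¹) ^ i = (2⁻¹) ^ i := by rw [← mul_pow]; norm_num
          rw [pow_succ, ← this]; ring
        _ ≤ (ε * ‖z‖) * 1 := by
          gcongr
          have h3 : ∑ i ∈ Finset.range N, (2⁻¹ : ℝ) ^ i ≤ 2 := by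
            have h4 := Summable.sum_le_tsum (f := fun i => (2⁻¹ : ℝ) ^ i) (Finset.range N)
              (fun i _ => by positivity) (summable_geometric_of_lt_one (by norm_num) (by norm_num))
            rw [tsum_geometric_of_lt_one (by norm_num) (by norm_num)] at h4
            norm_num at h4
            simpa using h4
          linarith
        _ = ε * ‖z‖ := mul_one _
    intro z hz
    have h2 : IsClosed {z : E | ‖T z - z‖ ≤ ε * ‖z‖} := by
      apply isClosed_le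
      · exact (T.continuous.sub continuous_id).norm
      · exact continuous_const.mul continuous_norm
    exact closure_minimal h1 h2 hz

end DF72
end

section

namespace DF72

open Set Filter Topology

variable {𝕜 : Type*} [RCLike 𝕜] {X : Type*} [NormedAddCommGroup X] [NormedSpace 𝕜 X]

/-- every closed infinite-dimensional subspace is the range of a linear isometry of `X`. -/
def IsoHom (𝕜 : Type*) [RCLike 𝕜] (X : Type*) [NormedAddCommGroup X] [NormedSpace 𝕜 X] : Prop :=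
  ∀ Y : Submodule 𝕜 X, IsClosed (Y : Set X) → ¬ Y.FG →
    ∃ g : X →ₗᵢ[𝕜] X, LinearMap.range g.toLinearMap = Y

lemma triangular_closure_not_fg {x : ℕ → X} {f : ℕ → X →L[𝕜] 𝕜} (hx : ∀ n, ‖x n‖ = 1)
    (hf : ∀ n, ‖f n‖ ≤ 1) (hfx : ∀ n, f n (x n) = 1) (h0 : ∀ m n, m < n → f m (x n) = 0) :
    ¬ (Submodule.span 𝕜 (range x)).topologicalClosure.FG := by
  intro hfg
  have : FiniteDimensional 𝕜 (Submodule.span 𝕜 (range x)).topologicalClosure :=
    Module.Finite.of_fg hfg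
  have hmem : ∀ n, x n ∈ (Submodule.span 𝕜 (range x)).topologicalClosure := fun n =>
    Submodule.le_topologicalClosure _ (Submodule.subset_span (mem_range_self n))
  have hli : LinearIndependent 𝕜 x := by
    rw [linearIndependent_iff]
    intro c hc
    ext i
    have h1 := triangular_coeff hx hf hfx h0 c i
    rw [Finsupp.linearCombination_apply] at hc
    rw [hc, norm_zero, mul_zero] at h1
    simpa using h1
  have hli' : LinearIndependent 𝕜
      (fun n => (⟨x n, hmem n⟩ : (Submodule.span 𝕜 (range x)).topologicalClosure)) := by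
    apply LinearIndependent.of_comp ((Submodule.span 𝕜 (range x)).topologicalClosure.subtype)
    exact hli
  have := hli'.finite
  exact not_finite ℕ

lemma exists_factor {f g : X →ₗᵢ[𝕜] X}
    (h : LinearMap.range g.toLinearMap ≤ LinearMap.range f.toLinearMap) :
    ∃ k : X →ₗᵢ[𝕜] X, ∀ x, f (k x) = g x := by
  have hg : ∀ x, g x ∈ LinearMap.range f.toLinearMap := fun x => h ⟨x, rfl⟩
  let g' : X →ₗᵢ[𝕜] LinearMap.range f.toLinearMap :=
    { toLinearMap := LinearMap.codRestrict _ g.toLinearMap hg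
      norm_map' := fun x => g.norm_map x }
  refine ⟨f.equivRange.symm.toLinearIsometry.comp g', fun x => ?_⟩
  have h1 : f.equivRange (f.equivRange.symm (g' x)) = g' x := f.equivRange.apply_symm_apply _
  have h2 := congrArg (fun y : LinearMap.range f.toLinearMap => (y : X)) h1
  exact h2

lemma range_isClosed [CompleteSpace X] (f : X →ₗᵢ[𝕜] X) :
    IsClosed (LinearMap.range f.toLinearMap : Set X) := by
  have := f.isometry.isClosedEmbedding.isClosed_range
  simpa [LinearMap.coe_range] using this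

lemma range_not_fg (hX : ¬ FiniteDimensional 𝕜 X) (f : X →ₗᵢ[𝕜] X) :
    ¬ (LinearMap.range f.toLinearMap).FG := by
  intro h
  apply hX
  have : FiniteDimensional 𝕜 (LinearMap.range f.toLinearMap) := Module.Finite.of_fg h
  exact f.equivRange.symm.toLinearEquiv.finiteDimensional

lemma fg_of_le {Y Z : Submodule 𝕜 X} (hZ : Z.FG) (h : Y ≤ Z) : Y.FG := by
  have : FiniteDimensional 𝕜 Z := Module.Finite.of_fg hZ
  have : FiniteDimensional 𝕜 Y := Submodule.finiteDimensional_of_le h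
  exact Submodule.fg_iff_finiteDimensional Y |>.2 this

lemma inf_not_fg {Y Z F : Submodule 𝕜 X} (hF : F.FG) (hY : ¬ Y.FG) (h : Y ≤ F ⊔ Z) :
    ¬ (Y ⊓ Z).FG := by
  intro h1
  apply hY
  apply Submodule.fg_of_fg_map_of_fg_inf_ker Z.mkQ
  · have h2 : Y.map Z.mkQ ≤ F.map Z.mkQ := by
      refine (Submodule.map_mono h).trans ?_
      rw [Submodule.map_sup]
      simp
    have : FiniteDimensional 𝕜 F := Module.Finite.of_fg hF
    have h3 : (F.map Z.mkQ).FG := hF.map _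
    have : FiniteDimensional 𝕜 (F.map Z.mkQ) := Module.Finite.of_fg h3
    have : FiniteDimensional 𝕜 (Y.map Z.mkQ) := Submodule.finiteDimensional_of_le h2
    exact Submodule.fg_iff_finiteDimensional _ |>.2 this
  · rw [Submodule.ker_mkQ]; exact h1

/-- two isometries whose ranges have almost comparable ranges have a common restriction -/
lemma exists_common [CompleteSpace X] (hom : IsoHom 𝕜 X) (hX : ¬ FiniteDimensional 𝕜 X)
    {F : Submodule 𝕜 X} (hF : F.FG) {f g : X →ₗᵢ[𝕜] X}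
    (h : LinearMap.range g.toLinearMap ≤ F ⊔ LinearMap.range f.toLinearMap) :
    ∃ k k' : X →ₗᵢ[𝕜] X, (∀ x, g (k x) = f (k' x)) ∧
      LinearMap.range (g.comp k).toLinearMap =
        LinearMap.range g.toLinearMap ⊓ LinearMap.range f.toLinearMap := by
  obtain ⟨l, hl⟩ := hom (LinearMap.range g.toLinearMap ⊓ LinearMap.range f.toLinearMap)
    ((range_isClosed g).inter (range_isClosed f)) (inf_not_fg hF (range_not_fg hX g) h)
  obtain ⟨k, hk⟩ := exists_factor (f := g) (g := l) (by rw [hl]; exact inf_le_left)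
  obtain ⟨k', hk'⟩ := exists_factor (f := f) (g := l) (by rw [hl]; exact inf_le_right)
  refine ⟨k, k', fun x => by rw [hk, hk'], ?_⟩
  rw [← hl]
  congr 1
  ext x
  exact hk x

/-- there is a vector in a non-FG subspace killed by finitely many functionals -/
lemma exists_unit_mem_ker {Y : Submodule 𝕜 X} (hY : ¬ Y.FG) (s : Finset (X →L[𝕜] 𝕜)) :
    ∃ x, ‖x‖ = 1 ∧ (∀ f ∈ s, f x = 0) ∧ x ∈ Y := by
  let Φ : X →ₗ[𝕜] (s → 𝕜) := LinearMap.pi fun f => (f : X →L[𝕜] 𝕜).toLinearMap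
  have h1 : ¬ (Y ⊓ LinearMap.ker Φ).FG := by
    intro h
    apply hY
    apply Submodule.fg_of_fg_map_of_fg_inf_ker Φ _ h
    exact Submodule.fg_iff_finiteDimensional _ |>.2 inferInstance
  have h2 : Y ⊓ LinearMap.ker Φ ≠ ⊥ := by
    intro h
    rw [h] at h1
    exact h1 Submodule.fg_bot
  obtain ⟨x, hx, hx0⟩ := Submodule.exists_mem_ne_zero_of_ne_bot h2
  have hn : 0 < ‖x‖ := norm_pos_iff.2 hx0
  refine ⟨((‖x‖⁻¹ : ℝ) : 𝕜) • x, ?_, ?_, Y.smul_mem _ hx.1⟩
  · rw [norm_smul, RCLike.norm_ofReal, abs_of_pos (inv_pos.2 hn), inv_mul_cancel₀ hn.ne']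
  · intro f hf
    have h3 : Φ x = 0 := hx.2
    have h4 : f x = 0 := congrFun h3 ⟨f, hf⟩
    rw [map_smul, h4, smul_zero]

/-- fusion (diagonalization) lemma -/
lemma fusion [CompleteSpace X] (hom : IsoHom 𝕜 X) (hX : ¬ FiniteDimensional 𝕜 X)
    (good : ℕ → (X →ₗᵢ[𝕜] X) → Prop)
    (hgood : ∀ n (f k : X →ₗᵢ[𝕜] X), good n f → good n (f.comp k)) :
    ∃ h : X →ₗᵢ[𝕜] X, ∀ n, (∀ k : X →ₗᵢ[𝕜] X, ∃ g : X →ₗᵢ[𝕜] X, good n ((h.comp k).comp g)) ∨
      (∀ k : X →ₗᵢ[𝕜] X, ¬ ∃ g : X →ₗᵢ[𝕜] X, good n ((h.comp k).comp g)) := by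
  classical
  let G : ℕ → (X →ₗᵢ[𝕜] X) → Prop := fun n f => ∃ g : X →ₗᵢ[𝕜] X, good n (f.comp g)
  have hstep : ∀ n (f : X →ₗᵢ[𝕜] X), ∃ f' : X →ₗᵢ[𝕜] X, (∃ k : X →ₗᵢ[𝕜] X, f' = f.comp k) ∧
      ((¬ G n f') ∨ (f' = f ∧ ∀ k : X →ₗᵢ[𝕜] X, G n (f.comp k))) := by
    intro n f
    by_cases h : ∃ k : X →ₗᵢ[𝕜] X, ¬ G n (f.comp k)
    · obtain ⟨k, hk⟩ := h
      exact ⟨f.comp k, ⟨k, rfl⟩, Or.inl hk⟩
    · push Not at h
      exact ⟨f, ⟨LinearIsometry.id, by ext; rfl⟩, Or.inr ⟨rfl, h⟩⟩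
  choose N hN1 hN2 using hstep
  let f : ℕ → X →ₗᵢ[𝕜] X := fun n => Nat.rec LinearIsometry.id (fun n g => N n g) n
  have hf : ∀ n, f (n + 1) = N n (f n) := fun n => rfl
  have hrange : ∀ n, LinearMap.range (f (n+1)).toLinearMap ≤ LinearMap.range (f n).toLinearMap := by
    intro n
    obtain ⟨k, hk⟩ := hN1 n (f n)
    rw [hf, hk]
    rintro _ ⟨x, rfl⟩
    exact ⟨k x, rfl⟩
  have hanti : Antitone fun n => LinearMap.range (f n).toLinearMap := antitone_nat_of_succ_le hrange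
  obtain ⟨z, φ, hz1, hφ1, hφz, hφ0, hzf⟩ := exists_triangular (𝕜 := 𝕜) (E := X)
    (P := fun n x => x ∈ LinearMap.range (f n).toLinearMap)
    (fun n s => exists_unit_mem_ker (range_not_fg hX (f n)) s)
  obtain ⟨h, hh⟩ := hom _ (Submodule.isClosed_topologicalClosure _)
    (triangular_closure_not_fg hz1 hφ1 hφz hφ0)
  have hhle : ∀ n, ∃ F : Submodule 𝕜 X, F.FG ∧
      LinearMap.range h.toLinearMap ≤ F ⊔ LinearMap.range (f n).toLinearMap := by
    intro n
    let F : Submodule 𝕜 X := Submodule.span 𝕜 ((Finset.range n).image z : Finset X)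
    refine ⟨F, ⟨_, rfl⟩, ?_⟩
    have : FiniteDimensional 𝕜 F := Module.Finite.of_fg ⟨_, rfl⟩
    rw [hh]
    apply Submodule.topologicalClosure_minimal
    · rw [Submodule.span_le]
      rintro _ ⟨m, rfl⟩
      by_cases hm : m < n
      · apply Submodule.mem_sup_left
        apply Submodule.subset_span
        simp only [Finset.coe_image, Finset.coe_range, mem_image, mem_Iio]
        exact ⟨m, hm, rfl⟩
      · exact Submodule.mem_sup_right (hanti (not_lt.1 hm) (hzf m))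
    · rw [sup_comm]
      exact Submodule.isClosed_sup_finiteDimensional _ _ (range_isClosed _)
  have hle2 : ∀ n (k : X →ₗᵢ[𝕜] X), ∃ F : Submodule 𝕜 X, F.FG ∧
      LinearMap.range (h.comp k).toLinearMap ≤ F ⊔ LinearMap.range (f n).toLinearMap := by
    intro n k
    obtain ⟨F, hF, h1⟩ := hhle n
    refine ⟨F, hF, le_trans ?_ h1⟩
    rintro _ ⟨x, rfl⟩
    exact ⟨k x, rfl⟩
  refine ⟨h, fun n => ?_⟩
  rcases hN2 n (f n) with hA | ⟨-, hB⟩
  · right
    rintro k ⟨g, hg⟩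
    apply hA
    obtain ⟨F, hF, h1⟩ := hle2 (n+1) (k.comp g)
    obtain ⟨l, l', hl, -⟩ := exists_common hom hX hF h1
    refine ⟨l', ?_⟩
    have h2 : (N n (f n)).comp l' = ((h.comp k).comp g).comp l := by
      ext x
      exact (hl x).symm
    rw [h2]
    exact hgood _ _ _ hg
  · left
    intro k
    obtain ⟨F, hF, h1⟩ := hle2 n k
    obtain ⟨l, l', hl, -⟩ := exists_common hom hX hF h1
    obtain ⟨g, hg⟩ := hB l'
    refine ⟨l.comp g, ?_⟩
    have h2 : (h.comp k).comp (l.comp g) = ((f n).comp l').comp g := by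
      ext x
      exact hl (g x)
    rw [h2]
    exact hg

/-- existence of a non-surjective isometry -/
lemma exists_nonsurj (hom : IsoHom 𝕜 X) (hX : ¬ FiniteDimensional 𝕜 X) :
    ∃ T : X →ₗᵢ[𝕜] X, ¬ Function.Surjective T := by
  have : Nontrivial X := by
    by_contra h
    rw [not_nontrivial_iff_subsingleton] at h
    exact hX inferInstance
  obtain ⟨x, hx⟩ := exists_ne (0 : X)
  obtain ⟨φ, -, hφ⟩ := exists_dual_vector 𝕜 x (norm_ne_zero_iff.2 hx)
  have h1 : ¬ (LinearMap.ker φ.toLinearMap).FG := by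
    intro h
    apply hX
    have h2 : (⊤ : Submodule 𝕜 X).FG := by
      apply Submodule.fg_of_fg_map_of_fg_inf_ker φ.toLinearMap
      · exact Submodule.fg_iff_finiteDimensional _ |>.2 inferInstance
      · rw [top_inf_eq]; exact h
    exact ⟨h2⟩
  obtain ⟨T, hT⟩ := hom _ φ.isClosed_ker h1
  refine ⟨T, fun hs => ?_⟩
  obtain ⟨y, hy⟩ := hs x
  have h2 : x ∈ LinearMap.range T.toLinearMap := ⟨y, hy⟩
  rw [hT] at h2
  have h3 : φ x = 0 := h2
  rw [h3] at hφ
  have h4 : (‖x‖ : 𝕜) ≠ 0 := by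
    rw [Ne, RCLike.ofReal_eq_zero, norm_eq_zero]; exact hx
  exact h4 hφ.symm

/-- the good pairs -/
def Good (lam : 𝕜) (ε : ℝ) (x : X) (l : X →ₗᵢ[𝕜] X) : Prop :=
  ∀ z, ‖x + lam • l z‖ ≤ (1 + ε) * ‖x + l z‖ + ε

/-- Asymptotic unconditionality. -/
theorem AU [CompleteSpace X] [TopologicalSpace.SeparableSpace X] (hom : IsoHom 𝕜 X)
    (hX : ¬ FiniteDimensional 𝕜 X) {lam : 𝕜} (hlam : ‖lam‖ = 1) {ε : ℝ} (hε : 0 < ε) (a : X)
    (f : X →ₗᵢ[𝕜] X) : ∃ g : X →ₗᵢ[𝕜] X, Good lam ε a (f.comp g) := by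
  by_contra hbad
  -- badness is transported
  have hbad' : ∀ h : X →ₗᵢ[𝕜] X, ¬ ∃ g : X →ₗᵢ[𝕜] X, Good lam ε (h a) ((h.comp f).comp g) := by
    rintro h ⟨g, hg⟩
    apply hbad
    refine ⟨g, fun z => ?_⟩
    have h1 := hg z
    have h2 : h a + lam • ((h.comp f).comp g) z = h (a + lam • (f.comp g) z) := by
      rw [map_add, map_smul]; rfl
    have h3 : h a + ((h.comp f).comp g) z = h (a + (f.comp g) z) := by
      rw [map_add]; rfl
    rwa [h2, h3, h.norm_map, h.norm_map] at h1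
  have : Nonempty X := ⟨0⟩
  let d := TopologicalSpace.denseSeq X
  obtain ⟨h, hh⟩ := fusion hom hX (fun n l => Good lam (ε / 4) (d n) l)
    (fun n f k hg z => hg (k z))
  obtain ⟨T, hT⟩ := exists_nonsurj hom hX
  -- the constants
  set ε' : ℝ := min (ε / 4) (ε / (32 * (‖a‖ + 1))) with hε'
  have hε'0 : 0 < ε' := lt_min (by positivity) (by positivity)
  set δ : ℝ := min (ε / 32) (1 / 32 : ℝ) with hδ
  have hδ0 : 0 < δ := lt_min (by positivity) (by norm_num)
  set δ' : ℝ := δ / (1 + ε) with hδ'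
  have hδ'0 : 0 < δ' := by positivity
  have hδ'ε : δ' * (1 + ε) = δ := by rw [hδ']; field_simp
  have hδ1 : δ ≤ ε / 32 := min_le_left _ _
  have hδδ' : δ' ≤ δ := by
    rw [hδ']; exact div_le_self hδ0.le (by linarith)
  -- the almost eigenspaces
  obtain ⟨Yp, hYpc, hYpf, hYp⟩ := exists_subspace_almost_fixed T hT hε'0
  have hlam0 : lam ≠ 0 := by
    rintro rfl; simp at hlam
  let T' : X →ₗᵢ[𝕜] X :=
    { toLinearMap := lam⁻¹ • T.toLinearMap
      norm_map' := fun x => by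
        have : (lam⁻¹ • T.toLinearMap) x = lam⁻¹ • T x := rfl
        rw [this, norm_smul, norm_inv, hlam, inv_one, one_mul, T.norm_map] }
  have hT'x : ∀ x, T' x = lam⁻¹ • T x := fun x => rfl
  have hT' : ¬ Function.Surjective T' := by
    intro hs
    apply hT
    intro y
    obtain ⟨x, hx⟩ := hs (lam⁻¹ • y)
    refine ⟨x, ?_⟩
    rw [hT'x] at hx
    have := congrArg (fun v => lam • v) hx
    simpa [smul_smul, hlam0] using this
  obtain ⟨Ym, hYmc, hYmf, hYm⟩ := exists_subspace_almost_fixed T' hT' hε'0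
  obtain ⟨ep, hep⟩ := hom Yp hYpc hYpf
  obtain ⟨em, hem⟩ := hom Ym hYmc hYmf
  have hep' : ∀ x, ‖T (ep x) - ep x‖ ≤ ε' * ‖x‖ := by
    intro x
    have := hYp (ep x) (by rw [← hep]; exact ⟨x, rfl⟩)
    rwa [ep.norm_map] at this
  have hem' : ∀ x, ‖T (em x) - lam • em x‖ ≤ ε' * ‖x‖ := by
    intro x
    have := hYm (em x) (by rw [← hem]; exact ⟨x, rfl⟩)
    rw [em.norm_map, hT'x] at this
    have h2 : T (em x) - lam • em x = lam • (lam⁻¹ • T (em x) - em x) := by
      rw [smul_sub, smul_smul, mul_inv_cancel₀ hlam0, one_smul]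
    rw [h2, norm_smul, hlam, one_mul]
    exact this
  -- the vector `x`
  set x : X := h (ep a) with hx
  obtain ⟨n, hn⟩ := DenseRange.exists_dist_lt (TopologicalSpace.denseRange_denseSeq X) x hδ'0
  rw [dist_eq_norm] at hn
  have hxn : ‖x‖ = ‖a‖ := by rw [hx, h.norm_map, ep.norm_map]
  -- case A must hold
  have hA : ∀ k : X →ₗᵢ[𝕜] X, ¬ ∃ g : X →ₗᵢ[𝕜] X, Good lam (ε / 4) (d n) ((h.comp k).comp g) := by
    rcases hh n with hB | hA
    · exfalso
      obtain ⟨g, hg⟩ := hB (ep.comp f)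
      apply hbad' (h.comp ep)
      refine ⟨g, fun z => ?_⟩
      have h1 := hg z
      set y := ((h.comp (ep.comp f)).comp g) z with hy
      have hy' : (((h.comp ep).comp f).comp g) z = y := rfl
      rw [hy']
      have hxx : (h.comp ep) a = x := rfl
      rw [hxx]
      have h2 : ‖x + lam • y‖ ≤ ‖d n + lam • y‖ + δ' := by
        calc ‖x + lam • y‖ = ‖(d n + lam • y) + (x - d n)‖ := by congr 1; abel
          _ ≤ ‖d n + lam • y‖ + ‖x - d n‖ := norm_add_le _ _
          _ ≤ _ := by gcongr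
      have h3 : ‖d n + y‖ ≤ ‖x + y‖ + δ' := by
        calc ‖d n + y‖ = ‖(x + y) - (x - d n)‖ := by congr 1; abel
          _ ≤ ‖x + y‖ + ‖x - d n‖ := norm_sub_le _ _
          _ ≤ _ := by gcongr
      have h4 : (1 + ε / 4) * ‖d n + y‖ ≤ (1 + ε / 4) * (‖x + y‖ + δ') := by gcongr
      have h5 : (1 + ε / 4) * δ' ≤ δ := by
        rw [← hδ'ε]; nlinarith
      have h6 := norm_nonneg (x + y)
      nlinarith
    · exact hA
  apply hA em
  refine ⟨LinearIsometry.id, fun z => ?_⟩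
  set y := ((h.comp em).comp LinearIsometry.id) z with hy
  have hyz : y = h (em z) := rfl
  have hyn : ‖y‖ = ‖z‖ := by rw [hyz, h.norm_map, em.norm_map]
  have h1 : ‖x + lam • y‖ ≤ ‖x + y‖ + ε' * (‖a‖ + ‖z‖) := by
    have h2 : ‖x + lam • y‖ = ‖ep a + lam • em z‖ := by
      rw [hx, hyz, ← map_smul, ← map_add, h.norm_map]
    have h3 : ‖x + y‖ = ‖T (ep a + em z)‖ := by
      rw [hx, hyz, ← map_add, h.norm_map, T.norm_map]
    rw [h2, h3]
    have h4 : ep a + lam • em z = T (ep a + em z) - ((T (ep a) - ep a) + (T (em z) - lam • em z)) := by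
      rw [map_add]; abel
    rw [h4]
    calc _ ≤ ‖T (ep a + em z)‖ + ‖(T (ep a) - ep a) + (T (em z) - lam • em z)‖ := norm_sub_le _ _
      _ ≤ ‖T (ep a + em z)‖ + (‖T (ep a) - ep a‖ + ‖T (em z) - lam • em z‖) := by
        gcongr; exact norm_add_le _ _
      _ ≤ ‖T (ep a + em z)‖ + (ε' * ‖a‖ + ε' * ‖z‖) := by
        gcongr
        · exact hep' a
        · exact hem' z
      _ = _ := by ring
  have h5 : ‖z‖ ≤ ‖x + y‖ + ‖a‖ := by
    rw [← hyn, ← hxn]
    calc ‖y‖ = ‖(x + y) - x‖ := by congr 1; abel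
      _ ≤ _ := norm_sub_le _ _
  have h6 : ‖d n + lam • y‖ ≤ ‖x + lam • y‖ + δ' := by
    calc ‖d n + lam • y‖ = ‖(x + lam • y) - (x - d n)‖ := by congr 1; abel
      _ ≤ ‖x + lam • y‖ + ‖x - d n‖ := norm_sub_le _ _
      _ ≤ _ := by gcongr
  have h7 : ‖x + y‖ ≤ ‖d n + y‖ + δ' := by
    calc ‖x + y‖ = ‖(d n + y) + (x - d n)‖ := by congr 1; abel
      _ ≤ ‖d n + y‖ + ‖x - d n‖ := norm_add_le _ _
      _ ≤ _ := by gcongr
  have h8 : ε' * ‖a‖ ≤ ε / 32 := by
    have : ε' ≤ ε / (32 * (‖a‖ + 1)) := min_le_right _ _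
    calc ε' * ‖a‖ ≤ ε / (32 * (‖a‖ + 1)) * (‖a‖ + 1) := by
          gcongr; linarith
      _ = ε / 32 := by field_simp
  have h9 : ε' ≤ ε / 4 := min_le_left _ _
  have h10 : ε' * ‖z‖ ≤ ε' * ‖x + y‖ + ε' * ‖a‖ := by
    calc ε' * ‖z‖ ≤ ε' * (‖x + y‖ + ‖a‖) := by gcongr
      _ = _ := by ring
  have h11 : (1 + ε') * ‖x + y‖ ≤ (1 + ε / 4) * (‖d n + y‖ + δ') := by
    gcongr
  have h12 : (1 + ε / 4) * δ' ≤ δ := by
    rw [← hδ'ε]; nlinarith
  have h13 : δ' ≤ ε / 32 := hδδ'.trans hδ1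
  have h14 : ‖d n + lam • y‖ ≤ (1 + ε / 4) * ‖d n + y‖ + (1 + ε / 4) * δ' + 2 * (ε' * ‖a‖) + δ' := by
    nlinarith
  show ‖d n + lam • y‖ ≤ (1 + ε / 4) * ‖d n + y‖ + ε / 4
  linarith

end DF72
end
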