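import Pool.Agent.Lib.MP_df72c7_an.A3

section

namespace DF72

open Set Filter Topology

variable {X : Type*} [NormedAddCommGroup X] [NormedSpace ℝ X]

/-- The complexification `L_ℝ(ℂ, X)` of a real normed space. -/
def Cx (X : Type*) [NormedAddCommGroup X] [NormedSpace ℝ X] : Type _ := ℂ →L[ℝ] X

namespace Cx

noncomputable instance : NormedAddCommGroup (Cx X) :=
  inferInstanceAs (NormedAddCommGroup (ℂ →L[ℝ] X))

instance [CompleteSpace X] : CompleteSpace (Cx X) := inferInstanceAs (CompleteSpace (ℂ →L[ℝ] X))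

/-- evaluation -/
noncomputable def ev (u : Cx X) (c : ℂ) : X := (show ℂ →L[ℝ] X from u) c

lemma ext {u v : Cx X} (h : ∀ c, ev u c = ev v c) : u = v :=
  ContinuousLinearMap.ext h

lemma norm_ev_le (u : Cx X) (c : ℂ) : ‖ev u c‖ ≤ ‖u‖ * ‖c‖ :=
  ContinuousLinearMap.le_opNorm (show ℂ →L[ℝ] X from u) c

lemma norm_le {u : Cx X} {M : ℝ} (hM : 0 ≤ M) (h : ∀ c, ‖ev u c‖ ≤ M * ‖c‖) : ‖u‖ ≤ M :=
  ContinuousLinearMap.opNorm_le_bound (show ℂ →L[ℝ] X from u) hM h

lemma ev_add (u v : Cx X) (c : ℂ) : ev (u + v) c = ev u c + ev v c := rfl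
lemma ev_sub (u v : Cx X) (c : ℂ) : ev (u - v) c = ev u c - ev v c := rfl
lemma ev_neg (u : Cx X) (c : ℂ) : ev (-u) c = - ev u c := rfl
lemma ev_zero (c : ℂ) : ev (0 : Cx X) c = 0 := rfl
lemma ev_map_add (u : Cx X) (c d : ℂ) : ev u (c + d) = ev u c + ev u d :=
  map_add (show ℂ →L[ℝ] X from u) c d
lemma ev_map_sub (u : Cx X) (c d : ℂ) : ev u (c - d) = ev u c - ev u d :=
  map_sub (show ℂ →L[ℝ] X from u) c d
lemma ev_map_neg (u : Cx X) (c : ℂ) : ev u (-c) = - ev u c :=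
  map_neg (show ℂ →L[ℝ] X from u) c
lemma ev_map_smul (u : Cx X) (r : ℝ) (c : ℂ) : ev u (r • c) = r • ev u c :=
  map_smul (show ℂ →L[ℝ] X from u) r c

noncomputable instance : SMul ℂ (Cx X) :=
  ⟨fun a u => show ℂ →L[ℝ] X from
    (show ℂ →L[ℝ] X from u).comp (ContinuousLinearMap.mul ℝ ℂ a)⟩

lemma ev_smul (a : ℂ) (u : Cx X) (c : ℂ) : ev (a • u) c = ev u (a * c) := rfl

noncomputable instance : Module ℂ (Cx X) where
  one_smul u := ext fun c => by rw [ev_smul, one_mul]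
  mul_smul a b u := ext fun c => by rw [ev_smul, ev_smul, ev_smul]; ring_nf
  smul_zero a := ext fun c => by rw [ev_smul, ev_zero, ev_zero]
  smul_add a u v := ext fun c => by rw [ev_add, ev_smul, ev_smul, ev_smul, ev_add]
  add_smul a b u := ext fun c => by rw [ev_add, ev_smul, ev_smul, ev_smul, add_mul, ev_map_add]
  zero_smul u := ext fun c => by
    rw [ev_smul, zero_mul, ev_zero]
    have := ev_map_smul u 0 0
    simpa using this

noncomputable instance : NormedSpace ℂ (Cx X) where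
  norm_smul_le a u := by
    apply norm_le (by positivity)
    intro c
    rw [ev_smul]
    calc ‖ev u (a * c)‖ ≤ ‖u‖ * ‖a * c‖ := norm_ev_le _ _
      _ = _ := by rw [norm_mul]; ring

lemma ev_real_smul (r : ℝ) (u : Cx X) (c : ℂ) : ev (r • u) c = r • ev u c := by
  have : r • u = (r : ℂ) • u := rfl
  rw [this, ev_smul, ← ev_map_smul]
  rfl

/-- evaluation at `c` as a real linear map -/
noncomputable def evL (c : ℂ) : Cx X →ₗ[ℝ] X where
  toFun u := ev u c
  map_add' u v := ev_add u v c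
  map_smul' r u := ev_real_smul r u c

lemma evL_apply (c : ℂ) (u : Cx X) : evL c u = ev u c := rfl

/-- the isometry `u ↦ lam • (T ∘ u)` -/
noncomputable def lift (T : X →ₗᵢ[ℝ] X) (lam : ℂ) (hlam : ‖lam‖ = 1) : Cx X →ₗᵢ[ℂ] Cx X where
  toFun u := lam • (show Cx X from (T.toContinuousLinearMap.comp (show ℂ →L[ℝ] X from u)))
  map_add' u v := ext fun c => by
    rw [ev_add, ev_smul, ev_smul, ev_smul]
    exact map_add T _ _
  map_smul' a u := ext fun c => by
    show T (ev (a • u) (lam * c)) = T (ev u (lam * (a * c)))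
    rw [ev_smul]; ring_nf
  norm_map' u := by
    show ‖lam • (show Cx X from (T.toContinuousLinearMap.comp (show ℂ →L[ℝ] X from u)))‖ = ‖u‖
    rw [norm_smul, hlam, one_mul]
    exact T.norm_toContinuousLinearMap_comp

lemma ev_lift (T : X →ₗᵢ[ℝ] X) (lam : ℂ) (hlam : ‖lam‖ = 1) (u : Cx X) (c : ℂ) :
    ev (lift T lam hlam u) c = T (ev u (lam * c)) := rfl

lemma lift_not_surjective {T : X →ₗᵢ[ℝ] X} (hT : ¬ Function.Surjective T) (lam : ℂ)
    (hlam : ‖lam‖ = 1) : ¬ Function.Surjective (lift T lam hlam) := by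
  intro hs
  apply hT
  intro y
  let v : Cx X := show ℂ →L[ℝ] X from Complex.reCLM.smulRight y
  obtain ⟨u, hu⟩ := hs v
  refine ⟨ev u lam, ?_⟩
  have h1 : ev (lift T lam hlam u) 1 = ev v 1 := by rw [hu]
  rw [ev_lift, mul_one] at h1
  rw [h1]
  show (Complex.reCLM 1) • y = y
  simp

end Cx

open Cx in
/-- the almost rotation invariant subspace -/
lemma exists_cx_subspace [CompleteSpace X] {T : X →ₗᵢ[ℝ] X} (hT : ¬ Function.Surjective T)
    {κ : ℝ} (hκ : 0 < κ) :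
    ∃ Y : Submodule ℂ (Cx X), IsClosed (Y : Set (Cx X)) ∧ ¬ Y.FG ∧
      ∀ u ∈ Y, ‖u‖ ≤ ‖ev u 1‖ + κ * ‖u‖ := by
  obtain ⟨m, hm⟩ := exists_nat_gt ((1 + 2 * Real.pi) / κ)
  have hpi := Real.pi_pos
  have hm0 : (0:ℝ) < m := lt_trans (by positivity) hm
  set θ : ℝ := 2 * Real.pi / m with hθ
  set η : ℝ := 1 / (m : ℝ) ^ 2 with hη
  have hθ0 : 0 < θ := by positivity
  have hη0 : 0 < η := by positivity
  have hκm : m * η + θ ≤ κ := by
    rw [div_lt_iff₀ hκ] at hm
    have h1 : m * η + θ = (1 + 2 * Real.pi) / m := by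
      rw [hη, hθ]; field_simp
    rw [h1, div_le_iff₀ hm0]
    linarith
  let lam : ℂ := Complex.exp (Complex.I * ((-θ : ℝ) : ℂ))
  have hlam : ‖lam‖ = 1 := Complex.norm_exp_I_mul_ofReal _
  obtain ⟨Y, hYc, hYf, hY⟩ := exists_subspace_almost_fixed (lift T lam hlam)
    (lift_not_surjective hT lam hlam) hη0
  refine ⟨Y, hYc, hYf, fun u hu => ?_⟩
  have h1 : ∀ c : ℂ, ‖c‖ = 1 → ‖ev u c‖ ≤ ‖ev u (lam * c)‖ + η * ‖u‖ := by
    intro c hc
    have h2 := norm_ev_le (lift T lam hlam u - u) c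
    rw [hc, mul_one, ev_sub, ev_lift] at h2
    have h3 := h2.trans (hY u hu)
    calc ‖ev u c‖ = ‖T (ev u (lam * c)) - (T (ev u (lam * c)) - ev u c)‖ := by congr 1; abel
      _ ≤ ‖T (ev u (lam * c))‖ + ‖T (ev u (lam * c)) - ev u c‖ := norm_sub_le _ _
      _ ≤ _ := by rw [T.norm_map]; gcongr
  have h2 : ∀ k : ℕ, ‖ev u (Complex.exp (Complex.I * ((k * θ : ℝ) : ℂ)))‖
      ≤ ‖ev u 1‖ + k * η * ‖u‖ := by
    intro k
    induction k with
    | zero => simp
    | succ k ih =>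
      have h3 := h1 (Complex.exp (Complex.I * (((k + 1 : ℕ) * θ : ℝ) : ℂ)))
        (Complex.norm_exp_I_mul_ofReal _)
      have h4 : lam * Complex.exp (Complex.I * (((k + 1 : ℕ) * θ : ℝ) : ℂ))
          = Complex.exp (Complex.I * ((k * θ : ℝ) : ℂ)) := by
        rw [← Complex.exp_add]
        congr 1
        push_cast
        ring
      rw [h4] at h3
      calc _ ≤ _ := h3
        _ ≤ (‖ev u 1‖ + k * η * ‖u‖) + η * ‖u‖ := by gcongr
        _ = _ := by push_cast; ring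
  apply norm_le (u := u) (M := ‖ev u 1‖ + κ * ‖u‖) (by positivity)
  intro c
  -- write `c = |c| exp(i φ)` with `φ ∈ [0, 2π]`
  obtain ⟨φ, hφ0, hφ2, hφ⟩ : ∃ φ : ℝ, 0 ≤ φ ∧ φ ≤ 2 * Real.pi ∧
      c = (‖c‖ : ℝ) • Complex.exp (Complex.I * (φ : ℂ)) := by
    have harg := Complex.norm_mul_exp_arg_mul_I c
    by_cases h : 0 ≤ Complex.arg c
    · refine ⟨Complex.arg c, h, (Complex.arg_le_pi c).trans (by linarith), ?_⟩
      rw [Complex.real_smul, mul_comm Complex.I, harg]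
    · push Not at h
      refine ⟨Complex.arg c + 2 * Real.pi, by linarith [Complex.neg_pi_lt_arg c], by linarith, ?_⟩
      rw [Complex.real_smul]
      have : Complex.I * ((Complex.arg c + 2 * Real.pi : ℝ) : ℂ)
          = Complex.arg c * Complex.I + 2 * Real.pi * Complex.I := by push_cast; ring
      rw [this, Complex.exp_periodic, harg]
  have h3 : ‖ev u (Complex.exp (Complex.I * (φ : ℂ)))‖ ≤ ‖ev u 1‖ + κ * ‖u‖ := by
    set k := ⌊φ / θ⌋₊ with hk
    have hk1 : (k : ℝ) ≤ φ / θ := Nat.floor_le (by positivity)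
    have hk2 : φ / θ < k + 1 := Nat.lt_floor_add_one _
    rw [le_div_iff₀ hθ0] at hk1
    rw [div_lt_iff₀ hθ0] at hk2
    have hkm : (k : ℝ) ≤ m := by
      have : (k : ℝ) * θ ≤ m * θ := by
        rw [hθ]
        calc (k : ℝ) * (2 * Real.pi / m) ≤ φ := hk1
          _ ≤ 2 * Real.pi := hφ2
          _ = _ := by field_simp
      exact le_of_mul_le_mul_right this hθ0
    have h4 : ‖Complex.exp (Complex.I * (φ : ℂ)) - Complex.exp (Complex.I * ((k * θ : ℝ) : ℂ))‖
        ≤ θ := by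
      have h5 : Complex.exp (Complex.I * (φ : ℂ)) - Complex.exp (Complex.I * ((k * θ : ℝ) : ℂ))
          = Complex.exp (Complex.I * ((k * θ : ℝ) : ℂ)) *
            (Complex.exp (Complex.I * ((φ - k * θ : ℝ) : ℂ)) - 1) := by
        rw [mul_sub, mul_one, ← Complex.exp_add]
        congr 2
        push_cast
        ring
      rw [h5, norm_mul, Complex.norm_exp_I_mul_ofReal, one_mul]
      refine Real.norm_exp_I_mul_ofReal_sub_one_le.trans ?_
      rw [Real.norm_eq_abs, abs_of_nonneg (by linarith)]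
      linarith
    have h6 : ev u (Complex.exp (Complex.I * (φ : ℂ)))
        = ev u (Complex.exp (Complex.I * ((k * θ : ℝ) : ℂ)))
          + ev u (Complex.exp (Complex.I * (φ : ℂ)) - Complex.exp (Complex.I * ((k * θ : ℝ) : ℂ))) := by
      rw [ev_map_sub]; abel
    rw [h6]
    calc _ ≤ ‖ev u (Complex.exp (Complex.I * ((k * θ : ℝ) : ℂ)))‖ + ‖u‖ * θ := by
          refine (norm_add_le _ _).trans ?_
          gcongr
          refine (norm_ev_le _ _).trans ?_
          gcongr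
      _ ≤ (‖ev u 1‖ + k * η * ‖u‖) + ‖u‖ * θ := by gcongr; exact h2 k
      _ ≤ (‖ev u 1‖ + m * η * ‖u‖) + ‖u‖ * θ := by gcongr
      _ = ‖ev u 1‖ + (m * η + θ) * ‖u‖ := by ring
      _ ≤ _ := by gcongr
  conv_lhs => rw [hφ]
  rw [ev_map_smul, norm_smul, Real.norm_eq_abs, abs_of_nonneg (norm_nonneg _), mul_comm]
  gcongr

open Cx in
/-- **J-lemma** -/
theorem exists_J [CompleteSpace X] (hom : IsoHom ℝ X) (hX : ¬ FiniteDimensional ℝ X)
    {ε : ℝ} (hε : 0 < ε) :
    ∃ J : X →L[ℝ] X, (∀ x, J (J x) = -x) ∧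
      ∀ (φ : ℝ) (x : X), ‖Real.cos φ • x + Real.sin φ • J x‖ ≤ (1 + ε) * ‖x‖ := by
  obtain ⟨T, hT⟩ := exists_nonsurj hom hX
  set κ : ℝ := ε / (1 + ε) with hκ
  have hκ0 : 0 < κ := by positivity
  obtain ⟨Y, hYc, hYf, hY⟩ := exists_cx_subspace hT hκ0
  have hY' : ∀ u ∈ Y, ‖u‖ ≤ (1 + ε) * ‖ev u 1‖ := by
    intro u hu
    have h1 := hY u hu
    have h2 : (1 + ε) * κ = ε := by rw [hκ]; field_simp
    have h3 : (1 + ε) * ‖u‖ ≤ (1 + ε) * (‖ev u 1‖ + κ * ‖u‖) := by gcongr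
    have h4 : (1 + ε) * (‖ev u 1‖ + κ * ‖u‖) = (1 + ε) * ‖ev u 1‖ + ((1 + ε) * κ) * ‖u‖ := by ring
    rw [h4, h2] at h3
    linarith
  let Yr : Submodule ℝ (Cx X) := Y.restrictScalars ℝ
  let E1 : Yr →ₗ[ℝ] X := (evL 1).comp Yr.subtype
  have hE1 : ∀ u : Yr, E1 u = ev (u : Cx X) 1 := fun u => rfl
  have hYrc : IsClosed (Yr : Set (Cx X)) := hYc
  have : CompleteSpace Yr := hYrc.completeSpace_coe
  have hanti : AntilipschitzWith (Real.toNNReal (1 + ε)) E1 := by
    apply AddMonoidHomClass.antilipschitz_of_bound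
    intro u
    rw [Real.coe_toNNReal _ (by positivity)]
    exact hY' u u.2
  have hcont : Continuous E1 := by
    apply AddMonoidHomClass.continuous_of_bound E1 1
    intro u
    rw [hE1, one_mul]
    have := norm_ev_le (u : Cx X) 1
    simpa using this
  have hcl : IsClosed (LinearMap.range E1 : Set X) := by
    have huc : UniformContinuous E1 := by
      have : Continuous (⟨E1, hcont⟩ : Yr →L[ℝ] X) := hcont
      exact (⟨E1, hcont⟩ : Yr →L[ℝ] X).uniformContinuous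
    have := hanti.isClosed_range huc
    simpa [LinearMap.coe_range] using this
  have hinj : Function.Injective E1 := hanti.injective
  have hnf : ¬ (LinearMap.range E1).FG := by
    intro h
    apply hYf
    have h1 : FiniteDimensional ℝ (LinearMap.range E1) := Module.Finite.of_fg h
    have h2 : FiniteDimensional ℝ Yr :=
      (LinearEquiv.ofInjective E1 hinj).symm.finiteDimensional
    have h3 : Module.Finite ℝ Y := h2
    have h4 : Module.Finite ℂ Y := Module.Finite.of_restrictScalars_finite ℝ ℂ Y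
    exact Submodule.fg_iff_finiteDimensional _ |>.2 h4
  obtain ⟨g, hg⟩ := hom _ hcl hnf
  have hgx : ∀ x, ∃ u ∈ Y, ev u 1 = g x := by
    intro x
    have : g x ∈ LinearMap.range E1 := by rw [← hg]; exact ⟨x, rfl⟩
    obtain ⟨u, hu⟩ := this
    exact ⟨u, u.2, hu⟩
  have hux : ∀ u ∈ Y, ∃ x, g x = ev u 1 := by
    intro u hu
    have : ev u 1 ∈ LinearMap.range g.toLinearMap := by rw [hg]; exact ⟨⟨u, hu⟩, rfl⟩
    obtain ⟨x, hx⟩ := this
    exact ⟨x, hx⟩
  have huniq : ∀ u ∈ Y, ∀ v ∈ Y, ev u 1 = ev v 1 → u = v := by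
    intro u hu v hv huv
    have := @hinj ⟨u, hu⟩ ⟨v, hv⟩ huv
    simpa using this
  choose U hUY hU1 using hgx
  have hUI : ∀ x, ∃ y, g y = ev (U x) Complex.I := by
    intro x
    obtain ⟨y, hy⟩ := hux (Complex.I • U x) (Y.smul_mem _ (hUY x))
    refine ⟨y, ?_⟩
    rw [hy, ev_smul, mul_one]
  choose J₀ hJ₀ using hUI
  have hUadd : ∀ x y, U (x + y) = U x + U y := by
    intro x y
    apply huniq _ (hUY _) _ (Y.add_mem (hUY _) (hUY _))
    rw [hU1, map_add, ev_add, hU1, hU1]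
  have hUsmul : ∀ (r : ℝ) x, U (r • x) = r • U x := by
    intro r x
    apply huniq _ (hUY _) _ (Yr.smul_mem r (hUY _))
    rw [hU1, map_smul, ev_real_smul, hU1]
  have hrot : ∀ (φ : ℝ) (x : X), ‖Real.cos φ • x + Real.sin φ • J₀ x‖ ≤ (1 + ε) * ‖x‖ := by
    intro φ x
    rw [← g.norm_map, map_add, map_smul, map_smul, hJ₀, ← hU1 x, ← ev_map_smul, ← ev_map_smul,
      ← ev_map_add]
    have h1 : (Real.cos φ • (1:ℂ) + Real.sin φ • Complex.I)
        = Complex.exp (Complex.I * (φ : ℂ)) := by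
      rw [mul_comm, Complex.exp_mul_I, Complex.real_smul, Complex.real_smul, mul_one]
      push_cast; rfl
    rw [h1]
    calc _ ≤ ‖U x‖ * ‖Complex.exp (Complex.I * (φ : ℂ))‖ := norm_ev_le _ _
      _ = ‖U x‖ := by rw [Complex.norm_exp_I_mul_ofReal, mul_one]
      _ ≤ (1 + ε) * ‖ev (U x) 1‖ := hY' _ (hUY x)
      _ = _ := by rw [hU1, g.norm_map]
  let J₁ : X →ₗ[ℝ] X :=
    { toFun := J₀
      map_add' := fun x y => by
        apply g.injective
        rw [map_add, hJ₀, hJ₀, hJ₀, hUadd, ev_add]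
      map_smul' := fun r x => by
        apply g.injective
        rw [map_smul, hJ₀, hJ₀, hUsmul, ev_real_smul]; rfl }
  have hJ₁ : ∀ x, J₁ x = J₀ x := fun x => rfl
  let J : X →L[ℝ] X := LinearMap.mkContinuous J₁ (1 + ε) (by
    intro x
    have := hrot (Real.pi / 2) x
    rw [hJ₁]
    simpa using this)
  refine ⟨J, ?_, fun φ x => hrot φ x⟩
  intro x
  show J₀ (J₀ x) = -x
  apply g.injective
  have h1 : U (J₀ x) = Complex.I • U x := by
    apply huniq _ (hUY _) _ (Y.smul_mem _ (hUY _))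
    rw [hU1, hJ₀, ev_smul, mul_one]
  rw [hJ₀, h1, ev_smul, Complex.I_mul_I, ev_map_neg, hU1, map_neg]

end DF72
end

section

namespace DF72

open Set Filter Topology

variable {𝕜 : Type*} [RCLike 𝕜] {X : Type*} [NormedAddCommGroup X] [NormedSpace 𝕜 X]

/-- a separable infinite-dimensional Hilbert space is `ℓ²(ℕ)` -/
lemma equiv_l2_of_inner (E : Type*) [NormedAddCommGroup E] [InnerProductSpace 𝕜 E]
    [CompleteSpace E] [TopologicalSpace.SeparableSpace E] (hE : ¬ FiniteDimensional 𝕜 E) :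
    Nonempty (E ≃ₗᵢ[𝕜] lp (fun _ : ℕ => 𝕜) 2) := by
  obtain ⟨w, b, hb⟩ := exists_hilbertBasis 𝕜 E
  have hort : Orthonormal 𝕜 ((↑) : w → E) := by rw [← hb]; exact b.orthonormal
  -- countable
  have hcount : Countable w := by
    have hdist : ∀ i j : w, i ≠ j → (1 : ℝ) < dist (i : E) (j : E) := by
      intro i j hij
      rw [dist_eq_norm]
      have h1 := norm_sub_mul_self (𝕜 := 𝕜) (i : E) (j : E)
      have h0 : inner 𝕜 (i : E) (j : E) = 0 := hort.2 hij
      rw [h0, hort.1 i, hort.1 j] at h1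
      simp only [map_zero, mul_zero, sub_zero, mul_one] at h1
      by_contra h2
      push Not at h2
      have := norm_nonneg ((i : E) - j)
      nlinarith
    apply Pairwise.countable_of_isOpen_disjoint (α := E) (ι := w)
      (s := fun i => Metric.ball (i : E) (1 / 2))
    · intro i j hij
      apply Metric.ball_disjoint_ball
      have := hdist i j hij
      linarith
    · intro i; exact Metric.isOpen_ball
    · intro i; exact ⟨i, Metric.mem_ball_self (by norm_num)⟩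
  have hinf : Infinite w := by
    by_contra hfin
    rw [not_infinite_iff_finite] at hfin
    apply hE
    have hd := b.dense_span
    have h1 : (Submodule.span 𝕜 (range b)).FG := Submodule.fg_span (Set.finite_range b)
    have h2 : FiniteDimensional 𝕜 (Submodule.span 𝕜 (range b)) := Module.Finite.of_fg h1
    have h3 : (Submodule.span 𝕜 (range b)).topologicalClosure = Submodule.span 𝕜 (range b) :=
      (Submodule.closed_of_finiteDimensional _).submodule_topologicalClosure_eq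
    rw [h3] at hd
    rw [hd] at h1
    exact ⟨h1⟩
  have := Encodable.ofCountable w
  have hden : Denumerable w := Denumerable.ofEncodableOfInfinite w
  let e : w ≃ ℕ := Denumerable.eqv w
  have hort' : Orthonormal 𝕜 (fun n => b (e.symm n)) := b.orthonormal.comp _ e.symm.injective
  have hsp : ⊤ ≤ (Submodule.span 𝕜 (range fun n => b (e.symm n))).topologicalClosure := by
    have h1 : (range fun n => b (e.symm n)) = range b := by
      have : (fun n => b (e.symm n)) = b ∘ e.symm := rfl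
      rw [this, Set.range_comp, e.symm.surjective.range_eq, Set.image_univ]
    rw [h1, b.dense_span]
  exact ⟨(HilbertBasis.mk hort' hsp).repr⟩

/-- almost `ℓ²`-sequences give the parallelogram law -/
theorem parallelogram_of_almost [CompleteSpace X] (hom : IsoHom 𝕜 X)
    (h : ∀ ε > 0, ∃ x : ℕ → X, ∀ c : ℕ →₀ 𝕜,
      ‖c.sum fun i a => a • x i‖ ^ 2 ≤ (1 + ε) * c.sum (fun _ a => ‖a‖ ^ 2) ∧
      c.sum (fun _ a => ‖a‖ ^ 2) ≤ (1 + ε) * ‖c.sum fun i a => a • x i‖ ^ 2) (u v : X) :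
    ‖u + v‖ ^ 2 + ‖u - v‖ ^ 2 ≤ 2 * (‖u‖ ^ 2 + ‖v‖ ^ 2) := by
  have key : ∀ ε : ℝ, 0 < ε → ‖u + v‖ ^ 2 + ‖u - v‖ ^ 2 ≤ (1 + ε) ^ 2 * (2 * (‖u‖ ^ 2 + ‖v‖ ^ 2)) := by
    intro ε hε
    obtain ⟨x, hx⟩ := h ε hε
    let Y₀ : Submodule 𝕜 X := Submodule.span 𝕜 (range x)
    have hli : LinearIndependent 𝕜 x := by
      rw [linearIndependent_iff]
      intro c hc
      rw [Finsupp.linearCombination_apply] at hc
      have h1 := (hx c).2
      rw [hc, norm_zero] at h1
      simp only [ne_eq, OfNat.ofNat_ne_zero, not_false_eq_true, zero_pow, mul_zero] at h1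
      ext i
      by_contra hi
      have h2 : ‖c i‖ ^ 2 ≤ c.sum (fun _ a => ‖a‖ ^ 2) := by
        rw [Finsupp.sum]
        exact Finset.single_le_sum (f := fun i => ‖c i‖ ^ 2) (fun i _ => by positivity)
          (Finsupp.mem_support_iff.2 hi)
      have h3 : 0 < ‖c i‖ ^ 2 := by
        have : 0 < ‖c i‖ := norm_pos_iff.2 hi
        positivity
      linarith
    have hnf : ¬ Y₀.topologicalClosure.FG := by
      intro hfg
      have : FiniteDimensional 𝕜 Y₀.topologicalClosure := Module.Finite.of_fg hfg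
      have hmem : ∀ n, x n ∈ Y₀.topologicalClosure := fun n =>
        Submodule.le_topologicalClosure _ (Submodule.subset_span (mem_range_self n))
      have hli' : LinearIndependent 𝕜 (fun n => (⟨x n, hmem n⟩ : Y₀.topologicalClosure)) := by
        apply LinearIndependent.of_comp (Y₀.topologicalClosure.subtype)
        exact hli
      have := hli'.finite
      exact not_finite ℕ
    obtain ⟨g, hg⟩ := hom _ (Submodule.isClosed_topologicalClosure Y₀) hnf
    -- the inequality on the span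
    have hspan : ∀ a ∈ Y₀, ∀ b ∈ Y₀,
        ‖a + b‖ ^ 2 + ‖a - b‖ ^ 2 ≤ (1 + ε) ^ 2 * (2 * (‖a‖ ^ 2 + ‖b‖ ^ 2)) := by
      intro a ha b hb
      obtain ⟨c, rfl⟩ := Finsupp.mem_span_range_iff_exists_finsupp.1 ha
      obtain ⟨d, rfl⟩ := Finsupp.mem_span_range_iff_exists_finsupp.1 hb
      have hlc : ∀ f : ℕ →₀ 𝕜, (f.sum fun i a => a • x i) = Finsupp.linearCombination 𝕜 x f :=
        fun f => (Finsupp.linearCombination_apply 𝕜 f).symm
      have hadd : (c.sum fun i a => a • x i) + (d.sum fun i a => a • x i)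
          = (c + d).sum fun i a => a • x i := by
        rw [hlc, hlc, hlc, map_add]
      have hsub : (c.sum fun i a => a • x i) - (d.sum fun i a => a • x i)
          = (c - d).sum fun i a => a • x i := by
        rw [hlc, hlc, hlc, map_sub]
      rw [hadd, hsub]
      -- sums of squares over a common finite set
      have hS : ∀ f : ℕ →₀ 𝕜, f.support ⊆ c.support ∪ d.support →
          f.sum (fun _ a => ‖a‖ ^ 2) = ∑ i ∈ c.support ∪ d.support, ‖f i‖ ^ 2 := by
        intro f hf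
        rw [Finsupp.sum]
        apply Finset.sum_subset hf
        intro i _ hi
        rw [Finsupp.notMem_support_iff.1 hi]; simp
      have h1 := (hx (c + d)).1
      have h2 := (hx (c - d)).1
      have h3 := (hx c).2
      have h4 := (hx d).2
      rw [hS (c + d) Finsupp.support_add] at h1
      rw [hS (c - d) (by
        rw [sub_eq_add_neg]
        refine Finsupp.support_add.trans ?_
        rw [Finsupp.support_neg])] at h2
      rw [hS c Finset.subset_union_left] at h3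
      rw [hS d Finset.subset_union_right] at h4
      have h5 : ∑ i ∈ c.support ∪ d.support, ‖(c + d) i‖ ^ 2
          + ∑ i ∈ c.support ∪ d.support, ‖(c - d) i‖ ^ 2
          = 2 * (∑ i ∈ c.support ∪ d.support, ‖c i‖ ^ 2
            + ∑ i ∈ c.support ∪ d.support, ‖d i‖ ^ 2) := by
        rw [← Finset.sum_add_distrib, ← Finset.sum_add_distrib, Finset.mul_sum]
        apply Finset.sum_congr rfl
        intro i _
        have := parallelogram_law_with_norm 𝕜 (c i) (d i)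
        rw [Finsupp.add_apply, Finsupp.sub_apply]
        nlinarith
      have hε1 : 0 < 1 + ε := by linarith
      calc _ ≤ (1 + ε) * ∑ i ∈ c.support ∪ d.support, ‖(c + d) i‖ ^ 2
          + (1 + ε) * ∑ i ∈ c.support ∪ d.support, ‖(c - d) i‖ ^ 2 := add_le_add h1 h2
        _ = (1 + ε) * (2 * (∑ i ∈ c.support ∪ d.support, ‖c i‖ ^ 2
            + ∑ i ∈ c.support ∪ d.support, ‖d i‖ ^ 2)) := by rw [← mul_add, h5]
        _ ≤ (1 + ε) * (2 * ((1 + ε) * ‖c.sum fun i a => a • x i‖ ^ 2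
            + (1 + ε) * ‖d.sum fun i a => a • x i‖ ^ 2)) := by gcongr
        _ = _ := by ring
    have hcl1 : ∀ a ∈ Y₀, ∀ b ∈ Y₀.topologicalClosure,
        ‖a + b‖ ^ 2 + ‖a - b‖ ^ 2 ≤ (1 + ε) ^ 2 * (2 * (‖a‖ ^ 2 + ‖b‖ ^ 2)) := by
      intro a ha
      have hcl : IsClosed {b : X | ‖a + b‖ ^ 2 + ‖a - b‖ ^ 2
          ≤ (1 + ε) ^ 2 * (2 * (‖a‖ ^ 2 + ‖b‖ ^ 2))} := by
        apply isClosed_le <;> fun_prop
      exact fun b hb => closure_minimal (fun b hb => hspan a ha b hb) hcl hb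
    have hcl2 : ∀ b ∈ Y₀.topologicalClosure, ∀ a ∈ Y₀.topologicalClosure,
        ‖a + b‖ ^ 2 + ‖a - b‖ ^ 2 ≤ (1 + ε) ^ 2 * (2 * (‖a‖ ^ 2 + ‖b‖ ^ 2)) := by
      intro b hb
      have hcl : IsClosed {a : X | ‖a + b‖ ^ 2 + ‖a - b‖ ^ 2
          ≤ (1 + ε) ^ 2 * (2 * (‖a‖ ^ 2 + ‖b‖ ^ 2))} := by
        apply isClosed_le <;> fun_prop
      exact fun a ha => closure_minimal (fun a ha => hcl1 a ha b hb) hcl ha
    have h1 := hcl2 (g v) (by rw [← hg]; exact ⟨v, rfl⟩) (g u) (by rw [← hg]; exact ⟨u, rfl⟩)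
    rw [← map_add, ← map_sub, g.norm_map, g.norm_map, g.norm_map, g.norm_map] at h1
    exact h1
  -- let `ε → 0`
  have hlim : Tendsto (fun ε : ℝ => (1 + ε) ^ 2 * (2 * (‖u‖ ^ 2 + ‖v‖ ^ 2))) (𝓝[>] 0)
      (𝓝 ((1 + 0) ^ 2 * (2 * (‖u‖ ^ 2 + ‖v‖ ^ 2)))) := by
    apply Tendsto.mono_left _ nhdsWithin_le_nhds
    apply Continuous.tendsto
    fun_prop
  rw [add_zero, one_pow, one_mul] at hlim
  exact ge_of_tendsto hlim (eventually_nhdsWithin_of_forall fun ε hε => key ε hε)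

theorem equiv_l2_of_almost [CompleteSpace X] [TopologicalSpace.SeparableSpace X]
    (hom : IsoHom 𝕜 X) (hX : ¬ FiniteDimensional 𝕜 X)
    (h : ∀ ε > 0, ∃ x : ℕ → X, ∀ c : ℕ →₀ 𝕜,
      ‖c.sum fun i a => a • x i‖ ^ 2 ≤ (1 + ε) * c.sum (fun _ a => ‖a‖ ^ 2) ∧
      c.sum (fun _ a => ‖a‖ ^ 2) ≤ (1 + ε) * ‖c.sum fun i a => a • x i‖ ^ 2) :
    Nonempty (X ≃ₗᵢ[𝕜] lp (fun _ : ℕ => 𝕜) 2) := by
  have hle := parallelogram_of_almost hom h
  have hpar : ∀ x y : X, ‖x + y‖ * ‖x + y‖ + ‖x - y‖ * ‖x - y‖ = 2 * (‖x‖ * ‖x‖ + ‖y‖ * ‖y‖) := by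
    intro x y
    apply le_antisymm
    · have := hle x y
      nlinarith
    · have h1 := hle (x + y) (x - y)
      have h2 : x + y + (x - y) = (2 : 𝕜) • x := by rw [two_smul]; abel
      have h3 : x + y - (x - y) = (2 : 𝕜) • y := by rw [two_smul]; abel
      rw [h2, h3, norm_smul, norm_smul, RCLike.norm_ofNat] at h1
      nlinarith
  let _ : InnerProductSpace 𝕜 X := InnerProductSpace.ofNorm 𝕜 hpar
  exact equiv_l2_of_inner X hX

end DF72
end

section

namespace DF72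

open Set Filter Topology

variable {X : Type*} [NormedAddCommGroup X] [NormedSpace ℝ X]

lemma num_j {t s j : ℝ} (ht : 0 ≤ t) (hts : t ≤ s ^ 2) (hs0 : 0 ≤ s) (hs : s ≤ 1 / 100)
    (hjb : 1 + j ^ 2 ≤ (1 + t) ^ 4) : |j| ≤ 3 * s := by
  have ht' : t ≤ s / 100 := by nlinarith
  have ht'' : t ≤ 1 / 10000 := by linarith
  have hj2 : j ^ 2 ≤ 5 * s ^ 2 := by
    have h1 : (1 + t) ^ 4 ≤ 1 + 5 * t := by
      have : (1 + t) ^ 4 = 1 + t * (4 + t * (6 + t * (4 + t))) := by ring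
      rw [this]
      have h2 : t * (6 + t * (4 + t)) ≤ 1 := by
        have : 6 + t * (4 + t) ≤ 7 := by nlinarith
        nlinarith
      nlinarith
    nlinarith
  apply abs_le_of_sq_le_sq _ (by positivity)
  nlinarith

lemma num_main {t s r j N V W W' : ℝ} (ht : 0 ≤ t) (hts : t ≤ s ^ 2) (hs0 : 0 ≤ s)
    (hs : s ≤ 1 / 100) (hj0 : 0 ≤ j) (hr0 : 0 ≤ r) (hjs : j ≤ 3 * s) (hN0 : 0 ≤ N) (hV0 : 0 ≤ V)
    (hb1 : W' ≤ (1 + t) ^ 3 * V) (hb2 : V ≤ (1 + t) ^ 3 * W')
    (hn1 : W ≤ W' + 2 * r * j * (1 + t)) (hn2 : W' ≤ W + 2 * r * j * (1 + t))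
    (hr1 : W ≤ (1 + t) * N) (hr2 : N ≤ (1 + t) * W) (hr3 : r ≤ (1 + t) * N) :
    V ≤ (1 + 8 * s) * N ∧ (1 - 8 * s) * N ≤ V := by
  have ht' : t ≤ s / 100 := by nlinarith
  have ht'' : t ≤ 1 / 10000 := by linarith
  have ht3 : (1 + t) ^ 3 ≤ 1 + 4 * t := by
    have : (1 + t) ^ 3 = 1 + t * (3 + t * (3 + t)) := by ring
    rw [this]
    have h2 : t * (3 + t) ≤ 1 := by nlinarith
    have h3 : t * (3 + t * (3 + t)) ≤ t * 4 := by
      apply mul_le_mul_of_nonneg_left _ ht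
      linarith
    linarith
  have hrj' : 2 * r * j * (1 + t) ≤ 6.01 * s * N := by
    have h1 : r * j ≤ ((1 + t) * N) * (3 * s) := by gcongr
    have h2 : 2 * r * j * (1 + t) ≤ 2 * (((1 + t) * N) * (3 * s)) * (1 + t) := by
      have : 2 * r * j * (1 + t) = 2 * (r * j) * (1 + t) := by ring
      rw [this]; gcongr
    refine h2.trans ?_
    have h3 : 2 * (((1 + t) * N) * (3 * s)) * (1 + t) = (6 * s * (1 + t) ^ 2) * N := by ring
    rw [h3]
    have h4 : (1 + t) ^ 2 ≤ 1.001 := by nlinarith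
    have h5 : 6 * s * (1 + t) ^ 2 ≤ 6 * s * 1.001 := by gcongr
    have h6 : 6 * s * (1 + t) ^ 2 ≤ 6.01 * s := by linarith
    gcongr
  constructor
  · have h1 : W' ≤ (1 + t) * N + 6.01 * s * N := by linarith
    have hpos : 0 ≤ (1 + t) * N + 6.01 * s * N := by positivity
    have h2 : V ≤ (1 + 4 * t) * ((1 + t) * N + 6.01 * s * N) := by
      calc V ≤ (1 + t) ^ 3 * W' := hb2
        _ ≤ (1 + t) ^ 3 * ((1 + t) * N + 6.01 * s * N) := by gcongr
        _ ≤ _ := by gcongr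
    refine h2.trans ?_
    have h3 : (1 + 4 * t) * ((1 + t) * N + 6.01 * s * N) = ((1 + 4 * t) * (1 + t + 6.01 * s)) * N := by
      ring
    rw [h3]
    have h4 : (1 + 4 * t) * (1 + t + 6.01 * s) ≤ 1 + 8 * s := by nlinarith
    gcongr
  · have h0 : W ≤ (1 + 4 * t) * V + 6.01 * s * N := by
      calc _ ≤ W' + 2 * r * j * (1 + t) := hn1
        _ ≤ (1 + t) ^ 3 * V + 6.01 * s * N := by gcongr
        _ ≤ _ := by gcongr
    have h1 : N ≤ (1 + t) * ((1 + 4 * t) * V + 6.01 * s * N) := by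
      refine hr2.trans ?_
      gcongr
    have h2 : (1 + t) * ((1 + 4 * t) * V) ≤ (1 + 6 * t) * V := by
      have : (1 + t) * (1 + 4 * t) ≤ 1 + 6 * t := by nlinarith
      calc (1 + t) * ((1 + 4 * t) * V) = ((1 + t) * (1 + 4 * t)) * V := by ring
        _ ≤ _ := by gcongr
    have h3 : (1 + t) * (6.01 * s * N) ≤ 6.1 * s * N := by
      have h4 : (1 + t) * (6.01 * s) ≤ 6.1 * s := by nlinarith
      calc (1 + t) * (6.01 * s * N) = ((1 + t) * (6.01 * s)) * N := by ring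
        _ ≤ _ := by gcongr
    have h4 : (1 - 6.1 * s) * N ≤ (1 + 6 * t) * V := by
      have : (1 + t) * ((1 + 4 * t) * V + 6.01 * s * N)
        = (1 + t) * ((1 + 4 * t) * V) + (1 + t) * (6.01 * s * N) := by ring
      rw [this] at h1
      have h5 : (1 - 6.1 * s) * N = N - 6.1 * s * N := by ring
      rw [h5]
      linarith
    have h16 : 0 ≤ 1 - 6 * t := by linarith
    have h5 : (1 - 6 * t) * ((1 + 6 * t) * V) ≤ V := by
      have : (1 - 6 * t) * (1 + 6 * t) ≤ 1 := by nlinarith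
      calc (1 - 6 * t) * ((1 + 6 * t) * V) = ((1 - 6 * t) * (1 + 6 * t)) * V := by ring
        _ ≤ 1 * V := by gcongr
        _ = V := one_mul _
    have h6 : (1 - 6 * t) * ((1 - 6.1 * s) * N) ≤ V := by
      refine le_trans ?_ h5
      exact mul_le_mul_of_nonneg_left h4 h16
    refine le_trans ?_ h6
    have h7 : (1 - 8 * s) ≤ (1 - 6 * t) * (1 - 6.1 * s) := by nlinarith
    calc (1 - 8 * s) * N ≤ ((1 - 6 * t) * (1 - 6.1 * s)) * N := by gcongr
      _ = _ := by ring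

section partner

variable {J : X →L[ℝ] X} {q : X} {Q : X →L[ℝ] ℝ} {t s : ℝ}

lemma Q_bound (hq : ‖q‖ = 1) (ht : 0 ≤ t)
    (hR : ∀ y, ‖y - (2 * Q y) • q‖ ≤ (1 + t) * ‖y‖) (y : X) : |Q y| ≤ (1 + t) * ‖y‖ := by
  have h1 : ‖(2 * Q y) • q‖ ≤ ‖y‖ + (1 + t) * ‖y‖ := by
    calc ‖(2 * Q y) • q‖ = ‖y - (y - (2 * Q y) • q)‖ := by congr 1; abel
      _ ≤ ‖y‖ + ‖y - (2 * Q y) • q‖ := norm_sub_le _ _
      _ ≤ _ := by gcongr; exact hR y
  rw [norm_smul, hq, mul_one, Real.norm_eq_abs, abs_mul, abs_two] at h1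
  have := norm_nonneg y
  nlinarith

lemma j_bound (hq : ‖q‖ = 1) (ht : 0 ≤ t)
    (hrot : ∀ (φ : ℝ) (x : X), ‖Real.cos φ • x + Real.sin φ • J x‖ ≤ (1 + t) * ‖x‖)
    (hQq : Q q = 1) (hR : ∀ y, ‖y - (2 * Q y) • q‖ ≤ (1 + t) * ‖y‖) :
    1 + (Q (J q)) ^ 2 ≤ (1 + t) ^ 4 := by
  set j := Q (J q) with hj
  set φ := Real.arctan j with hφ
  have h1 := Q_bound hq ht hR (Real.cos φ • q + Real.sin φ • J q)
  have h2 := hrot φ q
  rw [hq, mul_one] at h2
  have h3 : Q (Real.cos φ • q + Real.sin φ • J q) = Real.cos φ + Real.sin φ * j := by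
    rw [map_add, map_smul, map_smul, hQq, smul_eq_mul, smul_eq_mul, mul_one]
  have h4 : Real.cos φ + Real.sin φ * j = √(1 + j ^ 2) := by
    rw [hφ, Real.cos_arctan, Real.sin_arctan]
    have : 0 < √(1 + j ^ 2) := by positivity
    field_simp
    rw [Real.sq_sqrt (by positivity)]
  rw [h3, h4, abs_of_nonneg (Real.sqrt_nonneg _)] at h1
  have h5 : √(1 + j ^ 2) ≤ (1 + t) ^ 2 := by
    calc _ ≤ _ := h1
      _ ≤ (1 + t) * (1 + t) := by gcongr
      _ = _ := by ring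
  calc 1 + j ^ 2 = (√(1 + j ^ 2)) ^ 2 := (Real.sq_sqrt (by positivity)).symm
    _ ≤ ((1 + t) ^ 2) ^ 2 := by gcongr
    _ = _ := by ring

/-- the conjugated reflection -/
lemma conj_bound (hJ : ∀ x, J (J x) = -x) (ht : 0 ≤ t)
    (hrot : ∀ (φ : ℝ) (x : X), ‖Real.cos φ • x + Real.sin φ • J x‖ ≤ (1 + t) * ‖x‖)
    (hR : ∀ y, ‖y - (2 * Q y) • q‖ ≤ (1 + t) * ‖y‖) (φ : ℝ) (v : X) :
    ‖v - (2 * (Real.cos φ * Q v - Real.sin φ * Q (J v))) • (Real.cos φ • q + Real.sin φ • J q)‖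
      ≤ (1 + t) ^ 3 * ‖v‖ := by
  have hcs := Real.cos_sq_add_sin_sq φ
  set c := Real.cos φ with hc
  set d := Real.sin φ with hd
  set w : X := c • v - d • J v with hw
  have hwn : ‖w‖ ≤ (1 + t) * ‖v‖ := by
    have := hrot (-φ) v
    rw [Real.cos_neg, Real.sin_neg, neg_smul, ← sub_eq_add_neg] at this
    exact this
  have hQw : Q w = c * Q v - d * Q (J v) := by
    rw [hw, map_sub, map_smul, map_smul, smul_eq_mul, smul_eq_mul]
  have h1 : v - (2 * (c * Q v - d * Q (J v))) • (c • q + d • J q)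
      = c • (w - (2 * Q w) • q) + d • J (w - (2 * Q w) • q) := by
    rw [← hQw]
    have h2 : c • w + d • J w = v := by
      rw [hw, map_sub, map_smul, map_smul, hJ]
      have : c • (c • v - d • J v) + d • (c • J v - d • -v) = (c ^ 2 + d ^ 2) • v := by
        module
      rw [this, hcs, one_smul]
    have h4 : J (w - (2 * Q w) • q) = J w - (2 * Q w) • J q := by
      clear_value w
      rw [map_sub, map_smul]
    have h3 : c • (w - (2 * Q w) • q) + d • J (w - (2 * Q w) • q)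
        = (c • w + d • J w) - (2 * Q w) • (c • q + d • J q) := by
      rw [h4]
      clear_value w
      module
    rw [h3, h2]
  rw [h1]
  calc _ ≤ (1 + t) * ‖w - (2 * Q w) • q‖ := hrot φ _
    _ ≤ (1 + t) * ((1 + t) * ‖w‖) := by gcongr; exact hR w
    _ ≤ (1 + t) * ((1 + t) * ((1 + t) * ‖v‖)) := by gcongr
    _ = _ := by ring

/-- rotation invariance over `K` -/
lemma rot_inv (hJ : ∀ x, J (J x) = -x) (hq : ‖q‖ = 1) (ht : 0 ≤ t) (hts : t ≤ s ^ 2)
    (hs0 : 0 ≤ s) (hs : s ≤ 1 / 100)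
    (hrot : ∀ (φ : ℝ) (x : X), ‖Real.cos φ • x + Real.sin φ • J x‖ ≤ (1 + t) * ‖x‖)
    (hQq : Q q = 1) (hR : ∀ y, ‖y - (2 * Q y) • q‖ ≤ (1 + t) * ‖y‖) (ψ r : ℝ) {k : X}
    (hk : Q k = 0) (hk' : Q (J k) = 0) :
    ‖r • (Real.cos ψ • q + Real.sin ψ • J q) + k‖ ≤ (1 + 8 * s) * ‖r • q + k‖ ∧
      (1 - 8 * s) * ‖r • q + k‖ ≤ ‖r • (Real.cos ψ • q + Real.sin ψ • J q) + k‖ := by
  have hjb := j_bound hq ht hrot hQq hR
  set j := Q (J q) with hj
  have hjs : |j| ≤ 3 * s := num_j ht hts hs0 hs hjb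
  have hj0 : 0 ≤ |j| := abs_nonneg j
  set φ := ψ / 2 with hφ
  have hψ : ψ = 2 * φ := by rw [hφ]; ring
  have hcs := Real.cos_sq_add_sin_sq φ
  have hc2 : Real.cos ψ = Real.cos φ ^ 2 - Real.sin φ ^ 2 := by
    rw [hψ, Real.cos_two_mul']
  have hs2 : Real.sin ψ = 2 * Real.sin φ * Real.cos φ := by rw [hψ, Real.sin_two_mul]
  set c := Real.cos φ with hc
  set d := Real.sin φ with hd
  set v : X := r • (Real.cos ψ • q + Real.sin ψ • J q) + k with hv
  have hd1 : |d| ≤ 1 := Real.abs_sin_le_one φ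
  have hρ : ‖c • q + d • J q‖ ≤ 1 + t := by
    have := hrot φ q
    rwa [hq, mul_one] at this
  -- the image of `v`
  have hQv : c * Q v - d * Q (J v) = r * (c + d * j) := by
    rw [hv]
    simp only [map_add, map_smul, smul_eq_mul, hJ, map_neg, hQq, hk, hk', ← hj]
    rw [hc2, hs2]
    have : c * (r * ((c ^ 2 - d ^ 2) * 1 + 2 * d * c * j) + 0)
        - d * (r * ((c ^ 2 - d ^ 2) * j + 2 * d * c * -1) + 0)
        = r * (c * (c ^ 2 + d ^ 2) + d * j * (c ^ 2 + d ^ 2)) := by ring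
    rw [this, hcs]; ring
  have himg : v - (2 * (c * Q v - d * Q (J v))) • (c • q + d • J q)
      = (-r) • q + k - (2 * r * (d * j)) • (c • q + d • J q) := by
    rw [hQv, hv, hc2, hs2]
    have h1 : (-r) • q = (-(r * (c ^ 2 + d ^ 2))) • q := by rw [hcs, mul_one]
    rw [h1]
    module
  set v' : X := v - (2 * (c * Q v - d * Q (J v))) • (c • q + d • J q) with hv'
  have hb1 : ‖v'‖ ≤ (1 + t) ^ 3 * ‖v‖ := conj_bound hJ ht hrot hR φ v
  have hinv : v' - (2 * (c * Q v' - d * Q (J v'))) • (c • q + d • J q) = v := by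
    have h1 : c * Q v' - d * Q (J v') = -(c * Q v - d * Q (J v)) := by
      set m := c * Q v - d * Q (J v) with hm
      have h2 : Q v' = Q v - 2 * m * (c + d * j) := by
        rw [hv']
        simp only [map_sub, map_add, map_smul, smul_eq_mul, hQq, ← hj]
        ring
      have h3 : Q (J v') = Q (J v) - 2 * m * (c * j - d) := by
        rw [hv']
        simp only [map_sub, map_add, map_smul, smul_eq_mul, hQq, ← hj, hJ, map_neg]
        ring
      rw [h2, h3]
      have : c * (Q v - 2 * m * (c + d * j)) - d * (Q (J v) - 2 * m * (c * j - d))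
          = (c * Q v - d * Q (J v)) - 2 * m * (c ^ 2 + d ^ 2) := by ring
      rw [this, hcs, ← hm]; ring
    rw [h1]
    rw [hv']
    module
  have hb2 : ‖v‖ ≤ (1 + t) ^ 3 * ‖v'‖ := by
    have := conj_bound hJ ht hrot hR φ v'
    rw [← hc, ← hd, hinv] at this
    exact this
  have herr : ‖(2 * r * (d * j)) • (c • q + d • J q)‖ ≤ 2 * |r| * |j| * (1 + t) := by
    rw [norm_smul, Real.norm_eq_abs, abs_mul, abs_mul, abs_mul, abs_two]
    have : |d| * |j| ≤ |j| := by nlinarith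
    gcongr
  have hn1 : ‖(-r) • q + k‖ ≤ ‖v'‖ + 2 * |r| * |j| * (1 + t) := by
    have : (-r) • q + k = v' + (2 * r * (d * j)) • (c • q + d • J q) := by rw [himg]; abel
    rw [this]
    exact (norm_add_le _ _).trans (by gcongr)
  have hn2 : ‖v'‖ ≤ ‖(-r) • q + k‖ + 2 * |r| * |j| * (1 + t) := by
    rw [himg]
    exact (norm_sub_le _ _).trans (by gcongr)
  have hr1 : ‖(-r) • q + k‖ ≤ (1 + t) * ‖r • q + k‖ := by
    have := hR (r • q + k)
    have h2 : r • q + k - (2 * Q (r • q + k)) • q = (-r) • q + k := by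
      simp only [map_add, map_smul, smul_eq_mul, hQq, hk]
      module
    rwa [h2] at this
  have hr2 : ‖r • q + k‖ ≤ (1 + t) * ‖(-r) • q + k‖ := by
    have := hR ((-r) • q + k)
    have h2 : (-r) • q + k - (2 * Q ((-r) • q + k)) • q = r • q + k := by
      simp only [map_add, map_smul, smul_eq_mul, hQq, hk]
      module
    rwa [h2] at this
  have hr3 : |r| ≤ (1 + t) * ‖r • q + k‖ := by
    have := Q_bound hq ht hR (r • q + k)
    have h2 : Q (r • q + k) = r := by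
      simp only [map_add, map_smul, smul_eq_mul, hQq, hk]; ring
    rwa [h2] at this
  exact num_main ht hts hs0 hs hj0 (abs_nonneg r) hjs (norm_nonneg _) (norm_nonneg _) hb1 hb2 hn1
    hn2 hr1 hr2 hr3

end partner

/-- **partner lemma** -/
theorem partner (X : Type*) [NormedAddCommGroup X] [NormedSpace ℝ X] {δ' : ℝ} (hδ' : 0 < δ') :
    ∃ t > 0, ∀ (J : X →L[ℝ] X) (q : X) (Q : X →L[ℝ] ℝ), (∀ x, J (J x) = -x) →
      (∀ (φ : ℝ) (x : X), ‖Real.cos φ • x + Real.sin φ • J x‖ ≤ (1 + t) * ‖x‖) →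
      ‖q‖ = 1 → Q q = 1 → (∀ y, ‖y - (2 * Q y) • q‖ ≤ (1 + t) * ‖y‖) →
      ∃ z, ‖z‖ = 1 ∧ Q z = 0 ∧ Q (J z) ≠ 0 ∧ ∀ (a b : ℝ) (k : X), Q k = 0 → Q (J k) = 0 →
        ‖a • q + b • z + k‖ ≤ (1 + δ') * ‖√(a ^ 2 + b ^ 2) • z + k‖ ∧
        ‖√(a ^ 2 + b ^ 2) • z + k‖ ≤ (1 + δ') * ‖a • q + b • z + k‖ := by
  set s : ℝ := min (1 / 100) (δ' / (16 * (2 + δ'))) with hsdef
  have hs0 : 0 < s := lt_min (by norm_num) (by positivity)
  have hs : s ≤ 1 / 100 := min_le_left _ _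
  have hs2 : 16 * s * (2 + δ') ≤ δ' := by
    have : s ≤ δ' / (16 * (2 + δ')) := min_le_right _ _
    rw [le_div_iff₀ (by positivity)] at this
    linarith
  clear_value s
  refine ⟨s ^ 2, by positivity, ?_⟩
  set t : ℝ := s ^ 2 with htdef
  have ht : 0 ≤ t := by positivity
  have hts : t ≤ s ^ 2 := le_rfl
  have ht' : t ≤ s / 100 := by rw [htdef]; nlinarith
  clear_value t
  intro J q Q hJ hrot hq hQq hR
  have hjb := j_bound hq ht hrot hQq hR
  set j := Q (J q) with hj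
  have hjs : |j| ≤ 3 * s := num_j ht hts hs0.le hs hjb
  have hJq1 : ‖J q‖ ≤ 1 + t := by
    have := hrot (Real.pi / 2) q
    simpa [hq] using this
  have hJq2 : 1 ≤ (1 + t) * ‖J q‖ := by
    have := hrot (Real.pi / 2) (J q)
    simpa [hq, hJ] using this
  set p : X := J q - j • q with hp
  set ν := ‖p‖ with hν
  have hν1 : ν ≤ 1 + t + |j| := by
    calc ν ≤ ‖J q‖ + ‖j • q‖ := norm_sub_le _ _
      _ ≤ _ := by rw [norm_smul, hq, mul_one, Real.norm_eq_abs]; gcongr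
  have hν2 : 1 - t - |j| ≤ ν := by
    have h1 : ‖J q‖ ≤ ν + |j| := by
      calc ‖J q‖ = ‖p + j • q‖ := by rw [hp]; congr 1; abel
        _ ≤ ‖p‖ + ‖j • q‖ := norm_add_le _ _
        _ = _ := by rw [norm_smul, hq, mul_one, Real.norm_eq_abs]
    have h2 : 1 - t ≤ ‖J q‖ := by
      have h3 : (1 - t) * ((1 + t) * ‖J q‖) ≤ ‖J q‖ := by
        have h4 : (1 - t) * (1 + t) ≤ 1 := by nlinarith
        calc (1 - t) * ((1 + t) * ‖J q‖) = ((1 - t) * (1 + t)) * ‖J q‖ := by ring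
          _ ≤ 1 * ‖J q‖ := by gcongr
          _ = _ := one_mul _
      have h5 : (1 - t) * 1 ≤ (1 - t) * ((1 + t) * ‖J q‖) :=
        mul_le_mul_of_nonneg_left hJq2 (by linarith)
      linarith
    linarith
  have hν0 : 0 < ν := by linarith
  have hν3 : |1 - ν| ≤ t + |j| := by
    rw [abs_le]; constructor <;> linarith
  set z : X := ν⁻¹ • p with hz
  have hz1 : ‖z‖ = 1 := by
    rw [hz, norm_smul, Real.norm_eq_abs, abs_of_pos (inv_pos.2 hν0), ← hν, inv_mul_cancel₀ hν0.ne']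
  have hQp : Q p = 0 := by
    rw [hp, map_sub, map_smul, hQq, smul_eq_mul, mul_one, ← hj, sub_self]
  have hQJp : Q (J p) = -(1 + j ^ 2) := by
    rw [hp, map_sub, map_smul, hJ, map_sub, map_neg, map_smul, hQq, smul_eq_mul, ← hj]
    ring
  have hzJ : ‖z - J q‖ ≤ 7 * s := by
    have h1 : z - J q = (ν⁻¹ * (1 - ν)) • p - j • q := by
      have h2 : J q = p + j • q := by rw [hp]; abel
      rw [h2, hz]
      have h3 : (ν⁻¹ * (1 - ν)) = ν⁻¹ - 1 := by field_simp
      rw [h3]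
      module
    rw [h1]
    calc _ ≤ ‖(ν⁻¹ * (1 - ν)) • p‖ + ‖j • q‖ := norm_sub_le _ _
      _ = |1 - ν| + |j| := by
        rw [norm_smul, norm_smul, hq, mul_one, Real.norm_eq_abs, Real.norm_eq_abs, abs_mul,
          abs_of_pos (inv_pos.2 hν0), ← hν]
        congr 1
        field_simp
      _ ≤ (t + |j|) + |j| := by gcongr
      _ ≤ 7 * s := by linarith
  have hQz : Q z = 0 := by rw [hz, map_smul, hQp, smul_zero]
  have hQJz : Q (J z) ≠ 0 := by
    rw [hz, map_smul, map_smul, hQJp, smul_eq_mul]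
    apply mul_ne_zero (inv_pos.2 hν0).ne'
    have : 0 < 1 + j ^ 2 := by positivity
    linarith
  refine ⟨z, hz1, hQz, hQJz, ?_⟩
  clear_value z
  intro a b k hk hk'
  set r : ℝ := √(a ^ 2 + b ^ 2) with hr
  have hr0 : 0 ≤ r := Real.sqrt_nonneg _
  obtain ⟨ψ, hψa, hψb⟩ : ∃ ψ, r * Real.cos ψ = a ∧ r * Real.sin ψ = b := by
    refine ⟨Complex.arg ⟨a, b⟩, ?_, ?_⟩
    · have h1 := Complex.norm_mul_cos_arg ⟨a, b⟩
      have h2 : ‖(⟨a, b⟩ : ℂ)‖ = r := by rw [Complex.norm_eq_sqrt_sq_add_sq]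
      rw [h2] at h1
      exact h1
    · have h1 := Complex.norm_mul_sin_arg ⟨a, b⟩
      have h2 : ‖(⟨a, b⟩ : ℂ)‖ = r := by rw [Complex.norm_eq_sqrt_sq_add_sq]
      rw [h2] at h1
      exact h1
  have hbr : |b| ≤ r := by
    rw [← hψb, abs_mul, abs_of_nonneg hr0]
    calc r * |Real.sin ψ| ≤ r * 1 := by gcongr; exact Real.abs_sin_le_one ψ
      _ = r := mul_one r
  set N := ‖r • q + k‖ with hN
  have hN0 : 0 ≤ N := norm_nonneg _
  have hrN : r ≤ (1 + t) * N := by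
    have h1 := Q_bound hq ht hR (r • q + k)
    have h2 : Q (r • q + k) = r := by
      rw [map_add, map_smul, hQq, hk, smul_eq_mul]; ring
    rwa [h2, abs_of_nonneg hr0] at h1
  have herr : ∀ c : ℝ, |c| ≤ r → ‖c • (z - J q)‖ ≤ 8 * s * N := by
    intro c hc
    rw [norm_smul, Real.norm_eq_abs]
    calc |c| * ‖z - J q‖ ≤ ((1 + t) * N) * (7 * s) := by
          gcongr
          exact hc.trans hrN
      _ = (7 * (1 + t)) * (s * N) := by ring
      _ ≤ 8 * (s * N) := by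
          have : 7 * (1 + t) ≤ 8 := by linarith
          gcongr
      _ = _ := by ring
  obtain ⟨h1, h2⟩ := rot_inv hJ hq ht hts hs0.le hs hrot hQq hR ψ r hk hk'
  obtain ⟨h3, h4⟩ := rot_inv hJ hq ht hts hs0.le hs hrot hQq hR (Real.pi / 2) r hk hk'
  rw [Real.cos_pi_div_two, Real.sin_pi_div_two, zero_smul, one_smul, zero_add] at h3 h4
  rw [← hN] at h1 h2 h3 h4
  have hU : a • q + b • z + k = (r • (Real.cos ψ • q + Real.sin ψ • J q) + k) + b • (z - J q) := by
    have h5 : r • (Real.cos ψ • q + Real.sin ψ • J q)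
        = (r * Real.cos ψ) • q + (r * Real.sin ψ) • J q := by module
    rw [h5, hψa, hψb]
    module
  have hV : r • z + k = (r • J q + k) + r • (z - J q) := by module
  have hU1 : ‖a • q + b • z + k‖ ≤ (1 + 16 * s) * N := by
    rw [hU]
    refine (norm_add_le _ _).trans ?_
    have := herr b hbr
    linarith
  have hU2 : (1 - 16 * s) * N ≤ ‖a • q + b • z + k‖ := by
    have h5 := norm_sub_le (a • q + b • z + k) (b • (z - J q))
    have h6 : a • q + b • z + k - b • (z - J q)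
        = r • (Real.cos ψ • q + Real.sin ψ • J q) + k := by rw [hU]; abel
    rw [h6] at h5
    have := herr b hbr
    linarith
  have hV1 : ‖r • z + k‖ ≤ (1 + 16 * s) * N := by
    rw [hV]
    refine (norm_add_le _ _).trans ?_
    have := herr r (abs_of_nonneg hr0).le
    linarith
  have hV2 : (1 - 16 * s) * N ≤ ‖r • z + k‖ := by
    have h5 := norm_sub_le (r • z + k) (r • (z - J q))
    have h6 : r • z + k - r • (z - J q) = r • J q + k := by rw [hV]; abel
    rw [h6] at h5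
    have := herr r (abs_of_nonneg hr0).le
    linarith
  have hfin : (1 + 16 * s) * N ≤ (1 + δ') * ((1 - 16 * s) * N) := by
    have h5 : (1 + 16 * s) ≤ (1 + δ') * (1 - 16 * s) := by linarith
    calc (1 + 16 * s) * N ≤ ((1 + δ') * (1 - 16 * s)) * N := by gcongr
      _ = _ := by ring
  constructor
  · refine hU1.trans (hfin.trans ?_)
    gcongr
  · refine hV1.trans (hfin.trans ?_)
    gcongr

end DF72
end

section

namespace DF72

open Set Filter Topology

section coef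

variable {𝕜 : Type*} [RCLike 𝕜] {X : Type*} [NormedAddCommGroup X] [NormedSpace 𝕜 X]

lemma ker_not_fg {F : Type*} [AddCommGroup F] [Module 𝕜 F] [FiniteDimensional 𝕜 F]
    (hX : ¬ FiniteDimensional 𝕜 X) (Φ : X →ₗ[𝕜] F) : ¬ (LinearMap.ker Φ).FG := by
  intro h
  apply hX
  have h2 : (⊤ : Submodule 𝕜 X).FG := by
    apply Submodule.fg_of_fg_map_of_fg_inf_ker Φ
    · exact Submodule.fg_iff_finiteDimensional _ |>.2 inferInstance
    · rw [top_inf_eq]; exact h
  exact ⟨h2⟩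

/-- the coefficient functional on `span x + range m`, transported to `X`. -/
lemma exists_coef [CompleteSpace X] (hom : IsoHom 𝕜 X) (hX : ¬ FiniteDimensional 𝕜 X)
    {x : X} {m : X →ₗᵢ[𝕜] X} {C : ℝ} (hC : ∀ (a : 𝕜) (z : X), ‖a‖ ≤ C * ‖a • x + m z‖) :
    ∃ (w : X →ₗᵢ[𝕜] X) (q : X) (Q : X →L[𝕜] 𝕜), w q = x ∧ Q q = 1 ∧
      (∀ v, ∃ y, w v = (Q v) • x + m y) ∧ (∀ v, Q v = 0 → ∃ y, w v = m y) := by
  let W : Submodule 𝕜 X := LinearMap.range m.toLinearMap ⊔ Submodule.span 𝕜 {x}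
  have hWc : IsClosed (W : Set X) := by
    exact Submodule.isClosed_sup_finiteDimensional _ _ (range_isClosed m)
  have hWf : ¬ W.FG := fun h => range_not_fg hX m (fg_of_le h le_sup_left)
  obtain ⟨w, hw⟩ := hom W hWc hWf
  have hdec : ∀ v, ∃ (a : 𝕜) (y : X), w v = a • x + m y := by
    intro v
    have h1 : w v ∈ W := by rw [← hw]; exact ⟨v, rfl⟩
    obtain ⟨_, ⟨y, rfl⟩, _, h2, h3⟩ := Submodule.mem_sup.1 h1
    obtain ⟨a, rfl⟩ := Submodule.mem_span_singleton.1 h2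
    exact ⟨a, y, by rw [← h3, add_comm]; rfl⟩
  choose A y hA using hdec
  have huniq : ∀ (a b : 𝕜) (z z' : X), a • x + m z = b • x + m z' → a = b := by
    intro a b z z' h
    have h1 := hC (a - b) (z - z')
    have h2 : (a - b) • x + m (z - z') = 0 := by
      rw [map_sub, sub_smul]
      have : a • x - b • x + (m z - m z') = (a • x + m z) - (b • x + m z') := by abel
      rw [this, h, sub_self]
    rw [h2, norm_zero, mul_zero] at h1
    have h3 : a - b = 0 := by simpa using h1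
    exact sub_eq_zero.1 h3
  have hAadd : ∀ u v, A (u + v) = A u + A v := by
    intro u v
    apply huniq _ _ (y (u + v)) (y u + y v)
    rw [← hA, map_add, hA u, hA v, map_add, add_smul]
    abel
  have hAsmul : ∀ (r : 𝕜) v, A (r • v) = r • A v := by
    intro r v
    apply huniq _ _ (y (r • v)) (r • y v)
    rw [← hA, map_smul, hA v, map_smul, smul_add, smul_assoc]
  let A₁ : X →ₗ[𝕜] 𝕜 := { toFun := A, map_add' := hAadd, map_smul' := hAsmul }
  let Q : X →L[𝕜] 𝕜 := LinearMap.mkContinuous A₁ C (by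
    intro v
    have h1 := hC (A v) (y v)
    rw [← hA, w.norm_map] at h1
    exact h1)
  have hQ : ∀ v, Q v = A v := fun v => rfl
  obtain ⟨q, hq⟩ : ∃ q, w q = x := by
    have h1 : x ∈ W := Submodule.mem_sup_right (Submodule.mem_span_singleton_self x)
    rw [← hw] at h1
    obtain ⟨q, hq⟩ := h1
    exact ⟨q, hq⟩
  refine ⟨w, q, Q, hq, ?_, ?_, ?_⟩
  · rw [hQ]
    apply huniq _ _ (y q) 0
    rw [← hA, hq, map_zero, one_smul, add_zero]
  · intro v
    exact ⟨y v, by rw [hQ]; exact hA v⟩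
  · intro v hv
    rw [hQ] at hv
    refine ⟨y v, ?_⟩
    rw [hA v, hv, zero_smul, zero_add]

end coef

variable {X : Type*} [NormedAddCommGroup X] [NormedSpace ℝ X]

lemma good_homog {x : X} (hx : ‖x‖ = 1) {m : X →ₗᵢ[ℝ] X} {ε : ℝ} (hε0 : 0 < ε)
    (hε : ε ≤ 1 / 2) (h : Good (-1 : ℝ) ε x m) (a : ℝ) (z : X) :
    ‖-(a • x) + m z‖ ≤ (1 + 3 * ε) * ‖a • x + m z‖ ∧ |a| ≤ 2 * ‖a • x + m z‖ := by
  rcases eq_or_ne a 0 with rfl | ha
  · have := norm_nonneg z
    simp only [zero_smul, neg_zero, zero_add, abs_zero, m.norm_map]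
    constructor
    · nlinarith
    · positivity
  have ha' : 0 < |a| := abs_pos.2 ha
  have h1 := h (-(a⁻¹ • z))
  have h2 : ‖-(a • x) + m z‖ = |a| * ‖x + (-1 : ℝ) • m (a⁻¹ • z)‖ := by
    rw [← Real.norm_eq_abs, ← norm_smul, ← norm_neg]
    congr 1
    rw [map_smul, smul_add, smul_smul, smul_smul]
    have : a * -1 * a⁻¹ = -1 := by field_simp
    rw [this]
    module
  have h3 : ‖a • x + m z‖ = |a| * ‖x + m (a⁻¹ • z)‖ := by
    rw [← Real.norm_eq_abs, ← norm_smul]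
    congr 1
    rw [map_smul, smul_add, smul_smul, mul_inv_cancel₀ ha, one_smul]
  have h1' := h (a⁻¹ • z)
  have h4 : ‖-(a • x) + m z‖ ≤ (1 + ε) * ‖a • x + m z‖ + ε * |a| := by
    rw [h2, h3]
    calc _ ≤ |a| * ((1 + ε) * ‖x + m (a⁻¹ • z)‖ + ε) := by gcongr
      _ = _ := by ring
  have h5 : 2 * |a| ≤ ‖a • x + m z‖ + ‖-(a • x) + m z‖ := by
    calc 2 * |a| = ‖(2 * a) • x‖ := by
          rw [norm_smul, hx, mul_one, Real.norm_eq_abs, abs_mul, abs_two]
      _ = ‖(a • x + m z) - (-(a • x) + m z)‖ := by congr 1; module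
      _ ≤ _ := norm_sub_le _ _
  have h6 : |a| ≤ 2 * ‖a • x + m z‖ := by nlinarith [norm_nonneg (a • x + m z)]
  refine ⟨?_, h6⟩
  nlinarith

lemma chain_step [CompleteSpace X] [TopologicalSpace.SeparableSpace X] (hom : IsoHom ℝ X)
    (hX : ¬ FiniteDimensional ℝ X) {δ' : ℝ} (hδ' : 0 < δ') {x : X} (hx : ‖x‖ = 1)
    {f : X →ₗᵢ[ℝ] X} :
    ∃ (x' : X) (f' : X →ₗᵢ[ℝ] X), ‖x'‖ = 1 ∧ (∃ z, x' = f z) ∧ (∀ y, ∃ z, f' y = f z) ∧
      ∀ (a b : ℝ) (y : X), ‖a • x + b • x' + f' y‖ ≤ (1 + δ') * ‖√(a ^ 2 + b ^ 2) • x' + f' y‖ ∧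
        ‖√(a ^ 2 + b ^ 2) • x' + f' y‖ ≤ (1 + δ') * ‖a • x + b • x' + f' y‖ := by
  obtain ⟨t, ht, hpart⟩ := partner X hδ'
  obtain ⟨J, hJ, hrot⟩ := exists_J hom hX ht
  set ε : ℝ := min (1 / 2) (t / 3) with hε
  have hε0 : 0 < ε := lt_min (by norm_num) (by positivity)
  have hε1 : ε ≤ 1 / 2 := min_le_left _ _
  have hε2 : 3 * ε ≤ t := by
    have : ε ≤ t / 3 := min_le_right _ _
    linarith
  obtain ⟨g, hg⟩ := AU hom hX (lam := (-1 : ℝ)) (by simp) hε0 x f
  have hh := good_homog hx hε0 hε1 hg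
  obtain ⟨w, q, Q, hwq, hQq, hdec, hker⟩ := exists_coef hom hX (x := x) (m := f.comp g) (C := 2)
    (fun a z => by rw [Real.norm_eq_abs]; exact (hh a z).2)
  have hq : ‖q‖ = 1 := by rw [← w.norm_map, hwq, hx]
  have hR : ∀ y, ‖y - (2 * Q y) • q‖ ≤ (1 + t) * ‖y‖ := by
    intro v
    obtain ⟨y, hy⟩ := hdec v
    have h1 := (hh (Q v) y).1
    have h2 : w (v - (2 * Q v) • q) = -(Q v • x) + (f.comp g) y := by
      rw [map_sub, map_smul, hwq, hy]
      module
    rw [← w.norm_map, h2, ← w.norm_map v, hy]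
    refine h1.trans ?_
    gcongr
  obtain ⟨z, hz1, hQz, hQJz, hcol⟩ := hpart J q Q hJ hrot hq hQq hR
  let Φ : X →L[ℝ] ℝ × ℝ := Q.prod (Q.comp J)
  have hΦ : ∀ v, Φ v = (Q v, Q (J v)) := fun v => rfl
  obtain ⟨κ, hκ⟩ := hom (LinearMap.ker Φ.toLinearMap) Φ.isClosed_ker (ker_not_fg hX Φ.toLinearMap)
  have hκ' : ∀ y, Q (κ y) = 0 ∧ Q (J (κ y)) = 0 := by
    intro y
    have h1 : κ y ∈ LinearMap.ker Φ.toLinearMap := by rw [← hκ]; exact ⟨y, rfl⟩
    have h2 : Φ (κ y) = 0 := h1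
    rw [hΦ] at h2
    exact ⟨(Prod.mk.inj h2).1, (Prod.mk.inj h2).2⟩
  refine ⟨w z, w.comp κ, by rw [w.norm_map, hz1], ?_, ?_, ?_⟩
  · obtain ⟨y, hy⟩ := hker z hQz
    exact ⟨g y, hy⟩
  · intro y
    obtain ⟨y', hy'⟩ := hker (κ y) (hκ' y).1
    exact ⟨g y', hy'⟩
  · intro a b y
    have h1 := hcol a b (κ y) (hκ' y).1 (hκ' y).2
    have h2 : a • x + b • w z + (w.comp κ) y = w (a • q + b • z + κ y) := by
      rw [map_add, map_add, map_smul, map_smul, hwq]; rfl
    have h3 : √(a ^ 2 + b ^ 2) • w z + (w.comp κ) y = w (√(a ^ 2 + b ^ 2) • z + κ y) := by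
      rw [map_add, map_smul]; rfl
    rw [h2, h3, w.norm_map, w.norm_map]
    exact h1

/-- existence of almost isometric copies of `ℓ²` -/
theorem exists_almost_l2 [CompleteSpace X] [TopologicalSpace.SeparableSpace X]
    (hom : IsoHom ℝ X) (hX : ¬ FiniteDimensional ℝ X) {ε : ℝ} (hε : 0 < ε) :
    ∃ x : ℕ → X, ∀ c : ℕ →₀ ℝ,
      ‖c.sum fun i a => a • x i‖ ^ 2 ≤ (1 + ε) * c.sum (fun _ a => ‖a‖ ^ 2) ∧
      c.sum (fun _ a => ‖a‖ ^ 2) ≤ (1 + ε) * ‖c.sum fun i a => a • x i‖ ^ 2 := by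
  classical
  have hnt : Nontrivial X := by
    by_contra h
    rw [not_nontrivial_iff_subsingleton] at h
    exact hX inferInstance
  obtain ⟨x₀, hx₀⟩ := exists_norm_eq X zero_le_one
  -- the errors
  set L : ℝ := Real.log (1 + ε) / 2 with hL
  have hL0 : 0 < L := by
    have := Real.log_pos (by linarith : (1:ℝ) < 1 + ε)
    positivity
  let δ : ℕ → ℝ := fun n => L * (2⁻¹) ^ (n + 1)
  have hδ0 : ∀ n, 0 < δ n := fun n => by positivity
  -- the recursive construction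
  have hstep : ∀ (n : ℕ) (p : {x : X // ‖x‖ = 1} × (X →ₗᵢ[ℝ] X)),
      ∃ p' : {x : X // ‖x‖ = 1} × (X →ₗᵢ[ℝ] X), (∃ z, (p'.1 : X) = p.2 z) ∧
        (∀ y, ∃ z, p'.2 y = p.2 z) ∧ ∀ (a b : ℝ) (y : X),
        ‖a • (p.1 : X) + b • (p'.1 : X) + p'.2 y‖
          ≤ (1 + δ n) * ‖√(a ^ 2 + b ^ 2) • (p'.1 : X) + p'.2 y‖ ∧
        ‖√(a ^ 2 + b ^ 2) • (p'.1 : X) + p'.2 y‖
          ≤ (1 + δ n) * ‖a • (p.1 : X) + b • (p'.1 : X) + p'.2 y‖ := by
    rintro n ⟨⟨x, hx⟩, f⟩
    obtain ⟨x', f', h1, h2, h3, h4⟩ := chain_step hom hX (hδ0 n) hx (f := f)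
    exact ⟨⟨⟨x', h1⟩, f'⟩, h2, h3, h4⟩
  choose N hN1 hN2 hN3 using hstep
  let p : ℕ → {x : X // ‖x‖ = 1} × (X →ₗᵢ[ℝ] X) :=
    fun n => Nat.rec (⟨x₀, hx₀⟩, LinearIsometry.id) (fun n q => N n q) n
  have hp : ∀ n, p (n + 1) = N n (p n) := fun n => rfl
  let x : ℕ → X := fun n => (p n).1
  let f : ℕ → X →ₗᵢ[ℝ] X := fun n => (p n).2
  have hx1 : ∀ n, ‖x n‖ = 1 := fun n => (p n).1.2
  have hxf : ∀ n, ∃ z, x (n + 1) = f n z := fun n => hN1 n (p n)
  have hff : ∀ n y, ∃ z, f (n + 1) y = f n z := fun n y => hN2 n (p n) y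
  have hcol : ∀ n (a b : ℝ) (y : X),
      ‖a • x n + b • x (n + 1) + f (n + 1) y‖
        ≤ (1 + δ n) * ‖√(a ^ 2 + b ^ 2) • x (n + 1) + f (n + 1) y‖ ∧
      ‖√(a ^ 2 + b ^ 2) • x (n + 1) + f (n + 1) y‖
        ≤ (1 + δ n) * ‖a • x n + b • x (n + 1) + f (n + 1) y‖ := fun n => hN3 n (p n)
  -- products of the errors
  let C : ℕ → ℝ := fun n => ∏ i ∈ Finset.range n, (1 + δ i)
  have hC0 : ∀ n, 0 < C n := fun n => Finset.prod_pos fun i _ => by
    have := hδ0 i; positivity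
  have hCs : ∀ n, C (n + 1) = C n * (1 + δ n) := fun n => Finset.prod_range_succ _ _
  have hCle : ∀ n, C n ^ 2 ≤ 1 + ε := by
    intro n
    have h1 : C n ≤ Real.exp L := by
      calc C n ≤ ∏ i ∈ Finset.range n, Real.exp (δ i) := by
            apply Finset.prod_le_prod
            · intro i _
              have := hδ0 i; positivity
            · intro i _
              rw [add_comm]
              exact Real.add_one_le_exp _
        _ = Real.exp (∑ i ∈ Finset.range n, δ i) := (Real.exp_sum _ _).symm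
        _ ≤ Real.exp L := by
            apply Real.exp_le_exp.2
            have h3 : ∑ i ∈ Finset.range n, (2⁻¹ : ℝ) ^ i ≤ 2 := by
              have h4 := Summable.sum_le_tsum (f := fun i => (2⁻¹ : ℝ) ^ i) (Finset.range n)
                (fun i _ => by positivity) (summable_geometric_of_lt_one (by norm_num) (by norm_num))
              rw [tsum_geometric_of_lt_one (by norm_num) (by norm_num)] at h4
              norm_num at h4
              simpa using h4
            have h5 : ∑ i ∈ Finset.range n, δ i = L * (2⁻¹ * ∑ i ∈ Finset.range n, (2⁻¹ : ℝ) ^ i) := by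
              rw [Finset.mul_sum, Finset.mul_sum]
              apply Finset.sum_congr rfl
              intro i _
              show L * (2⁻¹) ^ (i + 1) = _
              rw [pow_succ]; ring
            rw [h5]
            calc _ ≤ L * 1 := by
                  gcongr
                  linarith
              _ = L := mul_one L
    calc C n ^ 2 ≤ (Real.exp L) ^ 2 := by
          have := hC0 n
          gcongr
      _ = Real.exp (Real.log (1 + ε)) := by
          rw [sq, ← Real.exp_add]; congr 1; rw [hL]; ring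
      _ = 1 + ε := Real.exp_log (by linarith)
  -- collapse
  have key : ∀ (c : ℕ → ℝ) (n : ℕ), ∃ r : ℝ, r ^ 2 = ∑ i ∈ Finset.range (n + 1), (c i) ^ 2 ∧
      ∀ y, ‖∑ i ∈ Finset.range (n + 1), c i • x i + f n y‖ ≤ C n * ‖r • x n + f n y‖ ∧
        ‖r • x n + f n y‖ ≤ C n * ‖∑ i ∈ Finset.range (n + 1), c i • x i + f n y‖ := by
    intro c n
    induction n with
    | zero =>
      refine ⟨c 0, by simp, fun y => ?_⟩
      have : C 0 = 1 := by simp [C]
      rw [this]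
      simp
    | succ n ih =>
      obtain ⟨r, hr, hry⟩ := ih
      refine ⟨√(r ^ 2 + (c (n+1)) ^ 2), ?_, fun y => ?_⟩
      · rw [Real.sq_sqrt (by positivity), hr, ← Finset.sum_range_succ]
      · obtain ⟨z, hz⟩ := hxf n
        obtain ⟨z', hz'⟩ := hff n y
        have h1 : c (n + 1) • x (n + 1) + f (n + 1) y = f n (c (n + 1) • z + z') := by
          rw [hz, hz', map_add, map_smul]
        have h2 : ∑ i ∈ Finset.range (n + 1 + 1), c i • x i + f (n + 1) y
            = ∑ i ∈ Finset.range (n + 1), c i • x i + f n (c (n + 1) • z + z') := by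
          rw [Finset.sum_range_succ, add_assoc, h1]
        have h3 : r • x n + c (n + 1) • x (n + 1) + f (n + 1) y
            = r • x n + f n (c (n + 1) • z + z') := by
          rw [add_assoc, h1]
        obtain ⟨h4, h5⟩ := hry (c (n + 1) • z + z')
        obtain ⟨h6, h7⟩ := hcol n r (c (n + 1)) y
        rw [h3] at h6 h7
        rw [h2, hCs]
        have hCn := hC0 n
        have hδn := hδ0 n
        constructor
        · calc _ ≤ C n * ‖r • x n + f n (c (n + 1) • z + z')‖ := h4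
            _ ≤ C n * ((1 + δ n) * ‖√(r ^ 2 + (c (n+1)) ^ 2) • x (n + 1) + f (n + 1) y‖) := by
              gcongr
            _ = _ := by ring
        · calc _ ≤ (1 + δ n) * ‖r • x n + f n (c (n + 1) • z + z')‖ := h7
            _ ≤ (1 + δ n) * (C n * ‖∑ i ∈ Finset.range (n + 1), c i • x i
                  + f n (c (n + 1) • z + z')‖) := by gcongr
            _ = _ := by ring
  refine ⟨x, fun c => ?_⟩
  obtain ⟨n, hn⟩ : ∃ n, c.support ⊆ Finset.range (n + 1) := by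
    refine ⟨c.support.sup id, fun i hi => ?_⟩
    rw [Finset.mem_range]
    have := Finset.le_sup (f := id) hi
    simp only [id] at this
    omega
  have hs1 : (c.sum fun i a => a • x i) = ∑ i ∈ Finset.range (n + 1), c i • x i := by
    rw [Finsupp.sum]
    apply Finset.sum_subset hn
    intro i _ hi
    rw [Finsupp.notMem_support_iff.1 hi, zero_smul]
  have hs2 : (c.sum fun _ a => ‖a‖ ^ 2) = ∑ i ∈ Finset.range (n + 1), (c i) ^ 2 := by
    rw [Finsupp.sum]
    have : ∑ i ∈ c.support, ‖c i‖ ^ 2 = ∑ i ∈ c.support, (c i) ^ 2 := by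
      apply Finset.sum_congr rfl
      intro i _
      rw [Real.norm_eq_abs, sq_abs]
    rw [this]
    apply Finset.sum_subset hn
    intro i _ hi
    rw [Finsupp.notMem_support_iff.1 hi]; simp
  obtain ⟨r, hr, hry⟩ := key c n
  obtain ⟨h1, h2⟩ := hry 0
  rw [map_zero, add_zero, add_zero, norm_smul, hx1, mul_one, Real.norm_eq_abs] at h1 h2
  rw [hs1, hs2, ← hr]
  have hCn := hC0 n
  have hCl := hCle n
  constructor
  · calc _ ≤ (C n * |r|) ^ 2 := by gcongr
      _ = C n ^ 2 * r ^ 2 := by rw [mul_pow, sq_abs]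
      _ ≤ _ := by gcongr
  · calc r ^ 2 = |r| ^ 2 := (sq_abs r).symm
      _ ≤ (C n * ‖∑ i ∈ Finset.range (n + 1), c i • x i‖) ^ 2 := by gcongr
      _ = C n ^ 2 * ‖∑ i ∈ Finset.range (n + 1), c i • x i‖ ^ 2 := by rw [mul_pow]
      _ ≤ _ := by gcongr

/-- **The real case.** -/
theorem real_case [CompleteSpace X] [TopologicalSpace.SeparableSpace X]
    (hX : ¬ FiniteDimensional ℝ X)
    (h : ∀ Y : Submodule ℝ X, IsClosed (Y : Set X) → ¬ FiniteDimensional ℝ Y →
      Nonempty (Y ≃ₗᵢ[ℝ] X)) :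
    Nonempty (X ≃ₗᵢ[ℝ] lp (fun _ : ℕ => ℝ) 2) := by
  have hom : IsoHom ℝ X := by
    intro Y hY hYf
    obtain ⟨e⟩ := h Y hY (fun hf => hYf (Submodule.fg_iff_finiteDimensional _ |>.2 hf))
    refine ⟨Y.subtypeₗᵢ.comp e.symm.toLinearIsometry, ?_⟩
    ext v
    constructor
    · rintro ⟨x, rfl⟩
      exact (e.symm x).2
    · intro hv
      refine ⟨e ⟨v, hv⟩, ?_⟩
      show ((e.symm (e ⟨v, hv⟩) : Y) : X) = v
      rw [e.symm_apply_apply]
  exact equiv_l2_of_almost hom hX (fun ε hε => exists_almost_l2 hom hX hε)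

end DF72
end
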