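import Pool.Agent.Lib.MP_df72c7_an.A6

namespace DF72

open Set Filter Topology

variable {𝕜 : Type*} [RCLike 𝕜] {X : Type*} [NormedAddCommGroup X] [NormedSpace 𝕜 X]

/-- `z` is a `δ`-twin of `x` over `K` -/
def Twin (𝕜 : Type*) [RCLike 𝕜] {X : Type*} [NormedAddCommGroup X] [NormedSpace 𝕜 X]
    (δ : ℝ) (x z : X) (K : Submodule 𝕜 X) : Prop :=
  ∀ a b : 𝕜, ∀ k ∈ K,
    ‖a • x + b • z + k‖ ≤ (1 + δ) * ‖((√(‖a‖ ^ 2 + ‖b‖ ^ 2) : ℝ) : 𝕜) • x + k‖ ∧
    ‖((√(‖a‖ ^ 2 + ‖b‖ ^ 2) : ℝ) : 𝕜) • x + k‖ ≤ (1 + δ) * ‖a • x + b • z + k‖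

/-- `x` has a `δ`-twin in `Z` -/
def Part (𝕜 : Type*) [RCLike 𝕜] {X : Type*} [NormedAddCommGroup X] [NormedSpace 𝕜 X]
    (δ : ℝ) (x : X) (Z : Submodule 𝕜 X) : Prop :=
  ∃ z ∈ Z, ‖z‖ = 1 ∧ ∃ K : Submodule 𝕜 X, K ≤ Z ∧ ¬ K.FG ∧ Twin 𝕜 δ x z K

lemma Twin.closure {δ : ℝ} {x z : X} {K : Submodule 𝕜 X} (h : Twin 𝕜 δ x z K) :
    Twin 𝕜 δ x z K.topologicalClosure := by
  intro a b k hk
  have hcl : IsClosed {k : X |
      ‖a • x + b • z + k‖ ≤ (1 + δ) * ‖((√(‖a‖ ^ 2 + ‖b‖ ^ 2) : ℝ) : 𝕜) • x + k‖ ∧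
      ‖((√(‖a‖ ^ 2 + ‖b‖ ^ 2) : ℝ) : 𝕜) • x + k‖ ≤ (1 + δ) * ‖a • x + b • z + k‖} := by
    rw [Set.setOf_and]
    apply IsClosed.inter
    · apply isClosed_le <;> fun_prop
    · apply isClosed_le <;> fun_prop
  exact closure_minimal (fun k hk => h a b k hk) hcl hk

lemma not_fg_closure {K : Submodule 𝕜 X} (h : ¬ K.FG) : ¬ K.topologicalClosure.FG :=
  fun h' => h (fg_of_le h' (Submodule.le_topologicalClosure K))

/-- summable errors -/
lemma exists_errors {ε : ℝ} (hε : 0 < ε) : ∃ δ : ℕ → ℝ, (∀ n, 0 < δ n) ∧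
    ∀ n, (∏ i ∈ Finset.range n, (1 + δ i)) ^ 2 ≤ 1 + ε := by
  set L : ℝ := Real.log (1 + ε) / 2 with hL
  have hL0 : 0 < L := by
    have := Real.log_pos (by linarith : (1:ℝ) < 1 + ε)
    positivity
  refine ⟨fun n => L * (2⁻¹) ^ (n + 1), fun n => by positivity, ?_⟩
  intro n
  have hpos : 0 ≤ ∏ i ∈ Finset.range n, (1 + L * (2⁻¹) ^ (i + 1)) :=
    Finset.prod_nonneg fun i _ => by positivity
  have h1 : ∏ i ∈ Finset.range n, (1 + L * (2⁻¹) ^ (i + 1)) ≤ Real.exp L := by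
    calc _ ≤ ∏ i ∈ Finset.range n, Real.exp (L * (2⁻¹) ^ (i + 1)) := by
          apply Finset.prod_le_prod
          · intro i _
            positivity
          · intro i _
            rw [add_comm]
            exact Real.add_one_le_exp _
      _ = Real.exp (∑ i ∈ Finset.range n, L * (2⁻¹) ^ (i + 1)) := (Real.exp_sum _ _).symm
      _ ≤ Real.exp L := by
          apply Real.exp_le_exp.2
          have h3 : ∑ i ∈ Finset.range n, (2⁻¹ : ℝ) ^ i ≤ 2 := by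
            have h4 := Summable.sum_le_tsum (f := fun i => (2⁻¹ : ℝ) ^ i) (Finset.range n)
              (fun i _ => by positivity) (summable_geometric_of_lt_one (by norm_num) (by norm_num))
            rw [tsum_geometric_of_lt_one (by norm_num) (by norm_num)] at h4
            norm_num at h4
            simpa using h4
          have h5 : ∑ i ∈ Finset.range n, L * (2⁻¹) ^ (i + 1)
              = L * (2⁻¹ * ∑ i ∈ Finset.range n, (2⁻¹ : ℝ) ^ i) := by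
            rw [Finset.mul_sum, Finset.mul_sum]
            apply Finset.sum_congr rfl
            intro i _
            rw [pow_succ]; ring
          rw [h5]
          calc _ ≤ L * 1 := by
                gcongr
                linarith
            _ = L := mul_one L
  calc _ ≤ (Real.exp L) ^ 2 := by gcongr
    _ = Real.exp (Real.log (1 + ε)) := by
        rw [sq, ← Real.exp_add]; congr 1; rw [hL]; ring
    _ = 1 + ε := Real.exp_log (by linarith)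

/-- a vector with twins everywhere gives almost isometric copies of `ℓ²` -/
theorem exists_almost_l2_of_part [CompleteSpace X] (hX : ¬ FiniteDimensional 𝕜 X) {x₀ : X}
    (hx₀ : ‖x₀‖ = 1)
    (hPR : ∀ δ : ℝ, 0 < δ → ∀ Z : Submodule 𝕜 X, IsClosed (Z : Set X) → ¬ Z.FG → Part 𝕜 δ x₀ Z)
    {ε : ℝ} (hε : 0 < ε) :
    ∃ x : ℕ → X, ∀ c : ℕ →₀ 𝕜,
      ‖c.sum fun i a => a • x i‖ ^ 2 ≤ (1 + ε) * c.sum (fun _ a => ‖a‖ ^ 2) ∧
      c.sum (fun _ a => ‖a‖ ^ 2) ≤ (1 + ε) * ‖c.sum fun i a => a • x i‖ ^ 2 := by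
  classical
  obtain ⟨δ, hδ0, hδ⟩ := exists_errors hε
  let St := {Z : Submodule 𝕜 X // IsClosed (Z : Set X) ∧ ¬ Z.FG}
  have hstep : ∀ (n : ℕ) (Z : St), ∃ (z : X) (Z' : St), z ∈ Z.1 ∧ Z'.1 ≤ Z.1 ∧
      Twin 𝕜 (δ n) x₀ z Z'.1 := by
    rintro n ⟨Z, hZc, hZf⟩
    obtain ⟨z, hz, -, K, hK, hKf, ht⟩ := hPR (δ n) (hδ0 n) Z hZc hZf
    exact ⟨z, ⟨K.topologicalClosure, Submodule.isClosed_topologicalClosure _, not_fg_closure hKf⟩,
      hz, Submodule.topologicalClosure_minimal _ hK hZc, ht.closure⟩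
  choose z N hz hN ht using hstep
  have htop : IsClosed ((⊤ : Submodule 𝕜 X) : Set X) ∧ ¬ (⊤ : Submodule 𝕜 X).FG :=
    ⟨isClosed_univ, fun h => hX ⟨h⟩⟩
  let Z : ℕ → St := fun n => Nat.rec ⟨⊤, htop⟩ (fun n Z => N n Z) n
  have hZs : ∀ n, Z (n + 1) = N n (Z n) := fun n => rfl
  let x : ℕ → X := fun n => Nat.casesOn n x₀ (fun n => z n (Z n))
  have hxs : ∀ n, x (n + 1) = z n (Z n) := fun n => rfl
  have hx0 : x 0 = x₀ := rfl
  let C : ℕ → ℝ := fun n => ∏ i ∈ Finset.range n, (1 + δ i)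
  have hC0 : ∀ n, 0 < C n := fun n => Finset.prod_pos fun i _ => by
    have := hδ0 i; positivity
  have hCs : ∀ n, C (n + 1) = C n * (1 + δ n) := fun n => Finset.prod_range_succ _ _
  have hCle : ∀ n, C n ^ 2 ≤ 1 + ε := hδ
  have key : ∀ (c : ℕ → 𝕜) (n : ℕ), ∃ r : 𝕜, ‖r‖ ^ 2 = ∑ i ∈ Finset.range (n + 1), ‖c i‖ ^ 2 ∧
      ∀ y ∈ (Z n).1, ‖∑ i ∈ Finset.range (n + 1), c i • x i + y‖ ≤ C n * ‖r • x₀ + y‖ ∧
        ‖r • x₀ + y‖ ≤ C n * ‖∑ i ∈ Finset.range (n + 1), c i • x i + y‖ := by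
    intro c n
    induction n with
    | zero =>
      refine ⟨c 0, by simp, fun y _ => ?_⟩
      have : C 0 = 1 := by simp [C]
      rw [this]
      simp [hx0]
    | succ n ih =>
      obtain ⟨r, hr, hry⟩ := ih
      refine ⟨((√(‖r‖ ^ 2 + ‖c (n+1)‖ ^ 2) : ℝ) : 𝕜), ?_, fun y hy => ?_⟩
      · rw [RCLike.norm_ofReal, sq_abs, Real.sq_sqrt (by positivity), hr,
          ← Finset.sum_range_succ (fun i => ‖c i‖ ^ 2)]
      · have hzm : c (n + 1) • x (n + 1) + y ∈ (Z n).1 := by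
          apply Submodule.add_mem
          · exact Submodule.smul_mem _ _ (hz n (Z n))
          · exact hN n (Z n) hy
        have h2 : ∑ i ∈ Finset.range (n + 1 + 1), c i • x i + y
            = ∑ i ∈ Finset.range (n + 1), c i • x i + (c (n + 1) • x (n + 1) + y) := by
          rw [Finset.sum_range_succ, add_assoc]
        have h3 : r • x₀ + c (n + 1) • x (n + 1) + y = r • x₀ + (c (n + 1) • x (n + 1) + y) := by
          rw [add_assoc]
        obtain ⟨h4, h5⟩ := hry _ hzm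
        obtain ⟨h6, h7⟩ := ht n (Z n) r (c (n + 1)) y hy
        rw [← hxs, h3] at h6 h7
        rw [h2, hCs]
        have hCn := hC0 n
        have hδn := hδ0 n
        constructor
        · calc _ ≤ C n * ‖r • x₀ + (c (n + 1) • x (n + 1) + y)‖ := h4
            _ ≤ C n * ((1 + δ n) * ‖((√(‖r‖ ^ 2 + ‖c (n+1)‖ ^ 2) : ℝ) : 𝕜) • x₀ + y‖) := by
              gcongr
            _ = _ := by ring
        · calc _ ≤ (1 + δ n) * ‖r • x₀ + (c (n + 1) • x (n + 1) + y)‖ := h7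
            _ ≤ (1 + δ n) * (C n * ‖∑ i ∈ Finset.range (n + 1), c i • x i
                  + (c (n + 1) • x (n + 1) + y)‖) := by gcongr
            _ = _ := by ring
  refine ⟨x, fun c => ?_⟩
  obtain ⟨n, hn⟩ : ∃ n, c.support ⊆ Finset.range (n + 1) := by
    refine ⟨c.support.sup id, fun i hi => ?_⟩
    rw [Finset.mem_range]
    have := Finset.le_sup (f := id) hi
    simp only [id] at this
    omega
  have hs1 : (c.sum fun i a => a • x i) = ∑ i ∈ Finset.range (n + 1), c i • x i := by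
    rw [Finsupp.sum]
    apply Finset.sum_subset hn
    intro i _ hi
    rw [Finsupp.notMem_support_iff.1 hi, zero_smul]
  have hs2 : (c.sum fun _ a => ‖a‖ ^ 2) = ∑ i ∈ Finset.range (n + 1), ‖c i‖ ^ 2 := by
    rw [Finsupp.sum]
    apply Finset.sum_subset hn
    intro i _ hi
    rw [Finsupp.notMem_support_iff.1 hi]; simp
  obtain ⟨r, hr, hry⟩ := key c n
  obtain ⟨h1, h2⟩ := hry 0 (Submodule.zero_mem _)
  rw [add_zero, add_zero, norm_smul, hx₀, mul_one] at h1 h2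
  rw [hs1, hs2, ← hr]
  have hCn := hC0 n
  have hCl := hCle n
  constructor
  · calc _ ≤ (C n * ‖r‖) ^ 2 := by gcongr
      _ = C n ^ 2 * ‖r‖ ^ 2 := by rw [mul_pow]
      _ ≤ _ := by gcongr
  · calc ‖r‖ ^ 2 ≤ (C n * ‖∑ i ∈ Finset.range (n + 1), c i • x i‖) ^ 2 := by gcongr
      _ = C n ^ 2 * ‖∑ i ∈ Finset.range (n + 1), c i • x i‖ ^ 2 := by rw [mul_pow]
      _ ≤ _ := by gcongr

/-! ### elementary properties of twins -/

lemma Twin.mono {δ δ' : ℝ} (h : δ ≤ δ') {x z : X} {K : Submodule 𝕜 X} (ht : Twin 𝕜 δ x z K) :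
    Twin 𝕜 δ' x z K := by
  intro a b k hk
  obtain ⟨h1, h2⟩ := ht a b k hk
  constructor
  · refine h1.trans ?_
    gcongr
  · refine h2.trans ?_
    gcongr

lemma Part.mono {δ δ' : ℝ} (h : δ ≤ δ') {x : X} {Z : Submodule 𝕜 X} (hp : Part 𝕜 δ x Z) :
    Part 𝕜 δ' x Z := by
  obtain ⟨z, hz, hz1, K, hK, hKf, ht⟩ := hp
  exact ⟨z, hz, hz1, K, hK, hKf, ht.mono h⟩

lemma Part.mono_right {δ : ℝ} {x : X} {Z Z' : Submodule 𝕜 X} (h : Z ≤ Z')
    (hp : Part 𝕜 δ x Z) : Part 𝕜 δ x Z' := by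
  obtain ⟨z, hz, hz1, K, hK, hKf, ht⟩ := hp
  exact ⟨z, h hz, hz1, K, hK.trans h, hKf, ht⟩

lemma fg_map_iff (e : X →ₗᵢ[𝕜] X) (K : Submodule 𝕜 X) : (K.map e.toLinearMap).FG ↔ K.FG :=
  ⟨fun h => Submodule.fg_of_fg_map_injective _ e.injective h, fun h => h.map _⟩

lemma part_map_iff (e : X →ₗᵢ[𝕜] X) {δ : ℝ} {x : X} {Z : Submodule 𝕜 X} :
    Part 𝕜 δ (e x) (Z.map e.toLinearMap) ↔ Part 𝕜 δ x Z := by
  constructor
  · rintro ⟨_, ⟨z, hz, rfl⟩, hz1, K, hK, hKf, ht⟩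
    have hKe : (K.comap e.toLinearMap).map e.toLinearMap = K := by
      rw [Submodule.map_comap_eq, inf_eq_right]
      refine hK.trans ?_
      rintro _ ⟨y, -, rfl⟩
      exact ⟨y, rfl⟩
    refine ⟨z, hz, ?_, K.comap e.toLinearMap, ?_, ?_, ?_⟩
    · rw [← e.norm_map]; exact hz1
    · intro y hy
      obtain ⟨y', hy', h⟩ := hK hy
      have : y' = y := e.injective h
      rwa [← this]
    · rw [← fg_map_iff e, hKe]; exact hKf
    · intro a b k hk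
      have h1 := ht a b (e k) hk
      have h2 : a • e x + b • e.toLinearMap z + e k = e (a • x + b • z + k) := by
        rw [map_add, map_add, map_smul, map_smul]; rfl
      have h3 : ∀ r : 𝕜, r • e x + e k = e (r • x + k) := by
        intro r; rw [map_add, map_smul]
      rw [h2, h3, e.norm_map, e.norm_map] at h1
      exact h1
  · rintro ⟨z, hz, hz1, K, hK, hKf, ht⟩
    refine ⟨e z, ⟨z, hz, rfl⟩, by rw [e.norm_map, hz1], K.map e.toLinearMap,
      Submodule.map_mono hK, by rw [fg_map_iff]; exact hKf, ?_⟩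
    rintro a b _ ⟨k, hk, rfl⟩
    have h1 := ht a b k hk
    have h2 : a • e x + b • e z + e.toLinearMap k = e (a • x + b • z + k) := by
      rw [map_add, map_add, map_smul, map_smul]; rfl
    have h3 : ∀ r : 𝕜, r • e x + e.toLinearMap k = e (r • x + k) := by
      intro r; rw [map_add, map_smul]; rfl
    rw [h2, h3, e.norm_map, e.norm_map]
    exact h1

lemma part_phase {δ : ℝ} {x : X} {Z : Submodule 𝕜 X} {u : 𝕜} (hu : ‖u‖ = 1)
    (hp : Part 𝕜 δ x Z) : Part 𝕜 δ (u • x) Z := by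
  obtain ⟨z, hz, hz1, K, hK, hKf, ht⟩ := hp
  have hu0 : u ≠ 0 := by rintro rfl; simp at hu
  refine ⟨u • z, Z.smul_mem _ hz, by rw [norm_smul, hu, one_mul, hz1], K, hK, hKf, ?_⟩
  intro a b k hk
  have h1 := ht a b (u⁻¹ • k) (K.smul_mem _ hk)
  have hk' : k = u • u⁻¹ • k := by rw [smul_smul, mul_inv_cancel₀ hu0, one_smul]
  have h2 : ‖a • u • x + b • u • z + k‖ = ‖a • x + b • z + u⁻¹ • k‖ := by
    have : a • u • x + b • u • z + k = u • (a • x + b • z + u⁻¹ • k) := by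
      rw [smul_add, smul_add, ← hk', smul_comm a u, smul_comm b u]
    rw [this, norm_smul, hu, one_mul]
  have h3 : ∀ r : 𝕜, ‖r • u • x + k‖ = ‖r • x + u⁻¹ • k‖ := by
    intro r
    have : r • u • x + k = u • (r • x + u⁻¹ • k) := by
      rw [smul_add, ← hk', smul_comm r u]
    rw [this, norm_smul, hu, one_mul]
  rw [h2, h3]
  exact h1

/-- the twin property forces `x` to be far from `K` -/
lemma Twin.lower {δ : ℝ} (hδ : δ ≤ 1) {x z : X} (hx : ‖x‖ = 1) {K : Submodule 𝕜 X}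
    (ht : Twin 𝕜 δ x z K) (r : 𝕜) {k : X} (hk : k ∈ K) : 2 * ‖r‖ ≤ 3 * ‖r • x + k‖ := by
  -- reduce to real `r`
  have key : ∀ r : ℝ, 0 ≤ r → ∀ k ∈ K, 2 * r ≤ 3 * ‖(r : 𝕜) • x + k‖ := by
    intro r hr k hk
    have h1 := (ht (-(r : 𝕜)) 0 k hk).1
    rw [norm_neg, RCLike.norm_ofReal, sq_abs, norm_zero, zero_smul, add_zero] at h1
    have h2 : √(r ^ 2 + 0 ^ 2) = r := by
      rw [zero_pow (by norm_num), add_zero, Real.sqrt_sq hr]
    rw [h2] at h1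
    have h3 : ‖((2 * r : ℝ) : 𝕜) • x‖ ≤ ‖(r : 𝕜) • x + k‖ + ‖-(r : 𝕜) • x + k‖ := by
      have : ((2 * r : ℝ) : 𝕜) • x = ((r : 𝕜) • x + k) - (-(r : 𝕜) • x + k) := by
        push_cast
        module
      rw [this]
      exact norm_sub_le _ _
    rw [norm_smul, RCLike.norm_ofReal, hx, mul_one, abs_of_nonneg (by positivity)] at h3
    have h4 : (1 + δ) * ‖(r : 𝕜) • x + k‖ ≤ 2 * ‖(r : 𝕜) • x + k‖ := by
      gcongr
      linarith
    linarith
  rcases eq_or_ne r 0 with rfl | hr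
  · simp
  · have hn : 0 < ‖r‖ := norm_pos_iff.2 hr
    set u : 𝕜 := (‖r‖ : 𝕜) * r⁻¹ with hu
    have hun : ‖u‖ = 1 := by
      rw [hu, norm_mul, RCLike.norm_ofReal, abs_of_nonneg hn.le, norm_inv, mul_inv_cancel₀ hn.ne']
    have h1 := key ‖r‖ hn.le (u • k) (K.smul_mem _ hk)
    have h2 : (‖r‖ : 𝕜) • x + u • k = u • (r • x + k) := by
      rw [smul_add, smul_smul, hu, mul_assoc, inv_mul_cancel₀ hr, mul_one]
    rw [h2, norm_smul, hun, one_mul] at h1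
    exact h1

lemma Twin.near {δ η : ℝ} (hδ0 : 0 ≤ δ) (hδ : δ ≤ 1) (hη : η ≤ 1 / 12) {x y z : X}
    (hy : ‖y‖ = 1) (hxy : ‖x - y‖ ≤ η) {K : Submodule 𝕜 X} (ht : Twin 𝕜 δ y z K) :
    Twin 𝕜 (δ + 12 * η) x z K := by
  have hη0 : 0 ≤ η := (norm_nonneg _).trans hxy
  intro a b k hk
  obtain ⟨h1, h2⟩ := ht a b k hk
  set r : ℝ := √(‖a‖ ^ 2 + ‖b‖ ^ 2) with hr
  have hr0 : 0 ≤ r := Real.sqrt_nonneg _
  have har : ‖a‖ ≤ r := by
    apply Real.le_sqrt_of_sq_le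
    have := sq_nonneg ‖b‖
    linarith
  have hrn : ‖(r : 𝕜)‖ = r := by rw [RCLike.norm_ofReal, abs_of_nonneg hr0]
  have h3 : 2 * r ≤ 3 * ‖(r : 𝕜) • y + k‖ := by
    have := ht.lower hδ hy (r : 𝕜) hk
    rwa [hrn] at this
  -- comparison of the two pairs of norms
  have h4 : ‖(r : 𝕜) • y + k‖ ≤ ‖(r : 𝕜) • x + k‖ + r * η := by
    have : (r : 𝕜) • y + k = ((r : 𝕜) • x + k) - (r : 𝕜) • (x - y) := by
      rw [smul_sub]; abel
    rw [this]
    refine (norm_sub_le _ _).trans ?_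
    rw [norm_smul, hrn]
    gcongr
  have h4' : ‖(r : 𝕜) • x + k‖ ≤ ‖(r : 𝕜) • y + k‖ + r * η := by
    have : (r : 𝕜) • x + k = ((r : 𝕜) • y + k) + (r : 𝕜) • (x - y) := by
      rw [smul_sub]; abel
    rw [this]
    refine (norm_add_le _ _).trans ?_
    rw [norm_smul, hrn]
    gcongr
  have h5 : ‖a • x + b • z + k‖ ≤ ‖a • y + b • z + k‖ + r * η := by
    have : a • x + b • z + k = (a • y + b • z + k) + a • (x - y) := by
      rw [smul_sub]; abel
    rw [this]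
    refine (norm_add_le _ _).trans ?_
    rw [norm_smul]
    gcongr
  have h5' : ‖a • y + b • z + k‖ ≤ ‖a • x + b • z + k‖ + r * η := by
    have : a • y + b • z + k = (a • x + b • z + k) - a • (x - y) := by
      rw [smul_sub]; abel
    rw [this]
    refine (norm_sub_le _ _).trans ?_
    rw [norm_smul]
    gcongr
  have n1 := norm_nonneg ((r : 𝕜) • x + k)
  have n2 := norm_nonneg ((r : 𝕜) • y + k)
  have n3 := norm_nonneg (a • x + b • z + k)
  have n4 := norm_nonneg (a • y + b • z + k)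
  set A := ‖(r : 𝕜) • x + k‖
  set B := ‖(r : 𝕜) • y + k‖
  set C := ‖a • x + b • z + k‖
  set D := ‖a • y + b • z + k‖
  have hrη : r * η ≤ r * (1 / 12) := by gcongr
  constructor
  · -- `r ≤ 2 A`
    have h6 : r ≤ 2 * A := by linarith
    have h7 : r * η ≤ 2 * A * η := by gcongr
    have h8 : (1 + δ) * B ≤ (1 + δ) * (A + r * η) := by gcongr
    have h9 : (1 + δ) * (r * η) ≤ 2 * (r * η) := by gcongr; linarith
    nlinarith
  · have h6 : (1 + δ) * D ≤ 2 * D := by gcongr; linarith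
    have h7 : r ≤ 4 * C := by linarith
    have h8 : r * η ≤ 4 * C * η := by gcongr
    have h9 : (1 + δ) * D ≤ (1 + δ) * (C + r * η) := by gcongr
    have h10 : (1 + δ) * (r * η) ≤ 2 * (r * η) := by gcongr; linarith
    nlinarith

lemma Part.near {δ η : ℝ} (hδ0 : 0 ≤ δ) (hδ : δ ≤ 1) (hη : η ≤ 1 / 12) {x y : X}
    (hy : ‖y‖ = 1) (hxy : ‖x - y‖ ≤ η) {Z : Submodule 𝕜 X} (hp : Part 𝕜 δ y Z) :
    Part 𝕜 (δ + 12 * η) x Z := by
  obtain ⟨z, hz, hz1, K, hK, hKf, ht⟩ := hp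
  exact ⟨z, hz, hz1, K, hK, hKf, ht.near hδ0 hδ hη hy hxy⟩

end DF72
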