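import Pool.Agent.Lib.MP_df72c7_an.C9

namespace DF72

open Set Filter Topology

variable {X : Type*} [NormedAddCommGroup X] [NormedSpace ℂ X]

/-- twin conclusion -/
def HasTwin (δ : ℝ) (P R : X →L[ℂ] X) : Prop :=
  ∃ w, ‖w‖ = 1 ∧ P w = w ∧ ∃ z ∈ Submodule.span ℂ {w, R w}, ‖z‖ = 1 ∧ P z = 0 ∧
    ∀ (a b : ℂ) (k : X), P k = 0 → P (R k) = 0 →
      ‖a • w + b • z + k‖ ≤ (1 + δ) * ‖((√(‖a‖ ^ 2 + ‖b‖ ^ 2) : ℝ) : ℂ) • w + k‖ ∧
      ‖((√(‖a‖ ^ 2 + ‖b‖ ^ 2) : ℝ) : ℂ) • w + k‖ ≤ (1 + δ) * ‖a • w + b • z + k‖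

lemma Herm.mul_self {ε : ℝ} {P : X →L[ℂ] X} (hP : Herm ε P) : P * P = P := by
  ext x
  exact hP.1 x

lemma Herm.norm_one_sub {ε : ℝ} (hε : 0 ≤ ε) {P : X →L[ℂ] X} (hP : Herm ε P) :
    ‖1 - 2 * P‖ ≤ 1 + ε := by
  apply ContinuousLinearMap.opNorm_le_bound _ (by linarith)
  intro x
  have h1 := hP.2 (-1) (by simp) x
  have h2 : (1 - 2 * P) x = x + (-1 - 1 : ℂ) • P x := by
    have : (2 * P : X →L[ℂ] X) = P + P := two_mul P
    rw [this]
    simp only [ContinuousLinearMap.sub_apply, ContinuousLinearMap.one_apply,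
      ContinuousLinearMap.add_apply]
    module
  rw [h2]
  exact h1

lemma Herm.opNorm_le {ε : ℝ} (hε : 0 ≤ ε) {P : X →L[ℂ] X} (hP : Herm ε P) : ‖P‖ ≤ 1 + ε :=
  ContinuousLinearMap.opNorm_le_bound _ (by linarith) (hP.norm_le hε)

theorem comm_small (X : Type*) [NormedAddCommGroup X] [NormedSpace ℂ X] {η δ : ℝ} (hη : 0 < η)
    (hδ : 0 < δ) : ∃ ε > 0, ∀ P R : X →L[ℂ] X, Herm ε P → Herm ε R →
      FiniteDimensional ℂ (LinearMap.range (P : X →ₗ[ℂ] X)) →
      Module.finrank ℂ (LinearMap.range (P : X →ₗ[ℂ] X)) ≤ 2 →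
      ‖P * R - R * P‖ ≤ η ∨ HasTwin δ P R := by
  by_contra hcon
  push Not at hcon
  have hcon' : ∀ n : ℕ, ∃ P R : X →L[ℂ] X, Herm (1 / ((n : ℝ) + 1)) P ∧
      Herm (1 / ((n : ℝ) + 1)) R ∧ FiniteDimensional ℂ (LinearMap.range (P : X →ₗ[ℂ] X)) ∧
      Module.finrank ℂ (LinearMap.range (P : X →ₗ[ℂ] X)) ≤ 2 ∧
      η < ‖P * R - R * P‖ ∧ ¬ HasTwin δ P R := by
    intro n
    obtain ⟨P, R, h1, h2, h3, h4, h5, h6⟩ := hcon (1 / ((n : ℝ) + 1)) (by positivity)
    exact ⟨P, R, h1, h2, h3, h4, h5, h6⟩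
  choose P R hP hR hfin hdim hbig hno using hcon'
  have hε : Tendsto (fun n : ℕ => 1 / ((n : ℝ) + 1)) atTop (𝓝 0) :=
    tendsto_one_div_add_atTop_nhds_zero_nat
  have hε0 : ∀ n : ℕ, 0 ≤ 1 / ((n : ℝ) + 1) := fun n => by positivity
  have hε1 : ∀ n : ℕ, 1 / ((n : ℝ) + 1) ≤ 1 := fun n => by
    rw [div_le_one (by positivity)]
    have : (0 : ℝ) ≤ n := Nat.cast_nonneg n
    linarith
  have hPP : ∀ n, P n * P n = P n := fun n => (hP n).mul_self
  have hPn : ∀ n, ‖P n‖ ≤ 2 := fun n => ((hP n).opNorm_le (hε0 n)).trans (by linarith [hε1 n])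
  have hRn : ∀ n, ‖R n‖ ≤ 2 := fun n => ((hR n).opNorm_le (hε0 n)).trans (by linarith [hε1 n])
  have key : Tendsto (fun n => ‖P n * R n - R n * P n‖) atTop (𝓝 0) := by
    apply comm_tendsto (A := X →L[ℂ] X) ContinuousLinearMap.norm_id_le hε hε0 hPP
      (fun n => (hR n).mul_self) (fun n => (hP n).norm_one_sub (hε0 n))
      (fun n => (hR n).norm_one_sub (hε0 n))
    rw [Metric.tendsto_atTop]
    intro r hr
    set η₁ : ℝ := min (1 / 2) (r / 4000) with hη₁
    have hη₁0 : 0 < η₁ := lt_min (by norm_num) (by positivity)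
    have hη₁1 : η₁ ≤ 1 / 2 := min_le_left _ _
    have hη₁2 : η₁ ≤ r / 4000 := min_le_right _ _
    obtain ⟨ε₁, hε₁, hrank⟩ := rank_one X hη₁0 hη₁1 hδ
    obtain ⟨N, hN⟩ := eventually_atTop.1 (hε.eventually (ge_mem_nhds hε₁))
    refine ⟨N, fun n hn => ?_⟩
    have hεn : 1 / ((n : ℝ) + 1) ≤ ε₁ := hN n hn
    rw [Real.dist_eq, sub_zero, abs_of_nonneg (norm_nonneg _)]
    set b : X →L[ℂ] X := P n * R n * P n with hb
    set V := LinearMap.range (P n : X →ₗ[ℂ] X) with hV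
    have hVm : ∀ x, P n x ∈ V := fun x => ⟨x, rfl⟩
    have hVP : ∀ x ∈ V, P n x = x := by
      rintro _ ⟨y, rfl⟩
      exact (hP n).1 y
    have hVn : Nontrivial V := by
      by_contra hnt
      rw [not_nontrivial_iff_subsingleton] at hnt
      have hP0 : P n = 0 := by
        ext x
        have h1 : (⟨P n x, hVm x⟩ : V) = 0 := Subsingleton.elim _ _
        exact congrArg Subtype.val h1
      have := hbig n
      rw [hP0, zero_mul, mul_zero, sub_zero, norm_zero] at this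
      linarith
    have hVf : FiniteDimensional ℂ V := hfin n
    -- the compression
    let T : V →ₗ[ℂ] V :=
      { toFun := fun x => ⟨P n (R n x), hVm _⟩
        map_add' := fun x y => by
          apply Subtype.ext
          simp
        map_smul' := fun c x => by
          apply Subtype.ext
          simp }
    have hT : ∀ x : V, (T x : X) = P n (R n x) := fun x => rfl
    obtain ⟨β₁, β₂, w₁, w₂, hw₁, hw₂, he₁, he₂, hq⟩ := eig2 (hdim n) T
    have hsmall : ∀ (β : ℂ) (w : V), w ≠ 0 → T w = β • w → ‖β‖ < η₁ ∨ ‖1 - β‖ < η₁ := by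
      intro β w hw0 hw
      by_contra hc
      push Not at hc
      have hwn : 0 < ‖(w : X)‖ := norm_pos_iff.2 (fun h => hw0 (Subtype.ext h))
      have hwc : (((‖(w : X)‖ : ℝ) : ℂ)) ≠ 0 := by exact_mod_cast hwn.ne'
      have hwe : P n (R n (w : X)) = β • (w : X) := by
        rw [← hT, hw]; rfl
      obtain ⟨z, hz1, hz2, hz3, hz4⟩ := hrank (P n) (R n) ((hP n).mono hεn) ((hR n).mono hεn)
        ((((‖(w : X)‖ : ℝ) : ℂ))⁻¹ • (w : X))
        (by rw [norm_smul, norm_inv, Complex.norm_real, norm_norm, inv_mul_cancel₀ hwn.ne'])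
        (by rw [map_smul, hVP _ w.2]) β
        (by rw [map_smul, map_smul, hwe, smul_comm]) hc.1 hc.2
      exact hno n ⟨_, by
        rw [norm_smul, norm_inv, Complex.norm_real, norm_norm, inv_mul_cancel₀ hwn.ne'], by
        rw [map_smul, hVP _ w.2], z, hz1, hz2, hz3, hz4⟩
    have hbn : ‖b‖ ≤ 8 := by
      calc ‖b‖ ≤ ‖P n‖ * ‖R n‖ * ‖P n‖ :=
            (norm_mul_le _ _).trans (by gcongr; exact norm_mul_le _ _)
        _ ≤ 2 * 2 * 2 := by
            gcongr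
            · exact hPn n
            · exact hRn n
            · exact hPn n
        _ = 8 := by norm_num
    have hPb : P n * b = b := by
      rw [hb, ← mul_assoc, ← mul_assoc, hPP]
    have hbP : b * P n = b := by
      rw [hb, mul_assoc, hPP]
    have hquad : b * b - (β₁ + β₂) • b + (β₁ * β₂) • P n = 0 := by
      ext x
      have h1 := congrArg Subtype.val (hq ⟨P n x, hVm x⟩)
      simp only [Submodule.coe_add, Submodule.coe_sub, Submodule.coe_smul, hT,
        Submodule.coe_zero] at h1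
      simp only [ContinuousLinearMap.add_apply, ContinuousLinearMap.sub_apply,
        ContinuousLinearMap.smul_apply, ContinuousLinearMap.zero_apply, hb,
        ContinuousLinearMap.mul_apply]
      rw [(hP n).1]
      exact h1
    have hfinal := y_small (hPP n) hPb hbP hquad hη₁1 (hsmall β₁ w₁ hw₁ he₁)
      (hsmall β₂ w₂ hw₂ he₂) hbn (hPn n)
    calc _ ≤ 2000 * η₁ := hfinal
      _ ≤ 2000 * (r / 4000) := by gcongr
      _ < r := by linarith
  obtain ⟨N, hN⟩ := eventually_atTop.1 (key.eventually (gt_mem_nhds hη))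
  exact absurd (hN N le_rfl) (not_lt.2 (hbig N).le)

end DF72
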