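import Pool.Agent.Lib.MP_df72c7_an.C3
import Pool.Agent.Lib.MP_df72c7_an.A7
import Pool.Agent.Lib.MP_df72c7_an.C10

namespace DF72

open Set Filter Topology

variable {X : Type*} [NormedAddCommGroup X] [NormedSpace ℂ X]

lemma exists_proj {F Z : Submodule ℂ X} (hF : F.FG) (hZ : IsClosed (Z : Set X))
    (hden : (F ⊔ Z).topologicalClosure = ⊤) {ε : ℝ} (hε : 0 ≤ ε)
    (hunc : ∀ v ∈ F, ∀ z ∈ Z, ∀ lam : ℂ, ‖lam‖ = 1 → ‖v + lam • z‖ ≤ (1 + ε) * ‖v + z‖) :
    ∃ A : X →L[ℂ] X, Herm ε A ∧ (∀ x, A x ∈ F) ∧ (∀ x, x - A x ∈ Z) ∧ (∀ v ∈ F, A v = v) ∧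
      (∀ z ∈ Z, A z = 0) := by
  have hFf : FiniteDimensional ℂ F := Module.Finite.of_fg hF
  have hsup : F ⊔ Z = ⊤ := by
    have hcl : IsClosed ((Z ⊔ F : Submodule ℂ X) : Set X) :=
      Submodule.isClosed_sup_finiteDimensional Z F hZ
    rw [sup_comm] at hcl
    rw [← hcl.submodule_topologicalClosure_eq]
    exact hden
  have hdisj : Disjoint F Z := by
    rw [Submodule.disjoint_def]
    intro x hx hx'
    have h1 := hunc x hx (-x) (Z.neg_mem hx') (-1) (by simp)
    rw [add_neg_cancel, norm_zero, mul_zero, neg_smul, one_smul, neg_neg] at h1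
    have h2 : x + x = (2 : ℂ) • x := (two_smul _ _).symm
    rw [h2, norm_smul, Complex.norm_ofNat] at h1
    have := norm_nonneg x
    exact norm_eq_zero.1 (by linarith)
  have hc : IsCompl F Z := ⟨hdisj, codisjoint_iff.2 hsup⟩
  set A₀ : X →ₗ[ℂ] X := F.projection Z hc with hA₀
  have hF' : ∀ x, A₀ x ∈ F := fun x => Submodule.projection_apply_mem hc x
  have hFe : ∀ v ∈ F, A₀ v = v := fun v hv => Submodule.projection_apply_of_mem_left hc hv
  have hZe : ∀ z ∈ Z, A₀ z = 0 := fun z hz => Submodule.projection_apply_of_mem_right hc hz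
  have hZ' : ∀ x, x - A₀ x ∈ Z := by
    intro x
    rw [← Submodule.projection_apply_eq_zero_iff hc, ← hA₀, map_sub, hFe _ (hF' x), sub_self]
  have hsplit : ∀ x, A₀ x + (x - A₀ x) = x := fun x => by abel
  have hbd : ∀ x, ‖A₀ x‖ ≤ (1 + ε) * ‖x‖ := by
    intro x
    have h1 := hunc (A₀ x) (hF' x) (x - A₀ x) (hZ' x) (-1) (by simp)
    rw [hsplit] at h1
    have h2 : (2 : ℂ) • A₀ x = x + (A₀ x + (-1 : ℂ) • (x - A₀ x)) := by
      module
    have h3 : ‖(2 : ℂ) • A₀ x‖ ≤ ‖x‖ + (1 + ε) * ‖x‖ := by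
      rw [h2]
      exact (norm_add_le _ _).trans (by gcongr)
    rw [norm_smul, Complex.norm_ofNat] at h3
    have := norm_nonneg x
    nlinarith
  let A : X →L[ℂ] X := A₀.mkContinuous (1 + ε) hbd
  have hA : ∀ x, A x = A₀ x := fun x => rfl
  refine ⟨A, ⟨?_, ?_⟩, hF', hZ', hFe, hZe⟩
  · intro x
    rw [hA, hA]
    exact hFe _ (hF' x)
  · intro χ hχ x
    rw [hA]
    have hχ0 : χ ≠ 0 := by rintro rfl; simp at hχ
    have h1 := hunc (A₀ x) (hF' x) (x - A₀ x) (hZ' x) χ⁻¹ (by rw [norm_inv, hχ, inv_one])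
    rw [hsplit] at h1
    have h2 : x + (χ - 1) • A₀ x = χ • (A₀ x + χ⁻¹ • (x - A₀ x)) := by
      rw [smul_add, smul_smul, mul_inv_cancel₀ hχ0]
      module
    rw [h2, norm_smul, hχ, one_mul]
    exact h1

/-- a basis with its partial sum projections -/
structure Frame (δ₀ ε : ℝ) (b : ℕ → X) (A : ℕ → X →L[ℂ] X) (f : ℕ → X →L[ℂ] ℂ) : Prop where
  norm_one : ∀ i, ‖b i‖ = 1
  lev : ∀ i, Lev ℂ (b i) = δ₀
  herm : ∀ k, Herm ε (A k)
  zero : A 0 = 0
  succ : ∀ k x, A (k + 1) x = A k x + f k x • b k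
  f_self : ∀ k, f k (b k) = 1
  f_ne : ∀ j k, j ≠ k → f k (b j) = 0
  f_norm : ∀ k x, ‖f k x‖ ≤ 3 * ‖x‖
  comp_le : ∀ j k, j ≤ k → ∀ x, A j (A k x) = A j x
  comp_ge : ∀ j k, j ≤ k → ∀ x, A k (A j x) = A j x
  tend : ∀ x, Tendsto (fun k => A k x) atTop (𝓝 x)
  nopart : ∀ k v, A k v = v → ‖v‖ = 1 → δ₀ / 2 ≤ Lev ℂ v →
    ¬ Part ℂ (δ₀ / 4) v (LinearMap.ker (A k : X →ₗ[ℂ] X))
  fin : ∀ k, FiniteDimensional ℂ (LinearMap.range (A k : X →ₗ[ℂ] X))

theorem exists_frame {δ₀ ε : ℝ} (hε : 0 ≤ ε) (hε1 : ε ≤ 1 / 2) {b : ℕ → X}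
    (hb : SBasis ℂ δ₀ ε b) : ∃ A f, Frame δ₀ ε b A f := by
  set F : ℕ → Submodule ℂ X := fun k => Submodule.span ℂ (b '' Iio k) with hF
  set Z : ℕ → Submodule ℂ X := fun k => (Submodule.span ℂ (b '' Ici k)).topologicalClosure with hZ
  have hFG : ∀ k, (F k).FG := fun k =>
    Submodule.fg_span ((Set.finite_Iio k).image b)
  have hbF : ∀ i k, i < k → b i ∈ F k := fun i k h => Submodule.subset_span ⟨i, h, rfl⟩
  have hbZ : ∀ i k, k ≤ i → b i ∈ Z k := fun i k h =>
    Submodule.le_topologicalClosure _ (Submodule.subset_span ⟨i, h, rfl⟩)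
  have hden : ∀ k, (F k ⊔ Z k).topologicalClosure = ⊤ := by
    intro k
    rw [eq_top_iff, ← hb.dense]
    apply Submodule.topologicalClosure_mono
    rw [Submodule.span_le]
    rintro _ ⟨i, rfl⟩
    rcases lt_or_ge i k with h | h
    · exact Submodule.mem_sup_left (hbF i k h)
    · exact Submodule.mem_sup_right (hbZ i k h)
  have hex := fun k => exists_proj (hFG k) (Submodule.isClosed_topologicalClosure _) (hden k) hε
    (hb.good k).1
  choose A hherm hAF hAZ hAe hA0 using hex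
  have hFmono : ∀ j k, j ≤ k → F j ≤ F k := fun j k h =>
    Submodule.span_mono (Set.image_mono (Set.Iio_subset_Iio h))
  have hZanti : ∀ j k, j ≤ k → Z k ≤ Z j := fun j k h =>
    Submodule.topologicalClosure_mono (Submodule.span_mono (Set.image_mono (Set.Ici_subset_Ici.2 h)))
  have hcomp_le : ∀ j k, j ≤ k → ∀ x, A j (A k x) = A j x := by
    intro j k h x
    have h1 : A j (x - A k x) = 0 := hA0 j _ (hZanti j k h (hAZ k x))
    rw [map_sub] at h1
    exact (sub_eq_zero.1 h1).symm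
  have hcomp_ge : ∀ j k, j ≤ k → ∀ x, A k (A j x) = A j x :=
    fun j k h x => hAe k _ (hFmono j k h (hAF j x))
  have hbne : ∀ k, b k ≠ 0 := fun k h => by
    have := hb.norm_one k
    rw [h, norm_zero] at this
    exact zero_ne_one this
  -- rank one differences
  have hdiff : ∀ k x, ∃ c : ℂ, A (k + 1) x - A k x = c • b k := by
    intro k x
    have hFs : F (k + 1) = F k ⊔ Submodule.span ℂ {b k} := by
      have : (Iio (k + 1) : Set ℕ) = Iio k ∪ {k} := by
        ext i; simp only [mem_Iio, mem_union, mem_singleton_iff]; omega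
      simp only [hF]
      rw [this, Set.image_union, Submodule.span_union, Set.image_singleton]
    have h1 := hAF (k + 1) x
    rw [hFs] at h1
    obtain ⟨v, hv, u, hu, hvu⟩ := Submodule.mem_sup.1 h1
    obtain ⟨c, rfl⟩ := Submodule.mem_span_singleton.1 hu
    refine ⟨c, ?_⟩
    have h2 : A k x = v := by
      rw [← hcomp_le k (k + 1) (Nat.le_succ k), ← hvu, map_add, map_smul, hAe k v hv,
        hA0 k _ (hbZ k k le_rfl), smul_zero, add_zero]
    rw [h2, ← hvu]
    abel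
  have hAnorm : ∀ k x, ‖A k x‖ ≤ (1 + ε) * ‖x‖ := fun k => (hherm k).norm_le hε
  have hfex : ∀ k, ∃ f : X →L[ℂ] ℂ, (∀ x, A (k + 1) x = A k x + f x • b k) ∧
      (∀ x, ‖f x‖ ≤ 3 * ‖x‖) := by
    intro k
    obtain ⟨g, hg1, hg2⟩ := exists_dual_vector ℂ (b k)
      (by rw [hb.norm_one k]; exact one_ne_zero)
    refine ⟨g.comp (A (k + 1) - A k), ?_, ?_⟩
    · intro x
      obtain ⟨c, hc⟩ := hdiff k x
      have h1 : (g.comp (A (k + 1) - A k)) x = c := by
        show g (A (k + 1) x - A k x) = c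
        rw [hc, map_smul, hg2, hb.norm_one k]
        simp
      rw [h1, ← hc]
      abel
    · intro x
      show ‖g (A (k + 1) x - A k x)‖ ≤ 3 * ‖x‖
      have h1 := g.le_opNorm (A (k + 1) x - A k x)
      rw [hg1, one_mul] at h1
      refine h1.trans ((norm_sub_le _ _).trans ?_)
      have h2 := hAnorm (k + 1) x
      have h3 := hAnorm k x
      have := norm_nonneg x
      nlinarith
  choose f hf1 hf2 using hfex
  have hcancel : ∀ k (c d : ℂ), c • b k = d • b k → c = d := fun k c d h =>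
    smul_left_injective ℂ (hbne k) h
  have hAlt : ∀ i k, i < k → A k (b i) = b i := fun i k h => hAe k _ (hbF i k h)
  have hAge : ∀ i k, k ≤ i → A k (b i) = 0 := fun i k h => hA0 k _ (hbZ i k h)
  refine ⟨A, f, ⟨hb.norm_one, hb.lev, hherm, ?_, hf1, ?_, ?_, hf2, hcomp_le, hcomp_ge, ?_, ?_,
    ?_⟩⟩
  · ext x
    have h1 := hAF 0 x
    have h2 : F 0 = ⊥ := by simp [hF]
    rw [h2, Submodule.mem_bot] at h1
    exact h1
  · intro k
    have h1 := hf1 k (b k)
    rw [hAlt k (k + 1) (Nat.lt_succ_self k), hAge k k le_rfl, zero_add] at h1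
    exact (hcancel k _ _ (by rw [one_smul]; exact h1)).symm
  · intro j k hjk
    have h1 := hf1 k (b j)
    rcases lt_or_gt_of_ne hjk with h | h
    · rw [hAlt j (k + 1) (by omega), hAlt j k h] at h1
      have h2 : f k (b j) • b k = (0 : ℂ) • b k := by
        rw [zero_smul]
        exact left_eq_add.1 h1
      exact hcancel k _ _ h2
    · rw [hAge j (k + 1) (by omega), hAge j k h.le, zero_add] at h1
      exact hcancel k _ _ (by rw [zero_smul]; exact h1.symm)
  · intro x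
    rw [Metric.tendsto_atTop]
    intro r hr
    have hx : x ∈ (Submodule.span ℂ (range b)).topologicalClosure := by
      rw [hb.dense]; trivial
    have hx' : x ∈ closure (Submodule.span ℂ (range b) : Set X) := hx
    rw [Metric.mem_closure_iff] at hx'
    obtain ⟨y, hy, hxy⟩ := hx' (r / 4) (by positivity)
    have hspan : ∀ y ∈ Submodule.span ℂ (range b), ∃ N, y ∈ F N := by
      intro y hy
      induction hy using Submodule.span_induction with
      | mem y hy =>
        obtain ⟨i, rfl⟩ := hy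
        exact ⟨i + 1, hbF i (i + 1) (Nat.lt_succ_self i)⟩
      | zero => exact ⟨0, Submodule.zero_mem _⟩
      | add u v _ _ hu hv =>
        obtain ⟨N, hN⟩ := hu
        obtain ⟨M, hM⟩ := hv
        exact ⟨max N M, Submodule.add_mem _ (hFmono _ _ (le_max_left N M) hN)
          (hFmono _ _ (le_max_right N M) hM)⟩
      | smul c u _ hu =>
        obtain ⟨N, hN⟩ := hu
        exact ⟨N, Submodule.smul_mem _ _ hN⟩
    obtain ⟨N, hN⟩ := hspan y hy
    refine ⟨N, fun k hk => ?_⟩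
    have hAy : A k y = y := hAe k _ (hFmono N k hk hN)
    rw [dist_eq_norm] at hxy ⊢
    have h1 : A k x - x = A k (x - y) - (x - y) := by
      rw [map_sub, hAy]; abel
    rw [h1]
    have h2 := hAnorm k (x - y)
    have h3 := norm_nonneg (x - y)
    calc ‖A k (x - y) - (x - y)‖ ≤ ‖A k (x - y)‖ + ‖x - y‖ := norm_sub_le _ _
      _ ≤ (1 + ε) * ‖x - y‖ + ‖x - y‖ := by gcongr
      _ < r := by nlinarith
  · intro k v hv hv1 hvL hp
    have hvF : v ∈ F k := by rw [← hv]; exact hAF k v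
    apply (hb.good k).2 v hvF hv1 hvL
    refine hp.mono_right ?_
    intro z hz
    have hz' : A k z = 0 := hz
    have := hAZ k z
    rwa [hz', sub_zero] at this
  · intro k
    have h1 : LinearMap.range (A k : X →ₗ[ℂ] X) ≤ F k := by
      rintro _ ⟨x, rfl⟩
      exact hAF k x
    exact Module.Finite.of_fg (fg_of_le (hFG k) h1)

end DF72
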