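import Pool.Agent.Lib.MP_df72c7_an.C11

namespace DF72

open Set Filter Topology

variable {X : Type*} [NormedAddCommGroup X] [NormedSpace ℂ X]

lemma exists_big {T : X →L[ℂ] X} {r : ℝ} (hr : 0 ≤ r) (h : r < ‖T‖) : ∃ x, r * ‖x‖ < ‖T x‖ := by
  by_contra hc
  push Not at hc
  exact absurd (T.opNorm_le_bound hr hc) (not_le.2 h)

/-- jump lemma -/
lemma jump {P : X →L[ℂ] X} (hP : P * P = P) (hPn : ‖P‖ ≤ 2) {B : ℕ → X →L[ℂ] X}
    (hB : ∀ j, B j * B j = B j) (hBn : ∀ j, ‖B j‖ ≤ 4) {c : ℕ → X} {g : ℕ → X →L[ℂ] ℂ}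
    (hc : ∀ j x, B (j + 1) x = B j x + g j x • c j) (hc1 : ∀ j, ‖c j‖ ≤ 1) (hB0 : B 0 = 0)
    {η : ℝ} (hη : ∀ j, ‖P * B j - B j * P‖ ≤ η) (hη1 : η ≤ 1 / 1000) {v : X} (hv : ‖v‖ = 1)
    (hPv : P v = v) {N : ℕ} (hN : 1 / 2 < ‖P (B N v)‖) :
    ∃ j, ‖P (c j) - c j‖ ≤ 40 * η ∧ ‖P * B j * P‖ ≤ 32 * η := by
  have hη0 : 0 ≤ η := (norm_nonneg _).trans (hη 0)
  have hPnn := norm_nonneg P
  -- the dichotomy
  have hdich : ∀ j, ‖P * B j * P‖ ≤ 32 * η ∨ 1 / 2 ≤ ‖P * B j * P‖ := by
    intro j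
    set t := ‖P * B j * P‖ with ht
    have ht0 : 0 ≤ t := norm_nonneg _
    have h1 : ‖P * B j * P * (P * B j * P) - P * B j * P‖ ≤ 16 * η := by
      have e1 : P * B j * P * (P * B j * P) - P * B j * P
          = P * B j * (P * B j - B j * P) * P := by
        have e2 : P * B j * P * (P * B j * P) = P * B j * (P * P) * B j * P := by
          simp only [mul_assoc]
        have e3 : P * B j * (P * B j - B j * P) * P
            = P * B j * P * B j * P - P * (B j * B j) * (P * P) := by noncomm_ring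
        rw [e2, e3, hP, hB]
      rw [e1]
      calc ‖P * B j * (P * B j - B j * P) * P‖
          ≤ ‖P‖ * ‖B j‖ * ‖P * B j - B j * P‖ * ‖P‖ := by
            refine (norm_mul_le _ _).trans ?_
            gcongr
            refine (norm_mul_le _ _).trans ?_
            gcongr
            exact norm_mul_le _ _
        _ ≤ 2 * 4 * η * 2 := by
            gcongr
            · exact hBn j
            · exact hη j
        _ = 16 * η := by ring
    have h2 : t ≤ t * t + 16 * η := by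
      have e1 : P * B j * P = P * B j * P * (P * B j * P)
          - (P * B j * P * (P * B j * P) - P * B j * P) := by abel
      calc t = ‖P * B j * P * (P * B j * P)
            - (P * B j * P * (P * B j * P) - P * B j * P)‖ := by rw [← e1]
        _ ≤ ‖P * B j * P * (P * B j * P)‖ + ‖P * B j * P * (P * B j * P) - P * B j * P‖ :=
            norm_sub_le _ _
        _ ≤ t * t + 16 * η := by gcongr; exact norm_mul_le _ _
    by_contra hcon
    push Not at hcon
    obtain ⟨h3, h4⟩ := hcon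
    nlinarith
  -- the first jump
  have hex : ∃ j, 1 / 2 ≤ ‖P * B j * P‖ := by
    refine ⟨N, hN.le.trans ?_⟩
    have h1 : P (B N v) = (P * B N * P) v := by
      show P (B N v) = P (B N (P v))
      rw [hPv]
    rw [h1]
    have := (P * B N * P).le_opNorm v
    rwa [hv, mul_one] at this
  classical
  set m := Nat.find hex with hm
  have hm1 : 1 / 2 ≤ ‖P * B m * P‖ := Nat.find_spec hex
  have hm0 : m ≠ 0 := by
    intro h0
    rw [h0, hB0, mul_zero, zero_mul, norm_zero] at hm1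
    norm_num at hm1
  obtain ⟨j, hj⟩ := Nat.exists_eq_succ_of_ne_zero hm0
  have hj1 : ‖P * B j * P‖ ≤ 32 * η := by
    rcases hdich j with h | h
    · exact h
    · exact absurd h (Nat.find_min hex (by omega))
  refine ⟨j, ?_, hj1⟩
  rw [hj] at hm1
  have hm1' : 1 / 2 ≤ ‖P * B (j + 1) * P‖ := hm1
  have h1 : 1 / 4 < ‖P * B (j + 1) * P - P * B j * P‖ := by
    have := norm_sub_norm_le (P * B (j + 1) * P) (P * B j * P)
    linarith
  obtain ⟨x, hx⟩ := exists_big (by norm_num) h1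
  have h2 : (P * B (j + 1) * P - P * B j * P) x = g j (P x) • P (c j) := by
    show P (B (j + 1) (P x)) - P (B j (P x)) = _
    rw [hc, map_add, map_smul]
    abel
  have hPx : P (P x) = P x := by
    have := congrArg (fun T : X →L[ℂ] X => T x) hP
    exact this
  have h3 : ((P * B (j + 1) - B (j + 1) * P) - (P * B j - B j * P)) (P x)
      = g j (P x) • (P (c j) - c j) := by
    show (P (B (j + 1) (P x)) - B (j + 1) (P (P x))) - (P (B j (P x)) - B j (P (P x))) = _
    rw [hPx, hc, map_add, map_smul]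
    rw [smul_sub]
    abel
  have h4 : ‖(P * B (j + 1) - B (j + 1) * P) - (P * B j - B j * P)‖ ≤ 2 * η := by
    refine (norm_sub_le _ _).trans ?_
    linarith [hη (j + 1), hη j]
  have h5 : ‖g j (P x)‖ * ‖P (c j) - c j‖ ≤ 4 * η * ‖x‖ := by
    rw [← norm_smul, ← h3]
    refine (ContinuousLinearMap.le_opNorm _ _).trans ?_
    calc _ ≤ 2 * η * (2 * ‖x‖) := by
          gcongr
          exact (P.le_opNorm x).trans (by gcongr)
      _ = _ := by ring
  have h6 : 1 / 4 * ‖x‖ < ‖g j (P x)‖ * 2 := by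
    rw [h2, norm_smul] at hx
    refine hx.trans_le ?_
    gcongr
    refine (P.le_opNorm _).trans ?_
    calc ‖P‖ * ‖c j‖ ≤ 2 * 1 := by
          gcongr
          exact hc1 j
      _ = 2 := by norm_num
  have hgpos : 0 < ‖g j (P x)‖ := by
    have := norm_nonneg x
    linarith
  have h7 : ‖g j (P x)‖ * ‖P (c j) - c j‖ ≤ ‖g j (P x)‖ * (40 * η) := by
    refine h5.trans ?_
    have := norm_nonneg x
    nlinarith
  exact le_of_mul_le_mul_left h7 hgpos

/-- transporting an operator through an isometry -/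
lemma transport {ε : ℝ} (hε : 0 ≤ ε) (w : X →ₗᵢ[ℂ] X) {B : X →L[ℂ] X} (hB : Herm ε B)
    (hr : ∀ x, B (w x) ∈ LinearMap.range w.toLinearMap) :
    ∃ P : X →L[ℂ] X, (∀ x, w (P x) = B (w x)) ∧ Herm ε P := by
  choose p hp using hr
  have hp' : ∀ x, w (p x) = B (w x) := hp
  let P₀ : X →ₗ[ℂ] X :=
    { toFun := p
      map_add' := fun x y => by
        apply w.injective
        rw [hp', map_add, map_add, map_add, hp', hp']
      map_smul' := fun c x => by
        apply w.injective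
        rw [hp', map_smul, map_smul, RingHom.id_apply, map_smul, hp'] }
  have hP₀ : ∀ x, w (P₀ x) = B (w x) := hp'
  have hbd : ∀ x, ‖P₀ x‖ ≤ (1 + ε) * ‖x‖ := by
    intro x
    rw [← w.norm_map, hP₀]
    refine (hB.norm_le hε _).trans ?_
    rw [w.norm_map]
  refine ⟨P₀.mkContinuous (1 + ε) hbd, hP₀, ?_, ?_⟩
  · intro x
    apply w.injective
    show w (P₀ (P₀ x)) = w (P₀ x)
    rw [hP₀, hP₀, hB.1]
  · intro χ hχ x
    show ‖x + (χ - 1) • P₀ x‖ ≤ _
    rw [← w.norm_map, map_add, map_smul, hP₀, ← w.norm_map x]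
    exact hB.2 χ hχ (w x)

/-- no twins over the kernel -/
lemma no_twin (hX : ¬ FiniteDimensional ℂ X) {w : X →ₗᵢ[ℂ] X} {B P : X →L[ℂ] X}
    (R : X →L[ℂ] X) (hPB : ∀ x, w (P x) = B (w x))
    (hfin : FiniteDimensional ℂ (LinearMap.range (P : X →ₗ[ℂ] X))) {δ : ℝ}
    (hnp : ∀ u, P u = u → ‖u‖ = 1 → ¬ Part ℂ δ (w u) (LinearMap.ker (B : X →ₗ[ℂ] X))) :
    ¬ HasTwin δ P R := by
  rintro ⟨u, hu1, hPu, z, -, hz1, hPz, ht⟩
  apply hnp u hPu hu1
  have h1 : Part ℂ δ u (LinearMap.ker (P : X →ₗ[ℂ] X)) := by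
    let Φ : X →ₗ[ℂ] (LinearMap.range (P : X →ₗ[ℂ] X)) × (LinearMap.range (P : X →ₗ[ℂ] X)) :=
      (LinearMap.rangeRestrict (P : X →ₗ[ℂ] X)).prod
        ((LinearMap.rangeRestrict (P : X →ₗ[ℂ] X)).comp (R : X →ₗ[ℂ] X))
    have hΦ : ∀ x, x ∈ LinearMap.ker Φ ↔ P x = 0 ∧ P (R x) = 0 := by
      intro x
      rw [LinearMap.mem_ker]
      constructor
      · intro h
        have e1 := congrArg Prod.fst h
        have e2 := congrArg Prod.snd h
        exact ⟨congrArg Subtype.val e1, congrArg Subtype.val e2⟩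
      · rintro ⟨e1, e2⟩
        apply Prod.ext
        · exact Subtype.ext e1
        · exact Subtype.ext e2
    refine ⟨z, hPz, hz1, LinearMap.ker Φ, ?_, ker_not_fg hX Φ, ?_⟩
    · intro x hx
      exact ((hΦ x).1 hx).1
    · intro a b k hk
      obtain ⟨hk1, hk2⟩ := (hΦ k).1 hk
      exact ht a b k hk1 hk2
  refine ((part_map_iff w).2 h1).mono_right ?_
  rintro _ ⟨x, hx, rfl⟩
  have hx' : P x = 0 := hx
  show B (w x) = 0
  rw [← hPB, hx', map_zero]

end DF72
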