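import Pool.Agent.Lib.MP_df72c7_an.C12

namespace DF72

open Set Filter Topology

variable {X : Type*} [NormedAddCommGroup X] [NormedSpace ℂ X]

lemma Frame.ker_not_fg' (hX : ¬ FiniteDimensional ℂ X) {δ₀ ε : ℝ} {b : ℕ → X}
    {A : ℕ → X →L[ℂ] X} {f : ℕ → X →L[ℂ] ℂ} (hF : Frame δ₀ ε b A f) (k : ℕ) :
    ¬ (LinearMap.ker (A k : X →ₗ[ℂ] X)).FG := by
  have := hF.fin k
  intro h
  apply ker_not_fg hX (LinearMap.rangeRestrict (A k : X →ₗ[ℂ] X))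
  rw [LinearMap.ker_rangeRestrict]
  exact h

lemma exists_w (hom : IsoHom ℂ X) (hX : ¬ FiniteDimensional ℂ X) {δ₀ ε : ℝ} {b : ℕ → X}
    {A : ℕ → X →L[ℂ] X} {f : ℕ → X →L[ℂ] ℂ} (hF : Frame δ₀ ε b A f) (hε : 0 ≤ ε)
    {V : Submodule ℂ X} (hVF : V.FG) (hV : ∀ v ∈ V, A 3 v = v) :
    ∃ (w : X →ₗᵢ[ℂ] X) (P : X →L[ℂ] X), (∀ x, w (P x) = A 3 (w x)) ∧ Herm ε P ∧
      (∀ x, A 3 (w x) ∈ V) ∧ (∀ v ∈ V, ∃ u, w u = v ∧ P u = u) ∧
      (∀ z, A 3 z = 0 → ∃ x, w x = z) ∧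
      FiniteDimensional ℂ (LinearMap.range (P : X →ₗ[ℂ] X)) ∧
      Module.finrank ℂ (LinearMap.range (P : X →ₗ[ℂ] X)) ≤ Module.finrank ℂ V := by
  have hVfin : FiniteDimensional ℂ V := Module.Finite.of_fg hVF
  set K := LinearMap.ker (A 3 : X →ₗ[ℂ] X) with hK
  have hKc : IsClosed (K : Set X) := (A 3).isClosed_ker
  have hWc : IsClosed ((K ⊔ V : Submodule ℂ X) : Set X) :=
    Submodule.isClosed_sup_finiteDimensional K V hKc
  have hWf : ¬ (K ⊔ V).FG := fun h => hF.ker_not_fg' hX 3 (fg_of_le h le_sup_left)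
  obtain ⟨w, hw⟩ := hom _ hWc hWf
  have hwm : ∀ x, w x ∈ K ⊔ V := fun x => by rw [← hw]; exact ⟨x, rfl⟩
  have hAV : ∀ x, A 3 (w x) ∈ V := by
    intro x
    obtain ⟨z, hz, v, hv, hzv⟩ := Submodule.mem_sup.1 (hwm x)
    have hz' : A 3 z = 0 := hz
    rw [← hzv, map_add, hz', zero_add, hV v hv]
    exact hv
  have hr : ∀ x, A 3 (w x) ∈ LinearMap.range w.toLinearMap := fun x => by
    rw [hw]; exact Submodule.mem_sup_right (hAV x)
  obtain ⟨P, hP, hPH⟩ := transport hε w (hF.herm 3) hr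
  have hPV : ∀ p ∈ LinearMap.range (P : X →ₗ[ℂ] X), w p ∈ V := by
    rintro _ ⟨x, rfl⟩
    show w (P x) ∈ V
    rw [hP]
    exact hAV x
  let L : LinearMap.range (P : X →ₗ[ℂ] X) →ₗ[ℂ] V :=
    (w.toLinearMap.comp (LinearMap.range (P : X →ₗ[ℂ] X)).subtype).codRestrict V
      (fun p => hPV p.1 p.2)
  have hL : Function.Injective L := by
    intro p q h
    have h1 : w p.1 = w q.1 := congrArg Subtype.val h
    exact Subtype.ext (w.injective h1)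
  have hfin : FiniteDimensional ℂ (LinearMap.range (P : X →ₗ[ℂ] X)) :=
    FiniteDimensional.of_injective L hL
  refine ⟨w, P, hP, hPH, hAV, ?_, ?_, hfin, LinearMap.finrank_le_finrank_of_injective hL⟩
  · intro v hv
    have : v ∈ LinearMap.range w.toLinearMap := by
      rw [hw]; exact Submodule.mem_sup_right hv
    obtain ⟨u, hu⟩ := this
    have hu' : w u = v := hu
    refine ⟨u, hu', ?_⟩
    apply w.injective
    rw [hP, hu', hV v hv]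
  · intro z hz
    have : z ∈ LinearMap.range w.toLinearMap := by
      rw [hw]; exact Submodule.mem_sup_left hz
    obtain ⟨u, hu⟩ := this
    exact ⟨u, hu⟩

/-- commutation of `P` with all the partial sum projections -/
lemma comm_all (hX : ¬ FiniteDimensional ℂ X) {δ₀ η ε₀ : ℝ}
    (hcomm : ∀ P R : X →L[ℂ] X, Herm ε₀ P → Herm ε₀ R →
      FiniteDimensional ℂ (LinearMap.range (P : X →ₗ[ℂ] X)) →
      Module.finrank ℂ (LinearMap.range (P : X →ₗ[ℂ] X)) ≤ 2 →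
      ‖P * R - R * P‖ ≤ η ∨ HasTwin (δ₀ / 4) P R) {ε : ℝ} (hεε₀ : ε ≤ ε₀)
    {b : ℕ → X} {A : ℕ → X →L[ℂ] X} {f : ℕ → X →L[ℂ] ℂ} (hF : Frame δ₀ ε b A f)
    {V : Submodule ℂ X} (hlev : ∀ v ∈ V, ‖v‖ = 1 → δ₀ / 2 ≤ Lev ℂ v)
    {w : X →ₗᵢ[ℂ] X} {P : X →L[ℂ] X} (hw : ∀ x, w (P x) = A 3 (w x)) (hPH : Herm ε P)
    (hwV : ∀ x, A 3 (w x) ∈ V) (hfin : FiniteDimensional ℂ (LinearMap.range (P : X →ₗ[ℂ] X)))
    (hdim : Module.finrank ℂ (LinearMap.range (P : X →ₗ[ℂ] X)) ≤ 2) (R : X →L[ℂ] X)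
    (hR : Herm ε₀ R) : ‖P * R - R * P‖ ≤ η := by
  rcases hcomm P R (hPH.mono hεε₀) hR hfin hdim with h | h
  · exact h
  · exfalso
    refine no_twin hX R hw hfin ?_ h
    intro u hu hu1
    have h1 : A 3 (w u) = w u := by rw [← hw, hu]
    have h2 : w u ∈ V := by rw [← h1]; exact hwV u
    exact hF.nopart 3 (w u) h1 (by rw [w.norm_map, hu1]) (hlev _ h2 (by rw [w.norm_map, hu1]))

/-- one dimensional subspaces of `F₃` -/
lemma level_step [CompleteSpace X] [TopologicalSpace.SeparableSpace X] (hom : IsoHom ℂ X)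
    (hX : ¬ FiniteDimensional ℂ X) {δ₀ : ℝ} (hδ₀ : 0 < δ₀) (hδ₁ : δ₀ ≤ 1) :
    ∃ ε₀ > 0, ∀ ε, 0 ≤ ε → ε ≤ ε₀ → ∀ (b : ℕ → X) (A : ℕ → X →L[ℂ] X) (f : ℕ → X →L[ℂ] ℂ),
      Frame δ₀ ε b A f → ∀ v, A 3 v = v → ‖v‖ = 1 → δ₀ / 2 ≤ Lev ℂ v →
      3 * δ₀ / 4 ≤ Lev ℂ v := by
  set η : ℝ := δ₀ / 4000 with hη
  have hη0 : 0 < η := by positivity
  have hη1 : η ≤ 1 / 4000 := by rw [hη]; gcongr
  obtain ⟨ε₁, hε₁, hcomm⟩ := comm_small X hη0 (δ := δ₀ / 4) (by positivity)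
  refine ⟨min ε₁ 1, lt_min hε₁ one_pos, ?_⟩
  intro ε hε0 hεle b A f hF v hv hv1 hvL
  have hεε₁ : ε ≤ ε₁ := hεle.trans (min_le_left _ _)
  have hε1 : ε ≤ 1 := hεle.trans (min_le_right _ _)
  set V := Submodule.span ℂ {v} with hV
  have hVe : ∀ u ∈ V, A 3 u = u := by
    intro u hu
    obtain ⟨c, rfl⟩ := Submodule.mem_span_singleton.1 hu
    rw [map_smul, hv]
  have hVL : ∀ u ∈ V, ‖u‖ = 1 → Lev ℂ u = Lev ℂ v := by
    intro u hu hu1
    obtain ⟨c, rfl⟩ := Submodule.mem_span_singleton.1 hu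
    rw [norm_smul, hv1, mul_one] at hu1
    exact lev_phase hu1
  obtain ⟨w, P, hw, hPH, hwV, hVw, -, hfin, hdim⟩ := exists_w hom hX hF hε0
    (Submodule.fg_span_singleton v) hVe
  have hdim1 : Module.finrank ℂ (LinearMap.range (P : X →ₗ[ℂ] X)) ≤ 1 :=
    hdim.trans (finrank_span_singleton (by rintro rfl; simp at hv1)).le
  have hco : ∀ k, ‖P * A k - A k * P‖ ≤ η := fun k =>
    comm_all hX hcomm hεε₁ hF (V := V) (fun u hu hu1 => by rw [hVL u hu hu1]; exact hvL) hw hPH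
      hwV hfin (by omega) (A k) ((hF.herm k).mono hεε₁)
  obtain ⟨u₀, hu₀, hPu₀⟩ := hVw v (Submodule.mem_span_singleton_self v)
  have hu₀1 : ‖u₀‖ = 1 := by rw [← w.norm_map, hu₀, hv1]
  have hAn : ∀ k, ‖A k‖ ≤ 2 := fun k => ((hF.herm k).opNorm_le hε0).trans (by linarith)
  have hPn : ‖P‖ ≤ 2 := (hPH.opNorm_le hε0).trans (by linarith)
  have hlim : ∃ N, 1 / 2 < ‖P (A N u₀)‖ := by
    have h1 : Tendsto (fun N => ‖P (A N u₀)‖) atTop (𝓝 ‖P u₀‖) :=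
      ((P.continuous.tendsto u₀).comp (hF.tend u₀)).norm
    rw [hPu₀, hu₀1] at h1
    exact (h1.eventually (lt_mem_nhds (by norm_num))).exists
  obtain ⟨N, hN⟩ := hlim
  obtain ⟨j, hj, -⟩ := jump hPH.mul_self hPn (fun k => (hF.herm k).mul_self)
    (fun k => (hAn k).trans (by norm_num)) hF.succ (fun k => (hF.norm_one k).le) hF.zero hco
    (by linarith) hu₀1 hPu₀ hN
  -- `P b_j` is a multiple of `u₀`
  have hwP : w (P (b j)) ∈ V := by rw [hw]; exact hwV _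
  obtain ⟨c, hc⟩ := Submodule.mem_span_singleton.1 hwP
  have hPb : P (b j) = c • u₀ := by
    apply w.injective
    rw [map_smul, hu₀, hc]
  have hcn : ‖c‖ = ‖P (b j)‖ := by rw [hPb, norm_smul, hu₀1, mul_one]
  have hc1 : |‖c‖ - 1| ≤ 40 * η := by
    rw [hcn, ← hF.norm_one j]
    exact (abs_norm_sub_norm_le _ _).trans hj
  have hcpos : 0 < ‖c‖ := by
    have := (abs_le.1 hc1).1
    linarith
  have hc0 : c ≠ 0 := norm_pos_iff.1 hcpos
  set u : ℂ := ((‖c‖ : ℝ) : ℂ)⁻¹ * c with hu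
  have hu1 : ‖u‖ = 1 := by
    rw [hu, norm_mul, norm_inv, Complex.norm_real, norm_norm, inv_mul_cancel₀ hcpos.ne']
  have hcu : c = ((‖c‖ : ℝ) : ℂ) * u := by
    rw [hu, ← mul_assoc, mul_inv_cancel₀ (by exact_mod_cast hcpos.ne'), one_mul]
  have hd : ‖u • u₀ - b j‖ ≤ 80 * η := by
    have h1 : u • u₀ - b j = (P (b j) - b j) - (((‖c‖ - 1 : ℝ) : ℂ) * u) • u₀ := by
      have hPb' : P (b j) = (((‖c‖ : ℝ) : ℂ) * u) • u₀ := by rw [← hcu, hPb]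
      rw [hPb']
      push_cast
      module
    rw [h1]
    refine (norm_sub_le _ _).trans ?_
    rw [norm_smul, norm_mul, hu1, hu₀1, mul_one, mul_one, Complex.norm_real, Real.norm_eq_abs]
    linarith
  have huu : ‖u • u₀‖ = 1 := by rw [norm_smul, hu1, hu₀1, mul_one]
  have h1 := lev_lip (𝕜 := ℂ) huu (hd.trans (by linarith))
  rw [hF.lev j, lev_phase hu1, ← lev_isom hom hX w hu₀1, hu₀] at h1
  have h2 : 12 * ‖u • u₀ - b j‖ ≤ δ₀ / 4 := by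
    calc 12 * ‖u • u₀ - b j‖ ≤ 12 * (80 * η) := by gcongr
      _ ≤ δ₀ / 4 := by rw [hη]; linarith
  linarith

/-- continuity of the level -/
lemma lev_cont {s : Set ℝ} {u : ℝ → X} (hu : ContinuousOn u s) (hu1 : ∀ t ∈ s, ‖u t‖ = 1) :
    ContinuousOn (fun t => Lev ℂ (u t)) s := by
  rw [Metric.continuousOn_iff] at hu ⊢
  intro t ht r hr
  obtain ⟨d, hd, hd'⟩ := hu t ht (min (1 / 12) (r / 13)) (lt_min (by norm_num) (by positivity))
  refine ⟨d, hd, fun t' ht' htt' => ?_⟩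
  have h1 := hd' t' ht' htt'
  rw [dist_eq_norm] at h1
  have h2 : ‖u t' - u t‖ ≤ 1 / 12 := h1.le.trans (min_le_left _ _)
  have h3 : ‖u t' - u t‖ < r / 13 := h1.trans_le (min_le_right _ _)
  have h4 := lev_lip (𝕜 := ℂ) (hu1 t' ht') h2
  have h5 := lev_lip (𝕜 := ℂ) (x := u t) (y := u t') (hu1 t ht) (by rwa [norm_sub_rev])
  rw [norm_sub_rev] at h5
  rw [Real.dist_eq, abs_lt]
  constructor <;> linarith

/-- all the levels on `F₃` are large -/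
theorem level_all [CompleteSpace X] [TopologicalSpace.SeparableSpace X] (hom : IsoHom ℂ X)
    (hX : ¬ FiniteDimensional ℂ X) {δ₀ : ℝ} (hδ₀ : 0 < δ₀) (hδ₁ : δ₀ ≤ 1) :
    ∃ ε₀ > 0, ∀ ε, 0 ≤ ε → ε ≤ ε₀ → ∀ (b : ℕ → X) (A : ℕ → X →L[ℂ] X) (f : ℕ → X →L[ℂ] ℂ),
      Frame δ₀ ε b A f → ∀ v, A 3 v = v → ‖v‖ = 1 → δ₀ / 2 ≤ Lev ℂ v := by
  obtain ⟨ε₀, hε₀, hstep⟩ := level_step hom hX hδ₀ hδ₁
  refine ⟨ε₀, hε₀, ?_⟩
  intro ε hε0 hεle b A f hF v hv hv1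
  have hb0 : A 3 (b 0) = b 0 := by
    have e0 : f 0 (b 0) = 1 := hF.f_self 0
    have e1 : f 1 (b 0) = 0 := hF.f_ne 0 1 (by norm_num)
    have e2 : f 2 (b 0) = 0 := hF.f_ne 0 2 (by norm_num)
    rw [hF.succ 2, hF.succ 1, hF.succ 0, hF.zero, e0, e1, e2]
    simp
  by_cases hvb : v = -b 0
  · have : v = (-1 : ℂ) • b 0 := by rw [hvb, neg_one_smul]
    rw [this, lev_phase (by simp), hF.lev]
    linarith
  · by_contra hcon
    push Not at hcon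
    let γ : ℝ → X := fun t => ((1 - t : ℝ) : ℂ) • b 0 + ((t : ℝ) : ℂ) • v
    have hγc : Continuous γ := by fun_prop
    have hγ0 : ∀ t ∈ Icc (0 : ℝ) 1, γ t ≠ 0 := by
      intro t ht h
      have h1 : ((t : ℝ) : ℂ) • v = -(((1 - t : ℝ) : ℂ) • b 0) := by
        rw [eq_neg_iff_add_eq_zero, add_comm]; exact h
      have h2 : t = 1 - t := by
        have h3 := congrArg norm h1
        rw [norm_neg, norm_smul, norm_smul, hv1, hF.norm_one, mul_one, mul_one,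
          Complex.norm_real, Complex.norm_real, Real.norm_eq_abs, Real.norm_eq_abs,
          abs_of_nonneg ht.1, abs_of_nonneg (by linarith [ht.2])] at h3
        exact h3
      have h4 : t = 1 / 2 := by linarith
      apply hvb
      have h5 : ((t : ℝ) : ℂ) ≠ 0 := by
        rw [h4]; norm_num
      rw [← h2, ← smul_neg] at h1
      exact smul_right_injective _ h5 h1
    let u : ℝ → X := fun t => ((‖γ t‖ : ℝ) : ℂ)⁻¹ • γ t
    have hu1 : ∀ t ∈ Icc (0 : ℝ) 1, ‖u t‖ = 1 := by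
      intro t ht
      show ‖((‖γ t‖ : ℝ) : ℂ)⁻¹ • γ t‖ = 1
      rw [norm_smul, norm_inv, Complex.norm_real, norm_norm,
        inv_mul_cancel₀ (norm_ne_zero_iff.2 (hγ0 t ht))]
    have huc : ContinuousOn u (Icc 0 1) := by
      apply ContinuousOn.smul _ hγc.continuousOn
      apply ContinuousOn.inv₀
      · exact (Complex.continuous_ofReal.comp hγc.norm).continuousOn
      · intro t ht
        exact_mod_cast norm_ne_zero_iff.2 (hγ0 t ht)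
    have hA : ∀ t, A 3 (u t) = u t := by
      intro t
      show A 3 (((‖γ t‖ : ℝ) : ℂ)⁻¹ • (((1 - t : ℝ) : ℂ) • b 0 + ((t : ℝ) : ℂ) • v)) = _
      rw [map_smul, map_add, map_smul, map_smul, hb0, hv]
    have hu0 : u 0 = b 0 := by
      show ((‖((1 - 0 : ℝ) : ℂ) • b 0 + ((0 : ℝ) : ℂ) • v‖ : ℝ) : ℂ)⁻¹ •
        (((1 - 0 : ℝ) : ℂ) • b 0 + ((0 : ℝ) : ℂ) • v) = b 0
      simp [hF.norm_one 0]
    have hu1' : u 1 = v := by
      show ((‖((1 - 1 : ℝ) : ℂ) • b 0 + ((1 : ℝ) : ℂ) • v‖ : ℝ) : ℂ)⁻¹ •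
        (((1 - 1 : ℝ) : ℂ) • b 0 + ((1 : ℝ) : ℂ) • v) = v
      simp [hv1]
    have hgc := lev_cont huc hu1
    have hivt := intermediate_value_Icc' zero_le_one hgc
    have hmem : δ₀ / 2 ∈ Icc (Lev ℂ (u 1)) (Lev ℂ (u 0)) := by
      rw [hu0, hu1', hF.lev]
      exact ⟨hcon.le, by linarith⟩
    obtain ⟨t, ht, htL⟩ := hivt hmem
    have htL' : Lev ℂ (u t) = δ₀ / 2 := htL
    have := hstep ε hε0 hεle b A f hF (u t) (hA t) (hu1 t ht) htL'.ge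
    rw [htL'] at this
    linarith

end DF72
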