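import Pool.Agent.Lib.MP_df72c7_an.C13

namespace DF72

open Set Filter Topology

variable {X : Type*} [NormedAddCommGroup X] [NormedSpace ℂ X]

/-- two jumps -/
lemma two_jumps {δ₀ ε : ℝ} {b : ℕ → X} {A : ℕ → X →L[ℂ] X} {f : ℕ → X →L[ℂ] ℂ}
    (hF : Frame δ₀ ε b A f) (hε0 : 0 ≤ ε) (hε1 : ε ≤ 1) {P : X →L[ℂ] X} (hPH : Herm ε P)
    {η : ℝ} (hη1 : η ≤ 1 / 10000) (hco : ∀ k, ‖P * A k - A k * P‖ ≤ η)
    (hrk : ∀ g : X →L[ℂ] ℂ, ∃ v, ‖v‖ = 1 ∧ P v = v ∧ g v = 0) :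
    ∃ k k', k < k' ∧ ‖P (b k) - b k‖ ≤ 80 * η ∧ ‖P (b k') - b k'‖ ≤ 80 * η := by
  have hη0 : 0 ≤ η := (norm_nonneg _).trans (hco 0)
  have hAn : ∀ k, ‖A k‖ ≤ 2 := fun k => ((hF.herm k).opNorm_le hε0).trans (by linarith)
  have hPn : ‖P‖ ≤ 2 := (hPH.opNorm_le hε0).trans (by linarith)
  obtain ⟨v₀, hv₀1, hPv₀, -⟩ := hrk 0
  have hlim : ∃ N, 1 / 2 < ‖P (A N v₀)‖ := by
    have h1 : Tendsto (fun N => ‖P (A N v₀)‖) atTop (𝓝 ‖P v₀‖) :=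
      ((P.continuous.tendsto v₀).comp (hF.tend v₀)).norm
    rw [hPv₀, hv₀1] at h1
    exact (h1.eventually (lt_mem_nhds (by norm_num))).exists
  obtain ⟨N, hN⟩ := hlim
  obtain ⟨k, hk, hkk⟩ := jump hPH.mul_self hPn (fun k => (hF.herm k).mul_self)
    (fun k => (hAn k).trans (by norm_num)) hF.succ (fun k => (hF.norm_one k).le) hF.zero hco
    (by linarith) hv₀1 hPv₀ hN
  obtain ⟨v, hv1, hPv, hfv⟩ := hrk (f k)
  set B : ℕ → X →L[ℂ] X := fun j => A (k + 1 + j) - A (k + 1) with hB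
  have hBx : ∀ j x, B j x = A (k + 1 + j) x - A (k + 1) x := fun j x => rfl
  have hBB : ∀ j, B j * B j = B j := by
    intro j
    ext x
    show B j (B j x) = B j x
    rw [hBx, hBx, map_sub, map_sub, hF.comp_ge (k + 1) (k + 1 + j) (by omega),
      hF.comp_le (k + 1) (k + 1 + j) (by omega), hF.comp_le (k + 1) (k + 1) le_rfl,
      hF.comp_le (k + 1 + j) (k + 1 + j) le_rfl]
    abel
  have hBn : ∀ j, ‖B j‖ ≤ 4 := fun j => (norm_sub_le _ _).trans (by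
    linarith [hAn (k + 1 + j), hAn (k + 1)])
  have hBs : ∀ j x, B (j + 1) x = B j x + f (k + 1 + j) x • b (k + 1 + j) := by
    intro j x
    rw [hBx, hBx]
    have := hF.succ (k + 1 + j) x
    show A (k + 1 + j + 1) x - _ = _
    rw [this]
    abel
  have hB0 : B 0 = 0 := by simp [hB]
  have hBco : ∀ j, ‖P * B j - B j * P‖ ≤ 2 * η := by
    intro j
    have h1 : P * B j - B j * P = (P * A (k + 1 + j) - A (k + 1 + j) * P)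
        - (P * A (k + 1) - A (k + 1) * P) := by
      rw [hB]
      show P * (A (k + 1 + j) - A (k + 1)) - (A (k + 1 + j) - A (k + 1)) * P = _
      noncomm_ring
    rw [h1]
    refine (norm_sub_le _ _).trans ?_
    linarith [hco (k + 1 + j), hco (k + 1)]
  have hlim' : ∃ N, 1 / 2 < ‖P (B N v)‖ := by
    have h0 : Tendsto (fun N => A (k + 1 + N) v) atTop (𝓝 v) := by
      have := (hF.tend v).comp (tendsto_add_atTop_nat (k + 1))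
      refine this.congr fun N => ?_
      show A (N + (k + 1)) v = A (k + 1 + N) v
      rw [add_comm]
    have h1 : Tendsto (fun N => ‖P (B N v)‖) atTop (𝓝 ‖P (v - A (k + 1) v)‖) :=
      ((P.continuous.tendsto _).comp (h0.sub_const (A (k + 1) v))).norm
    have h2 : 1 / 2 < ‖P (v - A (k + 1) v)‖ := by
      have h3 : A (k + 1) v = A k v := by rw [hF.succ, hfv, zero_smul, add_zero]
      have h4 : P (v - A (k + 1) v) = v - (P * A k * P) v := by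
        rw [h3, map_sub, hPv]
        show v - P (A k v) = v - P (A k (P v))
        rw [hPv]
      rw [h4]
      have h5 : ‖(P * A k * P) v‖ ≤ 32 * η := by
        refine ((P * A k * P).le_opNorm v).trans ?_
        rw [hv1, mul_one]
        exact hkk
      have h6 := norm_sub_norm_le v ((P * A k * P) v)
      rw [hv1] at h6
      linarith
    exact (h1.eventually (lt_mem_nhds h2)).exists
  obtain ⟨N', hN'⟩ := hlim'
  obtain ⟨j, hj, -⟩ := jump hPH.mul_self hPn hBB hBn hBs (fun j => (hF.norm_one _).le) hB0 hBco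
    (by linarith) hv1 hPv hN'
  refine ⟨k, k + 1 + j, by omega, by linarith, ?_⟩
  have e1 : 40 * (2 * η) = 80 * η := by ring
  rw [e1] at hj
  exact hj

/-- the coefficient `c` -/
noncomputable def cc (φ : ℝ × ℝ) : ℂ × ℂ →L[ℂ] ℂ :=
  -((φ.1 : ℂ) • ContinuousLinearMap.fst ℂ ℂ ℂ + (φ.2 : ℂ) • ContinuousLinearMap.snd ℂ ℂ ℂ)

lemma cc_apply (φ : ℝ × ℝ) (v : ℂ × ℂ) : cc φ v = -((φ.1 : ℂ) * v.1 + (φ.2 : ℂ) * v.2) := rfl

/-- the parametrization of the kernel of `φ` -/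
noncomputable def Tp (b : ℕ → X) (φ : ℝ × ℝ) : ℂ × ℂ →L[ℂ] X :=
  (ContinuousLinearMap.fst ℂ ℂ ℂ + cc φ).smulRight (b 0)
    + (ContinuousLinearMap.snd ℂ ℂ ℂ + cc φ).smulRight (b 1) + (cc φ).smulRight (b 2)

lemma Tp_apply (b : ℕ → X) (φ : ℝ × ℝ) (v : ℂ × ℂ) :
    Tp b φ v = (v.1 + cc φ v) • b 0 + (v.2 + cc φ v) • b 1 + cc φ v • b 2 := rfl

/-- the inverse of the parametrization -/
noncomputable def Sp (f : ℕ → X →L[ℂ] ℂ) : X →L[ℂ] ℂ × ℂ := (f 0 - f 2).prod (f 1 - f 2)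

lemma Sp_apply (f : ℕ → X →L[ℂ] ℂ) (x : X) : Sp f x = (f 0 x - f 2 x, f 1 x - f 2 x) := rfl

/-- almost hermitian on the kernel of `φ` -/
def HermT (b : ℕ → X) (A₃ : X →L[ℂ] X) (φ : ℝ × ℝ) (ε : ℝ) (p : ℂ × ℂ →L[ℂ] ℂ × ℂ) : Prop :=
  ∀ χ : ℂ, ‖χ‖ = 1 → ∀ (v : ℂ × ℂ) (z : X), A₃ z = 0 →
    ‖Tp b φ (v + (χ - 1) • p v) + z‖ ≤ (1 + ε) * ‖Tp b φ v + z‖

/-- the simplex -/
def Simp (φ : ℝ × ℝ) : Prop := 0 ≤ φ.1 ∧ 0 ≤ φ.2 ∧ φ.1 + φ.2 ≤ 1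

section basic

variable {δ₀ ε : ℝ} {b : ℕ → X} {A : ℕ → X →L[ℂ] X} {f : ℕ → X →L[ℂ] ℂ}

lemma Frame.A3 (hF : Frame δ₀ ε b A f) (x : X) :
    A 3 x = f 0 x • b 0 + f 1 x • b 1 + f 2 x • b 2 := by
  rw [hF.succ 2, hF.succ 1, hF.succ 0, hF.zero]
  simp

lemma Frame.f00 (hF : Frame δ₀ ε b A f) : f 0 (b 0) = 1 := hF.f_self 0
lemma Frame.f11 (hF : Frame δ₀ ε b A f) : f 1 (b 1) = 1 := hF.f_self 1
lemma Frame.f22 (hF : Frame δ₀ ε b A f) : f 2 (b 2) = 1 := hF.f_self 2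
lemma Frame.f01 (hF : Frame δ₀ ε b A f) : f 0 (b 1) = 0 := hF.f_ne 1 0 (by norm_num)
lemma Frame.f02 (hF : Frame δ₀ ε b A f) : f 0 (b 2) = 0 := hF.f_ne 2 0 (by norm_num)
lemma Frame.f10 (hF : Frame δ₀ ε b A f) : f 1 (b 0) = 0 := hF.f_ne 0 1 (by norm_num)
lemma Frame.f12 (hF : Frame δ₀ ε b A f) : f 1 (b 2) = 0 := hF.f_ne 2 1 (by norm_num)
lemma Frame.f20 (hF : Frame δ₀ ε b A f) : f 2 (b 0) = 0 := hF.f_ne 0 2 (by norm_num)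
lemma Frame.f21 (hF : Frame δ₀ ε b A f) : f 2 (b 1) = 0 := hF.f_ne 1 2 (by norm_num)

lemma Frame.f0A (hF : Frame δ₀ ε b A f) (x : X) : f 0 (A 3 x) = f 0 x := by
  rw [hF.A3]; simp [hF.f00, hF.f01, hF.f02]
lemma Frame.f1A (hF : Frame δ₀ ε b A f) (x : X) : f 1 (A 3 x) = f 1 x := by
  rw [hF.A3]; simp [hF.f10, hF.f11, hF.f12]
lemma Frame.f2A (hF : Frame δ₀ ε b A f) (x : X) : f 2 (A 3 x) = f 2 x := by
  rw [hF.A3]; simp [hF.f20, hF.f21, hF.f22]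

lemma Frame.f0T (hF : Frame δ₀ ε b A f) (φ : ℝ × ℝ) (v : ℂ × ℂ) :
    f 0 (Tp b φ v) = v.1 + cc φ v := by
  rw [Tp_apply]; simp [hF.f00, hF.f01, hF.f02]
lemma Frame.f1T (hF : Frame δ₀ ε b A f) (φ : ℝ × ℝ) (v : ℂ × ℂ) :
    f 1 (Tp b φ v) = v.2 + cc φ v := by
  rw [Tp_apply]; simp [hF.f10, hF.f11, hF.f12]
lemma Frame.f2T (hF : Frame δ₀ ε b A f) (φ : ℝ × ℝ) (v : ℂ × ℂ) :
    f 2 (Tp b φ v) = cc φ v := by
  rw [Tp_apply]; simp [hF.f20, hF.f21, hF.f22]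

lemma Frame.ST (hF : Frame δ₀ ε b A f) (φ : ℝ × ℝ) (v : ℂ × ℂ) : Sp f (Tp b φ v) = v := by
  rw [Sp_apply, hF.f0T, hF.f1T, hF.f2T]
  ext <;> simp

lemma Frame.AT (hF : Frame δ₀ ε b A f) (φ : ℝ × ℝ) (v : ℂ × ℂ) :
    A 3 (Tp b φ v) = Tp b φ v := by
  rw [hF.A3, hF.f0T, hF.f1T, hF.f2T, Tp_apply]

lemma Frame.SA (hF : Frame δ₀ ε b A f) (x : X) : Sp f (A 3 x) = Sp f x := by
  rw [Sp_apply, Sp_apply, hF.f0A, hF.f1A, hF.f2A]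

lemma Frame.Sker (hF : Frame δ₀ ε b A f) {z : X} (hz : A 3 z = 0) : Sp f z = 0 := by
  rw [← hF.SA, hz, map_zero]

lemma Frame.S_norm (hF : Frame δ₀ ε b A f) (x : X) : ‖Sp f x‖ ≤ 6 * ‖x‖ := by
  rw [Sp_apply, Prod.norm_def]
  have h0 := hF.f_norm 0 x
  have h1 := hF.f_norm 1 x
  have h2 := hF.f_norm 2 x
  apply max_le
  · exact (norm_sub_le _ _).trans (by linarith)
  · exact (norm_sub_le _ _).trans (by linarith)

lemma cc_norm {φ : ℝ × ℝ} (hφ : Simp φ) (v : ℂ × ℂ) : ‖cc φ v‖ ≤ ‖v‖ := by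
  rw [cc_apply, norm_neg]
  have h1 : ‖v.1‖ ≤ ‖v‖ := norm_fst_le v
  have h2 : ‖v.2‖ ≤ ‖v‖ := norm_snd_le v
  obtain ⟨h3, h4, h5⟩ := hφ
  calc ‖(φ.1 : ℂ) * v.1 + (φ.2 : ℂ) * v.2‖ ≤ φ.1 * ‖v.1‖ + φ.2 * ‖v.2‖ := by
        refine (norm_add_le _ _).trans ?_
        rw [norm_mul, norm_mul, Complex.norm_real, Complex.norm_real, Real.norm_eq_abs,
          Real.norm_eq_abs, abs_of_nonneg h3, abs_of_nonneg h4]
    _ ≤ φ.1 * ‖v‖ + φ.2 * ‖v‖ := by gcongr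
    _ = (φ.1 + φ.2) * ‖v‖ := by ring
    _ ≤ 1 * ‖v‖ := by gcongr
    _ = ‖v‖ := one_mul _

lemma Frame.T_norm (hF : Frame δ₀ ε b A f) {φ : ℝ × ℝ} (hφ : Simp φ) (v : ℂ × ℂ) :
    ‖Tp b φ v‖ ≤ 5 * ‖v‖ := by
  have h0 := cc_norm hφ v
  have h1 : ‖v.1‖ ≤ ‖v‖ := norm_fst_le v
  have h2 : ‖v.2‖ ≤ ‖v‖ := norm_snd_le v
  rw [Tp_apply]
  calc _ ≤ ‖v.1 + cc φ v‖ + ‖v.2 + cc φ v‖ + ‖cc φ v‖ := by
        refine (norm_add₃_le).trans ?_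
        rw [norm_smul, norm_smul, norm_smul, hF.norm_one, hF.norm_one, hF.norm_one, mul_one,
          mul_one, mul_one]
    _ ≤ (‖v.1‖ + ‖cc φ v‖) + (‖v.2‖ + ‖cc φ v‖) + ‖cc φ v‖ := by
        gcongr
        · exact norm_add_le _ _
        · exact norm_add_le _ _
    _ ≤ 5 * ‖v‖ := by linarith

lemma Frame.v_norm (hF : Frame δ₀ ε b A f) (φ : ℝ × ℝ) (v : ℂ × ℂ) {z : X} (hz : A 3 z = 0) :
    ‖v‖ ≤ 6 * ‖Tp b φ v + z‖ := by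
  have h1 : Sp f (Tp b φ v + z) = v := by
    rw [map_add, hF.ST, hF.Sker hz, add_zero]
  calc ‖v‖ = ‖Sp f (Tp b φ v + z)‖ := by rw [h1]
    _ ≤ _ := hF.S_norm _

end basic

end DF72
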