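import Pool.Agent.Lib.MP_df72c7_an.C14

namespace DF72

open Set Filter Topology

variable {X : Type*} [NormedAddCommGroup X] [NormedSpace ℂ X]

/-- local data at `φ` -/
structure Loc (b : ℕ → X) (A₃ : X →L[ℂ] X) (f : ℕ → X →L[ℂ] ℂ) (φ : ℝ × ℝ) (ε : ℝ)
    (w : X →ₗᵢ[ℂ] X) (P : X →L[ℂ] X) (J : ℂ × ℂ →L[ℂ] X) (E : X →L[ℂ] ℂ × ℂ) : Prop where
  wP : ∀ x, w (P x) = A₃ (w x)
  herm : Herm ε P
  wJ : ∀ v, w (J v) = Tp b φ v
  E_def : ∀ x, E x = Sp f (w x)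
  EJ : ∀ v, E (J v) = v
  PJ : ∀ v, P (J v) = J v
  JE : ∀ x, J (E x) = P x
  surj : ∀ z, A₃ z = 0 → ∃ x, w x = z
  fin : FiniteDimensional ℂ (LinearMap.range (P : X →ₗ[ℂ] X))
  dim : Module.finrank ℂ (LinearMap.range (P : X →ₗ[ℂ] X)) ≤ 2

lemma exists_loc (hom : IsoHom ℂ X) (hX : ¬ FiniteDimensional ℂ X) {δ₀ ε : ℝ} {b : ℕ → X}
    {A : ℕ → X →L[ℂ] X} {f : ℕ → X →L[ℂ] ℂ} (hF : Frame δ₀ ε b A f) (hε : 0 ≤ ε) (φ : ℝ × ℝ) :
    ∃ w P J E, Loc b (A 3) f φ ε w P J E ∧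
      (∀ x, A 3 (w x) ∈ LinearMap.range (Tp b φ : ℂ × ℂ →ₗ[ℂ] X)) := by
  set V := LinearMap.range (Tp b φ : ℂ × ℂ →ₗ[ℂ] X) with hV
  have hVfin : FiniteDimensional ℂ V := inferInstance
  have hVFG : V.FG := Submodule.fg_iff_finiteDimensional V |>.2 hVfin
  have hVe : ∀ v ∈ V, A 3 v = v := by
    rintro _ ⟨v, rfl⟩
    exact hF.AT φ v
  obtain ⟨w, P, hw, hPH, hwV, hVw, hsurj, hfin, hdim⟩ := exists_w hom hX hF hε hVFG hVe
  have hVdim : Module.finrank ℂ V ≤ 2 := by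
    refine (LinearMap.finrank_range_le _).trans ?_
    rw [Module.finrank_prod, Module.finrank_self]
  have hJex : ∀ v : ℂ × ℂ, ∃ u, w u = Tp b φ v ∧ P u = u := fun v => hVw _ ⟨v, rfl⟩
  choose j hj1 hj2 using hJex
  let J₀ : ℂ × ℂ →ₗ[ℂ] X :=
    { toFun := j
      map_add' := fun u v => by
        apply w.injective
        rw [hj1, map_add, map_add, hj1, hj1]
      map_smul' := fun c v => by
        apply w.injective
        rw [hj1, map_smul, map_smul, RingHom.id_apply, hj1] }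
  let J : ℂ × ℂ →L[ℂ] X := LinearMap.toContinuousLinearMap J₀
  have hJ : ∀ v, J v = j v := fun v => rfl
  let E : X →L[ℂ] ℂ × ℂ := (Sp f).comp w.toContinuousLinearMap
  have hE : ∀ x, E x = Sp f (w x) := fun x => rfl
  have hJE : ∀ x, J (E x) = P x := by
    intro x
    obtain ⟨v, hv⟩ := hwV x
    have hv' : Tp b φ v = A 3 (w x) := hv
    apply w.injective
    rw [hJ, hj1, hE, hw, ← hv', ← hF.SA, ← hv', hF.ST]
  refine ⟨w, P, J, E, ⟨hw, hPH, hj1, hE, ?_, hj2, hJE, hsurj, hfin, hdim.trans hVdim⟩, hwV⟩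
  intro v
  rw [hE, hJ, hj1, hF.ST]

lemma Loc.exists_unit {b : ℕ → X} {A₃ : X →L[ℂ] X} {f : ℕ → X →L[ℂ] ℂ} {φ : ℝ × ℝ} {ε : ℝ}
    {w : X →ₗᵢ[ℂ] X} {P : X →L[ℂ] X} {J : ℂ × ℂ →L[ℂ] X} {E : X →L[ℂ] ℂ × ℂ}
    (hL : Loc b A₃ f φ ε w P J E) (g : X →L[ℂ] ℂ) :
    ∃ v : ℂ × ℂ, v ≠ 0 ∧ ‖J v‖ = 1 ∧ g (J v) = 0 := by
  have hker : LinearMap.ker ((g.comp J : ℂ × ℂ →L[ℂ] ℂ) : ℂ × ℂ →ₗ[ℂ] ℂ) ≠ ⊥ := by
    apply LinearMap.ker_ne_bot_of_finrank_lt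
    rw [Module.finrank_prod, Module.finrank_self]
    norm_num
  obtain ⟨v, hv, hv0⟩ := Submodule.exists_mem_ne_zero_of_ne_bot hker
  have hv' : g (J v) = 0 := hv
  have hJv : J v ≠ 0 := by
    intro h
    apply hv0
    rw [← hL.EJ v, h, map_zero]
  have hn : ‖J v‖ ≠ 0 := norm_ne_zero_iff.2 hJv
  have hnc : ((‖J v‖ : ℝ) : ℂ) ≠ 0 := by exact_mod_cast hn
  refine ⟨((‖J v‖ : ℝ) : ℂ)⁻¹ • v, smul_ne_zero (inv_ne_zero hnc) hv0, ?_, ?_⟩
  · rw [map_smul, norm_smul, norm_inv, Complex.norm_real, norm_norm, inv_mul_cancel₀ hn]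
  · rw [map_smul, map_smul, hv', smul_zero]

theorem main_loc [CompleteSpace X] [TopologicalSpace.SeparableSpace X] (hom : IsoHom ℂ X)
    (hX : ¬ FiniteDimensional ℂ X) {δ₀ : ℝ} (hδ₀ : 0 < δ₀) (hδ₁ : δ₀ ≤ 1) {ζ : ℝ} (hζ : 0 < ζ) :
    ∃ ε₀ > 0, ∀ ε, 0 ≤ ε → ε ≤ ε₀ → ∀ (b : ℕ → X) (A : ℕ → X →L[ℂ] X) (f : ℕ → X →L[ℂ] ℂ),
      Frame δ₀ ε b A f → ∀ φ : ℝ × ℝ, ∃ w P J E, Loc b (A 3) f φ ε w P J E ∧
      (∀ j, ‖P * A j - A j * P‖ ≤ ζ) ∧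
      ∃ k k', k < k' ∧ ‖P (b k) - b k‖ ≤ ζ ∧ ‖P (b k') - b k'‖ ≤ ζ := by
  set η : ℝ := min (ζ / 80) (1 / 10000) with hη
  have hη0 : 0 < η := lt_min (by positivity) (by norm_num)
  have hη1 : η ≤ 1 / 10000 := min_le_right _ _
  have hη2 : 80 * η ≤ ζ := by
    have : η ≤ ζ / 80 := min_le_left _ _
    linarith
  obtain ⟨ε₁, hε₁, hcomm⟩ := comm_small X hη0 (δ := δ₀ / 4) (by positivity)
  obtain ⟨ε₂, hε₂, hlev⟩ := level_all hom hX hδ₀ hδ₁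
  refine ⟨min (min ε₁ ε₂) 1, lt_min (lt_min hε₁ hε₂) one_pos, ?_⟩
  intro ε hε0 hεle b A f hF φ
  have hεε₁ : ε ≤ ε₁ := hεle.trans ((min_le_left _ _).trans (min_le_left _ _))
  have hεε₂ : ε ≤ ε₂ := hεle.trans ((min_le_left _ _).trans (min_le_right _ _))
  have hε1 : ε ≤ 1 := hεle.trans (min_le_right _ _)
  obtain ⟨w, P, J, E, hL, hwV⟩ := exists_loc hom hX hF hε0 φ
  have hco : ∀ k, ‖P * A k - A k * P‖ ≤ η := fun k =>
    comm_all hX hcomm hεε₁ hF (V := LinearMap.range (Tp b φ : ℂ × ℂ →ₗ[ℂ] X))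
      (fun u hu hu1 => hlev ε hε0 hεε₂ b A f hF u (by
        obtain ⟨v, rfl⟩ := hu
        exact hF.AT φ v) hu1) hL.wP hL.herm hwV hL.fin hL.dim (A k) ((hF.herm k).mono hεε₁)
  obtain ⟨k, k', hkk', hk, hk'⟩ := two_jumps hF hε0 hε1 hL.herm hη1 hco (by
    intro g
    obtain ⟨v, -, hv1, hgv⟩ := hL.exists_unit g
    exact ⟨J v, hv1, hL.PJ v, hgv⟩)
  exact ⟨w, P, J, E, hL, fun j => (hco j).trans (by linarith), k, k', hkk', hk.trans hη2,
    hk'.trans hη2⟩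

/-- the rank one differences are almost hermitian -/
lemma Frame.herm_a {δ₀ ε : ℝ} {b : ℕ → X} {A : ℕ → X →L[ℂ] X} {f : ℕ → X →L[ℂ] ℂ}
    (hF : Frame δ₀ ε b A f) (hε0 : 0 ≤ ε) (hε1 : ε ≤ 1) (k : ℕ) {χ : ℂ} (hχ : ‖χ‖ = 1) (x : X) :
    ‖x + ((χ - 1) * f k x) • b k‖ ≤ (1 + 3 * ε) * ‖x‖ := by
  have hχ0 : χ ≠ 0 := by rintro rfl; simp at hχ
  set y := x + (χ⁻¹ - 1) • A k x with hy
  have h1 := (hF.herm k).2 χ⁻¹ (by rw [norm_inv, hχ, inv_one]) x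
  rw [← hy] at h1
  have h2 := (hF.herm (k + 1)).2 χ hχ y
  have h3 : y + (χ - 1) • A (k + 1) y = x + ((χ - 1) * f k x) • b k := by
    have e1 : A (k + 1) (A k x) = A k x := hF.comp_ge k (k + 1) (Nat.le_succ k) x
    have e2 : A (k + 1) x = A k x + f k x • b k := hF.succ k x
    have e3 : χ * χ⁻¹ = 1 := mul_inv_cancel₀ hχ0
    rw [hy, map_add, map_smul, e1, e2]
    have e4 : x + (χ⁻¹ - 1) • A k x + (χ - 1) • (A k x + f k x • b k + (χ⁻¹ - 1) • A k x)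
        = x + (χ * χ⁻¹ - 1) • A k x + ((χ - 1) * f k x) • b k := by module
    rw [e4, e3, sub_self, zero_smul, add_zero]
  rw [← h3]
  have hx := norm_nonneg x
  calc _ ≤ (1 + ε) * ‖y‖ := h2
    _ ≤ (1 + ε) * ((1 + ε) * ‖x‖) := by gcongr
    _ = (1 + 2 * ε + ε * ε) * ‖x‖ := by ring
    _ ≤ (1 + 3 * ε) * ‖x‖ := by
        apply mul_le_mul_of_nonneg_right _ hx
        nlinarith

/-- existence of a rank one almost hermitian idempotent -/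
theorem exists_herm {δ₀ ε ζ : ℝ} {b : ℕ → X} {A : ℕ → X →L[ℂ] X} {f : ℕ → X →L[ℂ] ℂ}
    (hF : Frame δ₀ ε b A f) (hε0 : 0 ≤ ε) (hε1 : ε ≤ 1) (hζ : ζ ≤ 1 / 6) {φ : ℝ × ℝ}
    {w : X →ₗᵢ[ℂ] X} {P : X →L[ℂ] X} {J : ℂ × ℂ →L[ℂ] X} {E : X →L[ℂ] ℂ × ℂ}
    (hL : Loc b (A 3) f φ ε w P J E) (hco : ∀ j, ‖P * A j - A j * P‖ ≤ ζ) {k : ℕ}
    (hk : ‖P (b k) - b k‖ ≤ ζ) :
    ∃ p : ℂ × ℂ →L[ℂ] ℂ × ℂ, p * p = p ∧ p ≠ 0 ∧ p ≠ 1 ∧
      HermT b (A 3) φ (3 * ε + 200 * ζ) p := by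
  have hζ0 : 0 ≤ ζ := (norm_nonneg _).trans hk
  set lam : ℂ := f k (P (b k)) with hlam
  have hlam1 : ‖lam - 1‖ ≤ 3 * ζ := by
    have h1 : lam - 1 = f k (P (b k) - b k) := by rw [map_sub, hF.f_self]
    rw [h1]
    exact (hF.f_norm k _).trans (by gcongr)
  have hlamn : 1 / 2 ≤ ‖lam‖ := by
    have h1 : ‖(1 : ℂ)‖ ≤ ‖lam‖ + ‖lam - 1‖ := by
      have : (1 : ℂ) = lam - (lam - 1) := by ring
      nth_rewrite 1 [this]
      exact norm_sub_le _ _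
    rw [norm_one] at h1
    linarith
  have hlam0 : lam ≠ 0 := by
    rintro h
    rw [h, norm_zero] at hlamn
    norm_num at hlamn
  have hlaminv : ‖lam⁻¹ - 1‖ ≤ 6 * ζ := by
    have h1 : lam⁻¹ - 1 = -(lam⁻¹ * (lam - 1)) := by
      field_simp
      ring
    rw [h1, norm_neg, norm_mul, norm_inv]
    calc ‖lam‖⁻¹ * ‖lam - 1‖ ≤ 2 * (3 * ζ) := by
          gcongr
          rw [inv_le_comm₀ (by linarith) (by norm_num)]
          linarith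
      _ = _ := by ring
  set q : ℂ × ℂ := E (P (b k)) with hq
  have hJq : J q = P (b k) := by rw [hq, hL.JE, hL.herm.1]
  let p : ℂ × ℂ →L[ℂ] ℂ × ℂ := (lam⁻¹ • (f k).comp J).smulRight q
  have hp : ∀ v, p v = (lam⁻¹ * f k (J v)) • q := fun v => rfl
  have hpq : p q = q := by
    rw [hp, hJq, ← hlam, inv_mul_cancel₀ hlam0, one_smul]
  have hq0 : q ≠ 0 := by
    intro h
    rw [h, map_zero] at hJq
    rw [← hJq, map_zero] at hlam
    exact hlam0 hlam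
  refine ⟨p, ?_, ?_, ?_, ?_⟩
  · apply ContinuousLinearMap.ext
    intro v
    show p (p v) = p v
    rw [hp v, map_smul, hpq]
  · intro h
    rw [h] at hpq
    exact hq0 hpq.symm
  · intro h
    obtain ⟨v, hv0, -, hgv⟩ := hL.exists_unit (f k)
    have h1 := hp v
    rw [h, hgv, mul_zero, zero_smul] at h1
    exact hv0 h1
  · intro χ hχ v z hz
    obtain ⟨x₁, hx₁⟩ := hL.surj z hz
    obtain ⟨x, hx⟩ : ∃ x, x = J v + x₁ := ⟨_, rfl⟩
    have hwx : w x = Tp b φ v + z := by rw [hx, map_add, hL.wJ, hx₁]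
    have hPx : P x = J v := by
      have : P x₁ = 0 := by
        apply w.injective
        rw [hL.wP, hx₁, hz, map_zero]
      rw [hx, map_add, this, add_zero, hL.PJ]
    have h1 : Tp b φ (v + (χ - 1) • p v) + z
        = w (x + (χ - 1) • ((lam⁻¹ * f k (P x)) • P (b k))) := by
      have e1 : Tp b φ (p v) = w ((lam⁻¹ * f k (P x)) • P (b k)) := by
        rw [hp, map_smul, ← hL.wJ, hJq, map_smul, hPx]
      rw [map_add, map_smul, e1, map_add w, map_smul w (χ - 1), hwx]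
      abel
    rw [h1, w.norm_map, ← hwx, w.norm_map]
    -- compare with the exact rotation
    have hPn : ∀ y, ‖P y‖ ≤ 2 * ‖y‖ := fun y => (hL.herm.norm_le hε0 y).trans (by gcongr; linarith)
    have hPb : ‖P (b k)‖ ≤ 2 := by
      have := hPn (b k)
      rwa [hF.norm_one, mul_one] at this
    have hfx : ‖f k (P x)‖ ≤ 6 * ‖x‖ := by
      refine (hF.f_norm k _).trans ?_
      calc 3 * ‖P x‖ ≤ 3 * (2 * ‖x‖) := by gcongr; exact hPn x
        _ = _ := by ring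
    -- commutator with the rank one projection
    have hcom : ‖f k (P x) • b k - f k x • P (b k)‖ ≤ 2 * ζ * ‖x‖ := by
      have e1 : f k (P x) • b k - f k x • P (b k)
          = (P * A k - A k * P) x - (P * A (k + 1) - A (k + 1) * P) x := by
        show _ = (P (A k x) - A k (P x)) - (P (A (k + 1) x) - A (k + 1) (P x))
        rw [hF.succ, hF.succ, map_add, map_smul]
        abel
      rw [e1]
      refine (norm_sub_le _ _).trans ?_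
      have e2 := (P * A k - A k * P).le_opNorm x
      have e3 := (P * A (k + 1) - A (k + 1) * P).le_opNorm x
      have e4 := hco k
      have e5 := hco (k + 1)
      have e6 := norm_nonneg x
      nlinarith
    have hd : ‖(lam⁻¹ * f k (P x)) • P (b k) - f k x • b k‖ ≤ 100 * ζ * ‖x‖ := by
      have e1 : (lam⁻¹ * f k (P x)) • P (b k) - f k x • b k
          = ((lam⁻¹ - 1) * f k (P x)) • P (b k)
            + P (f k (P x) • b k - f k x • P (b k)) + f k x • (P (b k) - b k) := by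
        rw [map_sub, map_smul, map_smul, hL.herm.1]
        module
      rw [e1]
      have hx0 := norm_nonneg x
      calc _ ≤ ‖lam⁻¹ - 1‖ * ‖f k (P x)‖ * ‖P (b k)‖
            + ‖P (f k (P x) • b k - f k x • P (b k))‖ + ‖f k x‖ * ‖P (b k) - b k‖ := by
            refine norm_add₃_le.trans ?_
            rw [norm_smul, norm_mul, norm_smul (f k x)]
        _ ≤ 6 * ζ * (6 * ‖x‖) * 2 + 2 * (2 * ζ * ‖x‖) + 3 * ‖x‖ * ζ := by
            gcongr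
            · exact (hPn _).trans (by gcongr)
            · exact hF.f_norm k x
        _ ≤ 100 * ζ * ‖x‖ := by
            have : 0 ≤ ζ * ‖x‖ := mul_nonneg hζ0 hx0
            nlinarith
    have hχn : ‖χ - 1‖ ≤ 2 := by
      refine (norm_sub_le _ _).trans ?_
      rw [hχ, norm_one]; norm_num
    have e1 : x + (χ - 1) • ((lam⁻¹ * f k (P x)) • P (b k))
        = (x + ((χ - 1) * f k x) • b k)
          + (χ - 1) • ((lam⁻¹ * f k (P x)) • P (b k) - f k x • b k) := by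
      module
    rw [e1]
    have hx0 := norm_nonneg x
    calc _ ≤ ‖x + ((χ - 1) * f k x) • b k‖
          + ‖χ - 1‖ * ‖(lam⁻¹ * f k (P x)) • P (b k) - f k x • b k‖ := by
          refine (norm_add_le _ _).trans ?_
          rw [norm_smul (χ - 1)]
      _ ≤ (1 + 3 * ε) * ‖x‖ + 2 * (100 * ζ * ‖x‖) := by
          gcongr
          exact hF.herm_a hε0 hε1 k hχ x
      _ = _ := by ring

end DF72
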