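import Pool.Agent.Lib.MP_df72c7_an.C15

namespace DF72

open Set Filter Topology

lemma gram_id (α₁ β₁ α₂ β₂ s t : ℂ) :
    ‖s * α₁ + t * α₂‖ ^ 2 + ‖s * β₁ + t * β₂‖ ^ 2
      = ‖s‖ ^ 2 * (‖α₁‖ ^ 2 + ‖β₁‖ ^ 2) + ‖t‖ ^ 2 * (‖α₂‖ ^ 2 + ‖β₂‖ ^ 2)
        + 2 * (s * (starRingEnd ℂ) t
          * (α₁ * (starRingEnd ℂ) α₂ + β₁ * (starRingEnd ℂ) β₂)).re := by
  simp only [Complex.sq_norm, Complex.normSq_apply, Complex.add_re, Complex.add_im,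
    Complex.mul_re, Complex.mul_im, Complex.conj_re, Complex.conj_im]
  ring

/-- there is a phase turning a complex number into its modulus -/
lemma phase_re (g : ℂ) : ∃ χ : ℂ, ‖χ‖ = 1 ∧ (χ * g).re = ‖g‖ := by
  by_cases hg : g = 0
  · exact ⟨1, by simp, by simp [hg]⟩
  · have hn : ‖g‖ ≠ 0 := norm_ne_zero_iff.2 hg
    refine ⟨(starRingEnd ℂ) g / (‖g‖ : ℂ), ?_, ?_⟩
    · rw [norm_div, RCLike.norm_conj, Complex.norm_real, norm_norm, div_self hn]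
    · have : (starRingEnd ℂ) g / (‖g‖ : ℂ) * g = ((‖g‖ : ℝ) : ℂ) := by
        rw [div_mul_eq_mul_div, mul_comm, Complex.mul_conj, Complex.normSq_eq_norm_sq]
        push_cast
        field_simp
      rw [this, Complex.ofReal_re]

lemma gram_bound {θ G₁ G₂ S T : ℝ} {g : ℂ} (hθ : 0 ≤ θ) (hG₁ : |G₁ - 1| ≤ 7 * θ)
    (hG₂ : |G₂ - 1| ≤ 7 * θ) (hg : ‖g‖ ≤ 12 * θ) {s t : ℂ} (hS : S = ‖s‖) (hT : T = ‖t‖) :
    |(S ^ 2 * G₁ + T ^ 2 * G₂ + 2 * (s * (starRingEnd ℂ) t * g).re) - (S ^ 2 + T ^ 2)|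
      ≤ 19 * θ * (S ^ 2 + T ^ 2) := by
  have h1 : |(s * (starRingEnd ℂ) t * g).re| ≤ S * T * (12 * θ) := by
    refine (Complex.abs_re_le_norm _).trans ?_
    rw [norm_mul, norm_mul, RCLike.norm_conj, ← hS, ← hT]
    have hS0 : 0 ≤ S := by rw [hS]; positivity
    have hT0 : 0 ≤ T := by rw [hT]; positivity
    gcongr
  have h2 : (S ^ 2 * G₁ + T ^ 2 * G₂ + 2 * (s * (starRingEnd ℂ) t * g).re) - (S ^ 2 + T ^ 2)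
      = S ^ 2 * (G₁ - 1) + T ^ 2 * (G₂ - 1) + 2 * (s * (starRingEnd ℂ) t * g).re := by ring
  rw [h2]
  have h3 : |S ^ 2 * (G₁ - 1)| ≤ S ^ 2 * (7 * θ) := by
    rw [abs_mul, abs_of_nonneg (sq_nonneg S)]; gcongr
  have h4 : |T ^ 2 * (G₂ - 1)| ≤ T ^ 2 * (7 * θ) := by
    rw [abs_mul, abs_of_nonneg (sq_nonneg T)]; gcongr
  have h5 : |2 * (s * (starRingEnd ℂ) t * g).re| ≤ 2 * (S * T * (12 * θ)) := by
    rw [abs_mul, abs_of_nonneg (by norm_num : (0 : ℝ) ≤ 2)]; gcongr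
  have h6 : 2 * (S * T) ≤ S ^ 2 + T ^ 2 := by nlinarith [sq_nonneg (S - T)]
  have h7 := abs_add_le (S ^ 2 * (G₁ - 1) + T ^ 2 * (G₂ - 1))
    (2 * (s * (starRingEnd ℂ) t * g).re)
  have h8 := abs_add_le (S ^ 2 * (G₁ - 1)) (T ^ 2 * (G₂ - 1))
  nlinarith

/-- numerical lemma on almost orthonormal pairs -/
lemma gram_num {X : Type*} [NormedAddCommGroup X] [NormedSpace ℂ X] {e z : X} {θ : ℝ}
    (hθ0 : 0 ≤ θ) (hθ : θ ≤ 1 / 200) (he : ‖e‖ = 1)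
    (ht : ∀ α β : ℂ, ‖α • e + β • z‖ ≤ (1 + θ) * √(‖α‖ ^ 2 + ‖β‖ ^ 2) ∧
      √(‖α‖ ^ 2 + ‖β‖ ^ 2) ≤ (1 + θ) * ‖α • e + β • z‖)
    {x₁ x₂ : X} (hx₁ : ‖x₁‖ = 1) (hx₂ : ‖x₂‖ = 1) {α₁ β₁ α₂ β₂ : ℂ}
    (h1 : ‖(α₁ • e + β₁ • z) - x₁‖ ≤ θ) (h2 : ‖(α₂ • e + β₂ • z) - x₂‖ ≤ θ)
    (hrot : ∀ χ : ℂ, ‖χ‖ = 1 → ∀ s t : ℂ,
      ‖(χ * s) • x₁ + t • x₂‖ ≤ (1 + θ) * ‖s • x₁ + t • x₂‖) (s t : ℂ) :
    |√(‖s * α₁ + t * α₂‖ ^ 2 + ‖s * β₁ + t * β₂‖ ^ 2) - √(‖s‖ ^ 2 + ‖t‖ ^ 2)|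
      ≤ 19 * θ * √(‖s‖ ^ 2 + ‖t‖ ^ 2) := by
  -- the diagonal terms
  have hdiag : ∀ (α β : ℂ) (x : X), ‖x‖ = 1 → ‖(α • e + β • z) - x‖ ≤ θ →
      |(‖α‖ ^ 2 + ‖β‖ ^ 2) - 1| ≤ 7 * θ := by
    intro α β x hx hd
    obtain ⟨h3, h4⟩ := ht α β
    set n := √(‖α‖ ^ 2 + ‖β‖ ^ 2) with hn
    have hn2 : n ^ 2 = ‖α‖ ^ 2 + ‖β‖ ^ 2 := Real.sq_sqrt (by positivity)
    have hn0 : 0 ≤ n := Real.sqrt_nonneg _
    have h5 : |‖α • e + β • z‖ - 1| ≤ θ := by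
      rw [← hx]; exact (abs_norm_sub_norm_le _ _).trans hd
    obtain ⟨h6, h7⟩ := abs_le.1 h5
    have h8 : n ≤ 1 + 3 * θ := by nlinarith
    have h9 : 1 - 2 * θ ≤ n := by nlinarith
    rw [← hn2, abs_le]
    constructor <;> nlinarith
  have hG₁ := hdiag α₁ β₁ x₁ hx₁ h1
  have hG₂ := hdiag α₂ β₂ x₂ hx₂ h2
  -- the off-diagonal term
  set g : ℂ := α₁ * (starRingEnd ℂ) α₂ + β₁ * (starRingEnd ℂ) β₂ with hg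
  have hcomb : ∀ s t : ℂ, s • (α₁ • e + β₁ • z) + t • (α₂ • e + β₂ • z)
      = (s * α₁ + t * α₂) • e + (s * β₁ + t * β₂) • z := by
    intro s t; module
  let n : ℂ → ℝ := fun χ => √(‖χ * α₁ + 1 * α₂‖ ^ 2 + ‖χ * β₁ + 1 * β₂‖ ^ 2)
  have hn0 : ∀ χ, 0 ≤ n χ := fun χ => Real.sqrt_nonneg _
  have hnsq : ∀ χ, n χ ^ 2 = ‖χ * α₁ + 1 * α₂‖ ^ 2 + ‖χ * β₁ + 1 * β₂‖ ^ 2 :=
    fun χ => Real.sq_sqrt (by positivity)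
  have hdiff : ∀ χ : ℂ, ‖χ‖ = 1 → ‖(χ • (α₁ • e + β₁ • z) + (1 : ℂ) • (α₂ • e + β₂ • z))
      - (χ • x₁ + (1 : ℂ) • x₂)‖ ≤ 2 * θ := by
    intro χ hχ
    have : (χ • (α₁ • e + β₁ • z) + (1 : ℂ) • (α₂ • e + β₂ • z)) - (χ • x₁ + (1 : ℂ) • x₂)
        = χ • ((α₁ • e + β₁ • z) - x₁) + (1 : ℂ) • ((α₂ • e + β₂ • z) - x₂) := by
      rw [smul_sub, smul_sub]; abel
    rw [this]
    refine (norm_add_le _ _).trans ?_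
    rw [norm_smul, norm_smul, hχ, norm_one, one_mul, one_mul]
    linarith
  have hny : ∀ χ : ℂ, ‖χ‖ = 1 → n χ ≤ (1 + θ) * (‖χ • x₁ + (1 : ℂ) • x₂‖ + 2 * θ) ∧
      ‖χ • x₁ + (1 : ℂ) • x₂‖ ≤ (1 + θ) * n χ + 2 * θ := by
    intro χ hχ
    obtain ⟨h3, h4⟩ := ht (χ * α₁ + 1 * α₂) (χ * β₁ + 1 * β₂)
    rw [← hcomb] at h3 h4
    have h5 := hdiff χ hχ
    have h6 := norm_sub_norm_le (χ • (α₁ • e + β₁ • z) + (1 : ℂ) • (α₂ • e + β₂ • z))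
      (χ • x₁ + (1 : ℂ) • x₂)
    have h7 := norm_sub_norm_le (χ • x₁ + (1 : ℂ) • x₂)
      (χ • (α₁ • e + β₁ • z) + (1 : ℂ) • (α₂ • e + β₂ • z))
    rw [norm_sub_rev] at h7
    constructor
    · refine h4.trans ?_
      gcongr
      linarith
    · have : n χ = √(‖χ * α₁ + 1 * α₂‖ ^ 2 + ‖χ * β₁ + 1 * β₂‖ ^ 2) := rfl
      rw [← this] at h3
      linarith
  have hx2 : ∀ χ : ℂ, ‖χ‖ = 1 → ‖χ • x₁ + (1 : ℂ) • x₂‖ ≤ 2 := by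
    intro χ hχ
    refine (norm_add_le _ _).trans ?_
    rw [norm_smul, norm_smul, hχ, norm_one, one_mul, one_mul, hx₁, hx₂]
    norm_num
  have hn3 : ∀ χ : ℂ, ‖χ‖ = 1 → n χ ≤ 21 / 10 := by
    intro χ hχ
    have h3 := (hny χ hχ).1
    have h4 := hx2 χ hχ
    have h5 := norm_nonneg (χ • x₁ + (1 : ℂ) • x₂)
    nlinarith
  have hcmp : ∀ χ χ' : ℂ, ‖χ‖ = 1 → ‖χ'‖ = 1 → n χ ^ 2 ≤ n χ' ^ 2 + 47 * θ := by
    intro χ χ' hχ hχ'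
    have hχ'0 : χ' ≠ 0 := by rintro rfl; simp at hχ'
    have h3 := (hny χ hχ).1
    have h4 := (hny χ' hχ').2
    have h5 : ‖χ • x₁ + (1 : ℂ) • x₂‖ ≤ (1 + θ) * ‖χ' • x₁ + (1 : ℂ) • x₂‖ := by
      have := hrot (χ * χ'⁻¹) (by rw [norm_mul, norm_inv, hχ, hχ', inv_one, one_mul]) χ' 1
      rwa [mul_assoc, inv_mul_cancel₀ hχ'0, mul_one] at this
    have h6 := hn3 χ' hχ'
    have h7 := hn0 χ'
    have h8 : n χ ≤ n χ' + 11 * θ := by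
      calc n χ ≤ (1 + θ) * (‖χ • x₁ + (1 : ℂ) • x₂‖ + 2 * θ) := h3
        _ ≤ (1 + θ) * ((1 + θ) * ((1 + θ) * n χ' + 2 * θ) + 2 * θ) := by
            gcongr
            refine h5.trans ?_
            gcongr
        _ = n χ' + θ * ((3 + 3 * θ + θ ^ 2) * n χ' + (1 + θ) * (4 + 2 * θ)) := by ring
        _ ≤ n χ' + θ * 11 := by
            gcongr
            have e1 : (3 + 3 * θ + θ ^ 2) * n χ' ≤ (3 + 3 * (1 / 200) + (1 / 200) ^ 2) * (21 / 10) := by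
              gcongr
            have e2 : (1 + θ) * (4 + 2 * θ) ≤ (1 + 1 / 200) * (4 + 2 * (1 / 200)) := by
              gcongr
            norm_num at e1 e2 ⊢
            linarith
        _ = _ := by ring
    have h9 := hn3 χ hχ
    have h10 := hn0 χ
    nlinarith
  have hgn : ‖g‖ ≤ 12 * θ := by
    obtain ⟨χ, hχ, hχg⟩ := phase_re g
    have h3 := hcmp χ (-χ) hχ (by rw [norm_neg, hχ])
    rw [hnsq, hnsq, gram_id, gram_id, norm_neg, hχ] at h3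
    simp only [map_one, mul_one] at h3
    rw [← hg, neg_mul, Complex.neg_re, hχg] at h3
    linarith
  -- conclusion
  have hS0 : 0 ≤ ‖s‖ ^ 2 + ‖t‖ ^ 2 := by positivity
  have hfin := gram_bound hθ0 hG₁ hG₂ hgn (s := s) (t := t) rfl rfl
  rw [hg, ← gram_id] at hfin
  set N := √(‖s * α₁ + t * α₂‖ ^ 2 + ‖s * β₁ + t * β₂‖ ^ 2) with hN
  set r := √(‖s‖ ^ 2 + ‖t‖ ^ 2) with hr
  have hN2 : N ^ 2 = ‖s * α₁ + t * α₂‖ ^ 2 + ‖s * β₁ + t * β₂‖ ^ 2 := Real.sq_sqrt (by positivity)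
  have hr2 : r ^ 2 = ‖s‖ ^ 2 + ‖t‖ ^ 2 := Real.sq_sqrt hS0
  have hN0 : 0 ≤ N := Real.sqrt_nonneg _
  have hr0 : 0 ≤ r := Real.sqrt_nonneg _
  rw [← hN2, ← hr2] at hfin
  by_cases hr' : r = 0
  · have hN' : N = 0 := by
      rw [hr'] at hfin
      have : N ^ 2 ≤ 0 := by
        have := le_abs_self (N ^ 2 - 0 ^ 2)
        nlinarith
      nlinarith
    rw [hr', hN']; simp
  · have hrpos : 0 < r := lt_of_le_of_ne hr0 (Ne.symm hr')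
    have h3 : |N - r| * r ≤ |N ^ 2 - r ^ 2| := by
      have e1 : N ^ 2 - r ^ 2 = (N - r) * (N + r) := by ring
      rw [e1, abs_mul, abs_of_nonneg (by positivity : 0 ≤ N + r)]
      gcongr
      linarith
    have h4 : |N - r| * r ≤ 19 * θ * r * r := by
      refine (h3.trans hfin).trans_eq ?_
      ring
    exact le_of_mul_le_mul_right h4 hrpos

/-- comparison over a complement -/
lemma twin_num {X : Type*} [NormedAddCommGroup X] [NormedSpace ℂ X] {e z : X} {P : X →L[ℂ] X}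
    {θ : ℝ} (hθ0 : 0 ≤ θ) (hθ : θ ≤ 1 / 200) (he : ‖e‖ = 1) (hPe : P e = e)
    (hPn : ∀ x, ‖P x‖ ≤ 2 * ‖x‖)
    (ht : ∀ (α β : ℂ) (κ : X), P κ = 0 →
      ‖α • e + β • z + κ‖ ≤ (1 + θ) * ‖((√(‖α‖ ^ 2 + ‖β‖ ^ 2) : ℝ) : ℂ) • e + κ‖ ∧
      ‖((√(‖α‖ ^ 2 + ‖β‖ ^ 2) : ℝ) : ℂ) • e + κ‖ ≤ (1 + θ) * ‖α • e + β • z + κ‖)
    {x₁ x₂ : X} (hx₁ : ‖x₁‖ = 1) (hx₂ : ‖x₂‖ = 1) {α₁ β₁ α₂ β₂ : ℂ}
    (h1 : ‖(α₁ • e + β₁ • z) - x₁‖ ≤ θ) (h2 : ‖(α₂ • e + β₂ • z) - x₂‖ ≤ θ)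
    (hrot : ∀ χ : ℂ, ‖χ‖ = 1 → ∀ s t : ℂ,
      ‖(χ * s) • x₁ + t • x₂‖ ≤ (1 + θ) * ‖s • x₁ + t • x₂‖) (s t : ℂ) {κ : X} (hκ : P κ = 0) :
    ‖s • x₁ + t • x₂ + κ‖ ≤ (1 + 44 * θ) * ‖((√(‖s‖ ^ 2 + ‖t‖ ^ 2) : ℝ) : ℂ) • e + κ‖ ∧
    (1 - 43 * θ) * ‖((√(‖s‖ ^ 2 + ‖t‖ ^ 2) : ℝ) : ℂ) • e + κ‖
      ≤ (1 + θ) * ‖s • x₁ + t • x₂ + κ‖ := by
  have ht0 : ∀ α β : ℂ, ‖α • e + β • z‖ ≤ (1 + θ) * √(‖α‖ ^ 2 + ‖β‖ ^ 2) ∧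
      √(‖α‖ ^ 2 + ‖β‖ ^ 2) ≤ (1 + θ) * ‖α • e + β • z‖ := by
    intro α β
    have := ht α β 0 (map_zero P)
    simp only [add_zero, norm_smul, he, mul_one, Complex.norm_real, Real.norm_eq_abs,
      abs_of_nonneg (Real.sqrt_nonneg _)] at this
    exact this
  have hgr := gram_num hθ0 hθ he ht0 hx₁ hx₂ h1 h2 hrot s t
  obtain ⟨h3, h4⟩ := ht (s * α₁ + t * α₂) (s * β₁ + t * β₂) κ hκ
  set N := √(‖s * α₁ + t * α₂‖ ^ 2 + ‖s * β₁ + t * β₂‖ ^ 2) with hN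
  set r := √(‖s‖ ^ 2 + ‖t‖ ^ 2) with hr
  have hr0 : 0 ≤ r := Real.sqrt_nonneg _
  set Θ := ‖((r : ℝ) : ℂ) • e + κ‖ with hΘ
  have hrΘ : r ≤ 2 * Θ := by
    have e1 : P (((r : ℝ) : ℂ) • e + κ) = ((r : ℝ) : ℂ) • e := by
      rw [map_add, map_smul, hPe, hκ, add_zero]
    have e2 := hPn (((r : ℝ) : ℂ) • e + κ)
    rw [e1, norm_smul, he, mul_one, Complex.norm_real, Real.norm_eq_abs, abs_of_nonneg hr0] at e2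
    exact e2
  have hNr : |‖((N : ℝ) : ℂ) • e + κ‖ - Θ| ≤ 38 * θ * Θ := by
    have e1 : ‖(((N : ℝ) : ℂ) • e + κ) - (((r : ℝ) : ℂ) • e + κ)‖ = |N - r| := by
      have : (((N : ℝ) : ℂ) • e + κ) - (((r : ℝ) : ℂ) • e + κ) = ((N - r : ℝ) : ℂ) • e := by
        push_cast; module
      rw [this, norm_smul, he, mul_one, Complex.norm_real, Real.norm_eq_abs]
    refine (abs_norm_sub_norm_le _ _).trans ?_
    rw [e1]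
    refine hgr.trans ?_
    nlinarith
  have hxy : ‖(s • x₁ + t • x₂ + κ) - ((s * α₁ + t * α₂) • e + (s * β₁ + t * β₂) • z + κ)‖
      ≤ 4 * θ * Θ := by
    have e1 : (s • x₁ + t • x₂ + κ) - ((s * α₁ + t * α₂) • e + (s * β₁ + t * β₂) • z + κ)
        = -(s • ((α₁ • e + β₁ • z) - x₁) + t • ((α₂ • e + β₂ • z) - x₂)) := by module
    rw [e1, norm_neg]
    have e2 : ‖s‖ ≤ r := by
      rw [hr]; apply Real.le_sqrt_of_sq_le; nlinarith [sq_nonneg ‖t‖]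
    have e3 : ‖t‖ ≤ r := by
      rw [hr]; apply Real.le_sqrt_of_sq_le; nlinarith [sq_nonneg ‖s‖]
    calc _ ≤ ‖s‖ * ‖(α₁ • e + β₁ • z) - x₁‖ + ‖t‖ * ‖(α₂ • e + β₂ • z) - x₂‖ := by
          refine (norm_add_le _ _).trans ?_
          rw [norm_smul, norm_smul]
      _ ≤ r * θ + r * θ := by gcongr
      _ ≤ 4 * θ * Θ := by nlinarith
  have hΘ0 : 0 ≤ Θ := norm_nonneg _
  set y := ‖(s * α₁ + t * α₂) • e + (s * β₁ + t * β₂) • z + κ‖ with hy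
  have hy0 : 0 ≤ y := norm_nonneg _
  have hxy' := abs_le.1 ((abs_norm_sub_norm_le _ _).trans hxy)
  rw [← hy] at hxy'
  obtain ⟨h5, h6⟩ := abs_le.1 hNr
  have hθΘ : 0 ≤ θ * Θ := mul_nonneg hθ0 hΘ0
  have hθ2Θ : θ * (θ * Θ) ≤ 1 / 200 * (θ * Θ) := by gcongr
  constructor
  · have h7 : y ≤ (1 + θ) * (Θ + 38 * θ * Θ) := h3.trans (by gcongr; linarith)
    nlinarith [hxy'.1, hxy'.2]
  · have h7 : Θ - 38 * θ * Θ ≤ (1 + θ) * y := by linarith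
    have h8 : (1 + θ) * y ≤ (1 + θ) * (‖s • x₁ + t • x₂ + κ‖ + 4 * θ * Θ) := by
      gcongr
      linarith [hxy'.1]
    nlinarith

end DF72
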