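import Pool.Agent.Lib.MP_df72c7_an.C16

namespace DF72

open Set Filter Topology

/-- two by two matrices -/
abbrev M2 := ℂ × ℂ →L[ℂ] ℂ × ℂ

lemma rank_one_comp {p : M2} (hp : p * p = p) (h1 : p ≠ 1) (q : M2) :
    ∃ β : ℂ, p * q * p = β • p := by
  have hpp : ∀ x, p (p x) = p x := fun x => by
    have := congrArg (fun T : M2 => T x) hp
    exact this
  set V := LinearMap.range (p : ℂ × ℂ →ₗ[ℂ] ℂ × ℂ) with hV
  have hVtop : V ≠ ⊤ := by
    intro h
    apply h1
    apply ContinuousLinearMap.ext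
    intro x
    have hx : x ∈ V := by rw [h]; trivial
    obtain ⟨y, hy⟩ := hx
    have hy' : p y = x := hy
    show p x = x
    rw [← hy', hpp]
  have hdim : Module.finrank ℂ V ≤ 1 := by
    have h2 := Submodule.finrank_lt hVtop
    rw [Module.finrank_prod, Module.finrank_self] at h2
    omega
  obtain ⟨u, hu⟩ := finrank_le_one_iff.1 hdim
  have hmem : ∀ x, ∃ c : ℂ, c • (u : ℂ × ℂ) = p x := by
    intro x
    obtain ⟨c, hc⟩ := hu ⟨p x, ⟨x, rfl⟩⟩
    exact ⟨c, congrArg Subtype.val hc⟩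
  obtain ⟨β, hβ⟩ := hmem (q u)
  refine ⟨β, ?_⟩
  apply ContinuousLinearMap.ext
  intro x
  show p (q (p x)) = β • p x
  obtain ⟨c, hc⟩ := hmem x
  rw [← hc, map_smul, map_smul, ← hβ, smul_comm]

section alg

variable {B : Type*} [NormedRing B] [NormedAlgebra ℂ B]

lemma idem_norm {p : B} (hp : p * p = p) (h0 : p ≠ 0) : 1 ≤ ‖p‖ := by
  have h1 : ‖p‖ ≤ ‖p‖ * ‖p‖ := by
    nth_rewrite 1 [← hp]
    exact norm_mul_le _ _
  have h2 : 0 < ‖p‖ := norm_pos_iff.2 h0
  by_contra h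
  push Not at h
  nlinarith

lemma alg_dich {p q : B} {K η : ℝ} (hK : 1 ≤ K) (hp : p * p = p) (hq : q * q = q) (hp0 : p ≠ 0)
    (hr : ∃ β : ℂ, p * q * p = β • p) (hpn : ‖p‖ ≤ K) (hqn : ‖q‖ ≤ K)
    (hc : ‖p * q - q * p‖ ≤ η) :
    ‖p * q‖ ≤ 3 * K ^ 3 * η ∨ ‖p - p * q‖ ≤ 3 * K ^ 3 * η := by
  have hη0 : 0 ≤ η := (norm_nonneg _).trans hc
  obtain ⟨β, hβ⟩ := hr
  have hppos : 0 < ‖p‖ := norm_pos_iff.2 hp0
  have h1 : (β - β ^ 2) • p = p * (p * q - q * p) * q * p := by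
    have e1 : p * (p * q - q * p) * q * p = (p * p) * (q * q) * p - (p * q * p) * q * p := by
      noncomm_ring
    rw [e1, hp, hq, hβ, smul_mul_assoc, smul_mul_assoc, hβ, smul_smul, ← sub_smul]
    congr 1
    ring
  have h2 : ‖β‖ * ‖1 - β‖ ≤ K ^ 2 * η := by
    have e1 : ‖(β - β ^ 2) • p‖ = ‖β‖ * ‖1 - β‖ * ‖p‖ := by
      rw [norm_smul, show β - β ^ 2 = β * (1 - β) by ring, norm_mul]
    have e2 : ‖p * (p * q - q * p) * q * p‖ ≤ K * η * K * ‖p‖ := by
      calc ‖p * (p * q - q * p) * q * p‖ ≤ ‖p‖ * ‖p * q - q * p‖ * ‖q‖ * ‖p‖ := by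
            refine (norm_mul_le _ _).trans ?_
            gcongr
            refine (norm_mul_le _ _).trans ?_
            gcongr
            exact norm_mul_le _ _
        _ ≤ K * η * K * ‖p‖ := by gcongr
    rw [← h1, e1] at e2
    have e3 : ‖β‖ * ‖1 - β‖ * ‖p‖ ≤ K ^ 2 * η * ‖p‖ := e2.trans_eq (by ring)
    exact le_of_mul_le_mul_right e3 hppos
  have h3 : ‖p * q - p * q * p‖ ≤ K * η := by
    have e1 : p * q - p * q * p = p * (p * q - q * p) := by
      have : p * (p * q - q * p) = (p * p) * q - p * q * p := by noncomm_ring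
      rw [this, hp]
    rw [e1]
    exact (norm_mul_le _ _).trans (by gcongr)
  have hK3 : K * η ≤ K ^ 3 * η := by
    apply mul_le_mul_of_nonneg_right _ hη0
    nlinarith [sq_nonneg K, mul_self_nonneg (K - 1)]
  rcases le_total ‖β‖ (1 / 2) with hb | hb
  · left
    have h4 : 1 / 2 ≤ ‖1 - β‖ := by
      have : ‖(1 : ℂ)‖ ≤ ‖1 - β‖ + ‖β‖ := by
        have e : (1 : ℂ) = (1 - β) + β := by ring
        nth_rewrite 1 [e]
        exact norm_add_le _ _
      rw [norm_one] at this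
      linarith
    have h5 : ‖β‖ ≤ 2 * (K ^ 2 * η) := by
      have := norm_nonneg β
      nlinarith
    have e1 : p * q = β • p + (p * q - p * q * p) := by rw [hβ]; abel
    rw [e1]
    calc _ ≤ ‖β‖ * ‖p‖ + ‖p * q - p * q * p‖ := by
          refine (norm_add_le _ _).trans ?_
          rw [norm_smul]
      _ ≤ 2 * (K ^ 2 * η) * K + K * η := by gcongr
      _ = 2 * K ^ 3 * η + K * η := by ring
      _ ≤ 3 * K ^ 3 * η := by linarith
  · right
    have h5 : ‖1 - β‖ ≤ 2 * (K ^ 2 * η) := by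
      have := norm_nonneg (1 - β)
      nlinarith
    have e1 : p - p * q = (1 - β) • p - (p * q - p * q * p) := by
      rw [hβ, sub_smul, one_smul]; abel
    rw [e1]
    calc _ ≤ ‖1 - β‖ * ‖p‖ + ‖p * q - p * q * p‖ := by
          refine (norm_sub_le _ _).trans ?_
          rw [norm_smul]
      _ ≤ 2 * (K ^ 2 * η) * K + K * η := by gcongr
      _ = 2 * K ^ 3 * η + K * η := by ring
      _ ≤ 3 * K ^ 3 * η := by linarith

lemma alg2' {p q : B} {K η : ℝ} (hK : 1 ≤ K) (hp : p * p = p) (hq : q * q = q) (hp0 : p ≠ 0)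
    (hp1 : p ≠ 1) (hq0 : q ≠ 0) (hq1 : q ≠ 1) (hr : ∃ β : ℂ, p * q * p = β • p)
    (hr' : ∃ β : ℂ, (1 - p) * q * (1 - p) = β • (1 - p)) (hpn : ‖p‖ ≤ K) (hpn' : ‖1 - p‖ ≤ K)
    (hqn : ‖q‖ ≤ K) (hc : ‖p * q - q * p‖ ≤ η) (hη : 6 * K ^ 3 * η < 1) :
    ‖p - q‖ ≤ 6 * K ^ 3 * η ∨ ‖p - (1 - q)‖ ≤ 6 * K ^ 3 * η := by
  have hp' : (1 - p) * (1 - p) = 1 - p := by
    have : (1 - p) * (1 - p) = 1 - p - p + p * p := by noncomm_ring
    rw [this, hp]; abel
  have hq' : (1 - q) * (1 - q) = 1 - q := by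
    have : (1 - q) * (1 - q) = 1 - q - q + q * q := by noncomm_ring
    rw [this, hq]; abel
  have hp0' : 1 - p ≠ 0 := fun h => hp1 (sub_eq_zero.1 h).symm
  have hq0' : 1 - q ≠ 0 := fun h => hq1 (sub_eq_zero.1 h).symm
  have hc' : ‖(1 - p) * q - q * (1 - p)‖ ≤ η := by
    have : (1 - p) * q - q * (1 - p) = -(p * q - q * p) := by noncomm_ring
    rw [this, norm_neg]; exact hc
  have hqn1 := idem_norm hq hq0
  have hqn1' := idem_norm hq' hq0'
  rcases alg_dich hK hp hq hp0 hr hpn hqn hc with h1 | h1 <;>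
    rcases alg_dich hK hp' hq hp0' hr' hpn' hqn hc' with h2 | h2
  · exfalso
    have e : q = p * q + (1 - p) * q := by noncomm_ring
    have : ‖q‖ ≤ 3 * K ^ 3 * η + 3 * K ^ 3 * η := by
      rw [e]; exact (norm_add_le _ _).trans (by gcongr)
    linarith
  · right
    have e : p - (1 - q) = p * q - ((1 - p) - (1 - p) * q) := by noncomm_ring
    rw [e]
    refine (norm_sub_le _ _).trans ?_
    linarith
  · left
    have e : p - q = (p - p * q) - (1 - p) * q := by noncomm_ring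
    rw [e]
    refine (norm_sub_le _ _).trans ?_
    linarith
  · exfalso
    have e : 1 - q = (p - p * q) + ((1 - p) - (1 - p) * q) := by noncomm_ring
    have : ‖1 - q‖ ≤ 3 * K ^ 3 * η + 3 * K ^ 3 * η := by
      rw [e]; exact (norm_add_le _ _).trans (by gcongr)
    linarith

end alg

lemma alg2 {p q : M2} {K η : ℝ} (hK : 1 ≤ K) (hp : p * p = p) (hq : q * q = q) (hp0 : p ≠ 0)
    (hp1 : p ≠ 1) (hq0 : q ≠ 0) (hq1 : q ≠ 1) (hpn : ‖p‖ ≤ K) (hpn' : ‖1 - p‖ ≤ K)
    (hqn : ‖q‖ ≤ K) (hc : ‖p * q - q * p‖ ≤ η) (hη : 6 * K ^ 3 * η < 1) :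
    ‖p - q‖ ≤ 6 * K ^ 3 * η ∨ ‖p - (1 - q)‖ ≤ 6 * K ^ 3 * η := by
  refine alg2' (B := M2) hK hp hq hp0 hp1 hq0 hq1 (rank_one_comp hp hp1 q)
    (rank_one_comp ?_ ?_ q) hpn hpn' hqn hc hη
  · apply ContinuousLinearMap.ext
    intro x
    have h1 : p (p x) = p x := by
      have := congrArg (fun T : M2 => T x) hp
      exact this
    show (x - p x) - p (x - p x) = x - p x
    rw [map_sub, h1]
    abel
  · intro h
    apply hp0
    apply ContinuousLinearMap.ext
    intro x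
    have h1 : x - p x = x := congrArg (fun T : M2 => T x) h
    show p x = 0
    exact sub_eq_self.1 h1

/-- spanning by two eigenvectors -/
lemma span_two {p : M2} {e z : ℂ × ℂ} (he : p e = e) (hz : p z = 0) (he0 : e ≠ 0) (hz0 : z ≠ 0)
    (v : ℂ × ℂ) : ∃ α β : ℂ, v = α • e + β • z := by
  have hli : LinearIndependent ℂ ![e, z] := by
    rw [LinearIndependent.pair_iff]
    intro s t hst
    have h1 := congrArg p hst
    rw [map_add, map_smul, map_smul, he, hz, smul_zero, add_zero, map_zero] at h1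
    have hs : s = 0 := (smul_eq_zero.1 h1).resolve_right he0
    rw [hs, zero_smul, zero_add] at hst
    exact ⟨hs, (smul_eq_zero.1 hst).resolve_right hz0⟩
  have hspan := hli.span_eq_top_of_card_eq_finrank' (by
    rw [Module.finrank_prod, Module.finrank_self]; rfl)
  have hv : v ∈ Submodule.span ℂ (range ![e, z]) := by rw [hspan]; trivial
  rw [Matrix.range_cons, Matrix.range_cons, Matrix.range_empty, Set.union_empty,
    Set.singleton_union] at hv
  obtain ⟨α, β, h⟩ := Submodule.mem_span_pair.1 hv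
  exact ⟨α, β, h.symm⟩

end DF72
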