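import Pool.Agent.Lib.MP_df72c7_an.C17

namespace DF72

open Set Filter Topology

variable {X : Type*} [NormedAddCommGroup X] [NormedSpace ℂ X]
variable {δ₀ ε : ℝ} {b : ℕ → X} {A : ℕ → X →L[ℂ] X} {f : ℕ → X →L[ℂ] ℂ}

lemma Frame.A_b (hF : Frame δ₀ ε b A f) (k i : ℕ) : A k (b i) = if i < k then b i else 0 := by
  induction k with
  | zero => rw [hF.zero]; simp
  | succ k ih =>
    rw [hF.succ, ih]
    rcases lt_trichotomy i k with h | h | h
    · rw [if_pos h, if_pos (by omega), hF.f_ne i k h.ne, zero_smul, add_zero]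
    · rw [h, if_neg (lt_irrefl k), if_pos (by omega), hF.f_self, one_smul, zero_add]
    · rw [if_neg (by omega), if_neg (by omega), hF.f_ne i k h.ne', zero_smul, add_zero]

lemma sqrt_zero_right {r : ℝ} (hr : 0 ≤ r) : √(‖((r : ℝ) : ℂ)‖ ^ 2 + ‖(0 : ℂ)‖ ^ 2) = r := by
  rw [norm_zero, Complex.norm_real, Real.norm_eq_abs, abs_of_nonneg hr]
  simp [Real.sqrt_sq hr]

lemma twin_false (hX : ¬ FiniteDimensional ℂ X) (hF : Frame δ₀ ε b A f) (hδ₀ : 0 < δ₀)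
    (hε0 : 0 ≤ ε) {θ : ℝ} (hεθ : 3 * ε ≤ θ) (hθ : θ ≤ 1 / 200) (hθδ : 120 * θ ≤ δ₀ / 4)
    {φ : ℝ × ℝ} {w : X →ₗᵢ[ℂ] X} {P : X →L[ℂ] X} {J : ℂ × ℂ →L[ℂ] X} {E : X →L[ℂ] ℂ × ℂ}
    (hL : Loc b (A 3) f φ ε w P J E) {p q : M2} {k k' : ℕ}
    (hkk' : k < k') (hk : ‖P (b k) - b k‖ ≤ θ) (hk' : ‖P (b k') - b k'‖ ≤ θ) :
    ¬ HasTwin θ (J.comp (p.comp E)) (J.comp (q.comp E)) := by
  rintro ⟨e, he1, hpe, z, hz, hz1, hpz, ht⟩
  have hθ0 : 0 ≤ θ := (norm_nonneg _).trans hk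
  have hpe' : J (p (E e)) = e := hpe
  have hPe : P e = e := by
    nth_rewrite 1 [← hpe']
    rw [hL.PJ, hpe']
  have hPz : P z = z := by
    obtain ⟨a, c, h⟩ := Submodule.mem_span_pair.1 hz
    have hq : P ((J.comp (q.comp E)) e) = (J.comp (q.comp E)) e := hL.PJ _
    rw [← h, map_add, map_smul, map_smul, hPe, hq]
  have hJEe : J (E e) = e := by rw [hL.JE, hPe]
  have hJEz : J (E z) = z := by rw [hL.JE, hPz]
  have he' : p (E e) = E e := by
    rw [← hL.EJ (p (E e)), hpe']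
  have hz' : p (E z) = 0 := by
    have h1 : J (p (E z)) = 0 := hpz
    rw [← hL.EJ (p (E z)), h1, map_zero]
  have he0 : E e ≠ 0 := by
    intro h
    rw [h, map_zero] at hJEe
    rw [← hJEe, norm_zero] at he1
    exact zero_ne_one he1
  have hz0 : E z ≠ 0 := by
    intro h
    rw [h, map_zero] at hJEz
    rw [← hJEz, norm_zero] at hz1
    exact zero_ne_one hz1
  have hcoord : ∀ x, ∃ α β : ℂ, P x = α • e + β • z := by
    intro x
    obtain ⟨α, β, h⟩ := span_two he' hz' he0 hz0 (E x)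
    refine ⟨α, β, ?_⟩
    rw [← hL.JE, h, map_add, map_smul, map_smul, hJEe, hJEz]
  have hEk : ∀ κ, P κ = 0 → E κ = 0 := by
    intro κ hκ
    rw [← hL.EJ (E κ), hL.JE, hκ, map_zero]
  have ht' : ∀ (α β : ℂ) (κ : X), P κ = 0 →
      ‖α • e + β • z + κ‖ ≤ (1 + θ) * ‖((√(‖α‖ ^ 2 + ‖β‖ ^ 2) : ℝ) : ℂ) • e + κ‖ ∧
      ‖((√(‖α‖ ^ 2 + ‖β‖ ^ 2) : ℝ) : ℂ) • e + κ‖ ≤ (1 + θ) * ‖α • e + β • z + κ‖ := by
    intro α β κ hκ
    apply ht
    · show J (p (E κ)) = 0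
      rw [hEk κ hκ, map_zero, map_zero]
    · show J (p (E (J (q (E κ))))) = 0
      rw [hEk κ hκ, map_zero, map_zero, map_zero, map_zero, map_zero]
  have hPn : ∀ x, ‖P x‖ ≤ 2 * ‖x‖ := fun x => (hL.herm.norm_le hε0 x).trans (by
    gcongr; linarith)
  obtain ⟨α₁, β₁, h₁⟩ := hcoord (b k)
  obtain ⟨α₂, β₂, h₂⟩ := hcoord (b k')
  have hrot : ∀ χ : ℂ, ‖χ‖ = 1 → ∀ s t : ℂ,
      ‖(χ * s) • b k + t • b k'‖ ≤ (1 + θ) * ‖s • b k + t • b k'‖ := by
    intro χ hχ s t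
    have h3 := hF.herm_a hε0 (by linarith) k hχ (s • b k + t • b k')
    have h4 : f k (s • b k + t • b k') = s := by
      rw [map_add, map_smul, map_smul, hF.f_self, hF.f_ne k' k hkk'.ne']
      simp
    rw [h4] at h3
    have h5 : s • b k + t • b k' + ((χ - 1) * s) • b k = (χ * s) • b k + t • b k' := by module
    rw [h5] at h3
    refine h3.trans ?_
    gcongr
  have hnum := fun (s t : ℂ) (κ : X) (hκ : P κ = 0) =>
    twin_num hθ0 hθ he1 hPe hPn ht' (hF.norm_one k) (hF.norm_one k')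
      (by rw [← h₁]; exact hk) (by rw [← h₂]; exact hk') hrot s t hκ
  -- the forbidden twin
  refine hF.nopart (k + 1) (b k) ?_ (hF.norm_one k) (by rw [hF.lev]; linarith) ?_
  · rw [hF.A_b, if_pos (by omega)]
  · have := hL.fin
    have := hF.fin (k' + 1)
    let Φ : X →ₗ[ℂ] (LinearMap.range (P : X →ₗ[ℂ] X)) ×
        (LinearMap.range (A (k' + 1) : X →ₗ[ℂ] X)) :=
      (LinearMap.rangeRestrict (P : X →ₗ[ℂ] X)).prod
        (LinearMap.rangeRestrict (A (k' + 1) : X →ₗ[ℂ] X))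
    have hΦ : ∀ x, x ∈ LinearMap.ker Φ → P x = 0 ∧ A (k' + 1) x = 0 := by
      intro x h
      rw [LinearMap.mem_ker] at h
      exact ⟨congrArg Subtype.val (congrArg Prod.fst h),
        congrArg Subtype.val (congrArg Prod.snd h)⟩
    refine ⟨b k', ?_, hF.norm_one k', LinearMap.ker Φ, ?_, ker_not_fg hX Φ, ?_⟩
    · show A (k + 1) (b k') = 0
      rw [hF.A_b, if_neg (by omega)]
    · intro x hx
      show A (k + 1) x = 0
      rw [← hF.comp_le (k + 1) (k' + 1) (by omega), (hΦ x hx).2, map_zero]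
    · intro s t κ hκ
      obtain ⟨hκ1, -⟩ := hΦ κ hκ
      obtain ⟨h3, h4⟩ := hnum s t κ hκ1
      set r := √(‖s‖ ^ 2 + ‖t‖ ^ 2) with hr
      have hr0 : 0 ≤ r := Real.sqrt_nonneg _
      obtain ⟨h5, h6⟩ := hnum ((r : ℝ) : ℂ) 0 κ hκ1
      rw [sqrt_zero_right hr0, zero_smul, add_zero] at h5 h6
      set Θ := ‖((r : ℝ) : ℂ) • e + κ‖ with hΘ
      have hΘ0 : 0 ≤ Θ := norm_nonneg _
      have hkey : ∀ x y : ℝ, 0 ≤ x → 0 ≤ y → x ≤ (1 + 44 * θ) * Θ →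
          (1 - 43 * θ) * Θ ≤ (1 + θ) * y → x ≤ (1 + δ₀ / 4) * y := by
        intro x y hx hy hx1 hy1
        have e1 : (1 - 43 * θ) * x ≤ (1 + 44 * θ) * ((1 + θ) * y) := by
          calc (1 - 43 * θ) * x ≤ (1 - 43 * θ) * ((1 + 44 * θ) * Θ) := by
                gcongr
                linarith
            _ = (1 + 44 * θ) * ((1 - 43 * θ) * Θ) := by ring
            _ ≤ _ := by gcongr
        have e2 : (1 + 44 * θ) * ((1 + θ) * y) ≤ (1 - 43 * θ) * ((1 + 120 * θ) * y) := by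
          have e3 : (1 + 44 * θ) * (1 + θ) ≤ (1 - 43 * θ) * (1 + 120 * θ) := by nlinarith
          calc (1 + 44 * θ) * ((1 + θ) * y) = ((1 + 44 * θ) * (1 + θ)) * y := by ring
            _ ≤ ((1 - 43 * θ) * (1 + 120 * θ)) * y := by gcongr
            _ = _ := by ring
        have e4 : x ≤ (1 + 120 * θ) * y :=
          le_of_mul_le_mul_left (e1.trans e2) (by linarith)
        refine e4.trans ?_
        gcongr
      exact ⟨hkey _ _ (norm_nonneg _) (norm_nonneg _) h3 h6,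
        hkey _ _ (norm_nonneg _) (norm_nonneg _) h5 h4⟩

lemma lift_herm (hF : Frame δ₀ ε b A f) {φ : ℝ × ℝ} {w : X →ₗᵢ[ℂ] X} {P : X →L[ℂ] X}
    {J : ℂ × ℂ →L[ℂ] X} {E : X →L[ℂ] ℂ × ℂ} (hL : Loc b (A 3) f φ ε w P J E) {p : M2}
    (hp : p * p = p) {ρ : ℝ} (hH : HermT b (A 3) φ ρ p) : Herm ρ (J.comp (p.comp E)) := by
  have hpp : ∀ x, p (p x) = p x := fun x => by
    have := congrArg (fun T : M2 => T x) hp
    exact this
  constructor
  · intro x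
    show J (p (E (J (p (E x))))) = J (p (E x))
    rw [hL.EJ, hpp]
  · intro χ hχ x
    show ‖x + (χ - 1) • J (p (E x))‖ ≤ _
    obtain ⟨z, hz⟩ : ∃ z, z = w x - Tp b φ (E x) := ⟨_, rfl⟩
    have hTE : Tp b φ (E x) = A 3 (w x) := by rw [← hL.wJ, hL.JE, hL.wP]
    have hz0 : A 3 z = 0 := by
      rw [hz, map_sub, hF.AT, hTE, sub_self]
    have hwx : w x = Tp b φ (E x) + z := by rw [hz]; abel
    have h1 := hH χ hχ (E x) z hz0
    rw [← hwx, w.norm_map] at h1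
    have h2 : Tp b φ (E x + (χ - 1) • p (E x)) + z = w (x + (χ - 1) • J (p (E x))) := by
      rw [map_add, map_smul, map_add w, map_smul w, hL.wJ, hwx]
      abel
    rw [h2, w.norm_map] at h1
    exact h1

theorem uniq_herm (X : Type*) [NormedAddCommGroup X] [NormedSpace ℂ X]
    (hX : ¬ FiniteDimensional ℂ X) {δ₀ : ℝ} (hδ₀ : 0 < δ₀) (hδ₁ : δ₀ ≤ 1) {η₂ : ℝ}
    (hη₂ : 0 < η₂) :
    ∃ ρ > 0, ∀ ε, 0 ≤ ε → ε ≤ ρ → ∀ (b : ℕ → X) (A : ℕ → X →L[ℂ] X) (f : ℕ → X →L[ℂ] ℂ),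
      Frame δ₀ ε b A f → ∀ φ, Simp φ → ∀ w P J E, Loc b (A 3) f φ ε w P J E →
      (∃ k k', k < k' ∧ ‖P (b k) - b k‖ ≤ ρ ∧ ‖P (b k') - b k'‖ ≤ ρ) →
      ∀ p q : M2, p * p = p → p ≠ 0 → p ≠ 1 → q * q = q → q ≠ 0 → q ≠ 1 →
      HermT b (A 3) φ ρ p → HermT b (A 3) φ ρ q → ‖p - q‖ ≤ η₂ ∨ ‖p - (1 - q)‖ ≤ η₂ := by
  set θ : ℝ := δ₀ / 480 with hθ
  have hθ0 : 0 < θ := by positivity
  have hθ1 : θ ≤ 1 / 480 := by rw [hθ]; gcongr
  set η' : ℝ := min η₂ (1 / 2) with hη'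
  have hη'0 : 0 < η' := lt_min hη₂ (by norm_num)
  have hη'1 : η' ≤ 1 / 2 := min_le_right _ _
  have hη'2 : η' ≤ η₂ := min_le_left _ _
  set ηc : ℝ := η' / (6 * 61 ^ 3) with hηc
  have hηc0 : 0 < ηc := by positivity
  have hηc1 : 6 * 61 ^ 3 * ηc = η' := by rw [hηc]; field_simp
  obtain ⟨ε₁, hε₁, hcomm⟩ := comm_small X (η := ηc / 30) (by positivity) hθ0
  refine ⟨min ε₁ (θ / 3), lt_min hε₁ (by positivity), ?_⟩
  intro ε hε0 hεle b A f hF φ hφ w P J E hL hkk p q hp hp0 hp1 hq hq0 hq1 hHp hHq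
  obtain ⟨k, k', hkk', hk, hk'⟩ := hkk
  have hρ1 : min ε₁ (θ / 3) ≤ ε₁ := min_le_left _ _
  have hρ2 : min ε₁ (θ / 3) ≤ θ / 3 := min_le_right _ _
  have hρ0 : 0 ≤ min ε₁ (θ / 3) := (lt_min hε₁ (by positivity)).le
  have hlp := lift_herm hF hL hp hHp
  have hlq := lift_herm hF hL hq hHq
  have hran : LinearMap.range ((J.comp (p.comp E) : X →L[ℂ] X) : X →ₗ[ℂ] X)
      ≤ LinearMap.range (J : ℂ × ℂ →ₗ[ℂ] X) := by
    rintro _ ⟨x, rfl⟩
    exact ⟨p (E x), rfl⟩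
  have hfin : FiniteDimensional ℂ
      (LinearMap.range ((J.comp (p.comp E) : X →L[ℂ] X) : X →ₗ[ℂ] X)) :=
    Submodule.finiteDimensional_of_le hran
  have hdim : Module.finrank ℂ
      (LinearMap.range ((J.comp (p.comp E) : X →L[ℂ] X) : X →ₗ[ℂ] X)) ≤ 2 := by
    refine (Submodule.finrank_mono hran).trans ((LinearMap.finrank_range_le _).trans ?_)
    rw [Module.finrank_prod, Module.finrank_self]
  have hEn : ∀ x, ‖E x‖ ≤ 6 * ‖x‖ := by
    intro x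
    rw [hL.E_def]
    refine (hF.S_norm _).trans ?_
    rw [w.norm_map]
  have hJn : ∀ v, ‖J v‖ ≤ 5 * ‖v‖ := by
    intro v
    rw [← w.norm_map, hL.wJ]
    exact hF.T_norm hφ v
  have hpn : ∀ p : M2, Herm (min ε₁ (θ / 3)) (J.comp (p.comp E)) → ‖p‖ ≤ 60 := by
    intro p hp
    apply ContinuousLinearMap.opNorm_le_bound _ (by norm_num)
    intro v
    have h1 : p v = E ((J.comp (p.comp E)) (J v)) := by
      show p v = E (J (p (E (J v))))
      rw [hL.EJ, hL.EJ]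
    rw [h1]
    calc ‖E ((J.comp (p.comp E)) (J v))‖ ≤ 6 * ‖(J.comp (p.comp E)) (J v)‖ := hEn _
      _ ≤ 6 * (2 * ‖J v‖) := by
          gcongr
          refine (hp.norm_le hρ0 _).trans ?_
          gcongr
          linarith
      _ ≤ 6 * (2 * (5 * ‖v‖)) := by gcongr; exact hJn v
      _ = 60 * ‖v‖ := by ring
  rcases hcomm _ _ (hlp.mono hρ1) (hlq.mono hρ1) hfin hdim with h | h
  · have hc : ‖p * q - q * p‖ ≤ ηc := by
      apply ContinuousLinearMap.opNorm_le_bound _ hηc0.le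
      intro v
      have h1 : (p * q - q * p) v
          = E ((J.comp (p.comp E) * J.comp (q.comp E) - J.comp (q.comp E) * J.comp (p.comp E))
            (J v)) := by
        show p (q v) - q (p v)
          = E (J (p (E (J (q (E (J v)))))) - J (q (E (J (p (E (J v)))))))
        rw [map_sub, hL.EJ, hL.EJ, hL.EJ, hL.EJ, hL.EJ]
      rw [h1]
      calc _ ≤ 6 * ‖(J.comp (p.comp E) * J.comp (q.comp E)
            - J.comp (q.comp E) * J.comp (p.comp E)) (J v)‖ := hEn _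
        _ ≤ 6 * (ηc / 30 * ‖J v‖) := by
            gcongr
            exact (ContinuousLinearMap.le_opNorm _ _).trans (by gcongr)
        _ ≤ 6 * (ηc / 30 * (5 * ‖v‖)) := by gcongr; exact hJn v
        _ = ηc * ‖v‖ := by ring
    have hp60 := hpn p hlp
    have hq60 := hpn q hlq
    have hone : ‖(1 : M2)‖ ≤ 1 := ContinuousLinearMap.norm_id_le
    have h1p : ‖1 - p‖ ≤ 61 := (norm_sub_le _ _).trans (by linarith)
    have := alg2 (K := 61) (η := ηc) (by norm_num) hp hq hp0 hp1 hq0 hq1 (by linarith) h1p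
      (by linarith) hc (by rw [hηc1]; linarith)
    rw [hηc1] at this
    rcases this with h2 | h2
    · exact Or.inl (h2.trans hη'2)
    · exact Or.inr (h2.trans hη'2)
  · exfalso
    refine twin_false hX hF hδ₀ hε0 (θ := θ) (by linarith) (by linarith) (by rw [hθ]; linarith)
      hL hkk' (by linarith) (by linarith) h

end DF72
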