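import Pool.Agent.Lib.MP_df72c7_an.C18

namespace DF72

open Set Filter Topology

/-- The labelling argument on a square grid. -/
theorem grid_contra {M : Type*} [NormedRing M] (N : ℕ) (T : ℕ → ℕ → Set M) {η : ℝ}
    (hη : η < 1 / 8) (hsymm : ∀ i j τ, τ ∈ T i j → 1 - τ ∈ T i j)
    (hsep : ∀ i j, ∀ τ ∈ T i j, 1 ≤ ‖τ - (1 - τ)‖) (hne : ∀ i j, (T i j).Nonempty)
    (h0 : ∀ i j, ∀ τ ∈ T i j, ∀ τ' ∈ T i j, ‖τ - τ'‖ ≤ η ∨ ‖τ - (1 - τ')‖ ≤ η)
    (hx : ∀ i j, ∀ τ ∈ T i j, ∀ τ' ∈ T (i + 1) j, ‖τ - τ'‖ ≤ η ∨ ‖τ - (1 - τ')‖ ≤ η)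
    (hy : ∀ i j, ∀ τ ∈ T i j, ∀ τ' ∈ T i (j + 1), ‖τ - τ'‖ ≤ η ∨ ‖τ - (1 - τ')‖ ≤ η)
    (P3 P2 P1 : ℕ → M) (hP3 : ∀ i, P3 i ∈ T i 0) (hP3c : ∀ i, ‖P3 i - P3 (i + 1)‖ ≤ η)
    (hP2 : ∀ i, P2 i ∈ T i N) (hP2c : ∀ i, ‖P2 i - P2 (i + 1)‖ ≤ η)
    (hP1 : ∀ j, P1 j ∈ T N j) (hP1c : ∀ j, ‖P1 j - P1 (j + 1)‖ ≤ η)
    (hcol : ∀ j, P3 0 ∈ T 0 j) (c1 : P3 0 = 1 - P2 0) (c2 : P3 N = 1 - P1 0)
    (c3 : P2 N = 1 - P1 N) : False := by
  have hη0 : 0 ≤ η := (norm_nonneg _).trans (hP3c 0)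
  -- extension of a label
  have hext : ∀ (i j : ℕ) (τ : T i j), ∃ τ' : T i (j + 1), ‖(τ : M) - τ'‖ ≤ η := by
    rintro i j ⟨τ, hτ⟩
    obtain ⟨τ', hτ'⟩ := hne i (j + 1)
    rcases hy i j τ hτ τ' hτ' with h | h
    · exact ⟨⟨τ', hτ'⟩, h⟩
    · exact ⟨⟨1 - τ', hsymm _ _ _ hτ'⟩, h⟩
  choose nxt hnxt using hext
  let L : ∀ i j, T i j := fun i j =>
    Nat.rec (motive := fun j => T i j) ⟨P3 i, hP3 i⟩ (fun j τ => nxt i j τ) j
  have hL0 : ∀ i, (L i 0 : M) = P3 i := fun i => rfl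
  have hLs : ∀ i j, ‖(L i j : M) - L i (j + 1)‖ ≤ η := fun i j => hnxt i j (L i j)
  -- claim 1
  have claim1 : ∀ j i, ‖(L i j : M) - L (i + 1) j‖ ≤ η := by
    intro j
    induction j with
    | zero => intro i; rw [hL0, hL0]; exact hP3c i
    | succ j ih =>
      intro i
      rcases hx i (j + 1) _ (L i (j + 1)).2 _ (L (i + 1) (j + 1)).2 with h | h
      · exact h
      · exfalso
        have h1 := hsep _ _ _ (L (i + 1) (j + 1)).2
        have h2 : ‖(L (i + 1) (j + 1) : M) - (1 - L (i + 1) (j + 1))‖ ≤ η + η + η + η := by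
          have e : (L (i + 1) (j + 1) : M) - (1 - L (i + 1) (j + 1))
              = -((L (i + 1) j : M) - L (i + 1) (j + 1)) - ((L i j : M) - L (i + 1) j)
                + ((L i j : M) - L i (j + 1))
                + ((L i (j + 1) : M) - (1 - L (i + 1) (j + 1))) := by abel
          rw [e]
          refine norm_add₃_le.trans ?_
          gcongr
          · refine (norm_sub_le _ _).trans ?_
            rw [norm_neg]
            gcongr
            · exact hLs _ _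
            · exact ih i
          · exact hLs _ _
        linarith
  -- claim 2
  have claim2 : ∀ j, ‖(L 0 j : M) - P3 0‖ ≤ η := by
    intro j
    induction j with
    | zero => rw [hL0, sub_self, norm_zero]; exact hη0
    | succ j ih =>
      rcases h0 0 (j + 1) _ (L 0 (j + 1)).2 _ (hcol (j + 1)) with h | h
      · exact h
      · exfalso
        have h1 := hsep _ _ _ (hcol (j + 1))
        have h2 : ‖P3 0 - (1 - P3 0)‖ ≤ η + η + η := by
          have e : P3 0 - (1 - P3 0) = -((L 0 j : M) - P3 0) + ((L 0 j : M) - L 0 (j + 1))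
              + ((L 0 (j + 1) : M) - (1 - P3 0)) := by abel
          rw [e]
          refine norm_add₃_le.trans ?_
          rw [norm_neg]
          gcongr
          exact hLs _ _
        linarith
  -- claim 3
  have claim3 : ∀ i, ‖(L i N : M) - (1 - P2 i)‖ ≤ η := by
    intro i
    induction i with
    | zero => rw [← c1]; exact claim2 N
    | succ i ih =>
      rcases h0 (i + 1) N _ (L (i + 1) N).2 _ (hsymm _ _ _ (hP2 (i + 1))) with h | h
      · exact h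
      · exfalso
        have h1 := hsep _ _ _ (hP2 (i + 1))
        have h2 : ‖P2 (i + 1) - (1 - P2 (i + 1))‖ ≤ η + η + η + η := by
          have e : P2 (i + 1) - (1 - P2 (i + 1))
              = -((L (i + 1) N : M) - (1 - (1 - P2 (i + 1))))
                - ((L i N : M) - L (i + 1) N) + ((L i N : M) - (1 - P2 i))
                + (- (P2 i - P2 (i + 1))) := by abel
          rw [e]
          refine norm_add₃_le.trans ?_
          rw [norm_neg (P2 i - P2 (i + 1))]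
          gcongr
          · refine (norm_sub_le _ _).trans ?_
            rw [norm_neg]
            gcongr
            exact claim1 N i
          · exact hP2c i
        linarith
  -- claim 4
  have claim4 : ∀ j, ‖(L N j : M) - (1 - P1 j)‖ ≤ η := by
    intro j
    induction j with
    | zero => rw [hL0, ← c2, sub_self, norm_zero]; exact hη0
    | succ j ih =>
      rcases h0 N (j + 1) _ (L N (j + 1)).2 _ (hsymm _ _ _ (hP1 (j + 1))) with h | h
      · exact h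
      · exfalso
        have h1 := hsep _ _ _ (hP1 (j + 1))
        have h2 : ‖P1 (j + 1) - (1 - P1 (j + 1))‖ ≤ η + η + η + η := by
          have e : P1 (j + 1) - (1 - P1 (j + 1))
              = -((L N (j + 1) : M) - (1 - (1 - P1 (j + 1))))
                - ((L N j : M) - L N (j + 1)) + ((L N j : M) - (1 - P1 j))
                + (- (P1 j - P1 (j + 1))) := by abel
          rw [e]
          refine norm_add₃_le.trans ?_
          rw [norm_neg (P1 j - P1 (j + 1))]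
          gcongr
          · refine (norm_sub_le _ _).trans ?_
            rw [norm_neg]
            gcongr
            exact hLs N j
          · exact hP1c j
        linarith
  -- conclusion
  have h1 := claim3 N
  have h2 := claim4 N
  rw [c3] at h1
  have h3 := hsep _ _ _ (hP1 N)
  have h4 : ‖P1 N - (1 - P1 N)‖ ≤ η + η := by
    have e : P1 N - (1 - P1 N) = -((L N N : M) - (1 - (1 - P1 N)))
        + ((L N N : M) - (1 - P1 N)) := by abel
    rw [e]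
    refine (norm_add_le _ _).trans ?_
    rw [norm_neg]
    gcongr
  linarith

variable {X : Type*} [NormedAddCommGroup X] [NormedSpace ℂ X]
variable {δ₀ ε : ℝ} {b : ℕ → X} {A : ℕ → X →L[ℂ] X} {f : ℕ → X →L[ℂ] ℂ}

lemma HermT.mono {φ : ℝ × ℝ} {ρ ρ' : ℝ} (h : ρ ≤ ρ') {A₃ : X →L[ℂ] X} {p : M2}
    (hH : HermT b A₃ φ ρ p) : HermT b A₃ φ ρ' p :=
  fun χ hχ v z hz => (hH χ hχ v z hz).trans (by gcongr)

lemma cc_diff {φ φ' : ℝ × ℝ} {d : ℝ} (h1 : |φ.1 - φ'.1| ≤ d) (h2 : |φ.2 - φ'.2| ≤ d)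
    (v : ℂ × ℂ) : ‖cc φ v - cc φ' v‖ ≤ 2 * d * ‖v‖ := by
  rw [cc_apply, cc_apply]
  have e : -((φ.1 : ℂ) * v.1 + (φ.2 : ℂ) * v.2) - -((φ'.1 : ℂ) * v.1 + (φ'.2 : ℂ) * v.2)
      = -(((φ.1 - φ'.1 : ℝ) : ℂ) * v.1 + ((φ.2 - φ'.2 : ℝ) : ℂ) * v.2) := by
    push_cast; ring
  rw [e, norm_neg]
  have h3 : ‖v.1‖ ≤ ‖v‖ := norm_fst_le v
  have h4 : ‖v.2‖ ≤ ‖v‖ := norm_snd_le v
  have hd : 0 ≤ d := (abs_nonneg _).trans h1
  calc _ ≤ |φ.1 - φ'.1| * ‖v.1‖ + |φ.2 - φ'.2| * ‖v.2‖ := by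
        refine (norm_add_le _ _).trans ?_
        rw [norm_mul, norm_mul, Complex.norm_real, Complex.norm_real, Real.norm_eq_abs,
          Real.norm_eq_abs]
    _ ≤ d * ‖v‖ + d * ‖v‖ := by gcongr
    _ = _ := by ring

lemma Frame.T_diff (hF : Frame δ₀ ε b A f) {φ φ' : ℝ × ℝ} {d : ℝ} (h1 : |φ.1 - φ'.1| ≤ d)
    (h2 : |φ.2 - φ'.2| ≤ d) (v : ℂ × ℂ) : ‖Tp b φ v - Tp b φ' v‖ ≤ 6 * d * ‖v‖ := by
  have e : Tp b φ v - Tp b φ' v = (cc φ v - cc φ' v) • (b 0 + b 1 + b 2) := by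
    rw [Tp_apply, Tp_apply]; module
  have h3 : ‖b 0 + b 1 + b 2‖ ≤ 3 := by
    refine norm_add₃_le.trans ?_
    rw [hF.norm_one, hF.norm_one, hF.norm_one]; norm_num
  have h4 := cc_diff h1 h2 v
  have hd : 0 ≤ d := (abs_nonneg _).trans h1
  rw [e, norm_smul]
  calc _ ≤ 2 * d * ‖v‖ * 3 := by gcongr
    _ = _ := by ring

lemma HermT.cont (hF : Frame δ₀ ε b A f) {φ φ' : ℝ × ℝ} (hφ : Simp φ) {ρ : ℝ}
    (hρ0 : 0 ≤ ρ) (hρ : ρ ≤ 1) {p : M2} (hH : HermT b (A 3) φ ρ p) {d : ℝ}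
    (h1 : |φ.1 - φ'.1| ≤ d) (h2 : |φ.2 - φ'.2| ≤ d) : HermT b (A 3) φ' (ρ + 5000 * d) p := by
  have hd : 0 ≤ d := (abs_nonneg _).trans h1
  have hpn : ∀ v, ‖p v‖ ≤ 45 * ‖v‖ := by
    intro v
    have h3 := hH (-1) (by simp) v 0 (map_zero _)
    rw [add_zero, add_zero] at h3
    have h4 : (2 : ℂ) • Tp b φ (p v) = Tp b φ v - Tp b φ (v + (-1 - 1 : ℂ) • p v) := by
      rw [map_add, map_smul]; module
    have h5 : ‖(2 : ℂ) • Tp b φ (p v)‖ ≤ ‖Tp b φ v‖ + (1 + ρ) * ‖Tp b φ v‖ := by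
      rw [h4]
      exact (norm_sub_le _ _).trans (by gcongr)
    rw [norm_smul, Complex.norm_ofNat] at h5
    have h6 := hF.T_norm hφ v
    have h7 := hF.v_norm φ (p v) (map_zero (A 3))
    rw [add_zero] at h7
    have h8 := norm_nonneg (Tp b φ v)
    nlinarith
  intro χ hχ v z hz
  set u := v + (χ - 1) • p v with hu
  have hun : ‖u‖ ≤ 91 * ‖v‖ := by
    have hχn : ‖χ - 1‖ ≤ 2 := by
      refine (norm_sub_le _ _).trans ?_
      rw [hχ, norm_one]; norm_num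
    calc ‖u‖ ≤ ‖v‖ + ‖χ - 1‖ * ‖p v‖ := by
          rw [hu]
          refine (norm_add_le _ _).trans ?_
          rw [norm_smul]
      _ ≤ ‖v‖ + 2 * (45 * ‖v‖) := by gcongr; exact hpn v
      _ = _ := by ring
  have h3 := hH χ hχ v z hz
  rw [← hu] at h3
  have h4 : ‖Tp b φ' u + z‖ ≤ ‖Tp b φ u + z‖ + 6 * d * ‖u‖ := by
    have e : Tp b φ' u + z = (Tp b φ u + z) - (Tp b φ u - Tp b φ' u) := by abel
    rw [e]
    exact (norm_sub_le _ _).trans (by gcongr; exact hF.T_diff h1 h2 u)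
  have h5 : ‖Tp b φ v + z‖ ≤ ‖Tp b φ' v + z‖ + 6 * d * ‖v‖ := by
    have e : Tp b φ v + z = (Tp b φ' v + z) + (Tp b φ v - Tp b φ' v) := by abel
    rw [e]
    exact (norm_add_le _ _).trans (by gcongr; exact hF.T_diff h1 h2 v)
  have h6 := hF.v_norm φ' v hz
  have h7 := norm_nonneg (Tp b φ' v + z)
  calc ‖Tp b φ' u + z‖ ≤ ‖Tp b φ u + z‖ + 6 * d * ‖u‖ := h4
    _ ≤ (1 + ρ) * ‖Tp b φ v + z‖ + 6 * d * (91 * ‖v‖) := by gcongr
    _ ≤ (1 + ρ) * (‖Tp b φ' v + z‖ + 6 * d * ‖v‖) + 6 * d * (91 * ‖v‖) := by gcongr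
    _ = (1 + ρ) * ‖Tp b φ' v + z‖ + (6 * (1 + ρ) + 546) * (d * ‖v‖) := by ring
    _ ≤ (1 + ρ) * ‖Tp b φ' v + z‖ + (6 * (1 + 1) + 546) * (d * (6 * ‖Tp b φ' v + z‖)) := by
        gcongr
    _ ≤ (1 + (ρ + 5000 * d)) * ‖Tp b φ' v + z‖ := by
        have : 0 ≤ d * ‖Tp b φ' v + z‖ := mul_nonneg hd h7
        nlinarith

lemma herm_edge (hF : Frame δ₀ ε b A f) (hε0 : 0 ≤ ε) (hε1 : ε ≤ 1) {φ : ℝ × ℝ} {p : M2} {i : ℕ}
    (hi : ∀ z, A 3 z = 0 → f i z = 0) (h : ∀ v, Tp b φ (p v) = f i (Tp b φ v) • b i) :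
    HermT b (A 3) φ (3 * ε) p := by
  intro χ hχ v z hz
  have h1 := hF.herm_a hε0 hε1 i hχ (Tp b φ v + z)
  have h2 : Tp b φ v + z + ((χ - 1) * f i (Tp b φ v + z)) • b i
      = Tp b φ (v + (χ - 1) • p v) + z := by
    rw [map_add (f i), hi z hz, add_zero, map_add (Tp b φ), map_smul, h, smul_smul]
    abel
  rw [h2] at h1
  exact h1

/-- the third edge idempotent -/
noncomputable def E3 (φ : ℝ × ℝ) : M2 := (-cc φ).smulRight (1, 1)
/-- the second edge idempotent -/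
noncomputable def E2 (φ : ℝ × ℝ) : M2 :=
  (ContinuousLinearMap.snd ℂ ℂ ℂ + cc φ).smulRight (0, 1)
/-- the first edge idempotent -/
noncomputable def E1 (φ : ℝ × ℝ) : M2 :=
  (ContinuousLinearMap.fst ℂ ℂ ℂ + cc φ).smulRight (1, 0)

lemma E3_apply (φ : ℝ × ℝ) (v : ℂ × ℂ) : E3 φ v = (-(cc φ v), -(cc φ v)) := by
  show (-(cc φ v)) • ((1 : ℂ), (1 : ℂ)) = _
  simp
lemma E2_apply (φ : ℝ × ℝ) (v : ℂ × ℂ) : E2 φ v = (0, v.2 + cc φ v) := by
  show (v.2 + cc φ v) • ((0 : ℂ), (1 : ℂ)) = _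
  simp
lemma E1_apply (φ : ℝ × ℝ) (v : ℂ × ℂ) : E1 φ v = (v.1 + cc φ v, 0) := by
  show (v.1 + cc φ v) • ((1 : ℂ), (0 : ℂ)) = _
  simp

/-- nontrivial idempotent, almost hermitian -/
def GoodP (b : ℕ → X) (A₃ : X →L[ℂ] X) (φ : ℝ × ℝ) (ρ : ℝ) (p : M2) : Prop :=
  p * p = p ∧ p ≠ 0 ∧ p ≠ 1 ∧ HermT b A₃ φ ρ p

lemma good_E3 (hF : Frame δ₀ ε b A f) (hε0 : 0 ≤ ε) (hε1 : ε ≤ 1) {φ : ℝ × ℝ}
    (hφ : φ.1 + φ.2 = 1) : GoodP b (A 3) φ (3 * ε) (E3 φ) := by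
  have hφ' : (φ.1 : ℂ) + (φ.2 : ℂ) = 1 := by exact_mod_cast hφ
  refine ⟨?_, ?_, ?_, ?_⟩
  · apply ContinuousLinearMap.ext
    intro v
    show E3 φ (E3 φ v) = E3 φ v
    rw [E3_apply φ (E3 φ v), E3_apply, cc_apply φ (_, _)]
    ext <;> simp only <;> linear_combination (-(cc φ v)) * hφ'
  · intro h
    have h1 : E3 φ (1, 1) = 0 := by rw [h]; rfl
    rw [E3_apply, cc_apply] at h1
    have h2 := congrArg Prod.fst h1
    simp only [mul_one, neg_neg, Prod.fst_zero] at h2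
    rw [hφ'] at h2
    exact one_ne_zero h2
  · intro h
    have h1 : E3 φ (1, 0) = (1, 0) := by rw [h]; rfl
    rw [E3_apply] at h1
    have h2 := congrArg Prod.fst h1
    have h3 := congrArg Prod.snd h1
    simp only at h2 h3
    rw [h2] at h3
    exact one_ne_zero h3
  · apply herm_edge hF hε0 hε1 (i := 2)
    · intro z hz
      rw [← hF.f2A, hz, map_zero]
    · intro v
      rw [hF.f2T, E3_apply, Tp_apply]
      simp only [cc_apply φ (-(cc φ v), -(cc φ v))]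
      have e : -((φ.1 : ℂ) * -(cc φ v) + (φ.2 : ℂ) * -(cc φ v)) = cc φ v := by
        linear_combination (cc φ v) * hφ'
      rw [e]
      simp

lemma good_E2 (hF : Frame δ₀ ε b A f) (hε0 : 0 ≤ ε) (hε1 : ε ≤ 1) {φ : ℝ × ℝ}
    (hφ : φ.2 = 0) : GoodP b (A 3) φ (3 * ε) (E2 φ) := by
  have hcc : ∀ v : ℂ × ℂ, cc φ v = -((φ.1 : ℂ) * v.1) := by
    intro v; rw [cc_apply, hφ]; simp
  refine ⟨?_, ?_, ?_, ?_⟩
  · apply ContinuousLinearMap.ext
    intro v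
    show E2 φ (E2 φ v) = E2 φ v
    rw [E2_apply φ (E2 φ v), E2_apply]
    simp [hcc]
  · intro h
    have h1 : E2 φ (0, 1) = 0 := by rw [h]; rfl
    rw [E2_apply, hcc] at h1
    have h2 := congrArg Prod.snd h1
    simp at h2
  · intro h
    have h1 : E2 φ (1, 0) = (1, 0) := by rw [h]; rfl
    rw [E2_apply] at h1
    have h2 := congrArg Prod.fst h1
    simp at h2
  · apply herm_edge hF hε0 hε1 (i := 1)
    · intro z hz
      rw [← hF.f1A, hz, map_zero]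
    · intro v
      rw [hF.f1T, E2_apply, Tp_apply]
      simp only [hcc (0, v.2 + cc φ v)]
      simp

lemma good_E1 (hF : Frame δ₀ ε b A f) (hε0 : 0 ≤ ε) (hε1 : ε ≤ 1) {φ : ℝ × ℝ}
    (hφ : φ.1 = 0) : GoodP b (A 3) φ (3 * ε) (E1 φ) := by
  have hcc : ∀ v : ℂ × ℂ, cc φ v = -((φ.2 : ℂ) * v.2) := by
    intro v; rw [cc_apply, hφ]; simp
  refine ⟨?_, ?_, ?_, ?_⟩
  · apply ContinuousLinearMap.ext
    intro v
    show E1 φ (E1 φ v) = E1 φ v
    rw [E1_apply φ (E1 φ v), E1_apply]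
    simp [hcc]
  · intro h
    have h1 : E1 φ (1, 0) = 0 := by rw [h]; rfl
    rw [E1_apply, hcc] at h1
    have h2 := congrArg Prod.fst h1
    simp at h2
  · intro h
    have h1 : E1 φ (0, 1) = (0, 1) := by rw [h]; rfl
    rw [E1_apply] at h1
    have h2 := congrArg Prod.snd h1
    simp at h2
  · apply herm_edge hF hε0 hε1 (i := 0)
    · intro z hz
      rw [← hF.f0A, hz, map_zero]
    · intro v
      rw [hF.f0T, E1_apply, Tp_apply]
      simp only [hcc (v.1 + cc φ v, 0)]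
      simp

lemma E_diff {φ φ' : ℝ × ℝ} {d : ℝ} (h1 : |φ.1 - φ'.1| ≤ d) (h2 : |φ.2 - φ'.2| ≤ d) :
    ‖E3 φ - E3 φ'‖ ≤ 2 * d ∧ ‖E2 φ - E2 φ'‖ ≤ 2 * d ∧ ‖E1 φ - E1 φ'‖ ≤ 2 * d := by
  have hd : 0 ≤ d := (abs_nonneg _).trans h1
  refine ⟨?_, ?_, ?_⟩
  · apply ContinuousLinearMap.opNorm_le_bound _ (by positivity)
    intro v
    show ‖E3 φ v - E3 φ' v‖ ≤ _
    rw [E3_apply, E3_apply, Prod.norm_def]
    have h3 := cc_diff h1 h2 v
    simp only [Prod.fst_sub, Prod.snd_sub]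
    have e : -(cc φ v) - -(cc φ' v) = -(cc φ v - cc φ' v) := by ring
    rw [e, norm_neg, max_self]
    exact h3
  · apply ContinuousLinearMap.opNorm_le_bound _ (by positivity)
    intro v
    show ‖E2 φ v - E2 φ' v‖ ≤ _
    rw [E2_apply, E2_apply, Prod.norm_def]
    have h3 := cc_diff h1 h2 v
    simp only [Prod.fst_sub, Prod.snd_sub, sub_zero, norm_zero]
    have e : v.2 + cc φ v - (v.2 + cc φ' v) = cc φ v - cc φ' v := by ring
    rw [e]
    exact max_le ((norm_nonneg _).trans h3) h3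
  · apply ContinuousLinearMap.opNorm_le_bound _ (by positivity)
    intro v
    show ‖E1 φ v - E1 φ' v‖ ≤ _
    rw [E1_apply, E1_apply, Prod.norm_def]
    have h3 := cc_diff h1 h2 v
    simp only [Prod.fst_sub, Prod.snd_sub, sub_zero, norm_zero]
    have e : v.1 + cc φ v - (v.1 + cc φ' v) = cc φ v - cc φ' v := by ring
    rw [e]
    exact max_le h3 ((norm_nonneg _).trans h3)

lemma corner1 : E3 (1, 0) = 1 - E2 (1, 0) := by
  apply ContinuousLinearMap.ext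
  intro v
  show E3 (1, 0) v = v - E2 (1, 0) v
  rw [E3_apply, E2_apply, cc_apply]
  ext <;> simp

lemma corner2 : E3 (0, 1) = 1 - E1 (0, 1) := by
  apply ContinuousLinearMap.ext
  intro v
  show E3 (0, 1) v = v - E1 (0, 1) v
  rw [E3_apply, E1_apply, cc_apply]
  ext <;> simp

lemma corner3 : E2 (0, 0) = 1 - E1 (0, 0) := by
  apply ContinuousLinearMap.ext
  intro v
  show E2 (0, 0) v = v - E1 (0, 0) v
  rw [E2_apply, E1_apply, cc_apply]
  ext <;> simp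

end DF72
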