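import Pool.Agent.Lib.MP_df72c7_an.C1

namespace DF72

open Set Filter Topology

variable {𝕜 : Type*} [RCLike 𝕜] {X : Type*} [NormedAddCommGroup X] [NormedSpace 𝕜 X]

lemma range_comp_eq (h l : X →ₗᵢ[𝕜] X) : LinearMap.range (h.comp l).toLinearMap
    = (LinearMap.range l.toLinearMap).map h.toLinearMap := by
  ext y
  constructor
  · rintro ⟨x, rfl⟩
    exact ⟨l x, ⟨x, rfl⟩, rfl⟩
  · rintro ⟨_, ⟨x, rfl⟩, rfl⟩
    exact ⟨x, rfl⟩

lemma map_comap_of_le (e : X →ₗᵢ[𝕜] X) {Z : Submodule 𝕜 X}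
    (h : Z ≤ LinearMap.range e.toLinearMap) :
    (Z.comap e.toLinearMap).map e.toLinearMap = Z := by
  rw [Submodule.map_comap_eq, inf_eq_right]
  exact h

lemma comap_closed (e : X →ₗᵢ[𝕜] X) {Z : Submodule 𝕜 X} (h : IsClosed (Z : Set X)) :
    IsClosed ((Z.comap e.toLinearMap : Submodule 𝕜 X) : Set X) :=
  h.preimage e.continuous

/-- **Stability.** -/
theorem stab [CompleteSpace X] [TopologicalSpace.SeparableSpace X] (hom : IsoHom 𝕜 X)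
    (hX : ¬ FiniteDimensional 𝕜 X) {x : X} (hx : ‖x‖ = 1) {δ δ' : ℝ} (h0 : 0 ≤ δ')
    (hδ : δ' < δ) (hδ1 : δ ≤ 1) {Z₀ : Submodule 𝕜 X} (hZ₀c : IsClosed (Z₀ : Set X))
    (hZ₀f : ¬ Z₀.FG) (hB : ¬ Part 𝕜 δ x Z₀) {Z : Submodule 𝕜 X} (hZc : IsClosed (Z : Set X))
    (hZf : ¬ Z.FG) : ∃ Z' ≤ Z, IsClosed (Z' : Set X) ∧ ¬ Z'.FG ∧ ¬ Part 𝕜 δ' x Z' := by
  set η : ℝ := min (1 / 12) ((δ - δ') / 48) with hη
  have hη0 : 0 < η := lt_min (by norm_num) (by linarith)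
  have hη1 : η ≤ 1 / 12 := min_le_left _ _
  have hη2 : 12 * η ≤ (δ - δ') / 2 := by
    have : η ≤ (δ - δ') / 48 := min_le_right _ _
    linarith
  set δ'' : ℝ := (δ + δ') / 2 with hδ''
  have : Nonempty (Metric.sphere (0 : X) 1) := ⟨⟨x, by simp [hx]⟩⟩
  let d : ℕ → Metric.sphere (0 : X) 1 := TopologicalSpace.denseSeq _
  have hd1 : ∀ n, ‖(d n : X)‖ = 1 := fun n => by
    have := (d n).2
    simpa using this
  obtain ⟨h, hh⟩ := fusion hom hX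
    (fun n l => ¬ Part 𝕜 δ'' (d n : X) (LinearMap.range l.toLinearMap))
    (fun n f k hg hp => hg (hp.mono_right (by
      rintro _ ⟨z, rfl⟩
      exact ⟨k z, rfl⟩)))
  have hhx : h x ∈ Metric.sphere (0 : X) 1 := by simp [hx]
  obtain ⟨n, hn⟩ := DenseRange.exists_dist_lt
    (TopologicalSpace.denseRange_denseSeq (Metric.sphere (0 : X) 1)) ⟨h x, hhx⟩ hη0
  have hn' : ‖h x - (d n : X)‖ ≤ η := by
    rw [Subtype.dist_eq, dist_eq_norm] at hn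
    exact hn.le
  have hn'' : ‖(d n : X) - h x‖ ≤ η := by rwa [norm_sub_rev]
  rcases hh n with h1 | h2
  · obtain ⟨k, hk⟩ := hom Z hZc hZf
    obtain ⟨g, hg⟩ := h1 k
    refine ⟨LinearMap.range (k.comp g).toLinearMap, ?_, range_isClosed _, range_not_fg hX _, ?_⟩
    · rw [← hk]
      rintro _ ⟨y, rfl⟩
      exact ⟨g y, rfl⟩
    · intro hp
      apply hg
      have h3 : LinearMap.range ((h.comp k).comp g).toLinearMap
          = (LinearMap.range (k.comp g).toLinearMap).map h.toLinearMap := by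
        rw [← range_comp_eq]; rfl
      rw [h3]
      have h4 := (part_map_iff h).2 hp
      refine (h4.near h0 (by linarith) hη1 (by rw [h.norm_map, hx]) hn'').mono ?_
      linarith
  · exfalso
    obtain ⟨k₀, hk₀⟩ := hom Z₀ hZ₀c hZ₀f
    apply h2 k₀
    refine ⟨LinearIsometry.id, fun hp => hB ?_⟩
    rw [← part_map_iff h]
    have h3 : LinearMap.range ((h.comp k₀).comp LinearIsometry.id).toLinearMap
        = Z₀.map h.toLinearMap := by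
      rw [← hk₀, ← range_comp_eq]; rfl
    rw [h3] at hp
    refine (hp.near (by linarith) (by linarith) hη1 (hd1 n) hn').mono ?_
    linarith

/-- the isolation level -/
noncomputable def Lev (𝕜 : Type*) [RCLike 𝕜] {X : Type*} [NormedAddCommGroup X]
    [NormedSpace 𝕜 X] (x : X) : ℝ :=
  sSup {δ : ℝ | 0 ≤ δ ∧ δ ≤ 1 ∧ ∃ Z : Submodule 𝕜 X, IsClosed (Z : Set X) ∧ ¬ Z.FG ∧
    ¬ Part 𝕜 δ x Z}

lemma lev_bdd (x : X) : BddAbove {δ : ℝ | 0 ≤ δ ∧ δ ≤ 1 ∧ ∃ Z : Submodule 𝕜 X,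
    IsClosed (Z : Set X) ∧ ¬ Z.FG ∧ ¬ Part 𝕜 δ x Z} :=
  ⟨1, fun _ h => h.2.1⟩

lemma lev_nonneg (x : X) : 0 ≤ Lev 𝕜 x := Real.sSup_nonneg fun _ h => h.1

lemma lev_le_one (x : X) : Lev 𝕜 x ≤ 1 := Real.sSup_le (fun _ h => h.2.1) zero_le_one

lemma le_lev {x : X} {δ : ℝ} (h0 : 0 ≤ δ) (h1 : δ ≤ 1) {Z : Submodule 𝕜 X}
    (hZc : IsClosed (Z : Set X)) (hZf : ¬ Z.FG) (h : ¬ Part 𝕜 δ x Z) : δ ≤ Lev 𝕜 x :=
  le_csSup (lev_bdd x) ⟨h0, h1, Z, hZc, hZf, h⟩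

lemma exists_of_lt_lev {x : X} {δ : ℝ} (h0 : 0 ≤ δ) (h : δ < Lev 𝕜 x) :
    ∃ Z : Submodule 𝕜 X, IsClosed (Z : Set X) ∧ ¬ Z.FG ∧ ¬ Part 𝕜 δ x Z := by
  have hne : {δ : ℝ | 0 ≤ δ ∧ δ ≤ 1 ∧ ∃ Z : Submodule 𝕜 X,
      IsClosed (Z : Set X) ∧ ¬ Z.FG ∧ ¬ Part 𝕜 δ x Z}.Nonempty := by
    by_contra hcon
    rw [Set.not_nonempty_iff_eq_empty] at hcon
    rw [Lev, hcon, Real.sSup_empty] at h
    linarith
  obtain ⟨δ', ⟨-, -, Z, hZc, hZf, hZ⟩, hδ'⟩ := exists_lt_of_lt_csSup hne h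
  exact ⟨Z, hZc, hZf, fun hp => hZ (hp.mono hδ'.le)⟩

lemma stab_lev [CompleteSpace X] [TopologicalSpace.SeparableSpace X] (hom : IsoHom 𝕜 X)
    (hX : ¬ FiniteDimensional 𝕜 X) {x : X} (hx : ‖x‖ = 1) {δ : ℝ} (h0 : 0 ≤ δ)
    (hδ : δ < Lev 𝕜 x) {Z : Submodule 𝕜 X} (hZc : IsClosed (Z : Set X)) (hZf : ¬ Z.FG) :
    ∃ Z' ≤ Z, IsClosed (Z' : Set X) ∧ ¬ Z'.FG ∧ ¬ Part 𝕜 δ x Z' := by
  obtain ⟨δ₁, h1, h2⟩ := exists_between hδ
  obtain ⟨Z₀, hZ₀c, hZ₀f, hB⟩ := exists_of_lt_lev (h0.trans h1.le) h2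
  exact stab hom hX hx h0 h1 (h2.le.trans (lev_le_one x)) hZ₀c hZ₀f hB hZc hZf

lemma lev_isom [CompleteSpace X] [TopologicalSpace.SeparableSpace X] (hom : IsoHom 𝕜 X)
    (hX : ¬ FiniteDimensional 𝕜 X) (e : X →ₗᵢ[𝕜] X) {x : X} (hx : ‖x‖ = 1) :
    Lev 𝕜 (e x) = Lev 𝕜 x := by
  apply le_antisymm
  · apply le_of_forall_lt
    intro δ hδ
    by_cases h0 : 0 ≤ δ
    · obtain ⟨δ₁, h1, h2⟩ := exists_between hδ
      obtain ⟨Z', hZ'e, hZ'c, hZ'f, hB⟩ := stab_lev hom hX (by rw [e.norm_map, hx])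
        (h0.trans h1.le) h2 (range_isClosed e) (range_not_fg hX e)
      refine lt_of_lt_of_le h1 (le_lev (h0.trans h1.le) (h2.le.trans (lev_le_one _))
        (comap_closed e hZ'c) ?_ ?_)
      · rw [← fg_map_iff e, map_comap_of_le e hZ'e]; exact hZ'f
      · rw [← part_map_iff e, map_comap_of_le e hZ'e]; exact hB
    · push Not at h0
      exact lt_of_lt_of_le h0 (lev_nonneg x)
  · apply le_of_forall_lt
    intro δ hδ
    by_cases h0 : 0 ≤ δ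
    · obtain ⟨δ₁, h1, h2⟩ := exists_between hδ
      obtain ⟨Z, hZc, hZf, hB⟩ := exists_of_lt_lev (h0.trans h1.le) h2
      refine lt_of_lt_of_le h1 (le_lev (h0.trans h1.le) (h2.le.trans (lev_le_one _))
        (Z := Z.map e.toLinearMap) ?_ ?_ ?_)
      · have := e.isometry.isClosedEmbedding.isClosedMap _ hZc
        simpa using this
      · rw [fg_map_iff]; exact hZf
      · rw [part_map_iff]; exact hB
    · push Not at h0
      exact lt_of_lt_of_le h0 (lev_nonneg _)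

lemma lev_phase {x : X} {u : 𝕜} (hu : ‖u‖ = 1) : Lev 𝕜 (u • x) = Lev 𝕜 x := by
  have hu0 : u ≠ 0 := by rintro rfl; simp at hu
  have key : ∀ (δ : ℝ) (Z : Submodule 𝕜 X), Part 𝕜 δ (u • x) Z ↔ Part 𝕜 δ x Z := by
    intro δ Z
    constructor
    · intro h
      have h1 := part_phase (u := u⁻¹) (by rw [norm_inv, hu, inv_one]) h
      rwa [smul_smul, inv_mul_cancel₀ hu0, one_smul] at h1
    · exact part_phase hu
  unfold Lev
  simp only [key]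

lemma lev_lip {x y : X} (hx : ‖x‖ = 1) (hxy : ‖x - y‖ ≤ 1 / 12) :
    Lev 𝕜 y ≤ Lev 𝕜 x + 12 * ‖x - y‖ := by
  apply le_of_forall_lt
  intro δ hδ
  by_cases h0 : 0 ≤ δ - 12 * ‖x - y‖
  · obtain ⟨δ₁, h1, h2⟩ := exists_between hδ
    have hn := norm_nonneg (x - y)
    obtain ⟨Z, hZc, hZf, hB⟩ := exists_of_lt_lev (x := y) (δ := δ₁) (by linarith) h2
    have h3 := le_lev (x := x) (δ := δ₁ - 12 * ‖x - y‖) (by linarith)
      (by linarith [lev_le_one (𝕜 := 𝕜) y]) hZc hZf (fun hp => hB (by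
        have := hp.near (x := y) (by linarith) (by linarith [lev_le_one (𝕜 := 𝕜) y]) hxy hx
          (by rw [norm_sub_rev])
        refine this.mono ?_
        linarith))
    linarith
  · push Not at h0
    have := lev_nonneg (𝕜 := 𝕜) x
    linarith

end DF72
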