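import Pool.Agent.Lib.MP_df72c7_an.C19

namespace DF72

open Set Filter Topology

lemma sep_idem {B : Type*} [NormedRing B] [NormOneClass B] {p : B} (hp : p * p = p) :
    1 ≤ ‖p - (1 - p)‖ := by
  have h1 : (p - (1 - p)) * (p - (1 - p)) = 1 := by
    have : (p - (1 - p)) * (p - (1 - p)) = 4 * (p * p) - 4 * p + 1 := by noncomm_ring
    rw [this, hp]; noncomm_ring
  have h2 : (1 : ℝ) ≤ ‖p - (1 - p)‖ * ‖p - (1 - p)‖ := by
    calc (1 : ℝ) = ‖(p - (1 - p)) * (p - (1 - p))‖ := by rw [h1, norm_one]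
      _ ≤ _ := norm_mul_le _ _
  by_contra h
  push Not at h
  have := norm_nonneg (p - (1 - p))
  nlinarith

lemma dich_label {B : Type*} [NormedRing B] {p q τ τ' : B} {η : ℝ}
    (h : ‖p - q‖ ≤ η ∨ ‖p - (1 - q)‖ ≤ η) (hτ : τ = p ∨ τ = 1 - p) (hτ' : τ' = q ∨ τ' = 1 - q) :
    ‖τ - τ'‖ ≤ η ∨ ‖τ - (1 - τ')‖ ≤ η := by
  have e1 : ‖(1 - p) - (1 - q)‖ = ‖p - q‖ := by
    have : (1 - p) - (1 - q) = -(p - q) := by abel
    rw [this, norm_neg]
  have e2 : ‖(1 - p) - q‖ = ‖p - (1 - q)‖ := by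
    have : (1 - p) - q = -(p - (1 - q)) := by abel
    rw [this, norm_neg]
  have e3 : 1 - (1 - q) = q := by abel
  rcases hτ with hτ | hτ <;> rcases hτ' with hτ' | hτ'
  · rw [hτ, hτ']; exact h
  · rw [hτ, hτ', e3]; exact h.symm
  · rw [hτ, hτ', e1, e2]; exact h.symm
  · rw [hτ, hτ', e3, e1, e2]; exact h

/-- grid coordinate -/
noncomputable def gx (N i : ℕ) : ℝ := min ((i : ℝ) / N) 1

lemma gx_nonneg (N i : ℕ) : 0 ≤ gx N i := le_min (by positivity) zero_le_one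

lemma gx_le_one (N i : ℕ) : gx N i ≤ 1 := min_le_right _ _

lemma gx_zero (N : ℕ) : gx N 0 = 0 := by simp [gx]

lemma gx_self {N : ℕ} (hN : 0 < N) : gx N N = 1 := by
  have : (N : ℝ) ≠ 0 := by exact_mod_cast hN.ne'
  simp [gx, div_self this]

lemma gx_step {N : ℕ} (hN : 0 < N) (i : ℕ) : |gx N i - gx N (i + 1)| ≤ 1 / N := by
  have hN' : (0 : ℝ) < N := by exact_mod_cast hN
  have h1 : ((i + 1 : ℕ) : ℝ) / N = (i : ℝ) / N + 1 / N := by push_cast; ring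
  unfold gx
  rw [h1]
  have h2 : 0 < 1 / (N : ℝ) := by positivity
  refine (abs_min_sub_min_le_max _ _ _ _).trans ?_
  apply max_le
  · rw [abs_le]; constructor <;> linarith
  · rw [sub_self, abs_zero]; exact h2.le

/-- grid point in the simplex -/
noncomputable def gp (N i j : ℕ) : ℝ × ℝ := (1 - gx N i, gx N i * (1 - gx N j))

lemma gp_simp (N i j : ℕ) : Simp (gp N i j) := by
  have h1 := gx_nonneg N i
  have h2 := gx_le_one N i
  have h3 := gx_nonneg N j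
  have h4 := gx_le_one N j
  refine ⟨?_, ?_, ?_⟩
  · show 0 ≤ 1 - gx N i
    linarith
  · show 0 ≤ gx N i * (1 - gx N j)
    exact mul_nonneg h1 (by linarith)
  · show 1 - gx N i + gx N i * (1 - gx N j) ≤ 1
    nlinarith [mul_nonneg h1 h3]

lemma gp_x {N : ℕ} (hN : 0 < N) (i j : ℕ) : |(gp N i j).1 - (gp N (i + 1) j).1| ≤ 1 / N ∧
    |(gp N i j).2 - (gp N (i + 1) j).2| ≤ 1 / N := by
  have h1 := gx_step hN i
  have h3 := gx_nonneg N j
  have h4 := gx_le_one N j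
  constructor
  · show |(1 - gx N i) - (1 - gx N (i + 1))| ≤ _
    have : (1 - gx N i) - (1 - gx N (i + 1)) = -(gx N i - gx N (i + 1)) := by ring
    rw [this, abs_neg]; exact h1
  · show |gx N i * (1 - gx N j) - gx N (i + 1) * (1 - gx N j)| ≤ _
    have : gx N i * (1 - gx N j) - gx N (i + 1) * (1 - gx N j)
        = (gx N i - gx N (i + 1)) * (1 - gx N j) := by ring
    rw [this, abs_mul, abs_of_nonneg (by linarith : 0 ≤ 1 - gx N j)]
    calc |gx N i - gx N (i + 1)| * (1 - gx N j) ≤ 1 / N * 1 := by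
          gcongr
          linarith
      _ = 1 / N := by ring

lemma gp_y {N : ℕ} (hN : 0 < N) (i j : ℕ) : |(gp N i j).1 - (gp N i (j + 1)).1| ≤ 1 / N ∧
    |(gp N i j).2 - (gp N i (j + 1)).2| ≤ 1 / N := by
  have hN' : (0 : ℝ) < N := by exact_mod_cast hN
  have h1 := gx_step hN j
  have h3 := gx_nonneg N i
  have h4 := gx_le_one N i
  constructor
  · show |(1 - gx N i) - (1 - gx N i)| ≤ _
    rw [sub_self, abs_zero]
    positivity
  · show |gx N i * (1 - gx N j) - gx N i * (1 - gx N (j + 1))| ≤ _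
    have : gx N i * (1 - gx N j) - gx N i * (1 - gx N (j + 1))
        = -(gx N i * (gx N j - gx N (j + 1))) := by ring
    rw [this, abs_neg, abs_mul, abs_of_nonneg h3]
    calc gx N i * |gx N j - gx N (j + 1)| ≤ 1 * (1 / N) := by gcongr
      _ = 1 / N := by ring

variable {X : Type*} [NormedAddCommGroup X] [NormedSpace ℂ X]

/-- there are no frames with small constants -/
theorem frame_false [CompleteSpace X] [TopologicalSpace.SeparableSpace X] (hom : IsoHom ℂ X)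
    (hX : ¬ FiniteDimensional ℂ X) {δ₀ : ℝ} (hδ₀ : 0 < δ₀) (hδ₁ : δ₀ ≤ 1) :
    ∃ ε > 0, ε ≤ 1 / 2 ∧ ∀ (b : ℕ → X) (A : ℕ → X →L[ℂ] X) (f : ℕ → X →L[ℂ] ℂ),
      Frame δ₀ ε b A f → False := by
  obtain ⟨ρ₀, hρ₀, huniq⟩ := uniq_herm X hX hδ₀ hδ₁ (η₂ := 1 / 16) (by norm_num)
  set ρ : ℝ := min ρ₀ 1 with hρ
  have hρpos : 0 < ρ := lt_min hρ₀ one_pos
  have hρ1 : ρ ≤ 1 := min_le_right _ _
  have hρρ₀ : ρ ≤ ρ₀ := min_le_left _ _
  set ζ : ℝ := ρ / 800 with hζ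
  have hζ0 : 0 < ζ := by positivity
  obtain ⟨ε₀, hε₀, hloc⟩ := main_loc hom hX hδ₀ hδ₁ hζ0
  set ε : ℝ := min ε₀ (ρ / 12) with hε
  have hεpos : 0 < ε := lt_min hε₀ (by positivity)
  have hεε₀ : ε ≤ ε₀ := min_le_left _ _
  have hερ : ε ≤ ρ / 12 := min_le_right _ _
  refine ⟨ε, hεpos, by linarith, ?_⟩
  intro b A f hF
  have hε1 : ε ≤ 1 := by linarith
  -- existence
  have hexist : ∀ φ : ℝ × ℝ, ∃ p : M2, GoodP b (A 3) φ (ρ / 2) p := by
    intro φ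
    obtain ⟨w, P, J, E, hL, hco, k, k', -, hk, -⟩ := hloc ε hεpos.le hεε₀ b A f hF φ
    obtain ⟨p, hp, hp0, hp1, hH⟩ := exists_herm hF hεpos.le hε1 (by linarith) hL hco hk
    exact ⟨p, hp, hp0, hp1, hH.mono (by linarith)⟩
  -- uniqueness
  have hun : ∀ φ : ℝ × ℝ, Simp φ → ∀ p q : M2, GoodP b (A 3) φ ρ p → GoodP b (A 3) φ ρ q →
      ‖p - q‖ ≤ 1 / 16 ∨ ‖p - (1 - q)‖ ≤ 1 / 16 := by
    intro φ hφ p q hp hq
    obtain ⟨w, P, J, E, hL, hco, k, k', hkk', hk, hk'⟩ := hloc ε hεpos.le hεε₀ b A f hF φ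
    exact huniq ε hεpos.le (by linarith) b A f hF φ hφ w P J E hL
      ⟨k, k', hkk', by linarith, by linarith⟩ p q hp.1 hp.2.1 hp.2.2.1 hq.1 hq.2.1 hq.2.2.1
      (hp.2.2.2.mono hρρ₀) (hq.2.2.2.mono hρρ₀)
  -- the mesh
  obtain ⟨N, hN⟩ := exists_nat_gt (10000 / ρ)
  have hNpos' : (0 : ℝ) < N := lt_trans (by positivity) hN
  have hNpos : 0 < N := by exact_mod_cast hNpos'
  have hN1 : 5000 * (1 / (N : ℝ)) ≤ ρ / 2 := by
    rw [div_lt_iff₀ hρpos] at hN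
    rw [mul_one_div, div_le_iff₀ hNpos']
    linarith
  have hN2 : 2 * (1 / (N : ℝ)) ≤ 1 / 16 := by linarith
  -- comparison of neighbours
  have hnear : ∀ φ φ' : ℝ × ℝ, Simp φ → Simp φ' → |φ.1 - φ'.1| ≤ 1 / N → |φ.2 - φ'.2| ≤ 1 / N →
      ∀ p q : M2, GoodP b (A 3) φ (ρ / 2) p → GoodP b (A 3) φ' (ρ / 2) q →
      ‖p - q‖ ≤ 1 / 16 ∨ ‖p - (1 - q)‖ ≤ 1 / 16 := by
    intro φ φ' hφ hφ' h1 h2 p q hp hq
    refine hun φ' hφ' p q ⟨hp.1, hp.2.1, hp.2.2.1, ?_⟩ ⟨hq.1, hq.2.1, hq.2.2.1, ?_⟩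
    · exact (hp.2.2.2.cont hF hφ (by linarith) (by linarith) h1 h2).mono (by linarith)
    · exact hq.2.2.2.mono (by linarith)
  let T : ℕ → ℕ → Set M2 := fun i j =>
    {τ | ∃ p : M2, GoodP b (A 3) (gp N i j) (ρ / 2) p ∧ (τ = p ∨ τ = 1 - p)}
  have hself : ∀ p : M2, p * p = p → 1 ≤ ‖p - (1 - p)‖ := fun p hp => sep_idem hp
  have h3ε : 3 * ε ≤ ρ / 2 := by linarith
  have hzero : (0 : ℝ) ≤ 1 / N := by positivity
  have hmemE3 : ∀ i j, (gp N i j).1 + (gp N i j).2 = 1 → E3 (gp N i j) ∈ T i j := by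
    intro i j h
    obtain ⟨a1, a2, a3, a4⟩ := good_E3 hF hεpos.le hε1 h
    exact ⟨_, ⟨a1, a2, a3, a4.mono h3ε⟩, Or.inl rfl⟩
  have hmemE2 : ∀ i j, (gp N i j).2 = 0 → E2 (gp N i j) ∈ T i j := by
    intro i j h
    obtain ⟨a1, a2, a3, a4⟩ := good_E2 hF hεpos.le hε1 h
    exact ⟨_, ⟨a1, a2, a3, a4.mono h3ε⟩, Or.inl rfl⟩
  have hmemE1 : ∀ i j, (gp N i j).1 = 0 → E1 (gp N i j) ∈ T i j := by
    intro i j h
    obtain ⟨a1, a2, a3, a4⟩ := good_E1 hF hεpos.le hε1 h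
    exact ⟨_, ⟨a1, a2, a3, a4.mono h3ε⟩, Or.inl rfl⟩
  have hcol : ∀ j, gp N 0 j = (1, 0) := by
    intro j
    simp [gp, gx_zero]
  have hrow0 : ∀ i, (gp N i 0).1 + (gp N i 0).2 = 1 := by
    intro i
    simp [gp, gx_zero]
  have hrowN : ∀ i, (gp N i N).2 = 0 := by
    intro i
    simp [gp, gx_self hNpos]
  have hcolN : ∀ j, (gp N N j).1 = 0 := by
    intro j
    simp [gp, gx_self hNpos]
  refine grid_contra (M := M2) N T (η := 1 / 16) (by norm_num) ?_ ?_ ?_ ?_ ?_ ?_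
    (fun i => E3 (gp N i 0)) (fun i => E2 (gp N i N)) (fun j => E1 (gp N N j))
    (fun i => hmemE3 i 0 (hrow0 i)) ?_ (fun i => hmemE2 i N (hrowN i)) ?_
    (fun j => hmemE1 N j (hcolN j)) ?_ ?_ ?_ ?_ ?_
  · rintro i j τ ⟨p, hp, hτ | hτ⟩
    · exact ⟨p, hp, Or.inr (by rw [hτ])⟩
    · exact ⟨p, hp, Or.inl (by rw [hτ]; exact sub_sub_cancel 1 p)⟩
  · rintro i j τ ⟨p, hp, rfl | rfl⟩
    · exact hself _ hp.1
    · have h1 := hself _ hp.1
      have e : (1 - p) - (1 - (1 - p)) = -(p - (1 - p)) := by abel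
      rw [e, norm_neg]
      exact h1
  · intro i j
    obtain ⟨p, hp⟩ := hexist (gp N i j)
    exact ⟨p, p, hp, Or.inl rfl⟩
  · rintro i j τ ⟨p, hp, hτ⟩ τ' ⟨q, hq, hτ'⟩
    exact dich_label (hnear _ _ (gp_simp N i j) (gp_simp N i j) (by simp)
      (by simp) p q hp hq) hτ hτ'
  · rintro i j τ ⟨p, hp, hτ⟩ τ' ⟨q, hq, hτ'⟩
    exact dich_label (hnear _ _ (gp_simp N i j) (gp_simp N (i + 1) j) (gp_x hNpos i j).1
      (gp_x hNpos i j).2 p q hp hq) hτ hτ'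
  · rintro i j τ ⟨p, hp, hτ⟩ τ' ⟨q, hq, hτ'⟩
    exact dich_label (hnear _ _ (gp_simp N i j) (gp_simp N i (j + 1)) (gp_y hNpos i j).1
      (gp_y hNpos i j).2 p q hp hq) hτ hτ'
  · intro i
    exact (E_diff (gp_x hNpos i 0).1 (gp_x hNpos i 0).2).1.trans hN2
  · intro i
    exact (E_diff (gp_x hNpos i N).1 (gp_x hNpos i N).2).2.1.trans hN2
  · intro j
    exact (E_diff (gp_y hNpos N j).1 (gp_y hNpos N j).2).2.2.trans hN2
  · intro j
    show E3 (gp N 0 0) ∈ T 0 j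
    have h1 := hmemE3 0 j (by rw [hcol j]; norm_num)
    rw [hcol j] at h1
    rw [hcol 0]
    exact h1
  · show E3 (gp N 0 0) = 1 - E2 (gp N 0 N)
    rw [hcol 0, hcol N]
    exact corner1
  · show E3 (gp N N 0) = 1 - E1 (gp N N 0)
    have : gp N N 0 = (0, 1) := by simp [gp, gx_self hNpos, gx_zero]
    rw [this]
    exact corner2
  · show E2 (gp N N N) = 1 - E1 (gp N N N)
    have : gp N N N = (0, 0) := by simp [gp, gx_self hNpos]
    rw [this]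
    exact corner3

/-- **The complex case.** -/
theorem complex_case [CompleteSpace X] [TopologicalSpace.SeparableSpace X]
    (hX : ¬ FiniteDimensional ℂ X)
    (h : ∀ Y : Submodule ℂ X, IsClosed (Y : Set X) → ¬ FiniteDimensional ℂ Y →
      Nonempty (Y ≃ₗᵢ[ℂ] X)) :
    Nonempty (X ≃ₗᵢ[ℂ] lp (fun _ : ℕ => ℂ) 2) := by
  have hom : IsoHom ℂ X := by
    intro Y hY hYf
    obtain ⟨e⟩ := h Y hY (fun hf => hYf (Submodule.fg_iff_finiteDimensional _ |>.2 hf))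
    refine ⟨Y.subtypeₗᵢ.comp e.symm.toLinearIsometry, ?_⟩
    ext v
    constructor
    · rintro ⟨x, rfl⟩
      exact (e.symm x).2
    · intro hv
      refine ⟨e ⟨v, hv⟩, ?_⟩
      show ((e.symm (e ⟨v, hv⟩) : Y) : X) = v
      rw [e.symm_apply_apply]
  by_cases hPR : ∃ x₀ : X, ‖x₀‖ = 1 ∧ ∀ δ : ℝ, 0 < δ → ∀ Z : Submodule ℂ X,
      IsClosed (Z : Set X) → ¬ Z.FG → Part ℂ δ x₀ Z
  · obtain ⟨x₀, hx₀, hPR⟩ := hPR
    exact equiv_l2_of_almost hom hX (fun ε hε => exists_almost_l2_of_part hX hx₀ hPR hε)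
  · exfalso
    push Not at hPR
    have hnt : Nontrivial X := by
      by_contra hn
      rw [not_nontrivial_iff_subsingleton] at hn
      exact hX inferInstance
    obtain ⟨x, hx⟩ := exists_ne (0 : X)
    have hxn : ‖x‖ ≠ 0 := norm_ne_zero_iff.2 hx
    obtain ⟨a, ha⟩ : ∃ a : X, ‖a‖ = 1 := by
      refine ⟨((‖x‖ : ℝ) : ℂ)⁻¹ • x, ?_⟩
      rw [norm_smul, norm_inv, Complex.norm_real, norm_norm, inv_mul_cancel₀ hxn]
    obtain ⟨δ, hδ, Z, hZc, hZf, hZ⟩ := hPR a ha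
    have hlev : 0 < Lev ℂ a := by
      have h1 : min δ 1 ≤ Lev ℂ a :=
        le_lev (lt_min hδ one_pos).le (min_le_right _ _) hZc hZf
          (fun hp => hZ (hp.mono (min_le_left _ _)))
      exact lt_of_lt_of_le (lt_min hδ one_pos) h1
    obtain ⟨ε, hε, hε1, hfalse⟩ := frame_false hom hX hlev (lev_le_one a)
    obtain ⟨b, hb⟩ := exists_sbasis hom hX ha hlev hε
    obtain ⟨A, f, hF⟩ := exists_frame hε.le hε1 hb
    exact hfalse b A f hF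

end DF72
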