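import Pool.Agent.Lib.MP_df72c7_an.C2

namespace DF72

open Set Filter Topology

variable {𝕜 : Type*} [RCLike 𝕜] {X : Type*} [NormedAddCommGroup X] [NormedSpace 𝕜 X]

/-- finitely many hereditary conditions can be met simultaneously -/
lemma finite_meet {ι : Type*} {P : ι → Submodule 𝕜 X → Prop}
    (hP : ∀ i (Z Z' : Submodule 𝕜 X), Z' ≤ Z → P i Z → P i Z') {t : Set ι} (ht : t.Finite)
    (hex : ∀ i ∈ t, ∀ Z : Submodule 𝕜 X, IsClosed (Z : Set X) → ¬ Z.FG →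
      ∃ Z' ≤ Z, IsClosed (Z' : Set X) ∧ ¬ Z'.FG ∧ P i Z') :
    ∀ Z : Submodule 𝕜 X, IsClosed (Z : Set X) → ¬ Z.FG →
      ∃ Z' ≤ Z, IsClosed (Z' : Set X) ∧ ¬ Z'.FG ∧ ∀ i ∈ t, P i Z' := by
  induction t, ht using Set.Finite.induction_on with
  | empty => intro Z hZc hZf; exact ⟨Z, le_rfl, hZc, hZf, by simp⟩
  | @insert a s has hs ih =>
    intro Z hZc hZf
    obtain ⟨Z₁, h1, hc1, hf1, hP1⟩ := ih (fun i hi => hex i (Set.mem_insert_of_mem _ hi)) Z hZc hZf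
    obtain ⟨Z₂, h2, hc2, hf2, hP2⟩ := hex a (Set.mem_insert _ _) Z₁ hc1 hf1
    refine ⟨Z₂, h2.trans h1, hc2, hf2, ?_⟩
    intro i hi
    rcases Set.mem_insert_iff.1 hi with rfl | hi
    · exact hP2
    · exact hP i _ _ h2 (hP1 i hi)

/-- uniform asymptotic unconditionality over a finite dimensional space -/
lemma AU_fin [CompleteSpace X] [TopologicalSpace.SeparableSpace X] (hom : IsoHom 𝕜 X)
    (hX : ¬ FiniteDimensional 𝕜 X) {F : Submodule 𝕜 X} (hF : F.FG) {ε : ℝ} (hε : 0 < ε)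
    {Z : Submodule 𝕜 X} (hZc : IsClosed (Z : Set X)) (hZf : ¬ Z.FG) :
    ∃ Z' ≤ Z, IsClosed (Z' : Set X) ∧ ¬ Z'.FG ∧
      ∀ v ∈ F, ∀ z ∈ Z', ∀ lam : 𝕜, ‖lam‖ = 1 → ‖v + lam • z‖ ≤ (1 + ε) * ‖v + z‖ := by
  set ε' : ℝ := min (1 / 10) (ε / 12) with hε'
  have hε'0 : 0 < ε' := lt_min (by norm_num) (by positivity)
  have hε'1 : ε' ≤ 1 / 10 := min_le_left _ _
  have hε'2 : 12 * ε' ≤ ε := by
    have : ε' ≤ ε / 12 := min_le_right _ _
    linarith
  have : FiniteDimensional 𝕜 F := Module.Finite.of_fg hF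
  have : ProperSpace F := FiniteDimensional.proper 𝕜 F
  -- nets
  obtain ⟨t, htS, htf, htc⟩ := Metric.finite_approx_of_totallyBounded
    (isCompact_sphere (0 : F) 1).totallyBounded ε' hε'0
  obtain ⟨u, huS, huf, huc⟩ := Metric.finite_approx_of_totallyBounded
    (isCompact_sphere (0 : 𝕜) 1).totallyBounded ε' hε'0
  obtain ⟨Z', hZ'Z, hZ'c, hZ'f, hZ'⟩ := finite_meet (𝕜 := 𝕜) (X := X) (ι := 𝕜 × F)
    (P := fun p Z => ∀ z ∈ Z, ‖(p.2 : X) + p.1 • z‖ ≤ (1 + ε') * ‖(p.2 : X) + z‖ + ε')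
    (fun p Z Z' h hp z hz => hp z (h hz)) (t := u ×ˢ t) (huf.prod htf)
    (by
      rintro ⟨l, a⟩ ⟨hl, ha⟩ Z hZc hZf
      have hl1 : ‖l‖ = 1 := by
        have := huS hl
        simpa using this
      obtain ⟨f, hf⟩ := hom Z hZc hZf
      obtain ⟨g, hg⟩ := AU hom hX hl1 hε'0 (a : X) f
      refine ⟨LinearMap.range (f.comp g).toLinearMap, ?_, range_isClosed _, range_not_fg hX _, ?_⟩
      · rw [← hf]
        rintro _ ⟨y, rfl⟩
        exact ⟨g y, rfl⟩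
      · rintro _ ⟨y, rfl⟩
        exact hg y) Z hZc hZf
  refine ⟨Z', hZ'Z, hZ'c, hZ'f, ?_⟩
  -- additive version for unit vectors
  have h1 : ∀ v ∈ F, ‖v‖ = 1 → ∀ z ∈ Z', ∀ lam : 𝕜, ‖lam‖ = 1 →
      ‖v + lam • z‖ ≤ (1 + 2 * ε') * ‖v + z‖ + 5 * ε' := by
    intro v hv hv1 z hz lam hlam
    have hvS : (⟨v, hv⟩ : F) ∈ Metric.sphere (0 : F) 1 := by simpa using hv1
    have hlS : lam ∈ Metric.sphere (0 : 𝕜) 1 := by simpa using hlam
    obtain ⟨a, ha, hva⟩ := Set.mem_iUnion₂.1 (htc hvS)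
    obtain ⟨l, hl, hll⟩ := Set.mem_iUnion₂.1 (huc hlS)
    rw [Metric.mem_ball, Subtype.dist_eq, dist_eq_norm] at hva
    rw [Metric.mem_ball, dist_eq_norm] at hll
    have h2 := hZ' (l, a) ⟨hl, ha⟩ z hz
    simp only at h2 hva
    have h3 : ‖v + lam • z‖ ≤ ‖(a : X) + l • z‖ + ε' + ε' * ‖z‖ := by
      have : v + lam • z = ((a : X) + l • z) + (v - a) + (lam - l) • z := by
        rw [sub_smul]; abel
      rw [this]
      calc _ ≤ ‖((a : X) + l • z) + (v - a)‖ + ‖(lam - l) • z‖ := norm_add_le _ _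
        _ ≤ (‖(a : X) + l • z‖ + ‖v - a‖) + ‖(lam - l)‖ * ‖z‖ := by
          rw [norm_smul]
          gcongr
          exact norm_add_le _ _
        _ ≤ _ := by gcongr
    have h4 : ‖(a : X) + z‖ ≤ ‖v + z‖ + ε' := by
      have : (a : X) + z = (v + z) - (v - a) := by abel
      rw [this]
      exact (norm_sub_le _ _).trans (by gcongr)
    have h5 : ‖z‖ ≤ ‖v + z‖ + 1 := by
      have : z = (v + z) - v := by abel
      calc ‖z‖ = ‖(v + z) - v‖ := by rw [← this]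
        _ ≤ ‖v + z‖ + ‖v‖ := norm_sub_le _ _
        _ = _ := by rw [hv1]
    have h6 : (1 + ε') * ‖(a : X) + z‖ ≤ (1 + ε') * (‖v + z‖ + ε') := by gcongr
    have h7 : ε' * ‖z‖ ≤ ε' * (‖v + z‖ + 1) := by gcongr
    have h8 := norm_nonneg (v + z)
    nlinarith
  have h2 : ∀ v ∈ F, ‖v‖ = 1 → ∀ z ∈ Z', ∀ lam : 𝕜, ‖lam‖ = 1 →
      ‖v + lam • z‖ ≤ (1 + ε) * ‖v + z‖ := by
    intro v hv hv1 z hz lam hlam
    have h3 := h1 v hv hv1 z hz lam hlam
    have h4 := h1 v hv hv1 z hz (-1) (by simp)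
    have h5 : (2:ℝ) ≤ ‖v + z‖ + ‖v + (-1 : 𝕜) • z‖ := by
      have : (2 : 𝕜) • v = (v + z) + (v + (-1 : 𝕜) • z) := by
        rw [two_smul, neg_one_smul]; abel
      calc (2:ℝ) = ‖(2 : 𝕜) • v‖ := by rw [norm_smul, hv1, mul_one, RCLike.norm_ofNat]
        _ ≤ _ := by rw [this]; exact norm_add_le _ _
    have h6 : 1 / 2 ≤ ‖v + z‖ := by
      by_contra hcon
      push Not at hcon
      nlinarith
    nlinarith
  intro v hv z hz lam hlam
  rcases eq_or_ne v 0 with rfl | hv0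
  · rw [zero_add, zero_add, norm_smul, hlam, one_mul]
    have := norm_nonneg z
    nlinarith
  · have hn : 0 < ‖v‖ := norm_pos_iff.2 hv0
    set c : 𝕜 := ((‖v‖⁻¹ : ℝ) : 𝕜) with hc
    have hcn : ‖c‖ = ‖v‖⁻¹ := by rw [hc, RCLike.norm_ofReal, abs_of_pos (inv_pos.2 hn)]
    have h3 := h2 (c • v) (F.smul_mem _ hv) (by rw [norm_smul, hcn, inv_mul_cancel₀ hn.ne'])
      (c • z) (Z'.smul_mem _ hz) lam hlam
    have h4 : c • v + lam • c • z = c • (v + lam • z) := by rw [smul_add, smul_comm lam c]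
    rw [h4, ← smul_add, norm_smul, norm_smul, hcn] at h3
    have h5 : ‖v‖⁻¹ * ‖v + lam • z‖ ≤ ‖v‖⁻¹ * ((1 + ε) * ‖v + z‖) := by linarith
    exact le_of_mul_le_mul_left h5 (inv_pos.2 hn)

/-- uniform isolation over a finite dimensional space -/
lemma iso_fin [CompleteSpace X] [TopologicalSpace.SeparableSpace X] (hom : IsoHom 𝕜 X)
    (hX : ¬ FiniteDimensional 𝕜 X) {F : Submodule 𝕜 X} (hF : F.FG) {δ₀ : ℝ} (hδ₀ : 0 < δ₀)
    (hδ₁ : δ₀ ≤ 1) {Z : Submodule 𝕜 X} (hZc : IsClosed (Z : Set X)) (hZf : ¬ Z.FG) :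
    ∃ Z' ≤ Z, IsClosed (Z' : Set X) ∧ ¬ Z'.FG ∧
      ∀ v ∈ F, ‖v‖ = 1 → δ₀ / 2 ≤ Lev 𝕜 v → ¬ Part 𝕜 (δ₀ / 4) v Z' := by
  have : FiniteDimensional 𝕜 F := Module.Finite.of_fg hF
  have : ProperSpace F := FiniteDimensional.proper 𝕜 F
  set η : ℝ := δ₀ / 144 with hη
  have hη0 : 0 < η := by positivity
  let C : Set F := {v | ‖(v : X)‖ = 1 ∧ δ₀ / 2 ≤ Lev 𝕜 (v : X)}
  have hC : TotallyBounded C := by
    apply (isCompact_sphere (0 : F) 1).totallyBounded.subset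
    intro v hv
    simpa using hv.1
  obtain ⟨t, htC, htf, htc⟩ := Metric.finite_approx_of_totallyBounded hC η hη0
  obtain ⟨Z', hZ'Z, hZ'c, hZ'f, hZ'⟩ := finite_meet (𝕜 := 𝕜) (X := X) (ι := F)
    (P := fun v Z => ¬ Part 𝕜 (δ₀ / 3) (v : X) Z)
    (fun v Z Z' h hp hp' => hp (hp'.mono_right h)) (t := t) htf
    (by
      intro v hv Z hZc hZf
      exact stab_lev hom hX (htC hv).1 (by positivity)
        (lt_of_lt_of_le (by linarith) (htC hv).2) hZc hZf) Z hZc hZf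
  refine ⟨Z', hZ'Z, hZ'c, hZ'f, ?_⟩
  intro v hv hv1 hvL hp
  have hvC : (⟨v, hv⟩ : F) ∈ C := ⟨hv1, hvL⟩
  obtain ⟨a, ha, hva⟩ := Set.mem_iUnion₂.1 (htc hvC)
  rw [Metric.mem_ball, Subtype.dist_eq, dist_eq_norm] at hva
  simp only at hva
  apply hZ' a ha
  refine (hp.near (x := (a : X)) (η := η) (by positivity) (by linarith) ?_ hv1 ?_).mono ?_
  · rw [hη]; linarith
  · rw [norm_sub_rev]; exact hva.le
  · rw [hη]; linarith

/-- compatible pair -/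
def GoodPair (𝕜 : Type*) [RCLike 𝕜] {X : Type*} [NormedAddCommGroup X] [NormedSpace 𝕜 X]
    (δ₀ ε : ℝ) (F W : Submodule 𝕜 X) : Prop :=
  (∀ v ∈ F, ∀ z ∈ W, ∀ lam : 𝕜, ‖lam‖ = 1 → ‖v + lam • z‖ ≤ (1 + ε) * ‖v + z‖) ∧
  (∀ v ∈ F, ‖v‖ = 1 → δ₀ / 2 ≤ Lev 𝕜 v → ¬ Part 𝕜 (δ₀ / 4) v W)

lemma GoodPair.mono {δ₀ ε : ℝ} {F F' W W' : Submodule 𝕜 X} (h : GoodPair 𝕜 δ₀ ε F W)
    (hF : F' ≤ F) (hW : W' ≤ W) : GoodPair 𝕜 δ₀ ε F' W' :=
  ⟨fun v hv z hz => h.1 v (hF hv) z (hW hz),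
    fun v hv hv1 hvL hp => h.2 v (hF hv) hv1 hvL (hp.mono_right hW)⟩

lemma exists_goodPair [CompleteSpace X] [TopologicalSpace.SeparableSpace X] (hom : IsoHom 𝕜 X)
    (hX : ¬ FiniteDimensional 𝕜 X) {F : Submodule 𝕜 X} (hF : F.FG) {δ₀ ε : ℝ} (hδ₀ : 0 < δ₀)
    (hδ₁ : δ₀ ≤ 1) (hε : 0 < ε) {Z : Submodule 𝕜 X} (hZc : IsClosed (Z : Set X))
    (hZf : ¬ Z.FG) : ∃ Z' ≤ Z, IsClosed (Z' : Set X) ∧ ¬ Z'.FG ∧ GoodPair 𝕜 δ₀ ε F Z' := by
  obtain ⟨Z₁, h1, hc1, hf1, hP1⟩ := AU_fin hom hX hF hε hZc hZf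
  obtain ⟨Z₂, h2, hc2, hf2, hP2⟩ := iso_fin hom hX hF hδ₀ hδ₁ hc1 hf1
  exact ⟨Z₂, h2.trans h1, hc2, hf2, fun v hv z hz => hP1 v hv z (h2 hz), hP2⟩

/-- sparse basis -/
structure SBasis (𝕜 : Type*) [RCLike 𝕜] {X : Type*} [NormedAddCommGroup X] [NormedSpace 𝕜 X]
    (δ₀ ε : ℝ) (b : ℕ → X) : Prop where
  norm_one : ∀ i, ‖b i‖ = 1
  lev : ∀ i, Lev 𝕜 (b i) = δ₀
  dense : (Submodule.span 𝕜 (range b)).topologicalClosure = ⊤
  good : ∀ k : ℕ, GoodPair 𝕜 δ₀ ε (Submodule.span 𝕜 (b '' Iio k))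
    (Submodule.span 𝕜 (b '' Ici k)).topologicalClosure

theorem exists_sbasis [CompleteSpace X] [TopologicalSpace.SeparableSpace X] (hom : IsoHom 𝕜 X)
    (hX : ¬ FiniteDimensional 𝕜 X) {a : X} (ha : ‖a‖ = 1) (haL : 0 < Lev 𝕜 a) {ε : ℝ}
    (hε : 0 < ε) : ∃ b : ℕ → X, SBasis 𝕜 (Lev 𝕜 a) ε b := by
  set δ₀ := Lev 𝕜 a with hδ₀
  have hδ₁ : δ₀ ≤ 1 := lev_le_one a
  let St := {p : Submodule 𝕜 X × Submodule 𝕜 X // p.1.FG ∧ IsClosed (p.2 : Set X) ∧
    ¬ p.2.FG ∧ GoodPair 𝕜 δ₀ ε p.1 p.2}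
  have hstep : ∀ p : St, ∃ (x : X) (p' : St), x ∈ p.1.2 ∧ ‖x‖ = 1 ∧ Lev 𝕜 x = δ₀ ∧
      p'.1.1 = p.1.1 ⊔ Submodule.span 𝕜 {x} ∧ p'.1.2 ≤ p.1.2 := by
    rintro ⟨⟨F, W⟩, hF, hWc, hWf, hg⟩
    obtain ⟨e, he⟩ := hom W hWc hWf
    have hF' : (F ⊔ Submodule.span 𝕜 {e a}).FG := hF.sup (Submodule.fg_span_singleton _)
    obtain ⟨W', hW'W, hW'c, hW'f, hg'⟩ := exists_goodPair hom hX hF' haL hδ₁ hε hWc hWf
    refine ⟨e a, ⟨⟨F ⊔ Submodule.span 𝕜 {e a}, W'⟩, hF', hW'c, hW'f, hg'⟩, ?_, ?_, ?_, rfl, hW'W⟩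
    · show e a ∈ W
      rw [← he]; exact ⟨a, rfl⟩
    · rw [e.norm_map, ha]
    · exact lev_isom hom hX e ha
  choose f N hf1 hf2 hf3 hf4 hf5 using hstep
  obtain ⟨W₀, -, hW₀c, hW₀f, hg₀⟩ := exists_goodPair hom hX (F := (⊥ : Submodule 𝕜 X))
    Submodule.fg_bot haL hδ₁ hε (Z := ⊤) isClosed_univ (fun h => hX ⟨h⟩)
  let p₀ : St := ⟨⟨⊥, W₀⟩, Submodule.fg_bot, hW₀c, hW₀f, hg₀⟩
  let p : ℕ → St := fun n => Nat.rec p₀ (fun _ q => N q) n
  have hps : ∀ n, p (n + 1) = N (p n) := fun n => rfl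
  let x : ℕ → X := fun n => f (p n)
  have hW : Antitone fun n => (p n).1.2 := antitone_nat_of_succ_le fun n => hf5 (p n)
  have hxW : ∀ n, x n ∈ (p n).1.2 := fun n => hf1 (p n)
  have hx1 : ∀ n, ‖x n‖ = 1 := fun n => hf2 (p n)
  have hF : ∀ n, (p n).1.1 = Submodule.span 𝕜 (x '' Iio n) := by
    intro n
    induction n with
    | zero => simp [p, p₀]
    | succ n ih =>
      rw [hps, hf4, ih]
      have : (Iio (n + 1) : Set ℕ) = Iio n ∪ {n} := by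
        ext i; simp only [mem_Iio, mem_union, mem_singleton_iff]; omega
      rw [this, Set.image_union, Submodule.span_union, Set.image_singleton]
  -- the closed span is infinite-dimensional
  have hYf : ¬ (Submodule.span 𝕜 (range x)).topologicalClosure.FG := by
    apply not_fg_closure
    intro hfg
    have hnoeth : IsNoetherian 𝕜 (Submodule.span 𝕜 (range x)) := by
      have : FiniteDimensional 𝕜 (Submodule.span 𝕜 (range x)) := Module.Finite.of_fg hfg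
      infer_instance
    have hstrict : ∀ n, x n ∉ (p n).1.1 := by
      intro n hn
      have h1 := (p n).2.2.2.2.1 (x n) hn (x n) (hxW n) (-1) (by simp)
      have h2 := (p n).2.2.2.2.1 (x n) hn (-(x n)) (Submodule.neg_mem _ (hxW n)) (-1) (by simp)
      rw [add_neg_cancel, norm_zero, mul_zero, neg_one_smul, neg_neg] at h2
      have h3 : x n + x n = (2 : 𝕜) • x n := (two_smul _ _).symm
      rw [h3, norm_smul, hx1, RCLike.norm_ofNat] at h2
      norm_num at h2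
    -- a strictly increasing chain in a noetherian module
    let M : ℕ →o Submodule 𝕜 (Submodule.span 𝕜 (range x)) :=
      ⟨fun n => ((p n).1.1).comap (Submodule.span 𝕜 (range x)).subtype, by
        intro m n hmn
        apply Submodule.comap_mono
        rw [hF, hF]
        apply Submodule.span_mono
        apply Set.image_mono
        exact Set.Iio_subset_Iio hmn⟩
    obtain ⟨n, hn⟩ := monotone_stabilizes_iff_noetherian.2 hnoeth M
    have h1 := hn (n + 1) (Nat.le_succ n)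
    have hxn : x n ∈ Submodule.span 𝕜 (range x) := Submodule.subset_span (mem_range_self n)
    have h2 : (⟨x n, hxn⟩ : Submodule.span 𝕜 (range x)) ∈ M (n + 1) := by
      have h3 : x n ∈ Submodule.span 𝕜 (x '' Iio (n + 1)) :=
        Submodule.subset_span ⟨n, by simp, rfl⟩
      rw [← hF (n + 1)] at h3
      exact h3
    rw [← h1] at h2
    exact hstrict n h2
  obtain ⟨y, hy⟩ := hom _ (Submodule.isClosed_topologicalClosure _) hYf
  have hmem : ∀ n, ∃ b, y b = x n := by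
    intro n
    have : x n ∈ LinearMap.range y.toLinearMap := by
      rw [hy]
      exact Submodule.le_topologicalClosure _ (Submodule.subset_span (mem_range_self n))
    obtain ⟨b, hb⟩ := this
    exact ⟨b, hb⟩
  choose b hb using hmem
  have hspan : ∀ s : Set ℕ, (Submodule.span 𝕜 (b '' s)).map y.toLinearMap
      = Submodule.span 𝕜 (x '' s) := by
    intro s
    rw [Submodule.map_span, ← Set.image_comp]
    congr 1
    apply Set.image_congr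
    intro n _
    exact hb n
  refine ⟨b, ⟨?_, ?_, ?_, ?_⟩⟩
  · intro i
    rw [← y.norm_map, hb, hx1]
  · intro i
    rw [← lev_isom hom hX y (by rw [← y.norm_map, hb, hx1]), hb]
    exact hf3 (p i)
  · rw [eq_top_iff]
    intro u _
    have h1 : y u ∈ (Submodule.span 𝕜 (range x)).topologicalClosure := by
      rw [← hy]; exact ⟨u, rfl⟩
    show u ∈ closure (Submodule.span 𝕜 (range b) : Set X)
    have h1' : y u ∈ closure (Submodule.span 𝕜 (range x) : Set X) := h1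
    rw [Metric.mem_closure_iff] at h1' ⊢
    intro r hr
    obtain ⟨v, hv, huv⟩ := h1' r hr
    have h2 := hspan univ
    rw [Set.image_univ, Set.image_univ] at h2
    have hv' : v ∈ Submodule.span 𝕜 (range x) := hv
    rw [← h2] at hv'
    obtain ⟨v', hv', rfl⟩ := hv'
    refine ⟨v', hv', ?_⟩
    rw [← y.isometry.dist_eq]
    exact huv
  · intro k
    have hyF : ∀ v ∈ Submodule.span 𝕜 (b '' Iio k), y v ∈ (p k).1.1 := by
      intro v hv
      rw [hF, ← hspan]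
      exact ⟨v, hv, rfl⟩
    have hyW : (Submodule.span 𝕜 (b '' Ici k)).topologicalClosure.map y.toLinearMap
        ≤ (p k).1.2 := by
      rintro _ ⟨z, hz, rfl⟩
      have h1 : Submodule.span 𝕜 (b '' Ici k) ≤ ((p k).1.2).comap y.toLinearMap := by
        rw [Submodule.span_le]
        rintro _ ⟨i, hi, rfl⟩
        show y (b i) ∈ (p k).1.2
        rw [hb]
        exact hW hi (hxW i)
      have h2 : IsClosed ((((p k).1.2).comap y.toLinearMap : Submodule 𝕜 X) : Set X) :=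
        comap_closed y (p k).2.2.1
      exact Submodule.topologicalClosure_minimal _ h1 h2 hz
    constructor
    · intro v hv z hz lam hlam
      have h1 := (p k).2.2.2.2.1 (y v) (hyF v hv) (y z) (hyW ⟨z, hz, rfl⟩) lam hlam
      rwa [← map_smul, ← map_add, ← map_add, y.norm_map, y.norm_map] at h1
    · intro v hv hv1 hvL hp
      apply (p k).2.2.2.2.2 (y v) (hyF v hv) (by rw [y.norm_map, hv1])
        (by rw [lev_isom hom hX y hv1]; exact hvL)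
      exact ((part_map_iff y).2 hp).mono_right hyW

end DF72
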