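import Mathlib

namespace DF72

open Set Filter Topology ComplexConjugate

/-- sesquilinear product on `ℂ²`, linear in the first variable -/
noncomputable def ip (h g : ℂ × ℂ) : ℂ := h.1 * conj g.1 + h.2 * conj g.2

/-- squared norm on `ℂ²` -/
noncomputable def nsq (h : ℂ × ℂ) : ℝ := ‖h.1‖ ^ 2 + ‖h.2‖ ^ 2

/-- complex reflection -/
noncomputable def rot (lam : ℂ) (ν h : ℂ × ℂ) : ℂ × ℂ := h + ((lam - 1) * ip h ν) • ν

lemma ip_self (h : ℂ × ℂ) : ip h h = (nsq h : ℂ) := by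
  rw [ip, nsq, Complex.mul_conj, Complex.mul_conj, Complex.normSq_eq_norm_sq,
    Complex.normSq_eq_norm_sq]
  push_cast; ring

lemma ip_add_left (h h' g : ℂ × ℂ) : ip (h + h') g = ip h g + ip h' g := by
  simp only [ip, Prod.fst_add, Prod.snd_add]; ring

lemma ip_smul_left (a : ℂ) (h g : ℂ × ℂ) : ip (a • h) g = a * ip h g := by
  simp only [ip, Prod.smul_fst, Prod.smul_snd, smul_eq_mul]; ring

lemma ip_conj (h g : ℂ × ℂ) : conj (ip h g) = ip g h := by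
  simp only [ip, map_add, map_mul, Complex.conj_conj]; ring

lemma ip_add_right (h g g' : ℂ × ℂ) : ip h (g + g') = ip h g + ip h g' := by
  rw [← ip_conj, ip_add_left, map_add, ip_conj, ip_conj]

lemma ip_smul_right (a : ℂ) (h g : ℂ × ℂ) : ip h (a • g) = conj a * ip h g := by
  rw [← ip_conj, ip_smul_left, map_mul, ip_conj]

lemma conj_mul_unit {χ : ℂ} (h : ‖χ‖ = 1) : conj χ * χ = 1 := by
  rw [mul_comm, Complex.mul_conj, Complex.normSq_eq_norm_sq, h]; norm_num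

lemma ip_rot {χ : ℂ} (hχ : ‖χ‖ = 1) {ν : ℂ × ℂ} (hν : nsq ν = 1) (h g : ℂ × ℂ) :
    ip (rot χ ν h) (rot χ ν g) = ip h g := by
  have h1 : ip ν ν = 1 := by rw [ip_self, hν]; norm_num
  have h2 := conj_mul_unit hχ
  simp only [rot, ip_add_left, ip_add_right, ip_smul_left, ip_smul_right, h1, map_mul, map_sub,
    map_one, ip_conj]
  linear_combination (ip h ν * ip ν g) * h2

lemma rot_rot {χ : ℂ} (hχ : ‖χ‖ = 1) {ν : ℂ × ℂ} (hν : nsq ν = 1) (h : ℂ × ℂ) :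
    rot χ ν (rot (conj χ) ν h) = h := by
  have h1 : ip ν ν = 1 := by rw [ip_self, hν]; norm_num
  have h2 := conj_mul_unit hχ
  simp only [rot, ip_add_left, ip_smul_left, h1]
  rw [add_assoc, ← add_smul]
  have : (conj χ - 1) * ip h ν + (χ - 1) * (ip h ν + (conj χ - 1) * ip h ν * 1) = 0 := by
    linear_combination (ip h ν) * h2
  rw [this, zero_smul, add_zero]

lemma rot_add (χ : ℂ) (ν h g : ℂ × ℂ) : rot χ ν (h + g) = rot χ ν h + rot χ ν g := by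
  simp only [rot, ip_add_left, mul_add, add_smul]; abel

lemma rot_smul (χ : ℂ) (ν : ℂ × ℂ) (a : ℂ) (h : ℂ × ℂ) : rot χ ν (a • h) = a • rot χ ν h := by
  simp only [rot, ip_smul_left, smul_add, smul_smul]
  congr 2; ring

lemma rot_conj {χ : ℂ} (hχ : ‖χ‖ = 1) {ν : ℂ × ℂ} (hν : nsq ν = 1) (lam : ℂ) (ρ h : ℂ × ℂ) :
    rot lam (rot χ ν ρ) h = rot χ ν (rot lam ρ (rot (conj χ) ν h)) := by
  have h1 : ip h (rot χ ν ρ) = ip (rot (conj χ) ν h) ρ := by
    have h2 := ip_rot hχ hν (rot (conj χ) ν h) ρ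
    rw [rot_rot hχ hν] at h2
    exact h2
  conv_lhs => rw [rot, h1]
  conv_rhs => rw [rot.eq_def lam ρ, rot_add, rot_smul, rot_rot hχ hν]

lemma nsq_rot {χ : ℂ} (hχ : ‖χ‖ = 1) {ν : ℂ × ℂ} (hν : nsq ν = 1) (h : ℂ × ℂ) :
    nsq (rot χ ν h) = nsq h := by
  have h1 := ip_rot hχ hν h h
  rw [ip_self, ip_self] at h1
  exact_mod_cast h1

lemma rot_phase {χ : ℂ} (hχ : ‖χ‖ = 1) (lam : ℂ) (ν h : ℂ × ℂ) :
    rot lam (χ • ν) h = rot lam ν h := by
  have h2 := conj_mul_unit hχ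
  simp only [rot, ip_smul_right, smul_smul]
  congr 2
  linear_combination ((lam - 1) * ip h ν) * h2

lemma exists_phase {a b : ℂ} (h : ‖a‖ = ‖b‖) : ∃ χ : ℂ, ‖χ‖ = 1 ∧ χ * a = b := by
  rcases eq_or_ne a 0 with rfl | ha
  · rw [norm_zero] at h
    have : b = 0 := norm_eq_zero.1 h.symm
    exact ⟨1, norm_one, by simp [this]⟩
  · refine ⟨b / a, ?_, div_mul_cancel₀ b ha⟩
    rw [norm_div, h, div_self]
    rw [← h]; exact norm_ne_zero_iff.2 ha

/-- almost invariance under the reflections along `ν` -/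
def Inv {ι : Type*} (N : ℂ × ℂ → ι → ℝ) (M : ℝ) (ν : ℂ × ℂ) : Prop :=
  ∀ χ : ℂ, ‖χ‖ = 1 → ∀ h i, N (rot χ ν h) i ≤ M * N h i

section
variable {ι : Type*} {N : ℂ × ℂ → ι → ℝ}

lemma Inv.mono (hN : ∀ h i, 0 ≤ N h i) {M M' : ℝ} (h : M ≤ M') {ν : ℂ × ℂ} (hi : Inv N M ν) :
    Inv N M' ν := by
  intro χ hχ g i
  refine (hi χ hχ g i).trans ?_
  have := hN g i
  gcongr

lemma Inv.conj {M M' : ℝ} (hM : 0 ≤ M) (hM' : 0 ≤ M') {ν ρ : ℂ × ℂ} (hν : nsq ν = 1)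
    (h1 : Inv N M ν) (h2 : Inv N M' ρ) {χ : ℂ} (hχ : ‖χ‖ = 1) :
    Inv N (M ^ 2 * M') (rot χ ν ρ) := by
  intro lam hlam h i
  rw [rot_conj hχ hν]
  have hχ' : ‖(starRingEnd ℂ) χ‖ = 1 := by rw [RCLike.norm_conj, hχ]
  calc _ ≤ M * N (rot lam ρ (rot ((starRingEnd ℂ) χ) ν h)) i := h1 _ hχ _ _
    _ ≤ M * (M' * N (rot ((starRingEnd ℂ) χ) ν h) i) := by
      gcongr
      exact h2 _ hlam _ _
    _ ≤ M * (M' * (M * N h i)) := by
      gcongr
      exact h1 _ hχ' _ _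
    _ = _ := by ring

lemma Inv.phase {M : ℝ} {ν : ℂ × ℂ} (h : Inv N M ν) {χ : ℂ} (hχ : ‖χ‖ = 1) :
    Inv N M (χ • ν) := by
  intro lam hlam g i
  rw [rot_phase hχ]
  exact h lam hlam g i

lemma nsq_one_zero : nsq ((1 : ℂ), (0 : ℂ)) = 1 := by simp [nsq]

lemma rot_e (lam : ℂ) (h : ℂ × ℂ) : rot lam ((1 : ℂ), (0 : ℂ)) h = (lam * h.1, h.2) := by
  ext
  · simp [rot, ip]; ring
  · simp [rot, ip]

/-- one step of the generation of `U(2)` -/
lemma gen_step (hN : ∀ h i, 0 ≤ N h i) {M : ℝ} (hM : 1 ≤ M) (he : Inv N M (1, 0))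
    {ν ν' : ℂ × ℂ} (hν : nsq ν = 1) (hi : Inv N M ν) (hν' : nsq ν' = 1)
    (h : 1 - ‖ν'.1‖ ^ 2 ≤ 4 * ‖ν.1‖ ^ 2 * (1 - ‖ν.1‖ ^ 2)) : Inv N (M ^ 5) ν' := by
  set m := ‖ν.1‖ ^ 2 with hm
  set m' := ‖ν'.1‖ ^ 2 with hm'
  have hm1 : m + ‖ν.2‖ ^ 2 = 1 := hν
  have hm'1 : m' + ‖ν'.2‖ ^ 2 = 1 := hν'
  have hm0 : 0 ≤ m := by positivity
  have hmle : m ≤ 1 := by have := sq_nonneg ‖ν.2‖; linarith
  have hm'0 : 0 ≤ m' := by positivity
  have hm'le : m' ≤ 1 := by have := sq_nonneg ‖ν'.2‖; linarith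
  have hM0 : 0 ≤ M := by linarith
  rcases eq_or_lt_of_le (mul_nonneg hm0 (sub_nonneg.2 hmle)) with h0 | h0
  · -- degenerate case
    have h1 : m' = 1 := by nlinarith
    have h2 : ν'.2 = 0 := by
      have : ‖ν'.2‖ ^ 2 = 0 := by linarith
      simpa using this
    have h3 : ‖ν'.1‖ = 1 := by
      have : ‖ν'.1‖ ^ 2 = 1 := by rw [← hm']; exact h1
      have h4 := norm_nonneg ν'.1
      nlinarith
    have h4 : ν' = ν'.1 • ((1 : ℂ), (0 : ℂ)) := by
      ext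
      · simp
      · simp [h2]
    rw [h4]
    refine (he.phase h3).mono hN ?_
    calc M = M ^ 1 := (pow_one M).symm
      _ ≤ M ^ 5 := pow_le_pow_right₀ hM (by norm_num)
  · -- choose the angle
    set t := (1 - m') / (2 * (m * (1 - m))) with ht
    have ht0 : 0 ≤ t := div_nonneg (by linarith) (by positivity)
    have ht2 : t ≤ 2 := by
      rw [ht, div_le_iff₀ (by positivity)]
      linarith
    have htm : 2 * (m * (1 - m)) * t = 1 - m' := by
      have h2 : 2 * (m * (1 - m)) ≠ 0 := by positivity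
      rw [ht, mul_comm, div_mul_cancel₀ _ h2]
    set lam : ℂ := ⟨1 - t, √(1 - (1 - t) ^ 2)⟩ with hlam
    have hsq : 0 ≤ 1 - (1 - t) ^ 2 := by nlinarith
    have hlam1 : ‖lam‖ = 1 := by
      rw [Complex.norm_eq_sqrt_sq_add_sq, hlam]
      simp only
      rw [Real.sq_sqrt hsq]
      norm_num
    have hν1 : ν.1 * (starRingEnd ℂ) ν.1 = (m : ℂ) := by
      rw [Complex.mul_conj, Complex.normSq_eq_norm_sq]
    set c := rot lam ν ((1 : ℂ), (0 : ℂ)) with hc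
    have hc1 : c.1 = 1 + (lam - 1) * m := by
      rw [hc]
      simp only [rot, ip, Prod.fst_add, Prod.smul_fst, smul_eq_mul, one_mul, zero_mul, add_zero]
      linear_combination (lam - 1) * hν1
    have hc1n : ‖c.1‖ ^ 2 = m' := by
      rw [hc1, ← Complex.normSq_eq_norm_sq, Complex.normSq_apply]
      simp only [hlam, Complex.add_re, Complex.add_im, Complex.mul_re, Complex.mul_im,
        Complex.sub_re, Complex.sub_im, Complex.one_re, Complex.one_im, Complex.ofReal_re,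
        Complex.ofReal_im]
      have hs := Real.mul_self_sqrt hsq
      set q := √(1 - (1 - t) ^ 2)
      have : (1 + ((1 - t - 1) * m - (q - 0) * 0)) * (1 + ((1 - t - 1) * m - (q - 0) * 0))
          + (0 + ((1 - t - 1) * 0 + (q - 0) * m)) * (0 + ((1 - t - 1) * 0 + (q - 0) * m))
          = 1 - 2 * t * m + t ^ 2 * m ^ 2 + (q * q) * m ^ 2 := by ring
      rw [this, hs]
      nlinarith
    have hcn : nsq c = 1 := by rw [hc, nsq_rot hlam1 hν, nsq_one_zero]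
    have hc2n : ‖c.2‖ ^ 2 = ‖ν'.2‖ ^ 2 := by
      have : ‖c.1‖ ^ 2 + ‖c.2‖ ^ 2 = 1 := hcn
      linarith
    have e1 : ‖c.1‖ = ‖ν'.1‖ := by
      have := hc1n.trans hm'
      exact (sq_eq_sq₀ (norm_nonneg _) (norm_nonneg _)).1 this
    have e2 : ‖c.2‖ = ‖ν'.2‖ := (sq_eq_sq₀ (norm_nonneg _) (norm_nonneg _)).1 hc2n
    obtain ⟨χ₁, hχ₁, h1⟩ := exists_phase e1
    obtain ⟨χ₂, hχ₂, h2⟩ := exists_phase e2
    have hχ₂0 : χ₂ ≠ 0 := by rintro rfl; simp at hχ₂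
    have hi1 : Inv N (M ^ 2 * M) c := Inv.conj hM0 hM0 hν hi he hlam1
    have hχ : ‖χ₁ / χ₂‖ = 1 := by rw [norm_div, hχ₁, hχ₂, div_one]
    have hi2 : Inv N (M ^ 2 * (M ^ 2 * M)) (rot (χ₁ / χ₂) (1, 0) c) :=
      Inv.conj hM0 (by positivity) nsq_one_zero he hi1 hχ
    have hi3 := hi2.phase hχ₂
    have h4 : χ₂ • rot (χ₁ / χ₂) (1, 0) c = ν' := by
      rw [rot_e]
      ext
      · simp only [Prod.smul_fst, smul_eq_mul]
        rw [← h1]; field_simp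
      · simp only [Prod.smul_snd, smul_eq_mul]
        exact h2
    rw [h4] at hi3
    have : M ^ 2 * (M ^ 2 * M) = M ^ 5 := by ring
    rwa [this] at hi3

lemma gen_cap (J : ℕ) : ∃ C : ℕ, ∀ {ι : Type*} {N : ℂ × ℂ → ι → ℝ} (_ : ∀ h i, 0 ≤ N h i)
    {M : ℝ} (_ : 1 ≤ M) (_ : Inv N M (1, 0)) {η : ℝ} (_ : 0 < η) (_ : 1 / 2 ≤ 2 ^ J * η)
    (_ : ∀ ν, nsq ν = 1 → 1 - ‖ν.1‖ ^ 2 ≤ η → Inv N M ν), ∀ ν, nsq ν = 1 → Inv N (M ^ C) ν := by
  have base : ∀ {ι : Type _} {N : ℂ × ℂ → ι → ℝ} (_ : ∀ h i, 0 ≤ N h i)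
      {M : ℝ} (_ : 1 ≤ M) (_ : Inv N M (1, 0)) {η : ℝ} (_ : 1 / 2 ≤ η)
      (_ : ∀ ν, nsq ν = 1 → 1 - ‖ν.1‖ ^ 2 ≤ η → Inv N M ν), ∀ ν, nsq ν = 1 → Inv N (M ^ 5) ν := by
    intro ι N hN M hM he η hη hcap ν' hν'
    have hs : (√(1 / 2) : ℝ) ^ 2 = 1 / 2 := Real.sq_sqrt (by norm_num)
    have hn : ‖((√(1 / 2) : ℝ) : ℂ)‖ ^ 2 = 1 / 2 := by
      rw [Complex.norm_real, Real.norm_eq_abs, sq_abs, hs]
    have h1 : nsq (((√(1 / 2) : ℝ) : ℂ), ((√(1 / 2) : ℝ) : ℂ)) = 1 := by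
      simp only [nsq]; rw [hn]; norm_num
    refine gen_step hN hM he h1 (hcap _ h1 ?_) hν' ?_
    · simp only; rw [hn]; linarith
    · simp only; rw [hn]
      have := sq_nonneg ‖ν'.1‖
      linarith
  induction J with
  | zero =>
    refine ⟨5, fun hN M hM he η _ hη hcap ν hν => base hN hM he (by simpa using hη) hcap ν hν⟩
  | succ J ih =>
    obtain ⟨C, hC⟩ := ih
    refine ⟨5 * C + 5, ?_⟩
    intro ι N hN M hM he η hη0 hη hcap ν hν
    by_cases hη2 : 1 / 2 ≤ η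
    · refine (base hN hM he hη2 hcap ν hν).mono hN ?_
      exact pow_le_pow_right₀ hM (by omega)
    · push Not at hη2
      have hM5 : 1 ≤ M ^ 5 := one_le_pow₀ hM
      have he5 : Inv N (M ^ 5) (1, 0) := he.mono hN (by
        calc M = M ^ 1 := (pow_one M).symm
          _ ≤ M ^ 5 := pow_le_pow_right₀ hM (by norm_num))
      have hn1 : ‖((√(1 - η) : ℝ) : ℂ)‖ ^ 2 = 1 - η := by
        rw [Complex.norm_real, Real.norm_eq_abs, sq_abs, Real.sq_sqrt (by linarith)]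
      have hn2 : ‖((√η : ℝ) : ℂ)‖ ^ 2 = η := by
        rw [Complex.norm_real, Real.norm_eq_abs, sq_abs, Real.sq_sqrt hη0.le]
      have h1 : nsq (((√(1 - η) : ℝ) : ℂ), ((√η : ℝ) : ℂ)) = 1 := by
        simp only [nsq]; rw [hn1, hn2]; ring
      have hcap2 : ∀ ν', nsq ν' = 1 → 1 - ‖ν'.1‖ ^ 2 ≤ 2 * η → Inv N (M ^ 5) ν' := by
        intro ν' hν' h
        refine gen_step hN hM he h1 (hcap _ h1 ?_) hν' ?_
        · simp only; rw [hn1]; linarith
        · simp only; rw [hn1]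
          nlinarith
      have h2 := hC hN hM5 he5 (η := 2 * η) (by positivity) (by
        rw [pow_succ] at hη; linarith) hcap2 ν hν
      refine h2.mono hN ?_
      rw [← pow_mul]
      exact pow_le_pow_right₀ hM (by omega)

end

/-- **Generation lemma.** -/
theorem gen_lemma {η : ℝ} (hη : 0 < η) : ∃ C : ℕ, ∀ {ι : Type*} {N : ℂ × ℂ → ι → ℝ}
    (_ : ∀ h i, 0 ≤ N h i) {M : ℝ} (_ : 1 ≤ M) (_ : Inv N M (1, 0)) {ν : ℂ × ℂ} (_ : nsq ν = 1)
    (_ : η ≤ ‖ν.1‖ ^ 2 * (1 - ‖ν.1‖ ^ 2)) (_ : Inv N M ν) (h : ℂ × ℂ) (i : ι),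
    N h i ≤ M ^ C * N (((√(nsq h) : ℝ) : ℂ), 0) i ∧
    N (((√(nsq h) : ℝ) : ℂ), 0) i ≤ M ^ C * N h i := by
  obtain ⟨J, hJ⟩ : ∃ J : ℕ, 1 / 2 ≤ 2 ^ J * (4 * η) := by
    obtain ⟨J, hJ⟩ := pow_unbounded_of_one_lt (1 / (8 * η)) (one_lt_two)
    refine ⟨J, ?_⟩
    rw [div_lt_iff₀ (by positivity)] at hJ
    linarith
  obtain ⟨C, hC⟩ := gen_cap J
  refine ⟨5 * C + 1, ?_⟩
  intro ι N hN M hM he ν hν hνη hi h i
  have hM0 : 0 ≤ M := by linarith
  have hM5 : 1 ≤ M ^ 5 := one_le_pow₀ hM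
  have he5 : Inv N (M ^ 5) (1, 0) := he.mono hN (by
    calc M = M ^ 1 := (pow_one M).symm
      _ ≤ M ^ 5 := pow_le_pow_right₀ hM (by norm_num))
  have hcap : ∀ ν', nsq ν' = 1 → 1 - ‖ν'.1‖ ^ 2 ≤ 4 * η → Inv N (M ^ 5) ν' := by
    intro ν' hν' h'
    refine gen_step hN hM he hν hi hν' ?_
    linarith
  have hall := hC hN hM5 he5 (by positivity) hJ hcap
  have hpow : M ^ (5 * C) * M = M ^ (5 * C + 1) := (pow_succ M (5 * C)).symm
  set r : ℝ := √(nsq h) with hr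
  have hnn : 0 ≤ nsq h := by simp only [nsq]; positivity
  have hr0 : 0 ≤ r := Real.sqrt_nonneg _
  have hr2 : r ^ 2 = ‖h.1‖ ^ 2 + ‖h.2‖ ^ 2 := Real.sq_sqrt hnn
  obtain ⟨χ, hχ, hχa⟩ := exists_phase (a := ((‖h.1‖ : ℝ) : ℂ)) (b := h.1) (by simp)
  have hχc := conj_mul_unit hχ
  have hχ' : ‖(starRingEnd ℂ) χ‖ = 1 := by rw [RCLike.norm_conj, hχ]
  set g : ℂ × ℂ := (χ * r, 0) with hg
  have hg1 : N g i ≤ M * N ((r : ℂ), 0) i := by
    have := he χ hχ ((r : ℂ), 0) i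
    rwa [rot_e] at this
  have hg2 : N ((r : ℂ), 0) i ≤ M * N g i := by
    have := he _ hχ' g i
    rw [rot_e] at this
    have h2 : ((starRingEnd ℂ) χ * g.1, g.2) = ((r : ℂ), (0 : ℂ)) := by
      ext
      · simp only [hg]; linear_combination (r : ℂ) * hχc
      · simp [hg]
    rwa [h2] at this
  by_cases hb : h = g
  · rw [hb]
    have hone : M ≤ M ^ (5 * C + 1) := by
      calc M = M ^ 1 := (pow_one M).symm
        _ ≤ M ^ (5 * C + 1) := pow_le_pow_right₀ hM (by omega)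
    constructor
    · refine hg1.trans ?_
      have := hN ((r : ℂ), 0) i
      gcongr
    · refine hg2.trans ?_
      have := hN g i
      gcongr
  · -- the reflection exchanging `g` and `h`
    set a : ℝ := ‖h.1‖ with ha
    have ha0 : 0 ≤ a := norm_nonneg _
    have har : a ≤ r := by
      have : a ^ 2 ≤ r ^ 2 := by rw [hr2]; have := sq_nonneg ‖h.2‖; linarith
      exact (sq_le_sq₀ ha0 hr0).1 this
    have hD : nsq (h - g) = 2 * r * (r - a) := by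
      have h1 : (h - g).1 = χ * ((a - r : ℝ) : ℂ) := by
        simp only [hg, Prod.fst_sub]
        rw [← hχa]; push_cast; ring
      have h2 : (h - g).2 = h.2 := by simp [hg]
      rw [nsq, h1, h2, norm_mul, hχ, one_mul, Complex.norm_real, Real.norm_eq_abs, sq_abs]
      nlinarith
    have hD0 : 0 < nsq (h - g) := by
      rcases lt_or_eq_of_le (show 0 ≤ nsq (h - g) by simp only [nsq]; positivity) with h1 | h1
      · exact h1
      · exfalso
        apply hb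
        have h2 : ‖(h - g).1‖ ^ 2 + ‖(h - g).2‖ ^ 2 = 0 := h1.symm
        have h3 : ‖(h - g).1‖ ^ 2 = 0 := by
          have := sq_nonneg ‖(h - g).1‖; have := sq_nonneg ‖(h - g).2‖; linarith
        have h4 : ‖(h - g).2‖ ^ 2 = 0 := by
          have := sq_nonneg ‖(h - g).1‖; have := sq_nonneg ‖(h - g).2‖; linarith
        have h5 : (h - g).1 = 0 := by simpa using h3
        have h6 : (h - g).2 = 0 := by simpa using h4
        have : h - g = 0 := Prod.ext h5 h6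
        exact sub_eq_zero.1 this
    set D : ℝ := nsq (h - g) with hDdef
    set μ : ℂ × ℂ := (((√D)⁻¹ : ℝ) : ℂ) • (h - g) with hμ
    have hsD : (√D) ^ 2 = D := Real.sq_sqrt hD0.le
    have hsD0 : 0 < √D := Real.sqrt_pos.2 hD0
    have hμ1 : nsq μ = 1 := by
      simp only [hμ, nsq, Prod.smul_fst, Prod.smul_snd, smul_eq_mul, norm_mul, mul_pow]
      rw [← mul_add]
      have : ‖(h - g).1‖ ^ 2 + ‖(h - g).2‖ ^ 2 = D := rfl
      rw [this, Complex.norm_real, Real.norm_eq_abs, sq_abs, inv_pow, hsD, inv_mul_cancel₀ hD0.ne']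
    -- reflection formula
    have hrefl : ∀ v : ℂ × ℂ, rot (-1) μ v = v - (2 * ip v (h - g) / D) • (h - g) := by
      intro v
      rw [rot, hμ, ip_smul_right, smul_smul, sub_eq_add_neg v, ← neg_smul]
      congr 2
      rw [Complex.conj_ofReal]
      have h1 : (((√D)⁻¹ : ℝ) : ℂ) * (((√D)⁻¹ : ℝ) : ℂ) = ((D : ℝ) : ℂ)⁻¹ := by
        rw [← Complex.ofReal_mul, ← mul_inv, ← sq, hsD, Complex.ofReal_inv]
      have h2 : (-1 - 1 : ℂ) * ((((√D)⁻¹ : ℝ) : ℂ) * ip v (h - g)) * (((√D)⁻¹ : ℝ) : ℂ)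
          = -2 * ip v (h - g) * ((((√D)⁻¹ : ℝ) : ℂ) * (((√D)⁻¹ : ℝ) : ℂ)) := by ring
      rw [h2, h1]; field_simp
    have hipg : 2 * ip g (h - g) / D = -1 := by
      have h1 : ip g (h - g) = ((r * (a - r) : ℝ) : ℂ) := by
        simp only [ip, hg, Prod.fst_sub, Prod.snd_sub, zero_mul, add_zero]
        rw [← hχa]
        simp only [map_sub, map_mul, Complex.conj_ofReal]
        push_cast
        linear_combination (r * (a - r) : ℂ) * hχc
      rw [h1, hD, div_eq_iff (by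
        rw [← hD]
        exact_mod_cast hD0.ne')]
      push_cast; ring
    have hgh : rot (-1) μ g = h := by
      rw [hrefl, hipg]
      simp
    have hiph : 2 * ip h (h - g) / D = 1 := by
      have h1 : ip h (h - g) = ip g (h - g) + ip (h - g) (h - g) := by
        rw [← ip_add_left]; congr 1; abel
      rw [h1, ip_self, ← hDdef]
      have h2 : ((D : ℝ) : ℂ) ≠ 0 := by exact_mod_cast hD0.ne'
      rw [div_eq_iff h2] at hipg ⊢
      linear_combination hipg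
    have hhg : rot (-1) μ h = g := by
      rw [hrefl, hiph]
      simp
    have h1 := hall μ hμ1 (-1) (by simp) g i
    have h2 := hall μ hμ1 (-1) (by simp) h i
    rw [hgh] at h1
    rw [hhg] at h2
    rw [← pow_mul] at h1 h2
    have hMC : 0 ≤ M ^ (5 * C) := by positivity
    constructor
    · calc N h i ≤ M ^ (5 * C) * N g i := h1
        _ ≤ M ^ (5 * C) * (M * N ((r : ℂ), 0) i) := by gcongr
        _ = _ := by rw [← hpow]; ring
    · calc _ ≤ M * N g i := hg2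
        _ ≤ M * (M ^ (5 * C) * N h i) := by gcongr
        _ = _ := by rw [← hpow]; ring

end DF72
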