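import Pool.Agent.Lib.MP_df72c7_an.C4

namespace DF72

open Set Filter Topology

variable {X : Type*} [NormedAddCommGroup X] [NormedSpace ℂ X]

/-- almost Hermitian projection -/
def Herm (ε : ℝ) (P : X →L[ℂ] X) : Prop :=
  (∀ x, P (P x) = P x) ∧ ∀ χ : ℂ, ‖χ‖ = 1 → ∀ x, ‖x + (χ - 1) • P x‖ ≤ (1 + ε) * ‖x‖

lemma Herm.norm_le {ε : ℝ} (hε : 0 ≤ ε) {P : X →L[ℂ] X} (hP : Herm ε P) (x : X) :
    ‖P x‖ ≤ (1 + ε) * ‖x‖ := by
  have h1 := hP.2 (-1) (by simp) x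
  have h2 : ‖(2 : ℂ) • P x‖ ≤ ‖x‖ + ‖x + (-1 - 1 : ℂ) • P x‖ := by
    have : (2 : ℂ) • P x = x - (x + (-1 - 1 : ℂ) • P x) := by
      module
    rw [this]
    exact norm_sub_le _ _
  rw [norm_smul, Complex.norm_ofNat] at h2
  have := norm_nonneg x
  nlinarith

lemma Herm.mono {ε ε' : ℝ} (h : ε ≤ ε') {P : X →L[ℂ] X} (hP : Herm ε P) : Herm ε' P :=
  ⟨hP.1, fun χ hχ x => (hP.2 χ hχ x).trans (by gcongr)⟩

/-- eigenvalues are almost real -/
lemma almost_real {ε : ℝ} (hε0 : 0 ≤ ε) (hε : ε ≤ 1) {P R : X →L[ℂ] X} (hP : Herm ε P)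
    (hR : Herm ε R) {w : X} (hw0 : w ≠ 0) (hw : P w = w) {β : ℂ} (hβ : P (R w) = β • w)
    (hβ0 : β ≠ 0) (hβ1 : β ≠ 1) : |β.im| ≤ 2 * ε ∧ -(2 * ε) ≤ β.re ∧ β.re ≤ 1 + 2 * ε := by
  obtain ⟨c, hc⟩ : ∃ c : ℂ, c ^ 2 = β * (1 - β) := IsAlgClosed.exists_pow_nat_eq _ (by norm_num)
  set s := R w with hs
  set n := w - s with hn
  have hRs : R s = s := hR.1 w
  have hRn : R n = 0 := by rw [hn, map_sub, ← hs, hRs, sub_self]
  have hsn : s + n = w := by rw [hn]; abel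
  have hPs : P s = β • w := hβ
  have hPn : P n = (1 - β) • w := by
    rw [hn, map_sub, hw, hPs, sub_smul, one_smul]
  have hs0 : s ≠ 0 := by
    intro h
    rw [h, map_zero] at hPs
    rcases smul_eq_zero.1 hPs.symm with h1 | h1
    · exact hβ0 h1
    · exact hw0 h1
  -- the eigenvector computation, for `c` and `-c`
  have key : ∀ c : ℂ, c ^ 2 = β * (1 - β) →
      ‖(2 * β - 1) + 2 * Complex.I * c‖ ≤ (1 + ε) ^ 2 := by
    intro c hc
    set y : X := (1 - β) • s - (Complex.I * c) • n with hy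
    have hRy : R y = (1 - β) • s := by
      rw [hy, map_sub, map_smul, map_smul, hRs, hRn, smul_zero, sub_zero]
    have hy0 : y ≠ 0 := by
      intro h
      rw [h, map_zero] at hRy
      rcases smul_eq_zero.1 hRy.symm with h1 | h1
      · exact hβ1 (by linear_combination -h1)
      · exact hs0 h1
    set y1 : X := y + (-1 - 1 : ℂ) • R y with hy1
    set y2 : X := y1 + (-1 - 1 : ℂ) • P y1 with hy2
    have h1 : ‖y1‖ ≤ (1 + ε) * ‖y‖ := hR.2 (-1) (by simp) y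
    have h2 : ‖y2‖ ≤ (1 + ε) * ‖y1‖ := hP.2 (-1) (by simp) y1
    have h3 : y1 = -(1 - β) • s - (Complex.I * c) • n := by
      rw [hy1, hRy, hy]
      module
    have h4 : P y1 = (-(1 - β) * (β + Complex.I * c)) • (s + n) := by
      rw [h3, map_sub, map_smul, map_smul, hPs, hPn, hsn]
      module
    have h5 : y2 = ((2 * β - 1) + 2 * Complex.I * c) • y := by
      rw [hy2, h4, h3, hy]
      have hc' : (-1 - 1 : ℂ) * (-(1 - β) * (β + Complex.I * c)) - Complex.I * c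
          = ((2 * β - 1) + 2 * Complex.I * c) * (-(Complex.I * c)) := by
        linear_combination (-2 : ℂ) * hc + (2 * c ^ 2) * Complex.I_sq
      have e1 : -(1 - β) • s - (Complex.I * c) • n
          + (-1 - 1 : ℂ) • (-(1 - β) * (β + Complex.I * c)) • (s + n)
          = (((2 * β - 1) + 2 * Complex.I * c) * (1 - β)) • s
            + ((-1 - 1 : ℂ) * (-(1 - β) * (β + Complex.I * c)) - Complex.I * c) • n := by
        module
      rw [e1, hc']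
      module
    have hyn : 0 < ‖y‖ := norm_pos_iff.2 hy0
    rw [h5, norm_smul] at h2
    have h6 : ‖(2 * β - 1) + 2 * Complex.I * c‖ * ‖y‖ ≤ (1 + ε) ^ 2 * ‖y‖ := by
      calc _ ≤ (1 + ε) * ‖y1‖ := h2
        _ ≤ (1 + ε) * ((1 + ε) * ‖y‖) := by gcongr
        _ = _ := by ring
    exact le_of_mul_le_mul_right h6 hyn
  have k1 := key c hc
  have k2 := key (-c) (by rw [neg_sq]; exact hc)
  set ζ : ℂ := (2 * β - 1) + 2 * Complex.I * c with hζ
  set ζ' : ℂ := (2 * β - 1) + 2 * Complex.I * (-c) with hζ'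
  have hprod : ζ * ζ' = 1 := by
    rw [hζ, hζ']
    linear_combination (4 : ℂ) * hc - (4 * c ^ 2) * Complex.I_sq
  have hsum : ζ + ζ' = 4 * β - 2 := by rw [hζ, hζ']; ring
  -- numerical consequences
  have hζ0 : ζ ≠ 0 := by intro h; rw [h, zero_mul] at hprod; exact zero_ne_one hprod
  have hζ'eq : ζ' = ζ⁻¹ := by field_simp; linear_combination hprod
  set A := Complex.normSq ζ with hA
  have hA0 : 0 < A := Complex.normSq_pos.2 hζ0
  have hAle : A ≤ (1 + ε) ^ 4 := by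
    rw [hA, Complex.normSq_eq_norm_sq]
    calc ‖ζ‖ ^ 2 ≤ ((1 + ε) ^ 2) ^ 2 := by gcongr
      _ = _ := by ring
  have hAge : 1 ≤ A * (1 + ε) ^ 4 := by
    have h1 : ‖ζ‖ * ‖ζ'‖ = 1 := by rw [← norm_mul, hprod, norm_one]
    have h2 : A * ‖ζ'‖ ^ 2 = 1 := by
      rw [hA, Complex.normSq_eq_norm_sq, ← mul_pow, h1, one_pow]
    calc (1:ℝ) = A * ‖ζ'‖ ^ 2 := h2.symm
      _ ≤ A * ((1 + ε) ^ 2) ^ 2 := by gcongr
      _ = _ := by ring
  have him : 4 * β.im = ζ.im * (1 - A⁻¹) := by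
    have h1 := congrArg Complex.im hsum
    rw [hζ'eq] at h1
    simp only [Complex.add_im, Complex.inv_im, Complex.sub_im, Complex.mul_im] at h1
    norm_num at h1
    rw [← h1, ← hA]
    field_simp
    ring
  have hre : 4 * β.re - 2 = ζ.re * (1 + A⁻¹) := by
    have h1 := congrArg Complex.re hsum
    rw [hζ'eq] at h1
    simp only [Complex.add_re, Complex.inv_re, Complex.sub_re, Complex.mul_re] at h1
    norm_num at h1
    rw [← h1, ← hA]
    field_simp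
  -- bounds for `ζ.im ^ 2, ζ.re ^ 2 ≤ A`
  have hzi : ζ.im ^ 2 ≤ A := by
    rw [hA, Complex.normSq_apply]; nlinarith [mul_self_nonneg ζ.re]
  have hzr : ζ.re ^ 2 ≤ A := by
    rw [hA, Complex.normSq_apply]; nlinarith [mul_self_nonneg ζ.im]
  set E := (1 + ε) ^ 4 with hE
  have hE1 : 1 ≤ E := one_le_pow₀ (by linarith)
  have hEpos : 0 < E := by linarith
  have hAinv : A * A⁻¹ = 1 := mul_inv_cancel₀ hA0.ne'
  have hAi0 : 0 < A⁻¹ := inv_pos.2 hA0
  have hAi : A⁻¹ ≤ E := by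
    rw [inv_le_comm₀ hA0 hEpos, inv_le_iff_one_le_mul₀ hEpos]
    exact hAge
  -- `A (1 - A⁻¹)² = A - 2 + A⁻¹ ≤ E + E⁻¹ - 2`
  have hfun : A + A⁻¹ ≤ E + E⁻¹ := by
    -- convexity of x + 1/x on [1/E, E]
    have hEi : E * E⁻¹ = 1 := mul_inv_cancel₀ hEpos.ne'
    have h1 : 0 ≤ (E - A) * (1 - E⁻¹ * A⁻¹) := by
      apply mul_nonneg (by linarith)
      have : E⁻¹ * A⁻¹ ≤ 1 := by
        calc E⁻¹ * A⁻¹ ≤ E⁻¹ * E := by gcongr
          _ = 1 := by rw [mul_comm]; exact hEi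
      linarith
    have h2 : (E - A) * (1 - E⁻¹ * A⁻¹) = E - A - A⁻¹ + E⁻¹ := by
      have : (E - A) * (1 - E⁻¹ * A⁻¹) = E - A - (E * E⁻¹) * A⁻¹ + (A * A⁻¹) * E⁻¹ := by ring
      rw [this, hEi, hAinv]; ring
    linarith
  have hroot : E + E⁻¹ - 2 ≤ (8 * ε) ^ 2 := by
    -- `E + E⁻¹ - 2 = (E-1)²/E`
    set u := (1 + ε) ^ 2 with hu
    have hu1 : 1 ≤ u := one_le_pow₀ (by linarith)
    have hEu : E = u ^ 2 := by rw [hE, hu]; ring
    have h3 : E + E⁻¹ - 2 = (u - u⁻¹) ^ 2 := by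
      rw [hEu]
      have hu0 : u ≠ 0 := by positivity
      field_simp
      ring
    rw [h3]
    have h4 : 0 ≤ u - u⁻¹ := by
      have : u⁻¹ ≤ 1 := inv_le_one_of_one_le₀ hu1
      linarith
    have h5 : u - u⁻¹ ≤ 8 * ε := by
      have h6 : u ≤ 1 + 3 * ε := by rw [hu]; nlinarith
      have h7 : 2 - u ≤ u⁻¹ := by
        have hu0 : 0 < u := by linarith
        rw [← sub_nonneg]
        have : u⁻¹ - (2 - u) = (u - 1) ^ 2 / u := by field_simp; ring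
        rw [this]; positivity
      linarith
    gcongr
  have him2 : (4 * β.im) ^ 2 ≤ (8 * ε) ^ 2 := by
    rw [him, mul_pow]
    calc ζ.im ^ 2 * (1 - A⁻¹) ^ 2 ≤ A * (1 - A⁻¹) ^ 2 := by gcongr
      _ = A + A⁻¹ - 2 := by
        have : A * (1 - A⁻¹) ^ 2 = A - 2 * (A * A⁻¹) + (A * A⁻¹) * A⁻¹ := by ring
        rw [this, hAinv]; ring
      _ ≤ (8 * ε) ^ 2 := by linarith
  have hre2 : (4 * β.re - 2) ^ 2 ≤ (2 + 8 * ε) ^ 2 := by
    rw [hre, mul_pow]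
    calc ζ.re ^ 2 * (1 + A⁻¹) ^ 2 ≤ A * (1 + A⁻¹) ^ 2 := by gcongr
      _ = A + A⁻¹ + 2 := by
        have : A * (1 + A⁻¹) ^ 2 = A + 2 * (A * A⁻¹) + (A * A⁻¹) * A⁻¹ := by ring
        rw [this, hAinv]; ring
      _ ≤ (8 * ε) ^ 2 + 4 := by linarith
      _ ≤ (2 + 8 * ε) ^ 2 := by nlinarith
  have h1 := abs_le_of_sq_le_sq him2 (by positivity)
  have h2 := abs_le_of_sq_le_sq' hre2 (by positivity)
  refine ⟨?_, ?_, ?_⟩
  · rw [abs_mul, abs_of_pos (by norm_num : (0:ℝ) < 4)] at h1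
    linarith
  · linarith [h2.1]
  · linarith [h2.2]

end DF72
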