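import Pool.Agent.Lib.MP_df72c7_an.C5

namespace DF72

open Set Filter Topology

variable {X : Type*} [NormedAddCommGroup X] [NormedSpace ℂ X]

lemma exists_pow_le (C : ℕ) {κ : ℝ} (hκ : 0 < κ) : ∃ M : ℝ, 1 < M ∧ M ^ C ≤ 1 + κ := by
  have h : ContinuousAt (fun x : ℝ => x ^ C) 1 := (continuous_pow C).continuousAt
  have h2 : Tendsto (fun x : ℝ => x ^ C) (𝓝[>] 1) (𝓝 1) := by
    have := h.tendsto
    simp only [one_pow] at this
    exact this.mono_left nhdsWithin_le_nhds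
  have h3 : ∀ᶠ x in 𝓝[>] (1:ℝ), x ^ C < 1 + κ := h2.eventually (gt_mem_nhds (by linarith))
  have h4 : ∀ᶠ x in 𝓝[>] (1:ℝ), 1 < x := eventually_mem_nhdsWithin
  obtain ⟨M, hM1, hM2⟩ := (h3.and h4).exists
  exact ⟨M, hM2, hM1.le⟩

/-- the parametrization `(a,b) ↦ a w + b z` -/
def TT (w z : X) (h : ℂ × ℂ) : X := h.1 • w + h.2 • z

lemma TT_add (w z : X) (h g : ℂ × ℂ) : TT w z (h + g) = TT w z h + TT w z g := by
  simp only [TT, Prod.fst_add, Prod.snd_add, add_smul]; abel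

lemma TT_smul (w z : X) (a : ℂ) (h : ℂ × ℂ) : TT w z (a • h) = a • TT w z h := by
  simp only [TT, Prod.smul_fst, Prod.smul_snd, smul_eq_mul, smul_add, smul_smul]

lemma norm_TT_le (w z : X) (h : ℂ × ℂ) : ‖TT w z h‖ ≤ ‖h.1‖ * ‖w‖ + ‖h.2‖ * ‖z‖ := by
  refine (norm_add_le _ _).trans ?_
  rw [norm_smul, norm_smul]

lemma num_bounds {η ε : ℝ} (hη : 0 < η) (hε : 8 * ε ≤ η) {β : ℂ}
    (hβ0 : η ≤ ‖β‖) (hβ1 : η ≤ ‖1 - β‖) (h1 : |β.im| ≤ 2 * ε) (h2 : -(2 * ε) ≤ β.re)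
    (h3 : β.re ≤ 1 + 2 * ε) : η / 2 ≤ β.re ∧ β.re ≤ 1 - η / 2 := by
  have e1 : ‖β‖ ≤ |β.re| + |β.im| := Complex.norm_le_abs_re_add_abs_im β
  have e2 : ‖1 - β‖ ≤ |(1 - β).re| + |(1 - β).im| := Complex.norm_le_abs_re_add_abs_im (1 - β)
  simp only [Complex.sub_re, Complex.sub_im, Complex.one_re, Complex.one_im, zero_sub,
    abs_neg] at e2
  constructor
  · rcases le_total 0 β.re with h | h
    · rw [abs_of_nonneg h] at e1; linarith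
    · rw [abs_of_nonpos h] at e1; linarith
  · rcases le_total 0 (1 - β.re) with h | h
    · rw [abs_of_nonneg h] at e2; linarith
    · rw [abs_of_nonpos h] at e2; linarith

/-- coefficient bounds -/
lemma coef_bound {P R : X →L[ℂ] X} (hPn : ∀ x, ‖P x‖ ≤ 2 * ‖x‖) (hRn : ∀ x, ‖R x‖ ≤ 2 * ‖x‖)
    {w z : X} (hw1 : ‖w‖ = 1) (hw : P w = w) (hPz : P z = 0) {β : ℂ} {c η : ℝ} (hη : 0 < η)
    (hc0 : 0 < c) (hc1 : c ≤ 1) (hPs : P (R w) = β • w)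
    (hRz : R z = ((c : ℂ)⁻¹ * (1 - β)) • R w) (hβη : η ≤ ‖β‖) (hβη' : η ≤ ‖1 - β‖)
    (hβn : ‖β‖ ≤ 2) (h : ℂ × ℂ) {k : X} (hk : P k = 0) (hk' : P (R k) = 0) :
    ‖h.1‖ ≤ 2 * ‖TT w z h + k‖ ∧ ‖h.2‖ ≤ 8 / η ^ 2 * ‖TT w z h + k‖ := by
  have hPy : P (TT w z h + k) = h.1 • w := by
    rw [map_add, hk, add_zero, TT, map_add, map_smul, map_smul, hw, hPz, smul_zero, add_zero]
  have h1 : ‖h.1‖ ≤ 2 * ‖TT w z h + k‖ := by
    have := hPn (TT w z h + k)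
    rwa [hPy, norm_smul, hw1, mul_one] at this
  refine ⟨h1, ?_⟩
  have hPRy : P (R (TT w z h + k)) = ((h.1 + h.2 * ((c : ℂ)⁻¹ * (1 - β))) * β) • w := by
    rw [map_add, map_add, hk', add_zero, TT, map_add, map_add, map_smul, map_smul, map_smul,
      map_smul, hRz, map_smul, hPs, smul_smul, smul_smul, smul_smul, ← add_smul]
    congr 1; ring
  have h2 : ‖(h.1 + h.2 * ((c : ℂ)⁻¹ * (1 - β))) * β‖ ≤ 4 * ‖TT w z h + k‖ := by
    have e1 := hPn (R (TT w z h + k))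
    have e2 := hRn (TT w z h + k)
    rw [hPRy, norm_smul, hw1, mul_one] at e1
    calc _ ≤ _ := e1
      _ ≤ 2 * (2 * ‖TT w z h + k‖) := by gcongr
      _ = _ := by ring
  have h3 : ‖h.2 * ((c : ℂ)⁻¹ * (1 - β)) * β‖ ≤ 8 * ‖TT w z h + k‖ := by
    have e1 : h.2 * ((c : ℂ)⁻¹ * (1 - β)) * β
        = (h.1 + h.2 * ((c : ℂ)⁻¹ * (1 - β))) * β - h.1 * β := by ring
    rw [e1]
    calc _ ≤ ‖(h.1 + h.2 * ((c : ℂ)⁻¹ * (1 - β))) * β‖ + ‖h.1 * β‖ := norm_sub_le _ _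
      _ ≤ 4 * ‖TT w z h + k‖ + (2 * ‖TT w z h + k‖) * 2 := by
        rw [norm_mul h.1]
        gcongr
      _ = _ := by ring
  rw [norm_mul, norm_mul, norm_mul, norm_inv, Complex.norm_real, Real.norm_eq_abs,
    abs_of_pos hc0] at h3
  have h4 : η ^ 2 ≤ c⁻¹ * ‖1 - β‖ * ‖β‖ := by
    have : 1 ≤ c⁻¹ := (one_le_inv₀ hc0).2 hc1
    calc η ^ 2 = 1 * η * η := by ring
      _ ≤ c⁻¹ * ‖1 - β‖ * ‖β‖ := by gcongr
  have h5 : ‖h.2‖ * η ^ 2 ≤ 8 * ‖TT w z h + k‖ := by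
    calc ‖h.2‖ * η ^ 2 ≤ ‖h.2‖ * (c⁻¹ * ‖1 - β‖ * ‖β‖) := by gcongr
      _ = ‖h.2‖ * (c⁻¹ * ‖1 - β‖) * ‖β‖ := by ring
      _ ≤ _ := h3
  rw [div_mul_eq_mul_div, le_div_iff₀ (by positivity)]
  exact h5

/-- the conjugated rotation in coordinates -/
lemma act_rot {ε : ℝ} (hε0 : 0 ≤ ε) {P R : X →L[ℂ] X} (hP : Herm ε P) (hR : Herm ε R)
    {w z : X} (hw : P w = w) (hPz : P z = 0) {β c : ℂ} (hc0 : c ≠ 0)
    (hPs : P (R w) = β • w) (hRz : R z = (c⁻¹ * (1 - β)) • R w)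
    (hsw : R w = β • w + c • z) (h : ℂ × ℂ) {k : X} (hk : P k = 0) (hk' : P (R k) = 0)
    {χ : ℂ} (hχ : ‖χ‖ = 1) :
    ‖(TT w z h + k) + ((χ - 1) * (h.1 * (1 - (1 + Complex.I) * β)
        - h.2 * ((1 + Complex.I) * (β * (1 - β)) / c))) •
        TT w z (1 + (Complex.I - 1) * β, (Complex.I - 1) * c)‖
      ≤ (1 + ε) ^ 3 * ‖TT w z h + k‖ := by
  set vs : ℂ := h.1 * (1 - (1 + Complex.I) * β) - h.2 * ((1 + Complex.I) * (β * (1 - β)) / c)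
    with hvs
  set y : X := TT w z h + k with hy
  set y1 : X := y + (-Complex.I - 1) • R y with hy1
  set y2 : X := y1 + (χ - 1) • P y1 with hy2
  set y3 : X := y2 + (Complex.I - 1) • R y2 with hy3
  have e1 : ‖y1‖ ≤ (1 + ε) * ‖y‖ := hR.2 (-Complex.I) (by simp) y
  have e2 : ‖y2‖ ≤ (1 + ε) * ‖y1‖ := hP.2 χ hχ y1
  have e3 : ‖y3‖ ≤ (1 + ε) * ‖y2‖ := hR.2 Complex.I (by simp) y2
  have e4 : P y1 = vs • w := by
    have f1 : P y = h.1 • w := by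
      rw [hy, map_add, hk, add_zero, TT, map_add, map_smul, map_smul, hw, hPz, smul_zero, add_zero]
    have f2 : P (R y) = ((h.1 + h.2 * (c⁻¹ * (1 - β))) * β) • w := by
      rw [hy, map_add, map_add, hk', add_zero, TT, map_add, map_add, map_smul, map_smul, map_smul,
        map_smul, hRz, map_smul, hPs, smul_smul, smul_smul, smul_smul, ← add_smul]
      congr 1; ring
    rw [hy1, map_add, map_smul, f1, f2, smul_smul, ← add_smul]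
    congr 1
    rw [hvs]
    field_simp
    ring
  have e5 : R y1 = (-Complex.I) • R y := by
    rw [hy1, map_add, map_smul, hR.1]; module
  have e6 : y1 + (Complex.I - 1) • R y1 = y := by
    rw [e5, hy1]
    have : (-Complex.I - 1) + (Complex.I - 1) * (-Complex.I) = 0 := by
      linear_combination (-1 : ℂ) * Complex.I_sq
    have h2 : y + (-Complex.I - 1) • R y + (Complex.I - 1) • (-Complex.I) • R y
        = y + ((-Complex.I - 1) + (Complex.I - 1) * (-Complex.I)) • R y := by module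
    rw [h2, this, zero_smul, add_zero]
  have e7 : y3 = y + ((χ - 1) * vs) • TT w z (1 + (Complex.I - 1) * β, (Complex.I - 1) * c) := by
    rw [hy3, hy2, e4]
    have h2 : y1 + (χ - 1) • vs • w + (Complex.I - 1) • R (y1 + (χ - 1) • vs • w)
        = (y1 + (Complex.I - 1) • R y1) + ((χ - 1) * vs) • (w + (Complex.I - 1) • R w) := by
      rw [map_add, map_smul, map_smul]; module
    rw [h2, e6]
    congr 2
    rw [hsw, TT]
    module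
  rw [← e7]
  calc ‖y3‖ ≤ (1 + ε) * ((1 + ε) * ((1 + ε) * ‖y‖)) := by
        refine e3.trans ?_
        gcongr
        refine e2.trans ?_
        gcongr
    _ = _ := by ring

/-- comparison with the unitary rotation -/
lemma rot_compare {w z : X} (hw1 : ‖w‖ = 1) {β : ℂ} {τ c η : ℝ} {θ : ℂ} (hη : 0 < η)
    (hη1 : η ≤ 1 / 2) (hβθ : β = (τ : ℂ) + θ) (hτ0 : 0 < τ) (hτ1 : 0 < 1 - τ)
    (hcsq : c ^ 2 = τ * (1 - τ)) (hc0 : 0 < c) (hc1 : c ≤ 1) (hcη : η / 2 ≤ c)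
    (hθ1 : ‖θ‖ ≤ 1) (hβn : ‖β‖ ≤ 2) (hβn' : ‖1 - β‖ ≤ 2) (hz : ‖z‖ ≤ 20 / η)
    (h : ℂ × ℂ) {Nk : ℝ} (hN : 0 ≤ Nk) (h1 : ‖h.1‖ ≤ 2 * Nk) (h2 : ‖h.2‖ ≤ 8 / η ^ 2 * Nk)
    (k : X) {χ : ℂ} (hχ : ‖χ‖ = 1) :
    ‖TT w z (rot χ (1 + (Complex.I - 1) * τ, (Complex.I - 1) * c) h) + k‖ ≤
      ‖(TT w z h + k) + ((χ - 1) * (h.1 * (1 - (1 + Complex.I) * β)
        - h.2 * ((1 + Complex.I) * (β * (1 - β)) / c))) •
        TT w z (1 + (Complex.I - 1) * β, (Complex.I - 1) * c)‖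
      + 10000 / η ^ 4 * ‖θ‖ * Nk := by
  set ν : ℂ × ℂ := (1 + (Complex.I - 1) * τ, (Complex.I - 1) * c) with hν
  set vs : ℂ := h.1 * (1 - (1 + Complex.I) * β) - h.2 * ((1 + Complex.I) * (β * (1 - β)) / c)
    with hvs
  have hcC : (c : ℂ) ≠ 0 := by exact_mod_cast hc0.ne'
  have hcsqC : (c : ℂ) ^ 2 = τ * (1 - τ) := by exact_mod_cast hcsq
  have hν1n : ‖ν.1‖ ^ 2 = (1 - τ) ^ 2 + τ ^ 2 := by
    rw [← Complex.normSq_eq_norm_sq, Complex.normSq_apply]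
    simp [hν]
    ring
  have hip : ip h ν = h.1 * (1 - (1 + Complex.I) * τ) - h.2 * ((1 + Complex.I) * c) := by
    simp only [ip, hν, map_add, map_mul, map_sub, map_one, Complex.conj_I, Complex.conj_ofReal]
    ring
  have hd1 : ip h ν - vs = (1 + Complex.I) * θ * (h.1 + h.2 * ((1 - 2 * τ - θ) / c)) := by
    rw [hip, hvs, hβθ]
    field_simp
    linear_combination (-(1 + Complex.I) * h.2) * hcsqC
  have hdiff : TT w z (rot χ ν h) + k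
      = ((TT w z h + k) + ((χ - 1) * vs) • TT w z (1 + (Complex.I - 1) * β, (Complex.I - 1) * c))
      + (χ - 1) • ((ip h ν - vs) • TT w z ν + (-(vs * ((Complex.I - 1) * θ))) • w) := by
    have e2 : TT w z (1 + (Complex.I - 1) * β, (Complex.I - 1) * c)
        = TT w z ν + ((Complex.I - 1) * θ) • w := by
      rw [hν, hβθ]
      simp only [TT]
      module
    rw [e2, rot, TT_add, TT_smul]
    module
  rw [hdiff]
  refine (norm_add_le _ _).trans ?_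
  gcongr
  have hIn : ‖(1 : ℂ) + Complex.I‖ ≤ 2 := by
    calc _ ≤ ‖(1:ℂ)‖ + ‖Complex.I‖ := norm_add_le _ _
      _ = 2 := by simp; norm_num
  have hIn' : ‖Complex.I - 1‖ ≤ 2 := by
    calc _ ≤ ‖Complex.I‖ + ‖(1:ℂ)‖ := norm_sub_le _ _
      _ = 2 := by simp; norm_num
  have hχn : ‖χ - 1‖ ≤ 2 := by
    calc _ ≤ ‖χ‖ + ‖(1:ℂ)‖ := norm_sub_le _ _
      _ = 2 := by rw [hχ]; simp; norm_num
  have hcinv : c⁻¹ ≤ 2 / η := by
    rw [inv_le_comm₀ hc0 (by positivity), inv_div]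
    exact hcη
  have hcinv0 : 0 < c⁻¹ := inv_pos.2 hc0
  set u : ℝ := 1 / η with hu
  have hu2 : 2 ≤ u := by
    rw [hu, le_div_iff₀ hη]; linarith
  have hu8 : 8 / η ^ 2 = 8 * u ^ 2 := by rw [hu]; field_simp
  have hu1 : 2 / η = 2 * u := by rw [hu]; ring
  have hu20 : 20 / η = 20 * u := by rw [hu]; ring
  have hu4 : 10000 / η ^ 4 = 10000 * u ^ 4 := by rw [hu]; field_simp
  rw [hu8] at h2
  rw [hu1] at hcinv
  rw [hu20] at hz
  rw [hu4]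
  clear_value u
  have hu0 : 0 < u := by linarith
  have hb1 : ‖h.1 + h.2 * ((1 - 2 * τ - θ) / c)‖ ≤ 33 * u ^ 3 * Nk := by
    have e1 : ‖(1 - 2 * τ - θ : ℂ)‖ ≤ 2 := by
      have e2 : ‖((1 - 2 * τ : ℝ) : ℂ)‖ ≤ 1 := by
        rw [Complex.norm_real, Real.norm_eq_abs, abs_le]; constructor <;> linarith
      calc ‖(1 - 2 * τ - θ : ℂ)‖ = ‖((1 - 2 * τ : ℝ) : ℂ) - θ‖ := by push_cast; rfl
        _ ≤ ‖((1 - 2 * τ : ℝ) : ℂ)‖ + ‖θ‖ := norm_sub_le _ _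
        _ ≤ 2 := by linarith
    calc _ ≤ ‖h.1‖ + ‖h.2 * ((1 - 2 * τ - θ) / c)‖ := norm_add_le _ _
      _ = ‖h.1‖ + ‖h.2‖ * (‖(1 - 2 * τ - θ : ℂ)‖ * c⁻¹) := by
        rw [norm_mul, norm_div, Complex.norm_real, Real.norm_eq_abs, abs_of_pos hc0]
        rfl
      _ ≤ 2 * Nk + (8 * u ^ 2 * Nk) * (2 * (2 * u)) := by gcongr
      _ = (2 + 32 * u ^ 3) * Nk := by ring
      _ ≤ 33 * u ^ 3 * Nk := by
        gcongr
        nlinarith [pow_pos hu0 2, pow_pos hu0 3]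
  have hb2 : ‖TT w z ν‖ ≤ 41 * u := by
    have e1 := norm_TT_le w z ν
    have e2 : ‖ν.1‖ ≤ 1 := by
      have : ‖ν.1‖ ^ 2 ≤ 1 ^ 2 := by rw [hν1n]; nlinarith
      exact (sq_le_sq₀ (norm_nonneg _) zero_le_one).1 this
    have e3 : ‖ν.2‖ ≤ 2 := by
      calc ‖ν.2‖ = ‖Complex.I - 1‖ * c := by
            simp only [hν]; rw [norm_mul, Complex.norm_real, Real.norm_eq_abs, abs_of_pos hc0]
        _ ≤ 2 * 1 := by gcongr
        _ = 2 := by norm_num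
    calc _ ≤ 1 * 1 + 2 * (20 * u) := by
          refine e1.trans ?_
          rw [hw1]
          gcongr
      _ ≤ 41 * u := by linarith
  have hb3 : ‖vs‖ ≤ 135 * u ^ 3 * Nk := by
    have e1 : ‖(1 - (1 + Complex.I) * β : ℂ)‖ ≤ 5 := by
      calc _ ≤ ‖(1:ℂ)‖ + ‖(1 + Complex.I) * β‖ := norm_sub_le _ _
        _ ≤ 1 + 2 * 2 := by rw [norm_one, norm_mul]; gcongr
        _ = 5 := by norm_num
    have e2 : ‖((1 + Complex.I) * (β * (1 - β)) / c : ℂ)‖ ≤ (2 * (2 * 2)) * (2 * u) := by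
      rw [norm_div, norm_mul, norm_mul, Complex.norm_real, Real.norm_eq_abs, abs_of_pos hc0,
        div_eq_mul_inv]
      gcongr
    rw [hvs]
    calc _ ≤ ‖h.1 * (1 - (1 + Complex.I) * β)‖
          + ‖h.2 * ((1 + Complex.I) * (β * (1 - β)) / c)‖ := norm_sub_le _ _
      _ ≤ (2 * Nk) * 5 + (8 * u ^ 2 * Nk) * ((2 * (2 * 2)) * (2 * u)) := by
        rw [norm_mul, norm_mul]; gcongr
      _ = (10 + 128 * u ^ 3) * Nk := by ring
      _ ≤ _ := by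
        gcongr
        nlinarith [pow_pos hu0 2, pow_pos hu0 3]
  have hb4 : ‖ip h ν - vs‖ ≤ 2 * ‖θ‖ * (33 * u ^ 3 * Nk) := by
    rw [hd1, norm_mul, norm_mul]
    gcongr
  rw [norm_smul]
  have hθ0 := norm_nonneg θ
  calc ‖χ - 1‖ * ‖(ip h ν - vs) • TT w z ν + (-(vs * ((Complex.I - 1) * θ))) • w‖
      ≤ 2 * (‖ip h ν - vs‖ * ‖TT w z ν‖ + ‖vs‖ * (‖Complex.I - 1‖ * ‖θ‖)) := by
        gcongr
        refine (norm_add_le _ _).trans ?_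
        rw [norm_smul, norm_smul, norm_neg, norm_mul, norm_mul, hw1, mul_one]
    _ ≤ 2 * ((2 * ‖θ‖ * (33 * u ^ 3 * Nk)) * (41 * u) + (135 * u ^ 3 * Nk) * (2 * ‖θ‖)) := by
        gcongr
    _ = (5412 * u ^ 4 + 540 * u ^ 3) * (‖θ‖ * Nk) := by ring
    _ ≤ (10000 * u ^ 4) * (‖θ‖ * Nk) := by
        gcongr
        nlinarith [pow_pos hu0 3, pow_pos hu0 4]
    _ = _ := by ring

end DF72
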