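import Pool.Agent.Lib.MP_df72c7_an.C6

namespace DF72

open Set Filter Topology

/-- numerical end game -/
lemma rank_one_num {E : Type*} [NormedAddCommGroup E] [NormedSpace ℂ E] {Q σ δ κ : ℝ}
    (hQ : 1 ≤ Q) (hσ : σ = Q - 1) (hσ1 : σ ≤ 1 / 10) (hδ : 10 * σ ≤ δ)
    {w k : E} (hw : ‖w‖ = 1) (hlow : ∀ r : ℝ, 0 ≤ r → r ≤ 2 * ‖((r : ℝ) : ℂ) • w + k‖)
    (hκ1 : κ ≤ Q) (hκ2 : 1 ≤ Q * κ) {a b : ℂ} {y : E}
    (h1 : ‖y‖ ≤ Q * ‖((√(‖a‖ ^ 2 + (‖b‖ / κ) ^ 2) : ℝ) : ℂ) • w + k‖)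
    (h2 : ‖((√(‖a‖ ^ 2 + (‖b‖ / κ) ^ 2) : ℝ) : ℂ) • w + k‖ ≤ Q * ‖y‖) :
    ‖y‖ ≤ (1 + δ) * ‖((√(‖a‖ ^ 2 + ‖b‖ ^ 2) : ℝ) : ℂ) • w + k‖ ∧
      ‖((√(‖a‖ ^ 2 + ‖b‖ ^ 2) : ℝ) : ℂ) • w + k‖ ≤ (1 + δ) * ‖y‖ := by
  have hQ0 : 0 < Q := by linarith
  have hκ0 : 0 < κ := by
    by_contra h
    push Not at h
    nlinarith
  set r : ℝ := √(‖a‖ ^ 2 + ‖b‖ ^ 2) with hr
  set r' : ℝ := √(‖a‖ ^ 2 + (‖b‖ / κ) ^ 2) with hr'
  have hr0 : 0 ≤ r := Real.sqrt_nonneg _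
  have hr'0 : 0 ≤ r' := Real.sqrt_nonneg _
  have hrs : r ^ 2 = ‖a‖ ^ 2 + ‖b‖ ^ 2 := Real.sq_sqrt (by positivity)
  have hr's : r' ^ 2 = ‖a‖ ^ 2 + (‖b‖ / κ) ^ 2 := Real.sq_sqrt (by positivity)
  -- comparison of `r` and `r'`
  have hinv1 : κ⁻¹ ≤ Q := by
    rw [inv_le_iff_one_le_mul₀ hκ0]; exact hκ2
  have hinv0 : 0 < κ⁻¹ := inv_pos.2 hκ0
  have hrr' : r' ≤ Q * r := by
    have : r' ^ 2 ≤ (Q * r) ^ 2 := by
      rw [hr's, mul_pow, hrs, div_eq_mul_inv, mul_pow]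
      have e1 : (κ⁻¹) ^ 2 ≤ Q ^ 2 := by gcongr
      have e2 : 1 ≤ Q ^ 2 := one_le_pow₀ hQ
      have e3 := sq_nonneg ‖a‖
      have e4 := sq_nonneg ‖b‖
      nlinarith
    exact (sq_le_sq₀ hr'0 (by positivity)).1 this
  have hr'r : r ≤ Q * r' := by
    have : r ^ 2 ≤ (Q * r') ^ 2 := by
      rw [hrs, mul_pow, hr's, div_eq_mul_inv, mul_pow]
      have e1 : 1 ≤ Q ^ 2 * (κ⁻¹) ^ 2 := by
        rw [← mul_pow]
        apply one_le_pow₀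
        rw [← div_eq_mul_inv, le_div_iff₀ hκ0]
        linarith
      have e2 : 1 ≤ Q ^ 2 := one_le_pow₀ hQ
      have e3 := sq_nonneg ‖a‖
      have e4 := sq_nonneg ‖b‖
      nlinarith
    exact (sq_le_sq₀ hr0 (by positivity)).1 this
  have hd : |r' - r| ≤ σ * r' ∧ |r' - r| ≤ σ * r := by
    have hσ0 : 0 ≤ σ := by linarith
    constructor
    · rw [abs_le]
      constructor
      · rw [hσ]; linarith
      · -- `r' - r ≤ σ r'`
        have : r' ≤ Q * r := hrr'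
        have h3 : r' * (2 - Q) ≤ r := by nlinarith
        rw [hσ]; linarith
    · rw [abs_le]
      constructor
      · have : r ≤ Q * r' := hr'r
        have h3 : r * (2 - Q) ≤ r' := by nlinarith
        rw [hσ]; linarith
      · rw [hσ]; linarith
  have hσ0 : 0 ≤ σ := by linarith
  set A := ‖((r : ℝ) : ℂ) • w + k‖ with hA
  set A' := ‖((r' : ℝ) : ℂ) • w + k‖ with hA'
  have hA0 : 0 ≤ A := norm_nonneg _
  have hA'0 : 0 ≤ A' := norm_nonneg _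
  have h3 : A' ≤ A + |r' - r| := by
    have : ((r' : ℝ) : ℂ) • w + k = (((r : ℝ) : ℂ) • w + k) + ((r' - r : ℝ) : ℂ) • w := by
      push_cast; module
    rw [hA', this]
    refine (norm_add_le _ _).trans ?_
    rw [norm_smul, hw, mul_one, Complex.norm_real, Real.norm_eq_abs]
  have h4 : A ≤ A' + |r' - r| := by
    have : ((r : ℝ) : ℂ) • w + k = (((r' : ℝ) : ℂ) • w + k) - ((r' - r : ℝ) : ℂ) • w := by
      push_cast; module
    rw [hA, this]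
    refine (norm_sub_le _ _).trans ?_
    rw [norm_smul, hw, mul_one, Complex.norm_real, Real.norm_eq_abs]
  have h5 := hlow r hr0
  have h6 := hlow r' hr'0
  rw [← hA] at h5
  rw [← hA'] at h6
  have h7 : A' ≤ (1 + 2 * σ) * A := by
    calc A' ≤ A + σ * r := by linarith [hd.2]
      _ ≤ A + σ * (2 * A) := by gcongr
      _ = _ := by ring
  have h8 : A ≤ (1 + 2 * σ) * A' := by
    calc A ≤ A' + σ * r' := by linarith [hd.1]
      _ ≤ A' + σ * (2 * A') := by gcongr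
      _ = _ := by ring
  have hQδ : Q * (1 + 2 * σ) ≤ 1 + δ := by
    have : Q = 1 + σ := by linarith
    rw [this]
    nlinarith
  have hy0 := norm_nonneg y
  constructor
  · calc ‖y‖ ≤ Q * A' := h1
      _ ≤ Q * ((1 + 2 * σ) * A) := by gcongr
      _ = (Q * (1 + 2 * σ)) * A := by ring
      _ ≤ _ := by gcongr
  · calc A ≤ (1 + 2 * σ) * A' := h8
      _ ≤ (1 + 2 * σ) * (Q * ‖y‖) := by gcongr
      _ = (Q * (1 + 2 * σ)) * ‖y‖ := by ring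
      _ ≤ _ := by gcongr

/-- **Rank one lemma.** -/
theorem rank_one (X : Type*) [NormedAddCommGroup X] [NormedSpace ℂ X] {η δ : ℝ} (hη : 0 < η)
    (hη1 : η ≤ 1 / 2) (hδ : 0 < δ) : ∃ ε > 0, ∀ P R : X →L[ℂ] X, Herm ε P → Herm ε R →
      ∀ w, ‖w‖ = 1 → P w = w → ∀ β : ℂ, P (R w) = β • w → η ≤ ‖β‖ → η ≤ ‖1 - β‖ →
      ∃ z ∈ Submodule.span ℂ {w, R w}, ‖z‖ = 1 ∧ P z = 0 ∧
        ∀ (a b : ℂ) (k : X), P k = 0 → P (R k) = 0 →
          ‖a • w + b • z + k‖ ≤ (1 + δ) * ‖((√(‖a‖ ^ 2 + ‖b‖ ^ 2) : ℝ) : ℂ) • w + k‖ ∧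
          ‖((√(‖a‖ ^ 2 + ‖b‖ ^ 2) : ℝ) : ℂ) • w + k‖ ≤ (1 + δ) * ‖a • w + b • z + k‖ := by
  obtain ⟨C, hC⟩ := gen_lemma (η := η / 4) (by positivity)
  set δ' : ℝ := min δ 1 / 10 with hδ'
  have hδ'0 : 0 < δ' := by
    have : 0 < min δ 1 := lt_min hδ one_pos
    positivity
  have hδ'1 : δ' ≤ 1 / 10 := by
    have : min δ 1 ≤ 1 := min_le_right _ _
    rw [hδ']; linarith
  have hδ'2 : 10 * δ' ≤ δ := by
    have : min δ 1 ≤ δ := min_le_left _ _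
    rw [hδ']; linarith
  clear_value δ'
  obtain ⟨M, hM1, hMC⟩ := exists_pow_le C hδ'0
  -- the constant of the perturbation
  set C₁ : ℝ := 10000 / η ^ 4 with hC₁
  have hC₁0 : 0 < C₁ := by positivity
  set ε : ℝ := min (η / 8) ((M - 1) / (16 + 2 * C₁)) with hε
  have hε0 : 0 < ε := lt_min (by positivity) (div_pos (by linarith) (by positivity))
  have hεη : 8 * ε ≤ η := by
    have : ε ≤ η / 8 := min_le_left _ _
    linarith
  have hεM : ε * (16 + 2 * C₁) ≤ M - 1 := by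
    have : ε ≤ (M - 1) / (16 + 2 * C₁) := min_le_right _ _
    rwa [le_div_iff₀ (by positivity)] at this
  clear_value ε
  have hε1 : ε ≤ 1 / 16 := by linarith
  have hε3 : (1 + ε) ^ 3 ≤ 1 + 8 * ε := by
    have e1 : (1 + ε) ^ 3 = 1 + ε * (3 + ε * (3 + ε)) := by ring
    have e2 : ε * (3 + ε) ≤ 1 * 4 := by gcongr <;> linarith
    have e3 : ε * (3 + ε * (3 + ε)) ≤ ε * 8 := by
      gcongr
      linarith
    rw [e1]; linarith
  refine ⟨ε, hε0, ?_⟩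
  intro P R hP hR w hw1 hw β hβ hβη hβη'
  have hw0 : w ≠ 0 := by rintro rfl; simp at hw1
  have hβ0 : β ≠ 0 := by rintro rfl; simp at hβη; linarith
  have hβ1 : β ≠ 1 := by rintro rfl; simp at hβη'; linarith
  obtain ⟨him, hre1, hre2⟩ := almost_real hε0.le (by linarith) hP hR hw0 hw hβ hβ0 hβ1
  obtain ⟨hτ1, hτ2⟩ := num_bounds hη hεη hβη hβη' him hre1 hre2
  obtain ⟨τ, hτ⟩ : ∃ τ : ℝ, τ = β.re := ⟨_, rfl⟩
  rw [← hτ] at hre1 hre2 hτ1 hτ2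
  obtain ⟨θ, hθ⟩ : ∃ θ : ℂ, θ = β - (τ : ℂ) := ⟨_, rfl⟩
  have hθn : ‖θ‖ ≤ 2 * ε := by
    have : θ = (β.im : ℂ) * Complex.I := by
      rw [hθ, hτ]
      apply Complex.ext <;> simp
    rw [this, norm_mul, Complex.norm_I, mul_one, Complex.norm_real, Real.norm_eq_abs]
    exact him
  have hβθ : β = (τ : ℂ) + θ := by rw [hθ]; ring
  have hτ0 : 0 < τ := by linarith
  have hτ1' : 0 < 1 - τ := by linarith
  obtain ⟨c, hc⟩ : ∃ c : ℝ, c = √(τ * (1 - τ)) := ⟨_, rfl⟩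
  have hcsq : c ^ 2 = τ * (1 - τ) := by rw [hc]; exact Real.sq_sqrt (by positivity)
  have hc0 : 0 < c := by rw [hc]; exact Real.sqrt_pos.2 (by positivity)
  have hcη : η / 2 ≤ c := by
    have h1 : (η / 2) ^ 2 ≤ c ^ 2 := by
      rw [hcsq]
      have : η / 2 * (1 - η / 2) ≤ τ * (1 - τ) := by nlinarith
      nlinarith
    exact (sq_le_sq₀ (by positivity) hc0.le).1 h1
  have hc1 : c ≤ 1 := by
    have h1 : c ^ 2 ≤ 1 ^ 2 := by rw [hcsq]; nlinarith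
    exact (sq_le_sq₀ hc0.le zero_le_one).1 h1
  have hcC : (c : ℂ) ≠ 0 := by exact_mod_cast hc0.ne'
  -- vectors
  have hRs : R (R w) = R w := hR.1 w
  obtain ⟨z₁, hz₁⟩ : ∃ z₁ : X, z₁ = (c : ℂ)⁻¹ • ((1 - β) • R w - β • (w - R w)) := ⟨_, rfl⟩
  have hPz : P z₁ = 0 := by
    rw [hz₁, map_smul, map_sub, map_smul, map_smul, map_sub, hβ, hw]
    have : (1 - β) • β • w - β • (w - β • w) = 0 := by module
    rw [this, smul_zero]
  have hRz : R z₁ = ((c : ℂ)⁻¹ * (1 - β)) • R w := by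
    rw [hz₁, map_smul, map_sub, map_smul, map_smul, map_sub, hRs, sub_self, smul_zero, sub_zero,
      smul_smul]
  have hsw : R w = β • w + (c : ℂ) • z₁ := by
    rw [hz₁, smul_smul, mul_inv_cancel₀ hcC, one_smul]
    module
  have hz₁mem : z₁ ∈ Submodule.span ℂ {w, R w} := by
    have hwm : w ∈ Submodule.span ℂ {w, R w} := Submodule.subset_span (by simp)
    have hsm : R w ∈ Submodule.span ℂ {w, R w} := Submodule.subset_span (by simp)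
    rw [hz₁]
    apply Submodule.smul_mem
    apply Submodule.sub_mem _ (Submodule.smul_mem _ _ hsm)
    apply Submodule.smul_mem
    exact Submodule.sub_mem _ hwm hsm
  -- sizes
  have hβn : ‖β‖ ≤ 2 := by
    have h1 : ‖β‖ ≤ |β.re| + |β.im| := Complex.norm_le_abs_re_add_abs_im β
    rw [← hτ, abs_of_pos hτ0] at h1
    linarith
  have hβn' : ‖1 - β‖ ≤ 2 := by
    have h1 : ‖1 - β‖ ≤ |(1 - β).re| + |(1 - β).im| := Complex.norm_le_abs_re_add_abs_im (1 - β)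
    simp only [Complex.sub_re, Complex.sub_im, Complex.one_re, Complex.one_im, zero_sub,
      abs_neg] at h1
    rw [← hτ, abs_of_pos hτ1'] at h1
    linarith
  have hPn2 : ∀ x, ‖P x‖ ≤ 2 * ‖x‖ := fun x => (hP.norm_le hε0.le x).trans (by
    have := norm_nonneg x
    nlinarith)
  have hRn2 : ∀ x, ‖R x‖ ≤ 2 * ‖x‖ := fun x => (hR.norm_le hε0.le x).trans (by
    have := norm_nonneg x
    nlinarith)
  have hsn2 : ‖R w‖ ≤ 2 := by have := hRn2 w; rwa [hw1, mul_one] at this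
  have hnn3 : ‖w - R w‖ ≤ 3 := by
    calc ‖w - R w‖ ≤ ‖w‖ + ‖R w‖ := norm_sub_le _ _
      _ ≤ 3 := by rw [hw1]; linarith
  have hz₁n : ‖z₁‖ ≤ 20 / η := by
    rw [hz₁, norm_smul, norm_inv, Complex.norm_real, Real.norm_eq_abs, abs_of_pos hc0]
    have h1 : ‖(1 - β) • R w - β • (w - R w)‖ ≤ 10 := by
      calc _ ≤ ‖(1 - β) • R w‖ + ‖β • (w - R w)‖ := norm_sub_le _ _
        _ ≤ 2 * 2 + 2 * 3 := by rw [norm_smul, norm_smul]; gcongr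
        _ = 10 := by norm_num
    have h2 : c⁻¹ ≤ 2 / η := by
      rw [inv_le_comm₀ hc0 (by positivity), inv_div]
      exact hcη
    calc c⁻¹ * ‖(1 - β) • R w - β • (w - R w)‖ ≤ 2 / η * 10 := by gcongr
      _ = 20 / η := by ring
  -- the function `N`
  let ι := {k : X // P k = 0 ∧ P (R k) = 0}
  let N : ℂ × ℂ → ι → ℝ := fun h k => ‖TT w z₁ h + k‖
  have hN0 : ∀ h k, 0 ≤ N h k := fun h k => norm_nonneg _
  -- coefficient bounds
  have hco : ∀ (h : ℂ × ℂ) (k : ι), ‖h.1‖ ≤ 2 * N h k ∧ ‖h.2‖ ≤ 8 / η ^ 2 * N h k := by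
    intro h k
    exact coef_bound hPn2 hRn2 hw1 hw hPz hη hc0 hc1 hβ hRz hβη hβη' hβn h k.2.1 k.2.2
  -- invariance under the first family
  have hI1 : Inv N M (1, 0) := by
    intro χ hχ h k
    have h1 := hP.2 χ hχ (TT w z₁ h + k)
    have h2 : TT w z₁ h + k + (χ - 1) • P (TT w z₁ h + k) = TT w z₁ (rot χ (1, 0) h) + k := by
      rw [rot_e, map_add, k.2.1, add_zero]
      simp only [TT, map_add, map_smul, hw, hPz, smul_zero, add_zero]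
      module
    rw [h2] at h1
    refine h1.trans ?_
    show (1 + ε) * N h k ≤ M * N h k
    have := hN0 h k
    gcongr
    nlinarith
  -- the second family
  set ν : ℂ × ℂ := (1 + (Complex.I - 1) * τ, (Complex.I - 1) * c) with hν
  have hν1n : ‖ν.1‖ ^ 2 = (1 - τ) ^ 2 + τ ^ 2 := by
    rw [← Complex.normSq_eq_norm_sq, Complex.normSq_apply]
    simp [hν]
    ring
  have hν2n : ‖ν.2‖ ^ 2 = 2 * (τ * (1 - τ)) := by
    rw [← Complex.normSq_eq_norm_sq, Complex.normSq_apply, ← hcsq]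
    simp [hν]
    ring
  have hνn : nsq ν = 1 := by
    rw [nsq, hν1n, hν2n]; ring
  have hI2 : Inv N M ν := by
    intro χ hχ h k
    obtain ⟨hc1', hc2'⟩ := hco h k
    have h1 := act_rot hε0.le hP hR hw hPz hcC hβ hRz hsw h k.2.1 k.2.2 hχ
    have h2 := rot_compare hw1 hη hη1 hβθ hτ0 hτ1' hcsq hc0 hc1 hcη (by linarith) hβn hβn'
      hz₁n h (hN0 h k) hc1' hc2' k hχ
    have h3 := hN0 h k
    have h4 : (1 + ε) ^ 3 ≤ 1 + 8 * ε := hε3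
    calc N (rot χ ν h) k ≤ _ := h2
      _ ≤ (1 + ε) ^ 3 * N h k + C₁ * (2 * ε) * N h k := by
        gcongr
      _ ≤ (1 + 8 * ε) * N h k + C₁ * (2 * ε) * N h k := by gcongr
      _ = (1 + 8 * ε + C₁ * (2 * ε)) * N h k := by ring
      _ ≤ M * N h k := by
        gcongr
        nlinarith
  have hm : η / 4 ≤ ‖ν.1‖ ^ 2 * (1 - ‖ν.1‖ ^ 2) := by
    rw [hν1n]
    have h1 : η / 4 ≤ τ * (1 - τ) := by
      have : η / 2 * (1 - η / 2) ≤ τ * (1 - τ) := by nlinarith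
      nlinarith
    have h2 : τ * (1 - τ) ≤ 1 / 4 := by nlinarith [sq_nonneg (τ - 1 / 2)]
    have h3 : ((1 - τ) ^ 2 + τ ^ 2) * (1 - ((1 - τ) ^ 2 + τ ^ 2))
        = (1 - 2 * (τ * (1 - τ))) * (2 * (τ * (1 - τ))) := by ring
    rw [h3]
    nlinarith
  have hgen := fun h k => hC hN0 hM1.le hI1 hνn hm hI2 h k
  -- the norm of `z₁`
  set Q := M ^ C with hQ
  have hQ1 : 1 ≤ Q := one_le_pow₀ hM1.le
  have hQ0 : 0 < Q := by linarith
  have hzero : P (0 : X) = 0 ∧ P (R (0 : X)) = 0 := by simp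
  set κ := ‖z₁‖ with hκ
  have hκ' : κ ≤ Q ∧ 1 ≤ Q * κ := by
    have h1 := hgen (0, 1) ⟨0, hzero⟩
    have h2 : nsq ((0 : ℂ), (1 : ℂ)) = 1 := by simp [nsq]
    rw [h2, Real.sqrt_one] at h1
    have h3 : N (0, 1) ⟨0, hzero⟩ = κ := by simp [N, TT, hκ]
    have h4 : N (((1 : ℝ) : ℂ), 0) ⟨0, hzero⟩ = 1 := by simp [N, TT, hw1]
    rw [h3, h4, mul_one] at h1
    exact h1
  have hκ0 : 0 < κ := by
    by_contra h
    push Not at h
    nlinarith [hκ'.2]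
  have hκC : (κ : ℂ) ≠ 0 := by exact_mod_cast hκ0.ne'
  refine ⟨((κ : ℝ) : ℂ)⁻¹ • z₁, Submodule.smul_mem _ _ hz₁mem, ?_, ?_, ?_⟩
  · rw [norm_smul, norm_inv, Complex.norm_real, Real.norm_eq_abs, abs_of_pos hκ0, ← hκ,
      inv_mul_cancel₀ hκ0.ne']
  · rw [map_smul, hPz, smul_zero]
  · intro a b k hk hk'
    have h1 := hgen (a, b * ((κ : ℝ) : ℂ)⁻¹) ⟨k, hk, hk'⟩
    have h2 : nsq (a, b * ((κ : ℝ) : ℂ)⁻¹) = ‖a‖ ^ 2 + (‖b‖ / κ) ^ 2 := by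
      simp only [nsq]
      rw [norm_mul, norm_inv, Complex.norm_real, Real.norm_eq_abs, abs_of_pos hκ0, div_eq_mul_inv]
    rw [h2] at h1
    have h3 : N (a, b * ((κ : ℝ) : ℂ)⁻¹) ⟨k, hk, hk'⟩
        = ‖a • w + b • ((κ : ℝ) : ℂ)⁻¹ • z₁ + k‖ := by
      show ‖TT w z₁ (a, b * ((κ : ℝ) : ℂ)⁻¹) + k‖ = _
      rw [TT, smul_smul]
    have h4 : N (((√(‖a‖ ^ 2 + (‖b‖ / κ) ^ 2) : ℝ) : ℂ), 0) ⟨k, hk, hk'⟩
        = ‖((√(‖a‖ ^ 2 + (‖b‖ / κ) ^ 2) : ℝ) : ℂ) • w + k‖ := by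
      show ‖TT w z₁ (((√(‖a‖ ^ 2 + (‖b‖ / κ) ^ 2) : ℝ) : ℂ), 0) + k‖ = _
      rw [TT, zero_smul, add_zero]
    rw [h3, h4] at h1
    refine rank_one_num hQ1 (σ := Q - 1) rfl (by linarith) (by linarith) hw1 ?_ hκ'.1 hκ'.2
      h1.1 h1.2
    intro r hr
    have h5 := hPn2 (((r : ℝ) : ℂ) • w + k)
    rw [map_add, hk, add_zero, map_smul, hw, norm_smul, hw1, mul_one, Complex.norm_real,
      Real.norm_eq_abs, abs_of_nonneg hr] at h5
    exact h5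

end DF72
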