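import Pool.Agent.Lib.MP_df72c7_an.C7

namespace DF72

open Set Filter Topology

section ring

variable {A : Type*} [Ring A] {P Q U R : A}

lemma r_pc (hP : P * P = P) (hQ : Q * Q = Q) : P * ((P - Q) * (P - Q)) = P - P * Q * P := by
  have : P * ((P - Q) * (P - Q)) = P * P * P - P * P * Q - P * Q * P + P * (Q * Q) := by
    noncomm_ring
  rw [this, hP, hQ, hP]; abel

lemma r_cp (hP : P * P = P) (hQ : Q * Q = Q) : (P - Q) * (P - Q) * P = P - P * Q * P := by
  have : (P - Q) * (P - Q) * P = P * P * P - P * Q * P - Q * (P * P) + Q * Q * P := by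
    noncomm_ring
  rw [this, hP, hQ, hP]; abel

lemma r_pc_comm (hP : P * P = P) (hQ : Q * Q = Q) :
    P * ((P - Q) * (P - Q)) = (P - Q) * (P - Q) * P := by
  rw [r_pc hP hQ, r_cp hP hQ]

lemma r_qc_comm (hP : P * P = P) (hQ : Q * Q = Q) :
    Q * ((P - Q) * (P - Q)) = (P - Q) * (P - Q) * Q := by
  have h1 : (P - Q) * (P - Q) = (Q - P) * (Q - P) := by noncomm_ring
  rw [h1]
  exact r_pc_comm hQ hP

/-- the cube of `C = (P - Q)^2` -/
lemma r_cube (hP : P * P = P) (hQ : Q * Q = Q) {C : A} (hC : C = (P - Q) * (P - Q)) :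
    C * C * C = P * (C * C) + Q * (C * C) - P * (C * C) * Q - Q * (C * C) * P := by
  have hPC : P * C = C * P := by rw [hC]; exact r_pc_comm hP hQ
  have hQC : Q * C = C * Q := by rw [hC]; exact r_qc_comm hP hQ
  have h1 : C = P + Q - P * Q - Q * P := by
    have : (P - Q) * (P - Q) = P * P + Q * Q - P * Q - Q * P := by noncomm_ring
    rw [hC, this, hP, hQ]
  have h2 : C * C * C = C * (P + Q - P * Q - Q * P) * C := by rw [← h1]
  have h3 : C * (P + Q - P * Q - Q * P) * C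
      = C * P * C + C * Q * C - C * P * (Q * C) - C * Q * (P * C) := by noncomm_ring
  have e1 : C * P * C = P * (C * C) := by rw [← hPC, mul_assoc]
  have e2 : C * Q * C = Q * (C * C) := by rw [← hQC, mul_assoc]
  have e3 : C * P * (Q * C) = P * (C * C) * Q := by
    rw [← hPC, hQC, mul_assoc, mul_assoc, mul_assoc]
  have e4 : C * Q * (P * C) = Q * (C * C) * P := by
    rw [← hQC, hPC, mul_assoc, mul_assoc, mul_assoc]
  rw [h2, h3, e1, e2, e3, e4]

lemma r_conj (hU : U * U = 1) (hQ : Q = U * P * U) {C : A} (hC : C = (P - Q) * (P - Q)) :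
    U * C = C * U ∧ Q * (C * C) = U * (P * (C * C)) * U := by
  have h1 : U * (P - Q) = (Q - P) * U := by
    have e1 : U * (P - Q) = U * P - U * U * P * U := by rw [hQ]; noncomm_ring
    have e2 : (Q - P) * U = U * P * (U * U) - P * U := by rw [hQ]; noncomm_ring
    rw [e1, e2, hU]; noncomm_ring
  have h1' : U * (Q - P) = (P - Q) * U := by
    have e1 : U * (Q - P) = -(U * (P - Q)) := by noncomm_ring
    have e2 : (P - Q) * U = -((Q - P) * U) := by noncomm_ring
    rw [e1, e2, h1]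
  have h2 : U * C = C * U := by
    calc U * C = U * (P - Q) * (P - Q) := by rw [hC, mul_assoc]
      _ = (Q - P) * U * (P - Q) := by rw [h1]
      _ = (Q - P) * (U * (P - Q)) := mul_assoc _ _ _
      _ = (Q - P) * ((Q - P) * U) := by rw [h1]
      _ = (Q - P) * (Q - P) * U := (mul_assoc _ _ _).symm
      _ = C * U := by rw [hC]; noncomm_ring
  refine ⟨h2, ?_⟩
  have h3 : U * (C * C) = C * C * U := by
    calc U * (C * C) = U * C * C := (mul_assoc _ _ _).symm
      _ = C * U * C := by rw [h2]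
      _ = C * (U * C) := mul_assoc _ _ _
      _ = C * (C * U) := by rw [h2]
      _ = C * C * U := (mul_assoc _ _ _).symm
  calc Q * (C * C) = U * P * (U * (C * C)) := by rw [hQ, mul_assoc (U * P)]
    _ = U * (P * (C * C)) * U := by rw [h3]; simp only [mul_assoc]

/-- `P C² = 16 Y²` -/
lemma r_x1 (hP : P * P = P) (hQ : Q = (1 - 2 * R) * P * (1 - 2 * R))
    (hQQ : Q * Q = Q) {C b : A} (hC : C = (P - Q) * (P - Q)) (hb : b = P * R * P) :
    P * (C * C) = 16 * ((b * b - b) * (b * b - b)) := by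
  have hPb : P * b = b := by
    rw [hb]
    calc P * (P * R * P) = P * P * R * P := by noncomm_ring
      _ = _ := by rw [hP]
  have hbP : b * P = b := by
    rw [hb]
    calc P * R * P * P = P * R * (P * P) := by noncomm_ring
      _ = _ := by rw [hP]
  have hPC : P * C = C * P := by rw [hC]; exact r_pc_comm hP hQQ
  have h1 : P * C = P - P * Q * P := by rw [hC]; exact r_pc hP hQQ
  have h2 : P * (1 - 2 * R) * P = P - 2 * b := by
    have : P * (1 - 2 * R) * P = P * P - 2 * (P * R * P) := by noncomm_ring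
    rw [this, hP, hb]
  have h3 : P * Q * P = (P - 2 * b) * (P - 2 * b) := by
    calc P * Q * P = (P * (1 - 2 * R) * P) * ((1 - 2 * R) * P) := by
          rw [hQ]
          noncomm_ring
      _ = (P - 2 * b) * ((1 - 2 * R) * P) := by rw [h2]
      _ = (P * P - 2 * (b * P)) * ((1 - 2 * R) * P) := by rw [hP, hbP]
      _ = (P - 2 * b) * (P * (1 - 2 * R) * P) := by noncomm_ring
      _ = _ := by rw [h2]
  have h4 : P * C = -4 * (b * b - b) := by
    rw [h1, h3]
    have : (P - 2 * b) * (P - 2 * b) = P * P - 2 * (P * b) - 2 * (b * P) + 4 * (b * b) := by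
      noncomm_ring
    rw [this, hP, hPb, hbP]
    noncomm_ring
  calc P * (C * C) = P * P * C * C := by rw [hP]; noncomm_ring
    _ = P * (P * C) * C := by noncomm_ring
    _ = P * (C * P) * C := by rw [hPC]
    _ = (P * C) * (P * C) := by noncomm_ring
    _ = _ := by rw [h4]; noncomm_ring

/-- the unipotent element -/
lemma r_G (hP : P * P = P) (hQ : Q * Q = Q) {C G : A} (hC : C = (P - Q) * (P - Q))
    (hG : G = (2 * P - 1) * (2 * Q - 1)) :
    (G - 1) ^ 2 = -4 * (G * C) ∧ G * C = C * G ∧ (2 * P - 1) * (G - 1) = 2 * (Q - P) := by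
  have hPC : P * C = C * P := by rw [hC]; exact r_pc_comm hP hQ
  have hQC : Q * C = C * Q := by rw [hC]; exact r_qc_comm hP hQ
  have hS : (2 * P - 1) * (2 * P - 1) = 1 := by
    have : (2 * P - 1) * (2 * P - 1) = 4 * (P * P) - 4 * P + 1 := by noncomm_ring
    rw [this, hP]; noncomm_ring
  have hS' : (2 * Q - 1) * (2 * Q - 1) = 1 := by
    have : (2 * Q - 1) * (2 * Q - 1) = 4 * (Q * Q) - 4 * Q + 1 := by noncomm_ring
    rw [this, hQ]; noncomm_ring
  have h1 : 4 * C = (2 * P - 1) * (2 * P - 1) + (2 * Q - 1) * (2 * Q - 1)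
      - (2 * P - 1) * (2 * Q - 1) - (2 * Q - 1) * (2 * P - 1) := by
    rw [hC]; noncomm_ring
  rw [hS, hS', ← hG] at h1
  have h2 : G * ((2 * Q - 1) * (2 * P - 1)) = 1 := by
    calc G * ((2 * Q - 1) * (2 * P - 1))
        = (2 * P - 1) * ((2 * Q - 1) * (2 * Q - 1)) * (2 * P - 1) := by rw [hG]; noncomm_ring
      _ = 1 := by rw [hS', mul_one, hS]
  refine ⟨?_, ?_, ?_⟩
  · have h3 : -4 * (G * C) = -(G * (4 * C)) := by noncomm_ring
    rw [h3, h1]
    have h4 : -(G * (1 + 1 - G - (2 * Q - 1) * (2 * P - 1)))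
        = -2 * G + G * G + G * ((2 * Q - 1) * (2 * P - 1)) := by noncomm_ring
    rw [h4, h2]
    noncomm_ring
  · have h3 : (2 * Q - 1) * C = C * (2 * Q - 1) := by
      have e1 : (2 * Q - 1) * C = 2 * (Q * C) - C := by noncomm_ring
      rw [e1, hQC]; noncomm_ring
    have h4 : (2 * P - 1) * C = C * (2 * P - 1) := by
      have e1 : (2 * P - 1) * C = 2 * (P * C) - C := by noncomm_ring
      rw [e1, hPC]; noncomm_ring
    calc G * C = (2 * P - 1) * ((2 * Q - 1) * C) := by rw [hG]; noncomm_ring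
      _ = (2 * P - 1) * C * (2 * Q - 1) := by rw [h3]; noncomm_ring
      _ = C * G := by rw [h4, hG]; noncomm_ring
  · have e1 : (2 * P - 1) * (G - 1) = (2 * P - 1) * (2 * P - 1) * (2 * Q - 1) - (2 * P - 1) := by
      rw [hG]; noncomm_ring
    rw [e1, hS]; noncomm_ring

lemma r_comm (hU : (1 - 2 * R) * (1 - 2 * R) = 1) (hQ : Q = (1 - 2 * R) * P * (1 - 2 * R)) :
    2 * (P * R - R * P) = (Q - P) * (1 - 2 * R) := by
  have e1 : (Q - P) * (1 - 2 * R) = (1 - 2 * R) * P * ((1 - 2 * R) * (1 - 2 * R))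
      - P * (1 - 2 * R) := by rw [hQ]; noncomm_ring
  rw [e1, hU]; noncomm_ring

end ring

section landau

variable {A : Type*} [NormedRing A] [NormedAlgebra ℂ A]

lemma taylor_aux (G : A) (m : ℕ) : G ^ m - 1 = (m : ℂ) • (G - 1)
    + (∑ j ∈ Finset.range m, ∑ l ∈ Finset.range j, G ^ l) * (G - 1) ^ 2 := by
  induction m with
  | zero => simp
  | succ m ih =>
    have h1 : G ^ (m + 1) - 1 = (G ^ m - 1) + ((G ^ m - 1) * (G - 1) + (G - 1)) := by
      rw [pow_succ]; noncomm_ring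
    have h2 : G ^ m - 1 = (∑ l ∈ Finset.range m, G ^ l) * (G - 1) := (geom_sum_mul G m).symm
    have h3 : (G ^ m - 1) * (G - 1) = (∑ l ∈ Finset.range m, G ^ l) * (G - 1) ^ 2 := by
      rw [h2, sq, mul_assoc]
    rw [h1, h3, ih, Finset.sum_range_succ, add_mul]
    push_cast
    rw [add_smul, one_smul]
    abel

lemma landau_step {G : A} {m : ℕ} (hG : ∀ j ≤ m, ‖G ^ j‖ ≤ 2) (i : ℕ) :
    m * ‖(G - 1) ^ (i + 1)‖ ≤ 3 * ‖(G - 1) ^ i‖ + 2 * m ^ 2 * ‖(G - 1) ^ (i + 2)‖ := by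
  have h1 := taylor_aux G m
  have h2 : (m : ℂ) • (G - 1) ^ (i + 1) = (G ^ m - 1) * (G - 1) ^ i
      - (∑ j ∈ Finset.range m, ∑ l ∈ Finset.range j, G ^ l) * (G - 1) ^ (i + 2) := by
    rw [h1, add_mul, mul_assoc, ← pow_add, smul_mul_assoc, ← pow_succ', add_comm 2 i]
    abel
  have h3 : ‖(m : ℂ) • (G - 1) ^ (i + 1)‖ = m * ‖(G - 1) ^ (i + 1)‖ := by
    rw [norm_smul, Complex.norm_natCast]
  have h4 : ‖(G ^ m - 1) * (G - 1) ^ i‖ ≤ 3 * ‖(G - 1) ^ i‖ := by
    rw [sub_mul, one_mul]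
    calc ‖G ^ m * (G - 1) ^ i - (G - 1) ^ i‖ ≤ ‖G ^ m * (G - 1) ^ i‖ + ‖(G - 1) ^ i‖ :=
          norm_sub_le _ _
      _ ≤ ‖G ^ m‖ * ‖(G - 1) ^ i‖ + ‖(G - 1) ^ i‖ := by gcongr; exact norm_mul_le _ _
      _ ≤ 2 * ‖(G - 1) ^ i‖ + ‖(G - 1) ^ i‖ := by gcongr; exact hG m le_rfl
      _ = _ := by ring
  have h5 : ‖∑ j ∈ Finset.range m, ∑ l ∈ Finset.range j, G ^ l‖ ≤ 2 * m ^ 2 := by
    calc ‖∑ j ∈ Finset.range m, ∑ l ∈ Finset.range j, G ^ l‖
        ≤ ∑ j ∈ Finset.range m, ‖∑ l ∈ Finset.range j, G ^ l‖ := norm_sum_le _ _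
      _ ≤ ∑ j ∈ Finset.range m, (2 * m : ℝ) := by
          apply Finset.sum_le_sum
          intro j hj
          have hjm : j < m := Finset.mem_range.1 hj
          calc ‖∑ l ∈ Finset.range j, G ^ l‖ ≤ ∑ l ∈ Finset.range j, ‖G ^ l‖ := norm_sum_le _ _
            _ ≤ ∑ l ∈ Finset.range j, (2 : ℝ) := by
                apply Finset.sum_le_sum
                intro l hl
                exact hG l (by have := Finset.mem_range.1 hl; omega)
            _ = 2 * j := by rw [Finset.sum_const, Finset.card_range, nsmul_eq_mul]; ring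
            _ ≤ 2 * m := by
                have : (j : ℝ) ≤ m := by exact_mod_cast hjm.le
                gcongr
      _ = 2 * m ^ 2 := by rw [Finset.sum_const, Finset.card_range, nsmul_eq_mul]; ring
  rw [← h3, h2]
  calc _ ≤ ‖(G ^ m - 1) * (G - 1) ^ i‖
      + ‖(∑ j ∈ Finset.range m, ∑ l ∈ Finset.range j, G ^ l) * (G - 1) ^ (i + 2)‖ :=
        norm_sub_le _ _
    _ ≤ 3 * ‖(G - 1) ^ i‖ + ‖∑ j ∈ Finset.range m, ∑ l ∈ Finset.range j, G ^ l‖
        * ‖(G - 1) ^ (i + 2)‖ := by gcongr; exact norm_mul_le _ _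
    _ ≤ _ := by gcongr

end landau

lemma tend_step {d e f : ℕ → ℝ} {B : ℝ} (hB : ∀ᶠ n in atTop, d n ≤ B)
    (h : ∀ m : ℕ, 1 ≤ m → ∀ᶠ n in atTop, m * e n ≤ 3 * d n + 2 * m ^ 2 * f n)
    (hf : Tendsto f atTop (𝓝 0)) (he : ∀ n, 0 ≤ e n) : Tendsto e atTop (𝓝 0) := by
  rw [Metric.tendsto_atTop]
  intro r hr
  obtain ⟨m, hm⟩ := exists_nat_gt (6 * |B| / r)
  have hm0 : (0 : ℝ) < m := lt_of_le_of_lt (by positivity) hm
  have hm1 : 1 ≤ m := by exact_mod_cast Nat.one_le_iff_ne_zero.2 (by rintro rfl; simp at hm0)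
  have hfe : ∀ᶠ n in atTop, f n < r / (4 * m) := hf.eventually (gt_mem_nhds (by positivity))
  have hall := (hB.and (h m hm1)).and hfe
  obtain ⟨N, hN⟩ := eventually_atTop.1 hall
  refine ⟨N, fun n hn => ?_⟩
  obtain ⟨⟨h1, h2⟩, h3⟩ := hN n hn
  rw [Real.dist_eq, sub_zero, abs_of_nonneg (he n)]
  rw [div_lt_iff₀ hr] at hm
  rw [lt_div_iff₀ (by positivity)] at h3
  have h4 : d n ≤ |B| := h1.trans (le_abs_self B)
  have h5 : (m : ℝ) * e n < m * r := by
    calc (m : ℝ) * e n ≤ 3 * d n + 2 * m ^ 2 * f n := h2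
      _ = 3 * d n + (m / 2) * (f n * (4 * m)) := by ring
      _ < 3 * |B| + (m / 2) * r + 0 + m * r / 2 - m * r / 2 + 0 := by
          have : (m : ℝ) / 2 * (f n * (4 * m)) < m / 2 * r := by gcongr
          linarith
      _ ≤ m * r := by linarith
  exact lt_of_mul_lt_mul_left h5 hm0.le

end DF72
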