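import Pool.Agent.Lib.MP_df72c7_an.C8

namespace DF72

open Set Filter Topology

lemma norm_two_mul' {A : Type*} [NormedRing A] [NormedAlgebra ℂ A] (x : A) :
    ‖2 * x‖ = 2 * ‖x‖ := by
  have : (2 : A) * x = (2 : ℂ) • x := by rw [two_mul, two_smul]
  rw [this, norm_smul, Complex.norm_ofNat]

theorem comm_tendsto {A : Type*} [NormedRing A] [NormedAlgebra ℂ A] (hone : ‖(1 : A)‖ ≤ 1)
    {P R : ℕ → A} {ε : ℕ → ℝ} (hε : Tendsto ε atTop (𝓝 0)) (hε0 : ∀ n, 0 ≤ ε n)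
    (hP : ∀ n, P n * P n = P n) (hR : ∀ n, R n * R n = R n)
    (hPn : ∀ n, ‖1 - 2 * P n‖ ≤ 1 + ε n) (hRn : ∀ n, ‖1 - 2 * R n‖ ≤ 1 + ε n)
    (hY : Tendsto (fun n => ‖((P n * R n * P n) * (P n * R n * P n) - P n * R n * P n)
      * ((P n * R n * P n) * (P n * R n * P n) - P n * R n * P n)‖) atTop (𝓝 0)) :
    Tendsto (fun n => ‖P n * R n - R n * P n‖) atTop (𝓝 0) := by
  set U : ℕ → A := fun n => 1 - 2 * R n with hU
  set Q : ℕ → A := fun n => U n * P n * U n with hQ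
  set C : ℕ → A := fun n => (P n - Q n) * (P n - Q n) with hC
  set G : ℕ → A := fun n => (2 * P n - 1) * (2 * Q n - 1) with hG
  have hUU : ∀ n, U n * U n = 1 := by
    intro n
    have : (1 - 2 * R n) * (1 - 2 * R n) = 4 * (R n * R n) - 4 * R n + 1 := by noncomm_ring
    rw [hU]
    show (1 - 2 * R n) * (1 - 2 * R n) = 1
    rw [this, hR]; noncomm_ring
  have hQQ : ∀ n, Q n * Q n = Q n := by
    intro n
    calc U n * P n * U n * (U n * P n * U n) = U n * P n * (U n * U n) * P n * U n := by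
          simp only [mul_assoc]
      _ = U n * (P n * P n) * U n := by rw [hUU, mul_one]; simp only [mul_assoc]
      _ = _ := by rw [hP]
  have hev : ∀ᶠ n in atTop, ε n ≤ 1 := (hε.eventually (ge_mem_nhds (by norm_num)))
  have hUn : ∀ n, ‖U n‖ ≤ 1 + ε n := hRn
  have hSn : ∀ n, ‖2 * P n - 1‖ ≤ 1 + ε n := by
    intro n
    rw [← norm_neg, neg_sub]
    exact hPn n
  have hS'n : ∀ n, ‖2 * Q n - 1‖ ≤ (1 + ε n) ^ 3 := by
    intro n
    have e1 : 2 * Q n - 1 = U n * (2 * P n - 1) * U n := by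
      have : U n * (2 * P n - 1) * U n = 2 * (U n * P n * U n) - U n * U n := by noncomm_ring
      rw [this, hUU]
    rw [e1]
    have := hε0 n
    calc ‖U n * (2 * P n - 1) * U n‖ ≤ ‖U n‖ * ‖2 * P n - 1‖ * ‖U n‖ :=
          (norm_mul_le _ _).trans (by gcongr; exact norm_mul_le _ _)
      _ ≤ (1 + ε n) * (1 + ε n) * (1 + ε n) := by
          gcongr
          · exact hUn n
          · exact hSn n
          · exact hUn n
      _ = _ := by ring
  have hGn : ∀ n, ‖G n‖ ≤ (1 + ε n) ^ 4 := by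
    intro n
    have := hε0 n
    calc ‖G n‖ ≤ ‖2 * P n - 1‖ * ‖2 * Q n - 1‖ := norm_mul_le _ _
      _ ≤ (1 + ε n) * (1 + ε n) ^ 3 := by
        gcongr
        · exact hSn n
        · exact hS'n n
      _ = _ := by ring
  have hGj : ∀ n j, ‖G n ^ j‖ ≤ (1 + ε n) ^ (4 * j) := by
    intro n j
    induction j with
    | zero => simpa using hone
    | succ j ih =>
      have := hε0 n
      rw [pow_succ]
      calc ‖G n ^ j * G n‖ ≤ ‖G n ^ j‖ * ‖G n‖ := norm_mul_le _ _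
        _ ≤ (1 + ε n) ^ (4 * j) * (1 + ε n) ^ 4 := by gcongr; exact hGn n
        _ = _ := by rw [← pow_add]; ring_nf
  have hG2 : ∀ m : ℕ, ∀ᶠ n in atTop, ∀ j ≤ m, ‖G n ^ j‖ ≤ 2 := by
    intro m
    have h1 : Tendsto (fun n => (1 + ε n) ^ (4 * m)) atTop (𝓝 1) := by
      have := (hε.const_add 1).pow (4 * m)
      simpa using this
    filter_upwards [h1.eventually (ge_mem_nhds (by norm_num : (1 : ℝ) < 2))] with n hn j hj
    refine (hGj n j).trans (le_trans ?_ hn)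
    apply pow_le_pow_right₀ (by linarith [hε0 n])
    omega
  -- bounds
  have hPn2 : ∀ n, ε n ≤ 1 → ‖P n‖ ≤ 2 := by
    intro n hn
    have h1 : ‖2 * P n‖ ≤ ‖(1 : A)‖ + ‖1 - 2 * P n‖ := by
      have : 2 * P n = 1 - (1 - 2 * P n) := by noncomm_ring
      rw [this]
      refine (norm_sub_le _ _).trans ?_
      rw [← this]
    rw [norm_two_mul'] at h1
    have := hPn n
    linarith
  have hUn2 : ∀ n, ε n ≤ 1 → ‖U n‖ ≤ 2 := fun n hn => (hUn n).trans (by linarith)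
  have hQn8 : ∀ n, ε n ≤ 1 → ‖Q n‖ ≤ 8 := by
    intro n hn
    have h1 := hPn2 n hn
    have h2 := hUn2 n hn
    calc ‖Q n‖ ≤ ‖U n‖ * ‖P n‖ * ‖U n‖ :=
          (norm_mul_le _ _).trans (by gcongr; exact norm_mul_le _ _)
      _ ≤ 2 * 2 * 2 := by gcongr
      _ = 8 := by norm_num
  set Y : ℕ → A := fun n => (P n * R n * P n) * (P n * R n * P n) - P n * R n * P n with hYd
  have hC3 : ∀ n, ε n ≤ 1 → ‖C n ^ 3‖ ≤ 336 * ‖Y n * Y n‖ := by
    intro n hn
    have h1 := r_cube (hP n) (hQQ n) (C := C n) rfl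
    have h2 := (r_conj (P := P n) (Q := Q n) (hUU n) rfl (C := C n) rfl).2
    have h3 := r_x1 (P := P n) (Q := Q n) (R := R n) (hP n) rfl (hQQ n) (C := C n)
      (b := P n * R n * P n) rfl rfl
    have h4 : ‖P n * (C n * C n)‖ ≤ 16 * ‖Y n * Y n‖ := by
      rw [h3]
      have : (16 : A) * (Y n * Y n) = (16 : ℂ) • (Y n * Y n) := by
        rw [show (16 : A) = algebraMap ℂ A 16 by rw [map_ofNat], ← Algebra.smul_def]
      show ‖(16 : A) * (Y n * Y n)‖ ≤ _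
      rw [this, norm_smul, Complex.norm_ofNat]
    have hP2 := hPn2 n hn
    have hU2 := hUn2 n hn
    have hQ8 := hQn8 n hn
    have h5 : ‖Q n * (C n * C n)‖ ≤ 64 * ‖Y n * Y n‖ := by
      rw [h2]
      calc ‖U n * (P n * (C n * C n)) * U n‖ ≤ ‖U n‖ * ‖P n * (C n * C n)‖ * ‖U n‖ :=
            (norm_mul_le _ _).trans (by gcongr; exact norm_mul_le _ _)
        _ ≤ 2 * (16 * ‖Y n * Y n‖) * 2 := by gcongr
        _ = _ := by ring
    have h6 : C n ^ 3 = C n * C n * C n := by rw [pow_succ, sq]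
    rw [h6, h1]
    calc ‖P n * (C n * C n) + Q n * (C n * C n) - P n * (C n * C n) * Q n
          - Q n * (C n * C n) * P n‖
        ≤ ‖P n * (C n * C n)‖ + ‖Q n * (C n * C n)‖ + ‖P n * (C n * C n) * Q n‖
          + ‖Q n * (C n * C n) * P n‖ := by
          refine (norm_sub_le _ _).trans ?_
          gcongr
          refine (norm_sub_le _ _).trans ?_
          gcongr
          exact norm_add_le _ _
      _ ≤ 16 * ‖Y n * Y n‖ + 64 * ‖Y n * Y n‖ + 16 * ‖Y n * Y n‖ * 8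
          + 64 * ‖Y n * Y n‖ * 2 := by
          gcongr
          · exact (norm_mul_le _ _).trans (by gcongr)
          · exact (norm_mul_le _ _).trans (by gcongr)
      _ = _ := by ring
  have hC3t : Tendsto (fun n => ‖C n ^ 3‖) atTop (𝓝 0) := by
    apply squeeze_zero' (g := fun n => 336 * ‖Y n * Y n‖)
    · exact Eventually.of_forall fun n => norm_nonneg _
    · filter_upwards [hev] with n hn using hC3 n hn
    · simpa using hY.const_mul 336
  -- the sixth power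
  have hD6 : Tendsto (fun n => ‖(G n - 1) ^ 6‖) atTop (𝓝 0) := by
    apply squeeze_zero' (g := fun n => 128 * ‖C n ^ 3‖)
    · exact Eventually.of_forall fun n => norm_nonneg _
    · filter_upwards [hG2 3] with n hn
      obtain ⟨h1, h2, -⟩ := r_G (P := P n) (Q := Q n) (hP n) (hQQ n) (C := C n) (G := G n) rfl rfl
      have h3 : (G n - 1) ^ 6 = (-4 : ℂ) ^ 3 • (G n ^ 3 * C n ^ 3) := by
        have e1 : (G n - 1) ^ 6 = ((G n - 1) ^ 2) ^ 3 := by rw [← pow_mul]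
        have e2 : -4 * (G n * C n) = (-4 : ℂ) • (G n * C n) := by
          rw [show (-4 : A) = algebraMap ℂ A (-4) by rw [map_neg, map_ofNat], ← Algebra.smul_def]
        rw [e1, h1, e2, smul_pow, Commute.mul_pow h2]
      rw [h3, norm_smul]
      have h4 : ‖(-4 : ℂ) ^ 3‖ = 64 := by
        rw [norm_pow, norm_neg, Complex.norm_ofNat]; norm_num
      rw [h4]
      calc 64 * ‖G n ^ 3 * C n ^ 3‖ ≤ 64 * (‖G n ^ 3‖ * ‖C n ^ 3‖) := by
            gcongr; exact norm_mul_le _ _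
        _ ≤ 64 * (2 * ‖C n ^ 3‖) := by gcongr; exact hn 3 le_rfl
        _ = _ := by ring
    · simpa using hC3t.const_mul 128
  have hDb : ∀ i : ℕ, ∀ᶠ n in atTop, ‖(G n - 1) ^ i‖ ≤ 3 ^ i := by
    intro i
    filter_upwards [hG2 1] with n hn
    have h1 : ‖G n - 1‖ ≤ 3 := by
      have := hn 1 le_rfl
      rw [pow_one] at this
      refine (norm_sub_le _ _).trans ?_
      linarith
    induction i with
    | zero => simpa using hone
    | succ i ih =>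
      rw [pow_succ, pow_succ]
      exact (norm_mul_le _ _).trans (by gcongr)
  have hstep : ∀ i : ℕ, Tendsto (fun n => ‖(G n - 1) ^ (i + 2)‖) atTop (𝓝 0) →
      Tendsto (fun n => ‖(G n - 1) ^ (i + 1)‖) atTop (𝓝 0) := by
    intro i hi
    apply tend_step (hDb i) _ hi (fun n => norm_nonneg _)
    intro m _
    filter_upwards [hG2 m] with n hn
    exact landau_step hn i
  have hD1 := hstep 0 (hstep 1 (hstep 2 (hstep 3 (hstep 4 hD6))))
  simp only [zero_add, pow_one] at hD1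
  -- conclusion
  apply squeeze_zero' (g := fun n => ‖G n - 1‖)
  · exact Eventually.of_forall fun n => norm_nonneg _
  · filter_upwards [hev] with n hn
    obtain ⟨-, -, h3⟩ := r_G (P := P n) (Q := Q n) (hP n) (hQQ n) (C := C n) (G := G n) rfl rfl
    have h4 : 2 * ‖Q n - P n‖ ≤ 2 * ‖G n - 1‖ := by
      rw [← norm_two_mul', ← h3]
      refine (norm_mul_le _ _).trans ?_
      gcongr
      exact (hSn n).trans (by linarith)
    have h5 : 2 * ‖P n * R n - R n * P n‖ ≤ ‖Q n - P n‖ * 2 := by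
      rw [← norm_two_mul', r_comm (P := P n) (Q := Q n) (R := R n) (hUU n) rfl]
      refine (norm_mul_le _ _).trans ?_
      gcongr
      exact hUn2 n hn
    linarith
  · exact hD1

/-- quadratic relation on a space of dimension at most two -/
lemma eig2 {V : Type*} [AddCommGroup V] [Module ℂ V] [FiniteDimensional ℂ V] [Nontrivial V]
    (hV : Module.finrank ℂ V ≤ 2) (T : V →ₗ[ℂ] V) : ∃ (β₁ β₂ : ℂ) (w₁ w₂ : V), w₁ ≠ 0 ∧ w₂ ≠ 0 ∧
      T w₁ = β₁ • w₁ ∧ T w₂ = β₂ • w₂ ∧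
      ∀ x, T (T x) - (β₁ + β₂) • T x + (β₁ * β₂) • x = 0 := by
  obtain ⟨β₁, hβ₁⟩ := Module.End.exists_eigenvalue T
  obtain ⟨w₁, hw₁⟩ := hβ₁.exists_hasEigenvector
  have hw₁e : T w₁ = β₁ • w₁ := hw₁.apply_eq_smul
  have hw₁0 : w₁ ≠ 0 := hw₁.2
  set D : V →ₗ[ℂ] V := T - β₁ • LinearMap.id with hD
  have hDx : ∀ x, D x = T x - β₁ • x := fun x => by simp [hD]
  have hker : 1 ≤ Module.finrank ℂ (LinearMap.ker D) := by
    rw [Nat.one_le_iff_ne_zero]
    intro h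
    have h1 : LinearMap.ker D = ⊥ := Submodule.finrank_eq_zero.1 h
    have h2 : w₁ ∈ LinearMap.ker D := by
      rw [LinearMap.mem_ker, hDx, hw₁e, sub_self]
    rw [h1] at h2
    exact hw₁0 ((Submodule.mem_bot ℂ).1 h2)
  have hrk : Module.finrank ℂ (LinearMap.range D) ≤ 1 := by
    have := LinearMap.finrank_range_add_finrank_ker D
    omega
  by_cases hz : D = 0
  · refine ⟨β₁, β₁, w₁, w₁, hw₁0, hw₁0, hw₁e, hw₁e, ?_⟩
    have hT : ∀ x, T x = β₁ • x := by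
      intro x
      have h1 := hDx x
      rw [hz, LinearMap.zero_apply] at h1
      exact (sub_eq_zero.1 h1.symm)
    intro x
    rw [hT, hT]
    module
  · obtain ⟨u, hu⟩ := finrank_le_one_iff.1 hrk
    obtain ⟨u, hur⟩ := u
    have hu' : ∀ x, ∃ c : ℂ, c • u = D x := by
      intro x
      obtain ⟨c, hc⟩ := hu ⟨D x, ⟨x, rfl⟩⟩
      exact ⟨c, congrArg Subtype.val hc⟩
    have hu0 : u ≠ 0 := by
      rintro rfl
      apply hz
      ext x
      obtain ⟨c, hc⟩ := hu' x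
      rw [← hc, smul_zero, LinearMap.zero_apply]
    obtain ⟨y, hy⟩ := hur
    obtain ⟨c, hc⟩ := hu' (T y)
    have hTu : T u = c • u := by
      rw [hc, hDx, ← hy, hDx, map_sub, map_smul]
    refine ⟨β₁, c, w₁, u, hw₁0, hu0, hw₁e, hTu, ?_⟩
    intro x
    obtain ⟨e, he⟩ := hu' x
    have h1 : T (D x) = c • D x := by
      rw [← he, map_smul, hTu, smul_comm]
    rw [hDx, map_sub, map_smul] at h1
    have h2 : T (T x) = c • (T x - β₁ • x) + β₁ • T x := by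
      rw [← h1]; abel
    rw [h2]
    module

/-- numerical consequence of the quadratic relation -/
lemma y_small {A : Type*} [NormedRing A] [NormedAlgebra ℂ A] {b P : A} (hP : P * P = P)
    (hPb : P * b = b) (hbP : b * P = b) {β₁ β₂ : ℂ}
    (hq : b * b - (β₁ + β₂) • b + (β₁ * β₂) • P = 0) {η : ℝ} (hη1 : η ≤ 1 / 2)
    (h1 : ‖β₁‖ < η ∨ ‖1 - β₁‖ < η) (h2 : ‖β₂‖ < η ∨ ‖1 - β₂‖ < η) (hbn : ‖b‖ ≤ 8)
    (hPn : ‖P‖ ≤ 2) : ‖(b * b - b) * (b * b - b)‖ ≤ 2000 * η := by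
  obtain ⟨γ₁, hγ₁, hγ₁'⟩ : ∃ γ : ℂ, (γ = 0 ∨ γ = 1) ∧ ‖β₁ - γ‖ < η := by
    rcases h1 with h | h
    · exact ⟨0, Or.inl rfl, by simpa using h⟩
    · exact ⟨1, Or.inr rfl, by rw [norm_sub_rev]; exact h⟩
  obtain ⟨γ₂, hγ₂, hγ₂'⟩ : ∃ γ : ℂ, (γ = 0 ∨ γ = 1) ∧ ‖β₂ - γ‖ < η := by
    rcases h2 with h | h
    · exact ⟨0, Or.inl rfl, by simpa using h⟩
    · exact ⟨1, Or.inr rfl, by rw [norm_sub_rev]; exact h⟩
  have hη0 : 0 < η := lt_of_le_of_lt (norm_nonneg _) hγ₁'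
  have hn1 : ‖γ₁‖ ≤ 1 := by rcases hγ₁ with rfl | rfl <;> simp
  have hn2 : ‖γ₂‖ ≤ 1 := by rcases hγ₂ with rfl | rfl <;> simp
  have hn1' : ‖1 - γ₁‖ ≤ 1 := by rcases hγ₁ with rfl | rfl <;> simp
  have hn2' : ‖1 - γ₂‖ ≤ 1 := by rcases hγ₂ with rfl | rfl <;> simp
  have hβ2 : ‖β₂‖ ≤ 3 / 2 := by
    have : β₂ = (β₂ - γ₂) + γ₂ := by ring
    rw [this]
    exact (norm_add_le _ _).trans (by linarith)
  set E₁ : A := b * b - (γ₁ + γ₂) • b + (γ₁ * γ₂) • P with hE₁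
  set E₂ : A := b * b - (2 - γ₁ - γ₂) • b + ((1 - γ₁) * (1 - γ₂)) • P with hE₂
  have hbbP : b * b * P = b * b := by rw [mul_assoc, hbP]
  have hPbb : P * (b * b) = b * b := by rw [← mul_assoc, hPb]
  have hY : (b * b - b) * (b * b - b) = E₁ * E₂ := by
    have hexp : ∀ s t s' t' : ℂ, (b * b - s • b + t • P) * (b * b - s' • b + t' • P)
        = b * b * (b * b) - (s + s') • (b * b * b) + (t + t' + s * s') • (b * b)
          - (s * t' + s' * t) • b + (t * t') • P := by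
      intro s t s' t'
      simp only [add_mul, sub_mul, mul_add, mul_sub, smul_mul_assoc, mul_smul_comm, hP, hPb, hbP,
        hbbP, hPbb, ← mul_assoc]
      module
    have h0 : (b * b - b) = (b * b - (1 : ℂ) • b + (0 : ℂ) • P) := by
      rw [one_smul, zero_smul, add_zero]
    rw [h0, hE₁, hE₂, hexp, hexp]
    rcases hγ₁ with rfl | rfl <;> rcases hγ₂ with rfl | rfl <;> norm_num
  have hE₁' : E₁ = (β₁ + β₂ - γ₁ - γ₂) • b + (γ₁ * γ₂ - β₁ * β₂) • P := by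
    have : E₁ = E₁ - (b * b - (β₁ + β₂) • b + (β₁ * β₂) • P) := by rw [hq, sub_zero]
    rw [this, hE₁]
    module
  have hE₁n : ‖E₁‖ ≤ 24 * η := by
    rw [hE₁']
    have e1 : ‖β₁ + β₂ - γ₁ - γ₂‖ ≤ 2 * η := by
      have : β₁ + β₂ - γ₁ - γ₂ = (β₁ - γ₁) + (β₂ - γ₂) := by ring
      rw [this]
      exact (norm_add_le _ _).trans (by linarith)
    have e2 : ‖γ₁ * γ₂ - β₁ * β₂‖ ≤ 3 * η := by
      have : γ₁ * γ₂ - β₁ * β₂ = -(γ₁ * (β₂ - γ₂)) - (β₁ - γ₁) * β₂ := by ring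
      rw [this]
      calc ‖-(γ₁ * (β₂ - γ₂)) - (β₁ - γ₁) * β₂‖ ≤ ‖γ₁‖ * ‖β₂ - γ₂‖ + ‖β₁ - γ₁‖ * ‖β₂‖ := by
            refine (norm_sub_le _ _).trans ?_
            rw [norm_neg, norm_mul, norm_mul]
        _ ≤ 1 * η + η * (3 / 2) := by gcongr
        _ ≤ 3 * η := by linarith
    calc ‖(β₁ + β₂ - γ₁ - γ₂) • b + (γ₁ * γ₂ - β₁ * β₂) • P‖
        ≤ ‖β₁ + β₂ - γ₁ - γ₂‖ * ‖b‖ + ‖γ₁ * γ₂ - β₁ * β₂‖ * ‖P‖ := by
          refine (norm_add_le _ _).trans ?_
          rw [norm_smul, norm_smul]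
      _ ≤ 2 * η * 8 + 3 * η * 2 := by gcongr
      _ ≤ 24 * η := by linarith
  have hE₂n : ‖E₂‖ ≤ 83 := by
    have e1 : ‖2 - γ₁ - γ₂‖ ≤ 2 := by
      have : 2 - γ₁ - γ₂ = (1 - γ₁) + (1 - γ₂) := by ring
      rw [this]
      exact (norm_add_le _ _).trans (by linarith)
    have e2 : ‖(1 - γ₁) * (1 - γ₂)‖ ≤ 1 := by
      rw [norm_mul]
      calc ‖1 - γ₁‖ * ‖1 - γ₂‖ ≤ 1 * 1 := by gcongr
        _ = 1 := by norm_num
    calc ‖E₂‖ ≤ ‖b * b‖ + ‖2 - γ₁ - γ₂‖ * ‖b‖ + ‖(1 - γ₁) * (1 - γ₂)‖ * ‖P‖ := by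
          refine (norm_add_le _ _).trans ?_
          rw [norm_smul]
          gcongr
          refine (norm_sub_le _ _).trans ?_
          rw [norm_smul]
      _ ≤ 8 * 8 + 2 * 8 + 1 * 2 := by
          gcongr
          exact (norm_mul_le _ _).trans (by gcongr)
      _ ≤ 83 := by norm_num
  rw [hY]
  calc ‖E₁ * E₂‖ ≤ ‖E₁‖ * ‖E₂‖ := norm_mul_le _ _
    _ ≤ 24 * η * 83 := by gcongr
    _ ≤ 2000 * η := by linarith

end DF72
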