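import Mathlib

section

section

/-!
# Lemma N: compressing almost hermitian projections

`Π i` is a finite system of orthogonal idempotents with sum `1` whose torus acts by almost
isometries, `Q` is an idempotent whose rotations are almost isometric.  Then `Q Π_S Q` is almost
hermitian on the whole space.
-/

namespace PoolAgent.MP_df72c7_an

open Complex Finset

section lemmaN

variable {Y : Type*} [NormedAddCommGroup Y] [NormedSpace ℂ Y]

/-- Data for Lemma N. -/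
structure NData (ι : Type*) [Fintype ι] [DecidableEq ι] (Y : Type*) [NormedAddCommGroup Y]
    [NormedSpace ℂ Y] where
  /-- the system of idempotents -/
  P : ι → (Y →ₗ[ℂ] Y)
  /-- the other idempotent -/
  Q : Y →ₗ[ℂ] Y
  κ : ℝ
  κ0 : 0 ≤ κ
  κ1 : κ ≤ 1
  PP : ∀ i x, P i (P i x) = P i x
  PP' : ∀ i j x, i ≠ j → P i (P j x) = 0
  sum : ∀ x, ∑ i, P i x = x
  torus : ∀ l : ι → ℂ, (∀ i, ‖l i‖ = 1) → ∀ x, ‖∑ i, l i • P i x‖ ≤ (1 + κ) * ‖x‖
  QQ : ∀ x, Q (Q x) = Q x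
  rot : ∀ μ : ℂ, ‖μ‖ = 1 → ∀ x, ‖μ • Q x + (x - Q x)‖ ≤ (1 + κ) * ‖x‖

variable {ι : Type*} [Fintype ι] [DecidableEq ι] (D : NData ι Y)

namespace NData

/-- Every complex number of modulus at most one is the mean of two unimodular numbers. -/
theorem exists_unimodular {a : ℂ} (ha : ‖a‖ ≤ 1) : ∃ μ ν : ℂ, ‖μ‖ = 1 ∧ ‖ν‖ = 1 ∧
    a = (1 / 2 : ℂ) * (μ + ν) := by
  by_cases h0 : a = 0
  · exact ⟨1, -1, by simp, by simp, by rw [h0]; ring⟩
  have hr : 0 < ‖a‖ := norm_pos_iff.mpr h0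
  set r := ‖a‖ with hrdef
  set u : ℂ := a / r with hu
  have hrc : (r : ℂ) ≠ 0 := by exact_mod_cast hr.ne'
  have hun : ‖u‖ = 1 := by
    rw [hu, norm_div, Complex.norm_real, Real.norm_eq_abs, abs_of_pos hr, div_self hr.ne']
  set s := Real.sqrt (1 - r ^ 2) with hs
  have hs2 : s ^ 2 = 1 - r ^ 2 := Real.sq_sqrt (by nlinarith)
  have hz : ‖(⟨r, s⟩ : ℂ)‖ = 1 := by
    rw [← sq_eq_sq₀ (norm_nonneg _) zero_le_one, ← Complex.normSq_eq_norm_sq, Complex.normSq_mk]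
    nlinarith
  have hz' : ‖(⟨r, -s⟩ : ℂ)‖ = 1 := by
    rw [← sq_eq_sq₀ (norm_nonneg _) zero_le_one, ← Complex.normSq_eq_norm_sq, Complex.normSq_mk]
    nlinarith
  refine ⟨u * ⟨r, s⟩, u * ⟨r, -s⟩, by rw [norm_mul, hun, hz, one_mul],
    by rw [norm_mul, hun, hz', one_mul], ?_⟩
  have h1 : (⟨r, s⟩ : ℂ) + ⟨r, -s⟩ = 2 * r := by
    apply Complex.ext
    · simp; ring
    · simp
  rw [← mul_add, h1, hu]
  field_simp

theorem mult {α : ι → ℂ} {M : ℝ} (hM : 0 ≤ M) (hα : ∀ i, ‖α i‖ ≤ M) (x : Y) :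
    ‖∑ i, α i • D.P i x‖ ≤ (M * (1 + D.κ)) * ‖x‖ := by
  rcases hM.eq_or_lt with h0 | hM0
  · have : ∀ i, α i = 0 := fun i => norm_le_zero_iff.mp ((hα i).trans_eq h0.symm)
    simp only [this, zero_smul, Finset.sum_const_zero, norm_zero]
    rw [← h0]; simp
  have hex : ∀ i, ∃ μ ν : ℂ, ‖μ‖ = 1 ∧ ‖ν‖ = 1 ∧ α i / M = (1 / 2 : ℂ) * (μ + ν) := by
    intro i
    apply exists_unimodular
    rw [norm_div, Complex.norm_real, Real.norm_eq_abs, abs_of_pos hM0, div_le_one hM0]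
    exact hα i
  choose μ ν hμ hν h using hex
  have hMc : (M : ℂ) ≠ 0 := by exact_mod_cast hM0.ne'
  have h1 : ∑ i, α i • D.P i x = ((M : ℂ) / 2) • (∑ i, μ i • D.P i x + ∑ i, ν i • D.P i x) := by
    rw [← Finset.sum_add_distrib, Finset.smul_sum]
    apply Finset.sum_congr rfl
    intro i _
    rw [← add_smul, smul_smul]
    congr 1
    have := h i
    field_simp at this ⊢
    linear_combination this
  rw [h1, norm_smul]
  have h2 := norm_add_le (∑ i, μ i • D.P i x) (∑ i, ν i • D.P i x)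
  have h3 := D.torus μ hμ x
  have h4 := D.torus ν hν x
  have h5 : ‖((M : ℂ) / 2)‖ = M / 2 := by
    rw [norm_div, Complex.norm_real, Real.norm_eq_abs, abs_of_pos hM0]; norm_num
  rw [h5]
  have : 0 ≤ M / 2 := by positivity
  nlinarith

/-- `Π_S` -/
noncomputable def PS (S : Finset ι) : Y →ₗ[ℂ] Y := ∑ i ∈ S, D.P i

theorem PS_apply (S : Finset ι) (x : Y) : D.PS S x = ∑ i ∈ S, D.P i x := by
  simp [PS]

/-- diagonal operators -/
noncomputable def diag (l : ι → ℂ) : Y →ₗ[ℂ] Y := ∑ i, l i • D.P i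

theorem diag_apply (l : ι → ℂ) (x : Y) : D.diag l x = ∑ i, l i • D.P i x := by
  simp [diag]

theorem P_diag (l : ι → ℂ) (i : ι) (x : Y) : D.P i (D.diag l x) = l i • D.P i x := by
  rw [diag_apply, map_sum, Finset.sum_eq_single i]
  · rw [map_smul, D.PP]
  · intro j _ hj
    rw [map_smul, D.PP' i j x hj.symm, smul_zero]
  · intro h; exact absurd (Finset.mem_univ i) h

theorem diag_diag (l l' : ι → ℂ) (x : Y) : D.diag l (D.diag l' x) = D.diag (l * l') x := by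
  rw [D.diag_apply l, D.diag_apply (l * l')]
  apply Finset.sum_congr rfl
  intro i _
  rw [P_diag, smul_smul]
  rfl

theorem diag_one (x : Y) : D.diag 1 x = x := by
  rw [diag_apply]
  simp only [Pi.one_apply, one_smul]
  exact D.sum x

theorem diag_norm {l : ι → ℂ} (hl : ∀ i, ‖l i‖ ≤ 1) (x : Y) : ‖D.diag l x‖ ≤ (1 + D.κ) * ‖x‖ := by
  rw [diag_apply]
  have := D.mult zero_le_one hl x
  rwa [one_mul] at this

/-- The main one-parameter estimate for diagonal operators. -/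
theorem diag_herm {l : ι → ℂ} {M s : ℝ} (hM : 0 ≤ M) (hl : ∀ i, ‖1 + (I * s) * l i‖ ≤ M) (x : Y) :
    ‖x + (I * s) • D.diag l x‖ ≤ (M * (1 + D.κ)) * ‖x‖ := by
  have h1 : x + (I * s) • D.diag l x = ∑ i, (1 + (I * s) * l i) • D.P i x := by
    rw [diag_apply, Finset.smul_sum]
    conv_lhs => rw [← D.sum x]
    have : ∀ i, D.P i (∑ j, D.P j x) = D.P i x := by
      intro i; rw [D.sum x]
    simp only [this]
    rw [← Finset.sum_add_distrib]
    apply Finset.sum_congr rfl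
    intro i _
    rw [add_smul, one_smul, smul_smul]
  rw [h1]
  exact D.mult hM hl x

theorem norm_one_add_I (s : ℝ) : ‖1 + I * (s : ℂ)‖ = Real.sqrt (1 + s ^ 2) := by
  have : (1 + I * (s : ℂ)) = ⟨1, s⟩ := by apply Complex.ext <;> simp
  rw [this, Complex.norm_def, Complex.normSq_mk]
  congr 1; ring

theorem Q_herm (s : ℝ) (x : Y) :
    ‖x + (I * s) • D.Q x‖ ≤ (Real.sqrt (1 + s ^ 2) * (1 + D.κ)) * ‖x‖ := by
  set c := Real.sqrt (1 + s ^ 2) with hc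
  have hc1 : 1 ≤ c := Real.one_le_sqrt.mpr (by nlinarith [sq_nonneg s])
  have hc0 : 0 < c := by linarith
  have hcc : (c : ℂ) ≠ 0 := by exact_mod_cast hc0.ne'
  set μ : ℂ := (1 + I * s) / c with hμ
  have hμn : ‖μ‖ = 1 := by
    rw [hμ, norm_div, norm_one_add_I, Complex.norm_real, Real.norm_eq_abs, abs_of_pos hc0,
      ← hc, div_self hc0.ne']
  have h1 : x + (I * s) • D.Q x = (((c + 1) / 2 : ℝ) : ℂ) • (μ • D.Q x + (x - D.Q x))
      + (((c - 1) / 2 : ℝ) : ℂ) • (-((-μ) • D.Q x + (x - D.Q x))) := by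
    have h2 : (1 + I * s) = c * μ := by rw [hμ]; field_simp
    have h3 : x + (I * s) • D.Q x = (1 + I * s) • D.Q x + (x - D.Q x) := by
      rw [add_smul, one_smul]; abel
    rw [h3, h2]
    push_cast
    module
  rw [h1]
  refine (norm_add_le _ _).trans ?_
  rw [norm_smul, norm_smul, norm_neg]
  have h2 := D.rot μ hμn x
  have h3 := D.rot (-μ) (by rw [norm_neg, hμn]) x
  have h4 : ‖(((c + 1) / 2 : ℝ) : ℂ)‖ = (c + 1) / 2 := by
    rw [Complex.norm_real, Real.norm_eq_abs, abs_of_nonneg (by linarith)]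
  have h5 : ‖(((c - 1) / 2 : ℝ) : ℂ)‖ = (c - 1) / 2 := by
    rw [Complex.norm_real, Real.norm_eq_abs, abs_of_nonneg (by linarith)]
  rw [h4, h5]
  have h6 : 0 ≤ (c + 1) / 2 := by linarith
  have h7 : 0 ≤ (c - 1) / 2 := by linarith
  nlinarith

theorem conj_herm {A G G' : Y →ₗ[ℂ] Y} {M c s : ℝ} (hGG' : ∀ x, G (G' x) = x)
    (hG : ∀ x, ‖G x‖ ≤ c * ‖x‖) (hG' : ∀ x, ‖G' x‖ ≤ c * ‖x‖) (hc : 0 ≤ c) (hM : 0 ≤ M)
    (hA : ∀ x, ‖x + (I * s) • A x‖ ≤ M * ‖x‖) (x : Y) :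
    ‖x + (I * s) • G (A (G' x))‖ ≤ (c ^ 2 * M) * ‖x‖ := by
  have h1 : x + (I * s) • G (A (G' x)) = G (G' x + (I * s) • A (G' x)) := by
    rw [map_add, map_smul, hGG']
  rw [h1]
  calc ‖G (G' x + (I * s) • A (G' x))‖ ≤ c * ‖G' x + (I * s) • A (G' x)‖ := hG _
    _ ≤ c * (M * ‖G' x‖) := by gcongr; exact hA _
    _ ≤ c * (M * (c * ‖x‖)) := by gcongr; exact hG' _
    _ = _ := by ring

/-- `U = 1 - 2Q` -/
noncomputable def U : Y →ₗ[ℂ] Y := LinearMap.id - (2 : ℂ) • D.Q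

theorem U_apply (x : Y) : D.U x = x - (2 : ℂ) • D.Q x := rfl

theorem UU (x : Y) : D.U (D.U x) = x := by
  rw [U_apply, U_apply, map_sub, map_smul, D.QQ]
  module

theorem U_norm (x : Y) : ‖D.U x‖ ≤ (1 + D.κ) * ‖x‖ := by
  have := D.rot (-1) (by simp) x
  have h1 : D.U x = (-1 : ℂ) • D.Q x + (x - D.Q x) := by
    rw [U_apply]; module
  rw [h1]; exact this

/-- signs, equal to one on `S` -/
noncomputable def sgn (S : Finset ι) (b : ι → ℤˣ) (i : ι) : ℂ :=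
  if i ∈ S then 1 else ((b i : ℤ) : ℂ)

theorem sgn_sq (S : Finset ι) (b : ι → ℤˣ) (i : ι) : sgn S b i * sgn S b i = 1 := by
  unfold sgn
  by_cases h : i ∈ S
  · simp [h]
  · rw [if_neg h]
    rcases Int.units_eq_one_or (b i) with h1 | h1 <;> simp [h1]

theorem sgn_norm (S : Finset ι) (b : ι → ℤˣ) (i : ι) : ‖sgn S b i‖ = 1 := by
  unfold sgn
  by_cases h : i ∈ S
  · simp [h]
  · rw [if_neg h]
    rcases Int.units_eq_one_or (b i) with h1 | h1 <;> simp [h1]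

theorem sgn_sum_zero (S : Finset ι) {i j : ι} (hi : i ∉ S) (hij : i ≠ j) :
    ∑ b : ι → ℤˣ, sgn S b i * sgn S b j = 0 := by
  have h1 : ∑ b : ι → ℤˣ, sgn S b i * sgn S b j
      = ∑ b : ι → ℤˣ, -(sgn S b i * sgn S b j) := by
    apply Fintype.sum_equiv (Equiv.mulLeft (Pi.mulSingle i (-1 : ℤˣ)))
    intro b
    have h2 : sgn S ((Equiv.mulLeft (Pi.mulSingle i (-1 : ℤˣ))) b) i = - sgn S b i := by
      simp [sgn, hi]
    have h3 : sgn S ((Equiv.mulLeft (Pi.mulSingle i (-1 : ℤˣ))) b) j = sgn S b j := by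
      simp [sgn, Pi.mulSingle_eq_of_ne hij.symm]
    rw [h2, h3]; ring
  rw [Finset.sum_neg_distrib] at h1
  have h2 : (2 : ℂ) * ∑ b : ι → ℤˣ, sgn S b i * sgn S b j = 0 := by linear_combination h1
  exact (mul_eq_zero.mp h2).resolve_left two_ne_zero

theorem sgn_sum (S : Finset ι) (i j : ι) :
    ∑ b : ι → ℤˣ, sgn S b i * sgn S b j
      = if (i ∈ S ∧ j ∈ S) ∨ i = j then (Fintype.card (ι → ℤˣ) : ℂ) else 0 := by
  by_cases hij : i = j
  · subst hij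
    simp only [sgn_sq, or_true, if_true, Finset.sum_const, Finset.card_univ, nsmul_eq_mul, mul_one]
  · by_cases hi : i ∈ S
    · by_cases hj : j ∈ S
      · have : ∀ b : ι → ℤˣ, sgn S b i * sgn S b j = 1 := fun b => by simp [sgn, hi, hj]
        simp only [this, Finset.sum_const, Finset.card_univ, nsmul_eq_mul, mul_one]
        rw [if_pos (Or.inl ⟨hi, hj⟩)]
      · have h1 := sgn_sum_zero S hj (Ne.symm hij)
        rw [if_neg (by simp [hj, hij])]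
        rw [← h1]
        exact Finset.sum_congr rfl fun b _ => mul_comm _ _
    · rw [if_neg (by simp [hi, hij])]
      exact sgn_sum_zero S hi hij

/-- The averaging identity. -/
theorem average (S : Finset ι) (x : Y) :
    ∑ b : ι → ℤˣ, D.diag (sgn S b) (D.Q (D.diag (sgn S b) x))
      = (Fintype.card (ι → ℤˣ) : ℂ) • (D.PS S (D.Q (D.PS S x))
        + ∑ i ∈ Sᶜ, D.P i (D.Q (D.P i x))) := by
  have h1 : ∀ b : ι → ℤˣ, D.diag (sgn S b) (D.Q (D.diag (sgn S b) x))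
      = ∑ i, ∑ j, (sgn S b i * sgn S b j) • D.P i (D.Q (D.P j x)) := by
    intro b
    rw [D.diag_apply, D.diag_apply]
    apply Finset.sum_congr rfl
    intro i _
    rw [map_sum, map_sum, Finset.smul_sum]
    apply Finset.sum_congr rfl
    intro j _
    rw [map_smul, map_smul, smul_smul]
  simp only [h1]
  rw [Finset.sum_comm]
  have h2 : ∀ i : ι, ∑ b : ι → ℤˣ, ∑ j, (sgn S b i * sgn S b j) • D.P i (D.Q (D.P j x))
      = ∑ j, (if (i ∈ S ∧ j ∈ S) ∨ i = j then (Fintype.card (ι → ℤˣ) : ℂ) else 0)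
        • D.P i (D.Q (D.P j x)) := by
    intro i
    rw [Finset.sum_comm]
    apply Finset.sum_congr rfl
    intro j _
    rw [← Finset.sum_smul, sgn_sum]
  simp only [h2]
  rw [← Finset.sum_add_sum_compl S, smul_add]
  congr 1
  · rw [PS_apply, PS_apply, Finset.smul_sum]
    apply Finset.sum_congr rfl
    intro i hi
    rw [map_sum, map_sum, Finset.smul_sum, ← Finset.sum_add_sum_compl S]
    have h3 : ∑ j ∈ Sᶜ, (if (i ∈ S ∧ j ∈ S) ∨ i = j then (Fintype.card (ι → ℤˣ) : ℂ) else 0)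
        • D.P i (D.Q (D.P j x)) = 0 := by
      apply Finset.sum_eq_zero
      intro j hj
      have hj' : j ∉ S := by simpa using hj
      rw [if_neg, zero_smul]
      rintro (⟨_, h⟩ | h)
      · exact hj' h
      · exact hj' (h ▸ hi)
    rw [h3, add_zero]
    apply Finset.sum_congr rfl
    intro j hj
    rw [if_pos (Or.inl ⟨hi, hj⟩)]
  · rw [Finset.smul_sum]
    apply Finset.sum_congr rfl
    intro i hi
    have hi' : i ∉ S := by simpa using hi
    rw [Finset.sum_eq_single i]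
    · rw [if_pos (Or.inr rfl)]
    · intro j _ hj
      rw [if_neg, zero_smul]
      rintro (⟨h, _⟩ | h)
      · exact hi' h
      · exact hj h.symm
    · intro h; exact absurd (Finset.mem_univ i) h

/-- `Q Π_S Q` as a combination of conjugates of hermitian operators. -/
theorem QPQ_formula (S : Finset ι) {o : ι} (ho : o ∉ S) {m : ι → ℂ}
    (hm : ∀ i, i ≠ o → ∀ x, D.P i (D.Q (D.P i x)) = m i • D.P i x) (x : Y) :
    D.Q (D.PS S (D.Q x)) = (1 / 4 : ℂ) • D.Q x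
      - (1 / 4 : ℂ) • D.diag (fun i => if i ∈ S then -1 else 1)
          (D.Q (D.diag (fun i => if i ∈ S then -1 else 1) x))
      + (1 / (Fintype.card (ι → ℤˣ) : ℂ)) •
          ∑ b : ι → ℤˣ, D.diag (sgn S b) (D.Q (D.diag (sgn S b) x))
      - D.diag (fun i => if i ∈ S ∨ i = o then 0 else m i) x
      - D.P o (D.Q (D.P o x)) - (1 / 4 : ℂ) • D.PS S x + (1 / 4 : ℂ) • D.U (D.PS S (D.U x)) := by
  have hc : (Fintype.card (ι → ℤˣ) : ℂ) ≠ 0 := by
    exact_mod_cast Fintype.card_ne_zero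
  rw [D.average, smul_smul, one_div_mul_cancel hc, one_smul]
  have h1 : ∀ y, D.diag (fun i => if i ∈ S then (-1 : ℂ) else 1) y = y - (2 : ℂ) • D.PS S y := by
    intro y
    rw [diag_apply, PS_apply, ← Finset.sum_add_sum_compl S]
    have h2 : ∑ i ∈ S, (if i ∈ S then (-1 : ℂ) else 1) • D.P i y = -∑ i ∈ S, D.P i y := by
      rw [← Finset.sum_neg_distrib]
      exact Finset.sum_congr rfl fun i hi => by rw [if_pos hi, neg_one_smul]
    have h3 : ∑ i ∈ Sᶜ, (if i ∈ S then (-1 : ℂ) else 1) • D.P i y = ∑ i ∈ Sᶜ, D.P i y :=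
      Finset.sum_congr rfl fun i hi => by
        rw [if_neg (by simpa using hi), one_smul]
    have h4 : ∑ i ∈ S, D.P i y + ∑ i ∈ Sᶜ, D.P i y = y := by
      rw [Finset.sum_add_sum_compl, D.sum y]
    rw [h2, h3]
    calc -∑ i ∈ S, D.P i y + ∑ i ∈ Sᶜ, D.P i y
        = (∑ i ∈ S, D.P i y + ∑ i ∈ Sᶜ, D.P i y) - (2 : ℂ) • ∑ i ∈ S, D.P i y := by module
      _ = y - (2 : ℂ) • ∑ i ∈ S, D.P i y := by rw [h4]
  have h2 : ∑ i ∈ Sᶜ, D.P i (D.Q (D.P i x))
      = D.diag (fun i => if i ∈ S ∨ i = o then 0 else m i) x + D.P o (D.Q (D.P o x)) := by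
    rw [diag_apply, ← Finset.sum_add_sum_compl S]
    have h3 : ∑ i ∈ S, (if i ∈ S ∨ i = o then (0 : ℂ) else m i) • D.P i x = 0 := by
      apply Finset.sum_eq_zero
      intro i hi
      rw [if_pos (Or.inl hi), zero_smul]
    have hoS : o ∈ Sᶜ := by simpa using ho
    rw [h3, zero_add, ← Finset.add_sum_erase _ _ hoS, ← Finset.add_sum_erase _ _ hoS,
      if_pos (Or.inr rfl), zero_smul, zero_add, add_comm]
    congr 1
    apply Finset.sum_congr rfl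
    intro i hi
    have hio : i ≠ o := Finset.ne_of_mem_erase hi
    have hiS : i ∉ S := by simpa using Finset.mem_of_mem_erase hi
    rw [if_neg (by simp [hio, hiS]), hm i hio]
  rw [h2, h1, h1]
  simp only [U_apply, map_sub, map_smul]
  module

theorem Q_norm (x : Y) : ‖D.Q x‖ ≤ (1 + D.κ) * ‖x‖ := by
  have h1 : D.Q x = (1 / 2 : ℂ) • (x - D.U x) := by
    rw [U_apply]; module
  have h2 := D.U_norm x
  have h3 := norm_sub_le x (D.U x)
  have h4 := norm_nonneg x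
  have h5 := D.κ0
  rw [h1, norm_smul]
  have h6 : ‖(1 / 2 : ℂ)‖ = 1 / 2 := by norm_num
  rw [h6]
  nlinarith

theorem P_norm (i : ι) (x : Y) : ‖D.P i x‖ ≤ (1 + D.κ) * ‖x‖ := by
  have h1 : D.P i x = D.diag (Pi.single i 1) x := by
    rw [diag_apply, Finset.sum_eq_single i]
    · simp
    · intro j _ hj; simp [hj]
    · intro h; exact absurd (Finset.mem_univ i) h
  rw [h1]
  apply D.diag_norm
  intro j
  by_cases h : j = i
  · subst h; simp
  · simp [h]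

/-- The numbers `m i` are almost real and bounded. -/
theorem m_bounds {i : ι} {y : Y} (hy : y ≠ 0) (hPy : D.P i y = y) {m : ℂ}
    (hm : ∀ x, D.P i (D.Q (D.P i x)) = m • D.P i x) :
    ‖m‖ ≤ (1 + D.κ) ^ 2 ∧ |m.im| ≤ 16 * Real.sqrt D.κ := by
  have hy0 : 0 < ‖y‖ := norm_pos_iff.mpr hy
  have h1 : D.P i (D.Q y) = m • y := by
    have := hm y
    rwa [hPy] at this
  have hκ := D.κ0
  have hκ1 := D.κ1
  constructor
  · have h2 : ‖m‖ * ‖y‖ ≤ (1 + D.κ) ^ 2 * ‖y‖ := by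
      rw [← norm_smul, ← h1]
      calc ‖D.P i (D.Q y)‖ ≤ (1 + D.κ) * ‖D.Q y‖ := D.P_norm i _
        _ ≤ (1 + D.κ) * ((1 + D.κ) * ‖y‖) := by
          gcongr; exact D.Q_norm y
        _ = _ := by ring
    exact le_of_mul_le_mul_right h2 hy0
  · -- `|1 + i s m|² ≤ (1+κ)⁴ (1 + s²)`
    have h2 : ∀ s : ℝ, ‖1 + (I * s) * m‖ ^ 2 ≤ (1 + D.κ) ^ 4 * (1 + s ^ 2) := by
      intro s
      have h3 : D.P i (y + (I * s) • D.Q y) = (1 + (I * s) * m) • y := by
        rw [map_add, map_smul, h1, hPy, add_smul, one_smul, smul_smul]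
      have h4 : ‖1 + (I * s) * m‖ * ‖y‖
          ≤ ((1 + D.κ) * (Real.sqrt (1 + s ^ 2) * (1 + D.κ))) * ‖y‖ := by
        rw [← norm_smul, ← h3]
        calc ‖D.P i (y + (I * s) • D.Q y)‖ ≤ (1 + D.κ) * ‖y + (I * s) • D.Q y‖ := D.P_norm i _
          _ ≤ (1 + D.κ) * ((Real.sqrt (1 + s ^ 2) * (1 + D.κ)) * ‖y‖) := by
            gcongr; exact D.Q_herm s y
          _ = _ := by ring
      have h5 := le_of_mul_le_mul_right h4 hy0
      have h6 : ‖1 + (I * s) * m‖ ^ 2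
          ≤ ((1 + D.κ) * (Real.sqrt (1 + s ^ 2) * (1 + D.κ))) ^ 2 := by
        gcongr
      refine h6.trans_eq ?_
      have h7 : Real.sqrt (1 + s ^ 2) ^ 2 = 1 + s ^ 2 := Real.sq_sqrt (by positivity)
      calc _ = (1 + D.κ) ^ 4 * Real.sqrt (1 + s ^ 2) ^ 2 := by ring
        _ = _ := by rw [h7]
    have h8 : ∀ s : ℝ, ‖1 + (I * s) * m‖ ^ 2 = (1 - s * m.im) ^ 2 + (s * m.re) ^ 2 := by
      intro s
      rw [← Complex.normSq_eq_norm_sq, Complex.normSq_apply]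
      simp
      ring
    have h9 : ∀ s : ℝ, -(2 * s * m.im) ≤ (1 + D.κ) ^ 4 * (1 + s ^ 2) - 1 := by
      intro s
      have := h2 s
      rw [h8] at this
      nlinarith [sq_nonneg (s * m.im), sq_nonneg (s * m.re)]
    set r := Real.sqrt D.κ with hr
    have hr2 : r ^ 2 = D.κ := Real.sq_sqrt hκ
    have hr0 : 0 ≤ r := Real.sqrt_nonneg _
    rcases hr0.eq_or_lt with h0 | hrpos
    · -- κ = 0
      have hk0 : D.κ = 0 := by rw [← hr2, ← h0]; ring
      rw [hk0] at h9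
      have him : m.im = 0 := by
        by_contra hne
        have h10 := h9 (-m.im)
        have h11 : 0 < m.im ^ 2 := by positivity
        nlinarith
      rw [him, ← h0]; simp
    · have h10 := h9 r
      have h11 := h9 (-r)
      have h12 : (1 + D.κ) ^ 4 * (1 + r ^ 2) - 1 ≤ 32 * r ^ 2 := by
        rw [hr2]
        have : (1 + D.κ) ^ 4 * (1 + D.κ) = 1 + D.κ * (5 + 10 * D.κ + 10 * D.κ ^ 2
          + 5 * D.κ ^ 3 + D.κ ^ 4) := by ring
        rw [this]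
        have h13 : D.κ ^ 2 ≤ 1 := by nlinarith
        have h14 : D.κ ^ 3 ≤ 1 := by nlinarith
        have h15 : D.κ ^ 4 ≤ 1 := by nlinarith
        nlinarith
      have h16 : (-r) ^ 2 = r ^ 2 := by ring
      rw [h16] at h11
      rw [abs_le]
      constructor
      · have : -(2 * r * m.im) ≤ 32 * r ^ 2 := h10.trans h12
        nlinarith
      · have : -(2 * (-r) * m.im) ≤ 32 * r ^ 2 := h11.trans h12
        nlinarith

theorem herm_DS {κs : ℝ} (l : ι → ℂ) (hl : ∀ i, ‖l i‖ ≤ 1) (hll : ∀ i, l i * l i = 1) (x : Y) :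
    ‖x + (I * κs) • D.diag l (D.Q (D.diag l x))‖
      ≤ ((1 + D.κ) ^ 3 * Real.sqrt (1 + κs ^ 2)) * ‖x‖ := by
  have hκ := D.κ0
  have h0 : 0 ≤ Real.sqrt (1 + κs ^ 2) := Real.sqrt_nonneg _
  have h1 : ∀ y, D.diag l (D.diag l y) = y := by
    intro y
    rw [D.diag_diag]
    have : l * l = 1 := by funext i; exact hll i
    rw [this, D.diag_one]
  have := conj_herm (A := D.Q) (s := κs) h1 (D.diag_norm hl) (D.diag_norm hl) (by linarith)
    (by positivity) (D.Q_herm κs) x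
  refine this.trans_eq ?_
  ring

theorem herm_avg {κs : ℝ} (S : Finset ι) (x : Y) :
    ‖x + (I * κs) • ((1 / (Fintype.card (ι → ℤˣ) : ℂ)) •
          ∑ b : ι → ℤˣ, D.diag (sgn S b) (D.Q (D.diag (sgn S b) x)))‖
      ≤ ((1 + D.κ) ^ 3 * Real.sqrt (1 + κs ^ 2)) * ‖x‖ := by
  have hcN : (Fintype.card (ι → ℤˣ) : ℂ) ≠ 0 := by exact_mod_cast Fintype.card_ne_zero
  have hcR : (0 : ℝ) < Fintype.card (ι → ℤˣ) := by exact_mod_cast Fintype.card_pos
  have h1 : x + (I * κs) • ((1 / (Fintype.card (ι → ℤˣ) : ℂ)) •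
          ∑ b : ι → ℤˣ, D.diag (sgn S b) (D.Q (D.diag (sgn S b) x)))
      = (1 / (Fintype.card (ι → ℤˣ) : ℂ)) • ∑ b : ι → ℤˣ,
        (x + (I * κs) • D.diag (sgn S b) (D.Q (D.diag (sgn S b) x))) := by
    rw [Finset.sum_add_distrib, ← Finset.smul_sum, Finset.sum_const, Finset.card_univ, smul_add,
      ← Nat.cast_smul_eq_nsmul ℂ, smul_smul (1 / (Fintype.card (ι → ℤˣ) : ℂ)) _ x,
      one_div_mul_cancel hcN, one_smul,
      smul_comm (1 / (Fintype.card (ι → ℤˣ) : ℂ)) (I * (κs : ℂ))]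
  rw [h1, norm_smul]
  have h2 : ‖(1 / (Fintype.card (ι → ℤˣ) : ℂ))‖ = 1 / Fintype.card (ι → ℤˣ) := by
    rw [norm_div, norm_one, Complex.norm_natCast]
  rw [h2]
  have h3 : ‖∑ b : ι → ℤˣ, (x + (I * κs) • D.diag (sgn S b) (D.Q (D.diag (sgn S b) x)))‖
      ≤ ∑ b : ι → ℤˣ, ((1 + D.κ) ^ 3 * Real.sqrt (1 + κs ^ 2)) * ‖x‖ := by
    apply norm_sum_le_of_le
    intro b _
    exact D.herm_DS _ (fun i => (sgn_norm S b i).le) (fun i => sgn_sq S b i) x
  rw [Finset.sum_const, Finset.card_univ, nsmul_eq_mul] at h3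
  calc _ ≤ 1 / (Fintype.card (ι → ℤˣ) : ℝ) * ((Fintype.card (ι → ℤˣ) : ℝ)
        * (((1 + D.κ) ^ 3 * Real.sqrt (1 + κs ^ 2)) * ‖x‖)) := by gcongr
    _ = _ := by field_simp

theorem herm_N {κs : ℝ} {l : ι → ℂ} (hl : ∀ i, ‖l i‖ ≤ (1 + D.κ) ^ 2 ∧
      |(l i).im| ≤ 16 * Real.sqrt D.κ) (x : Y) :
    ‖x + (I * κs) • D.diag l x‖
      ≤ ((1 + D.κ) ^ 3 * Real.sqrt (1 + κs ^ 2) + 32 * |κs| * Real.sqrt D.κ) * ‖x‖ := by
  have hκ := D.κ0
  have hκ1 := D.κ1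
  have h0 : 0 ≤ Real.sqrt (1 + κs ^ 2) := Real.sqrt_nonneg _
  have h00 : 0 ≤ Real.sqrt D.κ := Real.sqrt_nonneg _
  set M := (1 + D.κ) ^ 2 * Real.sqrt (1 + κs ^ 2) + 16 * |κs| * Real.sqrt D.κ with hM
  have hM0 : 0 ≤ M := by positivity
  have h1 : ∀ i, ‖1 + (I * κs) * l i‖ ≤ M := by
    intro i
    obtain ⟨ha, hb⟩ := hl i
    have h2 : 1 + (I * κs) * l i = (1 + I * ((κs * (l i).re : ℝ) : ℂ)) - ((κs * (l i).im : ℝ) : ℂ) := by
      apply Complex.ext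
      · simp; ring
      · simp
    have h3 : |(l i).re| ≤ (1 + D.κ) ^ 2 := (Complex.abs_re_le_norm _).trans ha
    rw [h2]
    refine (norm_sub_le _ _).trans ?_
    rw [norm_one_add_I, Complex.norm_real, Real.norm_eq_abs, abs_mul]
    have h4 : Real.sqrt (1 + (κs * (l i).re) ^ 2) ≤ (1 + D.κ) ^ 2 * Real.sqrt (1 + κs ^ 2) := by
      rw [Real.sqrt_le_left (by positivity), mul_pow ((1 + D.κ) ^ 2), Real.sq_sqrt (by positivity),
        mul_pow]
      have h5 : (l i).re ^ 2 ≤ ((1 + D.κ) ^ 2) ^ 2 := by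
        rw [← sq_abs]; gcongr
      have h6 : 1 ≤ ((1 + D.κ) ^ 2) ^ 2 := by
        apply one_le_pow₀; apply one_le_pow₀; linarith
      nlinarith [sq_nonneg κs]
    have h5 : |κs| * |(l i).im| ≤ 16 * |κs| * Real.sqrt D.κ := by
      have := mul_le_mul_of_nonneg_left hb (abs_nonneg κs)
      linarith
    linarith
  refine (D.diag_herm hM0 h1 x).trans ?_
  gcongr
  rw [hM]
  have : 16 * |κs| * Real.sqrt D.κ * (1 + D.κ) ≤ 32 * |κs| * Real.sqrt D.κ := by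
    have : 0 ≤ 16 * |κs| * Real.sqrt D.κ := by positivity
    nlinarith
  nlinarith

theorem herm_PS {κs : ℝ} (S : Finset ι) (x : Y) :
    ‖x + (I * κs) • D.PS S x‖ ≤ ((1 + D.κ) * Real.sqrt (1 + κs ^ 2)) * ‖x‖ := by
  have h1 : D.PS S x = D.diag (fun i => if i ∈ S then 1 else 0) x := by
    rw [diag_apply, PS_apply, ← Finset.sum_add_sum_compl S]
    have h2 : ∑ i ∈ Sᶜ, (if i ∈ S then (1 : ℂ) else 0) • D.P i x = 0 :=
      Finset.sum_eq_zero fun i hi => by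
        rw [if_neg (by simpa using hi), zero_smul]
    rw [h2, add_zero]
    exact Finset.sum_congr rfl fun i hi => by rw [if_pos hi, one_smul]
  rw [h1]
  have h3 : 1 ≤ Real.sqrt (1 + κs ^ 2) := Real.one_le_sqrt.mpr (by nlinarith [sq_nonneg κs])
  have := D.diag_herm (l := fun i => if i ∈ S then 1 else 0) (s := κs)
    (M := Real.sqrt (1 + κs ^ 2)) (by positivity) (by
      intro i
      by_cases h : i ∈ S
      · simp only [h, if_true, mul_one]; exact (norm_one_add_I κs).le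
      · simp only [h, if_false, mul_zero, add_zero, norm_one]; exact h3) x
  refine this.trans_eq ?_
  ring

theorem herm_UPSU {κs : ℝ} (S : Finset ι) (x : Y) :
    ‖x + (I * κs) • D.U (D.PS S (D.U x))‖ ≤ ((1 + D.κ) ^ 3 * Real.sqrt (1 + κs ^ 2)) * ‖x‖ := by
  have hκ := D.κ0
  have h0 : 0 ≤ Real.sqrt (1 + κs ^ 2) := Real.sqrt_nonneg _
  have := conj_herm (A := D.PS S) (s := κs) D.UU D.U_norm D.U_norm (by linarith)
    (by positivity) (D.herm_PS S) x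
  refine this.trans_eq ?_
  ring

/-- **Lemma N.** -/
theorem lemmaN (S : Finset ι) {o : ι} (ho : o ∉ S) {m : ι → ℂ}
    (hm : ∀ i, i ≠ o → ∀ x, D.P i (D.Q (D.P i x)) = m i • D.P i x)
    (hy : ∀ i, i ≠ o → m i = 0 ∨ ∃ y : Y, y ≠ 0 ∧ D.P i y = y)
    {τ : ℝ} (hτ : ∀ x, ‖D.P o (D.Q (D.P o x))‖ ≤ τ * ‖x‖) (t : ℝ) (x : Y) :
    ‖x + (I * t) • D.Q (D.PS S (D.Q x))‖
      ≤ ((1 + D.κ) ^ 3 * Real.sqrt (1 + 9 * t ^ 2) + 32 * |t| * Real.sqrt D.κ + |t| * τ) * ‖x‖ := by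
  have hκ := D.κ0
  have hκ1 := D.κ1
  have hx := norm_nonneg x
  set c := Real.sqrt (1 + 9 * t ^ 2) with hc
  have hc0 : 0 ≤ c := Real.sqrt_nonneg _
  have hcp : Real.sqrt (1 + (3 * t) ^ 2) = c := by rw [hc]; congr 1; ring
  have hcm : Real.sqrt (1 + (-(3 * t)) ^ 2) = c := by rw [hc]; congr 1; ring
  have hk1 : 1 + D.κ ≤ (1 + D.κ) ^ 3 := by nlinarith [mul_nonneg hκ hκ, mul_nonneg (mul_nonneg hκ hκ) hκ]
  -- the six pieces
  have a1 : ‖x + (I * ((3 * t : ℝ) : ℂ)) • D.Q x‖ ≤ ((1 + D.κ) ^ 3 * c) * ‖x‖ := by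
    refine (D.Q_herm (3 * t) x).trans ?_
    rw [hcp, mul_comm c]
    gcongr
  have a2 := D.herm_DS (κs := -(3 * t)) (fun i => if i ∈ S then (-1 : ℂ) else 1)
    (by intro i; by_cases h : i ∈ S <;> simp [h]) (by intro i; by_cases h : i ∈ S <;> simp [h]) x
  have a3 := D.herm_avg (κs := 3 * t) S x
  have a4 := D.herm_N (κs := -(3 * t)) (l := fun i => if i ∈ S ∨ i = o then 0 else m i) (by
    intro i
    by_cases h : i ∈ S ∨ i = o
    · simp only [h, if_true, norm_zero, Complex.zero_im, abs_zero]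
      exact ⟨by positivity, by positivity⟩
    · have hio : i ≠ o := fun h' => h (Or.inr h')
      simp only [h, if_false]
      rcases hy i hio with h0 | ⟨y, hy0, hyP⟩
      · rw [h0, norm_zero, Complex.zero_im, abs_zero]
        exact ⟨by positivity, by positivity⟩
      · exact D.m_bounds hy0 hyP (hm i hio)) x
  have a5 : ‖x + (I * ((-(3 * t) : ℝ) : ℂ)) • D.PS S x‖ ≤ ((1 + D.κ) ^ 3 * c) * ‖x‖ := by
    refine (D.herm_PS S x).trans ?_
    rw [hcm]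
    gcongr
  have a6 := D.herm_UPSU (κs := 3 * t) S x
  rw [hcm] at a2 a4
  rw [hcp] at a3 a6
  have a7 := hτ x
  have habs : |(-(3 * t))| = 3 * |t| := by rw [abs_neg, abs_mul, abs_of_pos (by norm_num : (0:ℝ) < 3)]
  rw [habs] at a4
  rw [D.QPQ_formula S ho hm x]
  have key : x + (I * t) • ((1 / 4 : ℂ) • D.Q x
      - (1 / 4 : ℂ) • D.diag (fun i => if i ∈ S then -1 else 1)
          (D.Q (D.diag (fun i => if i ∈ S then -1 else 1) x))
      + (1 / (Fintype.card (ι → ℤˣ) : ℂ)) •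
          ∑ b : ι → ℤˣ, D.diag (sgn S b) (D.Q (D.diag (sgn S b) x))
      - D.diag (fun i => if i ∈ S ∨ i = o then 0 else m i) x
      - D.P o (D.Q (D.P o x)) - (1 / 4 : ℂ) • D.PS S x + (1 / 4 : ℂ) • D.U (D.PS S (D.U x)))
      = (1 / 12 : ℝ) • (x + (I * ((3 * t : ℝ) : ℂ)) • D.Q x)
      + (1 / 12 : ℝ) • (x + (I * ((-(3 * t) : ℝ) : ℂ)) • D.diag (fun i => if i ∈ S then -1 else 1)
          (D.Q (D.diag (fun i => if i ∈ S then -1 else 1) x)))
      + (1 / 3 : ℝ) • (x + (I * ((3 * t : ℝ) : ℂ)) • ((1 / (Fintype.card (ι → ℤˣ) : ℂ)) •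
          ∑ b : ι → ℤˣ, D.diag (sgn S b) (D.Q (D.diag (sgn S b) x))))
      + (1 / 3 : ℝ) • (x + (I * ((-(3 * t) : ℝ) : ℂ)) •
          D.diag (fun i => if i ∈ S ∨ i = o then 0 else m i) x)
      + (1 / 12 : ℝ) • (x + (I * ((-(3 * t) : ℝ) : ℂ)) • D.PS S x)
      + (1 / 12 : ℝ) • (x + (I * ((3 * t : ℝ) : ℂ)) • D.U (D.PS S (D.U x)))
      - (I * t) • D.P o (D.Q (D.P o x)) := by
    generalize D.Q x = q1
    generalize D.diag (fun i => if i ∈ S then -1 else 1)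
          (D.Q (D.diag (fun i => if i ∈ S then -1 else 1) x)) = q2
    generalize (1 / (Fintype.card (ι → ℤˣ) : ℂ)) •
          ∑ b : ι → ℤˣ, D.diag (sgn S b) (D.Q (D.diag (sgn S b) x)) = q3
    generalize D.diag (fun i => if i ∈ S ∨ i = o then 0 else m i) x = q4
    generalize D.PS S x = q5
    generalize D.U (D.PS S (D.U x)) = q6
    generalize D.P o (D.Q (D.P o x)) = q7
    simp only [← Complex.coe_smul]
    push_cast
    module
  rw [key]
  have n1 : ∀ (r : ℝ) (z : Y), 0 ≤ r → ‖r • z‖ = r * ‖z‖ := fun r z hr => by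
    rw [norm_smul, Real.norm_eq_abs, abs_of_nonneg hr]
  refine (norm_sub_le _ _).trans ?_
  have b7 : ‖(I * (t : ℂ)) • D.P o (D.Q (D.P o x))‖ ≤ |t| * τ * ‖x‖ := by
    rw [norm_smul, norm_mul, Complex.norm_I, one_mul, Complex.norm_real, Real.norm_eq_abs,
      mul_assoc]
    gcongr
  have b0 := norm_add_le_of_le (norm_add_le_of_le (norm_add_le_of_le (norm_add_le_of_le
    (norm_add_le_of_le ((n1 (1 / 12) _ (by norm_num)).trans_le
      (mul_le_mul_of_nonneg_left a1 (by norm_num)))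
      ((n1 (1 / 12) _ (by norm_num)).trans_le (mul_le_mul_of_nonneg_left a2 (by norm_num))))
      ((n1 (1 / 3) _ (by norm_num)).trans_le (mul_le_mul_of_nonneg_left a3 (by norm_num))))
      ((n1 (1 / 3) _ (by norm_num)).trans_le (mul_le_mul_of_nonneg_left a4 (by norm_num))))
      ((n1 (1 / 12) _ (by norm_num)).trans_le (mul_le_mul_of_nonneg_left a5 (by norm_num))))
      ((n1 (1 / 12) _ (by norm_num)).trans_le (mul_le_mul_of_nonneg_left a6 (by norm_num)))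
  refine (add_le_add b0 b7).trans_eq ?_
  ring

end NData

end lemmaN

end PoolAgent.MP_df72c7_an
end

section

/-!
# A topological lemma: a double cover of a square has trivial monodromy
-/

namespace PoolAgent.MP_df72c7_an

open Filter Topology Set

section top

/-- coordinates of trace-free 2×2 matrices -/
abbrev TF := ℂ × ℂ × ℂ

/-- the diagonal involution -/
def Dg : TF := (1, 0, 0)

/-- the path on the degenerate edge -/
noncomputable def Rp (t : ℝ) : TF :=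
  ((Real.cos (Real.pi * t) : ℂ), (-Real.sin (Real.pi * t) : ℂ), (-Real.sin (Real.pi * t) : ℂ))

theorem Dg_norm : ‖Dg‖ = 1 := by simp [Dg, Prod.norm_def]

theorem continuous_Rp : Continuous Rp := by
  unfold Rp
  fun_prop

theorem Rp_zero : Rp 0 = Dg := by simp [Rp, Dg]

theorem Rp_one : Rp 1 = -Dg := by simp [Rp, Dg]

/-- The square. -/
def Sq (s t : ℝ) : Prop := s ∈ Icc (0 : ℝ) 1 ∧ t ∈ Icc (0 : ℝ) 1

variable {S : ℝ → ℝ → Set TF}

theorem uniform_close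
    (hcl : IsCompact {x : (ℝ × ℝ) × TF | Sq x.1.1 x.1.2 ∧ x.2 ∈ S x.1.1 x.1.2})
    (hne : ∀ s t, Sq s t → (S s t).Nonempty)
    (hpm : ∀ s t, Sq s t → ∀ m ∈ S s t, ∀ m' ∈ S s t, m' = m ∨ m' = -m)
    (hneg : ∀ s t, Sq s t → ∀ m ∈ S s t, -m ∈ S s t) :
    ∃ δ > 0, ∀ s t s' t', Sq s t → Sq s' t' → |s - s'| ≤ δ → |t - t'| ≤ δ → ∀ m ∈ S s t,
      ∃ m' ∈ S s' t', ‖m - m'‖ < 1 / 8 := by
  by_contra hcon
  push Not at hcon
  have h := fun n : ℕ => hcon (1 / ((n : ℝ) + 1)) (by positivity)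
  choose s t s' t' hst hst' hs ht m hm hm' using h
  choose m' hm'S using fun n => hne (s' n) (t' n) (hst' n)
  set Γ := {x : (ℝ × ℝ) × TF | Sq x.1.1 x.1.2 ∧ x.2 ∈ S x.1.1 x.1.2} with hΓ
  obtain ⟨⟨⟨⟨a, b⟩, c⟩, ⟨⟨a', b'⟩, c'⟩⟩, hmem, φ, hφ, hlim⟩ := (hcl.prod hcl).tendsto_subseq
    (x := fun n => (((s n, t n), m n), ((s' n, t' n), m' n)))
    (fun n => ⟨⟨hst n, hm n⟩, ⟨hst' n, hm'S n⟩⟩)
  have hl1 : Tendsto (fun n => s (φ n)) atTop (𝓝 a) :=
    (((continuous_fst.fst.fst : Continuous fun x : ((ℝ × ℝ) × TF) × ((ℝ × ℝ) × TF) => x.1.1.1).tendsto _).comp hlim)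
  have hl2 : Tendsto (fun n => t (φ n)) atTop (𝓝 b) :=
    (((continuous_fst.fst.snd : Continuous fun x : ((ℝ × ℝ) × TF) × ((ℝ × ℝ) × TF) => x.1.1.2).tendsto _).comp hlim)
  have hl3 : Tendsto (fun n => m (φ n)) atTop (𝓝 c) :=
    (((continuous_fst.snd : Continuous fun x : ((ℝ × ℝ) × TF) × ((ℝ × ℝ) × TF) => x.1.2).tendsto _).comp hlim)
  have hl4 : Tendsto (fun n => s' (φ n)) atTop (𝓝 a') :=
    (((continuous_snd.fst.fst : Continuous fun x : ((ℝ × ℝ) × TF) × ((ℝ × ℝ) × TF) => x.2.1.1).tendsto _).comp hlim)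
  have hl5 : Tendsto (fun n => t' (φ n)) atTop (𝓝 b') :=
    (((continuous_snd.fst.snd : Continuous fun x : ((ℝ × ℝ) × TF) × ((ℝ × ℝ) × TF) => x.2.1.2).tendsto _).comp hlim)
  have hl6 : Tendsto (fun n => m' (φ n)) atTop (𝓝 c') :=
    (((continuous_snd.snd : Continuous fun x : ((ℝ × ℝ) × TF) × ((ℝ × ℝ) × TF) => x.2.2).tendsto _).comp hlim)
  have hz : Tendsto (fun n : ℕ => 1 / ((φ n : ℝ) + 1)) atTop (𝓝 0) :=
    tendsto_one_div_add_atTop_nhds_zero_nat.comp hφ.tendsto_atTop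
  have haa : a = a' := by
    have h1 : Tendsto (fun n => |s (φ n) - s' (φ n)|) atTop (𝓝 |a - a'|) := (hl1.sub hl4).abs
    have h2 : |a - a'| ≤ 0 := le_of_tendsto_of_tendsto' h1 hz fun n => hs (φ n)
    exact sub_eq_zero.mp (abs_nonpos_iff.mp h2)
  have hbb : b = b' := by
    have h1 : Tendsto (fun n => |t (φ n) - t' (φ n)|) atTop (𝓝 |b - b'|) := (hl2.sub hl5).abs
    have h2 : |b - b'| ≤ 0 := le_of_tendsto_of_tendsto' h1 hz fun n => ht (φ n)
    exact sub_eq_zero.mp (abs_nonpos_iff.mp h2)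
  subst haa hbb
  obtain ⟨⟨hsq, hc⟩, ⟨-, hc'⟩⟩ := hmem
  rcases hpm _ _ hsq c hc c' hc' with h | h
  · have h1 : Tendsto (fun n => ‖m (φ n) - m' (φ n)‖) atTop (𝓝 ‖c - c'‖) := (hl3.sub hl6).norm
    have h2 : 1 / 8 ≤ ‖c - c'‖ := ge_of_tendsto' h1 fun n => hm' (φ n) _ (hm'S (φ n))
    rw [h, sub_self, norm_zero] at h2
    norm_num at h2
  · have h1 : Tendsto (fun n => ‖m (φ n) - -m' (φ n)‖) atTop (𝓝 ‖c - -c'‖) :=
      (hl3.sub hl6.neg).norm
    have h2 : 1 / 8 ≤ ‖c - -c'‖ := ge_of_tendsto' h1 fun n =>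
      hm' (φ n) _ (hneg _ _ (hst' _) _ (hm'S (φ n)))
    rw [h, neg_neg, sub_self, norm_zero] at h2
    norm_num at h2

/-- A discrete lift. -/
structure Lift (S : ℝ → ℝ → Set TF) (N : ℕ) (s : ℝ) (k : ℕ) (g : ℕ → TF) : Prop where
  zero : g 0 = Dg
  mem : ∀ j ≤ k, g j ∈ S s (j / N)
  close : ∀ j < k, ‖g (j + 1) - g j‖ < 1 / 8

theorem no_section
    (hcl : IsCompact {x : (ℝ × ℝ) × TF | Sq x.1.1 x.1.2 ∧ x.2 ∈ S x.1.1 x.1.2})
    (hne : ∀ s t, Sq s t → (S s t).Nonempty)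
    (hpm : ∀ s t, Sq s t → ∀ m ∈ S s t, ∀ m' ∈ S s t, m' = m ∨ m' = -m)
    (hneg : ∀ s t, Sq s t → ∀ m ∈ S s t, -m ∈ S s t)
    (hnorm : ∀ s t, Sq s t → ∀ m ∈ S s t, 1 / 2 ≤ ‖m‖)
    (h0 : ∀ s ∈ Icc (0 : ℝ) 1, Dg ∈ S s 0) (h1 : ∀ s ∈ Icc (0 : ℝ) 1, Dg ∈ S s 1)
    (h2 : ∀ t ∈ Icc (0 : ℝ) 1, Dg ∈ S 1 t) (h3 : ∀ t ∈ Icc (0 : ℝ) 1, Rp t ∈ S 0 t) : False := by
  obtain ⟨δ, hδ, hclose⟩ := uniform_close hcl hne hpm hneg
  have hunif := isCompact_Icc.uniformContinuousOn_of_continuous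
    (continuous_Rp.continuousOn : ContinuousOn Rp (Icc (0 : ℝ) 1))
  rw [Metric.uniformContinuousOn_iff] at hunif
  obtain ⟨δ', hδ', hR⟩ := hunif (1 / 8) (by norm_num)
  obtain ⟨N0, hN0⟩ := exists_nat_gt (1 / min δ (δ' / 2))
  have hmin : 0 < min δ (δ' / 2) := by positivity
  have hN0p : (0 : ℝ) < N0 := lt_of_le_of_lt (by positivity) hN0
  obtain ⟨N, hNN, hN⟩ : ∃ N : ℕ, (0 : ℝ) < N ∧ (1 : ℝ) / N < min δ (δ' / 2) := by
    refine ⟨N0, hN0p, ?_⟩
    rw [div_lt_iff₀ hN0p]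
    rw [div_lt_iff₀ hmin] at hN0
    linarith
  have hNδ : (1 : ℝ) / N ≤ δ := hN.le.trans (min_le_left _ _)
  have hNδ' : (1 : ℝ) / N < δ' := by
    have := hN.trans_le (min_le_right _ _)
    linarith
  have hNne : (N : ℝ) ≠ 0 := hNN.ne'
  have hgrid : ∀ j : ℕ, j ≤ N → (j : ℝ) / N ∈ Icc (0 : ℝ) 1 := by
    intro j hj
    refine ⟨by positivity, ?_⟩
    rw [div_le_one hNN]
    exact_mod_cast hj
  have hstep : ∀ j : ℕ, |((j + 1 : ℕ) : ℝ) / N - (j : ℝ) / N| = 1 / N := by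
    intro j
    rw [← sub_div]
    push_cast
    rw [add_sub_cancel_left, abs_of_pos (by positivity)]
  have hstep' : ∀ j : ℕ, |(j : ℝ) / N - ((j + 1 : ℕ) : ℝ) / N| = 1 / N := by
    intro j; rw [abs_sub_comm, hstep]
  -- existence of lifts
  have hex : ∀ s ∈ Icc (0 : ℝ) 1, ∀ k ≤ N, ∃ g, Lift S N s k g := by
    intro s hs k
    induction k with
    | zero =>
      intro _
      refine ⟨fun _ => Dg, rfl, ?_, ?_⟩
      · intro j hj
        obtain rfl : j = 0 := by omega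
        simpa using h0 s hs
      · intro j hj; omega
    | succ k ih =>
      intro hk
      obtain ⟨g, hg0, hgm, hgc⟩ := ih (by omega)
      obtain ⟨m', hm', hmc⟩ := hclose s (k / N) s ((k + 1 : ℕ) / N) ⟨hs, hgrid k (by omega)⟩
        ⟨hs, hgrid (k + 1) hk⟩ (by simp [hδ.le]) (by rw [hstep']; exact hNδ) (g k) (hgm k le_rfl)
      refine ⟨fun j => if j ≤ k then g j else m', ?_, ?_, ?_⟩
      · simp [hg0]
      · intro j hj
        by_cases hjk : j ≤ k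
        · simp only [hjk, if_true]; exact hgm j hjk
        · obtain rfl : j = k + 1 := by omega
          simp only [hjk, if_false]; exact hm'
      · intro j hj
        by_cases hjk : j + 1 ≤ k
        · have : j ≤ k := by omega
          simp only [hjk, this, if_true]
          exact hgc j (by omega)
        · obtain rfl : j = k := by omega
          simp only [hjk, le_refl, if_true, if_false]
          rw [norm_sub_rev]; exact hmc
  -- comparison of lifts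
  have hcmp : ∀ s s' g g', s ∈ Icc (0 : ℝ) 1 → s' ∈ Icc (0 : ℝ) 1 → |s - s'| ≤ δ →
      Lift S N s N g → Lift S N s' N g' → ∀ j ≤ N, ‖g j - g' j‖ < 1 / 8 := by
    intro s s' g g' hs hs' hss' hg hg' j
    induction j with
    | zero => intro _; rw [hg.zero, hg'.zero, sub_self, norm_zero]; norm_num
    | succ j ih =>
      intro hj
      have ihj := ih (by omega)
      obtain ⟨m, hm, hmc⟩ := hclose s ((j + 1 : ℕ) / N) s' ((j + 1 : ℕ) / N)
        ⟨hs, hgrid (j + 1) hj⟩ ⟨hs', hgrid (j + 1) hj⟩ hss' (by simp [hδ.le]) (g (j + 1))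
        (hg.mem (j + 1) hj)
      have hsq : Sq s' ((j + 1 : ℕ) / N) := ⟨hs', hgrid (j + 1) hj⟩
      rcases hpm _ _ hsq (g' (j + 1)) (hg'.mem (j + 1) hj) m hm with h | h
      · rw [← h]; exact hmc
      · exfalso
        have c1 := hg.close j (by omega)
        have c2 := hg'.close j (by omega)
        have c3 := hnorm _ _ hsq (g' (j + 1)) (hg'.mem (j + 1) hj)
        rw [h, sub_neg_eq_add] at hmc
        have e1 : (2 : ℝ) • g' (j + 1) = (g (j + 1) + g' (j + 1)) - (g (j + 1) - g j)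
            - (g j - g' j) + (g' (j + 1) - g' j) := by
          rw [two_smul]; abel
        have e2 : ‖(2 : ℝ) • g' (j + 1)‖ ≤ 1 / 8 + 1 / 8 + 1 / 8 + 1 / 8 := by
          rw [e1]
          refine (norm_add_le _ _).trans (add_le_add ((norm_sub_le _ _).trans (add_le_add
            ((norm_sub_le _ _).trans (add_le_add hmc.le c1.le)) ihj.le)) c2.le)
        rw [norm_smul] at e2
        norm_num at e2
        linarith
  -- ends of lifts
  have hN1 : ((N : ℕ) : ℝ) / N = 1 := div_self hNne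
  have hend : ∀ s g, s ∈ Icc (0 : ℝ) 1 → Lift S N s N g → g N = Dg ∨ g N = -Dg := by
    intro s g hs hg
    have hg1 := hg.mem N le_rfl
    rw [hN1] at hg1
    exact hpm s 1 ⟨hs, by simp⟩ Dg (h1 s hs) (g N) hg1
  have hprop : ∀ s s' g g', s ∈ Icc (0 : ℝ) 1 → s' ∈ Icc (0 : ℝ) 1 → |s - s'| ≤ δ →
      Lift S N s N g → Lift S N s' N g' → g N = -Dg → g' N = -Dg := by
    intro s s' g g' hs hs' hss' hg hg' hgN
    rcases hend s' g' hs' hg' with h | h
    · exfalso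
      have := hcmp s s' g g' hs hs' hss' hg hg' N le_rfl
      rw [hgN, h] at this
      have h4 : -Dg - Dg = (-2 : ℝ) • Dg := by
        rw [neg_smul, two_smul]; abel
      rw [h4, norm_smul, Dg_norm] at this
      norm_num at this
    · exact h
  -- all lifts end at `-Dg`
  have hall : ∀ i ≤ N, ∀ g, Lift S N (i / N) N g → g N = -Dg := by
    intro i
    induction i with
    | zero =>
      intro _ g hg
      have hRl : Lift S N (0 : ℝ) N (fun j => Rp (j / N)) := by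
        refine ⟨by simp [Rp_zero], fun j hj => h3 _ (hgrid j hj), fun j hj => ?_⟩
        have := hR _ (hgrid (j + 1) (by omega)) _ (hgrid j (by omega)) (by
          rw [Real.dist_eq, hstep]; exact hNδ')
        rwa [dist_eq_norm] at this
      have hg' : Lift S N (0 : ℝ) N g := by simpa using hg
      refine hprop 0 0 _ g (by simp) (by simp) (by simp [hδ.le]) hRl hg' ?_
      change Rp (N / N) = -Dg
      rw [hN1, Rp_one]
    | succ i ih =>
      intro hi g hg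
      obtain ⟨g', hg'⟩ := hex (i / N) (hgrid i (by omega)) N le_rfl
      exact hprop (i / N) ((i + 1 : ℕ) / N) g' g (hgrid i (by omega)) (hgrid (i + 1) hi)
        (by rw [hstep']; exact hNδ) hg' hg (ih (by omega) g' hg')
  have hDl : Lift S N ((N : ℕ) / N) N (fun _ => Dg) := by
    rw [hN1]
    exact ⟨rfl, fun j hj => h2 _ (hgrid j hj), fun j hj => by simp⟩
  have hfin := hall N le_rfl _ hDl
  have h4 : (2 : ℝ) • Dg = 0 := by
    rw [two_smul]
    nth_rewrite 1 [hfin]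
    exact neg_add_cancel _
  have h5 : ‖(2 : ℝ) • Dg‖ = 2 := by rw [norm_smul, Dg_norm]; norm_num
  rw [h4, norm_zero] at h5
  norm_num at h5

end top

end PoolAgent.MP_df72c7_an
end
end

section

section

/-!
# Hermitian-type operators for families of functions
-/

namespace PoolAgent.MP_df72c7_an

open Complex Filter Topology

section NH

variable {V : Type*} [NormedAddCommGroup V] [NormedSpace ℂ V]

/-- The functions under consideration. -/
structure Nice (ψ : V → ℝ) : Prop where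
  cont : Continuous ψ
  nonneg : ∀ x, 0 ≤ ψ x
  conv : ∀ x y, ψ ((1 / 2 : ℂ) • (x + y)) ≤ (ψ x + ψ y) / 2
  scal : ∀ (c : ℂ) x, 1 ≤ ‖c‖ → ψ (c • x) ≤ ‖c‖ * ψ x

/-- Norms. -/
structure Posi (ψ : V → ℝ) : Prop where
  hom : ∀ (c : ℂ) x, ψ (c • x) = ‖c‖ * ψ x
  bound : ∃ k > 0, ∀ x, k * ‖x‖ ≤ ψ x

/-- `A` is almost hermitian. -/
def NH (C : ℝ) (A : V →ₗ[ℂ] V) (ψ : V → ℝ) : Prop :=
  ∀ (t : ℝ) (x : V), ψ (x + (I * t) • A x) ≤ Real.sqrt (1 + C * t ^ 2) * ψ x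

theorem NH.add {C C' : ℝ} (hC : 0 ≤ C) (hC' : 0 ≤ C') {A B : V →ₗ[ℂ] V} {ψ : V → ℝ}
    (hψ : Nice ψ) (hA : NH C A ψ) (hB : NH C' B ψ) : NH (4 * (C + C')) (A + B) ψ := by
  intro t x
  have h1 : x + (I * t) • (A + B) x = (1 / 2 : ℂ) • ((x + (I * ((2 * t : ℝ) : ℂ)) • A x)
      + (x + (I * ((2 * t : ℝ) : ℂ)) • B x)) := by
    rw [LinearMap.add_apply]
    push_cast
    module
  rw [h1]
  have h2 := hψ.conv (x + (I * ((2 * t : ℝ) : ℂ)) • A x) (x + (I * ((2 * t : ℝ) : ℂ)) • B x)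
  have h3 := hA (2 * t) x
  have h4 := hB (2 * t) x
  have h5 : Real.sqrt (1 + C * (2 * t) ^ 2) ≤ Real.sqrt (1 + 4 * (C + C') * t ^ 2) := by
    apply Real.sqrt_le_sqrt
    nlinarith [sq_nonneg t, mul_nonneg hC' (sq_nonneg t)]
  have h6 : Real.sqrt (1 + C' * (2 * t) ^ 2) ≤ Real.sqrt (1 + 4 * (C + C') * t ^ 2) := by
    apply Real.sqrt_le_sqrt
    nlinarith [sq_nonneg t, mul_nonneg hC (sq_nonneg t)]
  have h7 := hψ.nonneg x
  have h8 := mul_le_mul_of_nonneg_right h5 h7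
  have h9 := mul_le_mul_of_nonneg_right h6 h7
  linarith

theorem NH.smul {C : ℝ} {A : V →ₗ[ℂ] V} {ψ : V → ℝ} (hA : NH C A ψ) (r : ℝ) :
    NH (C * r ^ 2) ((r : ℂ) • A) ψ := by
  intro t x
  have h1 := hA (t * r) x
  have h2 : x + (I * t) • ((r : ℂ) • A) x = x + (I * ((t * r : ℝ) : ℂ)) • A x := by
    rw [LinearMap.smul_apply, smul_smul]; push_cast; ring_nf
  rw [h2]
  have h3 : 1 + C * r ^ 2 * t ^ 2 = 1 + C * (t * r) ^ 2 := by ring
  rw [h3]
  exact h1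

theorem one_add_I_norm (s : ℝ) : ‖1 + I * (s : ℂ)‖ = Real.sqrt (1 + s ^ 2) := by
  have : (1 + I * (s : ℂ)) = ⟨1, s⟩ := by apply Complex.ext <;> simp
  rw [this, Complex.norm_def, Complex.normSq_mk]
  congr 1; ring

theorem NH.scalar {ψ : V → ℝ} (hψ : Nice ψ) (r : ℝ) :
    NH (r ^ 2) ((r : ℂ) • (LinearMap.id : V →ₗ[ℂ] V)) ψ := by
  intro t x
  have h2 : x + (I * t) • ((r : ℂ) • (LinearMap.id : V →ₗ[ℂ] V)) x
      = (1 + I * ((t * r : ℝ) : ℂ)) • x := by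
    rw [LinearMap.smul_apply, LinearMap.id_apply]
    push_cast
    module
  rw [h2]
  have h3 : ‖1 + I * ((t * r : ℝ) : ℂ)‖ = Real.sqrt (1 + r ^ 2 * t ^ 2) := by
    rw [one_add_I_norm]; congr 1; ring
  have h4 := hψ.scal (1 + I * ((t * r : ℝ) : ℂ)) x (by
    rw [h3]; exact Real.one_le_sqrt.mpr (by nlinarith [sq_nonneg (r * t)]))
  rwa [h3] at h4

theorem NH.conj {C : ℝ} {A g g' : V →ₗ[ℂ] V} {ψ : V → ℝ} (hA : NH C A ψ)
    (hgg' : ∀ x, g (g' x) = x) (hg : ∀ x, ψ (g x) ≤ ψ x) (hg' : ∀ x, ψ (g' x) ≤ ψ x) :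
    NH C (g ∘ₗ A ∘ₗ g') ψ := by
  intro t x
  have h1 : x + (I * t) • (g ∘ₗ A ∘ₗ g') x = g (g' x + (I * t) • A (g' x)) := by
    rw [map_add, map_smul, hgg']; rfl
  rw [h1]
  calc ψ (g (g' x + (I * t) • A (g' x))) ≤ ψ (g' x + (I * t) • A (g' x)) := hg _
    _ ≤ Real.sqrt (1 + C * t ^ 2) * ψ (g' x) := hA t _
    _ ≤ _ := by gcongr; exact hg' x

/-- the map `x ↦ x + i t A x` -/
noncomputable def Bt (A : V →ₗ[ℂ] V) (t : ℝ) (x : V) : V := x + (I * t) • A x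

theorem NH.iter {C : ℝ} {A : V →ₗ[ℂ] V} {ψ : V → ℝ} (hA : NH C A ψ) (t : ℝ) (n : ℕ) (x : V) :
    ψ ((Bt A t)^[n] x) ≤ Real.sqrt (1 + C * t ^ 2) ^ n * ψ x := by
  induction n with
  | zero => simp
  | succ n ih =>
    rw [Function.iterate_succ_apply']
    calc ψ (Bt A t ((Bt A t)^[n] x)) ≤ Real.sqrt (1 + C * t ^ 2) * ψ ((Bt A t)^[n] x) := hA t _
      _ ≤ Real.sqrt (1 + C * t ^ 2) * (Real.sqrt (1 + C * t ^ 2) ^ n * ψ x) := by gcongr
      _ = _ := by ring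

theorem sqrt_pow_le {C : ℝ} (hC : 0 ≤ C) (θ : ℝ) {n : ℕ} (hn : 0 < n) :
    Real.sqrt (1 + C * (θ / n) ^ 2) ^ n ≤ Real.exp (C * θ ^ 2 / (2 * n)) := by
  have hn' : (0 : ℝ) < n := by exact_mod_cast hn
  set u := C * (θ / n) ^ 2 with hu
  have hu0 : 0 ≤ u := by positivity
  have h1 : Real.sqrt (1 + u) ≤ Real.exp (u / 2) := by
    rw [Real.sqrt_le_left (Real.exp_pos _).le, ← Real.exp_nat_mul]
    have : ((2 : ℕ) : ℝ) * (u / 2) = u := by push_cast; ring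
    rw [this, add_comm]
    exact Real.add_one_le_exp u
  calc Real.sqrt (1 + u) ^ n ≤ Real.exp (u / 2) ^ n := by gcongr
    _ = Real.exp (n * (u / 2)) := by rw [← Real.exp_nat_mul]
    _ = _ := by
      congr 1
      rw [hu]; field_simp

theorem tendsto_exp_one (C θ : ℝ) :
    Tendsto (fun n : ℕ => Real.exp (C * θ ^ 2 / (2 * n))) atTop (𝓝 1) := by
  rw [← Real.exp_zero]
  apply (Real.continuous_exp.tendsto 0).comp
  have h1 : (fun n : ℕ => C * θ ^ 2 / (2 * n)) = fun n : ℕ => (C * θ ^ 2 / 2) / n := by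
    funext n; rw [div_div]
  rw [h1]
  exact tendsto_const_div_atTop_nhds_zero_nat _

theorem NH.exp {C : ℝ} (hC : 0 ≤ C) {A : V →ₗ[ℂ] V} {ψ : V → ℝ} (hψ : Nice ψ) (hA : NH C A ψ)
    (hAA : ∀ x, A (A x) = x) (θ : ℝ) (x : V) :
    ψ ((Real.cos θ : ℂ) • x + (I * Real.sin θ) • A x) ≤ ψ x := by
  obtain ⟨p, hp⟩ : ∃ p : V, p = (1 / 2 : ℂ) • (x + A x) := ⟨_, rfl⟩
  obtain ⟨q, hq⟩ : ∃ q : V, q = (1 / 2 : ℂ) • (x - A x) := ⟨_, rfl⟩
  have hpA : A p = p := by rw [hp, map_smul, map_add, hAA, add_comm]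
  have hqA : A q = -q := by rw [hq, map_smul, map_sub, hAA]; module
  have hxpq : x = p + q := by rw [hp, hq]; module
  have hiter : ∀ (s : ℝ) (n : ℕ), (Bt A s)^[n] x = (1 + I * s) ^ n • p + (1 - I * s) ^ n • q := by
    intro s n
    induction n with
    | zero => simp [hxpq]
    | succ n ih =>
      rw [Function.iterate_succ_apply', ih, Bt, map_add, map_smul, map_smul, hpA, hqA, pow_succ,
        pow_succ]
      module
  have hlim : Tendsto (fun n : ℕ => (Bt A (θ / n))^[n] x) atTop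
      (𝓝 (cexp (I * θ) • p + cexp (-(I * θ)) • q)) := by
    have h1 := Complex.tendsto_one_add_div_pow_exp (I * θ)
    have h2 := Complex.tendsto_one_add_div_pow_exp (-(I * θ))
    have h3 := (h1.smul_const p).add (h2.smul_const q)
    refine h3.congr fun n => ?_
    rw [hiter]
    push_cast
    congr 3
    · ring
    · ring
  have hlim2 : Tendsto (fun n : ℕ => Real.exp (C * θ ^ 2 / (2 * n)) * ψ x) atTop
      (𝓝 (1 * ψ x)) := (tendsto_exp_one C θ).mul_const _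
  have hle : ψ (cexp (I * θ) • p + cexp (-(I * θ)) • q) ≤ 1 * ψ x := by
    refine le_of_tendsto_of_tendsto ((hψ.cont.tendsto _).comp hlim) hlim2 ?_
    filter_upwards [eventually_gt_atTop 0] with n hn
    refine (hA.iter (θ / n) n x).trans ?_
    exact mul_le_mul_of_nonneg_right (sqrt_pow_le hC θ hn) (hψ.nonneg x)
  have heq : (Real.cos θ : ℂ) • x + (I * Real.sin θ) • A x
      = cexp (I * θ) • p + cexp (-(I * θ)) • q := by
    have e1 : cexp (I * θ) = Real.cos θ + Real.sin θ * I := by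
      rw [mul_comm, Complex.exp_mul_I]; push_cast; rfl
    have e2 : cexp (-(I * θ)) = Real.cos θ - Real.sin θ * I := by
      have : -(I * (θ : ℂ)) = ((-θ : ℝ) : ℂ) * I := by push_cast; ring
      rw [this, Complex.exp_mul_I]
      push_cast
      rw [Complex.cos_neg, Complex.sin_neg]; ring
    rw [e1, e2, hxpq, map_add, hpA, hqA]
    module
  rw [heq]
  linarith

theorem NH.upgrade {C : ℝ} (hC : 0 ≤ C) {A : V →ₗ[ℂ] V} {ψ : V → ℝ} (hψ : Nice ψ) (hA : NH C A ψ)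
    (hAA : ∀ x, A (A x) = x) : NH 1 A ψ := by
  intro t x
  have h1 := hA.exp hC hψ hAA (Real.arctan t) x
  rw [Real.cos_arctan, Real.sin_arctan] at h1
  set c := Real.sqrt (1 + t ^ 2) with hc
  have hc1 : 1 ≤ c := Real.one_le_sqrt.mpr (by nlinarith [sq_nonneg t])
  have hc0 : (c : ℂ) ≠ 0 := by
    have : c ≠ 0 := by linarith
    exact_mod_cast this
  have h2 : x + (I * t) • A x = (c : ℂ) • (((1 / c : ℝ) : ℂ) • x + (I * ((t / c : ℝ) : ℂ)) • A x) := by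
    rw [smul_add, smul_smul, smul_smul]
    congr 1
    · push_cast; field_simp; simp
    · congr 1; push_cast; field_simp
  have hcn : ‖(c : ℂ)‖ = c := by
    rw [Complex.norm_real, Real.norm_eq_abs, abs_of_nonneg (by linarith)]
  rw [h2]
  have h3 := hψ.scal (c : ℂ) (((1 / c : ℝ) : ℂ) • x + (I * ((t / c : ℝ) : ℂ)) • A x)
    (by rw [hcn]; exact hc1)
  rw [hcn] at h3
  rw [one_mul, ← hc]
  refine h3.trans ?_
  gcongr

theorem NH.nil {C : ℝ} (hC : 0 ≤ C) {A : V →ₗ[ℂ] V} {ψ : V → ℝ} (hψ : Nice ψ) (hψ' : Posi ψ)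
    (hA : NH C A ψ) (hAA : ∀ x, A (A x) = 0) (x : V) : A x = 0 := by
  have hiter : ∀ (s : ℝ) (n : ℕ), (Bt A s)^[n] x = x + (n * (I * s)) • A x := by
    intro s n
    induction n with
    | zero => simp
    | succ n ih =>
      rw [Function.iterate_succ_apply', ih, Bt, map_add, map_smul, hAA, smul_zero]
      push_cast
      module
  have hle : ∀ t : ℝ, ψ (x + (I * t) • A x) ≤ ψ x := by
    intro t
    have hlim2 : Tendsto (fun n : ℕ => Real.exp (C * t ^ 2 / (2 * n)) * ψ x) atTop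
      (𝓝 (1 * ψ x)) := (tendsto_exp_one C t).mul_const _
    rw [one_mul] at hlim2
    refine ge_of_tendsto hlim2 ?_
    filter_upwards [eventually_gt_atTop 0] with n hn
    have h1 := (hA.iter (t / n) n x).trans
      (mul_le_mul_of_nonneg_right (sqrt_pow_le hC t hn) (hψ.nonneg x))
    rw [hiter] at h1
    have hn' : (n : ℂ) ≠ 0 := by exact_mod_cast hn.ne'
    have h2 : (n * (I * ((t / n : ℝ) : ℂ))) = I * t := by push_cast; field_simp
    rwa [h2] at h1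
  obtain ⟨k, hk, hkb⟩ := hψ'.bound
  by_contra hne
  have hn0 : 0 < ‖A x‖ := norm_pos_iff.mpr hne
  set t := (ψ x / k + ‖x‖ + 1) / ‖A x‖ with ht
  have ht0 : 0 ≤ t := by
    have := hψ.nonneg x
    positivity
  have h1 := (hkb (x + (I * t) • A x)).trans (hle t)
  have h2 : t * ‖A x‖ - ‖x‖ ≤ ‖x + (I * t) • A x‖ := by
    have h3 := norm_sub_le (x + (I * t) • A x) x
    rw [add_sub_cancel_left, norm_smul, norm_mul, Complex.norm_I, one_mul, Complex.norm_real,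
      Real.norm_eq_abs, abs_of_nonneg ht0] at h3
    linarith
  have h3 : t * ‖A x‖ = ψ x / k + ‖x‖ + 1 := by rw [ht]; field_simp
  rw [h3] at h2
  have h4 : k * (ψ x / k + 1) ≤ k * ‖x + (I * t) • A x‖ := by
    apply mul_le_mul_of_nonneg_left _ hk.le; linarith
  have h5 : k * (ψ x / k + 1) = ψ x + k := by field_simp
  linarith

theorem NH.eigen {C : ℝ} (hC : 0 ≤ C) {A : V →ₗ[ℂ] V} {ψ : V → ℝ} (hψ' : Posi ψ)
    (hA : NH C A ψ) {lam : ℂ} {v : V} (hv : v ≠ 0) (hAv : A v = lam • v) : lam.im = 0 := by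
  obtain ⟨k, hk, hkb⟩ := hψ'.bound
  have hψv : 0 < ψ v := lt_of_lt_of_le (by have := norm_pos_iff.mpr hv; positivity) (hkb v)
  have h1 : ∀ t : ℝ, ‖1 + (I * t) * lam‖ ^ 2 ≤ 1 + C * t ^ 2 := by
    intro t
    have h2 := hA t v
    rw [hAv, smul_smul] at h2
    have h3 : v + (I * t * lam) • v = (1 + (I * t) * lam) • v := by module
    rw [h3, hψ'.hom] at h2
    have h4 := le_of_mul_le_mul_right h2 hψv
    have h5 : Real.sqrt (1 + C * t ^ 2) ^ 2 = 1 + C * t ^ 2 := Real.sq_sqrt (by positivity)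
    rw [← h5]
    gcongr
  have h8 : ∀ s : ℝ, ‖1 + (I * s) * lam‖ ^ 2 = (1 - s * lam.im) ^ 2 + (s * lam.re) ^ 2 := by
    intro s
    rw [← Complex.normSq_eq_norm_sq, Complex.normSq_apply]
    simp
    ring
  by_contra hne
  -- choose t = - im / (C + 1)
  have h9 := h1 (-(lam.im / (C + 1)))
  rw [h8] at h9
  have hC1 : 0 < C + 1 := by linarith
  have h10 : 0 < lam.im ^ 2 := by positivity
  have h11 : (1 - -(lam.im / (C + 1)) * lam.im) ^ 2 ≤ 1 + C * (-(lam.im / (C + 1))) ^ 2 := by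
    nlinarith [sq_nonneg (-(lam.im / (C + 1)) * lam.re)]
  have h12 : (1 - -(lam.im / (C + 1)) * lam.im) ^ 2
      = 1 + 2 * (lam.im ^ 2 / (C + 1)) + (lam.im ^ 2 / (C + 1)) ^ 2 := by ring
  have h13 : C * (-(lam.im / (C + 1))) ^ 2 = (C / (C + 1)) * (lam.im ^ 2 / (C + 1)) := by
    field_simp
  rw [h12, h13] at h11
  have h14 : C / (C + 1) ≤ 1 := by rw [div_le_one hC1]; linarith
  have h15 : 0 < lam.im ^ 2 / (C + 1) := by positivity
  nlinarith

end NH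

end PoolAgent.MP_df72c7_an
end

section

/-!
# Two involutions generate the unitary group
-/

namespace PoolAgent.MP_df72c7_an

open Complex Filter Topology

section family

variable {V : Type*} [NormedAddCommGroup V] [NormedSpace ℂ V]

/-- A family of functions containing a norm. -/
structure Fam (Φ : Set (V → ℝ)) : Prop where
  nice : ∀ ψ ∈ Φ, Nice ψ
  pos : ∃ ψ ∈ Φ, Posi ψ

/-- almost hermitian for all functions of the family -/
def NHf (Φ : Set (V → ℝ)) (A : V →ₗ[ℂ] V) : Prop := ∃ C, 0 ≤ C ∧ ∀ ψ ∈ Φ, NH C A ψ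

variable {Φ : Set (V → ℝ)}

theorem NHf.add (hF : Fam Φ) {A B : V →ₗ[ℂ] V} (hA : NHf Φ A) (hB : NHf Φ B) : NHf Φ (A + B) := by
  obtain ⟨C, hC, h⟩ := hA
  obtain ⟨C', hC', h'⟩ := hB
  exact ⟨4 * (C + C'), by positivity, fun ψ hψ => (h ψ hψ).add hC hC' (hF.nice ψ hψ) (h' ψ hψ)⟩

theorem NHf.smul {A : V →ₗ[ℂ] V} (hA : NHf Φ A) (r : ℝ) : NHf Φ ((r : ℂ) • A) := by
  obtain ⟨C, hC, h⟩ := hA
  exact ⟨C * r ^ 2, by positivity, fun ψ hψ => (h ψ hψ).smul r⟩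

theorem NHf.scalar (hF : Fam Φ) (r : ℝ) : NHf Φ ((r : ℂ) • (LinearMap.id : V →ₗ[ℂ] V)) :=
  ⟨r ^ 2, by positivity, fun ψ hψ => NH.scalar (hF.nice ψ hψ) r⟩

theorem NHf.conj {A g g' : V →ₗ[ℂ] V} (hA : NHf Φ A) (hgg' : ∀ x, g (g' x) = x)
    (hg : ∀ ψ ∈ Φ, ∀ x, ψ (g x) ≤ ψ x) (hg' : ∀ ψ ∈ Φ, ∀ x, ψ (g' x) ≤ ψ x) :
    NHf Φ (g ∘ₗ A ∘ₗ g') := by
  obtain ⟨C, hC, h⟩ := hA
  exact ⟨C, hC, fun ψ hψ => (h ψ hψ).conj hgg' (hg ψ hψ) (hg' ψ hψ)⟩

theorem NHf.congr {A B : V →ₗ[ℂ] V} (hA : NHf Φ A) (h : ∀ x, A x = B x) : NHf Φ B := by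
  have : A = B := LinearMap.ext h
  rwa [← this]

theorem NHf.eigen (hF : Fam Φ) {A : V →ₗ[ℂ] V} (hA : NHf Φ A) {lam : ℂ} {v : V} (hv : v ≠ 0)
    (hAv : A v = lam • v) : lam.im = 0 := by
  obtain ⟨C, hC, h⟩ := hA
  obtain ⟨ψ, hψ, hψ'⟩ := hF.pos
  exact (h ψ hψ).eigen hC hψ' hv hAv

theorem NHf.nil (hF : Fam Φ) {A : V →ₗ[ℂ] V} (hA : NHf Φ A) (hAA : ∀ x, A (A x) = 0) (x : V) :
    A x = 0 := by
  obtain ⟨C, hC, h⟩ := hA
  obtain ⟨ψ, hψ, hψ'⟩ := hF.pos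
  exact (h ψ hψ).nil hC (hF.nice ψ hψ) hψ' hAA x

theorem exists_involution (hF : Fam Φ) {A B : V →ₗ[ℂ] V} {m ρ : ℂ} (hA : NHf Φ A)
    (hAB : ∀ x, A x = m • x + B x) (hB : ∀ x, B (B x) = ρ • x) (hns : ∀ c : ℂ, ∃ x, B x ≠ c • x) :
    ∃ δ : ℝ, δ ≠ 0 ∧ ρ = (δ : ℂ) ^ 2 ∧ NHf Φ B := by
  obtain ⟨d, hd⟩ := IsAlgClosed.exists_pow_nat_eq ρ (n := 2) two_pos
  obtain ⟨x, hx⟩ := hns (-d)
  obtain ⟨x', hx'⟩ := hns d
  have h1 : (m + d).im = 0 := by
    apply hA.eigen hF (v := B x + d • x)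
    · intro h
      apply hx
      rw [neg_smul]
      exact eq_neg_of_add_eq_zero_left h
    · rw [hAB, map_add, map_smul, hB, ← hd]
      module
  have h2 : (m - d).im = 0 := by
    apply hA.eigen hF (v := B x' - d • x')
    · intro h
      exact hx' (sub_eq_zero.mp h)
    · rw [hAB, map_sub, map_smul, hB, ← hd]
      module
  rw [Complex.add_im] at h1
  rw [Complex.sub_im] at h2
  have hm : m.im = 0 := by linarith
  have hdi : d.im = 0 := by linarith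
  have hmr : m = (m.re : ℂ) := Complex.ext rfl (by simp [hm])
  have hdr : d = (d.re : ℂ) := Complex.ext rfl (by simp [hdi])
  have hBH : NHf Φ B := by
    refine (hA.add hF (NHf.scalar hF (-m.re))).congr fun x => ?_
    rw [LinearMap.add_apply, hAB, LinearMap.smul_apply, LinearMap.id_apply]
    push_cast
    rw [← hmr]
    module
  refine ⟨d.re, ?_, ?_, hBH⟩
  · intro h0
    have hρ : ρ = 0 := by rw [← hd, hdr, h0]; simp
    obtain ⟨y, hy⟩ := hns 0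
    apply hy
    rw [zero_smul]
    exact hBH.nil hF (fun x => by rw [hB, hρ, zero_smul]) y
  · rw [← hdr, hd]

/-- `e^{iθσ}` -/
noncomputable def ex (σ : V →ₗ[ℂ] V) (θ : ℝ) : V →ₗ[ℂ] V :=
  (Real.cos θ : ℂ) • LinearMap.id + (I * Real.sin θ) • σ

theorem ex_apply (σ : V →ₗ[ℂ] V) (θ : ℝ) (x : V) :
    ex σ θ x = (Real.cos θ : ℂ) • x + (I * Real.sin θ) • σ x := rfl

theorem ex_ex_neg {σ : V →ₗ[ℂ] V} (hσ : ∀ x, σ (σ x) = x) (θ : ℝ) (x : V) :
    ex σ θ (ex σ (-θ) x) = x := by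
  rw [ex_apply, ex_apply, Real.cos_neg, Real.sin_neg, map_add, map_smul, map_smul, hσ]
  have h1 : (Real.cos θ : ℂ) * Real.cos θ + Real.sin θ * Real.sin θ = 1 := by
    have := Real.cos_sq_add_sin_sq θ
    have h2 : ((Real.cos θ ^ 2 + Real.sin θ ^ 2 : ℝ) : ℂ) = 1 := by rw [this]; simp
    push_cast at h2 ⊢
    linear_combination h2
  have h3 : (Real.cos θ : ℂ) • ((Real.cos θ : ℂ) • x + (I * ((-Real.sin θ : ℝ) : ℂ)) • σ x)
      + (I * (Real.sin θ : ℂ)) • ((Real.cos θ : ℂ) • σ x + (I * ((-Real.sin θ : ℝ) : ℂ)) • x)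
      = ((Real.cos θ : ℂ) * Real.cos θ + (-(I * I)) * (Real.sin θ * Real.sin θ)) • x := by
    push_cast
    module
  rw [h3, Complex.I_mul_I, neg_neg, one_mul, h1, one_smul]

theorem NHf.ex_le (hF : Fam Φ) {σ : V →ₗ[ℂ] V} (hσ : NHf Φ σ) (hσσ : ∀ x, σ (σ x) = x) (θ : ℝ)
    {ψ : V → ℝ} (hψ : ψ ∈ Φ) (x : V) : ψ (ex σ θ x) ≤ ψ x := by
  obtain ⟨C, hC, h⟩ := hσ
  exact (h ψ hψ).exp hC (hF.nice ψ hψ) hσσ θ x

theorem NHf.ex_eq (hF : Fam Φ) {σ : V →ₗ[ℂ] V} (hσ : NHf Φ σ) (hσσ : ∀ x, σ (σ x) = x) (θ : ℝ)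
    {ψ : V → ℝ} (hψ : ψ ∈ Φ) (x : V) : ψ (ex σ θ x) = ψ x := by
  refine le_antisymm (hσ.ex_le hF hσσ θ hψ x) ?_
  have h1 := hσ.ex_le hF hσσ (-θ) hψ (ex σ θ x)
  have h2 := ex_ex_neg hσσ (-θ) x
  rw [neg_neg] at h2
  rwa [h2] at h1

theorem Fam.rot (hF : Fam Φ) {ψ : V → ℝ} (hψ : ψ ∈ Φ) {c : ℂ} (hc : ‖c‖ = 1) (x : V) :
    ψ (c • x) = ψ x := by
  refine le_antisymm ?_ ?_
  · have := (hF.nice ψ hψ).scal c x hc.ge
    rwa [hc, one_mul] at this
  · have hc' : ‖c⁻¹‖ = 1 := by rw [norm_inv, hc, inv_one]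
    have hc0 : c ≠ 0 := by intro h; rw [h, norm_zero] at hc; exact zero_ne_one hc
    have := (hF.nice ψ hψ).scal c⁻¹ (c • x) hc'.ge
    rwa [hc', one_mul, smul_smul, inv_mul_cancel₀ hc0, one_smul] at this

/-- Two different involutions give a plane (or more) on which the family is rotation invariant. -/
theorem hilbert_of_two (hF : Fam Φ) {σ σ' : V →ₗ[ℂ] V} {s : ℂ} (hσ : ∀ x, σ (σ x) = x)
    (hσ' : ∀ x, σ' (σ' x) = x) (hs : ∀ x, σ (σ' x) + σ' (σ x) = (2 * s) • x)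
    (h1 : ∃ x, σ' x ≠ σ x) (h2 : ∃ x, σ' x ≠ -σ x) (hN : NHf Φ σ) (hN' : NHf Φ σ') :
    ∃ v1 v2 : V, v1 ≠ 0 ∧ ∀ ψ ∈ Φ, ∀ z1 z2 : ℂ,
      ψ (z1 • v1 + z2 • v2) = ψ (((Real.sqrt (‖z1‖ ^ 2 + ‖z2‖ ^ 2) : ℝ) : ℂ) • v1) := by
  obtain ⟨x0, hx0⟩ := h1
  -- `s` is real
  have hV : ∃ v : V, v ≠ 0 ∧ (σ v = v ∨ σ v = -v) := by
    have hx0' : ∃ x : V, x ≠ 0 := by
      by_contra hcon
      push Not at hcon
      apply hx0
      rw [hcon (σ' x0), hcon (σ x0)]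
    obtain ⟨x, hx⟩ := hx0'
    by_cases h : x + σ x = 0
    · exact ⟨x, hx, Or.inr (eq_neg_of_add_eq_zero_right h)⟩
    · refine ⟨x + σ x, h, Or.inl ?_⟩
      rw [map_add, hσ, add_comm]
  have hsσ : NHf Φ (s • σ) := by
    have e0 : NHf Φ (ex σ (Real.pi / 2) ∘ₗ σ' ∘ₗ ex σ (-(Real.pi / 2))) :=
      hN'.conj (fun x => ex_ex_neg hσ _ x) (fun ψ hψ x => hN.ex_le hF hσ _ hψ x)
        (fun ψ hψ x => hN.ex_le hF hσ _ hψ x)
    refine (((hN'.add hF e0).smul (1 / 2)).congr fun x => ?_)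
    rw [LinearMap.smul_apply, LinearMap.add_apply, LinearMap.comp_apply, LinearMap.comp_apply,
      ex_apply, ex_apply, Real.cos_neg, Real.sin_neg, Real.cos_pi_div_two, Real.sin_pi_div_two]
    push_cast
    rw [zero_smul, zero_add, zero_smul, zero_add, map_smul, map_smul, smul_smul]
    have hI : I * 1 * (I * -1) = 1 := by linear_combination -Complex.I_mul_I
    rw [hI, one_smul, LinearMap.smul_apply]
    have h3 := hs (σ x)
    rw [hσ] at h3
    have h4 : σ (σ' (σ x)) = (2 * s) • σ x - σ' x := eq_sub_of_add_eq h3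
    rw [h4]
    module
  have hsim : s.im = 0 := by
    obtain ⟨v, hv, hv' | hv'⟩ := hV
    · exact hsσ.eigen hF hv (by rw [LinearMap.smul_apply, hv'])
    · have := hsσ.eigen hF (lam := -s) hv (by rw [LinearMap.smul_apply, hv']; module)
      rw [Complex.neg_im] at this
      linarith
  obtain ⟨r, hr⟩ : ∃ r : ℝ, s = r := ⟨s.re, Complex.ext rfl (by simp [hsim])⟩
  subst hr
  -- the off-diagonal part
  let B : V →ₗ[ℂ] V := σ' + (-1 : ℂ) • ((r : ℂ) • σ)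
  have hBx : ∀ x, B x = σ' x - (r : ℂ) • σ x := by
    intro x
    change σ' x + (-1 : ℂ) • ((r : ℂ) • σ x) = _
    module
  have hBN : NHf Φ B := by
    have := (hN'.add hF (hsσ.smul (-1)))
    refine this.congr fun x => ?_
    rw [LinearMap.add_apply, LinearMap.smul_apply, LinearMap.smul_apply, hBx]
    push_cast
    module
  have hBB : ∀ x, B (B x) = ((1 - r ^ 2 : ℝ) : ℂ) • x := by
    intro x
    rw [hBx, hBx, map_sub, map_sub, map_smul, map_smul, hσ, hσ']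
    have h3 : σ (σ' x) = (2 * (r : ℂ)) • x - σ' (σ x) := eq_sub_of_add_eq (hs x)
    rw [h3]
    push_cast
    module
  have hσB : ∀ x, σ (B x) = -B (σ x) := by
    intro x
    rw [hBx, hBx, map_sub, map_smul, hσ]
    have h3 : σ (σ' x) = (2 * (r : ℂ)) • x - σ' (σ x) := eq_sub_of_add_eq (hs x)
    rw [h3]
    module
  have hB0 : ∃ x, B x ≠ 0 := by
    by_contra hcon
    push Not at hcon
    have h3 : ∀ x, σ' x = (r : ℂ) • σ x := fun x => by
      have := hcon x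
      rw [hBx] at this
      exact sub_eq_zero.mp this
    have h4 : ∀ x : V, ((r : ℂ) ^ 2) • x = x := by
      intro x
      have h5 := hσ' x
      rw [h3, h3, map_smul, hσ, smul_smul] at h5
      rw [pow_two]; exact h5
    obtain ⟨v, hv, -⟩ := hV
    have h5 : (r : ℂ) ^ 2 = 1 := by
      have h6 : ((r : ℂ) ^ 2 - 1) • v = 0 := by rw [sub_smul, h4, one_smul, sub_self]
      have := (smul_eq_zero.mp h6).resolve_right hv
      exact sub_eq_zero.mp this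
    have h6 : ((r : ℂ) - 1) * ((r : ℂ) + 1) = 0 := by linear_combination h5
    rcases mul_eq_zero.mp h6 with h6 | h6
    · apply hx0; rw [h3, sub_eq_zero.mp h6, one_smul]
    · obtain ⟨x1, hx1⟩ := h2
      apply hx1; rw [h3, eq_neg_of_add_eq_zero_left h6, neg_one_smul]
  obtain ⟨xB, hxB⟩ := hB0
  have hρ : 0 < 1 - r ^ 2 := by
    rcases lt_trichotomy (1 - r ^ 2) 0 with h | h | h
    · exfalso
      set w := Real.sqrt (-(1 - r ^ 2)) with hw
      have hw0 : 0 < w := Real.sqrt_pos.mpr (by linarith)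
      have hw2 : w ^ 2 = -(1 - r ^ 2) := Real.sq_sqrt (by linarith)
      have hd2 : (I * (w : ℂ)) * (I * (w : ℂ)) = ((1 - r ^ 2 : ℝ) : ℂ) := by
        have : ((1 - r ^ 2 : ℝ) : ℂ) = -((w ^ 2 : ℝ) : ℂ) := by rw [hw2]; push_cast; ring
        rw [this]
        push_cast
        linear_combination ((w : ℂ) ^ 2) * Complex.I_mul_I
      by_cases hx : ∃ x, B x + (I * (w : ℂ)) • x ≠ 0
      · obtain ⟨x, hx⟩ := hx
        have := hBN.eigen hF (lam := I * (w : ℂ)) hx (by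
          rw [map_add, map_smul, hBB, ← hd2]; module)
        simp at this
        linarith
      · push Not at hx
        obtain ⟨v, hv, -⟩ := hV
        have := hBN.eigen hF (lam := -(I * (w : ℂ))) hv (by
          rw [neg_smul]; exact eq_neg_of_add_eq_zero_left (hx v))
        simp at this
        linarith
    · exfalso
      exact hxB (hBN.nil hF (fun x => by rw [hBB, h]; simp) xB)
    · exact h
  obtain ⟨w, hw0, hw2⟩ : ∃ w : ℝ, 0 < w ∧ w ^ 2 = 1 - r ^ 2 :=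
    ⟨Real.sqrt (1 - r ^ 2), Real.sqrt_pos.mpr hρ, Real.sq_sqrt hρ.le⟩
  have hwc : (w : ℂ) ≠ 0 := by exact_mod_cast hw0.ne'
  let τ : V →ₗ[ℂ] V := ((1 / w : ℝ) : ℂ) • B
  have hτx : ∀ x, τ x = ((1 / w : ℝ) : ℂ) • B x := fun x => rfl
  have hτN : NHf Φ τ := hBN.smul (1 / w)
  have hττ : ∀ x, τ (τ x) = x := by
    intro x
    rw [hτx, hτx, map_smul, hBB, ← hw2, smul_smul, smul_smul]
    have : ((1 / w : ℝ) : ℂ) * ((1 / w : ℝ) : ℂ) * ((w ^ 2 : ℝ) : ℂ) = 1 := by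
      push_cast; field_simp
    rw [this, one_smul]
  have hστ : ∀ x, σ (τ x) = -τ (σ x) := by
    intro x
    rw [hτx, hτx, map_smul, hσB, smul_neg]
  let υ : V →ₗ[ℂ] V := I • (σ ∘ₗ τ)
  have hυx : ∀ x, υ x = I • σ (τ x) := fun x => rfl
  have hυN : NHf Φ υ := by
    have e0 : NHf Φ (ex σ (Real.pi / 4) ∘ₗ τ ∘ₗ ex σ (-(Real.pi / 4))) :=
      hτN.conj (fun x => ex_ex_neg hσ _ x) (fun ψ hψ x => hN.ex_le hF hσ _ hψ x)
        (fun ψ hψ x => hN.ex_le hF hσ _ hψ x)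
    refine e0.congr fun x => ?_
    rw [LinearMap.comp_apply, LinearMap.comp_apply, ex_apply, ex_apply, Real.cos_neg, Real.sin_neg,
      Real.cos_pi_div_four, Real.sin_pi_div_four, hυx]
    obtain ⟨c, hc⟩ : ∃ c : ℝ, c = Real.sqrt 2 / 2 := ⟨_, rfl⟩
    have hc2 : (c : ℂ) * c = 1 / 2 := by
      have : c * c = 1 / 2 := by
        rw [hc, div_mul_div_comm, Real.mul_self_sqrt (by norm_num)]; norm_num
      have h3 : ((c * c : ℝ) : ℂ) = ((1 / 2 : ℝ) : ℂ) := by rw [this]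
      push_cast at h3; exact h3
    rw [← hc]
    have h3 : τ (σ x) = -σ (τ x) := by rw [hστ, neg_neg]
    rw [map_add, map_smul, map_smul, h3, map_add, map_smul, map_smul, map_neg, hσ]
    have h4 : (c : ℂ) • ((c : ℂ) • τ x + (I * ((-c : ℝ) : ℂ)) • -σ (τ x))
        + (I * (c : ℂ)) • ((c : ℂ) • σ (τ x) + (I * ((-c : ℝ) : ℂ)) • -τ x)
        = ((c * c : ℂ) * (1 + I * I)) • τ x + (2 * I * (c * c : ℂ)) • σ (τ x) := by
      push_cast
      module
    rw [h4, Complex.I_mul_I, hc2, add_neg_cancel, mul_zero, zero_smul, zero_add]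
    congr 1
    ring
  have hυυ : ∀ x, υ (υ x) = x := by
    intro x
    rw [hυx, hυx, map_smul, map_smul, smul_smul, hστ (σ (τ x)), hσ, hττ, Complex.I_mul_I,
      neg_one_smul, neg_neg]
  obtain ⟨x2, hx2⟩ : ∃ x, x + σ x ≠ 0 := by
    by_contra hcon
    push Not at hcon
    have h3 : ∀ x, σ x = -x := fun x => eq_neg_of_add_eq_zero_right (hcon x)
    have h4 := hσB xB
    rw [h3, h3, map_neg, neg_neg] at h4
    have h5 : (2 : ℂ) • B xB = 0 := by
      rw [two_smul]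
      nth_rewrite 1 [← h4]
      exact neg_add_cancel _
    exact hxB ((smul_eq_zero.mp h5).resolve_left two_ne_zero)
  obtain ⟨v1, hv1⟩ : ∃ v1, v1 = x2 + σ x2 := ⟨_, rfl⟩
  have hσ1 : σ v1 = v1 := by rw [hv1, map_add, hσ, add_comm]
  obtain ⟨v2, hv2⟩ : ∃ v2, v2 = τ v1 := ⟨_, rfl⟩
  have hσ2 : σ v2 = -v2 := by rw [hv2, hστ, hσ1]
  have hτ2 : τ v2 = v1 := by rw [hv2, hττ]
  have hυ1 : υ v1 = -(I • v2) := by rw [hυx, ← hv2, hσ2, smul_neg]
  have hυ2 : υ v2 = I • v1 := by rw [hυx, hτ2, hσ1]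
  refine ⟨v1, v2, by rw [hv1]; exact hx2, ?_⟩
  intro ψ hψ z1 z2
  -- first normalise the arguments
  have step1 : ψ (z1 • v1 + z2 • v2) = ψ ((‖z1‖ : ℂ) • v1 + (‖z2‖ : ℂ) • v2) := by
    obtain ⟨α, hα⟩ : ∃ α : ℝ, z1 = ‖z1‖ * cexp (α * I) :=
      ⟨arg z1, (Complex.norm_mul_exp_arg_mul_I z1).symm⟩
    obtain ⟨β, hβ⟩ : ∃ β : ℝ, z2 = ‖z2‖ * cexp (β * I) :=
      ⟨arg z2, (Complex.norm_mul_exp_arg_mul_I z2).symm⟩
    obtain ⟨a, ha⟩ : ∃ a : ℂ, a = ‖z1‖ := ⟨_, rfl⟩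
    obtain ⟨b, hb⟩ : ∃ b : ℂ, b = ‖z2‖ := ⟨_, rfl⟩
    rw [← ha] at hα
    rw [← hb] at hβ
    rw [← ha, ← hb, hα, hβ]
    have h3 := hN.ex_eq hF hσ ((β - α) / 2) hψ
      ((cexp (α * I) * a) • v1 + (cexp (β * I) * b) • v2)
    have h4 := hF.rot hψ (c := cexp ((-(α + β) / 2 : ℝ) * I)) (Complex.norm_exp_ofReal_mul_I _)
      (ex σ ((β - α) / 2) ((cexp (α * I) * a) • v1 + (cexp (β * I) * b) • v2))
    rw [h3] at h4
    have h5 : cexp ((-(α + β) / 2 : ℝ) * I) • ex σ ((β - α) / 2)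
        ((cexp (α * I) * a) • v1 + (cexp (β * I) * b) • v2) = a • v1 + b • v2 := by
      rw [ex_apply, map_add, map_smul, map_smul, hσ1, hσ2]
      have e1 : cexp ((((β - α) / 2 : ℝ) : ℂ) * I)
          = (Real.cos ((β - α) / 2) : ℂ) + (Real.sin ((β - α) / 2) : ℂ) * I := by
        rw [Complex.exp_mul_I, Complex.ofReal_cos, Complex.ofReal_sin]
      have e2 : cexp (-(((β - α) / 2 : ℝ) : ℂ) * I)
          = (Real.cos ((β - α) / 2) : ℂ) - (Real.sin ((β - α) / 2) : ℂ) * I := by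
        rw [Complex.exp_mul_I, Complex.cos_neg, Complex.sin_neg, Complex.ofReal_cos,
          Complex.ofReal_sin]
        ring
      have e3 : cexp ((-(α + β) / 2 : ℝ) * I) * cexp ((((β - α) / 2 : ℝ) : ℂ) * I)
          * cexp (α * I) = 1 := by
        rw [← Complex.exp_add, ← Complex.exp_add]
        have : ((-(α + β) / 2 : ℝ) : ℂ) * I + (((β - α) / 2 : ℝ) : ℂ) * I + α * I = 0 := by
          push_cast; ring
        rw [this, Complex.exp_zero]
      have e4 : cexp ((-(α + β) / 2 : ℝ) * I) * cexp (-(((β - α) / 2 : ℝ) : ℂ) * I)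
          * cexp (β * I) = 1 := by
        rw [← Complex.exp_add, ← Complex.exp_add]
        have : ((-(α + β) / 2 : ℝ) : ℂ) * I + -(((β - α) / 2 : ℝ) : ℂ) * I + β * I = 0 := by
          push_cast; ring
        rw [this, Complex.exp_zero]
      rw [e1] at e3
      rw [e2] at e4
      set u := cexp ((-(α + β) / 2 : ℝ) * I)
      set Cc := (Real.cos ((β - α) / 2) : ℂ)
      set Ss := (Real.sin ((β - α) / 2) : ℂ)
      have h6 : u • (Cc • ((cexp (α * I) * a) • v1 + (cexp (β * I) * b) • v2)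
          + (I * Ss) • ((cexp (α * I) * a) • v1 + (cexp (β * I) * b) • -v2))
          = ((u * (Cc + Ss * I) * cexp (α * I)) * a) • v1
            + ((u * (Cc - Ss * I) * cexp (β * I)) * b) • v2 := by module
      rw [h6, e3, e4, one_mul, one_mul]
    rw [h5] at h4
    rw [h4, mul_comm a, mul_comm b]
  rw [step1]
  obtain ⟨a, ha⟩ : ∃ a : ℝ, a = ‖z1‖ := ⟨_, rfl⟩
  obtain ⟨b, hb⟩ : ∃ b : ℝ, b = ‖z2‖ := ⟨_, rfl⟩
  rw [← ha, ← hb]
  have h3 := Complex.norm_mul_cos_arg (⟨a, b⟩ : ℂ)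
  have h4 := Complex.norm_mul_sin_arg (⟨a, b⟩ : ℂ)
  set φ := arg (⟨a, b⟩ : ℂ) with hφ
  have h5 : ‖(⟨a, b⟩ : ℂ)‖ = Real.sqrt (a ^ 2 + b ^ 2) := by
    rw [Complex.norm_def, Complex.normSq_mk]; congr 1; ring
  rw [h5] at h3 h4
  set ρ := Real.sqrt (a ^ 2 + b ^ 2) with hρdef
  change ρ * Real.cos φ = a at h3
  change ρ * Real.sin φ = b at h4
  have h6 := hυN.ex_eq hF hυυ (-φ) hψ ((a : ℂ) • v1 + (b : ℂ) • v2)
  rw [← h6]
  congr 1
  rw [ex_apply, map_add, map_smul, map_smul, hυ1, hυ2, Real.cos_neg, Real.sin_neg, ← h3, ← h4]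
  have h7 : (Real.cos φ : ℂ) * Real.cos φ + Real.sin φ * Real.sin φ = 1 := by
    have := Real.cos_sq_add_sin_sq φ
    have h2 : ((Real.cos φ ^ 2 + Real.sin φ ^ 2 : ℝ) : ℂ) = 1 := by rw [this]; simp
    push_cast at h2 ⊢
    linear_combination h2
  obtain ⟨Cc, hCc⟩ : ∃ Cc : ℂ, Cc = (Real.cos φ : ℂ) := ⟨_, rfl⟩
  obtain ⟨Ss, hSs⟩ : ∃ Ss : ℂ, Ss = (Real.sin φ : ℂ) := ⟨_, rfl⟩
  push_cast
  rw [← Complex.ofReal_cos, ← Complex.ofReal_sin, ← hCc, ← hSs]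
  rw [← hCc, ← hSs] at h7
  have h8 : Cc • (((ρ : ℂ) * Cc) • v1 + ((ρ : ℂ) * Ss) • v2)
      + (I * -Ss) • (((ρ : ℂ) * Cc) • -(I • v2) + ((ρ : ℂ) * Ss) • I • v1)
      = ((ρ : ℂ) * (Cc * Cc + (-(I * I)) * (Ss * Ss))) • v1
        + ((ρ : ℂ) * Cc * Ss * (1 + I * I)) • v2 := by module
  rw [h8, Complex.I_mul_I, neg_neg, one_mul, h7, add_neg_cancel, mul_zero, zero_smul, add_zero,
    mul_one]

end family

end PoolAgent.MP_df72c7_an
end
end
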