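import Pool.Agent.Lib.MP_df72c7_an.CX5
import Pool.Agent.Lib.MP_df72c7_an.CX11

section

/-!
# The coordinate projections of a total system
-/

namespace PoolAgent.MP_df72c7_an

open Filter Topology

section projections

variable {𝕜 : Type*} [RCLike 𝕜] {H : Type*} [NormedAddCommGroup H] [NormedSpace 𝕜 H]
  {X : Type*} [NormedAddCommGroup X] [NormedSpace 𝕜 X]

/-- one coordinate of a finite combination -/
noncomputable def coord (L : ℕ → (H →L[𝕜] X)) (n : ℕ) : (ℕ →₀ H) →ₗ[𝕜] X :=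
  (L n : H →ₗ[𝕜] X) ∘ₗ Finsupp.lapply n

theorem coord_apply (L : ℕ → (H →L[𝕜] X)) (n : ℕ) (z : ℕ →₀ H) : coord L n z = L n (z n) := rfl

theorem Lam_single (L : ℕ → (H →L[𝕜] X)) (n : ℕ) (h : H) :
    Lam L (Finsupp.single n h) = L n h := by
  rw [Lam_apply, Finsupp.sum_single_index (by simp)]

theorem Joint.restrict {ε : ℝ} {L : ℕ → (H →L[𝕜] X)} (hJ : Joint ε L) (p : ℕ → Prop)
    [DecidablePred p] (z : ℕ →₀ H) : ‖Lam L (z.filter p)‖ ≤ (1 + ε / 2) * ‖Lam L z‖ := by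
  set u := z.filter p with hu
  set v := z.filter (fun n => ¬ p n) with hv
  have h2 : u + v = z := Finsupp.filter_add_filter_not z p
  have h1 := hJ z (u - v) (by
    intro n
    by_cases h : p n
    · simp [hu, hv, h]
    · simp [hu, hv, h])
  have h3 : Lam L u = (1 / 2 : 𝕜) • (Lam L z + Lam L (u - v)) := by
    rw [← h2, map_add, map_sub]
    module
  rw [h3, norm_smul]
  have h4 : ‖(1 / 2 : 𝕜)‖ = 1 / 2 := by simp
  rw [h4]
  have h5 := norm_add_le (Lam L z) (Lam L (u - v))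
  nlinarith

theorem Joint.coord_le {ε : ℝ} {L : ℕ → (H →L[𝕜] X)} (hJ : Joint ε L) (n : ℕ) (z : ℕ →₀ H) :
    ‖coord L n z‖ ≤ (1 + ε / 2) * ‖Lam L z‖ := by
  classical
  have h := hJ.restrict (fun m => m = n) z
  have h1 : z.filter (fun m => m = n) = Finsupp.single n (z n) := by
    ext m
    by_cases hm : m = n
    · subst hm; simp
    · simp [Finsupp.single_eq_of_ne hm, hm]
  rw [h1, Lam_single] at h
  exact h

variable [CompleteSpace X]

/-- The `n`-th coordinate projection. -/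
noncomputable def Pr (L : ℕ → (H →L[𝕜] X)) (n : ℕ) : X →L[𝕜] X := (coord L n).extendOfNorm (Lam L)

theorem Pr_Lam {ε : ℝ} {L : ℕ → (H →L[𝕜] X)} (hJ : Joint ε L) (hd : DenseRange (Lam L)) (n : ℕ)
    (z : ℕ →₀ H) : Pr L n (Lam L z) = L n (z n) :=
  LinearMap.extendOfNorm_eq hd ⟨_, hJ.coord_le n⟩ z

theorem Pr_Pr {ε : ℝ} {L : ℕ → (H →L[𝕜] X)} (hJ : Joint ε L) (hd : DenseRange (Lam L)) (n : ℕ)
    (x : X) : Pr L n (Pr L n x) = Pr L n x := by
  refine hd.induction_on (p := fun x => Pr L n (Pr L n x) = Pr L n x) x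
    (isClosed_eq (by fun_prop) (by fun_prop)) ?_
  intro z
  rw [Pr_Lam hJ hd, ← Lam_single L, Pr_Lam hJ hd, Finsupp.single_eq_same, Lam_single]

theorem Pr_Pr_ne {ε : ℝ} {L : ℕ → (H →L[𝕜] X)} (hJ : Joint ε L) (hd : DenseRange (Lam L))
    {n m : ℕ} (hnm : n ≠ m) (x : X) : Pr L n (Pr L m x) = 0 := by
  refine hd.induction_on (p := fun x => Pr L n (Pr L m x) = 0) x
    (isClosed_eq (by fun_prop) (by fun_prop)) ?_
  intro z
  rw [Pr_Lam hJ hd, ← Lam_single L, Pr_Lam hJ hd, Finsupp.single_eq_of_ne hnm, map_zero]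

theorem Pr_mem_range [FiniteDimensional 𝕜 H] {ε : ℝ} {L : ℕ → (H →L[𝕜] X)} (hJ : Joint ε L)
    (hd : DenseRange (Lam L)) (n : ℕ) (x : X) :
    Pr L n x ∈ LinearMap.range (L n : H →ₗ[𝕜] X) := by
  have hcl : IsClosed ((LinearMap.range (L n : H →ₗ[𝕜] X) : Submodule 𝕜 X) : Set X) :=
    Submodule.closed_of_finiteDimensional _
  refine hd.induction_on (p := fun x => Pr L n x ∈ LinearMap.range (L n : H →ₗ[𝕜] X)) x
    (hcl.preimage (Pr L n).continuous) ?_
  intro z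
  rw [Pr_Lam hJ hd]
  exact ⟨z n, rfl⟩

/-- The head projection. -/
noncomputable def Hd (L : ℕ → (H →L[𝕜] X)) (K : ℕ) : X →L[𝕜] X := ∑ i ∈ Finset.range K, Pr L i

theorem Hd_apply (L : ℕ → (H →L[𝕜] X)) (K : ℕ) (x : X) :
    Hd L K x = ∑ i ∈ Finset.range K, Pr L i x := by
  simp [Hd]

theorem Hd_Lam {ε : ℝ} {L : ℕ → (H →L[𝕜] X)} (hJ : Joint ε L) (hd : DenseRange (Lam L)) (K : ℕ)
    (z : ℕ →₀ H) : Hd L K (Lam L z) = Lam L (z.filter (fun n => n < K)) := by
  classical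
  rw [Hd_apply, Lam_eq_sum_range (N := K) L (z.filter (fun n => n < K))]
  · apply Finset.sum_congr rfl
    intro n hn
    rw [Pr_Lam hJ hd, Finsupp.filter_apply_pos (fun n => n < K) _ (Finset.mem_range.mp hn)]
  · intro n hn
    rw [Finsupp.support_filter, Finset.mem_filter] at hn
    exact Finset.mem_range.mpr hn.2

theorem Hd_norm {ε : ℝ} {L : ℕ → (H →L[𝕜] X)} (hJ : Joint ε L) (hd : DenseRange (Lam L)) (K : ℕ)
    (x : X) : ‖Hd L K x‖ ≤ (1 + ε / 2) * ‖x‖ := by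
  refine hd.induction_on (p := fun x => ‖Hd L K x‖ ≤ (1 + ε / 2) * ‖x‖) x
    (isClosed_le (by fun_prop) (by fun_prop)) ?_
  intro z
  rw [Hd_Lam hJ hd]
  exact hJ.restrict _ z

theorem Tl_norm {ε : ℝ} {L : ℕ → (H →L[𝕜] X)} (hJ : Joint ε L) (hd : DenseRange (Lam L)) (K : ℕ)
    (x : X) : ‖x - Hd L K x‖ ≤ (1 + ε / 2) * ‖x‖ := by
  refine hd.induction_on (p := fun x => ‖x - Hd L K x‖ ≤ (1 + ε / 2) * ‖x‖) x
    (isClosed_le (by fun_prop) (by fun_prop)) ?_
  intro z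
  rw [Hd_Lam hJ hd]
  have h := hJ.restrict (fun n => ¬ n < K) z
  have h2 : z.filter (fun n => n < K) + z.filter (fun n => ¬ n < K) = z :=
    Finsupp.filter_add_filter_not z _
  have h3 : Lam L z - Lam L (z.filter (fun n => n < K)) = Lam L (z.filter (fun n => ¬ n < K)) := by
    conv_lhs => rw [← h2]
    rw [h2, sub_eq_iff_eq_add, ← map_add, add_comm, h2]
  rw [h3]; exact h

theorem Tl_tendsto {ε : ℝ} (hε : 0 ≤ ε) {L : ℕ → (H →L[𝕜] X)} (hJ : Joint ε L)
    (hd : DenseRange (Lam L)) (x : X) : Tendsto (fun K => x - Hd L K x) atTop (𝓝 0) := by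
  rw [Metric.tendsto_atTop]
  intro δ hδ
  obtain ⟨_, ⟨z, rfl⟩, hz⟩ := Metric.mem_closure_iff.mp (hd x) (δ / (1 + ε / 2)) (by positivity)
  obtain ⟨N, hN⟩ : ∃ N, z.support ⊆ Finset.range N := z.support.exists_nat_subset_range
  refine ⟨N, fun K hK => ?_⟩
  have h1 : Hd L K (Lam L z) = Lam L z := by
    rw [Hd_Lam hJ hd]
    congr 1
    rw [Finsupp.filter_eq_self_iff]
    intro n hn
    have := Finset.mem_range.mp (hN (Finsupp.mem_support_iff.mpr hn))
    omega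
  have h2 : x - Hd L K x = (x - Lam L z) - Hd L K (x - Lam L z) := by
    rw [map_sub, h1]; abel
  rw [dist_zero_right, h2]
  refine (Tl_norm hJ hd K _).trans_lt ?_
  rw [dist_eq_norm] at hz
  rw [lt_div_iff₀ (by positivity)] at hz
  linarith

end projections

end PoolAgent.MP_df72c7_an
end

section

/-!
# Non-scalar almost hermitian operators on planes
-/

namespace PoolAgent.MP_df72c7_an

open Filter Topology Complex

section selection

theorem exists_subset_sum {ι : Type*} [DecidableEq ι] (s : Finset ι) (z : ι → ℂ) :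
    ∃ S ⊆ s, (1 / 4) * ∑ i ∈ s, ‖z i‖ ≤ ‖∑ i ∈ S, z i‖ := by
  set A := ∑ i ∈ s.filter (fun i => 0 ≤ (z i).re), (z i).re with hA
  set B := ∑ i ∈ s.filter (fun i => ¬ 0 ≤ (z i).re), -(z i).re with hB
  set C := ∑ i ∈ s.filter (fun i => 0 ≤ (z i).im), (z i).im with hC
  set D := ∑ i ∈ s.filter (fun i => ¬ 0 ≤ (z i).im), -(z i).im with hD
  have h1 : ∑ i ∈ s, |(z i).re| = A + B := by
    rw [← Finset.sum_filter_add_sum_filter_not s (fun i => 0 ≤ (z i).re)]
    congr 1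
    · apply Finset.sum_congr rfl
      intro i hi
      exact abs_of_nonneg (Finset.mem_filter.mp hi).2
    · apply Finset.sum_congr rfl
      intro i hi
      have := (Finset.mem_filter.mp hi).2
      exact abs_of_neg (not_le.mp this)
  have h2 : ∑ i ∈ s, |(z i).im| = C + D := by
    rw [← Finset.sum_filter_add_sum_filter_not s (fun i => 0 ≤ (z i).im)]
    congr 1
    · apply Finset.sum_congr rfl
      intro i hi
      exact abs_of_nonneg (Finset.mem_filter.mp hi).2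
    · apply Finset.sum_congr rfl
      intro i hi
      have := (Finset.mem_filter.mp hi).2
      exact abs_of_neg (not_le.mp this)
  have h3 : ∑ i ∈ s, ‖z i‖ ≤ A + B + C + D := by
    calc ∑ i ∈ s, ‖z i‖ ≤ ∑ i ∈ s, (|(z i).re| + |(z i).im|) :=
          Finset.sum_le_sum fun i _ => Complex.norm_le_abs_re_add_abs_im _
      _ = A + B + C + D := by rw [Finset.sum_add_distrib, h1, h2]; ring
  set M := ∑ i ∈ s, ‖z i‖ with hM
  have hcase : (1 / 4) * M ≤ A ∨ (1 / 4) * M ≤ B ∨ (1 / 4) * M ≤ C ∨ (1 / 4) * M ≤ D := by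
    by_contra hcon
    push Not at hcon
    obtain ⟨a, b, c, d⟩ := hcon
    linarith
  rcases hcase with h | h | h | h
  · refine ⟨_, Finset.filter_subset (fun i => 0 ≤ (z i).re) _, h.trans ?_⟩
    rw [hA, ← Complex.re_sum]
    exact Complex.re_le_norm _
  · refine ⟨_, Finset.filter_subset (fun i => ¬ 0 ≤ (z i).re) _, h.trans ?_⟩
    rw [hB, Finset.sum_neg_distrib, ← Complex.re_sum]
    exact (neg_le_abs _).trans (Complex.abs_re_le_norm _)
  · refine ⟨_, Finset.filter_subset (fun i => 0 ≤ (z i).im) _, h.trans ?_⟩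
    rw [hC, ← Complex.im_sum]
    exact Complex.im_le_norm _
  · refine ⟨_, Finset.filter_subset (fun i => ¬ 0 ≤ (z i).im) _, h.trans ?_⟩
    rw [hD, Finset.sum_neg_distrib, ← Complex.im_sum]
    exact (neg_le_abs _).trans (Complex.abs_im_le_norm _)

theorem rank_one_ineq {a d x y : ℂ} (h : a * d = x * y) : ‖a‖ ≤ ‖x‖ + ‖y‖ + ‖a - d‖ := by
  by_contra hcon
  push Not at hcon
  have h1 : ‖a‖ - ‖a - d‖ ≤ ‖d‖ := by
    have := norm_sub_le a (a - d)
    have h2 : a - (a - d) = d := by ring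
    rw [h2] at this
    have h3 := norm_add_le (a - d) d
    rw [sub_add_cancel] at h3
    linarith
  have h2 : ‖x‖ + ‖y‖ < ‖d‖ := by linarith
  have h3 : ‖x‖ + ‖y‖ < ‖a‖ := by linarith [norm_nonneg (a - d)]
  have h4 : ‖a‖ * ‖d‖ = ‖x‖ * ‖y‖ := by rw [← norm_mul, h, norm_mul]
  have hx := norm_nonneg x
  have hy := norm_nonneg y
  have h5 : (‖x‖ + ‖y‖) * (‖x‖ + ‖y‖) < ‖a‖ * ‖d‖ := by
    apply mul_lt_mul'' h3 h2 (by positivity) (by positivity)
  nlinarith

theorem selection {ι : Type*} [DecidableEq ι] (s : Finset ι) {a d x y : ι → ℂ}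
    (h : ∀ i, a i * d i = x i * y i) (ha : 1 / 2 ≤ ‖∑ i ∈ s, a i‖) :
    ∃ S ⊆ s, 1 / 24 ≤ ‖∑ i ∈ S, x i‖ ∨ 1 / 24 ≤ ‖∑ i ∈ S, y i‖
      ∨ 1 / 24 ≤ ‖∑ i ∈ S, (a i - d i)‖ := by
  have h1 : 1 / 2 ≤ ∑ i ∈ s, ‖x i‖ + ∑ i ∈ s, ‖y i‖ + ∑ i ∈ s, ‖a i - d i‖ := by
    calc (1 / 2 : ℝ) ≤ ‖∑ i ∈ s, a i‖ := ha
      _ ≤ ∑ i ∈ s, ‖a i‖ := norm_sum_le _ _
      _ ≤ ∑ i ∈ s, (‖x i‖ + ‖y i‖ + ‖a i - d i‖) :=
          Finset.sum_le_sum fun i _ => rank_one_ineq (h i)
      _ = _ := by rw [Finset.sum_add_distrib, Finset.sum_add_distrib]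
  have hcase : 1 / 6 ≤ ∑ i ∈ s, ‖x i‖ ∨ 1 / 6 ≤ ∑ i ∈ s, ‖y i‖ ∨ 1 / 6 ≤ ∑ i ∈ s, ‖a i - d i‖ := by
    by_contra hcon
    push Not at hcon
    obtain ⟨a, b, c⟩ := hcon
    linarith
  rcases hcase with h | h | h
  · obtain ⟨S, hS, hS'⟩ := exists_subset_sum s x
    exact ⟨S, hS, Or.inl (by linarith)⟩
  · obtain ⟨S, hS, hS'⟩ := exists_subset_sum s y
    exact ⟨S, hS, Or.inr (Or.inl (by linarith))⟩
  · obtain ⟨S, hS, hS'⟩ := exists_subset_sum s (fun i => a i - d i)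
    exact ⟨S, hS, Or.inr (Or.inr (by linarith))⟩

end selection

section build

variable {X : Type*} [NormedAddCommGroup X] [NormedSpace ℂ X] [CompleteSpace X]

/-- The idempotents: `K` rank one ones and the tail. -/
noncomputable def PP (L : ℕ → (ℂ →L[ℂ] X)) (K : ℕ) : Option (Fin K) → (X →ₗ[ℂ] X)
  | some i => (Pr L i : X →ₗ[ℂ] X)
  | none => LinearMap.id - (Hd L K : X →ₗ[ℂ] X)

theorem Hd_eq_fin (L : ℕ → (ℂ →L[ℂ] X)) (K : ℕ) (x : X) : Hd L K x = ∑ i : Fin K, Pr L i x := by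
  rw [Hd_apply, Finset.sum_range]

theorem torus_bound {ε : ℝ} {L : ℕ → (ℂ →L[ℂ] X)} (hJ : Joint ε L) (hd : DenseRange (Lam L))
    (K : ℕ) (l : ℕ → ℂ) (l0 : ℂ) (hl : ∀ i, ‖l i‖ = 1) (hl0 : ‖l0‖ = 1) (x : X) :
    ‖l0 • (x - Hd L K x) + ∑ i ∈ Finset.range K, l i • Pr L i x‖ ≤ (1 + ε) * ‖x‖ := by
  refine hd.induction_on (p := fun x => ‖l0 • (x - Hd L K x)
    + ∑ i ∈ Finset.range K, l i • Pr L i x‖ ≤ (1 + ε) * ‖x‖) x
    (isClosed_le (by fun_prop) (by fun_prop)) ?_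
  intro z
  set c : ℕ → ℂ := fun n => if n < K then l n else l0 with hc
  have hc1 : ∀ n, ‖c n‖ = 1 := by
    intro n
    by_cases h : n < K
    · simp only [hc, h, if_true, hl]
    · simp only [hc, h, if_false, hl0]
  let z' : ℕ →₀ ℂ := Finsupp.onFinset z.support (fun n => c n * z n) (by
    intro n hn
    rw [Finsupp.mem_support_iff]
    intro h
    exact hn (by rw [h, mul_zero]))
  have hz' : ∀ n, z' n = c n * z n := fun n => rfl
  have h0 := hJ z z' (fun n => by rw [hz', norm_mul, hc1, one_mul])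
  obtain ⟨N, hN⟩ : ∃ N, z.support ⊆ Finset.range N := z.support.exists_nat_subset_range
  have hN1 : z.support ⊆ Finset.range (K + N) := hN.trans (Finset.range_subset_range.mpr (by omega))
  have hN2 : z'.support ⊆ Finset.range (K + N) := Finsupp.support_onFinset_subset.trans hN1
  have h1 : Lam L z' = l0 • (Lam L z - Hd L K (Lam L z))
      + ∑ i ∈ Finset.range K, l i • Pr L i (Lam L z) := by
    rw [Hd_apply]
    simp only [Pr_Lam hJ hd]
    rw [Lam_eq_sum_range L z' hN2, Lam_eq_sum_range L z hN1, Finset.sum_range_add,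
      Finset.sum_range_add, add_sub_cancel_left, Finset.smul_sum, add_comm]
    congr 1
    · apply Finset.sum_congr rfl
      intro n _
      rw [hz', ← smul_eq_mul, map_smul]
      have : ¬ K + n < K := by omega
      simp only [hc, this, if_false]
    · apply Finset.sum_congr rfl
      intro n hn
      rw [hz', ← smul_eq_mul, map_smul]
      simp only [hc, Finset.mem_range.mp hn, if_true]
  rw [h1] at h0
  exact h0

/-- The data of Lemma N given by a near-torus system and an idempotent. -/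
noncomputable def mkN {ε : ℝ} (hε : 0 ≤ ε) (hε1 : ε ≤ 1) {L : ℕ → (ℂ →L[ℂ] X)} (hJ : Joint ε L)
    (hd : DenseRange (Lam L)) (K : ℕ) (Q : X →ₗ[ℂ] X) (hQ : ∀ x, Q (Q x) = Q x)
    (hrot : ∀ μ : ℂ, ‖μ‖ = 1 → ∀ x, ‖μ • Q x + (x - Q x)‖ ≤ (1 + ε) * ‖x‖) :
    NData (Option (Fin K)) X where
  P := PP L K
  Q := Q
  κ := ε
  κ0 := hε
  κ1 := hε1
  PP := by
    rintro (_ | i) x
    · have h1 : ∀ y, PP L K none y = y - Hd L K y := fun y => rfl
      rw [h1, h1]
      have h2 : Hd L K (Hd L K x) = Hd L K x := by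
        rw [Hd_apply, Hd_apply]
        apply Finset.sum_congr rfl
        intro i hi
        rw [map_sum, Finset.sum_eq_single i]
        · exact Pr_Pr hJ hd i x
        · intro j _ hj
          exact Pr_Pr_ne hJ hd hj.symm x
        · intro h; exact absurd hi h
      rw [map_sub, h2, sub_self, sub_zero]
    · exact Pr_Pr hJ hd i x
  PP' := by
    have h1 : ∀ y, PP L K none y = y - Hd L K y := fun y => rfl
    have h3 : ∀ (i : Fin K) y, PP L K (some i) y = Pr L i y := fun i y => rfl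
    rintro (_ | i) (_ | j) x hij
    · exact absurd rfl hij
    · rw [h1, h3, Hd_apply, Finset.sum_eq_single (j : ℕ)]
      · rw [Pr_Pr hJ hd, sub_self]
      · intro i _ hi
        exact Pr_Pr_ne hJ hd hi x
      · intro h; exact absurd (Finset.mem_range.mpr j.2) h
    · rw [h1, h3, map_sub, Hd_apply, map_sum, Finset.sum_eq_single (i : ℕ)]
      · rw [Pr_Pr hJ hd, sub_self]
      · intro j _ hj
        exact Pr_Pr_ne hJ hd hj.symm x
      · intro h; exact absurd (Finset.mem_range.mpr i.2) h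
    · rw [h3, h3]
      apply Pr_Pr_ne hJ hd
      intro h
      apply hij
      rw [Fin.ext h]
  sum := by
    intro x
    rw [Fintype.sum_option]
    have h1 : ∀ y, PP L K none y = y - Hd L K y := fun y => rfl
    have h3 : ∀ (i : Fin K) y, PP L K (some i) y = Pr L i y := fun i y => rfl
    simp only [h1, h3]
    rw [← Hd_eq_fin, sub_add_cancel]
  torus := by
    intro l hl x
    rw [Fintype.sum_option]
    have h1 : ∀ y, PP L K none y = y - Hd L K y := fun y => rfl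
    have h3 : ∀ (i : Fin K) y, PP L K (some i) y = Pr L i y := fun i y => rfl
    simp only [h1, h3]
    have h4 := torus_bound hJ hd K (fun n => if h : n < K then l (some ⟨n, h⟩) else 1) (l none)
      (by
        intro i
        by_cases h : i < K
        · simp only [h, dif_pos, hl]
        · simp only [h, dif_neg, not_false_eq_true, norm_one]) (hl none) x
    rw [Finset.sum_range] at h4
    simpa using h4
  QQ := hQ
  rot := hrot

theorem Pr_smul {ε : ℝ} {L : ℕ → (ℂ →L[ℂ] X)} (hJ : Joint ε L) (hd : DenseRange (Lam L))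
    (i : ℕ) (x : X) : ∃ c : ℂ, Pr L i x = c • L i 1 := by
  obtain ⟨c, hc⟩ := Pr_mem_range hJ hd i x
  refine ⟨c, ?_⟩
  rw [← hc, ← map_smul, smul_eq_mul, mul_one]
  rfl

theorem exists_m {ε : ℝ} {L : ℕ → (ℂ →L[ℂ] X)} (hJ : Joint ε L) (hd : DenseRange (Lam L))
    (Q : X →ₗ[ℂ] X) (i : ℕ) : ∃ m : ℂ, (∀ x, Pr L i (Q (Pr L i x)) = m • Pr L i x) ∧
      (m = 0 ∨ L i 1 ≠ 0) := by
  by_cases h : L i 1 = 0
  · refine ⟨0, fun x => ?_, Or.inl rfl⟩
    obtain ⟨c, hc⟩ := Pr_smul hJ hd i x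
    rw [hc, h]; simp
  · obtain ⟨m, hm⟩ := Pr_smul hJ hd i (Q (L i 1))
    refine ⟨m, fun x => ?_, Or.inr h⟩
    obtain ⟨c, hc⟩ := Pr_smul hJ hd i x
    rw [hc, map_smul, map_smul, hm, smul_comm]

/-- Non-scalar almost hermitian operators on a plane. -/
theorem exists_nonscalar (hU : PropU ℂ ℂ X) {κ : ℝ} (hκ : 0 < κ) (hκ1 : κ ≤ 1)
    (q1 q2 : X →L[ℂ] ℂ) (B1 B2 : X) (h11 : q1 B1 = 1) (h12 : q1 B2 = 0) (h21 : q2 B1 = 0)
    (h22 : q2 B2 = 1)
    (hrot : ∀ μ : ℂ, ‖μ‖ = 1 → ∀ x, ‖μ • (q1 x • B1 + q2 x • B2)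
      + (x - (q1 x • B1 + q2 x • B2))‖ ≤ (1 + κ) * ‖x‖)
    {ε : ℝ} (hε : 0 < ε) :
    ∃ α β γ δ : ℂ, (1 / 24 ≤ ‖β‖ ∨ 1 / 24 ≤ ‖γ‖ ∨ 1 / 24 ≤ ‖α - δ‖) ∧ ∀ (t : ℝ) (x : X),
      ‖x + (I * t) • ((α * q1 x + β * q2 x) • B1 + (γ * q1 x + δ * q2 x) • B2)‖
        ≤ ((1 + κ) ^ 3 * Real.sqrt (1 + 9 * t ^ 2) + 32 * |t| * Real.sqrt κ + |t| * ε) * ‖x‖ := by
  obtain ⟨L, hd, hJ⟩ := hU κ hκ
  set C := 1 + ‖q1‖ + ‖q2‖ with hC
  have hC1 : 0 < C := by positivity
  set δ0 := min (1 / 2) (ε / 2) / C with hδ0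
  have hδ0p : 0 < δ0 := by positivity
  have hev : ∀ᶠ K in atTop, ‖B1 - Hd L K B1‖ < δ0 ∧ ‖B2 - Hd L K B2‖ < δ0 := by
    have e1 := (Metric.tendsto_nhds.mp (Tl_tendsto hκ.le hJ hd B1)) δ0 hδ0p
    have e2 := (Metric.tendsto_nhds.mp (Tl_tendsto hκ.le hJ hd B2)) δ0 hδ0p
    filter_upwards [e1, e2] with K h1 h2
    rw [dist_zero_right] at h1 h2
    exact ⟨h1, h2⟩
  obtain ⟨K, hK1, hK2⟩ := hev.exists
  have hCδ : C * δ0 = min (1 / 2) (ε / 2) := by rw [hδ0]; field_simp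
  have hCδ1 : C * δ0 ≤ 1 / 2 := by rw [hCδ]; exact min_le_left _ _
  have hCδ2 : C * δ0 ≤ ε / 2 := by rw [hCδ]; exact min_le_right _ _
  let Q : X →ₗ[ℂ] X := (q1 : X →ₗ[ℂ] ℂ).smulRight B1 + (q2 : X →ₗ[ℂ] ℂ).smulRight B2
  have hQ : ∀ x, Q x = q1 x • B1 + q2 x • B2 := fun x => rfl
  have hQQ : ∀ x, Q (Q x) = Q x := by
    intro x
    rw [hQ (Q x), hQ x]
    simp [h11, h12, h21, h22]
  let D := mkN hκ.le hκ1 hJ hd K Q hQQ (fun μ hμ x => by rw [hQ]; exact hrot μ hμ x)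
  choose m hm hm0 using exists_m hJ hd Q
  -- the selection
  obtain ⟨S, -, hS⟩ := selection (Finset.univ : Finset (Fin K))
    (a := fun i => q1 (Pr L i B1)) (d := fun i => q2 (Pr L i B2))
    (x := fun i => q1 (Pr L i B2)) (y := fun i => q2 (Pr L i B1)) (by
      intro i
      obtain ⟨c, hc⟩ := Pr_smul hJ hd i B1
      obtain ⟨c', hc'⟩ := Pr_smul hJ hd i B2
      simp only [hc, hc', map_smul, smul_eq_mul]
      ring) (by
      rw [← map_sum, ← Hd_eq_fin]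
      have h1 : q1 (Hd L K B1) = 1 - q1 (B1 - Hd L K B1) := by rw [map_sub, h11]; ring
      rw [h1]
      have h2 : ‖q1 (B1 - Hd L K B1)‖ ≤ 1 / 2 := by
        refine (q1.le_opNorm _).trans ?_
        have : ‖q1‖ * ‖B1 - Hd L K B1‖ ≤ C * δ0 := by
          apply mul_le_mul _ hK1.le (norm_nonneg _) hC1.le
          rw [hC]; linarith [norm_nonneg q2]
        linarith
      have h3 := norm_sub_norm_le (1 : ℂ) (q1 (B1 - Hd L K B1))
      rw [norm_one] at h3
      linarith)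
  let S' : Finset (Option (Fin K)) := S.map Function.Embedding.some
  have hoS : (none : Option (Fin K)) ∉ S' := by simp [S']
  have hPS : ∀ x, D.PS S' x = ∑ i ∈ S, Pr L i x := by
    intro x
    rw [NData.PS_apply, Finset.sum_map]
    rfl
  let m' : Option (Fin K) → ℂ := fun i => match i with
    | some j => m j
    | none => 0
  have hfin := D.lemmaN S' hoS (m := m') (τ := ε) (by
      rintro (_ | i) hi x
      · exact absurd rfl hi
      · exact hm i x) (by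
      rintro (_ | i) hi
      · exact absurd rfl hi
      · rcases hm0 i with h | h
        · exact Or.inl h
        · refine Or.inr ⟨L i 1, h, ?_⟩
          have h1 : L i 1 = Lam L (Finsupp.single (i : ℕ) 1) := (Lam_single L i 1).symm
          change Pr L i (L i 1) = L i 1
          conv_lhs => rw [h1]
          rw [Pr_Lam hJ hd, Finsupp.single_eq_same]) (by
      intro x
      change ‖Q (x - Hd L K x) - Hd L K (Q (x - Hd L K x))‖ ≤ ε * ‖x‖
      set y := x - Hd L K x with hy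
      have hyn : ‖y‖ ≤ 2 * ‖x‖ := by
        refine (Tl_norm hJ hd K x).trans ?_
        gcongr; linarith
      have h1 : Q y - Hd L K (Q y) = q1 y • (B1 - Hd L K B1) + q2 y • (B2 - Hd L K B2) := by
        rw [hQ, map_add, map_smul, map_smul]; module
      rw [h1]
      calc ‖q1 y • (B1 - Hd L K B1) + q2 y • (B2 - Hd L K B2)‖
          ≤ ‖q1‖ * ‖y‖ * δ0 + ‖q2‖ * ‖y‖ * δ0 := by
            refine norm_add_le_of_le ?_ ?_
            · rw [norm_smul]
              exact mul_le_mul (q1.le_opNorm _) hK1.le (norm_nonneg _) (by positivity)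
            · rw [norm_smul]
              exact mul_le_mul (q2.le_opNorm _) hK2.le (norm_nonneg _) (by positivity)
        _ = (‖q1‖ + ‖q2‖) * δ0 * ‖y‖ := by ring
        _ ≤ (C * δ0) * (2 * ‖x‖) := by
            apply mul_le_mul _ hyn (norm_nonneg _) (by positivity)
            apply mul_le_mul_of_nonneg_right _ hδ0p.le
            rw [hC]; linarith
        _ ≤ (ε / 2) * (2 * ‖x‖) := by gcongr
        _ = ε * ‖x‖ := by ring)
  refine ⟨∑ i ∈ S, q1 (Pr L i B1), ∑ i ∈ S, q1 (Pr L i B2), ∑ i ∈ S, q2 (Pr L i B1),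
    ∑ i ∈ S, q2 (Pr L i B2), ?_, ?_⟩
  · rw [← Finset.sum_sub_distrib]; exact hS
  · intro t x
    have h1 := hfin t x
    have h2 : D.Q (D.PS S' (D.Q x)) = ((∑ i ∈ S, q1 (Pr L i B1)) * q1 x
        + (∑ i ∈ S, q1 (Pr L i B2)) * q2 x) • B1 + ((∑ i ∈ S, q2 (Pr L i B1)) * q1 x
        + (∑ i ∈ S, q2 (Pr L i B2)) * q2 x) • B2 := by
      change Q (D.PS S' (Q x)) = _
      rw [hPS, hQ x, hQ]
      have h3 : ∀ q : X →L[ℂ] ℂ, q (∑ i ∈ S, Pr L i (q1 x • B1 + q2 x • B2))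
          = (∑ i ∈ S, q (Pr L i B1)) * q1 x + (∑ i ∈ S, q (Pr L i B2)) * q2 x := by
        intro q
        rw [map_sum, Finset.sum_mul, Finset.sum_mul, ← Finset.sum_add_distrib]
        apply Finset.sum_congr rfl
        intro i _
        simp only [map_add, map_smul, smul_eq_mul]
        ring
      rw [h3, h3]
    rw [h2] at h1
    exact h1

end build

end PoolAgent.MP_df72c7_an
end

section

/-!
# Triples of almost hermitian vectors and planes spanned by them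
-/

namespace PoolAgent.MP_df72c7_an

open Filter Topology TopologicalSpace Complex

section triple

variable {X : Type*} [NormedAddCommGroup X] [NormedSpace ℂ X]

/-- linear combinations of three vectors -/
noncomputable def comb (x : Fin 3 → X) : (Fin 3 → ℂ) →ₗ[ℂ] X := Fintype.linearCombination ℂ x

theorem comb_apply (x : Fin 3 → X) (c : Fin 3 → ℂ) :
    comb x c = c 0 • x 0 + c 1 • x 1 + c 2 • x 2 := by
  rw [comb, Fintype.linearCombination_apply, Fin.sum_univ_three]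

/-- The torus `𝕋³` acts almost isometrically relative to `R`. -/
def Tri (κ : ℝ) (x : Fin 3 → X) (R : Submodule ℂ X) : Prop :=
  ∀ c μ : Fin 3 → ℂ, (∀ j, ‖μ j‖ = 1) → ∀ w ∈ R,
    ‖comb x (fun j => μ j * c j) + w‖ ≤ (1 + κ) * ‖comb x c + w‖

theorem exists_triple [CompleteSpace X] [SeparableSpace X] (hX : IsoHom ℂ X) {F Z : Submodule ℂ X} [FiniteDimensional ℂ F]
    (hZc : IsClosed (Z : Set X)) (hZi : ¬ FiniteDimensional ℂ Z) {κ : ℝ} (hκ : 0 < κ) :
    ∃ x : Fin 3 → X, (∀ j, x j ∈ Z) ∧ (∀ j, ‖x j‖ = 1) ∧ ∃ V : Submodule ℂ X,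
      IsClosed (V : Set X) ∧ ¬ FiniteDimensional ℂ V ∧ V ≤ Z ∧ Tri κ x (F ⊔ V) := by
  obtain ⟨e, he, he3⟩ : ∃ e : ℝ, 0 < e ∧ (1 + e) ^ 3 ≤ 1 + κ := by
    refine ⟨min 1 κ / 7, by positivity, ?_⟩
    set m := min 1 κ with hm
    have h0 : 0 < m := by positivity
    have h1 : m ≤ 1 := min_le_left _ _
    have h2 : m ≤ κ := min_le_right _ _
    nlinarith [mul_pos h0 h0, mul_pos (mul_pos h0 h0) h0]
  obtain ⟨x0, hx0, hn0, V0, hV0c, hV0i, hV0Z, hr0⟩ := exists_hermitian hX (F := F) hZc hZi he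
  obtain ⟨x1, hx1, hn1, V1, hV1c, hV1i, hV1Z, hr1⟩ := exists_hermitian hX
    (F := F ⊔ Submodule.span ℂ {x0}) hV0c hV0i he
  obtain ⟨x2, hx2, hn2, V2, hV2c, hV2i, hV2Z, hr2⟩ := exists_hermitian hX
    (F := (F ⊔ Submodule.span ℂ {x0}) ⊔ Submodule.span ℂ {x1}) hV1c hV1i he
  refine ⟨![x0, x1, x2], ?_, ?_, V2, hV2c, hV2i, hV2Z.trans (hV1Z.trans hV0Z), ?_⟩
  · intro j
    fin_cases j
    · exact hx0
    · exact hV0Z hx1
    · exact hV0Z (hV1Z hx2)
  · intro j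
    fin_cases j
    · exact hn0
    · exact hn1
    · exact hn2
  · intro c μ hμ w hw
    rw [comb_apply, comb_apply]
    simp only [Matrix.cons_val_zero, Matrix.cons_val_one, Matrix.cons_val_two, Matrix.head_cons,
      Matrix.tail_cons]
    have hx0F : ∀ a : ℂ, a • x0 ∈ F ⊔ Submodule.span ℂ {x0} := fun a =>
      Submodule.smul_mem _ _ ((le_sup_right : Submodule.span ℂ {x0} ≤ _)
        (Submodule.mem_span_singleton_self x0))
    have hx1F : ∀ a : ℂ, a • x1 ∈ (F ⊔ Submodule.span ℂ {x0}) ⊔ Submodule.span ℂ {x1} := fun a =>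
      Submodule.smul_mem _ _ ((le_sup_right : Submodule.span ℂ {x1} ≤ _)
        (Submodule.mem_span_singleton_self x1))
    have hV10 : F ⊔ V2 ≤ F ⊔ V0 := sup_le_sup_left (hV2Z.trans hV1Z) F
    have hw1 : w ∈ F ⊔ V0 := hV10 hw
    have hw2 : w ∈ (F ⊔ Submodule.span ℂ {x0}) ⊔ V1 :=
      (sup_le_sup le_sup_left hV2Z : F ⊔ V2 ≤ _) hw
    have hw3 : w ∈ ((F ⊔ Submodule.span ℂ {x0}) ⊔ Submodule.span ℂ {x1}) ⊔ V2 :=
      (sup_le_sup (le_sup_left.trans le_sup_left) le_rfl : F ⊔ V2 ≤ _) hw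
    have m1 : (μ 1 * c 1) • x1 + (μ 2 * c 2) • x2 + w ∈ F ⊔ V0 :=
      Submodule.add_mem _ (Submodule.add_mem _
        ((le_sup_right : V0 ≤ F ⊔ V0) (V0.smul_mem _ hx1))
        ((le_sup_right : V0 ≤ F ⊔ V0) (V0.smul_mem _ (hV1Z hx2)))) hw1
    have m2 : c 0 • x0 + (μ 2 * c 2) • x2 + w ∈ (F ⊔ Submodule.span ℂ {x0}) ⊔ V1 :=
      Submodule.add_mem _ (Submodule.add_mem _
        ((le_sup_left : _ ≤ (F ⊔ Submodule.span ℂ {x0}) ⊔ V1) (hx0F _))
        ((le_sup_right : V1 ≤ _) (V1.smul_mem _ hx2))) hw2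
    have m3 : c 0 • x0 + c 1 • x1 + w ∈ ((F ⊔ Submodule.span ℂ {x0}) ⊔ Submodule.span ℂ {x1}) ⊔ V2 :=
      Submodule.add_mem _ (Submodule.add_mem _
        ((le_sup_left.trans le_sup_left : F ⊔ Submodule.span ℂ {x0} ≤ _) (hx0F _))
        ((le_sup_left : _ ≤ ((F ⊔ Submodule.span ℂ {x0}) ⊔ Submodule.span ℂ {x1}) ⊔ V2) (hx1F _)))
        hw3
    have e1 := hr0 (c 0) (μ 0) (hμ 0) _ m1
    have e2 := hr1 (c 1) (μ 1) (hμ 1) _ m2
    have e3 := hr2 (c 2) (μ 2) (hμ 2) _ m3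
    have r1 : (μ 0 * c 0) • x0 + (μ 1 * c 1) • x1 + (μ 2 * c 2) • x2 + w
        = (μ 0 * c 0) • x0 + ((μ 1 * c 1) • x1 + (μ 2 * c 2) • x2 + w) := by abel
    have r2 : c 0 • x0 + ((μ 1 * c 1) • x1 + (μ 2 * c 2) • x2 + w)
        = (μ 1 * c 1) • x1 + (c 0 • x0 + (μ 2 * c 2) • x2 + w) := by abel
    have r3 : c 1 • x1 + (c 0 • x0 + (μ 2 * c 2) • x2 + w)
        = (μ 2 * c 2) • x2 + (c 0 • x0 + c 1 • x1 + w) := by abel
    have r4 : c 2 • x2 + (c 0 • x0 + c 1 • x1 + w) = c 0 • x0 + c 1 • x1 + c 2 • x2 + w := by abel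
    rw [r1]
    rw [r2] at e1
    rw [r3] at e2
    rw [r4] at e3
    have he0 : 0 ≤ 1 + e := by linarith
    calc _ ≤ (1 + e) * _ := e1
      _ ≤ (1 + e) * ((1 + e) * _) := by gcongr
      _ ≤ (1 + e) * ((1 + e) * ((1 + e) * ‖c 0 • x0 + c 1 • x1 + c 2 • x2 + w‖)) := by gcongr
      _ = (1 + e) ^ 3 * ‖c 0 • x0 + c 1 • x1 + c 2 • x2 + w‖ := by ring
      _ ≤ _ := by gcongr

theorem Tri.coeff {κ : ℝ} (hκ1 : κ ≤ 1) {x : Fin 3 → X} (hx : ∀ j, ‖x j‖ = 1)
    {R : Submodule ℂ X} (h : Tri κ x R) (c : Fin 3 → ℂ) {w : X} (hw : w ∈ R) (j : Fin 3) :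
    ‖c j‖ ≤ (3 / 2) * ‖comb x c + w‖ := by
  have h1 := h c (fun i => if i = j then -1 else 1) (by
    intro i; by_cases hi : i = j <;> simp [hi]) w hw
  have h2 : c j • x j = (1 / 2 : ℂ) • ((comb x c + w)
      - (comb x (fun i => (if i = j then -1 else 1) * c i) + w)) := by
    have : (comb x c + w) - (comb x (fun i => (if i = j then -1 else 1) * c i) + w)
        = comb x (c - fun i => (if i = j then -1 else 1) * c i) := by
      rw [map_sub]; abel
    rw [this]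
    have h3 : (c - fun i => (if i = j then -1 else 1) * c i) = Pi.single j (2 * c j) := by
      funext i
      by_cases hi : i = j
      · subst hi; simp; ring
      · simp [hi]
    rw [h3, comb, Fintype.linearCombination_apply_single, smul_smul]
    congr 1; ring
  have h3 : ‖c j‖ = ‖c j • x j‖ := by rw [norm_smul, hx, mul_one]
  rw [h3, h2, norm_smul]
  have h4 : ‖(1 / 2 : ℂ)‖ = 1 / 2 := by norm_num
  rw [h4]
  have h5 := norm_sub_le (comb x c + w) (comb x (fun i => (if i = j then -1 else 1) * c i) + w)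
  have h6 := norm_nonneg (comb x c + w)
  nlinarith

theorem exists_functional_closed {M : Submodule ℂ X} (hM : IsClosed (M : Set X)) {y : X}
    (hy : y ∉ M) : ∃ φ : X →L[ℂ] ℂ, (∀ m ∈ M, φ m = 0) ∧ φ y = 1 := by
  have := hM
  have h0 : ‖M.mkQL y‖ ≠ 0 := by
    rw [norm_ne_zero_iff, Submodule.mkQL_apply, Submodule.mkQ_apply, Ne,
      Submodule.Quotient.mk_eq_zero]
    exact hy
  obtain ⟨g, -, hg⟩ := exists_dual_vector ℂ (M.mkQL y) h0
  refine ⟨(‖M.mkQL y‖ : ℂ)⁻¹ • (g.comp M.mkQL), ?_, ?_⟩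
  · intro m hm
    have : M.mkQL m = 0 := by
      rw [Submodule.mkQL_apply, Submodule.mkQ_apply]
      exact (Submodule.Quotient.mk_eq_zero M).mpr hm
    simp only [smul_apply, ContinuousLinearMap.comp_apply, this, map_zero,
      smul_zero]
  · simp only [smul_apply, ContinuousLinearMap.comp_apply, hg, smul_eq_mul]
    apply inv_mul_cancel₀
    exact_mod_cast h0

/-- coordinate functionals -/
theorem Tri.exists_coord {κ : ℝ} (hκ1 : κ ≤ 1) {x : Fin 3 → X} (hx : ∀ j, ‖x j‖ = 1)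
    {R : Submodule ℂ X} (hRc : IsClosed (R : Set X)) (h : Tri κ x R) (j : Fin 3) :
    ∃ p : X →L[ℂ] ℂ, ∀ c : Fin 3 → ℂ, ∀ w ∈ R, p (comb x c + w) = c j := by
  let M0 : Submodule ℂ X := (LinearMap.ker (LinearMap.proj j : (Fin 3 → ℂ) →ₗ[ℂ] ℂ)).map (comb x)
  let M : Submodule ℂ X := R ⊔ M0
  have hMc : IsClosed (M : Set X) := by
    apply Submodule.isClosed_sup_finiteDimensional _ _ hRc
  have hyM : x j ∉ M := by
    intro hmem
    obtain ⟨w, hw, y, ⟨c, hc, rfl⟩, hwy⟩ := Submodule.mem_sup.mp hmem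
    have hcj : c j = 0 := hc
    have h1 := h.coeff hκ1 hx (Pi.single j 1 - c) (R.neg_mem hw) j
    have h2 : comb x (Pi.single j 1 - c) + -w = 0 := by
      rw [map_sub, comb, Fintype.linearCombination_apply_single, one_smul, ← hwy, comb]
      abel
    rw [h2, norm_zero, mul_zero, Pi.sub_apply, hcj, Pi.single_eq_same, sub_zero, norm_one] at h1
    linarith
  obtain ⟨p, hp0, hp1⟩ := exists_functional_closed hMc hyM
  refine ⟨p, fun c w hw => ?_⟩
  have h1 : comb x c + w = c j • x j + (w + comb x (c - Pi.single j (c j))) := by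
    rw [map_sub]
    have : comb x (Pi.single j (c j)) = c j • x j := by
      rw [comb, Fintype.linearCombination_apply_single]
    rw [this]; abel
  have h2 : w + comb x (c - Pi.single j (c j)) ∈ M := by
    apply Submodule.add_mem
    · exact (le_sup_left : R ≤ M) hw
    · apply (le_sup_right : M0 ≤ M)
      refine ⟨_, ?_, rfl⟩
      simp
  rw [h1, map_add, hp0 _ h2, map_smul, hp1]
  simp

/-- The vector `z₁ a + z₂ b`. -/
def uf (a b : Fin 3 → ℝ) (z1 z2 : ℂ) : Fin 3 → ℂ := fun j => z1 * a j + z2 * b j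

theorem plane_step [CompleteSpace X] (hX : IsoHom ℂ X) (hU : PropU ℂ ℂ X) {κ : ℝ} (hκ : 0 < κ)
    (hκ1 : κ ≤ 1) {x : Fin 3 → X} (hx : ∀ j, ‖x j‖ = 1) {R : Submodule ℂ X}
    (hRc : IsClosed (R : Set X)) (hRi : ¬ FiniteDimensional ℂ R) (hT : Tri κ x R)
    {a b : Fin 3 → ℝ} (haa : ∑ j, a j ^ 2 = 1) (hbb : ∑ j, b j ^ 2 = 1) (hab : ∑ j, a j * b j = 0)
    {ε : ℝ} (hε : 0 < ε) :
    ∃ α β γ δ : ℂ, (1 / 24 ≤ ‖β‖ ∨ 1 / 24 ≤ ‖γ‖ ∨ 1 / 24 ≤ ‖α - δ‖) ∧
      ∀ (t : ℝ) (z1 z2 : ℂ), ∀ w ∈ R,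
      ‖comb x (uf a b (z1 + (I * t) * (α * z1 + β * z2)) (z2 + (I * t) * (γ * z1 + δ * z2))) + w‖
        ≤ ((1 + κ) ^ 3 * Real.sqrt (1 + 9 * t ^ 2) + 32 * |t| * Real.sqrt κ + |t| * ε)
          * ‖comb x (uf a b z1 z2) + w‖ := by
  choose p hp using hT.exists_coord hκ1 hx hRc
  -- functionals on the ambient space
  let q1 : X →L[ℂ] ℂ := ∑ j, (a j : ℂ) • p j
  let q2 : X →L[ℂ] ℂ := ∑ j, (b j : ℂ) • p j
  have hq1 : ∀ z1 z2 : ℂ, ∀ w ∈ R, q1 (comb x (uf a b z1 z2) + w) = z1 := by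
    intro z1 z2 w hw
    have h1 : q1 (comb x (uf a b z1 z2) + w) = ∑ j, (a j : ℂ) * (z1 * a j + z2 * b j) := by
      simp only [q1, sum_apply, smul_apply, smul_eq_mul, hp _ _ w hw]
      rfl
    have h2 : ∑ j, (a j : ℂ) * (z1 * a j + z2 * b j)
        = z1 * ((∑ j, a j ^ 2 : ℝ) : ℂ) + z2 * ((∑ j, a j * b j : ℝ) : ℂ) := by
      push_cast
      rw [Finset.mul_sum, Finset.mul_sum, ← Finset.sum_add_distrib]
      apply Finset.sum_congr rfl
      intro j _; ring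
    rw [h1, h2, haa, hab]; simp
  have hq2 : ∀ z1 z2 : ℂ, ∀ w ∈ R, q2 (comb x (uf a b z1 z2) + w) = z2 := by
    intro z1 z2 w hw
    have h1 : q2 (comb x (uf a b z1 z2) + w) = ∑ j, (b j : ℂ) * (z1 * a j + z2 * b j) := by
      simp only [q2, sum_apply, smul_apply, smul_eq_mul, hp _ _ w hw]
      rfl
    have h2 : ∑ j, (b j : ℂ) * (z1 * a j + z2 * b j)
        = z1 * ((∑ j, a j * b j : ℝ) : ℂ) + z2 * ((∑ j, b j ^ 2 : ℝ) : ℂ) := by
      push_cast
      rw [Finset.mul_sum, Finset.mul_sum, ← Finset.sum_add_distrib]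
      apply Finset.sum_congr rfl
      intro j _; ring
    rw [h1, h2, hbb, hab]; simp
  set B1 := comb x (uf a b 1 0) with hB1
  set B2 := comb x (uf a b 0 1) with hB2
  have hcomb : ∀ z1 z2 : ℂ, comb x (uf a b z1 z2) = z1 • B1 + z2 • B2 := by
    intro z1 z2
    rw [hB1, hB2, ← map_smul, ← map_smul, ← map_add]
    congr 1
    funext j
    simp [uf]
  let Y : Submodule ℂ X := R ⊔ Submodule.span ℂ {B1, B2}
  have hYfd : FiniteDimensional ℂ (Submodule.span ℂ {B1, B2}) :=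
    FiniteDimensional.span_of_finite ℂ (by simp)
  have hYc : IsClosed (Y : Set X) := Submodule.isClosed_sup_finiteDimensional _ _ hRc
  have hYi : ¬ FiniteDimensional ℂ Y := by
    intro h
    exact hRi (Submodule.finiteDimensional_of_le (le_sup_left : R ≤ Y))
  have hYmem : ∀ y ∈ Y, ∃ z1 z2 : ℂ, ∃ w ∈ R, y = comb x (uf a b z1 z2) + w := by
    intro y hy
    obtain ⟨w, hw, v, hv, rfl⟩ := Submodule.mem_sup.mp hy
    obtain ⟨z1, z2, rfl⟩ := Submodule.mem_span_pair.mp hv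
    exact ⟨z1, z2, w, hw, by rw [hcomb, add_comm]⟩
  have hB1Y : B1 ∈ Y := (le_sup_right : _ ≤ Y) (Submodule.subset_span (by simp))
  have hB2Y : B2 ∈ Y := (le_sup_right : _ ≤ Y) (Submodule.subset_span (by simp))
  obtain ⟨τ⟩ := hX Y hYc hYi
  let inc : X →L[ℂ] X := Y.subtypeL.comp (τ : X →L[ℂ] Y)
  have hinc : ∀ y, inc y = ((τ y : Y) : X) := fun y => rfl
  have hincn : ∀ y, ‖inc y‖ = ‖y‖ := by
    intro y
    rw [hinc]
    exact τ.norm_map y
  set B1' : X := τ.symm ⟨B1, hB1Y⟩ with hB1'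
  set B2' : X := τ.symm ⟨B2, hB2Y⟩ with hB2'
  have hi1 : inc B1' = B1 := by rw [hinc, hB1', τ.apply_symm_apply]
  have hi2 : inc B2' = B2 := by rw [hinc, hB2', τ.apply_symm_apply]
  have e1 : B1 = comb x (uf a b 1 0) + 0 := by rw [add_zero]
  have e2 : B2 = comb x (uf a b 0 1) + 0 := by rw [add_zero]
  obtain ⟨α, β, γ, δ, hns, hfin⟩ := exists_nonscalar hU hκ hκ1 (q1.comp inc) (q2.comp inc) B1' B2'
    (by rw [ContinuousLinearMap.comp_apply, hi1, e1]; exact hq1 _ _ _ R.zero_mem)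
    (by rw [ContinuousLinearMap.comp_apply, hi2, e2]; exact hq1 _ _ _ R.zero_mem)
    (by rw [ContinuousLinearMap.comp_apply, hi1, e1]; exact hq2 _ _ _ R.zero_mem)
    (by rw [ContinuousLinearMap.comp_apply, hi2, e2]; exact hq2 _ _ _ R.zero_mem)
    (by
      intro μ hμ y
      obtain ⟨z1, z2, w, hw, hy⟩ := hYmem (inc y) (τ y).2
      rw [← hincn y, ← hincn (_ + _)]
      have h1 : inc (μ • ((q1.comp inc) y • B1' + (q2.comp inc) y • B2')
          + (y - ((q1.comp inc) y • B1' + (q2.comp inc) y • B2')))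
          = comb x (fun j => μ * uf a b z1 z2 j) + w := by
        have c1 : (q1.comp inc) y = z1 := by
          change q1 (inc y) = z1
          rw [hy]; exact hq1 _ _ _ hw
        have c2 : (q2.comp inc) y = z2 := by
          change q2 (inc y) = z2
          rw [hy]; exact hq2 _ _ _ hw
        rw [c1, c2, map_add, map_smul, map_sub, map_add, map_smul, map_smul, hi1, hi2, hy, ← hcomb]
        have : (fun j => μ * uf a b z1 z2 j) = μ • uf a b z1 z2 := rfl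
        rw [this, map_smul]
        abel
      rw [h1, hy]
      exact hT _ (fun _ => μ) (fun _ => hμ) w hw) hε
  refine ⟨α, β, γ, δ, hns, fun t z1 z2 w hw => ?_⟩
  have hmemY : comb x (uf a b z1 z2) + w ∈ Y := by
    apply Submodule.add_mem
    · rw [hcomb]
      exact Submodule.add_mem _ (Y.smul_mem _ hB1Y) (Y.smul_mem _ hB2Y)
    · exact (le_sup_left : R ≤ Y) hw
  set y : X := τ.symm ⟨_, hmemY⟩ with hy
  have hiy : inc y = comb x (uf a b z1 z2) + w := by rw [hinc, hy, τ.apply_symm_apply]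
  have h1 := hfin t y
  have c1 : (q1.comp inc) y = z1 := by
    change q1 (inc y) = z1
    rw [hiy]; exact hq1 _ _ _ hw
  have c2 : (q2.comp inc) y = z2 := by
    change q2 (inc y) = z2
    rw [hiy]; exact hq2 _ _ _ hw
  rw [c1, c2, ← hincn y, ← hincn (_ + _), map_add, map_smul, map_add, map_smul, map_smul, hi1, hi2,
    hiy] at h1
  have h2 : comb x (uf a b (z1 + (I * t) * (α * z1 + β * z2)) (z2 + (I * t) * (γ * z1 + δ * z2))) + w
      = comb x (uf a b z1 z2) + w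
        + (I * ↑t) • ((α * z1 + β * z2) • B1 + (γ * z1 + δ * z2) • B2) := by
    rw [hcomb, hcomb]
    module
  rw [h2]
  exact h1

end triple

end PoolAgent.MP_df72c7_an
end

section

/-!
# Existence of a relatively Hilbertian plane
-/

namespace PoolAgent.MP_df72c7_an

open Complex Filter Topology Set

section plane

/-- the first frame vector -/
noncomputable def fa (s t : ℝ) : Fin 3 → ℝ :=
  ![Real.cos (Real.pi * s / 2) * Real.cos (Real.pi * t / 2),
    Real.cos (Real.pi * s / 2) * Real.sin (Real.pi * t / 2), -Real.sin (Real.pi * s / 2)]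

/-- the second frame vector -/
noncomputable def fb (t : ℝ) : Fin 3 → ℝ :=
  ![-Real.sin (Real.pi * t / 2), Real.cos (Real.pi * t / 2), 0]

theorem fa_sq (s t : ℝ) : ∑ j, fa s t j ^ 2 = 1 := by
  rw [Fin.sum_univ_three]
  simp only [fa, Matrix.cons_val_zero, Matrix.cons_val_one, Matrix.cons_val_two, Matrix.head_cons,
    Matrix.tail_cons]
  have h1 := Real.cos_sq_add_sin_sq (Real.pi * s / 2)
  have h2 := Real.cos_sq_add_sin_sq (Real.pi * t / 2)
  linear_combination (Real.cos (Real.pi * s / 2) ^ 2) * h2 + h1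

theorem fb_sq (t : ℝ) : ∑ j, fb t j ^ 2 = 1 := by
  rw [Fin.sum_univ_three]
  simp only [fb, Matrix.cons_val_zero, Matrix.cons_val_one, Matrix.cons_val_two, Matrix.head_cons,
    Matrix.tail_cons]
  have h2 := Real.cos_sq_add_sin_sq (Real.pi * t / 2)
  linear_combination h2

theorem fab (s t : ℝ) : ∑ j, fa s t j * fb t j = 0 := by
  rw [Fin.sum_univ_three]
  simp only [fa, fb, Matrix.cons_val_zero, Matrix.cons_val_one, Matrix.cons_val_two,
    Matrix.head_cons, Matrix.tail_cons]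
  ring

/-- the frame as a linear map -/
noncomputable def uL (a b : Fin 3 → ℝ) : (ℂ × ℂ) →ₗ[ℂ] (Fin 3 → ℂ) where
  toFun z := uf a b z.1 z.2
  map_add' z w := by funext j; simp [uf]; ring
  map_smul' c z := by funext j; simp [uf]; ring

theorem uL_apply (a b : Fin 3 → ℝ) (z : ℂ × ℂ) (j : Fin 3) :
    uL a b z j = z.1 * a j + z.2 * b j := rfl

/-- general 2×2 matrices as maps -/
noncomputable def Mat (α β γ δ : ℂ) : (ℂ × ℂ) →ₗ[ℂ] (ℂ × ℂ) where
  toFun z := (α * z.1 + β * z.2, γ * z.1 + δ * z.2)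
  map_add' z w := by ext <;> simp <;> ring
  map_smul' c z := by ext <;> simp <;> ring

theorem Mat_apply (α β γ δ : ℂ) (z : ℂ × ℂ) :
    Mat α β γ δ z = (α * z.1 + β * z.2, γ * z.1 + δ * z.2) := rfl

/-- trace free matrices -/
noncomputable def MT (m : TF) : (ℂ × ℂ) →ₗ[ℂ] (ℂ × ℂ) := Mat m.1 m.2.1 m.2.2 (-m.1)

theorem MT_apply (m : TF) (z : ℂ × ℂ) :
    MT m z = (m.1 * z.1 + m.2.1 * z.2, m.2.2 * z.1 - m.1 * z.2) := by
  rw [MT, Mat_apply]; congr 1; ring

/-- determinant (up to sign) -/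
def dt (m : TF) : ℂ := m.1 ^ 2 + m.2.1 * m.2.2

theorem MT_MT (m : TF) (z : ℂ × ℂ) : MT m (MT m z) = dt m • z := by
  rw [MT_apply, MT_apply, dt]
  ext
  · simp; ring
  · simp; ring

theorem MT_anti (m m' : TF) (z : ℂ × ℂ) : MT m (MT m' z) + MT m' (MT m z)
    = (2 * (m.1 * m'.1 + (m.2.1 * m'.2.2 + m.2.2 * m'.2.1) / 2)) • z := by
  simp only [MT_apply]
  ext
  · simp; ring
  · simp; ring

theorem MT_inj {m m' : TF} (h : ∀ z, MT m z = MT m' z) : m = m' := by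
  have h1 := h (1, 0)
  have h2 := h (0, 1)
  simp only [MT_apply, mul_one, mul_zero, add_zero, zero_add, sub_zero, Prod.mk.injEq] at h1 h2
  obtain ⟨p, q, r⟩ := m
  obtain ⟨p', q', r'⟩ := m'
  simp only [Prod.mk.injEq]
  exact ⟨h1.1, h2.1, h1.2⟩

/-- Assumptions on the family of functions on `ℂ³`. -/
structure Fam3 (Φ : Set ((Fin 3 → ℂ) → ℝ)) : Prop extends Fam Φ where
  torus : ∀ φ ∈ Φ, ∀ μ : Fin 3 → ℂ, (∀ j, ‖μ j‖ = 1) → ∀ x, φ (fun j => μ j * x j) ≤ φ x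

/-- The family on the plane. -/
def Pl (Φ : Set ((Fin 3 → ℂ) → ℝ)) (a b : Fin 3 → ℝ) : Set (ℂ × ℂ → ℝ) :=
  (fun φ z => φ (uL a b z)) '' Φ

variable {Φ : Set ((Fin 3 → ℂ) → ℝ)}

theorem uL_lower {a b : Fin 3 → ℝ} (haa : ∑ j, a j ^ 2 = 1) (hbb : ∑ j, b j ^ 2 = 1)
    (hab : ∑ j, a j * b j = 0) (z : ℂ × ℂ) : ‖z‖ ≤ 3 * ‖uL a b z‖ := by
  have ha : ∀ j, |a j| ≤ 1 := by
    intro j
    rw [← sq_le_one_iff_abs_le_one]
    calc a j ^ 2 ≤ ∑ j, a j ^ 2 := Finset.single_le_sum (fun i _ => sq_nonneg (a i)) (Finset.mem_univ j)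
      _ = 1 := haa
  have hb : ∀ j, |b j| ≤ 1 := by
    intro j
    rw [← sq_le_one_iff_abs_le_one]
    calc b j ^ 2 ≤ ∑ j, b j ^ 2 := Finset.single_le_sum (fun i _ => sq_nonneg (b i)) (Finset.mem_univ j)
      _ = 1 := hbb
  have h1 : z.1 = ∑ j, (a j : ℂ) * uL a b z j := by
    have h2 : ∑ j, (a j : ℂ) * (z.1 * a j + z.2 * b j)
        = z.1 * ((∑ j, a j ^ 2 : ℝ) : ℂ) + z.2 * ((∑ j, a j * b j : ℝ) : ℂ) := by
      push_cast
      rw [Finset.mul_sum, Finset.mul_sum, ← Finset.sum_add_distrib]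
      apply Finset.sum_congr rfl
      intro j _; ring
    simp only [uL_apply]
    rw [h2, haa, hab]; simp
  have h2 : z.2 = ∑ j, (b j : ℂ) * uL a b z j := by
    have h2 : ∑ j, (b j : ℂ) * (z.1 * a j + z.2 * b j)
        = z.1 * ((∑ j, a j * b j : ℝ) : ℂ) + z.2 * ((∑ j, b j ^ 2 : ℝ) : ℂ) := by
      push_cast
      rw [Finset.mul_sum, Finset.mul_sum, ← Finset.sum_add_distrib]
      apply Finset.sum_congr rfl
      intro j _; ring
    simp only [uL_apply]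
    rw [h2, hbb, hab]; simp
  have key : ∀ c : Fin 3 → ℝ, (∀ j, |c j| ≤ 1) → ‖∑ j, (c j : ℂ) * uL a b z j‖ ≤ 3 * ‖uL a b z‖ := by
    intro c hc
    calc ‖∑ j, (c j : ℂ) * uL a b z j‖ ≤ ∑ j : Fin 3, ‖uL a b z‖ := by
          apply norm_sum_le_of_le
          intro j _
          rw [norm_mul, Complex.norm_real, Real.norm_eq_abs]
          calc |c j| * ‖uL a b z j‖ ≤ 1 * ‖uL a b z‖ :=
                mul_le_mul (hc j) (norm_le_pi_norm _ j) (norm_nonneg _) zero_le_one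
            _ = _ := one_mul _
      _ = 3 * ‖uL a b z‖ := by simp
  rw [Prod.norm_def]
  apply max_le
  · rw [h1]; exact key a ha
  · rw [h2]; exact key b hb

theorem Nice.comp {V W : Type*} [NormedAddCommGroup V] [NormedSpace ℂ V] [NormedAddCommGroup W]
    [NormedSpace ℂ W] {ψ : W → ℝ} (h : Nice ψ) (u : V →ₗ[ℂ] W) (hu : Continuous u) :
    Nice (fun z => ψ (u z)) where
  cont := h.cont.comp hu
  nonneg x := h.nonneg _
  conv x y := by rw [map_smul, map_add]; exact h.conv _ _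
  scal c x hc := by rw [map_smul]; exact h.scal _ _ hc

theorem fam_plane (hΦ : Fam3 Φ) {a b : Fin 3 → ℝ} (haa : ∑ j, a j ^ 2 = 1)
    (hbb : ∑ j, b j ^ 2 = 1) (hab : ∑ j, a j * b j = 0) : Fam (Pl Φ a b) where
  nice := by
    rintro _ ⟨φ, hφ, rfl⟩
    exact (hΦ.nice φ hφ).comp _ (LinearMap.continuous_of_finiteDimensional _)
  pos := by
    obtain ⟨φ, hφ, hφ'⟩ := hΦ.pos
    obtain ⟨k, hk, hkb⟩ := hφ'.bound
    refine ⟨_, ⟨φ, hφ, rfl⟩, ⟨fun c x => by simp only [map_smul]; exact hφ'.hom _ _,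
      k / 3, by positivity, fun z => ?_⟩⟩
    have h1 := uL_lower haa hbb hab z
    have h2 := hkb (uL a b z)
    calc k / 3 * ‖z‖ ≤ k / 3 * (3 * ‖uL a b z‖) := by gcongr
      _ = k * ‖uL a b z‖ := by ring
      _ ≤ _ := h2

theorem NH_of_sign (hΦ : Fam3 Φ) {a b : Fin 3 → ℝ} {A : (ℂ × ℂ) →ₗ[ℂ] (ℂ × ℂ)} {e : Fin 3 → ℝ}
    (he : ∀ j, e j ^ 2 = 1) (hA : ∀ z j, uL a b (A z) j = e j * uL a b z j) :
    ∀ φ ∈ Pl Φ a b, NH 1 A φ := by
  rintro _ ⟨φ, hφ, rfl⟩ t z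
  set c := Real.sqrt (1 + 1 * t ^ 2) with hc
  have hc1 : 1 ≤ c := Real.one_le_sqrt.mpr (by nlinarith [sq_nonneg t])
  have hcc : (c : ℂ) ≠ 0 := by
    have : c ≠ 0 := by linarith
    exact_mod_cast this
  have hcn : ‖(c : ℂ)‖ = c := by
    rw [Complex.norm_real, Real.norm_eq_abs, abs_of_nonneg (by linarith)]
  let μ : Fin 3 → ℂ := fun j => (1 + I * ((t * e j : ℝ) : ℂ)) / c
  have hμ : ∀ j, ‖μ j‖ = 1 := by
    intro j
    simp only [μ]
    rw [norm_div, one_add_I_norm, hcn]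
    have : 1 + (t * e j) ^ 2 = 1 + 1 * t ^ 2 := by rw [mul_pow, he]; ring
    rw [this, ← hc, div_self (by linarith)]
  have h1 : uL a b (z + (I * t) • A z) = (c : ℂ) • (fun j => μ j * uL a b z j) := by
    rw [map_add, map_smul]
    funext j
    simp only [Pi.add_apply, Pi.smul_apply, smul_eq_mul, hA, μ]
    push_cast
    field_simp
  change φ (uL a b (z + (I * t) • A z)) ≤ c * φ (uL a b z)
  rw [h1]
  refine ((hΦ.nice φ hφ).scal _ _ (by rw [hcn]; exact hc1)).trans ?_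
  rw [hcn]
  exact mul_le_mul_of_nonneg_left (hΦ.torus φ hφ μ hμ _) (by linarith)

/-- the involutions at the point `(s,t)` -/
def SS (Φ : Set ((Fin 3 → ℂ) → ℝ)) (s t : ℝ) : Set TF :=
  {m | dt m = 1 ∧ ∀ φ ∈ Pl Φ (fa s t) (fb t), NH 1 (MT m) φ}

/-- A relatively Hilbertian plane. -/
def HilbPlane (Φ : Set ((Fin 3 → ℂ) → ℝ)) : Prop :=
  ∃ v1 v2 : Fin 3 → ℂ, v1 ≠ 0 ∧ ∀ φ ∈ Φ, ∀ z1 z2 : ℂ,
    φ (z1 • v1 + z2 • v2) = φ (((Real.sqrt (‖z1‖ ^ 2 + ‖z2‖ ^ 2) : ℝ) : ℂ) • v1)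

theorem MT_smul (c : ℂ) (m : TF) (z : ℂ × ℂ) : MT (c • m) z = c • MT m z := by
  rw [MT_apply, MT_apply]
  ext
  · simp; ring
  · simp; ring

theorem MT_neg (m : TF) (z : ℂ × ℂ) : MT (-m) z = -MT m z := by
  rw [MT_apply, MT_apply]
  ext
  · simp; ring
  · simp; ring

theorem SS_nonempty (hΦ : Fam3 Φ) {s t : ℝ} {α β γ δ : ℂ}
    (hns : β ≠ 0 ∨ γ ≠ 0 ∨ α ≠ δ) (hN : NHf (Pl Φ (fa s t) (fb t)) (Mat α β γ δ)) :
    (SS Φ s t).Nonempty := by
  have hF := fam_plane hΦ (fa_sq s t) (fb_sq t) (fab s t)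
  set m : TF := ((α - δ) / 2, β, γ) with hm
  obtain ⟨d, hd0, hd, hB⟩ := exists_involution hF (B := MT m) (m := (α + δ) / 2) (ρ := dt m) hN
    (by
      intro x
      rw [Mat_apply, MT_apply]
      ext
      · simp [hm]; ring
      · simp [hm]; ring) (MT_MT m) (by
      intro c
      by_contra hcon
      push Not at hcon
      have h1 := hcon (1, 0)
      have h2 := hcon (0, 1)
      simp only [MT_apply, hm, mul_one, mul_zero, add_zero, zero_add, sub_zero, zero_sub,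
        Prod.smul_mk, smul_eq_mul, Prod.mk.injEq] at h1 h2
      have h3 : α = δ := by linear_combination h1.1 - h2.2
      rcases hns with h | h | h
      · exact h h2.1
      · exact h h1.2
      · exact h h3)
  have hdc : (d : ℂ) ≠ 0 := by exact_mod_cast hd0
  refine ⟨((1 / d : ℝ) : ℂ) • m, ?_, ?_⟩
  · have h1 : dt (((1 / d : ℝ) : ℂ) • m) = ((1 / d : ℝ) : ℂ) ^ 2 * dt m := by
      simp only [dt, Prod.smul_fst, Prod.smul_snd, smul_eq_mul]; ring
    rw [h1, hd]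
    push_cast
    field_simp
  · have h1 : ∀ z, MT (((1 / d : ℝ) : ℂ) • m) z = ((1 / d : ℝ) : ℂ) • MT m z := MT_smul _ _
    obtain ⟨C, hC, h2⟩ := (hB.smul (1 / d)).congr (fun z => (h1 z).symm)
    intro φ hφ
    refine (h2 φ hφ).upgrade hC (hF.nice φ hφ) ?_
    intro z
    rw [MT_MT]
    have h1 : dt (((1 / d : ℝ) : ℂ) • m) = ((1 / d : ℝ) : ℂ) ^ 2 * dt m := by
      simp only [dt, Prod.smul_fst, Prod.smul_snd, smul_eq_mul]; ring
    rw [h1, hd]
    have : ((1 / d : ℝ) : ℂ) ^ 2 * (d : ℂ) ^ 2 = 1 := by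
      push_cast
      field_simp
    rw [this, one_smul]

theorem SS_pm (hΦ : Fam3 Φ) (hno : ¬ HilbPlane Φ) {s t : ℝ} {m m' : TF} (hm : m ∈ SS Φ s t)
    (hm' : m' ∈ SS Φ s t) : m' = m ∨ m' = -m := by
  have hF := fam_plane hΦ (fa_sq s t) (fb_sq t) (fab s t)
  by_contra hcon
  push Not at hcon
  obtain ⟨hc1, hc2⟩ := hcon
  obtain ⟨v1, v2, hv1, h⟩ := hilbert_of_two hF (σ := MT m) (σ' := MT m')
    (s := m.1 * m'.1 + (m.2.1 * m'.2.2 + m.2.2 * m'.2.1) / 2)
    (by intro x; rw [MT_MT, hm.1, one_smul]) (by intro x; rw [MT_MT, hm'.1, one_smul])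
    (MT_anti m m') (by
      by_contra hcon
      push Not at hcon
      exact hc1 (MT_inj hcon)) (by
      by_contra hcon
      push Not at hcon
      exact hc2 (MT_inj fun z => by rw [hcon, MT_neg]))
    ⟨1, zero_le_one, hm.2⟩ ⟨1, zero_le_one, hm'.2⟩
  apply hno
  refine ⟨uL (fa s t) (fb t) v1, uL (fa s t) (fb t) v2, ?_, ?_⟩
  · intro h0
    have h1 := uL_lower (fa_sq s t) (fb_sq t) (fab s t) v1
    rw [h0, norm_zero, mul_zero] at h1
    exact hv1 (norm_le_zero_iff.mp h1)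
  · intro φ hφ z1 z2
    have h1 := h _ ⟨φ, hφ, rfl⟩ z1 z2
    simp only [map_add, map_smul] at h1
    exact h1

theorem SS_neg {s t : ℝ} {m : TF} (hm : m ∈ SS Φ s t) : -m ∈ SS Φ s t := by
  refine ⟨?_, fun φ hφ τ x => ?_⟩
  · have := hm.1
    simp only [dt, Prod.fst_neg, Prod.snd_neg] at this ⊢
    linear_combination this
  · have h1 := hm.2 φ hφ (-τ) x
    rw [MT_neg]
    have h2 : x + (I * (τ : ℂ)) • -MT m x = x + (I * ((-τ : ℝ) : ℂ)) • MT m x := by
      push_cast; module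
    rw [h2]
    refine h1.trans_eq ?_
    congr 2
    ring

theorem SS_norm {s t : ℝ} {m : TF} (hm : m ∈ SS Φ s t) : 1 / 2 ≤ ‖m‖ := by
  by_contra hcon
  push Not at hcon
  have h1 : ‖m.1‖ ≤ ‖m‖ := norm_fst_le m
  have h2 : ‖m.2.1‖ ≤ ‖m‖ := (norm_fst_le m.2).trans (norm_snd_le m)
  have h3 : ‖m.2.2‖ ≤ ‖m‖ := (norm_snd_le m.2).trans (norm_snd_le m)
  have h4 : (1 : ℝ) ≤ ‖m.1‖ ^ 2 + ‖m.2.1‖ * ‖m.2.2‖ := by
    have := hm.1
    rw [dt] at this
    calc (1 : ℝ) = ‖m.1 ^ 2 + m.2.1 * m.2.2‖ := by rw [this, norm_one]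
      _ ≤ ‖m.1 ^ 2‖ + ‖m.2.1 * m.2.2‖ := norm_add_le _ _
      _ = _ := by rw [norm_pow, norm_mul]
  have h5 : ‖m.1‖ ^ 2 ≤ (1 / 2) ^ 2 := by
    apply pow_le_pow_left₀ (norm_nonneg _); linarith
  have h6 : ‖m.2.1‖ * ‖m.2.2‖ ≤ (1 / 2) * (1 / 2) := by
    apply mul_le_mul (by linarith) (by linarith) (norm_nonneg _) (by norm_num)
  linarith

theorem uL_upper (s t : ℝ) (z : ℂ × ℂ) : ‖uL (fa s t) (fb t) z‖ ≤ 2 * ‖z‖ := by
  have ha : ∀ j, |fa s t j| ≤ 1 := by
    intro j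
    rw [← sq_le_one_iff_abs_le_one]
    calc fa s t j ^ 2 ≤ ∑ j, fa s t j ^ 2 :=
          Finset.single_le_sum (fun i _ => sq_nonneg (fa s t i)) (Finset.mem_univ j)
      _ = 1 := fa_sq s t
  have hb : ∀ j, |fb t j| ≤ 1 := by
    intro j
    rw [← sq_le_one_iff_abs_le_one]
    calc fb t j ^ 2 ≤ ∑ j, fb t j ^ 2 :=
          Finset.single_le_sum (fun i _ => sq_nonneg (fb t i)) (Finset.mem_univ j)
      _ = 1 := fb_sq t
  rw [pi_norm_le_iff_of_nonneg (by positivity)]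
  intro j
  rw [uL_apply]
  refine (norm_add_le _ _).trans ?_
  rw [norm_mul, norm_mul, Complex.norm_real, Complex.norm_real, Real.norm_eq_abs, Real.norm_eq_abs]
  have h1 := norm_fst_le z
  have h2 := norm_snd_le z
  have h3 : ‖z.1‖ * |fa s t j| ≤ ‖z‖ * 1 := mul_le_mul h1 (ha j) (abs_nonneg _) (norm_nonneg _)
  have h4 : ‖z.2‖ * |fb t j| ≤ ‖z‖ * 1 := mul_le_mul h2 (hb j) (abs_nonneg _) (norm_nonneg _)
  linarith

theorem Posi.upper {φ : (Fin 3 → ℂ) → ℝ} (h : Nice φ) (h' : Posi φ) :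
    ∃ K : ℝ, 0 < K ∧ ∀ x, φ x ≤ K * ‖x‖ := by
  obtain ⟨K, hK⟩ := (isCompact_closedBall (0 : Fin 3 → ℂ) 1).bddAbove_image h.cont.continuousOn
  refine ⟨max K 1, by positivity, fun x => ?_⟩
  by_cases hx : x = 0
  · have h0 := h'.hom 0 0
    rw [zero_smul, norm_zero, zero_mul] at h0
    rw [hx, h0, norm_zero, mul_zero]
  · have hx0 : 0 < ‖x‖ := norm_pos_iff.mpr hx
    have h1 : φ (((‖x‖⁻¹ : ℝ) : ℂ) • x) ≤ K := by
      apply hK
      refine ⟨_, ?_, rfl⟩
      rw [mem_closedBall_zero_iff, norm_smul, Complex.norm_real, Real.norm_eq_abs,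
        abs_of_pos (inv_pos.mpr hx0), inv_mul_cancel₀ hx0.ne']
    rw [h'.hom, Complex.norm_real, Real.norm_eq_abs, abs_of_pos (inv_pos.mpr hx0)] at h1
    have h2 : φ x ≤ K * ‖x‖ := by
      rw [inv_mul_le_iff₀ hx0] at h1
      linarith
    exact h2.trans (mul_le_mul_of_nonneg_right (le_max_left _ _) hx0.le)

theorem SS_compact (hΦ : Fam3 Φ) :
    IsCompact {x : (ℝ × ℝ) × TF | Sq x.1.1 x.1.2 ∧ x.2 ∈ SS Φ x.1.1 x.1.2} := by
  apply Metric.isCompact_of_isClosed_isBounded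
  · -- closed
    have h1 : {x : (ℝ × ℝ) × TF | Sq x.1.1 x.1.2 ∧ x.2 ∈ SS Φ x.1.1 x.1.2}
        = {x : (ℝ × ℝ) × TF | x.1.1 ∈ Icc (0 : ℝ) 1 ∧ x.1.2 ∈ Icc (0 : ℝ) 1}
          ∩ ({x : (ℝ × ℝ) × TF | dt x.2 = 1} ∩ ⋂ φ ∈ Φ, ⋂ τ : ℝ, ⋂ z : ℂ × ℂ,
            {x : (ℝ × ℝ) × TF | φ (uL (fa x.1.1 x.1.2) (fb x.1.2) (z + (I * τ) • MT x.2 z))
              ≤ Real.sqrt (1 + 1 * τ ^ 2) * φ (uL (fa x.1.1 x.1.2) (fb x.1.2) z)}) := by
      ext x
      simp only [mem_ofPred_eq, mem_inter_iff, mem_iInter, SS, Sq, Pl, mem_image,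
        forall_exists_index, and_imp, forall_apply_eq_imp_iff₂, NH]
    rw [h1]
    apply IsClosed.inter
    · exact (isClosed_Icc.preimage continuous_fst.fst).inter
        (isClosed_Icc.preimage continuous_fst.snd)
    · apply IsClosed.inter
      · apply isClosed_eq _ continuous_const
        unfold dt
        fun_prop
      · refine isClosed_biInter fun φ hφ => isClosed_iInter fun τ => isClosed_iInter fun z => ?_
        have hc := (hΦ.nice φ hφ).cont
        have hu : ∀ f : (ℝ × ℝ) × TF → ℂ × ℂ, Continuous f →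
            Continuous fun x : (ℝ × ℝ) × TF => uL (fa x.1.1 x.1.2) (fb x.1.2) (f x) := by
          intro f hf
          apply continuous_pi
          intro j
          simp only [uL_apply]
          have e1 : Continuous fun x : (ℝ × ℝ) × TF => fa x.1.1 x.1.2 j := by
            fin_cases j
            · simp only [fa]; simp; fun_prop
            · simp only [fa]; simp; fun_prop
            · simp only [fa]; simp; fun_prop
          have e2 : Continuous fun x : (ℝ × ℝ) × TF => fb x.1.2 j := by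
            fin_cases j
            · simp only [fb]; simp; fun_prop
            · simp only [fb]; simp; fun_prop
            · simp only [fb]; simp; fun_prop
          fun_prop
        apply isClosed_le
        · apply hc.comp
          apply hu
          simp only [MT_apply]
          fun_prop
        · exact continuous_const.mul (hc.comp (hu _ continuous_const))
  · -- bounded
    obtain ⟨φ, hφ, hφ'⟩ := hΦ.pos
    obtain ⟨K, hK, hKb⟩ := hφ'.upper (hΦ.nice φ hφ)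
    obtain ⟨k, hk, hkb⟩ := hφ'.bound
    rw [isBounded_iff_forall_norm_le]
    refine ⟨max 1 (18 * K / k), ?_⟩
    rintro ⟨⟨s, t⟩, m⟩ ⟨⟨hs, ht⟩, hm⟩
    have hs : s ∈ Icc (0 : ℝ) 1 := hs
    have ht : t ∈ Icc (0 : ℝ) 1 := ht
    have hm : m ∈ SS Φ s t := hm
    rw [Prod.norm_def]
    apply max_le
    · apply le_max_of_le_left
      rw [Prod.norm_def]
      apply max_le
      · rw [Real.norm_eq_abs]; exact abs_le.mpr ⟨by linarith [hs.1], hs.2⟩
      · rw [Real.norm_eq_abs]; exact abs_le.mpr ⟨by linarith [ht.1], ht.2⟩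
    · apply le_max_of_le_right
      -- bound of the values
      have h1 : ∀ z : ℂ × ℂ, ‖z‖ ≤ 1 → ‖MT m z‖ ≤ 18 * K / k := by
        intro z hz
        set u := uL (fa s t) (fb t) with hu
        have h2 := hm.2 _ ⟨φ, hφ, rfl⟩ 1 z
        have h3 : φ (u (I • MT m z)) ≤ φ (u (z + (I * ((1 : ℝ) : ℂ)) • MT m z)) + φ (u z) := by
          have h4 := (hΦ.nice φ hφ).conv (u (z + (I * ((1 : ℝ) : ℂ)) • MT m z)) (u (-z))
          have h5 : (1 / 2 : ℂ) • (u (z + (I * ((1 : ℝ) : ℂ)) • MT m z) + u (-z))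
              = (1 / 2 : ℂ) • u (I • MT m z) := by
            rw [← map_add]
            congr 2
            push_cast
            module
          rw [h5, hφ'.hom] at h4
          have h6 : φ (u (-z)) = φ (u z) := by
            rw [map_neg, ← neg_one_smul ℂ (u z), hφ'.hom]; simp
          rw [h6] at h4
          have h7 : ‖(1 / 2 : ℂ)‖ = 1 / 2 := by norm_num
          rw [h7] at h4
          linarith
        have h4 : φ (u z) ≤ 2 * K := by
          calc φ (u z) ≤ K * ‖u z‖ := hKb _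
            _ ≤ K * (2 * 1) := by
              gcongr
              exact (uL_upper s t z).trans (by linarith)
            _ = _ := by ring
        have h5 : Real.sqrt (1 + 1 * (1 : ℝ) ^ 2) ≤ 2 := by
          rw [Real.sqrt_le_left (by norm_num)]; norm_num
        have h6 : φ (u (I • MT m z)) ≤ 6 * K := by
          have h7 : φ (u z) ≥ 0 := (hΦ.nice φ hφ).nonneg _
          have h8 : φ (u (z + (I * ((1 : ℝ) : ℂ)) • MT m z)) ≤ 2 * φ (u z) :=
            h2.trans (mul_le_mul_of_nonneg_right h5 h7)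
          linarith
        have h7 : φ (u (I • MT m z)) = φ (u (MT m z)) := by
          rw [map_smul, hφ'.hom, Complex.norm_I, one_mul]
        rw [h7] at h6
        have h8 := (hkb (u (MT m z))).trans h6
        have h9 := uL_lower (fa_sq s t) (fb_sq t) (fab s t) (MT m z)
        rw [le_div_iff₀ hk]
        calc ‖MT m z‖ * k ≤ (3 * ‖u (MT m z)‖) * k := by gcongr
          _ = 3 * (k * ‖u (MT m z)‖) := by ring
          _ ≤ 3 * (6 * K) := by gcongr
          _ = 18 * K := by ring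
      have h2 := h1 (1, 0) (by simp)
      have h3 := h1 (0, 1) (by simp)
      rw [MT_apply] at h2 h3
      simp only [mul_one, mul_zero, add_zero, zero_add, sub_zero, zero_sub] at h2 h3
      rw [Prod.norm_def, Prod.norm_def]
      apply max_le
      · exact (norm_fst_le (m.1, m.2.2)).trans h2
      · apply max_le
        · exact (norm_fst_le (m.2.1, -m.1)).trans h3
        · exact (norm_snd_le (m.1, m.2.2)).trans h2

theorem Dg_mem (hΦ : Fam3 Φ) {s t : ℝ} {e : Fin 3 → ℝ} (he : ∀ j, e j ^ 2 = 1)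
    (h : ∀ j, fa s t j = e j * fa s t j ∧ -fb t j = e j * fb t j) : Dg ∈ SS Φ s t := by
  refine ⟨by simp [dt, Dg], ?_⟩
  apply NH_of_sign hΦ he
  intro z j
  rw [MT_apply, uL_apply, uL_apply]
  obtain ⟨h1, h2⟩ := h j
  have h1' : (fa s t j : ℂ) = e j * fa s t j := by exact_mod_cast h1
  have h2' : -(fb t j : ℂ) = e j * fb t j := by exact_mod_cast h2
  simp only [Dg]
  linear_combination z.1 * h1' + z.2 * h2'

/-- **Topological lemma.** -/
theorem exists_hilbPlane (hΦ : Fam3 Φ)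
    (hns : ∀ s t, Sq s t → ∃ α β γ δ : ℂ, (β ≠ 0 ∨ γ ≠ 0 ∨ α ≠ δ) ∧
      NHf (Pl Φ (fa s t) (fb t)) (Mat α β γ δ)) : HilbPlane Φ := by
  by_contra hno
  refine no_section (S := SS Φ) (SS_compact hΦ) ?_ ?_ ?_ ?_ ?_ ?_ ?_ ?_
  · intro s t hst
    obtain ⟨α, β, γ, δ, h1, h2⟩ := hns s t hst
    exact SS_nonempty hΦ h1 h2
  · intro s t _ m hm m' hm'
    exact SS_pm hΦ hno hm hm'
  · intro s t _ m hm
    exact SS_neg hm
  · intro s t _ m hm
    exact SS_norm hm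
  · intro s _
    apply Dg_mem hΦ (e := ![1, -1, 1]) (by intro j; fin_cases j <;> simp)
    intro j
    fin_cases j <;> simp [fa, fb]
  · intro s _
    apply Dg_mem hΦ (e := ![-1, 1, 1]) (by intro j; fin_cases j <;> simp)
    intro j
    fin_cases j <;> simp [fa, fb]
  · intro t _
    apply Dg_mem hΦ (e := ![-1, -1, 1]) (by intro j; fin_cases j <;> simp)
    intro j
    fin_cases j <;> simp [fa, fb]
  · intro t _
    have h1 := Real.cos_sq_add_sin_sq (Real.pi * t / 2)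
    have hc : Real.cos (Real.pi * t) = 2 * Real.cos (Real.pi * t / 2) ^ 2 - 1 := by
      rw [← Real.cos_two_mul]; congr 1; ring
    have hs : Real.sin (Real.pi * t)
        = 2 * Real.sin (Real.pi * t / 2) * Real.cos (Real.pi * t / 2) := by
      rw [← Real.sin_two_mul]; congr 1; ring
    obtain ⟨C, hC⟩ : ∃ C : ℝ, C = Real.cos (Real.pi * t / 2) := ⟨_, rfl⟩
    obtain ⟨D, hD⟩ : ∃ D : ℝ, D = Real.sin (Real.pi * t / 2) := ⟨_, rfl⟩
    rw [← hC, ← hD] at h1 hs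
    rw [← hC] at hc
    have h1c : (C : ℂ) ^ 2 + (D : ℂ) ^ 2 = 1 := by exact_mod_cast h1
    have hRp : Rp t = ((2 * (C : ℂ) ^ 2 - 1), (-(2 * (D : ℂ) * C)), (-(2 * (D : ℂ) * C))) := by
      rw [Rp, hc, hs]; push_cast; rfl
    rw [hRp]
    refine ⟨?_, ?_⟩
    · simp only [dt]
      linear_combination (4 * (C : ℂ) ^ 2) * h1c
    · apply NH_of_sign hΦ (e := ![1, -1, 1]) (by intro j; fin_cases j <;> simp)
      intro z j
      rw [MT_apply, uL_apply, uL_apply]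
      fin_cases j
      · simp [fa, fb, ← hC, ← hD, -Complex.ofReal_cos, -Complex.ofReal_sin]
        linear_combination (2 * (C : ℂ) * z.1) * h1c
      · simp [fa, fb, ← hC, ← hD, -Complex.ofReal_cos, -Complex.ofReal_sin]
        linear_combination (-2 * (C : ℂ) * z.2) * h1c
      · simp [fa, fb]

end plane

end PoolAgent.MP_df72c7_an
end
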