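import Pool.Agent.Lib.MP_df72c7_an.CX13
import Pool.Agent.Lib.MP_df72c7_an.A7

section

/-!
# The ultralimit argument: almost `U(2)`-invariant planes exist
-/

namespace PoolAgent.MP_df72c7_an

open Complex Filter Topology TopologicalSpace

section bounds

variable {X : Type*} [NormedAddCommGroup X] [NormedSpace ℂ X]

theorem comb_norm_le {x : Fin 3 → X} (hx : ∀ j, ‖x j‖ = 1) (c : Fin 3 → ℂ) :
    ‖comb x c‖ ≤ 3 * ‖c‖ := by
  rw [comb_apply]
  have h : ∀ j, ‖c j • x j‖ ≤ ‖c‖ := fun j => by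
    rw [norm_smul, hx, mul_one]; exact norm_le_pi_norm c j
  have h1 := norm_add_le (c 0 • x 0 + c 1 • x 1) (c 2 • x 2)
  have h2 := norm_add_le (c 0 • x 0) (c 1 • x 1)
  have := h 0
  have := h 1
  have := h 2
  linarith

theorem Tri.lower {κ : ℝ} (hκ1 : κ ≤ 1) {x : Fin 3 → X} (hx : ∀ j, ‖x j‖ = 1)
    {R : Submodule ℂ X} (h : Tri κ x R) (c : Fin 3 → ℂ) {w : X} (hw : w ∈ R) :
    (2 / 3) * ‖c‖ ≤ ‖comb x c + w‖ := by
  have h1 : ‖c‖ ≤ (3 / 2) * ‖comb x c + w‖ := by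
    rw [pi_norm_le_iff_of_nonneg (by positivity)]
    intro j
    exact h.coeff hκ1 hx c hw j
  linarith

theorem Tri.scal {κ : ℝ} (hκ : 0 ≤ κ) {x : Fin 3 → X} {R : Submodule ℂ X} (h : Tri κ x R)
    (c : Fin 3 → ℂ) {w : X} (hw : w ∈ R) {a : ℂ} (ha : 1 ≤ ‖a‖) :
    ‖comb x (a • c) + w‖ ≤ ‖a‖ * ((1 + κ) * ‖comb x c + w‖) := by
  have ha0 : 0 < ‖a‖ := by linarith
  have hac : (‖a‖ : ℂ) ≠ 0 := by exact_mod_cast ha0.ne'
  set μ : ℂ := a / ‖a‖ with hμ
  have hμn : ‖μ‖ = 1 := by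
    rw [hμ, norm_div, Complex.norm_real, norm_norm, div_self ha0.ne']
  have h1 := h c (fun _ => μ) (fun _ => hμn) w hw
  have h2 := h c (fun _ => -μ) (fun _ => by rw [norm_neg, hμn]) w hw
  have e1 : (fun j => μ * c j) = μ • c := rfl
  have e2 : (fun j => -μ * c j) = -(μ • c) := by funext j; simp
  rw [e1] at h1
  rw [e2, map_neg] at h2
  have h3 : comb x (a • c) + w = (a / μ) • ((((1 + ‖a‖⁻¹) / 2 : ℝ) : ℂ) • (comb x (μ • c) + w)
      + (((1 - ‖a‖⁻¹) / 2 : ℝ) : ℂ) • (comb x (μ • c) - w)) := by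
    have hμ0 : μ ≠ 0 := by
      intro h0; rw [h0, norm_zero] at hμn; exact zero_ne_one hμn
    have haμ : a / μ = ‖a‖ := by
      rw [hμ]
      have : a ≠ 0 := norm_pos_iff.mp ha0
      field_simp
    rw [haμ, map_smul, map_smul]
    have e3 : (‖a‖ : ℂ) • ((((1 + ‖a‖⁻¹) / 2 : ℝ) : ℂ) • (μ • comb x c + w)
        + (((1 - ‖a‖⁻¹) / 2 : ℝ) : ℂ) • (μ • comb x c - w))
        = ((‖a‖ : ℂ) * μ) • comb x c + ((‖a‖ : ℂ) * (‖a‖ : ℂ)⁻¹) • w := by
      push_cast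
      module
    rw [e3, mul_inv_cancel₀ hac, one_smul]
    congr 2
    rw [hμ]; field_simp
  rw [h3, norm_smul]
  have haμn : ‖a / μ‖ = ‖a‖ := by rw [norm_div, hμn, div_one]
  rw [haμn]
  apply mul_le_mul_of_nonneg_left _ ha0.le
  have hi0 : 0 < ‖a‖⁻¹ := inv_pos.mpr ha0
  have hi1 : ‖a‖⁻¹ ≤ 1 := inv_le_one_of_one_le₀ ha
  refine (norm_add_le _ _).trans ?_
  rw [norm_smul, norm_smul, Complex.norm_real, Complex.norm_real, Real.norm_eq_abs,
    Real.norm_eq_abs, abs_of_nonneg (by linarith), abs_of_nonneg (by linarith)]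
  have h4 : ‖comb x (μ • c) - w‖ ≤ (1 + κ) * ‖comb x c + w‖ := by
    have : comb x (μ • c) - w = -(-comb x (μ • c) + w) := by abel
    rw [this, norm_neg]; exact h2
  have h5 := mul_le_mul_of_nonneg_left h1 (by linarith : 0 ≤ (1 + ‖a‖⁻¹) / 2)
  have h6 := mul_le_mul_of_nonneg_left h4 (by linarith : 0 ≤ (1 - ‖a‖⁻¹) / 2)
  linarith

end bounds

section ultra

theorem exists_ulim {E : Type*} [NormedAddCommGroup E] [ProperSpace E] (U : Ultrafilter ℕ)
    {a : ℕ → E} {B : ℝ} (hB : ∀ n, ‖a n‖ ≤ B) : ∃ l, Tendsto a U (𝓝 l) := by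
  have hc : IsCompact (Metric.closedBall (0 : E) B) := isCompact_closedBall 0 B
  obtain ⟨l, -, hl⟩ := hc.ultrafilter_le_nhds' (U.map a) (by
    rw [Ultrafilter.mem_map]
    exact Filter.univ_mem' fun n => by simpa using hB n)
  exact ⟨l, hl⟩

variable {X : Type*} [NormedAddCommGroup X] [NormedSpace ℂ X]

/-- data of the ultraproduct -/
structure UD (x : ℕ → Fin 3 → X) (R : ℕ → Submodule ℂ X) (κ : ℕ → ℝ) : Prop where
  hx : ∀ n j, ‖x n j‖ = 1
  hκ : ∀ n, 0 < κ n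
  hκ1 : ∀ n, κ n ≤ 1
  hlim : Tendsto κ atTop (𝓝 0)
  tri : ∀ n, Tri (κ n) (x n) (R n)

/-- The family of limit functions. -/
def UPhi (x : ℕ → Fin 3 → X) (R : ℕ → Submodule ℂ X) : Set ((Fin 3 → ℂ) → ℝ) :=
  {φ | ∃ w : ℕ → X, (∀ n, w n ∈ R n) ∧
    ∀ c, Tendsto (fun n => ‖comb (x n) c + w n‖) (hyperfilter ℕ : Filter ℕ) (𝓝 (φ c))}

variable {x : ℕ → Fin 3 → X} {R : ℕ → Submodule ℂ X} {κ : ℕ → ℝ}

theorem exists_phi (h : UD x R κ) {w : ℕ → X} (hw : ∀ n, w n ∈ R n) {B : ℝ}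
    (hB : ∀ n, ‖w n‖ ≤ B) : ∃ φ ∈ UPhi x R, ∀ c,
      Tendsto (fun n => ‖comb (x n) c + w n‖) (hyperfilter ℕ : Filter ℕ) (𝓝 (φ c)) := by
  have hex : ∀ c, ∃ l, Tendsto (fun n => ‖comb (x n) c + w n‖) (hyperfilter ℕ : Filter ℕ) (𝓝 l) := by
    intro c
    apply exists_ulim (hyperfilter ℕ) (B := 3 * ‖c‖ + B)
    intro n
    rw [norm_norm]
    exact (norm_add_le _ _).trans (add_le_add (comb_norm_le (h.hx n) c) (hB n))
  choose φ hφ using hex
  exact ⟨φ, ⟨w, hw, hφ⟩, hφ⟩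

theorem ulim_le_atTop : (hyperfilter ℕ : Filter ℕ) ≤ atTop := Nat.hyperfilter_le_atTop

theorem lim_close (h : UD x R κ) {w : ℕ → X} {φ : (Fin 3 → ℂ) → ℝ}
    (hφ : ∀ c, Tendsto (fun n => ‖comb (x n) c + w n‖) (hyperfilter ℕ : Filter ℕ) (𝓝 (φ c)))
    {c : ℕ → Fin 3 → ℂ} {c0 : Fin 3 → ℂ} (hc : Tendsto c (hyperfilter ℕ : Filter ℕ) (𝓝 c0)) :
    Tendsto (fun n => ‖comb (x n) (c n) + w n‖) (hyperfilter ℕ : Filter ℕ) (𝓝 (φ c0)) := by
  have h1 : Tendsto (fun n => ‖comb (x n) (c n) + w n‖ - ‖comb (x n) c0 + w n‖)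
      (hyperfilter ℕ : Filter ℕ) (𝓝 0) := by
    have h2 : Tendsto (fun n => 3 * ‖c n - c0‖) (hyperfilter ℕ : Filter ℕ) (𝓝 0) := by
      have := (hc.sub_const c0).norm.const_mul 3
      simpa using this
    refine squeeze_zero_norm (fun n => ?_) h2
    rw [Real.norm_eq_abs]
    refine (abs_norm_sub_norm_le _ _).trans ?_
    rw [add_sub_add_right_eq_sub, ← map_sub]
    exact comb_norm_le (h.hx n) _
  have := h1.add (hφ c0)
  simpa using this

theorem fam3_of_UD (h : UD x R κ) : Fam3 (UPhi x R) where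
  nice := by
    rintro φ ⟨w, hw, hφ⟩
    refine ⟨?_, ?_, ?_, ?_⟩
    · have : LipschitzWith 3 φ := by
        apply LipschitzWith.of_dist_le_mul
        intro c c'
        have h1 : Tendsto (fun n => |‖comb (x n) c + w n‖ - ‖comb (x n) c' + w n‖|)
            (hyperfilter ℕ : Filter ℕ) (𝓝 |φ c - φ c'|) := ((hφ c).sub (hφ c')).abs
        rw [Real.dist_eq, dist_eq_norm]
        refine le_of_tendsto h1 (Eventually.of_forall fun n => ?_)
        refine (abs_norm_sub_norm_le _ _).trans ?_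
        rw [add_sub_add_right_eq_sub, ← map_sub]
        exact comb_norm_le (h.hx n) _
      exact this.continuous
    · intro c
      exact ge_of_tendsto (hφ c) (Eventually.of_forall fun n => norm_nonneg _)
    · intro c c'
      refine le_of_tendsto_of_tendsto (hφ _) (((hφ c).add (hφ c')).div_const 2)
        (Eventually.of_forall fun n => ?_)
      have h1 : comb (x n) ((1 / 2 : ℂ) • (c + c')) + w n
          = (1 / 2 : ℂ) • ((comb (x n) c + w n) + (comb (x n) c' + w n)) := by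
        rw [map_smul, map_add]; module
      change ‖comb (x n) ((1 / 2 : ℂ) • (c + c')) + w n‖ ≤ _
      rw [h1, norm_smul]
      have h2 : ‖(1 / 2 : ℂ)‖ = 1 / 2 := by norm_num
      rw [h2]
      have := norm_add_le (comb (x n) c + w n) (comb (x n) c' + w n)
      linarith
    · intro a c ha
      have h1 : Tendsto (fun n => ‖a‖ * ((1 + κ n) * ‖comb (x n) c + w n‖))
          (hyperfilter ℕ : Filter ℕ) (𝓝 (‖a‖ * ((1 + 0) * φ c))) :=
        ((((h.hlim.mono_left ulim_le_atTop).const_add 1).mul (hφ c)).const_mul ‖a‖)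
      rw [add_zero, one_mul] at h1
      exact le_of_tendsto_of_tendsto (hφ _) h1
        (Eventually.of_forall fun n => (h.tri n).scal (h.hκ n).le c (hw n) ha)
  pos := by
    obtain ⟨φ, hφm, hφ⟩ := exists_phi h (w := fun _ => 0) (fun n => (R n).zero_mem) (B := 0)
      (fun n => by simp)
    refine ⟨φ, hφm, ?_, 2 / 3, by norm_num, ?_⟩
    · intro a c
      have h1 := (hφ c).const_mul ‖a‖
      refine tendsto_nhds_unique (hφ (a • c)) (h1.congr fun n => ?_)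
      rw [add_zero, add_zero, map_smul, norm_smul]
    · intro c
      exact ge_of_tendsto (hφ c) (Eventually.of_forall fun n =>
        (h.tri n).lower (h.hκ1 n) (h.hx n) c (R n).zero_mem)
  torus := by
    rintro φ ⟨w, hw, hφ⟩ μ hμ c
    have h1 : Tendsto (fun n => (1 + κ n) * ‖comb (x n) c + w n‖)
        (hyperfilter ℕ : Filter ℕ) (𝓝 ((1 + 0) * φ c)) :=
      (((h.hlim.mono_left ulim_le_atTop).const_add 1).mul (hφ c))
    rw [add_zero, one_mul] at h1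
    exact le_of_tendsto_of_tendsto (hφ _) h1
      (Eventually.of_forall fun n => h.tri n c μ hμ (w n) (hw n))

/-- Limits of the non-scalar operators. -/
theorem ulim_nonscalar [CompleteSpace X] (hX : IsoHom ℂ X) (hU : PropU ℂ ℂ X) (h : UD x R κ)
    (hRc : ∀ n, IsClosed (R n : Set X)) (hRi : ∀ n, ¬ FiniteDimensional ℂ (R n)) (s t : ℝ) :
    ∃ α β γ δ : ℂ, (β ≠ 0 ∨ γ ≠ 0 ∨ α ≠ δ) ∧
      NHf (Pl (UPhi x R) (fa s t) (fb t)) (Mat α β γ δ) := by
  have hstep := fun n => plane_step hX hU (h.hκ n) (h.hκ1 n) (h.hx n) (hRc n) (hRi n) (h.tri n)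
    (fa_sq s t) (fb_sq t) (fab s t) (h.hκ n)
  choose α β γ δ hns hle using hstep
  -- the operators are bounded
  have hbd : ∀ n, ∀ z : ℂ × ℂ, ‖z‖ ≤ 1 → ‖Mat (α n) (β n) (γ n) (δ n) z‖ ≤ 2000 := by
    intro n z hz
    set A := Mat (α n) (β n) (γ n) (δ n) with hA
    set u := uL (fa s t) (fb t) with hu
    have h1 := hle n 1 z.1 z.2 0 (R n).zero_mem
    have h2 : uf (fa s t) (fb t) (z.1 + (I * ((1 : ℝ) : ℂ)) * (α n * z.1 + β n * z.2))
        (z.2 + (I * ((1 : ℝ) : ℂ)) * (γ n * z.1 + δ n * z.2)) = u (z + I • A z) := by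
      funext j
      rw [hu, uL_apply, hA, Mat_apply]
      simp [uf]
    have h2' : uf (fa s t) (fb t) z.1 z.2 = u z := rfl
    rw [h2, h2', add_zero, add_zero] at h1
    have hκ0 := (h.hκ n).le
    have hκ1 := h.hκ1 n
    have h3 : (1 + κ n) ^ 3 * Real.sqrt (1 + 9 * (1 : ℝ) ^ 2) + 32 * |(1 : ℝ)| * Real.sqrt (κ n)
        + |(1 : ℝ)| * κ n ≤ 70 := by
      have e1 : (1 + κ n) ^ 3 ≤ 8 := by
        calc (1 + κ n) ^ 3 ≤ (1 + 1) ^ 3 := by gcongr
          _ = 8 := by norm_num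
      have e2 : Real.sqrt (1 + 9 * (1 : ℝ) ^ 2) ≤ 4 := by
        rw [Real.sqrt_le_left (by norm_num)]; norm_num
      have e3 : Real.sqrt (κ n) ≤ 1 := by
        rw [Real.sqrt_le_left (by norm_num)]; linarith
      have e4 : (1 + κ n) ^ 3 * Real.sqrt (1 + 9 * (1 : ℝ) ^ 2) ≤ 8 * 4 :=
        mul_le_mul e1 e2 (Real.sqrt_nonneg _) (by norm_num)
      rw [abs_one]
      linarith
    have h4 : ‖comb (x n) (u z)‖ ≤ 6 := by
      refine (comb_norm_le (h.hx n) _).trans ?_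
      have := uL_upper s t z
      rw [← hu] at this
      linarith
    have h5 : ‖comb (x n) (u (z + I • A z))‖ ≤ 420 := by
      refine h1.trans ?_
      calc _ ≤ 70 * ‖comb (x n) (u z)‖ := by gcongr
        _ ≤ 70 * 6 := by gcongr
        _ = 420 := by norm_num
    have h6 : ‖comb (x n) (u (A z))‖ ≤ 426 := by
      have e1 : I • comb (x n) (u (A z)) = comb (x n) (u (z + I • A z)) - comb (x n) (u z) := by
        rw [map_add, map_smul, map_add, map_smul]; abel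
      have e2 : ‖I • comb (x n) (u (A z))‖ = ‖comb (x n) (u (A z))‖ := by
        rw [norm_smul, Complex.norm_I, one_mul]
      rw [← e2, e1]
      refine (norm_sub_le _ _).trans ?_
      linarith
    have h7 := (h.tri n).lower hκ1 (h.hx n) (u (A z)) (R n).zero_mem
    rw [add_zero] at h7
    have h8 := uL_lower (fa_sq s t) (fb_sq t) (fab s t) (A z)
    rw [← hu] at h8
    linarith
  have hb1 : ∀ n, ‖(α n, γ n)‖ ≤ 2000 := by
    intro n
    have := hbd n (1, 0) (by simp)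
    rwa [Mat_apply, mul_one, mul_zero, add_zero, mul_one, mul_zero, add_zero] at this
  have hb2 : ∀ n, ‖(β n, δ n)‖ ≤ 2000 := by
    intro n
    have := hbd n (0, 1) (by simp)
    rwa [Mat_apply, mul_one, mul_zero, zero_add, mul_one, mul_zero, zero_add] at this
  obtain ⟨α0, hα⟩ := exists_ulim (hyperfilter ℕ) (a := α) fun n => (norm_fst_le (α n, γ n)).trans (hb1 n)
  obtain ⟨γ0, hγ⟩ := exists_ulim (hyperfilter ℕ) (a := γ) fun n => (norm_snd_le (α n, γ n)).trans (hb1 n)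
  obtain ⟨β0, hβ⟩ := exists_ulim (hyperfilter ℕ) (a := β) fun n => (norm_fst_le (β n, δ n)).trans (hb2 n)
  obtain ⟨δ0, hδ⟩ := exists_ulim (hyperfilter ℕ) (a := δ) fun n => (norm_snd_le (β n, δ n)).trans (hb2 n)
  refine ⟨α0, β0, γ0, δ0, ?_, 9, by norm_num, ?_⟩
  · have h1 : ∀ᶠ n in (hyperfilter ℕ : Filter ℕ),
        1 / 24 ≤ ‖β n‖ ∨ 1 / 24 ≤ ‖γ n‖ ∨ 1 / 24 ≤ ‖α n - δ n‖ := Eventually.of_forall hns
    rw [Ultrafilter.eventually_or, Ultrafilter.eventually_or] at h1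
    rcases h1 with h1 | h1 | h1
    · left
      have : 1 / 24 ≤ ‖β0‖ := ge_of_tendsto hβ.norm h1
      intro h0
      rw [h0, norm_zero] at this
      norm_num at this
    · right; left
      have : 1 / 24 ≤ ‖γ0‖ := ge_of_tendsto hγ.norm h1
      intro h0
      rw [h0, norm_zero] at this
      norm_num at this
    · right; right
      have : 1 / 24 ≤ ‖α0 - δ0‖ := ge_of_tendsto (hα.sub hδ).norm h1
      intro h0
      rw [h0, sub_self, norm_zero] at this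
      norm_num at this
  · rintro _ ⟨φ, ⟨w, hw, hφ⟩, rfl⟩ τ z
    set u := uL (fa s t) (fb t) with hu
    have hcl : Tendsto (fun n => u (z + (I * τ) • Mat (α n) (β n) (γ n) (δ n) z))
        (hyperfilter ℕ : Filter ℕ) (𝓝 (u (z + (I * τ) • Mat α0 β0 γ0 δ0 z))) := by
      have hcu : Continuous u := LinearMap.continuous_of_finiteDimensional _
      apply (hcu.tendsto _).comp
      apply Tendsto.const_add
      apply Tendsto.const_smul
      simp only [Mat_apply]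
      exact ((hα.mul_const _).add (hβ.mul_const _)).prodMk_nhds
        ((hγ.mul_const _).add (hδ.mul_const _))
    have h1 := lim_close h hφ hcl
    have hκl := h.hlim.mono_left ulim_le_atTop
    have h2 : Tendsto (fun n => ((1 + κ n) ^ 3 * Real.sqrt (1 + 9 * τ ^ 2)
        + 32 * |τ| * Real.sqrt (κ n) + |τ| * κ n) * ‖comb (x n) (u z) + w n‖)
        (hyperfilter ℕ : Filter ℕ) (𝓝 (((1 + 0) ^ 3 * Real.sqrt (1 + 9 * τ ^ 2)
        + 32 * |τ| * Real.sqrt 0 + |τ| * 0) * φ (u z))) := by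
      refine Tendsto.mul ?_ (hφ _)
      exact ((((hκl.const_add 1).pow 3).mul_const _).add (((Real.continuous_sqrt.tendsto 0).comp
        hκl).const_mul _)).add (hκl.const_mul _)
    have e1 : ((1 + 0) ^ 3 * Real.sqrt (1 + 9 * τ ^ 2)
        + 32 * |τ| * Real.sqrt 0 + |τ| * 0) = Real.sqrt (1 + 9 * τ ^ 2) := by
      rw [Real.sqrt_zero]; ring
    rw [e1] at h2
    refine le_of_tendsto_of_tendsto h1 h2 (Eventually.of_forall fun n => ?_)
    have h3 := hle n τ z.1 z.2 (w n) (hw n)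
    have h4 : uf (fa s t) (fb t) (z.1 + (I * (τ : ℂ)) * (α n * z.1 + β n * z.2))
        (z.2 + (I * (τ : ℂ)) * (γ n * z.1 + δ n * z.2))
        = u (z + (I * τ) • Mat (α n) (β n) (γ n) (δ n) z) := by
      funext j
      rw [hu, uL_apply, Mat_apply]
      simp [uf]
    have h5 : uf (fa s t) (fb t) z.1 z.2 = u z := rfl
    rw [h4, h5] at h3
    exact h3

end ultra

section final

variable {X : Type*} [NormedAddCommGroup X] [NormedSpace ℂ X]

theorem propP_one [CompleteSpace X] [SeparableSpace X] (hX : IsoHom ℂ X) : PropP ℂ ℂ X := by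
  intro F Z hF hZc hZi ε hε
  obtain ⟨x, hxZ, hx1, V, hVc, hVi, hVZ, hr⟩ := exists_hermitian hX (F := F) hZc hZi hε
  refine ⟨(ContinuousLinearMap.id ℂ ℂ).smulRight x, fun z => ?_, ?_, V, hVc, hVi, hVZ, ?_⟩
  · simpa using Z.smul_mem z hxZ
  · intro h
    have := congrArg (fun T : ℂ →L[ℂ] X => T 1) h
    simp at this
    rw [this, norm_zero] at hx1
    exact zero_ne_one hx1
  · intro z z' hzz' w hw
    simp only [ContinuousLinearMap.smulRight_apply, ContinuousLinearMap.id_apply]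
    by_cases hz : z = 0
    · have hz' : z' = 0 := by
        rw [hz, norm_zero] at hzz'
        exact norm_eq_zero.mp hzz'.symm
      rw [hz, hz', zero_smul, zero_add]
      nlinarith [norm_nonneg w]
    · have h1 := hr z (z' / z) (by rw [norm_div, hzz', div_self]; rw [← hzz']; exact norm_ne_zero_iff.mpr hz) w hw
      rwa [div_mul_cancel₀ _ hz] at h1

/-- Two-dimensional complex Hilbert space. -/
abbrev E2 := EuclideanSpace ℂ (Fin 2)

theorem E2_norm (z : E2) : ‖z‖ = Real.sqrt (‖z 0‖ ^ 2 + ‖z 1‖ ^ 2) := by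
  rw [EuclideanSpace.norm_eq, Fin.sum_univ_two]

/-- The piece spanned by `v1, v2`. -/
noncomputable def pieceL (y1 y2 : X) : E2 →L[ℂ] X :=
  (EuclideanSpace.proj 0 : E2 →L[ℂ] ℂ).smulRight y1 + (EuclideanSpace.proj 1 : E2 →L[ℂ] ℂ).smulRight y2

theorem pieceL_apply (y1 y2 : X) (z : E2) : pieceL y1 y2 z = z 0 • y1 + z 1 • y2 := rfl

theorem propP_two [CompleteSpace X] [SeparableSpace X] (hX : IsoHom ℂ X)
    (hXi : ¬ FiniteDimensional ℂ X) : PropP ℂ E2 X := by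
  have hU : PropU ℂ ℂ X := propU_of_propP hX (propP_one hX) hXi
  intro F Z hF hZc hZi ε hε
  let κ : ℕ → ℝ := fun n => 1 / ((n : ℝ) + 1)
  have hκ : ∀ n, 0 < κ n := fun n => by positivity
  have htr := fun n => exists_triple hX (F := F) hZc hZi (hκ n)
  choose x hxZ hx1 V hVc hVi hVZ htri using htr
  let R : ℕ → Submodule ℂ X := fun n => F ⊔ V n
  have hRc : ∀ n, IsClosed (R n : Set X) := by
    intro n
    have : R n = V n ⊔ F := sup_comm _ _
    rw [this]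
    exact Submodule.isClosed_sup_finiteDimensional _ _ (hVc n)
  have hRi : ∀ n, ¬ FiniteDimensional ℂ (R n) := by
    intro n h
    exact hVi n (Submodule.finiteDimensional_of_le (le_sup_right : V n ≤ R n))
  have hUD : UD x R κ := ⟨hx1, hκ, fun n => by
    rw [div_le_one (by positivity)]; linarith [(Nat.cast_nonneg n : (0 : ℝ) ≤ n)],
    tendsto_one_div_add_atTop_nhds_zero_nat, htri⟩
  have hF3 := fam3_of_UD hUD
  obtain ⟨v1, v2, hv1, hhil⟩ := exists_hilbPlane hF3 (fun s t _ =>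
    ulim_nonscalar hX hU hUD hRc hRi s t)
  -- pieces
  let L : ℕ → E2 →L[ℂ] X := fun n => pieceL (comb (x n) v1) (comb (x n) v2)
  have hLx : ∀ n z, L n z = comb (x n) (z 0 • v1 + z 1 • v2) := by
    intro n z
    rw [map_add, map_smul, map_smul]
    exact pieceL_apply _ _ z
  have hLZ : ∀ n z, L n z ∈ Z := by
    intro n z
    rw [hLx, comb_apply]
    exact Z.add_mem (Z.add_mem (Z.smul_mem _ (hxZ n 0)) (Z.smul_mem _ (hxZ n 1)))
      (Z.smul_mem _ (hxZ n 2))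
  have hv1p : 0 < ‖v1‖ := norm_pos_iff.mpr hv1
  have hL0 : ∀ n, L n ≠ 0 := by
    intro n h0
    have h1 : L n (EuclideanSpace.single 0 1) = comb (x n) v1 := by
      rw [hLx]; simp
    rw [h0] at h1
    have h2 := (hUD.tri n).lower (hUD.hκ1 n) (hUD.hx n) v1 (R n).zero_mem
    rw [add_zero, ← h1] at h2
    simp at h2
    linarith
  suffices hev : ∀ᶠ n in (hyperfilter ℕ : Filter ℕ), RelH ε (L n) (R n) by
    obtain ⟨n, hn⟩ := hev.exists
    exact ⟨L n, hLZ n, hL0 n, V n, hVc n, hVi n, hVZ n, hn⟩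
  by_contra hcon
  rw [← Ultrafilter.eventually_not] at hcon
  -- the size of the pieces
  set Λ := 3 * (‖v1‖ + ‖v2‖) with hΛ
  have hΛ0 : 0 < Λ := by positivity
  have hz01 : ∀ z : E2, ‖z 0‖ ≤ ‖z‖ ∧ ‖z 1‖ ≤ ‖z‖ := fun z =>
    ⟨PiLp.norm_apply_le z 0, PiLp.norm_apply_le z 1⟩
  have hLn : ∀ n z, ‖L n z‖ ≤ Λ * ‖z‖ := by
    intro n z
    rw [hLx]
    refine (comb_norm_le (hx1 n) _).trans ?_
    have h1 : ‖z 0 • v1 + z 1 • v2‖ ≤ ‖z‖ * ‖v1‖ + ‖z‖ * ‖v2‖ := by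
      refine norm_add_le_of_le ?_ ?_
      · rw [norm_smul]; exact mul_le_mul_of_nonneg_right (hz01 z).1 (norm_nonneg _)
      · rw [norm_smul]; exact mul_le_mul_of_nonneg_right (hz01 z).2 (norm_nonneg _)
    rw [hΛ]
    nlinarith
  set Bw := 2 * Λ / ε + Λ with hBw
  have hBw0 : 0 < Bw := by positivity
  have hex : ∀ n, ∃ (z z' : E2) (w : X), w ∈ R n ∧ ‖z‖ ≤ 1 ∧ ‖z'‖ ≤ 1 ∧ ‖w‖ ≤ Bw ∧
      (¬ RelH ε (L n) (R n) → ‖z‖ = 1 ∧ ‖z'‖ = 1 ∧ (1 + ε) * ‖L n z + w‖ ≤ ‖L n z' + w‖) := by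
    intro n
    by_cases hn : RelH ε (L n) (R n)
    · exact ⟨0, 0, 0, (R n).zero_mem, by simp, by simp, by simpa using hBw0.le,
        fun h => absurd hn h⟩
    · unfold RelH at hn
      push Not at hn
      obtain ⟨z, z', hzz', w, hw, hlt⟩ := hn
      have hz0 : 0 < ‖z‖ := by
        rcases (norm_nonneg z).eq_or_lt with h0 | h0
        · exfalso
          have hz : z = 0 := norm_eq_zero.mp h0.symm
          have hz' : z' = 0 := by rw [← h0] at hzz'; exact norm_eq_zero.mp hzz'.symm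
          rw [hz, hz', map_zero, zero_add] at hlt
          nlinarith [norm_nonneg w]
        · exact h0
      set a : ℂ := ((‖z‖⁻¹ : ℝ) : ℂ) with ha
      have han : ‖a‖ = ‖z‖⁻¹ := by
        rw [ha, Complex.norm_real, Real.norm_eq_abs, abs_of_pos (inv_pos.mpr hz0)]
      have haz : ‖a • z‖ = 1 := by rw [norm_smul, han, inv_mul_cancel₀ hz0.ne']
      have haz' : ‖a • z'‖ = 1 := by rw [norm_smul, han, ← hzz', inv_mul_cancel₀ hz0.ne']
      have e1 : L n (a • z) + a • w = a • (L n z + w) := by rw [map_smul, smul_add]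
      have e2 : L n (a • z') + a • w = a • (L n z' + w) := by rw [map_smul, smul_add]
      have hlt' : (1 + ε) * ‖L n (a • z) + a • w‖ ≤ ‖L n (a • z') + a • w‖ := by
        rw [e1, e2, norm_smul, norm_smul]
        have : 0 ≤ ‖a‖ := norm_nonneg a
        nlinarith
      refine ⟨a • z, a • z', a • w, (R n).smul_mem _ hw, haz.le, haz'.le, ?_,
        fun _ => ⟨haz, haz', hlt'⟩⟩
      have h1 : ‖L n (a • z') + a • w‖ ≤ ‖L n (a • z) + a • w‖ + 2 * Λ := by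
        have e3 : L n (a • z') + a • w = (L n (a • z) + a • w) + (L n (a • z') - L n (a • z)) := by
          abel
        rw [e3]
        refine (norm_add_le _ _).trans ?_
        have h2 := norm_sub_le (L n (a • z')) (L n (a • z))
        have h3 := hLn n (a • z')
        have h4 := hLn n (a • z)
        rw [haz'] at h3
        rw [haz] at h4
        linarith
      have h2 : ‖L n (a • z) + a • w‖ ≤ 2 * Λ / ε := by
        rw [le_div_iff₀ hε]; linarith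
      have h3 : ‖a • w‖ ≤ ‖L n (a • z) + a • w‖ + ‖L n (a • z)‖ := by
        have e3 : a • w = (L n (a • z) + a • w) - L n (a • z) := by abel
        calc ‖a • w‖ = ‖(L n (a • z) + a • w) - L n (a • z)‖ := by rw [← e3]
          _ ≤ _ := norm_sub_le _ _
      have h4 := hLn n (a • z)
      rw [haz] at h4
      rw [hBw]; linarith
  choose z z' w hwR hz1 hz1' hwB hbad using hex
  obtain ⟨φ, hφm, hφ⟩ := exists_phi hUD hwR hwB
  obtain ⟨z0, hz0⟩ := exists_ulim (hyperfilter ℕ) hz1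
  obtain ⟨z0', hz0'⟩ := exists_ulim (hyperfilter ℕ) hz1'
  have hzn : ‖z0‖ = 1 := by
    refine tendsto_nhds_unique hz0.norm (tendsto_const_nhds.congr' ?_)
    filter_upwards [hcon] with n hn
    exact ((hbad n hn).1).symm
  have hzn' : ‖z0'‖ = 1 := by
    refine tendsto_nhds_unique hz0'.norm (tendsto_const_nhds.congr' ?_)
    filter_upwards [hcon] with n hn
    exact ((hbad n hn).2.1).symm
  have hco : ∀ (y : ℕ → E2) (y0 : E2), Tendsto y (hyperfilter ℕ : Filter ℕ) (𝓝 y0) →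
      Tendsto (fun n => y n 0 • v1 + y n 1 • v2) (hyperfilter ℕ : Filter ℕ)
        (𝓝 (y0 0 • v1 + y0 1 • v2)) := by
    intro y y0 hy
    have hc : Continuous fun y : E2 => y 0 • v1 + y 1 • v2 := by fun_prop
    exact (hc.tendsto _).comp hy
  have h1 := lim_close hUD hφ (hco z z0 hz0)
  have h2 := lim_close hUD hφ (hco z' z0' hz0')
  have e1 := hhil φ hφm (z0 0) (z0 1)
  have e2 := hhil φ hφm (z0' 0) (z0' 1)
  rw [← E2_norm, hzn] at e1
  rw [← E2_norm, hzn'] at e2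
  rw [e1] at h1
  rw [e2] at h2
  have h3 : (1 + ε) * φ (((1 : ℝ) : ℂ) • v1) ≤ φ (((1 : ℝ) : ℂ) • v1) := by
    refine le_of_tendsto_of_tendsto (h1.const_mul (1 + ε)) h2 ?_
    filter_upwards [hcon] with n hn
    have := (hbad n hn).2.2
    rw [hLx, hLx] at this
    exact this
  have h4 : 0 < φ (((1 : ℝ) : ℂ) • v1) := by
    have h5 : (2 / 3) * ‖(((1 : ℝ) : ℂ) • v1)‖ ≤ φ (((1 : ℝ) : ℂ) • v1) :=
      ge_of_tendsto (hφ _) (Eventually.of_forall fun n =>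
        (hUD.tri n).lower (hUD.hκ1 n) (hUD.hx n) _ (hwR n))
    have h6 : (((1 : ℝ) : ℂ) • v1) = v1 := by simp
    rw [h6] at h5 ⊢
    linarith
  nlinarith

end final

end PoolAgent.MP_df72c7_an
end

section

/-!
# One step of the chain: rotating a vector into the tail
-/

namespace PoolAgent.MP_df72c7_an

open Complex Filter Topology TopologicalSpace ComplexConjugate

section perp

/-- the vector orthogonal to `z` -/
noncomputable def perp (z : E2) : E2 := !₂[-conj (z 1), conj (z 0)]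

theorem perp_zero : perp 0 = 0 := by
  ext i
  fin_cases i <;> simp [perp]

theorem perp_norm (z : E2) (a b : ℂ) :
    ‖a • z + b • perp z‖ ^ 2 = (‖a‖ ^ 2 + ‖b‖ ^ 2) * ‖z‖ ^ 2 := by
  have h1 : ∀ y : E2, ‖y‖ ^ 2 = ‖y 0‖ ^ 2 + ‖y 1‖ ^ 2 := by
    intro y
    rw [E2_norm, Real.sq_sqrt (by positivity)]
  rw [h1, h1 z]
  have e0 : (a • z + b • perp z) 0 = a * z 0 - b * conj (z 1) := by
    simp [perp]; ring
  have e1 : (a • z + b • perp z) 1 = a * z 1 + b * conj (z 0) := by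
    simp [perp]
  rw [e0, e1]
  simp only [← Complex.normSq_eq_norm_sq, Complex.normSq_apply]
  simp
  ring

end perp

section stepA

variable {X : Type*} [NormedAddCommGroup X] [NormedSpace ℂ X]

/-- The pair `(p, q)` spans a plane which is rotation invariant relative to `T`. -/
def RotP (ε : ℝ) (p q : X) (T : Submodule ℂ X) : Prop :=
  ∀ a b a' b' : ℂ, ‖a‖ ^ 2 + ‖b‖ ^ 2 = ‖a'‖ ^ 2 + ‖b'‖ ^ 2 → ∀ v ∈ T,
    ‖a • p + b • q + v‖ ≤ (1 + ε) * ‖a' • p + b' • q + v‖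

theorem stepA [CompleteSpace X] {ε0 : ℝ} {L : ℕ → (E2 →L[ℂ] X)} (hJ : Joint ε0 L)
    (hd : DenseRange (Lam L)) (hXi : ¬ FiniteDimensional ℂ X) (e : X) {ε1 : ℝ} (hε1 : 0 < ε1) :
    ∃ (p q : X) (T : Submodule ℂ X), IsClosed (T : Set X) ∧ ¬ FiniteDimensional ℂ T ∧
      ‖e - p‖ ≤ ε1 ∧ RotP ε0 p q T := by
  obtain ⟨_, ⟨z, rfl⟩, hz⟩ := Metric.mem_closure_iff.mp (hd e) ε1 hε1
  obtain ⟨K, hK⟩ : ∃ K, z.support ⊆ Finset.range K := z.support.exists_nat_subset_range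
  let zp : ℕ →₀ E2 := z.mapRange perp perp_zero
  have hzp : ∀ n, zp n = perp (z n) := fun n => rfl
  let T : Submodule ℂ X := LinearMap.ker (Hd L K : X →ₗ[ℂ] X)
  have hTc : IsClosed (T : Set X) := (Hd L K).isClosed_ker
  have hTm : ∀ v ∈ T, Hd L K v = 0 := fun v hv => hv
  refine ⟨Lam L z, Lam L zp, T, hTc, ?_, ?_, ?_⟩
  · -- the tail is infinite-dimensional
    intro hT
    apply hXi
    let W : Submodule ℂ X := (Finset.range K).sup fun i => LinearMap.range (L i : E2 →ₗ[ℂ] X)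
    have hW : FiniteDimensional ℂ W := Submodule.finiteDimensional_finset_sup _ _
    have hmem : ∀ x, Hd L K x ∈ W := by
      intro x
      rw [Hd_apply]
      apply Submodule.sum_mem
      intro i hi
      exact (Finset.le_sup (f := fun i => LinearMap.range (L i : E2 →ₗ[ℂ] X)) hi :
        LinearMap.range (L i : E2 →ₗ[ℂ] X) ≤ W) (Pr_mem_range hJ hd i x)
    let g : X →ₗ[ℂ] W := (Hd L K : X →ₗ[ℂ] X).codRestrict W hmem
    have hg : LinearMap.ker g = T := by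
      ext x
      simp only [g, LinearMap.mem_ker, T]
      constructor
      · intro h
        exact congrArg Subtype.val h
      · intro h
        exact Subtype.ext h
    apply finite_of_ker g
    rw [hg]; exact hT
  · rw [← dist_eq_norm]; exact hz.le
  · intro a b a' b' hab v hv
    have key : ∀ x : X, ‖a • Lam L z + b • Lam L zp + (x - Hd L K x)‖
        ≤ (1 + ε0) * ‖a' • Lam L z + b' • Lam L zp + (x - Hd L K x)‖ := by
      intro x
      refine hd.induction_on (p := fun x => ‖a • Lam L z + b • Lam L zp + (x - Hd L K x)‖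
        ≤ (1 + ε0) * ‖a' • Lam L z + b' • Lam L zp + (x - Hd L K x)‖) x
        (isClosed_le (by fun_prop) (by fun_prop)) ?_
      intro y
      have h1 : Lam L y - Hd L K (Lam L y) = Lam L (y.filter (fun n => ¬ n < K)) := by
        rw [Hd_Lam hJ hd]
        have h2 : y.filter (fun n => n < K) + y.filter (fun n => ¬ n < K) = y :=
          Finsupp.filter_add_filter_not y _
        rw [sub_eq_iff_eq_add, ← map_add, add_comm, h2]
      rw [h1]
      set y' := y.filter (fun n => ¬ n < K) with hy'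
      have h2 : ∀ c d : ℂ, c • Lam L z + d • Lam L zp + Lam L y' = Lam L (c • z + d • zp + y') := by
        intro c d
        rw [map_add, map_add, map_smul, map_smul]
      rw [h2, h2]
      apply hJ
      intro n
      by_cases hn : n < K
      · have e1 : y' n = 0 := by
          rw [hy', Finsupp.filter_apply_neg]
          simpa using hn
        simp only [Finsupp.coe_add, Finsupp.coe_smul, Pi.add_apply, Pi.smul_apply, e1, add_zero,
          hzp]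
        rw [← sq_eq_sq₀ (norm_nonneg _) (norm_nonneg _), perp_norm, perp_norm, hab]
      · have e1 : z n = 0 := by
          rw [← Finsupp.notMem_support_iff]
          intro h
          exact hn (Finset.mem_range.mp (hK h))
        simp only [Finsupp.coe_add, Finsupp.coe_smul, Pi.add_apply, Pi.smul_apply, hzp, e1,
          perp_zero, smul_zero, zero_add]
    have h1 := key v
    rw [hTm v hv, sub_zero] at h1
    exact h1

theorem stepB [CompleteSpace X] (hX : IsoHom ℂ X) (hU : PropU ℂ E2 X)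
    (hXi : ¬ FiniteDimensional ℂ X) {Y : Submodule ℂ X} (hYc : IsClosed (Y : Set X))
    (hYi : ¬ FiniteDimensional ℂ Y) {e : X} (he : e ∈ Y) {ε0 ε1 : ℝ} (hε0 : 0 < ε0)
    (hε1 : 0 < ε1) :
    ∃ (p q : X) (T : Submodule ℂ X), p ∈ Y ∧ q ∈ Y ∧ T ≤ Y ∧ IsClosed (T : Set X) ∧
      ¬ FiniteDimensional ℂ T ∧ ‖e - p‖ ≤ ε1 ∧ RotP ε0 p q T := by
  obtain ⟨L, hd, hJ⟩ := hU ε0 hε0
  obtain ⟨τ⟩ := hX Y hYc hYi
  obtain ⟨p, q, T, hTc, hTi, hp, hrot⟩ := stepA hJ hd hXi (τ.symm ⟨e, he⟩) hε1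
  let inc : X →ₗᵢ[ℂ] X := Y.subtypeₗᵢ.comp τ.toLinearIsometry
  have hinc : ∀ x, inc x = ((τ x : Y) : X) := fun x => rfl
  have hincY : ∀ x, inc x ∈ Y := fun x => (τ x).2
  refine ⟨inc p, inc q, T.map inc.toLinearMap, hincY p, hincY q, ?_, ?_, ?_, ?_, ?_⟩
  · rintro _ ⟨x, -, rfl⟩
    exact hincY x
  · have : IsClosed (inc '' (T : Set X)) :=
      inc.isometry.isClosedEmbedding.isClosedMap _ hTc
    exact this
  · intro h
    apply hTi
    exact Module.Finite.equiv (Submodule.equivMapOfInjective inc.toLinearMap inc.injective T).symm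
  · have h1 : e - inc p = inc (τ.symm ⟨e, he⟩ - p) := by
      rw [map_sub, hinc (τ.symm ⟨e, he⟩), τ.apply_symm_apply]
    rw [h1, inc.norm_map]
    exact hp
  · rintro a b a' b' hab _ ⟨v, hv, rfl⟩
    have h1 : ∀ c d : ℂ, c • inc p + d • inc q + inc.toLinearMap v = inc (c • p + d • q + v) := by
      intro c d
      rw [map_add, map_add, map_smul, map_smul]; rfl
    rw [h1, h1, inc.norm_map, inc.norm_map]
    exact hrot a b a' b' hab v hv

end stepA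

end PoolAgent.MP_df72c7_an
end

section

/-!
# The step of the chain
-/

namespace PoolAgent.MP_df72c7_an

open Complex Filter Topology TopologicalSpace ComplexConjugate

section numeric

theorem num1 {g η θ G r : ℝ} (hg : 0 < g) (hg1 : g ≤ 1 / 100) (hθ0 : 0 < θ) (hθ : θ ≤ g ^ 2 / 32)
    (hη0 : 0 ≤ η) (hη : η ≤ g ^ 2 / 32) (hG : 0 ≤ G) (hr : 0 < r) (hrG : r ^ 2 * (1 + G) = 1)
    (h : 1 ≤ (1 + η) * ((1 + θ) ^ 2 * r + θ)) : G ≤ g ^ 2 := by
  obtain ⟨s, hs⟩ : ∃ s : ℝ, s = g ^ 2 / 32 := ⟨_, rfl⟩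
  have hs0 : 0 < s := by rw [hs]; positivity
  have hs1 : s ≤ 1 / 1000 := by
    rw [hs]
    have : g ^ 2 ≤ (1 / 100) ^ 2 := pow_le_pow_left₀ hg.le hg1 2
    linarith
  rw [← hs] at hθ hη
  have hg2 : g ^ 2 = 32 * s := by rw [hs]; ring
  have hr1 : r ≤ 1 := by
    by_contra hcon
    push Not at hcon
    nlinarith
  have h1 : (1 + η) * ((1 + θ) ^ 2 * r + θ) ≤ (1 + s) * ((1 + s) ^ 2 * r + s) := by
    gcongr
  have h2 : (1 + s) * ((1 + s) ^ 2 * r + s) ≤ (1 + 4 * s) * r + 2 * s := by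
    have e1 : (1 + s) ^ 3 ≤ 1 + 4 * s := by
      nlinarith [mul_pos hs0 hs0, mul_pos (mul_pos hs0 hs0) hs0]
    have e2 : (1 + s) * s ≤ 2 * s := by nlinarith
    have e3 : (1 + s) ^ 3 * r ≤ (1 + 4 * s) * r := mul_le_mul_of_nonneg_right e1 hr.le
    nlinarith
  have h3 : 1 - 6 * s ≤ r := by
    have h4 : 1 - 2 * s ≤ (1 + 4 * s) * r := by linarith
    by_contra hcon
    push Not at hcon
    nlinarith [mul_pos hs0 hs0]
  rw [hg2]
  by_contra hcon
  push Not at hcon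
  have h5 : (1 - 6 * s) ^ 2 ≤ r ^ 2 := pow_le_pow_left₀ (by linarith) h3 2
  have h6 : (1 - 6 * s) ^ 2 * (1 + 32 * s) < 1 := by
    calc (1 - 6 * s) ^ 2 * (1 + 32 * s) < (1 - 6 * s) ^ 2 * (1 + G) := by
          apply mul_lt_mul_of_pos_left (by linarith)
          have : 0 < 1 - 6 * s := by linarith
          positivity
      _ ≤ r ^ 2 * (1 + G) := by gcongr
      _ = 1 := hrG
  nlinarith [mul_pos hs0 hs0, mul_pos (mul_pos hs0 hs0) hs0]

/-- comparing `t = √(|a-bγ|²+|b|²)` with `|r| = √(|a|²+|b|²)` -/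
theorem num2 {a b γ r : ℂ} {g : ℝ} (hg : 0 ≤ g) (hg1 : g ≤ 1 / 100) (hγ : ‖γ‖ ≤ g)
    (hr : ‖a‖ ^ 2 + ‖b‖ ^ 2 = ‖r‖ ^ 2) :
    |Real.sqrt (‖a - b * γ‖ ^ 2 + ‖b‖ ^ 2) - ‖r‖| ≤ 2 * g * ‖r‖ := by
  have ha := norm_nonneg a
  have hb := norm_nonneg b
  have hrn := norm_nonneg r
  have h1 : ‖b * γ‖ ≤ g * ‖b‖ := by
    rw [norm_mul, mul_comm]; exact mul_le_mul_of_nonneg_right hγ hb
  have h0 : 0 ≤ ‖b * γ‖ := norm_nonneg _
  have h2 : ‖a - b * γ‖ ≤ ‖a‖ + g * ‖b‖ := (norm_sub_le _ _).trans (by linarith)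
  have h3 : ‖a‖ ^ 2 - 2 * ‖a‖ * (g * ‖b‖) ≤ ‖a - b * γ‖ ^ 2 := by
    have h4 := abs_norm_sub_norm_le a (b * γ)
    have h5 : (‖a‖ - ‖b * γ‖) ^ 2 ≤ ‖a - b * γ‖ ^ 2 := by
      rw [← sq_abs (‖a‖ - ‖b * γ‖)]
      exact pow_le_pow_left₀ (abs_nonneg _) h4 2
    have h6 : ‖a‖ * ‖b * γ‖ ≤ ‖a‖ * (g * ‖b‖) := mul_le_mul_of_nonneg_left h1 ha
    nlinarith [sq_nonneg (‖b * γ‖)]
  have h7 : 2 * ‖a‖ * ‖b‖ ≤ ‖r‖ ^ 2 := by nlinarith [sq_nonneg (‖a‖ - ‖b‖)]
  have h8 : ‖b‖ ^ 2 ≤ ‖r‖ ^ 2 := by nlinarith [sq_nonneg ‖a‖]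
  set t := Real.sqrt (‖a - b * γ‖ ^ 2 + ‖b‖ ^ 2) with ht
  have ht0 : 0 ≤ t := Real.sqrt_nonneg _
  have ht2 : t ^ 2 = ‖a - b * γ‖ ^ 2 + ‖b‖ ^ 2 := Real.sq_sqrt (by positivity)
  have hup : t ≤ (1 + 2 * g) * ‖r‖ := by
    rw [← pow_le_pow_iff_left₀ ht0 (by positivity) two_ne_zero, ht2]
    have h9 : ‖a - b * γ‖ ^ 2 ≤ (‖a‖ + g * ‖b‖) ^ 2 := pow_le_pow_left₀ (norm_nonneg _) h2 2
    have h10 : g * (2 * ‖a‖ * ‖b‖) ≤ g * ‖r‖ ^ 2 := mul_le_mul_of_nonneg_left h7 hg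
    have h11 : g ^ 2 * ‖b‖ ^ 2 ≤ g ^ 2 * ‖r‖ ^ 2 := mul_le_mul_of_nonneg_left h8 (sq_nonneg g)
    have h12 : 0 ≤ g * ‖r‖ ^ 2 := by positivity
    have h13 : 0 ≤ g ^ 2 * ‖r‖ ^ 2 := by positivity
    nlinarith
  have hlo : (1 - 2 * g) * ‖r‖ ≤ t := by
    have : 0 ≤ (1 - 2 * g) * ‖r‖ := mul_nonneg (by linarith) hrn
    rw [← pow_le_pow_iff_left₀ this ht0 two_ne_zero, ht2]
    have h10 : g * (2 * ‖a‖ * ‖b‖) ≤ g * ‖r‖ ^ 2 := mul_le_mul_of_nonneg_left h7 hg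
    have h12 : 0 ≤ g * ‖r‖ ^ 2 := by positivity
    have h13 : g ^ 2 * ‖r‖ ^ 2 ≤ (1 / 100) * (g * ‖r‖ ^ 2) := by nlinarith
    nlinarith
  rw [abs_le]
  constructor <;> linarith

end numeric

section stepC

variable {X : Type*} [NormedAddCommGroup X] [NormedSpace ℂ X]

/-- separation of `e` from `V` -/
def Sep (η : ℝ) (e : X) (V : Submodule ℂ X) : Prop :=
  ∀ a : ℂ, ∀ v ∈ V, ‖a • e‖ ≤ (1 + η) * ‖a • e + v‖

/-- the plane of `e, e'` can be rotated onto `e'` relative to `V` -/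
def Rot (δ : ℝ) (e e' : X) (V : Submodule ℂ X) : Prop :=
  ∀ a b r : ℂ, ‖a‖ ^ 2 + ‖b‖ ^ 2 = ‖r‖ ^ 2 → ∀ v ∈ V,
    ‖a • e + b • e' + v‖ ≤ (1 + δ) * ‖r • e' + v‖ ∧
    ‖r • e' + v‖ ≤ (1 + δ) * ‖a • e + b • e' + v‖

theorem RotP.half {θ : ℝ} {p q : X} {T : Submodule ℂ X} (h : RotP θ p q T) (a b : ℂ) {v : X}
    (hv : v ∈ T) : ‖a • p + b • q‖ ≤ (1 + θ / 2) * ‖a • p + b • q + v‖ := by
  have h1 := h (-a) (-b) a b (by rw [norm_neg, norm_neg]) v hv
  have h2 : a • p + b • q = (1 / 2 : ℂ) • ((a • p + b • q + v) - ((-a) • p + (-b) • q + v)) := by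
    module
  have h3 : ‖(1 / 2 : ℂ)‖ = 1 / 2 := by norm_num
  have h4 := norm_sub_le (a • p + b • q + v) ((-a) • p + (-b) • q + v)
  calc ‖a • p + b • q‖ = (1 / 2) * ‖(a • p + b • q + v) - ((-a) • p + (-b) • q + v)‖ := by
        rw [← h3, ← norm_smul, ← h2]
    _ ≤ _ := by nlinarith

/-- the bound on `γ` -/
theorem gamma_bound {θ η g : ℝ} (hg : 0 < g) (hg1 : g ≤ 1 / 100) (hθ0 : 0 < θ)
    (hθ : θ ≤ g ^ 2 / 32) (hη0 : 0 ≤ η) (hη : η ≤ g ^ 2 / 32) {e p q : X} (he : e ≠ 0)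
    {T V : Submodule ℂ X} (hrot : RotP θ p q T) (hp : ‖e - p‖ ≤ θ * ‖e‖) (hsep : Sep η e V)
    {γ : ℂ} (hq : q - γ • e ∈ V) : ‖γ‖ ≤ g := by
  have hν : 0 < ‖e‖ := norm_pos_iff.mpr he
  set G := ‖γ‖ ^ 2 with hG
  have hG0 : 0 ≤ G := by positivity
  have hG1 : 0 < 1 + G := by linarith
  have hG1c : ((1 + G : ℝ) : ℂ) ≠ 0 := by exact_mod_cast hG1.ne'
  set r := Real.sqrt (1 / (1 + G)) with hr
  have hr0 : 0 < r := Real.sqrt_pos.mpr (by positivity)
  have hr2 : r ^ 2 = 1 / (1 + G) := Real.sq_sqrt (by positivity)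
  have hrG : r ^ 2 * (1 + G) = 1 := by rw [hr2]; field_simp
  set lam : ℂ := conj γ / ((1 + G : ℝ) : ℂ) with hlam
  have hlg : lam * γ = ((G / (1 + G) : ℝ) : ℂ) := by
    have h1 : conj γ * γ = ((G : ℝ) : ℂ) := by
      rw [mul_comm, Complex.mul_conj, Complex.normSq_eq_norm_sq]
    rw [hlam, div_mul_eq_mul_div, h1]
    push_cast
    rfl
  have h1lg : 1 - lam * γ = ((1 / (1 + G) : ℝ) : ℂ) := by
    rw [hlg]
    have : (1 / (1 + G) : ℝ) = 1 - G / (1 + G) := by field_simp; ring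
    rw [this]; push_cast; rfl
  have hn1 : ‖1 - lam * γ‖ = 1 / (1 + G) := by
    rw [h1lg, Complex.norm_real, Real.norm_eq_abs, abs_of_pos (by positivity)]
  have hn2 : ‖lam‖ ^ 2 = G / (1 + G) ^ 2 := by
    rw [hlam, norm_div, Complex.norm_real, Real.norm_eq_abs, abs_of_pos hG1, RCLike.norm_conj,
      div_pow, ← hG]
  have hsum : ‖1 - lam * γ‖ ^ 2 + ‖lam‖ ^ 2 = ‖(r : ℂ)‖ ^ 2 + ‖(0 : ℂ)‖ ^ 2 := by
    rw [hn1, hn2, Complex.norm_real, Real.norm_eq_abs, sq_abs, hr2, norm_zero]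
    field_simp
    ring
  have h1 := hrot (1 - lam * γ) lam r 0 hsum 0 T.zero_mem
  rw [add_zero, add_zero, zero_smul, add_zero, norm_smul, Complex.norm_real, Real.norm_eq_abs,
    abs_of_pos hr0] at h1
  have h2 := hsep 1 (lam • (q - γ • e)) (V.smul_mem _ hq)
  rw [one_smul] at h2
  have h3 : e + lam • (q - γ • e) = ((1 - lam * γ) • p + lam • q) + (1 - lam * γ) • (e - p) := by
    module
  rw [h3] at h2
  have h4 : ‖(1 - lam * γ) • (e - p)‖ ≤ θ * ‖e‖ := by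
    rw [norm_smul, hn1]
    have h5 : 1 / (1 + G) ≤ 1 := by rw [div_le_one hG1]; linarith
    calc 1 / (1 + G) * ‖e - p‖ ≤ 1 * (θ * ‖e‖) := mul_le_mul h5 hp (norm_nonneg _) zero_le_one
      _ = _ := one_mul _
  have h5 : ‖p‖ ≤ (1 + θ) * ‖e‖ := by
    have h6 : p = e - (e - p) := by abel
    calc ‖p‖ = ‖e - (e - p)‖ := by rw [← h6]
      _ ≤ ‖e‖ + ‖e - p‖ := norm_sub_le _ _
      _ ≤ _ := by linarith
  have h6 : ‖e‖ ≤ (1 + η) * ((1 + θ) * (r * ((1 + θ) * ‖e‖)) + θ * ‖e‖) := by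
    refine h2.trans ?_
    apply mul_le_mul_of_nonneg_left _ (by linarith)
    refine (norm_add_le _ _).trans (add_le_add (h1.trans ?_) h4)
    gcongr
  have h7 : 1 * ‖e‖ ≤ ((1 + η) * ((1 + θ) ^ 2 * r + θ)) * ‖e‖ := by
    rw [one_mul]
    refine h6.trans_eq ?_
    ring
  have h8 := le_of_mul_le_mul_right h7 hν
  have h9 := num1 hg hg1 hθ0 hθ hη0 hη hG0 hr0 hrG h8
  exact le_of_sq_le_sq h9 hg.le |> fun h => h

theorem p_upper {θ : ℝ} {e p : X} (hp : ‖e - p‖ ≤ θ * ‖e‖) : ‖p‖ ≤ (1 + θ) * ‖e‖ := by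
  have h6 : p = e - (e - p) := by abel
  calc ‖p‖ = ‖e - (e - p)‖ := by rw [← h6]
    _ ≤ ‖e‖ + ‖e - p‖ := norm_sub_le _ _
    _ ≤ _ := by linarith

theorem q_upper {θ : ℝ} (hθ0 : 0 < θ) (hθ : θ ≤ 1 / 1000) {e p q : X} {T : Submodule ℂ X}
    (hrot : RotP θ p q T) (hp : ‖e - p‖ ≤ θ * ‖e‖) : ‖q‖ ≤ 2 * ‖e‖ := by
  have h1 := hrot 0 1 1 0 (by simp) 0 T.zero_mem
  rw [add_zero, add_zero, zero_smul, zero_smul, one_smul, one_smul, add_zero, zero_add] at h1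
  have h2 := p_upper hp
  have h3 := norm_nonneg e
  calc ‖q‖ ≤ (1 + θ) * ‖p‖ := h1
    _ ≤ (1 + θ) * ((1 + θ) * ‖e‖) := by gcongr
    _ = ((1 + θ) * (1 + θ)) * ‖e‖ := by ring
    _ ≤ 2 * ‖e‖ := by
        apply mul_le_mul_of_nonneg_right _ h3
        nlinarith

theorem e'_lower {θ g : ℝ} (hg1 : g ≤ 1 / 100) (hθ0 : 0 < θ) (hθ : θ ≤ 1 / 1000) {e p q : X}
    {T : Submodule ℂ X} (hrot : RotP θ p q T) (hp : ‖e - p‖ ≤ θ * ‖e‖) {γ : ℂ} (hγ : ‖γ‖ ≤ g) :
    ‖e‖ ≤ 2 * ‖q - γ • e‖ := by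
  have hν := norm_nonneg e
  set R := Real.sqrt (1 + ‖γ‖ ^ 2) with hR
  have hR1 : 1 ≤ R := Real.one_le_sqrt.mpr (by nlinarith [sq_nonneg ‖γ‖])
  have hR2 : R ^ 2 = 1 + ‖γ‖ ^ 2 := Real.sq_sqrt (by positivity)
  have h1 := hrot (R : ℂ) 0 (-γ) 1 (by
    rw [Complex.norm_real, Real.norm_eq_abs, sq_abs, hR2, norm_zero, norm_neg, norm_one]; ring)
    0 T.zero_mem
  rw [add_zero, add_zero, zero_smul, add_zero, norm_smul, Complex.norm_real, Real.norm_eq_abs,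
    abs_of_pos (by linarith)] at h1
  have h2 : (-γ) • p + (1 : ℂ) • q = (q - γ • e) + γ • (e - p) := by module
  rw [h2] at h1
  have h3 : ‖γ • (e - p)‖ ≤ (1 / 100) * (1 / 1000 * ‖e‖) := by
    rw [norm_smul]
    apply mul_le_mul (hγ.trans hg1) (hp.trans (by gcongr)) (norm_nonneg _) (by norm_num)
  have h4 : ‖e‖ - ‖e - p‖ ≤ ‖p‖ := by
    have h5 : e = p + (e - p) := by abel
    have := norm_add_le p (e - p)
    rw [← h5] at this
    linarith
  have h5 : ‖p‖ ≤ R * ‖p‖ := by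
    nlinarith [norm_nonneg p]
  have h6 : (1 + θ) * ‖(q - γ • e) + γ • (e - p)‖
      ≤ (1 + 1 / 1000) * (‖q - γ • e‖ + (1 / 100) * (1 / 1000 * ‖e‖)) := by
    apply mul_le_mul (by linarith) ((norm_add_le _ _).trans (by linarith)) (norm_nonneg _)
      (by norm_num)
  have h7 : ‖e - p‖ ≤ 1 / 1000 * ‖e‖ := hp.trans (by gcongr)
  have h8 := norm_nonneg (q - γ • e)
  linarith

theorem sep_new {θ g ε' : ℝ} (hg : 0 < g) (hg1 : g ≤ 1 / 100) (hθ0 : 0 < θ) (hθ : θ ≤ 1 / 1000)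
    (hε' : 0 < ε') (hε1 : ε' ≤ 1) (hθε : θ ≤ ε' / 16) {e p q : X}
    {T : Submodule ℂ X} (hrot : RotP θ p q T) (hp : ‖e - p‖ ≤ θ * ‖e‖) {γ : ℂ} (hγ : ‖γ‖ ≤ g) :
    Sep ε' (q - γ • e) T := by
  intro a v hv
  set e' := q - γ • e with he'
  have hlow : ‖e‖ ≤ 2 * ‖e'‖ := e'_lower hg1 hθ0 hθ hrot hp hγ
  have h1 := hrot.half (-(γ * a)) a hv
  set w := (-(γ * a)) • p + a • q with hw
  have h2 : a • e' = w - (a * γ) • (e - p) := by rw [he', hw]; module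
  have h3 : ‖(a * γ) • (e - p)‖ ≤ 2 * g * θ * ‖a • e'‖ := by
    rw [norm_smul, norm_mul, norm_smul]
    have ha := norm_nonneg a
    calc ‖a‖ * ‖γ‖ * ‖e - p‖ ≤ ‖a‖ * g * (θ * (2 * ‖e'‖)) := by
          apply mul_le_mul (by gcongr) (hp.trans (by gcongr)) (norm_nonneg _) (by positivity)
      _ = _ := by ring
  have h4 : ‖a • e'‖ ≤ ‖w‖ + ‖(a * γ) • (e - p)‖ := by
    rw [h2]; exact norm_sub_le _ _
  have h5 : ‖w + v‖ ≤ ‖a • e' + v‖ + ‖(a * γ) • (e - p)‖ := by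
    have : w + v = (a • e' + v) + (a * γ) • (e - p) := by rw [h2]; abel
    rw [this]; exact norm_add_le _ _
  set A := ‖a • e'‖ with hA
  set N := ‖a • e' + v‖ with hN
  set D := ‖(a * γ) • (e - p)‖ with hD
  have hA0 : 0 ≤ A := norm_nonneg _
  have hN0 : 0 ≤ N := norm_nonneg _
  have hD0 : 0 ≤ D := norm_nonneg _
  have h6 : D ≤ (1 / 50) * θ * A := by
    refine h3.trans ?_
    have : 2 * g ≤ 1 / 50 := by linarith
    have : 2 * g * θ ≤ 1 / 50 * θ := by gcongr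
    exact mul_le_mul_of_nonneg_right this hA0
  have h7 : A ≤ (1 + θ / 2) * (N + D) + D := by
    calc A ≤ ‖w‖ + D := h4
      _ ≤ (1 + θ / 2) * ‖w + v‖ + D := by gcongr
      _ ≤ _ := by gcongr
  -- `A (1 - θ/10) ≤ (1 + θ/2) N`
  have h8 : (1 + θ / 2) * D + D ≤ 3 * D := by nlinarith
  have h9 : (1 - θ / 10) * A ≤ (1 + θ / 2) * N := by nlinarith
  have h10 : (1 + θ / 2) ≤ (1 + ε') * (1 - θ / 10) := by nlinarith
  have h11 : (1 - θ / 10) * A ≤ (1 - θ / 10) * ((1 + ε') * N) := by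
    calc (1 - θ / 10) * A ≤ (1 + θ / 2) * N := h9
      _ ≤ ((1 + ε') * (1 - θ / 10)) * N := by gcongr
      _ = _ := by ring
  exact le_of_mul_le_mul_left h11 (by linarith)

theorem rot_new {θ g δ : ℝ} (hg : 0 < g) (hg1 : g ≤ 1 / 100) (hθ0 : 0 < θ) (hθ : θ ≤ g ^ 2 / 32)
    (hδ : δ = 100 * g) {e p q : X} {T : Submodule ℂ X} (hrot : RotP θ p q T)
    (hp : ‖e - p‖ ≤ θ * ‖e‖) {γ : ℂ} (hγ : ‖γ‖ ≤ g) (hsep : Sep 1 (q - γ • e) T) :
    Rot δ e (q - γ • e) T := by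
  intro a b r habr v hv
  have hθ' : θ ≤ 1 / 1000 := by
    have : g ^ 2 ≤ (1 / 100) ^ 2 := pow_le_pow_left₀ hg.le hg1 2
    linarith
  have hθg : θ ≤ g / 100 := by nlinarith
  set e' := q - γ • e with he'
  have hlow : ‖e‖ ≤ 2 * ‖e'‖ := e'_lower hg1 hθ0 hθ' hrot hp hγ
  have hqu : ‖q‖ ≤ 2 * ‖e‖ := q_upper hθ0 hθ' hrot hp
  have ha := norm_nonneg a
  have hb := norm_nonneg b
  have hr := norm_nonneg r
  have hν := norm_nonneg e
  -- the quantity `s = |r| ‖e‖`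
  obtain ⟨s, hs⟩ : ∃ s : ℝ, s = ‖r‖ * ‖e‖ := ⟨_, rfl⟩
  have hs0 : 0 ≤ s := by rw [hs]; positivity
  set N5 := ‖r • e' + v‖ with hN5
  have hN50 : 0 ≤ N5 := norm_nonneg _
  have hs5 : s ≤ 4 * N5 := by
    have h1 := hsep r v hv
    rw [norm_smul] at h1
    rw [hs]
    nlinarith
  set N1 := ‖a • e + b • e' + v‖ with hN1
  have hN10 : 0 ≤ N1 := norm_nonneg _
  set c := a - b * γ with hc
  have har : ‖a‖ ≤ ‖r‖ := by
    rw [← pow_le_pow_iff_left₀ ha hr two_ne_zero]; nlinarith [sq_nonneg ‖b‖]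
  have hbr : ‖b‖ ≤ ‖r‖ := by
    rw [← pow_le_pow_iff_left₀ hb hr two_ne_zero]; nlinarith [sq_nonneg ‖a‖]
  have hcr : ‖c‖ ≤ 2 * ‖r‖ := by
    have h1 : ‖b * γ‖ ≤ ‖r‖ := by
      rw [norm_mul]
      calc ‖b‖ * ‖γ‖ ≤ ‖r‖ * 1 := mul_le_mul hbr (by linarith) (norm_nonneg _) hr
        _ = ‖r‖ := mul_one _
    exact (norm_sub_le _ _).trans (by linarith)
  set N2 := ‖c • p + b • q + v‖ with hN2
  have h12 : |N1 - N2| ≤ 2 * θ * s := by
    refine (abs_norm_sub_norm_le _ _).trans ?_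
    have e1 : a • e + b • e' + v - (c • p + b • q + v) = c • (e - p) := by
      rw [he', hc]; module
    rw [e1, norm_smul]
    calc ‖c‖ * ‖e - p‖ ≤ (2 * ‖r‖) * (θ * ‖e‖) :=
          mul_le_mul hcr hp (norm_nonneg _) (by positivity)
      _ = _ := by rw [hs]; ring
  -- the number `r1`
  obtain ⟨t, ht⟩ : ∃ t : ℝ, t = Real.sqrt (‖a - b * γ‖ ^ 2 + ‖b‖ ^ 2) := ⟨_, rfl⟩
  have ht0 : 0 ≤ t := by rw [ht]; exact Real.sqrt_nonneg _
  have ht2 : t ^ 2 = ‖c‖ ^ 2 + ‖b‖ ^ 2 := by rw [ht, Real.sq_sqrt (by positivity)]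
  have htr : |t - ‖r‖| ≤ 2 * g * ‖r‖ := by rw [ht]; exact num2 hg.le hg1 hγ habr
  obtain ⟨r1, hr1, hr1r⟩ : ∃ r1 : ℂ, ‖r1‖ = t ∧ ‖r1 - r‖ ≤ 2 * g * ‖r‖ := by
    by_cases h0 : r = 0
    · refine ⟨(t : ℂ), by rw [Complex.norm_real, Real.norm_eq_abs, abs_of_nonneg ht0], ?_⟩
      rw [h0, norm_zero] at htr ⊢
      rw [sub_zero, Complex.norm_real, Real.norm_eq_abs]
      simpa using htr
    · have hrn : 0 < ‖r‖ := norm_pos_iff.mpr h0
      have hrc : (‖r‖ : ℂ) ≠ 0 := by exact_mod_cast hrn.ne'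
      refine ⟨((t / ‖r‖ : ℝ) : ℂ) * r, ?_, ?_⟩
      · rw [norm_mul, Complex.norm_real, Real.norm_eq_abs, abs_of_nonneg (by positivity),
          div_mul_cancel₀ _ hrn.ne']
      · have e1 : ((t / ‖r‖ : ℝ) : ℂ) * r - r = (((t - ‖r‖) / ‖r‖ : ℝ) : ℂ) * r := by
          push_cast
          field_simp
        rw [e1, norm_mul, Complex.norm_real, Real.norm_eq_abs, abs_div, abs_of_pos hrn,
          div_mul_cancel₀ _ hrn.ne']
        exact htr
  set N3 := ‖r1 • q + v‖ with hN3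
  have hN30 : 0 ≤ N3 := norm_nonneg _
  have h23 : N2 ≤ (1 + θ) * N3 := by
    have := hrot c b 0 r1 (by rw [norm_zero, hr1, ht2]; ring) v hv
    rwa [zero_smul, zero_add] at this
  have h32 : N3 ≤ (1 + θ) * N2 := by
    have := hrot 0 r1 c b (by rw [norm_zero, hr1, ht2]; ring) v hv
    rwa [zero_smul, zero_add] at this
  have h35 : |N3 - N5| ≤ 5 * g * s := by
    refine (abs_norm_sub_norm_le _ _).trans ?_
    have e1 : r1 • q + v - (r • e' + v) = (r1 - r) • q + (r * γ) • e := by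
      rw [he']; module
    rw [e1]
    refine (norm_add_le _ _).trans ?_
    rw [norm_smul, norm_smul, norm_mul]
    have h1 : ‖r1 - r‖ * ‖q‖ ≤ (2 * g * ‖r‖) * (2 * ‖e‖) :=
      mul_le_mul hr1r hqu (norm_nonneg _) (by positivity)
    have h2 : ‖r‖ * ‖γ‖ * ‖e‖ ≤ ‖r‖ * g * ‖e‖ := by gcongr
    calc _ ≤ (2 * g * ‖r‖) * (2 * ‖e‖) + ‖r‖ * g * ‖e‖ := add_le_add h1 h2
      _ = _ := by rw [hs]; ring
  rw [abs_le] at h12 h35
  obtain ⟨h12a, h12b⟩ := h12
  obtain ⟨h35a, h35b⟩ := h35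
  have hgs : g * s ≤ g * (4 * N5) := by gcongr
  have hθs : θ * s ≤ (g / 100) * (4 * N5) := by
    apply mul_le_mul hθg hs5 hs0 (by positivity)
  have hgN : 0 ≤ g * N5 := by positivity
  -- upper bounds
  have u3 : N3 ≤ (1 + 20 * g) * N5 := by linarith
  have u3' : N3 ≤ 2 * N5 := by nlinarith
  have u2 : N2 ≤ (1 + 21 * g) * N5 := by
    have : θ * N3 ≤ (g / 100) * (2 * N5) := mul_le_mul hθg u3' hN30 (by positivity)
    nlinarith
  have u1 : N1 ≤ (1 + 22 * g) * N5 := by linarith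
  -- lower bounds
  have l3 : (1 - 20 * g) * N5 ≤ N3 := by linarith
  have hN20 : 0 ≤ N2 := norm_nonneg _
  have u2' : N2 ≤ 2 * N5 := by nlinarith
  have l2 : (1 - 21 * g) * N5 ≤ N2 := by
    have : θ * N2 ≤ (g / 100) * (2 * N5) := mul_le_mul hθg u2' hN20 (by positivity)
    nlinarith
  have l1 : (1 - 22 * g) * N5 ≤ N1 := by linarith
  constructor
  · refine u1.trans ?_
    gcongr
    linarith
  · have h1 : 1 ≤ (1 + δ) * (1 - 22 * g) := by rw [hδ]; nlinarith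
    calc N5 = 1 * N5 := (one_mul _).symm
      _ ≤ ((1 + δ) * (1 - 22 * g)) * N5 := by gcongr
      _ = (1 + δ) * ((1 - 22 * g) * N5) := by ring
      _ ≤ (1 + δ) * N1 := by
          apply mul_le_mul_of_nonneg_left l1
          rw [hδ]; linarith

/-- **The step.** -/
theorem stepC [CompleteSpace X] (hX : IsoHom ℂ X) (hU : PropU ℂ E2 X)
    (hXi : ¬ FiniteDimensional ℂ X) {V : Submodule ℂ X} (hVc : IsClosed (V : Set X))
    (hVi : ¬ FiniteDimensional ℂ V) {e : X} (he : e ≠ 0) {δ ε' η : ℝ} (hδ : 0 < δ) (hδ1 : δ ≤ 1)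
    (hε' : 0 < ε') (hε1 : ε' ≤ 1) (hη0 : 0 ≤ η) (hη : η ≤ (δ / 100) ^ 2 / 32)
    (hsep : Sep η e V) :
    ∃ e' ∈ V, ∃ V' ≤ V, e' ≠ 0 ∧ IsClosed (V' : Set X) ∧ ¬ FiniteDimensional ℂ V' ∧
      Sep ε' e' V' ∧ Rot δ e e' V' := by
  have hν : 0 < ‖e‖ := norm_pos_iff.mpr he
  set g := δ / 100 with hg
  have hg0 : 0 < g := by positivity
  have hg1 : g ≤ 1 / 100 := by rw [hg]; linarith
  have hδg : δ = 100 * g := by rw [hg]; ring
  set θ := min (g ^ 2 / 32) (ε' / 16) with hθdef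
  have hθ0 : 0 < θ := by positivity
  have hθ1 : θ ≤ g ^ 2 / 32 := min_le_left _ _
  have hθ2 : θ ≤ ε' / 16 := min_le_right _ _
  have hθ3 : θ ≤ 1 / 1000 := by
    have : g ^ 2 ≤ (1 / 100) ^ 2 := pow_le_pow_left₀ hg0.le hg1 2
    linarith
  -- `e ∉ V`
  have heV : e ∉ V := by
    intro h
    have h1 := hsep 1 (-e) (V.neg_mem h)
    rw [one_smul, add_neg_cancel, norm_zero, mul_zero] at h1
    linarith
  let Y : Submodule ℂ X := V ⊔ Submodule.span ℂ {e}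
  have hYc : IsClosed (Y : Set X) := Submodule.isClosed_sup_finiteDimensional _ _ hVc
  have hYi : ¬ FiniteDimensional ℂ Y := fun h =>
    hVi (Submodule.finiteDimensional_of_le (le_sup_left : V ≤ Y))
  have heY : e ∈ Y := (le_sup_right : _ ≤ Y) (Submodule.mem_span_singleton_self e)
  obtain ⟨p, q, T, hpY, hqY, hTY, hTc, hTi, hp, hrot⟩ := stepB hX hU hXi hYc hYi heY hθ0
    (mul_pos hθ0 hν)
  obtain ⟨v, hv, y, hy, hvy⟩ := Submodule.mem_sup.mp hqY
  obtain ⟨γ, rfl⟩ := Submodule.mem_span_singleton.mp hy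
  have hqe : q - γ • e = v := by rw [← hvy]; abel
  have hqV : q - γ • e ∈ V := by rw [hqe]; exact hv
  have hγ := gamma_bound hg0 hg1 hθ0 hθ1 hη0 hη he hrot hp hsep hqV
  obtain ⟨f, hf0, hf1⟩ := exists_functional_closed hVc heV
  have hTV : ∀ x ∈ T, f x = 0 → x ∈ V := by
    intro x hx hfx
    obtain ⟨v', hv', y', hy', hvy'⟩ := Submodule.mem_sup.mp (hTY hx)
    obtain ⟨c, rfl⟩ := Submodule.mem_span_singleton.mp hy'
    rw [← hvy', map_add, hf0 v' hv', map_smul, hf1, zero_add, smul_eq_mul, mul_one] at hfx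
    rw [← hvy', hfx, zero_smul, add_zero]
    exact hv'
  have hsep1 : Sep 1 (q - γ • e) T :=
    sep_new hg0 hg1 hθ0 hθ3 one_pos le_rfl (hθ2.trans (by linarith)) hrot hp hγ
  refine ⟨q - γ • e, hqV, T ⊓ V, inf_le_right, ?_, hTc.inter hVc, ?_, ?_, ?_⟩
  · intro h0
    have := e'_lower hg1 hθ0 hθ3 hrot hp hγ
    rw [h0, norm_zero, mul_zero] at this
    linarith
  · intro h
    apply hTi
    let G : T →ₗ[ℂ] ℂ := (f : X →ₗ[ℂ] ℂ).comp T.subtype
    apply finite_of_ker G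
    let j : LinearMap.ker G →ₗ[ℂ] (T ⊓ V : Submodule ℂ X) :=
      LinearMap.codRestrict (T ⊓ V) (T.subtype ∘ₗ (LinearMap.ker G).subtype) (by
        rintro ⟨⟨x, hx⟩, hxG⟩
        exact ⟨hx, hTV x hx hxG⟩)
    apply Module.Finite.of_injective j
    intro x y hxy
    have h1 := congrArg Subtype.val hxy
    exact Subtype.ext (Subtype.ext h1)
  · intro a w hw
    exact sep_new hg0 hg1 hθ0 hθ3 hε' hε1 hθ2 hrot hp hγ a w hw.1
  · intro a b r habr w hw
    exact rot_new hg0 hg1 hθ0 hθ1 hδg hrot hp hγ hsep1 a b r habr w hw.1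

end stepC

end PoolAgent.MP_df72c7_an
end

section

/-!
# The chain and the complex case
-/

namespace PoolAgent.MP_df72c7_an

open Complex Filter Topology TopologicalSpace

section fold

variable {X : Type*} [NormedAddCommGroup X] [NormedSpace ℂ X]

/-- accumulated coefficients -/
noncomputable def rr (c : ℕ → ℂ) (j : ℕ) : ℂ :=
  if j = 0 then c 0 else ((Real.sqrt (∑ i ∈ Finset.range (j + 1), ‖c i‖ ^ 2) : ℝ) : ℂ)

theorem rr_sq (c : ℕ → ℂ) (j : ℕ) : ‖rr c j‖ ^ 2 = ∑ i ∈ Finset.range (j + 1), ‖c i‖ ^ 2 := by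
  unfold rr
  by_cases h : j = 0
  · subst h; simp
  · rw [if_neg h, Complex.norm_real, Real.norm_eq_abs, sq_abs]
    exact Real.sq_sqrt (Finset.sum_nonneg fun i _ => by positivity)

theorem fold {e : ℕ → X} {V : ℕ → Submodule ℂ X} {δ : ℕ → ℝ} (hδ : ∀ n, 0 ≤ δ n)
    (h1 : ∀ n, e (n + 1) ∈ V n) (h2 : ∀ n, V (n + 1) ≤ V n)
    (h3 : ∀ n, Rot (δ n) (e n) (e (n + 1)) (V (n + 1))) (c : ℕ → ℂ) (N : ℕ) :
    ∀ j ≤ N,
      ‖∑ i ∈ Finset.range (N + 1), c i • e i‖ ≤ (∏ n ∈ Finset.range j, (1 + δ n))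
        * ‖rr c j • e j + ∑ i ∈ Finset.Ico (j + 1) (N + 1), c i • e i‖ ∧
      ‖rr c j • e j + ∑ i ∈ Finset.Ico (j + 1) (N + 1), c i • e i‖
        ≤ (∏ n ∈ Finset.range j, (1 + δ n)) * ‖∑ i ∈ Finset.range (N + 1), c i • e i‖ := by
  have hanti : ∀ n m, n ≤ m → V m ≤ V n := by
    intro n m hnm
    induction m, hnm using Nat.le_induction with
    | base => exact le_rfl
    | succ m _ ih => exact (h2 m).trans ih
  have hP : ∀ j, 0 ≤ ∏ n ∈ Finset.range j, (1 + δ n) := fun j =>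
    Finset.prod_nonneg fun n _ => by linarith [hδ n]
  intro j
  induction j with
  | zero =>
    intro _
    have e1 : rr c 0 • e 0 + ∑ i ∈ Finset.Ico (0 + 1) (N + 1), c i • e i
        = ∑ i ∈ Finset.range (N + 1), c i • e i := by
      rw [Finset.range_eq_Ico, Finset.sum_eq_sum_Ico_succ_bot (Nat.succ_pos N)]
      simp [rr]
    rw [e1]
    simp
  | succ j ih =>
    intro hj
    obtain ⟨ih1, ih2⟩ := ih (by omega)
    have e1 : ∑ i ∈ Finset.Ico (j + 1) (N + 1), c i • e i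
        = c (j + 1) • e (j + 1) + ∑ i ∈ Finset.Ico (j + 1 + 1) (N + 1), c i • e i :=
      Finset.sum_eq_sum_Ico_succ_bot (by omega) _
    set v := ∑ i ∈ Finset.Ico (j + 1 + 1) (N + 1), c i • e i with hv
    have hvV : v ∈ V (j + 1) := by
      apply Submodule.sum_mem
      intro i hi
      have hi' := (Finset.mem_Ico.mp hi).1
      apply Submodule.smul_mem
      obtain ⟨k, rfl⟩ : ∃ k, i = k + 1 := ⟨i - 1, by omega⟩
      exact hanti (j + 1) k (by omega) (h1 k)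
    have hr : ‖rr c j‖ ^ 2 + ‖c (j + 1)‖ ^ 2 = ‖rr c (j + 1)‖ ^ 2 := by
      rw [rr_sq, rr_sq, Finset.sum_range_succ _ (j + 1)]
    obtain ⟨r1, r2⟩ := h3 j (rr c j) (c (j + 1)) (rr c (j + 1)) hr v hvV
    rw [e1, ← add_assoc] at ih1 ih2
    rw [Finset.prod_range_succ]
    constructor
    · calc _ ≤ _ := ih1
        _ ≤ (∏ n ∈ Finset.range j, (1 + δ n)) * ((1 + δ j) * ‖rr c (j + 1) • e (j + 1) + v‖) :=
            mul_le_mul_of_nonneg_left r1 (hP j)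
        _ = _ := by ring
    · calc _ ≤ _ := r2
        _ ≤ (1 + δ j) * ((∏ n ∈ Finset.range j, (1 + δ n))
            * ‖∑ i ∈ Finset.range (N + 1), c i • e i‖) :=
            mul_le_mul_of_nonneg_left ih2 (by linarith [hδ j])
        _ = _ := by ring

theorem fold_final {e : ℕ → X} {V : ℕ → Submodule ℂ X} {δ : ℕ → ℝ} {P : ℝ} (hδ : ∀ n, 0 ≤ δ n)
    (h1 : ∀ n, e (n + 1) ∈ V n) (h2 : ∀ n, V (n + 1) ≤ V n)
    (h3 : ∀ n, Rot (δ n) (e n) (e (n + 1)) (V (n + 1))) (he0 : ‖e 0‖ = 1)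
    (hP : ∀ N, ∏ n ∈ Finset.range N, (1 + δ n) ≤ P) (c : ℕ → ℂ) (N : ℕ) :
    ‖∑ i ∈ Finset.range (N + 1), c i • e i‖ ^ 2
        ≤ P ^ 4 * ∑ i ∈ Finset.range (N + 1), ‖c i‖ ^ 2 ∧
    ∑ i ∈ Finset.range (N + 1), ‖c i‖ ^ 2
        ≤ P ^ 4 * ‖∑ i ∈ Finset.range (N + 1), c i • e i‖ ^ 2 := by
  have hP1 : 1 ≤ P := by simpa using hP 0
  have hlast : ∀ c : ℕ → ℂ, ‖∑ i ∈ Finset.range (N + 1), c i • e i‖ ≤ P * (‖rr c N‖ * ‖e N‖) ∧
      ‖rr c N‖ * ‖e N‖ ≤ P * ‖∑ i ∈ Finset.range (N + 1), c i • e i‖ := by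
    intro c
    obtain ⟨a1, a2⟩ := fold hδ h1 h2 h3 c N N le_rfl
    rw [Finset.Ico_self, Finset.sum_empty, add_zero, norm_smul] at a1 a2
    constructor
    · exact a1.trans (mul_le_mul_of_nonneg_right (hP N) (by positivity))
    · exact a2.trans (mul_le_mul_of_nonneg_right (hP N) (norm_nonneg _))
  -- comparison of `e N` and `e 0`
  have hN : 1 ≤ P * ‖e N‖ ∧ ‖e N‖ ≤ P := by
    obtain ⟨b1, b2⟩ := hlast (fun i => if i = 0 then 1 else 0)
    have e1 : ∑ i ∈ Finset.range (N + 1), (if i = 0 then (1 : ℂ) else 0) • e i = e 0 := by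
      rw [Finset.sum_eq_single 0]
      · simp
      · intro i _ hi; simp [hi]
      · intro h; exact absurd (Finset.mem_range.mpr (Nat.succ_pos N)) h
    have e2 : ‖rr (fun i => if i = 0 then 1 else 0) N‖ = 1 := by
      rw [← sq_eq_sq₀ (norm_nonneg _) zero_le_one, rr_sq, Finset.sum_eq_single 0]
      · simp
      · intro i _ hi; simp [hi]
      · intro h; exact absurd (Finset.mem_range.mpr (Nat.succ_pos N)) h
    rw [e1, e2, he0, one_mul] at b1
    rw [e1, e2, he0, one_mul, mul_one] at b2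
    exact ⟨b1, b2⟩
  obtain ⟨a1, a2⟩ := hlast c
  rw [← rr_sq]
  set A := ‖∑ i ∈ Finset.range (N + 1), c i • e i‖ with hA
  set r := ‖rr c N‖ with hr
  have hA0 : 0 ≤ A := norm_nonneg _
  have hr0 : 0 ≤ r := norm_nonneg _
  have hn0 : 0 ≤ ‖e N‖ := norm_nonneg _
  constructor
  · have h4 : A ≤ P ^ 2 * r := by
      calc A ≤ P * (r * ‖e N‖) := a1
        _ ≤ P * (r * P) := by gcongr; exact hN.2
        _ = _ := by ring
    calc A ^ 2 ≤ (P ^ 2 * r) ^ 2 := pow_le_pow_left₀ hA0 h4 2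
      _ = _ := by ring
  · have h4 : r ≤ P ^ 2 * A := by
      calc r = r * 1 := (mul_one _).symm
        _ ≤ r * (P * ‖e N‖) := by gcongr; exact hN.1
        _ = P * (r * ‖e N‖) := by ring
        _ ≤ P * (P * A) := by gcongr
        _ = _ := by ring
    calc r ^ 2 ≤ (P ^ 2 * A) ^ 2 := pow_le_pow_left₀ hr0 h4 2
      _ = _ := by ring

end fold

section main

variable {X : Type*} [NormedAddCommGroup X] [NormedSpace ℂ X]

/-- states of the chain -/
def Good (η : ℝ) (s : X × Submodule ℂ X) : Prop :=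
  s.1 ≠ 0 ∧ IsClosed (s.2 : Set X) ∧ ¬ FiniteDimensional ℂ s.2 ∧ Sep η s.1 s.2

theorem almost_hilbert [CompleteSpace X] [SeparableSpace X] (hX : IsoHom ℂ X)
    (hXi : ¬ FiniteDimensional ℂ X) {ε : ℝ} (hε : 0 < ε) :
    ∃ x : ℕ → X, ∀ c : ℕ →₀ ℂ,
      ‖c.sum fun i a => a • x i‖ ^ 2 ≤ (1 + ε) * c.sum (fun _ a => ‖a‖ ^ 2) ∧
      c.sum (fun _ a => ‖a‖ ^ 2) ≤ (1 + ε) * ‖c.sum fun i a => a • x i‖ ^ 2 := by
  have hU : PropU ℂ E2 X := propU_of_propP hX (propP_two hX hXi) hXi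
  obtain ⟨ε2, hε2, hε24⟩ : ∃ ε2 : ℝ, 0 < ε2 ∧ (1 + ε2) ^ 4 ≤ 1 + ε := by
    refine ⟨min 1 ε / 15, by positivity, ?_⟩
    set m := min 1 ε with hm
    have h0 : 0 < m := by positivity
    have h1 : m ≤ 1 := min_le_left _ _
    have h2 : m ≤ ε := min_le_right _ _
    have h3 : (1 + m / 15) ^ 4 = 1 + (4 * (m / 15) + 6 * (m / 15) ^ 2 + 4 * (m / 15) ^ 3
      + (m / 15) ^ 4) := by ring
    have h4 : (m / 15) ^ 2 ≤ m / 15 := by nlinarith
    have h5 : (m / 15) ^ 3 ≤ m / 15 := by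
      calc (m / 15) ^ 3 = (m / 15) ^ 2 * (m / 15) := by ring
        _ ≤ 1 * (m / 15) := by gcongr; nlinarith
        _ = _ := one_mul _
    have h6 : (m / 15) ^ 4 ≤ m / 15 := by
      calc (m / 15) ^ 4 = (m / 15) ^ 3 * (m / 15) := by ring
        _ ≤ 1 * (m / 15) := by gcongr; linarith
        _ = _ := one_mul _
    rw [h3]; linarith
  obtain ⟨d, hd, hdP⟩ := exists_errors hε2
  let δ : ℕ → ℝ := fun n => min (d n) 1
  have hδ0 : ∀ n, 0 < δ n := fun n => lt_min (hd n) one_pos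
  have hδ1 : ∀ n, δ n ≤ 1 := fun n => min_le_right _ _
  have hδP : ∀ N, ∏ n ∈ Finset.range N, (1 + δ n) ≤ 1 + ε2 := by
    intro N
    refine le_trans ?_ (hdP N)
    apply Finset.prod_le_prod
    · intro n _; linarith [hδ0 n]
    · intro n _
      have : δ n ≤ d n := min_le_left _ _
      linarith
  let η : ℕ → ℝ := fun n => (δ n / 100) ^ 2 / 32
  have hη0 : ∀ n, 0 < η n := fun n => by
    have := hδ0 n
    positivity
  have hη1 : ∀ n, η n ≤ 1 := fun n => by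
    have h1 : (δ n / 100) ^ 2 ≤ (1 / 100) ^ 2 :=
      pow_le_pow_left₀ (by have := hδ0 n; positivity) (by have := hδ1 n; linarith) 2
    change (δ n / 100) ^ 2 / 32 ≤ 1
    linarith
  have htop : ¬ FiniteDimensional ℂ (⊤ : Submodule ℂ X) := by
    intro h
    exact hXi (Module.Finite.equiv Submodule.topEquiv)
  -- the initial state
  obtain ⟨x0, -, hx0, V0, hV0c, hV0i, -, hr0⟩ := exists_hermitian hX (F := ⊥) (Z := ⊤)
    isClosed_univ htop (hη0 0)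
  have hgood0 : Good (η 0) (x0, V0) := by
    refine ⟨?_, hV0c, hV0i, ?_⟩
    · intro h
      have h : x0 = 0 := h
      rw [h, norm_zero] at hx0
      exact zero_ne_one hx0
    · intro a v hv
      have hv : v ∈ V0 := hv
      have h1 := hr0 a (-1) (by simp) v (by rw [bot_sup_eq]; exact hv)
      have h2 : a • x0 = (1 / 2 : ℂ) • ((a • x0 + v) - ((-1 * a) • x0 + v)) := by module
      have h3 : ‖(1 / 2 : ℂ)‖ = 1 / 2 := by norm_num
      have h4 := norm_sub_le (a • x0 + v) ((-1 * a) • x0 + v)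
      change ‖a • x0‖ ≤ (1 + η 0) * ‖a • x0 + v‖
      have h5 : ‖a • x0‖ = (1 / 2) * ‖(a • x0 + v) - ((-1 * a) • x0 + v)‖ := by
        rw [← h3, ← norm_smul, ← h2]
      have h6 : 0 ≤ η 0 * ‖a • x0 + v‖ := mul_nonneg (hη0 0).le (norm_nonneg _)
      linarith
  have hstep : ∀ (n : ℕ) (s : {s : X × Submodule ℂ X // Good (η n) s}),
      ∃ s' : {s : X × Submodule ℂ X // Good (η (n + 1)) s}, s'.1.1 ∈ s.1.2 ∧ s'.1.2 ≤ s.1.2 ∧
        Rot (δ n) s.1.1 s'.1.1 s'.1.2 := by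
    rintro n ⟨⟨e, V⟩, he, hVc, hVi, hsep⟩
    obtain ⟨e', he'V, V', hV'V, he'0, hV'c, hV'i, hsep', hrot'⟩ := stepC hX hU hXi hVc hVi he
      (hδ0 n) (hδ1 n) (hη0 (n + 1)) (hη1 (n + 1)) (hη0 n).le le_rfl hsep
    exact ⟨⟨(e', V'), he'0, hV'c, hV'i, hsep'⟩, he'V, hV'V, hrot'⟩
  choose next hn1 hn2 hn3 using hstep
  let S : ∀ n : ℕ, {s : X × Submodule ℂ X // Good (η n) s} := fun n =>
    Nat.rec (motive := fun n => {s : X × Submodule ℂ X // Good (η n) s}) ⟨(x0, V0), hgood0⟩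
      (fun n s => next n s) n
  have hS : ∀ n, S (n + 1) = next n (S n) := fun n => rfl
  let e : ℕ → X := fun n => (S n).1.1
  let V : ℕ → Submodule ℂ X := fun n => (S n).1.2
  have k1 : ∀ n, e (n + 1) ∈ V n := fun n => hn1 n (S n)
  have k2 : ∀ n, V (n + 1) ≤ V n := fun n => hn2 n (S n)
  have k3 : ∀ n, Rot (δ n) (e n) (e (n + 1)) (V (n + 1)) := fun n => hn3 n (S n)
  refine ⟨e, fun c => ?_⟩
  obtain ⟨N, hN⟩ : ∃ N, c.support ⊆ Finset.range N := c.support.exists_nat_subset_range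
  have hN' : c.support ⊆ Finset.range (N + 1) :=
    hN.trans (Finset.range_subset_range.mpr (Nat.le_succ N))
  have s1 : (c.sum fun i a => a • e i) = ∑ i ∈ Finset.range (N + 1), c i • e i :=
    Finsupp.sum_of_support_subset c hN' _ (fun i _ => zero_smul _ _)
  have s2 : (c.sum fun _ a => ‖a‖ ^ 2) = ∑ i ∈ Finset.range (N + 1), ‖c i‖ ^ 2 :=
    Finsupp.sum_of_support_subset c hN' _ (fun i _ => by simp)
  rw [s1, s2]
  obtain ⟨f1, f2⟩ := fold_final (fun n => (hδ0 n).le) k1 k2 k3 hx0 hδP c N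
  constructor
  · exact f1.trans (mul_le_mul_of_nonneg_right hε24 (Finset.sum_nonneg fun i _ => by positivity))
  · exact f2.trans (mul_le_mul_of_nonneg_right hε24 (by positivity))

theorem complex_case [CompleteSpace X] [SeparableSpace X] (hXi : ¬ FiniteDimensional ℂ X)
    (h : ∀ Y : Submodule ℂ X, IsClosed (Y : Set X) → ¬ FiniteDimensional ℂ Y →
      Nonempty (Y ≃ₗᵢ[ℂ] X)) : Nonempty (X ≃ₗᵢ[ℂ] lp (fun _ : ℕ => ℂ) 2) := by
  have hX : IsoHom ℂ X := fun Y hYc hYi => by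
    obtain ⟨τ⟩ := h Y hYc hYi
    exact ⟨τ.symm⟩
  have hX' : DF72.IsoHom ℂ X := by
    intro Y hYc hYf
    obtain ⟨τ⟩ := hX Y hYc (fun hfd => hYf (by
      have := hfd
      exact (Submodule.fg_iff_finiteDimensional Y).mpr this))
    refine ⟨Y.subtypeₗᵢ.comp τ.toLinearIsometry, ?_⟩
    ext y
    constructor
    · rintro ⟨x, rfl⟩
      exact (τ x).2
    · intro hy
      refine ⟨τ.symm ⟨y, hy⟩, ?_⟩
      change ((τ (τ.symm ⟨y, hy⟩) : Y) : X) = y
      rw [τ.apply_symm_apply]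
  exact DF72.equiv_l2_of_almost hX' hXi fun ε hε => almost_hilbert hX hXi hε

end main

end PoolAgent.MP_df72c7_an
end
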