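import Mathlib

section

/-!
# Non-surjective linear isometries `T`: `T - 1` is not bounded below on finite-codimensional
subspaces, and `T` is almost the identity on some infinite-dimensional subspace.
-/

namespace PoolAgent.MP_df72c7_an

open Filter Topology

section spectral

variable {𝕜 : Type*} [RCLike 𝕜] {E : Type*} [NormedAddCommGroup E] [NormedSpace 𝕜 E]
  [CompleteSpace E]

/-- A perturbation lemma: a surjective operator bounded below stays surjective under small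
perturbations. -/
theorem surj_of_near {A B : E →L[𝕜] E} {c d : ℝ} (hc : 0 < c) (hA : ∀ x, c * ‖x‖ ≤ ‖A x‖)
    (hAs : Function.Surjective A) (hd : d < c) (hAB : ∀ x, ‖A x - B x‖ ≤ d * ‖x‖) :
    Function.Surjective B := by
  have hinj : Function.Injective A := by
    intro x y hxy
    have := hA (x - y)
    rw [map_sub, hxy, sub_self, norm_zero] at this
    have h2 : ‖x - y‖ = 0 := by
      have h3 := norm_nonneg (x - y)
      nlinarith
    exact sub_eq_zero.mp (norm_eq_zero.mp h2)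
  have hker : A.ker = ⊥ := LinearMap.ker_eq_bot.mpr hinj
  have hran : A.range = ⊤ := LinearMap.range_eq_top.mpr hAs
  let e : E ≃L[𝕜] E := ContinuousLinearEquiv.ofBijective A hker hran
  have he : ∀ x, e x = A x := fun x => rfl
  have hei : ∀ y, ‖e.symm y‖ ≤ c⁻¹ * ‖y‖ := by
    intro y
    have := hA (e.symm y)
    rw [← he, e.apply_symm_apply] at this
    rw [inv_mul_eq_div, le_div_iff₀ hc]
    linarith
  -- consider `e⁻¹ ∘ B = 1 - e⁻¹ (A - B)`
  let D : E →L[𝕜] E := (e.symm : E →L[𝕜] E).comp (A - B)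
  have hD : ‖D‖ < 1 := by
    by_cases hd0 : 0 ≤ d
    · have h1 : ‖D‖ ≤ c⁻¹ * d := by
        refine ContinuousLinearMap.opNorm_le_bound _ (by positivity) fun x => ?_
        calc ‖D x‖ = ‖e.symm (A x - B x)‖ := rfl
          _ ≤ c⁻¹ * ‖A x - B x‖ := hei _
          _ ≤ c⁻¹ * (d * ‖x‖) := by gcongr; exact hAB x
          _ = c⁻¹ * d * ‖x‖ := by ring
      have h2 : c⁻¹ * d < 1 := by
        rw [inv_mul_eq_div, div_lt_one hc]; exact hd
      linarith
    · push Not at hd0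
      have h0 : ∀ x : E, ‖x‖ = 0 := by
        intro x
        have h1 := hAB x
        have h2 := norm_nonneg (A x - B x)
        have h3 := norm_nonneg x
        by_contra hne
        have h4 : 0 < ‖x‖ := lt_of_le_of_ne h3 (Ne.symm hne)
        nlinarith
      have : D = 0 := by
        ext x
        have := h0 (D x)
        simpa using norm_eq_zero.mp this
      rw [this]; simp
  have hu : IsUnit (1 - D) := (Units.oneSub D hD).isUnit
  have hs : Function.Surjective (1 - D : E →L[𝕜] E) := by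
    obtain ⟨u, hu⟩ := hu
    intro y
    refine ⟨(↑u⁻¹ : E →L[𝕜] E) y, ?_⟩
    rw [← hu]
    have h3 : ((↑u : E →L[𝕜] E) * (↑u⁻¹ : E →L[𝕜] E)) y = (1 : E →L[𝕜] E) y := by
      rw [u.mul_inv]
    exact h3
  intro y
  obtain ⟨x, hx⟩ := hs (e.symm y)
  refine ⟨x, ?_⟩
  have h1 : (1 - D : E →L[𝕜] E) x = x - e.symm (A x - B x) := rfl
  rw [h1] at hx
  have h2 : e (x - e.symm (A x - B x)) = y := by rw [hx]; simp
  rw [map_sub, e.apply_symm_apply, he] at h2
  rw [← h2]; abel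

/-- If `T` is a linear isometry which is not onto then `T - 1` is not bounded below. -/
theorem exists_near_fixed (T : E →ₗᵢ[𝕜] E) (hT : ¬ Function.Surjective T) {c : ℝ} (hc : 0 < c) :
    ∃ x : E, ‖x‖ = 1 ∧ ‖T x - x‖ < c := by
  by_contra hcon
  push Not at hcon
  have hb1 : ∀ x, c * ‖x‖ ≤ ‖T x - x‖ := by
    intro x
    by_cases hx : x = 0
    · simp [hx]
    have hn : 0 < ‖x‖ := norm_pos_iff.mpr hx
    have h1 := hcon (((‖x‖⁻¹ : ℝ) : 𝕜) • x) (by
      rw [norm_smul]; simp [inv_mul_cancel₀ hn.ne'])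
    rw [map_smul, ← smul_sub, norm_smul] at h1
    simp only [RCLike.norm_ofReal, abs_inv, abs_norm] at h1
    rw [inv_mul_eq_div, le_div_iff₀ hn] at h1
    exact h1
  let A : ℝ → (E →L[𝕜] E) := fun t => T.toContinuousLinearMap - (t : 𝕜) • (1 : E →L[𝕜] E)
  have hA : ∀ t x, A t x = T x - (t : 𝕜) • x := fun t x => rfl
  -- lower bound for all `t ≥ 0`
  have hlow : ∀ t, 0 ≤ t → ∀ x, (c / 2) * ‖x‖ ≤ ‖A t x‖ := by
    intro t ht x
    rw [hA]
    have hn := norm_nonneg x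
    have e1 : ‖(t : 𝕜) • x‖ = |t| * ‖x‖ := by rw [norm_smul, RCLike.norm_ofReal]
    by_cases h : |t - 1| ≤ c / 2
    · have h1 : T x - x = (T x - (t : 𝕜) • x) + ((t - 1 : ℝ) : 𝕜) • x := by
        push_cast
        rw [sub_smul, one_smul]; abel
      have h2 : ‖T x - x‖ ≤ ‖T x - (t : 𝕜) • x‖ + |t - 1| * ‖x‖ := by
        rw [h1]
        refine (norm_add_le _ _).trans ?_
        rw [norm_smul, RCLike.norm_ofReal]
      have h3 := hb1 x
      nlinarith
    · push Not at h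
      have h2 : |‖T x‖ - ‖(t : 𝕜) • x‖| ≤ ‖T x - (t : 𝕜) • x‖ := abs_norm_sub_norm_le _ _
      rw [T.norm_map, e1, abs_of_nonneg ht] at h2
      have h3 : |‖x‖ - t * ‖x‖| = |t - 1| * ‖x‖ := by
        have : ‖x‖ - t * ‖x‖ = -((t - 1) * ‖x‖) := by ring
        rw [this, abs_neg, abs_mul, abs_of_nonneg hn]
      rw [h3] at h2
      nlinarith
  have h2s : Function.Surjective (A 2) := by
    refine surj_of_near (A := (-2 : 𝕜) • (1 : E →L[𝕜] E)) (c := 2) (d := 1) (by norm_num) ?_ ?_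
      (by norm_num) ?_
    · intro x
      simp only [smul_apply, one_apply_eq_self, norm_smul, norm_neg,
        RCLike.norm_ofNat]
      exact le_rfl
    · intro y
      refine ⟨(-(2 : 𝕜))⁻¹ • y, ?_⟩
      simp only [smul_apply, one_apply_eq_self, smul_smul]
      have : (-(2 : 𝕜)) * (-(2 : 𝕜))⁻¹ = 1 := mul_inv_cancel₀ (by simp)
      rw [this, one_smul]
    · intro x
      rw [hA]
      simp only [smul_apply, one_apply_eq_self]
      have : (-2 : 𝕜) • x - (T x - ((2 : ℝ) : 𝕜) • x) = - T x := by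
        push_cast
        rw [neg_smul]; abel
      rw [this, norm_neg, T.norm_map, one_mul]
  obtain ⟨N, hN⟩ := exists_nat_gt (4 / c)
  have hN0 : 0 < (N : ℝ) := lt_of_le_of_lt (by positivity) hN
  have hstep : ∀ k : ℕ, k ≤ N → Function.Surjective (A (2 - 2 * k / N)) := by
    intro k
    induction k with
    | zero => intro _; simpa using h2s
    | succ k ih =>
      intro hk
      have ihk := ih (by omega)
      have hk' : ((k + 1 : ℕ) : ℝ) ≤ N := by exact_mod_cast hk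
      push_cast at hk'
      have ht0 : 0 ≤ 2 - 2 * (k : ℝ) / N := by
        rw [sub_nonneg, div_le_iff₀ hN0]; linarith
      refine surj_of_near (c := c / 2) (d := 2 / N) (by positivity) (hlow _ ht0) ihk ?_ ?_
      · rw [div_lt_div_iff₀ hN0 (by norm_num)]
        rw [div_lt_iff₀ hc] at hN
        linarith
      · intro x
        rw [hA, hA]
        have : T x - ((2 - 2 * (k : ℝ) / N : ℝ) : 𝕜) • x
            - (T x - ((2 - 2 * ((k + 1 : ℕ) : ℝ) / N : ℝ) : 𝕜) • x)
            = ((-(2 / N) : ℝ) : 𝕜) • x := by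
          have h4 : (T x - ((2 - 2 * (k : ℝ) / N : ℝ) : 𝕜) • x
            - (T x - ((2 - 2 * ((k + 1 : ℕ) : ℝ) / N : ℝ) : 𝕜) • x))
            = ((2 - 2 * ((k + 1 : ℕ) : ℝ) / N : ℝ) : 𝕜) • x
              - ((2 - 2 * (k : ℝ) / N : ℝ) : 𝕜) • x := by abel
          rw [h4, ← sub_smul]
          congr 1
          rw [← RCLike.ofReal_sub]
          congr 1
          push_cast
          field_simp
          ring
        rw [this, norm_smul, RCLike.norm_ofReal, abs_neg, abs_of_nonneg (by positivity)]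
  have h0 := hstep N le_rfl
  have h1 : (2 - 2 * (N : ℝ) / N : ℝ) = 0 := by field_simp; ring
  rw [h1] at h0
  apply hT
  intro y
  obtain ⟨x, hx⟩ := h0 y
  refine ⟨x, ?_⟩
  rw [hA] at hx
  simpa using hx

/-- If `T` is a linear isometry which is not onto then `T - 1` is not bounded below on the kernel
of any continuous linear map into a finite-dimensional space. -/
theorem exists_near_fixed_ker (T : E →ₗᵢ[𝕜] E) (hT : ¬ Function.Surjective T)
    {G : Type*} [NormedAddCommGroup G] [NormedSpace 𝕜 G] [FiniteDimensional 𝕜 G]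
    (q : E →L[𝕜] G) {c : ℝ} (hc : 0 < c) :
    ∃ x : E, q x = 0 ∧ ‖x‖ = 1 ∧ ‖T x - x‖ < c := by
  by_contra hcon
  push Not at hcon
  have hb1 : ∀ x, q x = 0 → c * ‖x‖ ≤ ‖T x - x‖ := by
    intro x hqx
    by_cases hx : x = 0
    · simp [hx]
    have hn : 0 < ‖x‖ := norm_pos_iff.mpr hx
    have h1 := hcon (((‖x‖⁻¹ : ℝ) : 𝕜) • x) (by rw [map_smul, hqx, smul_zero]) (by
      rw [norm_smul]; simp [inv_mul_cancel₀ hn.ne'])
    rw [map_smul, ← smul_sub, norm_smul] at h1
    simp only [RCLike.norm_ofReal, abs_inv, abs_norm] at h1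
    rw [inv_mul_eq_div, le_div_iff₀ hn] at h1
    exact h1
  -- the closed invariant subspace `E₁`
  let R : Submodule 𝕜 E := LinearMap.range (T.toLinearMap - LinearMap.id)
  let E₁ : Submodule 𝕜 E := R.topologicalClosure
  have hR : ∀ x, T x - x ∈ R := fun x => ⟨x, rfl⟩
  have hRE : R ≤ E₁ := R.le_topologicalClosure
  have hE₁c : IsClosed (E₁ : Set E) := R.isClosed_topologicalClosure
  have hTR : ∀ x ∈ R, T x ∈ R := by
    rintro x ⟨y, rfl⟩
    refine ⟨T y, ?_⟩
    simp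
  have hTE : ∀ x ∈ E₁, T x ∈ E₁ := by
    intro x hx
    have hx' : x ∈ closure (R : Set E) := hx
    have : T x ∈ closure (R : Set E) :=
      map_mem_closure T.continuous hx' (fun y hy => hTR y hy)
    exact this
  let T₁ : E₁ →ₗᵢ[𝕜] E₁ :=
    { toLinearMap := T.toLinearMap.restrict hTE
      norm_map' := fun x => by
        show ‖T (x : E)‖ = ‖(x : E)‖
        exact T.norm_map _ }
  have hT₁ : ∀ x : E₁, ((T₁ x : E₁) : E) = T (x : E) := fun x => rfl
  have hns : ¬ Function.Surjective T₁ := by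
    intro hs
    apply hT
    intro x
    obtain ⟨y, hy⟩ := hs ⟨T x - x, hRE (hR x)⟩
    refine ⟨x - y, ?_⟩
    have h1 : T (y : E) = T x - x := by rw [← hT₁, hy]
    rw [map_sub, h1]; abel
  have : CompleteSpace E₁ := hE₁c.completeSpace_coe
  have hex : ∀ n : ℕ, ∃ x : E₁, ‖x‖ = 1 ∧ ‖T₁ x - x‖ < 1 / ((n : ℝ) + 1) := fun n =>
    exists_near_fixed T₁ hns (by positivity)
  choose x hx1 hx2 using hex
  -- right inverse of `q`
  obtain ⟨s, hs⟩ := LinearMap.exists_rightInverse_of_surjective q.toLinearMap.rangeRestrict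
    (LinearMap.range_rangeRestrict _)
  have : FiniteDimensional 𝕜 (LinearMap.range q.toLinearMap) := inferInstance
  let s' : (LinearMap.range q.toLinearMap) →L[𝕜] E := LinearMap.toContinuousLinearMap s
  have hdec : ∀ d : E, ∃ r : E, q (d - r) = 0 ∧ ‖r‖ ≤ ‖s'‖ * ‖q d‖ := by
    intro d
    refine ⟨s' (q.toLinearMap.rangeRestrict d), ?_, ?_⟩
    · have h1 : q.toLinearMap.rangeRestrict (s (q.toLinearMap.rangeRestrict d))
          = q.toLinearMap.rangeRestrict d := by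
        have := LinearMap.congr_fun hs (q.toLinearMap.rangeRestrict d)
        exact this
      have h2 := congrArg Subtype.val h1
      rw [map_sub, sub_eq_zero]
      exact h2.symm
    · exact (s'.le_opNorm _).trans_eq rfl
  have : ProperSpace G := FiniteDimensional.proper_rclike 𝕜 G
  have hbdd : ∀ n, q (x n : E) ∈ Metric.closedBall (0 : G) ‖q‖ := by
    intro n
    rw [mem_closedBall_zero_iff]
    refine (q.le_opNorm _).trans ?_
    have : ‖((x n : E₁) : E)‖ = 1 := hx1 n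
    rw [this, mul_one]
  obtain ⟨g, _, φ, hφ, hg⟩ := (isCompact_closedBall (0 : G) ‖q‖).tendsto_subseq hbdd
  let y : ℕ → E := fun k => (x (φ k) : E)
  have hy1 : ∀ k, ‖y k‖ = 1 := fun k => hx1 (φ k)
  have hy2 : Tendsto (fun k => ‖T (y k) - y k‖) atTop (𝓝 0) := by
    have h1 : Tendsto (fun n : ℕ => 1 / ((n : ℝ) + 1)) atTop (𝓝 0) :=
      tendsto_one_div_add_atTop_nhds_zero_nat
    refine squeeze_zero (fun _ => norm_nonneg _) (fun k => ?_) (h1.comp hφ.tendsto_atTop)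
    exact (hx2 (φ k)).le
  have hg' : Tendsto (fun k => q (y k)) atTop (𝓝 g) := hg
  let w : ℕ → ℝ := fun k => c⁻¹ * ‖T (y k) - y k‖ + (c⁻¹ * (2 * ‖s'‖) + ‖s'‖) * ‖q (y k) - g‖
  have hw : Tendsto w atTop (𝓝 0) := by
    have h1 : Tendsto (fun k => ‖q (y k) - g‖) atTop (𝓝 0) := by
      have := (tendsto_iff_norm_sub_tendsto_zero).1 hg'
      exact this
    have h2 := (hy2.const_mul c⁻¹).add (h1.const_mul (c⁻¹ * (2 * ‖s'‖) + ‖s'‖))
    simpa using h2
  have hyw : ∀ k l, ‖y k - y l‖ ≤ w k + w l := by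
    intro k l
    obtain ⟨r, hr0, hr⟩ := hdec (y k - y l)
    have h1 := hb1 _ hr0
    have h2 : T (y k - y l - r) - (y k - y l - r)
        = (T (y k) - y k) - (T (y l) - y l) - (T r - r) := by
      simp only [map_sub]; abel
    have h3 : ‖T (y k - y l - r) - (y k - y l - r)‖
        ≤ ‖T (y k) - y k‖ + ‖T (y l) - y l‖ + 2 * ‖r‖ := by
      rw [h2]
      refine (norm_sub_le _ _).trans ?_
      have h4 : ‖T r - r‖ ≤ 2 * ‖r‖ := by
        refine (norm_sub_le _ _).trans ?_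
        rw [T.norm_map]; linarith
      have h5 := norm_sub_le (T (y k) - y k) (T (y l) - y l)
      linarith
    have h4 : ‖q (y k - y l)‖ ≤ ‖q (y k) - g‖ + ‖q (y l) - g‖ := by
      have : q (y k - y l) = (q (y k) - g) - (q (y l) - g) := by rw [map_sub]; abel
      rw [this]; exact norm_sub_le _ _
    have h5 : ‖y k - y l‖ ≤ ‖y k - y l - r‖ + ‖r‖ := by
      have := norm_add_le (y k - y l - r) r
      simpa using this
    have hs0 : 0 ≤ ‖s'‖ := norm_nonneg _
    have h6 : ‖r‖ ≤ ‖s'‖ * (‖q (y k) - g‖ + ‖q (y l) - g‖) :=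
      hr.trans (by gcongr)
    have h7 : ‖y k - y l - r‖ ≤ c⁻¹ * (‖T (y k) - y k‖ + ‖T (y l) - y l‖ + 2 * ‖r‖) := by
      rw [inv_mul_eq_div, le_div_iff₀ hc, mul_comm]
      exact h1.trans h3
    have h8 : c⁻¹ * (2 * ‖r‖) ≤ c⁻¹ * (2 * (‖s'‖ * (‖q (y k) - g‖ + ‖q (y l) - g‖))) := by
      gcongr
    simp only [w]
    nlinarith
  have hcau : CauchySeq y := by
    rw [Metric.cauchySeq_iff]
    intro ε hε
    have h1 := (tendsto_order.1 hw).2 (ε / 2) (by positivity)
    obtain ⟨N, hN⟩ := eventually_atTop.1 h1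
    refine ⟨N, fun m hm n hn => ?_⟩
    rw [dist_eq_norm]
    have h2 := hN m hm
    have h3 := hN n hn
    linarith [hyw m n]
  obtain ⟨z, hz⟩ := cauchySeq_tendsto_of_complete hcau
  have hz1 : ‖z‖ = 1 := by
    have h1 : Tendsto (fun k => ‖y k‖) atTop (𝓝 ‖z‖) := hz.norm
    have h2 : Tendsto (fun k => ‖y k‖) atTop (𝓝 1) := by simp [hy1]
    exact tendsto_nhds_unique h1 h2
  have hzE : z ∈ E₁ := hE₁c.mem_of_tendsto hz (Eventually.of_forall fun k => (x (φ k)).2)
  have hzf : T z = z := by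
    have h1 : Tendsto (fun k => ‖T (y k) - y k‖) atTop (𝓝 ‖T z - z‖) :=
      (((T.continuous.tendsto z).comp hz).sub hz).norm
    have h2 := tendsto_nhds_unique h1 hy2
    exact sub_eq_zero.mp (norm_eq_zero.mp h2)
  -- Cesàro means
  have hzcl : z ∈ closure (R : Set E) := hzE
  rw [Metric.mem_closure_iff] at hzcl
  obtain ⟨b, ⟨u, hu⟩, hb⟩ := hzcl (1 / 2) (by norm_num)
  have hbu : b = T u - u := hu.symm
  rw [dist_eq_norm, hbu] at hb
  have hind : ∀ n : ℕ, ∃ e : E, ‖e‖ ≤ (n : ℝ) / 2 ∧ (n : 𝕜) • z = e + ((T^[n]) u - u) := by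
    intro n
    induction n with
    | zero => exact ⟨0, by simp, by simp⟩
    | succ n ih =>
      obtain ⟨e, he, hen⟩ := ih
      refine ⟨T e + (z - (T u - u)), ?_, ?_⟩
      · refine (norm_add_le _ _).trans ?_
        rw [T.norm_map]
        push_cast
        linarith
      · have h1 : (n : 𝕜) • z = T e + ((T^[n + 1]) u - T u) := by
          have h2 := congrArg T hen
          rw [map_smul, hzf, map_add, map_sub] at h2
          rw [Function.iterate_succ_apply']
          exact h2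
        push_cast
        rw [add_smul, one_smul, h1]
        abel
  obtain ⟨n, hn⟩ := exists_nat_gt (4 * ‖u‖)
  obtain ⟨e, he, hen⟩ := hind n
  have hiter : ∀ m : ℕ, ‖(T^[m]) u‖ = ‖u‖ := by
    intro m
    induction m with
    | zero => rfl
    | succ m ih => rw [Function.iterate_succ_apply', T.norm_map, ih]
  have h1 : ‖(n : 𝕜) • z‖ = n := by rw [norm_smul, hz1, mul_one, RCLike.norm_natCast]
  have h2 : ‖e + ((T^[n]) u - u)‖ ≤ (n : ℝ) / 2 + 2 * ‖u‖ := by
    refine (norm_add_le _ _).trans ?_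
    have := norm_sub_le ((T^[n]) u) u
    rw [hiter] at this
    linarith
  rw [← hen, h1] at h2
  linarith

end spectral

end PoolAgent.MP_df72c7_an
end

section

section

/-!
# Infinite-dimensional subspaces on which a non-surjective isometry is almost the identity
-/

namespace PoolAgent.MP_df72c7_an

open Filter Topology

section nearfixed

variable {𝕜 : Type*} [RCLike 𝕜] {E : Type*} [NormedAddCommGroup E] [NormedSpace 𝕜 E]

/-- Coefficient bounds for triangular systems. -/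
theorem coeff_bound {x : ℕ → E} {f : ℕ → (E →L[𝕜] 𝕜)} (hx : ∀ n, ‖x n‖ ≤ 1) (hf : ∀ n, ‖f n‖ ≤ 1)
    (hfx : ∀ n, f n (x n) = 1) (hlt : ∀ m n, m < n → f m (x n) = 0) (a : ℕ → 𝕜) (N : ℕ) :
    ∀ j < N, ‖a j‖ ≤ 2 ^ j * ‖∑ i ∈ Finset.range N, a i • x i‖ := by
  intro j
  induction j using Nat.strong_induction_on with
  | _ j ih =>
    intro hj
    set S := ∑ i ∈ Finset.range N, a i • x i with hS
    have h1 : f j S = a j + ∑ i ∈ Finset.range j, a i * f j (x i) := by
      rw [hS, map_sum]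
      have h2 : ∀ i ∈ Finset.range N, f j (a i • x i)
          = if i < j then a i * f j (x i) else if i = j then a j else 0 := by
        intro i _
        rw [map_smul, smul_eq_mul]
        by_cases h : i < j
        · rw [if_pos h]
        · rw [if_neg h]
          by_cases h' : i = j
          · subst h'; rw [if_pos rfl, hfx, mul_one]
          · rw [if_neg h', hlt j i (by omega), mul_zero]
      rw [Finset.sum_congr rfl h2]
      have h3 : ∑ i ∈ Finset.range N, (if i < j then a i * f j (x i) else if i = j then a j else 0)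
          = ∑ i ∈ Finset.range (j + 1),
            (if i < j then a i * f j (x i) else if i = j then a j else 0) := by
        symm
        apply Finset.sum_subset
        · intro i hi
          simp only [Finset.mem_range] at hi ⊢
          omega
        · intro i _ hi
          simp only [Finset.mem_range] at hi
          rw [if_neg (by omega), if_neg (by omega)]
      rw [h3, Finset.sum_range_succ, if_neg (lt_irrefl j), if_pos rfl, add_comm]
      congr 1
      apply Finset.sum_congr rfl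
      intro i hi
      rw [if_pos (Finset.mem_range.mp hi)]
    have h2 : a j = f j S - ∑ i ∈ Finset.range j, a i * f j (x i) := by rw [h1]; ring
    have h3 : ‖f j S‖ ≤ ‖S‖ := by
      refine ((f j).le_opNorm S).trans ?_
      have := norm_nonneg S
      have := hf j
      nlinarith
    have h4 : ‖∑ i ∈ Finset.range j, a i * f j (x i)‖ ≤ ∑ i ∈ Finset.range j, 2 ^ i * ‖S‖ := by
      refine norm_sum_le_of_le _ fun i hi => ?_
      have hij := Finset.mem_range.mp hi
      rw [norm_mul]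
      have h5 : ‖f j (x i)‖ ≤ 1 := by
        refine ((f j).le_opNorm _).trans ?_
        have h6 := hf j
        have h7 := hx i
        have h8 := norm_nonneg (f j)
        nlinarith [norm_nonneg (x i)]
      have h6 := ih i hij (by omega)
      have h7 := norm_nonneg (a i)
      nlinarith [norm_nonneg (f j (x i))]
    have h5 : ∑ i ∈ Finset.range j, (2 : ℝ) ^ i * ‖S‖ = (2 ^ j - 1) * ‖S‖ := by
      rw [← Finset.sum_mul, geom_sum_eq (by norm_num)]
      norm_num
    rw [h2]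
    refine (norm_sub_le _ _).trans ?_
    rw [h5] at h4
    linarith

theorem exists_near_fixed_subspace [CompleteSpace E] (T : E →ₗᵢ[𝕜] E)
    (hT : ¬ Function.Surjective T)
    {G : Type*} [NormedAddCommGroup G] [NormedSpace 𝕜 G] [FiniteDimensional 𝕜 G]
    (q : E →L[𝕜] G) {ε : ℝ} (hε : 0 < ε) :
    ∃ V : Submodule 𝕜 E, IsClosed (V : Set E) ∧ ¬ FiniteDimensional 𝕜 V ∧
      (∀ v ∈ V, q v = 0) ∧ ∀ v ∈ V, ‖T v - v‖ ≤ ε * ‖v‖ := by
  classical
  let P : ℕ × E × (E →L[𝕜] 𝕜) → Prop := fun a => q a.2.1 = 0 ∧ ‖a.2.1‖ = 1 ∧ ‖a.2.2‖ ≤ 1 ∧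
    a.2.2 a.2.1 = 1 ∧ ‖T a.2.1 - a.2.1‖ < ε * (1 / 4) ^ (a.1 + 1)
  let r : ℕ × E × (E →L[𝕜] 𝕜) → ℕ × E × (E →L[𝕜] 𝕜) → Prop := fun a b =>
    a.1 < b.1 ∧ a.2.2 b.2.1 = 0
  have hstep : ∀ s : Finset (ℕ × E × (E →L[𝕜] 𝕜)), (∀ x ∈ s, P x) →
      ∃ y, P y ∧ ∀ x ∈ s, r x y := by
    intro s _
    let n : ℕ := s.sup (fun a => a.1) + 1
    let q' : E →L[𝕜] G × (s → 𝕜) := q.prod (ContinuousLinearMap.pi fun a : s => a.1.2.2)
    obtain ⟨x, hqx, hx1, hx2⟩ := exists_near_fixed_ker T hT q'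
      (c := ε * (1 / 4) ^ (n + 1)) (by positivity)
    have hq1 : q x = 0 := congrArg Prod.fst hqx
    have hq2 : ∀ a ∈ s, a.2.2 x = 0 := by
      intro a ha
      exact congrFun (congrArg Prod.snd hqx) ⟨a, ha⟩
    obtain ⟨f, hf1, hf2⟩ := exists_dual_vector 𝕜 x (by rw [hx1]; norm_num)
    refine ⟨(n, x, f), ⟨hq1, hx1, hf1.le, ?_, hx2⟩, ?_⟩
    · show f x = 1
      rw [hf2, hx1]; simp
    · intro a ha
      refine ⟨?_, hq2 a ha⟩
      show a.1 < n
      have : a.1 ≤ s.sup (fun a => a.1) := Finset.le_sup (f := fun a => a.1) ha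
      omega
  obtain ⟨u, hu1, hu2⟩ := exists_seq_of_forall_finset_exists P r hstep
  let x : ℕ → E := fun n => (u n).2.1
  let f : ℕ → (E →L[𝕜] 𝕜) := fun n => (u n).2.2
  have hidx : ∀ n, n ≤ (u n).1 := by
    intro n
    induction n with
    | zero => exact Nat.zero_le _
    | succ n ih => exact lt_of_le_of_lt ih (hu2 n (n + 1) (Nat.lt_succ_self n)).1
  have hx1 : ∀ n, ‖x n‖ = 1 := fun n => (hu1 n).2.1
  have hf1 : ∀ n, ‖f n‖ ≤ 1 := fun n => (hu1 n).2.2.1
  have hfx : ∀ n, f n (x n) = 1 := fun n => (hu1 n).2.2.2.1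
  have hlt : ∀ m n, m < n → f m (x n) = 0 := fun m n h => (hu2 m n h).2
  have hTx : ∀ n, ‖T (x n) - x n‖ ≤ ε * (1 / 4) ^ (n + 1) := by
    intro n
    refine (hu1 n).2.2.2.2.le.trans ?_
    have : ((1 : ℝ) / 4) ^ ((u n).1 + 1) ≤ (1 / 4) ^ (n + 1) :=
      pow_le_pow_of_le_one (by norm_num) (by norm_num) (by have := hidx n; omega)
    gcongr
  have hcb := coeff_bound (fun n => (hx1 n).le) hf1 hfx hlt
  let V₀ : Submodule 𝕜 E := Submodule.span 𝕜 (Set.range x)
  -- every element of the span is a finite sum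
  have hfin : ∀ v ∈ V₀, ∃ (a : ℕ → 𝕜) (N : ℕ), v = ∑ i ∈ Finset.range N, a i • x i := by
    intro v hv
    obtain ⟨c, hc⟩ := (Finsupp.mem_span_range_iff_exists_finsupp).1 hv
    obtain ⟨N, hN⟩ : ∃ N, c.support ⊆ Finset.range N := c.support.exists_nat_subset_range
    refine ⟨c, N, ?_⟩
    rw [← hc, Finsupp.sum]
    apply Finset.sum_subset hN
    intro i _ hi
    rw [Finsupp.notMem_support_iff.mp hi, zero_smul]
  have hTV₀ : ∀ v ∈ V₀, ‖T v - v‖ ≤ ε * ‖v‖ := by
    intro v hv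
    obtain ⟨a, N, rfl⟩ := hfin v hv
    have h1 : T (∑ i ∈ Finset.range N, a i • x i) - ∑ i ∈ Finset.range N, a i • x i
        = ∑ i ∈ Finset.range N, a i • (T (x i) - x i) := by
      rw [map_sum, ← Finset.sum_sub_distrib]
      exact Finset.sum_congr rfl fun i _ => by rw [map_smul, smul_sub]
    rw [h1]
    set S := ‖∑ i ∈ Finset.range N, a i • x i‖ with hS
    have hS0 : 0 ≤ S := norm_nonneg _
    have h2 : ‖∑ i ∈ Finset.range N, a i • (T (x i) - x i)‖
        ≤ ∑ i ∈ Finset.range N, (ε * S / 4) * (1 / 2) ^ i := by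
      refine norm_sum_le_of_le _ fun i hi => ?_
      rw [norm_smul]
      have h3 := hcb a N i (Finset.mem_range.mp hi)
      have h4 := hTx i
      have h5 : ‖a i‖ * ‖T (x i) - x i‖ ≤ (2 ^ i * S) * (ε * (1 / 4) ^ (i + 1)) := by
        gcongr
      refine h5.trans_eq ?_
      have h6 : (2 : ℝ) ^ i * (1 / 4) ^ i = (1 / 2) ^ i := by
        rw [← mul_pow]; norm_num
      rw [pow_succ, ← h6]; ring
    refine h2.trans ?_
    rw [← Finset.mul_sum]
    have h3 : ∑ i ∈ Finset.range N, ((1 : ℝ) / 2) ^ i ≤ 2 := by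
      rw [geom_sum_eq (by norm_num)]
      have : (0 : ℝ) ≤ (1 / 2) ^ N := by positivity
      rw [div_le_iff_of_neg (by norm_num)]
      linarith
    have h4 : (0 : ℝ) ≤ ε * S / 4 := by positivity
    nlinarith
  refine ⟨V₀.topologicalClosure, V₀.isClosed_topologicalClosure, ?_, ?_, ?_⟩
  · -- infinite-dimensional
    intro hfd
    have hli : LinearIndependent 𝕜 x := by
      rw [linearIndependent_iff']
      intro s g hg i hi
      obtain ⟨N, hN⟩ : ∃ N, s ⊆ Finset.range N := s.exists_nat_subset_range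
      have h1 := hcb (fun j => if j ∈ s then g j else 0) N i
        (Finset.mem_range.mp (hN hi))
      have h2 : ∑ j ∈ Finset.range N, (if j ∈ s then g j else 0) • x j = 0 := by
        rw [← hg]
        symm
        rw [← Finset.sum_subset hN]
        · exact Finset.sum_congr rfl fun j hj => by rw [if_pos hj]
        · intro j _ hj
          rw [if_neg hj, zero_smul]
      rw [h2, norm_zero, mul_zero] at h1
      simp only [hi, if_true] at h1
      exact norm_le_zero_iff.mp h1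
    have hxV : ∀ n, x n ∈ V₀.topologicalClosure := fun n =>
      V₀.le_topologicalClosure (Submodule.subset_span ⟨n, rfl⟩)
    have hli' : LinearIndependent 𝕜 (fun n => (⟨x n, hxV n⟩ : V₀.topologicalClosure)) := by
      apply LinearIndependent.of_comp V₀.topologicalClosure.subtype
      exact hli
    have := hli'.finite
    exact not_finite ℕ
  · intro v hv
    have hcl : IsClosed {v : E | q v = 0} := isClosed_eq q.continuous continuous_const
    have hsub : (V₀ : Set E) ⊆ {v : E | q v = 0} := by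
      intro v hv
      have : V₀ ≤ LinearMap.ker q.toLinearMap := by
        rw [Submodule.span_le]
        rintro _ ⟨n, rfl⟩
        exact (hu1 n).1
      exact this hv
    exact closure_minimal hsub hcl hv
  · intro v hv
    have hcl : IsClosed {v : E | ‖T v - v‖ ≤ ε * ‖v‖} :=
      isClosed_le ((T.continuous.sub continuous_id).norm) (continuous_const.mul continuous_norm)
    exact closure_minimal hTV₀ hcl hv

end nearfixed

end PoolAgent.MP_df72c7_an
end

section

/-!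
# Isometrically homogeneous spaces: non-surjective self-isometries almost fixing a given
finite-dimensional subspace
-/

namespace PoolAgent.MP_df72c7_an

open Filter Topology

section homog

variable {𝕜 : Type*} [RCLike 𝕜] {X : Type*} [NormedAddCommGroup X] [NormedSpace 𝕜 X]

/-- `X` is isometric to each of its closed infinite-dimensional subspaces. -/
def IsoHom (𝕜 : Type*) [RCLike 𝕜] (X : Type*) [NormedAddCommGroup X] [NormedSpace 𝕜 X] : Prop :=
  ∀ Y : Submodule 𝕜 X, IsClosed (Y : Set X) → ¬ FiniteDimensional 𝕜 Y → Nonempty (X ≃ₗᵢ[𝕜] Y)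

theorem finite_of_ker {M N : Type*} [AddCommGroup M] [Module 𝕜 M] [AddCommGroup N] [Module 𝕜 N]
    [FiniteDimensional 𝕜 N] (g : M →ₗ[𝕜] N) (h : FiniteDimensional 𝕜 (LinearMap.ker g)) :
    FiniteDimensional 𝕜 M := by
  have h1 : Module.Finite 𝕜 (M ⧸ LinearMap.ker g) :=
    Module.Finite.equiv (g.quotKerEquivRange).symm
  exact Module.Finite.of_submodule_quotient (LinearMap.ker g)

/-- In an infinite-dimensional subspace one finds vectors killed by finitely many functionals and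
outside of a given finite-dimensional subspace. -/
theorem exists_mem_ker_notMem {Z : Submodule 𝕜 X} (hZ : ¬ FiniteDimensional 𝕜 Z)
    {N : Type*} [AddCommGroup N] [Module 𝕜 N] [FiniteDimensional 𝕜 N] (g : X →ₗ[𝕜] N)
    (M : Submodule 𝕜 X) [FiniteDimensional 𝕜 M] :
    ∃ y ∈ Z, g y = 0 ∧ y ∉ M := by
  by_contra hcon
  push Not at hcon
  apply hZ
  let g' : Z →ₗ[𝕜] N := g.comp Z.subtype
  apply finite_of_ker g'
  let i : LinearMap.ker g' →ₗ[𝕜] M :=
    { toFun := fun z => ⟨((z : Z) : X), hcon _ (z : Z).2 z.2⟩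
      map_add' := fun _ _ => rfl
      map_smul' := fun _ _ => rfl }
  refine FiniteDimensional.of_injective i ?_
  intro a b hab
  have := congrArg Subtype.val hab
  exact Subtype.ext (Subtype.ext this)

theorem exists_functional {M : Submodule 𝕜 X} [FiniteDimensional 𝕜 M] {y : X} (hy : y ∉ M) :
    ∃ φ : X →L[𝕜] 𝕜, (∀ m ∈ M, φ m = 0) ∧ φ y = 1 := by
  obtain ⟨ψ, hψ1, hψ2⟩ := Submodule.exists_le_ker_of_notMem hy
  let M' : Submodule 𝕜 X := M ⊔ Submodule.span 𝕜 {y}
  have hM'f : FiniteDimensional 𝕜 M' := inferInstance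
  obtain ⟨π, hπ⟩ := Submodule.ClosedComplemented.of_finiteDimensional M'
  let θ : M' →L[𝕜] 𝕜 := LinearMap.toContinuousLinearMap (ψ.comp M'.subtype)
  have hMM' : M ≤ M' := le_sup_left
  have hyM' : y ∈ M' := (le_sup_right : Submodule.span 𝕜 {y} ≤ M')
    (Submodule.mem_span_singleton_self y)
  refine ⟨(ψ y)⁻¹ • (θ.comp π), ?_, ?_⟩
  · intro m hm
    have h1 : π m = ⟨m, hMM' hm⟩ := hπ ⟨m, hMM' hm⟩
    show (ψ y)⁻¹ • θ (π m) = 0
    rw [h1]
    have : θ ⟨m, hMM' hm⟩ = ψ m := rfl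
    rw [this, show ψ m = 0 from hψ2 hm, smul_zero]
  · have h1 : π y = ⟨y, hyM'⟩ := hπ ⟨y, hyM'⟩
    show (ψ y)⁻¹ • θ (π y) = 1
    rw [h1]
    have : θ ⟨y, hyM'⟩ = ψ y := rfl
    rw [this, smul_eq_mul, inv_mul_cancel₀ hψ1]

/-- Countable biorthogonal systems inside `Z`, with functionals vanishing on `F`. -/
theorem exists_biorthogonal {Z F : Submodule 𝕜 X} (hZ : ¬ FiniteDimensional 𝕜 Z)
    [FiniteDimensional 𝕜 F] {N : Type*} [AddCommGroup N] [Module 𝕜 N] [FiniteDimensional 𝕜 N]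
    (π : X →ₗ[𝕜] N) :
    ∃ (x : ℕ → X) (φ : ℕ → (X →L[𝕜] 𝕜)), (∀ n, x n ∈ Z) ∧ (∀ n, π (x n) = 0) ∧
      (∀ n, ∀ f ∈ F, φ n f = 0) ∧ (∀ n, φ n (x n) = 1) ∧ ∀ m n, m ≠ n → φ m (x n) = 0 := by
  classical
  let P : X × (X →L[𝕜] 𝕜) → Prop := fun a => a.1 ∈ Z ∧ π a.1 = 0 ∧ (∀ f ∈ F, a.2 f = 0) ∧
    a.2 a.1 = 1
  let r : X × (X →L[𝕜] 𝕜) → X × (X →L[𝕜] 𝕜) → Prop := fun a b => a.2 b.1 = 0 ∧ b.2 a.1 = 0
  have hstep : ∀ s : Finset (X × (X →L[𝕜] 𝕜)), (∀ x ∈ s, P x) → ∃ y, P y ∧ ∀ x ∈ s, r x y := by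
    intro s _
    let M : Submodule 𝕜 X := F ⊔ Submodule.span 𝕜 ((s.image Prod.fst : Finset X) : Set X)
    have hM : FiniteDimensional 𝕜 M := by
      have : FiniteDimensional 𝕜 (Submodule.span 𝕜 ((s.image Prod.fst : Finset X) : Set X)) :=
        inferInstance
      exact inferInstance
    let g : X →ₗ[𝕜] N × (s → 𝕜) := π.prod (LinearMap.pi fun a : s => (a.1.2 : X →ₗ[𝕜] 𝕜))
    obtain ⟨y, hyZ, hgy, hyM⟩ := exists_mem_ker_notMem hZ g M
    obtain ⟨φ, hφ1, hφ2⟩ := exists_functional hyM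
    refine ⟨(y, φ), ⟨hyZ, congrArg Prod.fst hgy, ?_, hφ2⟩, ?_⟩
    · intro f hf
      exact hφ1 f ((le_sup_left : F ≤ M) hf)
    · intro a ha
      refine ⟨congrFun (congrArg Prod.snd hgy) ⟨a, ha⟩, ?_⟩
      apply hφ1
      apply (le_sup_right : _ ≤ M)
      apply Submodule.subset_span
      simp only [Finset.coe_image, Set.mem_image, Finset.mem_coe]
      exact ⟨a, ha, rfl⟩
  obtain ⟨u, hu1, hu2⟩ := exists_seq_of_forall_finset_exists P r hstep
  refine ⟨fun n => (u n).1, fun n => (u n).2, fun n => (hu1 n).1, fun n => (hu1 n).2.1,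
    fun n => (hu1 n).2.2.1, fun n => (hu1 n).2.2.2, ?_⟩
  intro m n hmn
  rcases lt_or_gt_of_ne hmn with h | h
  · exact (hu2 m n h).1
  · exact (hu2 n m h).2

/-- A family of points indexed by an uncountable type in a separable metric space contains two
close points with different indices. -/
theorem exists_close {Y : Type*} [PseudoMetricSpace Y] [TopologicalSpace.SeparableSpace Y]
    (v : ℝ → Y) {δ : ℝ} (hδ : 0 < δ) : ∃ s t : ℝ, s < t ∧ dist (v s) (v t) < δ := by
  by_contra hcon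
  push Not at hcon
  have hcon' : ∀ s t : ℝ, s ≠ t → δ ≤ dist (v s) (v t) := by
    intro s t hst
    rcases lt_or_gt_of_ne hst with h | h
    · exact hcon s t h
    · rw [dist_comm]; exact hcon t s h
  have hdis : (Set.univ : Set ℝ).PairwiseDisjoint fun t => Metric.ball (v t) (δ / 2) := by
    intro s _ t _ hst
    have := Metric.ball_disjoint_ball (x := v s) (y := v t) (ε := δ / 2) (δ := δ / 2)
      (by linarith [hcon' s t hst])
    exact this
  have hc : (Set.univ : Set ℝ).Countable :=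
    hdis.countable_of_isOpen (fun t _ => Metric.isOpen_ball)
      (fun t _ => Metric.nonempty_ball.mpr (by positivity))
  exact Set.not_countable_univ hc

/-- Composition of two isometries `W ≃ X ≃ W'` with `W' ≤ W`, almost fixing `F` as soon as the
images of a basis of `F` in `X` are close. -/
theorem near_fix_of_close {F W W' : Submodule 𝕜 X} {ι : Type*} [Fintype ι] (b : Module.Basis ι 𝕜 F)
    (hFW' : F ≤ W') (hW'W : W' ≤ W) (τ : X ≃ₗᵢ[𝕜] W) (τ' : X ≃ₗᵢ[𝕜] W') {δ : ℝ}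
    (hclose : ∀ i, ‖τ.symm ⟨(b i : X), hW'W (hFW' (b i).2)⟩ - τ'.symm ⟨(b i : X), hFW' (b i).2⟩‖
      ≤ δ) {C : ℝ} (hC : ∀ (c : ι → 𝕜) (i : ι), ‖c i‖ ≤ C * ‖∑ j, c j • (b j : X)‖) :
    ∃ T : W →ₗᵢ[𝕜] W, (∀ w, (T w : X) ∈ W') ∧
      ∀ f (hf : f ∈ F), ‖(T ⟨f, hW'W (hFW' hf)⟩ : X) - f‖ ≤ (Fintype.card ι * C * δ) * ‖f‖ := by
  let A : W →ₗ[𝕜] X := W'.subtype.comp ((τ'.toLinearEquiv : X →ₗ[𝕜] W').comp
    (τ.symm.toLinearEquiv : W →ₗ[𝕜] X))
  have hA : ∀ w, A w = (τ' (τ.symm w) : X) := fun w => rfl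
  have hAn : ∀ w, ‖A w‖ = ‖w‖ := by
    intro w
    rw [hA]
    have h1 : ‖((τ' (τ.symm w) : W') : X)‖ = ‖τ' (τ.symm w)‖ := rfl
    rw [h1, τ'.norm_map, τ.symm.norm_map]
  have hAW' : ∀ w, A w ∈ W' := fun w => by rw [hA]; exact Subtype.mem _
  let T : W →ₗᵢ[𝕜] W :=
    { toLinearMap := A.codRestrict W (fun w => hW'W (hAW' w))
      norm_map' := fun w => hAn w }
  have hT : ∀ w, (T w : X) = A w := fun w => rfl
  have hb : ∀ i, ‖A ⟨(b i : X), hW'W (hFW' (b i).2)⟩ - (b i : X)‖ ≤ δ := by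
    intro i
    have h2 : τ' (τ'.symm ⟨(b i : X), hFW' (b i).2⟩) = ⟨(b i : X), hFW' (b i).2⟩ :=
      τ'.apply_symm_apply _
    have h1 : A ⟨(b i : X), hW'W (hFW' (b i).2)⟩ - (b i : X)
        = ((τ' (τ.symm ⟨(b i : X), hW'W (hFW' (b i).2)⟩)
          - τ' (τ'.symm ⟨(b i : X), hFW' (b i).2⟩) : W') : X) := by
      rw [h2, hA]
      rfl
    rw [h1, ← map_sub]
    exact ((τ'.norm_map _).le).trans (hclose i)
  refine ⟨T, fun w => by rw [hT]; exact hAW' w, ?_⟩
  intro f hf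
  rw [hT]
  set c : ι → 𝕜 := b.equivFun ⟨f, hf⟩ with hc
  have hfs : (∑ i, c i • b i) = (⟨f, hf⟩ : F) := b.sum_equivFun ⟨f, hf⟩
  have hfX : ∑ i, c i • (b i : X) = f := by
    have := congrArg Subtype.val hfs
    simpa using this
  have hfW : (⟨f, hW'W (hFW' hf)⟩ : W)
      = ∑ i, c i • (⟨(b i : X), hW'W (hFW' (b i).2)⟩ : W) := by
    apply Subtype.ext
    simp [hfX]
  have h1 : A ⟨f, hW'W (hFW' hf)⟩ - f
      = ∑ i, c i • (A ⟨(b i : X), hW'W (hFW' (b i).2)⟩ - (b i : X)) := by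
    rw [hfW, map_sum]
    simp only [map_smul, smul_sub, Finset.sum_sub_distrib]
    rw [hfX]
  rw [h1]
  have h2 : ‖∑ i, c i • (A ⟨(b i : X), hW'W (hFW' (b i).2)⟩ - (b i : X))‖
      ≤ ∑ _i : ι, (C * ‖f‖) * δ := by
    refine norm_sum_le_of_le _ fun i _ => ?_
    rw [norm_smul]
    have h3 : ‖c i‖ ≤ C * ‖f‖ := by
      have := hC c i
      rwa [hfX] at this
    have h4 := hb i
    have h5 := norm_nonneg (c i)
    exact mul_le_mul h3 h4 (norm_nonneg _) (h5.trans h3)
  refine h2.trans_eq ?_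
  rw [Finset.sum_const, Finset.card_univ, nsmul_eq_mul]
  ring

theorem exists_near_fix [TopologicalSpace.SeparableSpace X] (hX : IsoHom 𝕜 X)
    {F Z : Submodule 𝕜 X} [FiniteDimensional 𝕜 F] (hZc : IsClosed (Z : Set X))
    (hZi : ¬ FiniteDimensional 𝕜 Z) (π : X →L[𝕜] F) (_hπ : ∀ f : F, π f = f)
    {δ : ℝ} (hδ : 0 < δ) :
    ∃ Z₁ : Submodule 𝕜 X, IsClosed (Z₁ : Set X) ∧ Z₁ ≤ Z ∧ (∀ z ∈ Z₁, π z = 0) ∧
      ∃ T : (F ⊔ Z₁ : Submodule 𝕜 X) →ₗᵢ[𝕜] (F ⊔ Z₁ : Submodule 𝕜 X), ¬ Function.Surjective T ∧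
        ∀ f (hf : f ∈ F), ‖(T ⟨f, (le_sup_left : F ≤ F ⊔ Z₁) hf⟩ : X) - f‖ ≤ δ * ‖f‖ := by
  classical
  obtain ⟨x, φ, hxZ, hπx, hφF, hφx, hφx'⟩ := exists_biorthogonal (F := F) hZi (π : X →ₗ[𝕜] F)
  let e : ℚ ≃ ℕ := Denumerable.eqv ℚ
  let Z' : ℝ → Submodule 𝕜 X := fun t =>
    (Submodule.span 𝕜 ((fun r : ℚ => x (e r)) '' {r : ℚ | (r : ℝ) < t})).topologicalClosure
  have hZ'c : ∀ t, IsClosed (Z' t : Set X) := fun t => Submodule.isClosed_topologicalClosure _
  have hle : ∀ t (C : Submodule 𝕜 X), IsClosed (C : Set X) →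
      (∀ r : ℚ, (r : ℝ) < t → x (e r) ∈ C) → Z' t ≤ C := by
    intro t C hC h
    apply Submodule.topologicalClosure_minimal _ _ hC
    rw [Submodule.span_le]
    rintro _ ⟨r, hr, rfl⟩
    exact h r hr
  have hmem : ∀ (t : ℝ) (r : ℚ), (r : ℝ) < t → x (e r) ∈ Z' t := by
    intro t r hr
    apply Submodule.le_topologicalClosure
    exact Submodule.subset_span ⟨r, hr, rfl⟩
  have hZ'Z : ∀ t, Z' t ≤ Z := fun t => hle t Z hZc fun r _ => hxZ _
  have hZ'π : ∀ t, ∀ z ∈ Z' t, π z = 0 := by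
    intro t z hz
    have h1 : Z' t ≤ LinearMap.ker (π : X →ₗ[𝕜] F) := by
      apply hle t _ (π.isClosed_ker)
      intro r _
      exact hπx _
    exact h1 hz
  have hZ'mono : ∀ s t, s ≤ t → Z' s ≤ Z' t := by
    intro s t hst
    exact hle s _ (hZ'c t) fun r hr => hmem t r (hr.trans_le hst)
  have hφZ' : ∀ (s : ℝ) (r : ℚ), s < r → ∀ z ∈ F ⊔ Z' s, φ (e r) z = 0 := by
    intro s r hsr z hz
    have h1 : F ⊔ Z' s ≤ LinearMap.ker (φ (e r) : X →ₗ[𝕜] 𝕜) := by
      apply sup_le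
      · intro f hf; exact hφF _ f hf
      · apply hle s _ ((φ (e r)).isClosed_ker)
        intro r' hr'
        apply hφx'
        intro h
        have : r' = r := (e.injective h).symm
        rw [this] at hr'
        linarith
    exact h1 hz
  let W : ℝ → Submodule 𝕜 X := fun t => F ⊔ Z' t
  have hWc : ∀ t, IsClosed (W t : Set X) := by
    intro t
    have h1 : IsClosed ((Z' t ⊔ F : Submodule 𝕜 X) : Set X) :=
      Submodule.isClosed_sup_finiteDimensional _ _ (hZ'c t)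
    rw [sup_comm] at h1
    exact h1
  have hWi : ∀ t, ¬ FiniteDimensional 𝕜 (W t) := by
    intro t hfd
    -- infinitely many rationals below `t`
    have hinf : ∀ n : ℕ, ∃ r : ℚ, t - (n + 1) < r ∧ (r : ℝ) < t - n := fun n =>
      exists_rat_btwn (by linarith)
    choose r hr1 hr2 using hinf
    have hrinj : ∀ m n, m < n → r m ≠ r n := by
      intro m n hmn h
      have h1 := hr1 m
      have h2 := hr2 n
      rw [← h] at h2
      have : (m : ℝ) + 1 ≤ n := by exact_mod_cast hmn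
      linarith
    have hrinj' : Function.Injective r := by
      intro m n h
      rcases lt_trichotomy m n with h1 | h1 | h1
      · exact absurd h (hrinj m n h1)
      · exact h1
      · exact absurd h.symm (hrinj n m h1)
    have hmemW : ∀ n, x (e (r n)) ∈ W t := fun n =>
      (le_sup_right : Z' t ≤ W t) (hmem t (r n) (by
        have := hr2 n
        have h0 : (0 : ℝ) ≤ n := Nat.cast_nonneg n
        linarith))
    have hli : LinearIndependent 𝕜 (fun n => (⟨x (e (r n)), hmemW n⟩ : W t)) := by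
      rw [linearIndependent_iff']
      intro s g hg i hi
      have h1 := congrArg (fun w : W t => φ (e (r i)) (w : X)) hg
      simp only [Submodule.coe_sum, Submodule.coe_smul, map_sum, map_smul, smul_eq_mul,
        ZeroMemClass.coe_zero, map_zero] at h1
      rw [Finset.sum_eq_single i] at h1
      · rwa [hφx, mul_one] at h1
      · intro b _ hb
        rw [hφx', mul_zero]
        intro h
        exact hb (hrinj' (e.injective h)).symm
      · intro h; exact absurd hi h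
    have := hli.finite
    exact not_finite ℕ
  have hiso : ∀ t, Nonempty (X ≃ₗᵢ[𝕜] W t) := fun t => hX (W t) (hWc t) (hWi t)
  let τ : ∀ t, X ≃ₗᵢ[𝕜] W t := fun t => (hiso t).some
  -- basis of `F`
  obtain ⟨ι, _, b, C, hC0, hC⟩ : ∃ (ι : Type) (_ : Fintype ι) (b : Module.Basis ι 𝕜 F) (C : ℝ),
      0 ≤ C ∧ ∀ (c : ι → 𝕜) (i : ι), ‖c i‖ ≤ C * ‖∑ j, c j • (b j : X)‖ := by
    let b := Module.finBasis 𝕜 F
    refine ⟨_, inferInstance, b, ‖(b.equivFunL : F →L[𝕜] (Fin (Module.finrank 𝕜 F) → 𝕜))‖,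
      norm_nonneg _, ?_⟩
    intro c i
    have h1 := (b.equivFunL : F →L[𝕜] (Fin (Module.finrank 𝕜 F) → 𝕜)).le_opNorm (∑ j, c j • b j)
    have h2 : (b.equivFunL : F →L[𝕜] (Fin (Module.finrank 𝕜 F) → 𝕜)) (∑ j, c j • b j) = c := by
      have := b.equivFun.apply_symm_apply c
      rw [b.equivFun_symm_apply] at this
      exact this
    rw [h2] at h1
    have h3 : ‖(∑ j, c j • b j : F)‖ = ‖∑ j, c j • (b j : X)‖ := by
      have h4 : ((∑ j, c j • b j : F) : X) = ∑ j, c j • (b j : X) := by simp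
      rw [← h4]
      rfl
    rw [h3] at h1
    exact (norm_le_pi_norm c i).trans h1
  have hFW : ∀ t, F ≤ W t := fun t => le_sup_left
  let v : ℝ → (ι → X) := fun t i => (τ t).symm ⟨(b i : X), hFW t (b i).2⟩
  obtain ⟨s, t, hst, hd⟩ := exists_close v (δ := δ / (Fintype.card ι * C + 1)) (by positivity)
  have hWst : W s ≤ W t := sup_le_sup_left (hZ'mono s t hst.le) F
  obtain ⟨T, hTW, hTf⟩ := near_fix_of_close b (hFW s) hWst (τ t) (τ s)
    (δ := δ / (Fintype.card ι * C + 1)) (by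
      intro i
      have h1 := (dist_le_pi_dist (v s) (v t) i).trans hd.le
      rw [dist_comm, dist_eq_norm] at h1
      exact h1) hC
  refine ⟨Z' t, hZ'c t, hZ'Z t, hZ'π t, T, ?_, ?_⟩
  · intro hsur
    obtain ⟨r, hr1, hr2⟩ := exists_rat_btwn hst
    have hxW : x (e r) ∈ W t := (le_sup_right : Z' t ≤ W t) (hmem t r hr2)
    obtain ⟨w, hw⟩ := hsur ⟨x (e r), hxW⟩
    have h1 : ((T w : W t) : X) = x (e r) := congrArg Subtype.val hw
    have h2 := hφZ' s r hr1 _ (hTW w)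
    rw [h1, hφx] at h2
    exact one_ne_zero h2
  · intro f hf
    refine (hTf f hf).trans ?_
    gcongr
    have hk : (0 : ℝ) ≤ Fintype.card ι := Nat.cast_nonneg _
    rw [mul_div_assoc', div_le_iff₀ (by positivity)]
    nlinarith [mul_nonneg hk hC0]

end homog

end PoolAgent.MP_df72c7_an
end

section

/-!
# Almost hermitian vectors (complex scalars)
-/

namespace PoolAgent.MP_df72c7_an

open Filter Topology Complex

section core

variable {W : Type*} [NormedAddCommGroup W] [NormedSpace ℂ W]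

/-- Every unimodular number is close to a power of `exp (π i / n)`. -/
theorem exists_pow_near {n : ℕ} (hn : 0 < n) {μ : ℂ} (hμ : ‖μ‖ = 1) :
    ∃ k : ℕ, k ≤ 2 * n ∧ ‖μ - (exp ((Real.pi / n : ℝ) * I)) ^ k‖ ≤ Real.pi / n := by
  have hn' : (0 : ℝ) < n := by exact_mod_cast hn
  have hpi := Real.pi_pos
  obtain ⟨θ, hθ0, hθ1, hθ⟩ : ∃ θ : ℝ, 0 ≤ θ ∧ θ ≤ 2 * Real.pi ∧ exp (θ * I) = μ := by
    by_cases h : 0 ≤ arg μ
    · refine ⟨arg μ, h, by linarith [arg_le_pi μ], ?_⟩
      have := norm_mul_exp_arg_mul_I μ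
      rwa [hμ, ofReal_one, one_mul] at this
    · push Not at h
      refine ⟨arg μ + 2 * Real.pi, by linarith [neg_pi_lt_arg μ], by linarith, ?_⟩
      have := norm_mul_exp_arg_mul_I μ
      rw [hμ, ofReal_one, one_mul] at this
      push_cast
      rw [add_mul, exp_add, this, exp_two_pi_mul_I, mul_one]
  refine ⟨⌊θ * n / Real.pi⌋₊, ?_, ?_⟩
  · have h1 : θ * n / Real.pi ≤ 2 * n := by
      rw [div_le_iff₀ hpi]; nlinarith
    have h2 := Nat.floor_le_floor h1
    have h3 : ⌊(2 * n : ℝ)⌋₊ = 2 * n := by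
      have : (2 * n : ℝ) = ((2 * n : ℕ) : ℝ) := by push_cast; ring
      rw [this, Nat.floor_natCast]
    omega
  · set k := ⌊θ * n / Real.pi⌋₊ with hk
    have hk1 : (k : ℝ) ≤ θ * n / Real.pi := Nat.floor_le (by positivity)
    have hk2 : θ * n / Real.pi < k + 1 := Nat.lt_floor_add_one _
    rw [le_div_iff₀ hpi] at hk1
    rw [div_lt_iff₀ hpi] at hk2
    have h1 : exp ((Real.pi / n : ℝ) * I) ^ k = exp (((k * (Real.pi / n) : ℝ)) * I) := by
      rw [← exp_nat_mul]; congr 1; push_cast; ring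
    rw [h1, ← hθ]
    have h2 : exp (θ * I) = exp (((k * (Real.pi / n) : ℝ)) * I)
        * exp (I * ((θ - k * (Real.pi / n) : ℝ))) := by
      rw [← exp_add]; congr 1; push_cast; ring
    have h3 : exp (θ * I) - exp (((k * (Real.pi / n) : ℝ)) * I)
        = exp (((k * (Real.pi / n) : ℝ)) * I)
          * (exp (I * ((θ - k * (Real.pi / n) : ℝ))) - 1) := by
      rw [h2]; ring
    rw [h3, norm_mul, norm_exp_ofReal_mul_I, one_mul]
    refine (Real.norm_exp_I_mul_ofReal_sub_one_le).trans ?_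
    rw [Real.norm_eq_abs, abs_le]
    constructor
    · have : (k : ℝ) * (Real.pi / n) ≤ θ := by
        rw [mul_div_assoc', div_le_iff₀ hn']; linarith
      have h5 : 0 < Real.pi / n := by positivity
      linarith
    · have : θ ≤ (k + 1) * (Real.pi / n) := by
        rw [mul_div_assoc', le_div_iff₀ hn']; linarith
      linarith

theorem orbit_estimate (T : W →ₗᵢ[ℂ] W) {ω : ℂ} (hω : ‖ω‖ = 1) {δ η : ℝ} {x w : W} {a : ℂ}
    (hTx : ‖T x - ω • x‖ ≤ δ) (hη : ‖a‖ * δ + ‖T w - w‖ ≤ η) (k : ℕ) :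
    ‖(T^[k]) (a • x + w) - ((ω ^ k * a) • x + w)‖ ≤ k * η := by
  induction k with
  | zero => simp
  | succ k ih =>
    rw [Function.iterate_succ_apply']
    have h1 : T ((T^[k]) (a • x + w)) - ((ω ^ (k + 1) * a) • x + w)
        = T ((T^[k]) (a • x + w) - ((ω ^ k * a) • x + w)) + (ω ^ k * a) • (T x - ω • x)
          + (T w - w) := by
      rw [map_sub, map_add, map_smul, smul_sub, smul_smul, pow_succ]
      have : ω ^ k * a * ω = ω ^ k * ω * a := by ring
      rw [this]; abel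
    rw [h1]
    refine (norm_add_le _ _).trans ?_
    have h2 := norm_add_le (T ((T^[k]) (a • x + w) - ((ω ^ k * a) • x + w)))
      ((ω ^ k * a) • (T x - ω • x))
    rw [T.norm_map, norm_smul, norm_mul, norm_pow, hω, one_pow, one_mul] at h2
    have h3 : ‖a‖ * ‖T x - ω • x‖ ≤ ‖a‖ * δ := by gcongr
    push_cast
    linarith

theorem orbit_core (T : W →ₗᵢ[ℂ] W) {n : ℕ} (hn : 0 < n) {δ : ℝ} (hδ0 : 0 ≤ δ)
    (hδ : 8 * n * δ ≤ 1) {x : W} (hx : ‖x‖ = 1)
    (hTx : ‖T x - exp ((Real.pi / n : ℝ) * I) • x‖ ≤ δ) (a μ : ℂ) (hμ : ‖μ‖ = 1) {w : W}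
    (hw : ‖T w - w‖ ≤ δ * ‖w‖) :
    ‖(μ * a) • x + w‖ ≤ (1 + 8 * n * δ + 4 * Real.pi / n) * ‖a • x + w‖ := by
  set ω := exp ((Real.pi / n : ℝ) * I) with hωdef
  have hω : ‖ω‖ = 1 := norm_exp_ofReal_mul_I _
  have hn' : (0 : ℝ) < n := by exact_mod_cast hn
  set η := δ * (‖a‖ + ‖w‖) with hηdef
  set D := ‖a • x + w‖ with hD
  have hη : ‖a‖ * δ + ‖T w - w‖ ≤ η := by rw [hηdef]; nlinarith
  have hiter : ∀ k : ℕ, ‖(T^[k]) (a • x + w)‖ = D := by
    intro k
    induction k with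
    | zero => rfl
    | succ k ih => rw [Function.iterate_succ_apply', T.norm_map, ih]
  have hk : ∀ k : ℕ, ‖(ω ^ k * a) • x + w‖ ≤ D + k * η := by
    intro k
    have h1 := orbit_estimate T hω hTx hη k
    have h2 : (ω ^ k * a) • x + w = (T^[k]) (a • x + w)
        - ((T^[k]) (a • x + w) - ((ω ^ k * a) • x + w)) := by abel
    rw [h2]
    refine (norm_sub_le _ _).trans ?_
    rw [hiter]
    linarith
  -- bound of `‖w‖`
  have hωn : ω ^ n = -1 := by
    rw [hωdef, ← exp_nat_mul]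
    have hnc : (n : ℂ) ≠ 0 := by exact_mod_cast hn.ne'
    have : (n : ℂ) * (((Real.pi / n : ℝ) : ℂ) * I) = Real.pi * I := by
      push_cast
      field_simp
    rw [this, exp_pi_mul_I]
  have hw1 : ‖w‖ ≤ D + n * η / 2 := by
    have h1 := hk n
    rw [hωn] at h1
    have h2 : (2 : ℝ) * ‖w‖ ≤ ‖a • x + w‖ + ‖(-1 * a) • x + w‖ := by
      have h3 : (2 : ℂ) • w = (a • x + w) + ((-1 * a) • x + w) := by
        rw [neg_one_mul, neg_smul, two_smul]; abel
      have h4 : ‖(2 : ℂ) • w‖ = 2 * ‖w‖ := by rw [norm_smul]; norm_num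
      rw [← h4, h3]
      exact norm_add_le _ _
    linarith
  have ha1 : ‖a‖ ≤ D + ‖w‖ := by
    have h1 : a • x = (a • x + w) - w := by abel
    have h2 : ‖a • x‖ = ‖a‖ := by rw [norm_smul, hx, mul_one]
    rw [← h2, h1]
    exact norm_sub_le _ _
  have hD0 : 0 ≤ D := norm_nonneg _
  have hM : ‖a‖ + ‖w‖ ≤ 4 * D := by
    have h1 : n * η = n * δ * (‖a‖ + ‖w‖) := by rw [hηdef]; ring
    have h2 : 0 ≤ ‖a‖ + ‖w‖ := by positivity
    have h3 : n * δ * (‖a‖ + ‖w‖) ≤ (1 / 8) * (‖a‖ + ‖w‖) := by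
      apply mul_le_mul_of_nonneg_right _ h2
      linarith
    linarith
  obtain ⟨k, hk2, hkμ⟩ := exists_pow_near hn hμ
  have h1 : (μ * a) • x + w = ((ω ^ k * a) • x + w) + ((μ - ω ^ k) * a) • x := by
    rw [sub_mul, sub_smul]; abel
  have h2 : ‖((μ - ω ^ k) * a) • x‖ ≤ Real.pi / n * ‖a‖ := by
    rw [norm_smul, norm_mul, hx, mul_one]
    gcongr
  have hk' : (k : ℝ) ≤ 2 * n := by exact_mod_cast hk2
  have hη0 : 0 ≤ η := by positivity
  rw [h1]
  refine (norm_add_le _ _).trans ?_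
  have h3 := hk k
  have h4 : (k : ℝ) * η ≤ 2 * n * η := by gcongr
  have h5 : 2 * n * η ≤ 8 * n * δ * D := by
    rw [hηdef]
    have : 2 * n * (δ * (‖a‖ + ‖w‖)) ≤ 2 * n * (δ * (4 * D)) := by gcongr
    linarith
  have h6 : Real.pi / n * ‖a‖ ≤ 4 * Real.pi / n * D := by
    have h7 : ‖a‖ ≤ 4 * D := by linarith [norm_nonneg w]
    have : Real.pi / n * ‖a‖ ≤ Real.pi / n * (4 * D) := by gcongr
    calc Real.pi / n * ‖a‖ ≤ Real.pi / n * (4 * D) := this
      _ = 4 * Real.pi / n * D := by ring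
  linarith

end core

section main

variable {X : Type*} [NormedAddCommGroup X] [NormedSpace ℂ X] [CompleteSpace X]
  [TopologicalSpace.SeparableSpace X]

/-- In a homogeneous complex space: given `F` finite-dimensional and `Z` closed
infinite-dimensional, there are a unit vector `x ∈ Z` and `V ⊆ Z` closed and infinite-dimensional
such that the rotations of `x` are almost isometric relative to `F + V`. -/
theorem exists_hermitian (hX : IsoHom ℂ X) {F Z : Submodule ℂ X} [FiniteDimensional ℂ F]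
    (hZc : IsClosed (Z : Set X)) (hZi : ¬ FiniteDimensional ℂ Z) {ε : ℝ} (hε : 0 < ε) :
    ∃ x ∈ Z, ‖x‖ = 1 ∧ ∃ V : Submodule ℂ X, IsClosed (V : Set X) ∧ ¬ FiniteDimensional ℂ V ∧
      V ≤ Z ∧ ∀ a μ : ℂ, ‖μ‖ = 1 → ∀ w ∈ F ⊔ V, ‖(μ * a) • x + w‖ ≤ (1 + ε) * ‖a • x + w‖ := by
  obtain ⟨π, hπ⟩ := Submodule.ClosedComplemented.of_finiteDimensional F
  obtain ⟨n, hn⟩ := exists_nat_gt (8 * Real.pi / ε)
  have hn' : (0 : ℝ) < n := lt_of_le_of_lt (by have := Real.pi_pos; positivity) hn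
  have hn0 : 0 < n := by exact_mod_cast hn'
  obtain ⟨δ, hδ, hδ1, hδ2⟩ : ∃ δ : ℝ, 0 < δ ∧ 8 * n * δ ≤ 1 ∧ 8 * n * δ ≤ ε / 2 := by
    refine ⟨min 1 (ε / 2) / (8 * n), by positivity, ?_, ?_⟩
    · rw [mul_div_cancel₀ _ (by positivity)]; exact min_le_left _ _
    · rw [mul_div_cancel₀ _ (by positivity)]; exact min_le_right _ _
  set K := ‖π‖ with hK
  have hK0 : 0 ≤ K := norm_nonneg π
  set δ' := δ / (2 * K + 1) with hδ'
  have hδ'0 : 0 < δ' := by positivity
  obtain ⟨Z₁, hZ₁c, hZ₁Z, hπZ₁, T, hTs, hTF⟩ := exists_near_fix hX hZc hZi π hπ hδ'0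
  -- the space `W`
  have hWc : IsClosed ((F ⊔ Z₁ : Submodule ℂ X) : Set X) := by
    have h1 : IsClosed ((Z₁ ⊔ F : Submodule ℂ X) : Set X) :=
      Submodule.isClosed_sup_finiteDimensional _ _ hZ₁c
    rw [sup_comm] at h1
    exact h1
  have hcomp : CompleteSpace (F ⊔ Z₁ : Submodule ℂ X) := hWc.completeSpace_coe
  have hker : ∀ w ∈ F ⊔ Z₁, π w = 0 → w ∈ Z₁ := by
    intro w hw h0
    obtain ⟨f, hf, z, hz, rfl⟩ := Submodule.mem_sup.mp hw
    have h1 : π f = ⟨f, hf⟩ := hπ ⟨f, hf⟩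
    rw [map_add, h1, hπZ₁ z hz, add_zero] at h0
    have h2 : f = 0 := congrArg Subtype.val h0
    rw [h2, zero_add]; exact hz
  let q : (F ⊔ Z₁ : Submodule ℂ X) →L[ℂ] F := π.comp (F ⊔ Z₁).subtypeL
  have hq : ∀ w, q w = π (w : X) := fun w => rfl
  -- `V`
  obtain ⟨V', hV'c, hV'i, hV'q, hV'T⟩ := exists_near_fixed_subspace T hTs q hδ'0
  -- `x`
  set ω := exp ((Real.pi / n : ℝ) * I) with hωdef
  have hω : ‖ω‖ = 1 := norm_exp_ofReal_mul_I _
  have hω0 : ω ≠ 0 := by rw [hωdef]; exact exp_ne_zero _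
  let T' : (F ⊔ Z₁ : Submodule ℂ X) →ₗᵢ[ℂ] (F ⊔ Z₁ : Submodule ℂ X) :=
    { toLinearMap := ω⁻¹ • T.toLinearMap
      norm_map' := fun w => by
        show ‖ω⁻¹ • T w‖ = ‖w‖
        rw [norm_smul, norm_inv, hω, inv_one, one_mul, T.norm_map] }
  have hT' : ∀ w, T' w = ω⁻¹ • T w := fun w => rfl
  have hT's : ¬ Function.Surjective T' := by
    intro h
    apply hTs
    intro y
    obtain ⟨w, hw⟩ := h (ω⁻¹ • y)
    refine ⟨w, ?_⟩
    rw [hT'] at hw
    exact smul_right_injective _ (inv_ne_zero hω0) hw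
  obtain ⟨x', hqx', hx'1, hTx'⟩ := exists_near_fixed_ker T' hT's q hδ
  have hx'T : ‖T x' - ω • x'‖ ≤ δ := by
    have h1 : T x' - ω • x' = ω • (T' x' - x') := by
      rw [hT', smul_sub, smul_smul, mul_inv_cancel₀ hω0, one_smul]
    rw [h1, norm_smul, hω, one_mul]
    exact hTx'.le
  refine ⟨(x' : X), hZ₁Z (hker _ x'.2 hqx'), hx'1, V'.map (F ⊔ Z₁).subtype, ?_, ?_, ?_, ?_⟩
  · -- closed
    rw [Submodule.map_coe]
    exact (hWc.isClosedEmbedding_subtypeVal.isClosedMap) _ hV'c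
  · intro hfd
    apply hV'i
    have h1 : Function.Injective ((F ⊔ Z₁).subtype) := Subtype.val_injective
    exact Module.Finite.equiv (Submodule.equivMapOfInjective _ h1 V').symm
  · rintro _ ⟨v, hv, rfl⟩
    exact hZ₁Z (hker _ v.2 (hV'q v hv))
  · intro a μ hμ w hw
    obtain ⟨f, hf, v, ⟨v', hv', rfl⟩, rfl⟩ := Submodule.mem_sup.mp hw
    have hfW : f ∈ F ⊔ Z₁ := (le_sup_left : F ≤ F ⊔ Z₁) hf
    -- estimate of `T w - w`
    have h1 : ‖T ((⟨f, hfW⟩ : (F ⊔ Z₁ : Submodule ℂ X)) + v') - (⟨f, hfW⟩ + v')‖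
        ≤ δ * ‖(⟨f, hfW⟩ : (F ⊔ Z₁ : Submodule ℂ X)) + v'‖ := by
      have h2 : ‖T (⟨f, hfW⟩ : (F ⊔ Z₁ : Submodule ℂ X)) - ⟨f, hfW⟩‖ ≤ δ' * ‖f‖ := hTF f hf
      have h3 := hV'T v' hv'
      have h4 : T ((⟨f, hfW⟩ : (F ⊔ Z₁ : Submodule ℂ X)) + v') - (⟨f, hfW⟩ + v')
          = (T (⟨f, hfW⟩ : (F ⊔ Z₁ : Submodule ℂ X)) - ⟨f, hfW⟩) + (T v' - v') := by
        rw [map_add]; abel
      set u : (F ⊔ Z₁ : Submodule ℂ X) := ⟨f, hfW⟩ + v' with hu
      have hπu : (π (u : X) : X) = f := by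
        have h5 : π f = ⟨f, hf⟩ := hπ ⟨f, hf⟩
        have h6 : π ((v' : (F ⊔ Z₁ : Submodule ℂ X)) : X) = 0 := hV'q v' hv'
        have h7 : (u : X) = f + (v' : X) := rfl
        rw [h7, map_add, h5, h6, add_zero]
      have hf' : ‖f‖ ≤ K * ‖u‖ := by
        have h5 := π.le_opNorm (u : X)
        have h6 : ‖π (u : X)‖ = ‖f‖ := by rw [← hπu]; rfl
        rw [h6] at h5
        exact h5
      have hv'' : ‖v'‖ ≤ (1 + K) * ‖u‖ := by
        have h5 : v' = u - ⟨f, hfW⟩ := by rw [hu]; abel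
        have h6 : ‖v'‖ ≤ ‖u‖ + ‖(⟨f, hfW⟩ : (F ⊔ Z₁ : Submodule ℂ X))‖ := by
          conv_lhs => rw [h5]
          exact norm_sub_le _ _
        have h7 : ‖(⟨f, hfW⟩ : (F ⊔ Z₁ : Submodule ℂ X))‖ = ‖f‖ := rfl
        rw [h7] at h6
        linarith
      rw [h4]
      refine (norm_add_le _ _).trans ?_
      have h8 : δ' * ‖f‖ + δ' * ‖v'‖ ≤ δ' * ((2 * K + 1) * ‖u‖) := by
        rw [← mul_add]
        gcongr
        linarith
      have h9 : δ' * (2 * K + 1) = δ := by
        rw [hδ']; field_simp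
      calc _ ≤ δ' * ‖f‖ + δ' * ‖v'‖ := add_le_add h2 h3
        _ ≤ δ' * ((2 * K + 1) * ‖u‖) := h8
        _ = δ * ‖u‖ := by rw [← mul_assoc, h9]
    have h2 := orbit_core T hn0 hδ.le hδ1 hx'1 hx'T a μ hμ h1
    have h3 : ‖(μ * a) • (x' : X) + (f + (v' : X))‖
        = ‖(μ * a) • x' + ((⟨f, hfW⟩ : (F ⊔ Z₁ : Submodule ℂ X)) + v')‖ := rfl
    have h4 : ‖a • (x' : X) + (f + (v' : X))‖
        = ‖a • x' + ((⟨f, hfW⟩ : (F ⊔ Z₁ : Submodule ℂ X)) + v')‖ := rfl
    have h5 : (F ⊔ Z₁).subtype v' = (v' : X) := rfl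
    rw [h5, h3, h4]
    refine h2.trans ?_
    apply mul_le_mul_of_nonneg_right _ (norm_nonneg _)
    have h6 : 4 * Real.pi / n ≤ ε / 2 := by
      rw [div_lt_iff₀ hε] at hn
      rw [div_le_iff₀ hn']
      linarith
    linarith

end main

end PoolAgent.MP_df72c7_an
end

section

/-!
# From single almost-invariant pieces to total systems
-/

namespace PoolAgent.MP_df72c7_an

open Filter Topology

section general

variable {𝕜 : Type*} [RCLike 𝕜] {H : Type*} [NormedAddCommGroup H] [NormedSpace 𝕜 H]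
  {X : Type*} [NormedAddCommGroup X] [NormedSpace 𝕜 X]

/-- `‖L z + w‖` depends, up to the factor `1 + ε`, only on `‖z‖` and `w ∈ G`. -/
def RelH (ε : ℝ) (L : H →L[𝕜] X) (G : Submodule 𝕜 X) : Prop :=
  ∀ z z' : H, ‖z‖ = ‖z'‖ → ∀ w ∈ G, ‖L z' + w‖ ≤ (1 + ε) * ‖L z + w‖

variable (𝕜 H X) in
/-- Existence of pieces modelled on `H`, relative to finite-dimensional subspaces and
infinite-dimensional tails. -/
def PropP : Prop := ∀ (F Z : Submodule 𝕜 X), FiniteDimensional 𝕜 F → IsClosed (Z : Set X) →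
  ¬ FiniteDimensional 𝕜 Z → ∀ ε : ℝ, 0 < ε → ∃ L : H →L[𝕜] X, (∀ z, L z ∈ Z) ∧ L ≠ 0 ∧
    ∃ V : Submodule 𝕜 X, IsClosed (V : Set X) ∧ ¬ FiniteDimensional 𝕜 V ∧ V ≤ Z ∧
      RelH ε L (F ⊔ V)

/-- The linear map `z ↦ ∑ L n (z n)`. -/
noncomputable def Lam (L : ℕ → (H →L[𝕜] X)) : (ℕ →₀ H) →ₗ[𝕜] X :=
  Finsupp.lsum 𝕜 (fun n => (L n : H →ₗ[𝕜] X))

theorem Lam_apply (L : ℕ → (H →L[𝕜] X)) (z : ℕ →₀ H) : Lam L z = z.sum fun n h => L n h := by
  simp [Lam]

theorem Lam_eq_sum_range (L : ℕ → (H →L[𝕜] X)) (z : ℕ →₀ H) {N : ℕ}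
    (hN : z.support ⊆ Finset.range N) : Lam L z = ∑ n ∈ Finset.range N, L n (z n) := by
  rw [Lam_apply, Finsupp.sum]
  apply Finset.sum_subset hN
  intro n _ hn
  rw [Finsupp.notMem_support_iff.mp hn, map_zero]

/-- Joint invariance of a system of pieces. -/
def Joint (ε : ℝ) (L : ℕ → (H →L[𝕜] X)) : Prop :=
  ∀ z z' : ℕ →₀ H, (∀ n, ‖z n‖ = ‖z' n‖) → ‖Lam L z'‖ ≤ (1 + ε) * ‖Lam L z‖

variable (𝕜 H X) in
/-- Existence of total systems. -/
def PropU : Prop := ∀ ε : ℝ, 0 < ε → ∃ L : ℕ → (H →L[𝕜] X), DenseRange (Lam L) ∧ Joint ε L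

theorem joint_of_seq {L : ℕ → (H →L[𝕜] X)} {e : ℕ → ℝ} {G : ℕ → Submodule 𝕜 X}
    (he : ∀ n, 0 ≤ e n)
    (hL : ∀ n, RelH (e n) (L n) (G n)) (hG : ∀ n m, m ≠ n → ∀ z, L m z ∈ G n)
    {ε : ℝ} (hε : ∀ N, ∏ n ∈ Finset.range N, (1 + e n) ≤ 1 + ε) : Joint ε L := by
  classical
  intro z z' hzz'
  obtain ⟨N, hN⟩ : ∃ N, z.support ∪ z'.support ⊆ Finset.range N :=
    (z.support ∪ z'.support).exists_nat_subset_range
  rw [Lam_eq_sum_range L z (Finset.union_subset_left hN),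
    Lam_eq_sum_range L z' (Finset.union_subset_right hN)]
  have key : ∀ j ≤ N, ‖∑ n ∈ Finset.range N, L n (if n < j then z' n else z n)‖
      ≤ (∏ n ∈ Finset.range j, (1 + e n)) * ‖∑ n ∈ Finset.range N, L n (z n)‖ := by
    intro j
    induction j with
    | zero => intro _; simp
    | succ j ih =>
      intro hj
      have hjN : j ∈ Finset.range N := Finset.mem_range.mpr (by omega)
      have ihj := ih (by omega)
      set w := ∑ n ∈ (Finset.range N).erase j, L n (if n < j then z' n else z n) with hw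
      have h1 : ∑ n ∈ Finset.range N, L n (if n < j then z' n else z n) = L j (z j) + w := by
        rw [hw, ← Finset.add_sum_erase _ _ hjN, if_neg (lt_irrefl j)]
      have h2 : ∑ n ∈ Finset.range N, L n (if n < j + 1 then z' n else z n) = L j (z' j) + w := by
        rw [hw, ← Finset.add_sum_erase _ _ hjN, if_pos (Nat.lt_succ_self j)]
        congr 1
        apply Finset.sum_congr rfl
        intro n hn
        have hnj : n ≠ j := Finset.ne_of_mem_erase hn
        have : (n < j + 1) ↔ (n < j) := by omega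
        simp only [this]
      have hwG : w ∈ G j := by
        apply Submodule.sum_mem
        intro n hn
        exact hG j n (Finset.ne_of_mem_erase hn) _
      rw [h2, Finset.prod_range_succ]
      have h3 := hL j (z j) (z' j) (hzz' j) w hwG
      rw [h1] at ihj
      have h4 : 0 ≤ 1 + e j := by have := he j; linarith
      calc ‖L j (z' j) + w‖ ≤ (1 + e j) * ‖L j (z j) + w‖ := h3
        _ ≤ (1 + e j) * ((∏ n ∈ Finset.range j, (1 + e n))
            * ‖∑ n ∈ Finset.range N, L n (z n)‖) := by gcongr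
        _ = _ := by ring
  have h := key N le_rfl
  have h1 : ∑ n ∈ Finset.range N, L n (if n < N then z' n else z n)
      = ∑ n ∈ Finset.range N, L n (z' n) :=
    Finset.sum_congr rfl fun n hn => by rw [if_pos (Finset.mem_range.mp hn)]
  rw [h1] at h
  exact h.trans (mul_le_mul_of_nonneg_right (hε N) (norm_nonneg _))

theorem Joint.coeff_zero {ε : ℝ} {L : ℕ → (H →L[𝕜] X)} (hL : Joint ε L) {z : ℕ →₀ H}
    (hz : Lam L z = 0) (n : ℕ) : L n (z n) = 0 := by
  classical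
  have h1 := hL z (z - Finsupp.single n ((2 : 𝕜) • z n)) (by
    intro m
    by_cases h : m = n
    · subst h
      simp only [Finsupp.coe_sub, Pi.sub_apply, Finsupp.single_eq_same]
      have : z m - (2 : 𝕜) • z m = - z m := by rw [two_smul]; abel
      rw [this, norm_neg]
    · simp only [Finsupp.coe_sub, Pi.sub_apply]
      rw [Finsupp.single_eq_of_ne h, sub_zero])
  rw [map_sub, hz, norm_zero, mul_zero, zero_sub, norm_neg] at h1
  have h2 : Lam L (Finsupp.single n ((2 : 𝕜) • z n)) = (2 : 𝕜) • L n (z n) := by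
    rw [Lam_apply, Finsupp.sum_single_index (by simp), map_smul]
  rw [h2] at h1
  have h3 := norm_le_zero_iff.mp h1
  have h4 : (2 : 𝕜) ≠ 0 := two_ne_zero
  exact (smul_eq_zero.mp h3).resolve_left h4

/-- The exponents used to sum up errors. -/
theorem exists_errors {ε : ℝ} (hε : 0 < ε) : ∃ e : ℕ → ℝ, (∀ n, 0 < e n) ∧
    ∀ N, ∏ n ∈ Finset.range N, (1 + e n) ≤ 1 + ε := by
  set l := Real.log (1 + ε) with hl
  have hl0 : 0 < l := Real.log_pos (by linarith)
  refine ⟨fun n => Real.exp (l / 2 ^ (n + 1)) - 1, fun n => ?_, fun N => ?_⟩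
  · have : 0 < l / 2 ^ (n + 1) := by positivity
    have := Real.add_one_lt_exp this.ne'
    linarith
  · have h1 : ∏ n ∈ Finset.range N, (1 + (Real.exp (l / 2 ^ (n + 1)) - 1))
        = Real.exp (∑ n ∈ Finset.range N, l / 2 ^ (n + 1)) := by
      rw [Real.exp_sum]
      exact Finset.prod_congr rfl fun n _ => by ring
    rw [h1]
    have h2 : ∑ n ∈ Finset.range N, l / 2 ^ (n + 1) ≤ l := by
      have h3 : ∑ n ∈ Finset.range N, l / 2 ^ (n + 1) = l * (1 - (1 / 2) ^ N) := by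
        clear h1
        induction N with
        | zero => simp
        | succ N ih =>
          rw [Finset.sum_range_succ, ih]
          have : l / 2 ^ (N + 1) = l * (1 / 2) ^ (N + 1) := by
            rw [one_div, inv_pow]; rfl
          rw [this, pow_succ]; ring
      rw [h3]
      have : (0 : ℝ) ≤ (1 / 2) ^ N := by positivity
      nlinarith
    calc Real.exp (∑ n ∈ Finset.range N, l / 2 ^ (n + 1)) ≤ Real.exp l := Real.exp_le_exp.mpr h2
      _ = 1 + ε := Real.exp_log (by linarith)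

/-- States of the recursive construction. -/
structure St (𝕜 X : Type*) [RCLike 𝕜] [NormedAddCommGroup X] [NormedSpace 𝕜 X] where
  F : Submodule 𝕜 X
  Z : Submodule 𝕜 X
  hF : FiniteDimensional 𝕜 F
  hZc : IsClosed (Z : Set X)
  hZi : ¬ FiniteDimensional 𝕜 Z

/-- The recursive construction: an infinite sequence of pieces. -/
theorem exists_seq_pieces [FiniteDimensional 𝕜 H] (hP : PropP 𝕜 H X)
    (hXi : ¬ FiniteDimensional 𝕜 X) (e : ℕ → ℝ) (he : ∀ n, 0 < e n) :
    ∃ (L : ℕ → (H →L[𝕜] X)) (G : ℕ → Submodule 𝕜 X), (∀ n, L n ≠ 0) ∧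
      (∀ n, RelH (e n) (L n) (G n)) ∧ ∀ n m, m ≠ n → ∀ z, L m z ∈ G n := by
  have hstep : ∀ (s : St 𝕜 X) (n : ℕ), ∃ (L : H →L[𝕜] X) (V : Submodule 𝕜 X),
      (∀ z, L z ∈ s.Z) ∧ L ≠ 0 ∧ IsClosed (V : Set X) ∧ ¬ FiniteDimensional 𝕜 V ∧ V ≤ s.Z ∧
      RelH (e n) L (s.F ⊔ V) := by
    intro s n
    obtain ⟨L, h1, h2, V, h3, h4, h5, h6⟩ := hP s.F s.Z s.hF s.hZc s.hZi (e n) (he n)
    exact ⟨L, V, h1, h2, h3, h4, h5, h6⟩
  choose Lc Vc hLZ hL0 hVc hVi hVZ hRel using hstep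
  have hfr : ∀ (s : St 𝕜 X) (n : ℕ),
      FiniteDimensional 𝕜 (s.F ⊔ (LinearMap.range (Lc s n : H →ₗ[𝕜] X)) : Submodule 𝕜 X) := by
    intro s n
    have := s.hF
    exact inferInstance
  have htop : ¬ FiniteDimensional 𝕜 (⊤ : Submodule 𝕜 X) := by
    intro h
    exact hXi (Module.Finite.equiv Submodule.topEquiv)
  let s0 : St 𝕜 X := ⟨⊥, ⊤, inferInstance, isClosed_univ, htop⟩
  let next : ℕ → St 𝕜 X → St 𝕜 X := fun n s =>
    ⟨s.F ⊔ (LinearMap.range (Lc s n : H →ₗ[𝕜] X)), Vc s n, hfr s n, hVc s n, hVi s n⟩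
  let S : ℕ → St 𝕜 X := fun n => Nat.rec s0 next n
  have hS : ∀ n, S (n + 1) = next n (S n) := fun n => rfl
  let L : ℕ → (H →L[𝕜] X) := fun n => Lc (S n) n
  let V : ℕ → Submodule 𝕜 X := fun n => Vc (S n) n
  have hSF : ∀ n, (S (n + 1)).F = (S n).F ⊔ LinearMap.range (L n : H →ₗ[𝕜] X) := fun n => rfl
  have hSZ : ∀ n, (S (n + 1)).Z = V n := fun n => rfl
  have hVle : ∀ n, V n ≤ (S n).Z := fun n => hVZ (S n) n
  have hZanti : ∀ n m, n ≤ m → (S m).Z ≤ (S n).Z := by
    intro n m hnm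
    induction m, hnm using Nat.le_induction with
    | base => exact le_rfl
    | succ m _ ih => exact (by rw [hSZ]; exact hVle m : (S (m + 1)).Z ≤ (S m).Z).trans ih
  have hFmono : ∀ n m, n < m → LinearMap.range (L n : H →ₗ[𝕜] X) ≤ (S m).F := by
    intro n m hnm
    induction m, hnm using Nat.le_induction with
    | base => rw [hSF]; exact le_sup_right
    | succ m _ ih => rw [hSF]; exact ih.trans le_sup_left
  refine ⟨L, fun n => (S n).F ⊔ V n, fun n => hL0 (S n) n, fun n => hRel (S n) n, ?_⟩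
  intro n m hmn z
  rcases lt_or_gt_of_ne hmn with h | h
  · exact (le_sup_left : (S n).F ≤ (S n).F ⊔ V n) (hFmono m n h ⟨z, rfl⟩)
  · have h1 : L m z ∈ (S m).Z := hLZ (S m) m z
    have h2 : (S m).Z ≤ V n := by
      rw [← hSZ]; exact hZanti (n + 1) m h
    exact (le_sup_right : V n ≤ (S n).F ⊔ V n) (h2 h1)

theorem lam_transport {Y : Type*} [NormedAddCommGroup Y] [NormedSpace 𝕜 Y]
    (τ : X →ₗᵢ[𝕜] Y) (L : ℕ → (H →L[𝕜] X)) (z : ℕ →₀ H) :
    Lam (fun n => τ.toContinuousLinearMap.comp (L n)) z = τ (Lam L z) := by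
  rw [Lam_apply, Lam_apply, Finsupp.sum, Finsupp.sum, map_sum]
  rfl

theorem propU_of_propP [FiniteDimensional 𝕜 H] (hX : IsoHom 𝕜 X) (hP : PropP 𝕜 H X)
    (hXi : ¬ FiniteDimensional 𝕜 X) : PropU 𝕜 H X := by
  classical
  intro ε hε
  obtain ⟨e, he, hprod⟩ := exists_errors hε
  obtain ⟨L, G, hL0, hLrel, hLG⟩ := exists_seq_pieces hP hXi e he
  have hJ : Joint ε L := joint_of_seq (fun n => (he n).le) hLrel hLG hprod
  let R : Submodule 𝕜 X := LinearMap.range (Lam L)
  let Y : Submodule 𝕜 X := R.topologicalClosure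
  have hYc : IsClosed (Y : Set X) := R.isClosed_topologicalClosure
  have hRY : R ≤ Y := R.le_topologicalClosure
  have hLY : ∀ n z, L n z ∈ Y := by
    intro n z
    apply hRY
    refine ⟨Finsupp.single n z, ?_⟩
    rw [Lam_apply, Finsupp.sum_single_index (by simp)]
  have hYi : ¬ FiniteDimensional 𝕜 Y := by
    intro hfd
    have hex : ∀ n, ∃ u : H, L n u ≠ 0 := by
      intro n
      by_contra hcon
      push Not at hcon
      exact hL0 n (ContinuousLinearMap.ext hcon)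
    choose u hu using hex
    have hli : LinearIndependent 𝕜 (fun n => (⟨L n (u n), hLY n _⟩ : Y)) := by
      rw [linearIndependent_iff']
      intro s g hg i hi
      let z : ℕ →₀ H := ∑ n ∈ s, Finsupp.single n (g n • u n)
      have hz : Lam L z = 0 := by
        have h1 := congrArg Subtype.val hg
        simp only [Submodule.coe_sum, Submodule.coe_smul, ZeroMemClass.coe_zero] at h1
        rw [map_sum]
        rw [← h1]
        apply Finset.sum_congr rfl
        intro n _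
        rw [Lam_apply, Finsupp.sum_single_index (by simp), map_smul]
      have h2 := hJ.coeff_zero hz i
      have h3 : z i = g i • u i := by
        simp only [z, Finsupp.coe_finsetSum, Finset.sum_apply]
        rw [Finset.sum_eq_single i]
        · rw [Finsupp.single_eq_same]
        · intro b _ hb
          rw [Finsupp.single_eq_of_ne (Ne.symm hb)]
        · intro h; exact absurd hi h
      rw [h3, map_smul] at h2
      exact (smul_eq_zero.mp h2).resolve_right (hu i)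
    have := hli.finite
    exact not_finite ℕ
  obtain ⟨τ⟩ := hX Y hYc hYi
  let L' : ℕ → (H →L[𝕜] Y) := fun n => (L n).codRestrict Y (hLY n)
  let τ' : Y →ₗᵢ[𝕜] X := τ.symm.toLinearIsometry
  refine ⟨fun n => τ'.toContinuousLinearMap.comp (L' n), ?_, ?_⟩
  · have hval : ∀ z, ((Lam L' z : Y) : X) = Lam L z := by
      intro z
      rw [Lam_apply, Lam_apply, Finsupp.sum, Finsupp.sum, Submodule.coe_sum]
      rfl
    intro x
    rw [Metric.mem_closure_iff]
    intro δ hδ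
    have h1 : ((τ x : Y) : X) ∈ closure (R : Set X) := (τ x).2
    rw [Metric.mem_closure_iff] at h1
    obtain ⟨b, ⟨z, rfl⟩, hb⟩ := h1 δ hδ
    refine ⟨_, ⟨z, rfl⟩, ?_⟩
    rw [lam_transport]
    have h2 : x = τ' (τ x) := (τ.symm_apply_apply x).symm
    conv_lhs => rw [h2]
    rw [τ'.dist_map]
    have h3 : dist (τ x) (Lam L' z) = dist ((τ x : Y) : X) ((Lam L' z : Y) : X) := rfl
    rw [h3, hval]
    exact hb
  · intro z z' hzz'
    rw [lam_transport, lam_transport, τ'.norm_map, τ'.norm_map]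
    have hval : ∀ z, ((Lam L' z : Y) : X) = Lam L z := by
      intro z
      rw [Lam_apply, Lam_apply, Finsupp.sum, Finsupp.sum, Submodule.coe_sum]
      rfl
    have h1 : ∀ z, ‖Lam L' z‖ = ‖Lam L z‖ := by
      intro z
      rw [← hval]; rfl
    rw [h1, h1]
    exact hJ z z' hzz'

end general

end PoolAgent.MP_df72c7_an
end
end
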